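import Pool.Agent.QGlue.Defs

/-!
The bubble measure: polar coordinates and the substitution `s = 1 / (1 + r ^ 2)`.
-/

set_option autoImplicit false

namespace Pool.Agent.QGlue

open MeasureTheory Real Set Filter Topology

namespace A1

/-- the density as a function of the radius -/
noncomputable def W (n : ℕ) (r : ℝ) : ℝ := cN n * (2 / (1 + r ^ 2)) ^ n

/-- the substitution -/
noncomputable def sub (r : ℝ) : ℝ := 1 / (1 + r ^ 2)

/-- its derivative -/
noncomputable def sub' (r : ℝ) : ℝ := -(2 * r) / (1 + r ^ 2) ^ 2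

theorem cN_pos (n : ℕ) : 0 < cN n := by
  unfold cN
  split_ifs <;> positivity

theorem bub_eq (n : ℕ) (y : E n) : bub n y = W n ‖y‖ := rfl

theorem W_nonneg (n : ℕ) (r : ℝ) : 0 ≤ W n r := by
  have := cN_pos n
  unfold W
  positivity

theorem continuous_W (n : ℕ) : Continuous (W n) := by
  unfold W
  have h : ∀ r : ℝ, 1 + r ^ 2 ≠ 0 := fun r => by positivity
  exact continuous_const.mul ((continuous_const.div (by fun_prop) h).pow n)

theorem measurable_bub (n : ℕ) : Measurable (bub n) := by
  have : bub n = fun y => W n ‖y‖ := rfl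
  rw [this]
  exact ((continuous_W n).comp continuous_norm).measurable

theorem measurable_dens (n : ℕ) : Measurable fun y : E n => ENNReal.ofReal (bub n y) :=
  (measurable_bub n).ennreal_ofReal

theorem hasDeriv_sub (r : ℝ) : HasDerivAt sub (sub' r) r := by
  unfold sub sub'
  have h : (1 : ℝ) + r ^ 2 ≠ 0 := by positivity
  have h1 : HasDerivAt (fun r : ℝ => 1 + r ^ 2) (2 * r) r := by
    have := (hasDerivAt_pow 2 r).const_add 1
    simpa using this
  have h2 := (hasDerivAt_const r (1 : ℝ)).div h1 h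
  refine h2.congr_deriv ?_
  simp

theorem image_sub : sub '' Ioi 0 = Ioo 0 1 := by
  ext s
  constructor
  · rintro ⟨r, hr, rfl⟩
    have hr' : 0 < r := hr
    have h : 0 < r ^ 2 := by positivity
    unfold sub
    constructor
    · positivity
    · rw [div_lt_one (by positivity)]
      linarith
  · rintro ⟨h0, h1⟩
    have h2 : 0 < (1 - s) / s := div_pos (by linarith) h0
    refine ⟨√((1 - s) / s), Real.sqrt_pos.2 h2, ?_⟩
    unfold sub
    rw [Real.sq_sqrt h2.le]
    field_simp
    ring

theorem injOn_sub : InjOn sub (Ioi 0) := by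
  intro a ha b hb h
  have ha' : 0 < a := ha
  have hb' : 0 < b := hb
  unfold sub at h
  have h1 : (1 : ℝ) + a ^ 2 = 1 + b ^ 2 := by
    have := congrArg (fun x => 1 / x) h
    simpa using this
  have h2 : a ^ 2 = b ^ 2 := by linarith
  exact (pow_left_inj₀ ha'.le hb'.le two_ne_zero).1 h2

theorem integral_sub (h : ℝ → ℝ) :
    ∫ s in Ioo (0 : ℝ) 1, h s = ∫ r in Ioi (0 : ℝ), |sub' r| * h (sub r) := by
  rw [← image_sub, integral_image_eq_integral_abs_deriv_smul measurableSet_Ioi
    (fun r _ => (hasDeriv_sub r).hasDerivWithinAt) injOn_sub]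
  rfl

theorem integrable_sub (h : ℝ → ℝ) :
    IntegrableOn h (Ioo (0 : ℝ) 1) ↔ IntegrableOn (fun r => |sub' r| * h (sub r)) (Ioi (0 : ℝ)) := by
  rw [← image_sub, integrableOn_image_iff_integrableOn_abs_deriv_smul measurableSet_Ioi
    (fun r _ => (hasDeriv_sub r).hasDerivWithinAt) injOn_sub]
  rfl

/-- the constant of the polar coordinates -/
noncomputable def K (n : ℕ) : ℝ := if n = 3 then 4 * π else 2 * π ^ 2

theorem K_ne {n : ℕ} : K n ≠ 0 := by
  unfold K
  split_ifs <;> positivity

theorem K_three : (3 : ℝ) * (volume : Measure (E 3)).real (Metric.ball 0 1) = K 3 := by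
  rw [Measure.real, EuclideanSpace.volume_ball_fin_three]
  rw [ENNReal.ofReal_one, one_pow, one_mul, ENNReal.toReal_ofReal (by positivity)]
  unfold K
  rw [if_pos rfl]
  ring

theorem K_four : (4 : ℝ) * (volume : Measure (E 4)).real (Metric.ball 0 1) = K 4 := by
  have h : Module.finrank ℝ (E 4) = 2 * 2 := by simp
  have : Nontrivial (E 4) := Module.nontrivial_of_finrank_pos (R := ℝ) (by rw [h]; norm_num)
  rw [Measure.real, InnerProductSpace.volume_ball_of_dim_even h]
  rw [ENNReal.ofReal_one, one_pow, one_mul, ENNReal.toReal_ofReal (by positivity)]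
  unfold K
  rw [if_neg (by norm_num)]
  norm_num [Nat.factorial]
  ring

theorem dens {n : ℕ} (hn : n = 3 ∨ n = 4) {r : ℝ} (hr : 0 < r) :
    K n * (r ^ (n - 1) * W n r) = |sub' r| * betaD n (sub r) := by
  have h1 : (0 : ℝ) < 1 + r ^ 2 := by positivity
  have habs : |sub' r| = 2 * r / (1 + r ^ 2) ^ 2 := by
    unfold sub'
    rw [neg_div, abs_neg, abs_of_pos (by positivity)]
  have hpi : (π : ℝ) ≠ 0 := Real.pi_ne_zero
  rw [habs]
  rcases hn with rfl | rfl
  · have hsq : √(sub r * (1 - sub r)) = r / (1 + r ^ 2) := by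
      have : sub r * (1 - sub r) = (r / (1 + r ^ 2)) ^ 2 := by
        unfold sub
        field_simp
        ring
      rw [this, Real.sqrt_sq (by positivity)]
    unfold K W betaD cN
    rw [if_pos rfl, if_pos rfl, if_pos rfl, hsq]
    simp only [Nat.reduceSub]
    field_simp
    ring
  · unfold K W betaD cN
    rw [if_neg (by norm_num), if_neg (by norm_num), if_neg (by norm_num)]
    unfold sub
    simp only [Nat.reduceSub]
    field_simp
    ring

/-- polar coordinates -/
theorem polar {n : ℕ} (hn : n = 3 ∨ n = 4) (f : ℝ → ℝ) :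
    ∫ x : E n, f ‖x‖ = K n * ∫ r in Ioi (0 : ℝ), r ^ (n - 1) * f r := by
  rcases hn with rfl | rfl
  · have h : Module.finrank ℝ (E 3) = 3 := by simp
    have : Nontrivial (E 3) := Module.nontrivial_of_finrank_pos (R := ℝ) (by rw [h]; norm_num)
    rw [integral_fun_norm_addHaar, h, ← K_three, nsmul_eq_mul, smul_eq_mul, ← mul_assoc]
    norm_num
  · have h : Module.finrank ℝ (E 4) = 4 := by simp
    have : Nontrivial (E 4) := Module.nontrivial_of_finrank_pos (R := ℝ) (by rw [h]; norm_num)
    rw [integral_fun_norm_addHaar, h, ← K_four, nsmul_eq_mul, smul_eq_mul, ← mul_assoc]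
    norm_num

theorem polar_int {n : ℕ} (hn : n = 3 ∨ n = 4) (f : ℝ → ℝ) :
    Integrable (fun x : E n => f ‖x‖) ↔ IntegrableOn (fun r => r ^ (n - 1) * f r) (Ioi (0 : ℝ)) := by
  rcases hn with rfl | rfl
  · have h : Module.finrank ℝ (E 3) = 3 := by simp
    have : Nontrivial (E 3) := Module.nontrivial_of_finrank_pos (R := ℝ) (by rw [h]; norm_num)
    rw [integrable_fun_norm_addHaar, h]
    rfl
  · have h : Module.finrank ℝ (E 4) = 4 := by simp
    have : Nontrivial (E 4) := Module.nontrivial_of_finrank_pos (R := ℝ) (by rw [h]; norm_num)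
    rw [integrable_fun_norm_addHaar, h]
    rfl

/-- radial integrals with the density -/
theorem radial {n : ℕ} (hn : n = 3 ∨ n = 4) (g : ℝ → ℝ) :
    ∫ y : E n, bub n y * g (1 / (1 + ‖y‖ ^ 2)) = ∫ s in Ioo (0 : ℝ) 1, betaD n s * g s := by
  have h1 := polar hn (fun r => W n r * g (sub r))
  have h2 : (fun y : E n => bub n y * g (1 / (1 + ‖y‖ ^ 2))) =
      fun y : E n => (fun r => W n r * g (sub r)) ‖y‖ := rfl
  rw [h2, h1, integral_sub, ← integral_const_mul]
  refine setIntegral_congr_fun measurableSet_Ioi fun r hr => ?_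
  have := dens hn hr
  rw [← mul_assoc |sub' r|, ← this]
  ring

theorem radial_int {n : ℕ} (hn : n = 3 ∨ n = 4) (g : ℝ → ℝ) :
    Integrable (fun y : E n => bub n y * g (1 / (1 + ‖y‖ ^ 2))) ↔
      IntegrableOn (fun s => betaD n s * g s) (Ioo (0 : ℝ) 1) := by
  have h1 := polar_int hn (fun r => W n r * g (sub r))
  have h2 : (fun y : E n => bub n y * g (1 / (1 + ‖y‖ ^ 2))) =
      fun y : E n => (fun r => W n r * g (sub r)) ‖y‖ := rfl
  rw [h2, h1, integrable_sub]
  have h3 : IntegrableOn (fun r => |sub' r| * (betaD n (sub r) * g (sub r))) (Ioi 0) ↔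
      IntegrableOn (fun r => K n * (r ^ (n - 1) * (W n r * g (sub r)))) (Ioi 0) := by
    refine integrableOn_congr_fun (fun r hr => ?_) measurableSet_Ioi
    have := dens hn hr
    rw [← mul_assoc |sub' r|, ← this]
    ring
  rw [h3]
  exact (integrable_const_mul_iff (isUnit_iff_ne_zero.2 K_ne) _).symm

theorem int_sqrt : ∫ s in Ioo (0 : ℝ) 1, √(s * (1 - s)) = π / 8 := by
  have h1 := intervalIntegral.integral_comp_mul_add (a := 0) (b := 1)
    (fun x : ℝ => √(1 - x ^ 2)) (c := 2) (by norm_num) (-1)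
  have h2 : (2 : ℝ) * 0 + -1 = -1 := by norm_num
  have h3 : (2 : ℝ) * 1 + -1 = 1 := by norm_num
  rw [h2, h3, integral_sqrt_one_sub_sq] at h1
  have h4 : ∀ s : ℝ, √(1 - (2 * s + -1) ^ 2) = 2 * √(s * (1 - s)) := by
    intro s
    have : 1 - (2 * s + -1) ^ 2 = 2 ^ 2 * (s * (1 - s)) := by ring
    rw [this, Real.sqrt_mul (by norm_num), Real.sqrt_sq (by norm_num)]
  simp only [h4] at h1
  rw [intervalIntegral.integral_const_mul, intervalIntegral.integral_of_le zero_le_one,
    integral_Ioc_eq_integral_Ioo, smul_eq_mul] at h1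
  linarith

theorem int_poly : ∫ s in Ioo (0 : ℝ) 1, s * (1 - s) = 1 / 6 := by
  rw [← integral_Ioc_eq_integral_Ioo, ← intervalIntegral.integral_of_le zero_le_one]
  have h : ∀ s : ℝ, s * (1 - s) = s - s ^ 2 := fun s => by ring
  simp only [h]
  rw [intervalIntegral.integral_sub (by simp) (by simp)]
  simp
  norm_num

theorem int_beta {n : ℕ} (hn : n = 3 ∨ n = 4) : ∫ s in Ioo (0 : ℝ) 1, betaD n s = 1 := by
  have hpi : (π : ℝ) ≠ 0 := Real.pi_ne_zero
  rcases hn with rfl | rfl
  · unfold betaD
    simp only [if_true]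
    rw [integral_const_mul, int_sqrt]
    field_simp
  · unfold betaD
    have h : ¬ (4 : ℕ) = 3 := by norm_num
    simp only [if_neg h]
    rw [integral_const_mul, int_poly]
    norm_num

theorem continuous_beta (n : ℕ) : Continuous (betaD n) := by
  unfold betaD
  split_ifs
  · exact continuous_const.mul (by fun_prop)
  · fun_prop

theorem intOn_beta (n : ℕ) : IntegrableOn (betaD n) (Ioo (0 : ℝ) 1) :=
  ((continuous_beta n).continuousOn.integrableOn_Icc (a := 0) (b := 1)).mono_set Ioo_subset_Icc_self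

theorem integrable_bub {n : ℕ} (hn : n = 3 ∨ n = 4) : Integrable (bub n) := by
  have h := (radial_int hn (fun _ => 1)).2 (by simpa using intOn_beta n)
  simpa using h

end A1

open A1

theorem piM_prob {n : ℕ} (hn : n = 3 ∨ n = 4) : IsProbabilityMeasure (piM n) := by
  constructor
  unfold piM
  rw [withDensity_apply _ MeasurableSet.univ, setLIntegral_univ,
    ← ofReal_integral_eq_lintegral_ofReal (integrable_bub hn)
      (Filter.Eventually.of_forall fun y => W_nonneg n ‖y‖)]
  have h := radial hn (fun _ => 1)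
  simp only [mul_one] at h
  rw [h, int_beta hn, ENNReal.ofReal_one]

theorem integral_piM_radial {n : ℕ} (hn : n = 3 ∨ n = 4) (g : ℝ → ℝ) :
    ∫ y : E n, g (1 / (1 + ‖y‖ ^ 2)) ∂(piM n) = ∫ s in Ioo (0 : ℝ) 1, betaD n s * g s := by
  unfold piM
  rw [integral_withDensity_eq_integral_toReal_smul (measurable_dens n)
    (Filter.Eventually.of_forall fun y => ENNReal.ofReal_lt_top), ← radial hn g]
  refine integral_congr_ae (Filter.Eventually.of_forall fun y => ?_)
  have h0 : 0 ≤ bub n y := W_nonneg n ‖y‖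
  simp only [ENNReal.toReal_ofReal h0, smul_eq_mul]

theorem integrable_piM_radial {n : ℕ} (hn : n = 3 ∨ n = 4) (g : ℝ → ℝ) :
    Integrable (fun y : E n => g (1 / (1 + ‖y‖ ^ 2))) (piM n) ↔
      IntegrableOn (fun s => betaD n s * g s) (Ioo (0 : ℝ) 1) := by
  unfold piM
  rw [integrable_withDensity_iff_integrable_smul' (measurable_dens n)
    (Filter.Eventually.of_forall fun y => ENNReal.ofReal_lt_top), ← radial_int hn g]
  refine integrable_congr (Filter.Eventually.of_forall fun y => ?_)
  have h0 : 0 ≤ bub n y := W_nonneg n ‖y‖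
  simp only [ENNReal.toReal_ofReal h0, smul_eq_mul]

/-- `piM n` is invariant under linear isometries. -/
theorem piM_isometry {n : ℕ} (g : E n ≃ₗᵢ[ℝ] E n) : MeasurePreserving g (piM n) (piM n) := by
  have hg : MeasurePreserving g (volume : Measure (E n)) volume := g.measurePreserving
  refine ⟨hg.measurable, ?_⟩
  ext s hs
  rw [Measure.map_apply hg.measurable hs]
  unfold piM
  rw [withDensity_apply _ hs, withDensity_apply _ (hg.measurable hs),
    ← hg.setLIntegral_comp_preimage hs (measurable_dens n)]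
  refine lintegral_congr fun y => ?_
  rw [bub_eq, bub_eq, g.norm_map]

end Pool.Agent.QGlue
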