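import Pool.Agent.QGlue.Defs

/-! # A2: the inversions -/

set_option autoImplicit false

namespace Pool.Agent.QGlue

open MeasureTheory Real Set Filter Topology

private theorem A2_inversion {n : ℕ} (a y : E n) :
    invS a y = EuclideanGeometry.inversion a (√(1 + ‖a‖ ^ 2)) y := by
  unfold invS EuclideanGeometry.inversion
  rw [div_pow, Real.sq_sqrt (by positivity), dist_eq_norm, vsub_eq_sub, vadd_eq_add, add_comm]

private theorem A2_R_ne {n : ℕ} (a : E n) : √(1 + ‖a‖ ^ 2) ≠ 0 := by positivity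

theorem invS_invS {n : ℕ} (a y : E n) : invS a (invS a y) = y := by
  rw [A2_inversion, A2_inversion, EuclideanGeometry.inversion_inversion _ (A2_R_ne a)]

private theorem A2_norm {n : ℕ} (a y : E n) (h : y ≠ a) :
    1 + ‖invS a y‖ ^ 2 = (1 + ‖a‖ ^ 2) * (1 + ‖y‖ ^ 2) / ‖y - a‖ ^ 2 := by
  have hd : ‖y - a‖ ≠ 0 := (norm_pos_iff.2 (sub_ne_zero.2 h)).ne'
  have h1 : inner ℝ a y = (‖y‖ ^ 2 + ‖a‖ ^ 2 - ‖y - a‖ ^ 2) / 2 := by
    rw [norm_sub_sq_real, real_inner_comm]
    ring
  have h2 : inner ℝ a (y - a) = inner ℝ a y - ‖a‖ ^ 2 := by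
    rw [inner_sub_right, real_inner_self_eq_norm_sq]
  unfold invS
  rw [norm_add_sq_real, inner_smul_right, norm_smul, mul_pow, h2, Real.norm_eq_abs, sq_abs, h1]
  field_simp
  ring

theorem tau_eq_invS {n : ℕ} (a y : E n) (h : y ≠ a) :
    tau a y = 1 / (1 + ‖invS a y‖ ^ 2) := by
  have hd : ‖y - a‖ ≠ 0 := (norm_pos_iff.2 (sub_ne_zero.2 h)).ne'
  rw [A2_norm a y h, tau, norm_sub_rev]
  field_simp

private theorem A2_inner {n : ℕ} (a y : E n) :
    inner ℝ (Zv y) (Zv a) + Z0 y * Z0 a = 1 - 2 * tau a y := by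
  have h1 : ‖a - y‖ ^ 2 = ‖y‖ ^ 2 - 2 * inner ℝ y a + ‖a‖ ^ 2 := by
    rw [norm_sub_rev, norm_sub_sq_real]
  unfold Zv Z0 tau
  rw [inner_smul_left, inner_smul_right, h1]
  simp only [conj_trivial]
  field_simp
  ring

theorem Z0_invS {n : ℕ} (a y : E n) (h : y ≠ a) :
    Z0 (invS a y) = Z0 y - ((1 + ‖a‖ ^ 2) / 2 * (inner ℝ (Zv y) (Zv a) + Z0 y * Z0 a + Z0 y)) *
      (Z0 a + 1) := by
  have h0 : Z0 (invS a y) = 2 * tau a y - 1 := by
    rw [tau_eq_invS a y h]
    unfold Z0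
    field_simp
    ring
  have h1 : Z0 a + 1 = 2 / (1 + ‖a‖ ^ 2) := by
    unfold Z0
    field_simp
    ring
  rw [h0, A2_inner, h1]
  field_simp
  ring

theorem Zv_invS {n : ℕ} (a y : E n) (h : y ≠ a) :
    Zv (invS a y) = Zv y - ((1 + ‖a‖ ^ 2) / 2 * (inner ℝ (Zv y) (Zv a) + Z0 y * Z0 a + Z0 y)) •
      Zv a := by
  have hd : ‖y - a‖ ≠ 0 := (norm_pos_iff.2 (sub_ne_zero.2 h)).ne'
  rw [A2_inner]
  have h1 : (2 / (1 + ‖invS a y‖ ^ 2)) = 2 * tau a y := by
    rw [tau_eq_invS a y h]; ring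
  have h2 : 2 * tau a y * ((1 + ‖a‖ ^ 2) / ‖y - a‖ ^ 2) = 2 / (1 + ‖y‖ ^ 2) := by
    unfold tau
    rw [norm_sub_rev a y]
    field_simp
  have h3 : (1 + ‖a‖ ^ 2) / 2 * (1 - 2 * tau a y + Z0 y) * (2 / (1 + ‖a‖ ^ 2)) =
      2 / (1 + ‖y‖ ^ 2) - 2 * tau a y := by
    unfold Z0
    field_simp
    ring
  unfold Zv
  rw [h1, smul_smul, h3]
  unfold invS
  rw [smul_add, smul_smul, h2, smul_sub, sub_smul]
  abel

theorem A2_measurable_invS {n : ℕ} (a : E n) : Measurable (invS a) := by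
  unfold invS
  fun_prop

/-- the inversion as a measurable equivalence -/
noncomputable def A2_equiv {n : ℕ} (a : E n) : E n ≃ᵐ E n where
  toFun := invS a
  invFun := invS a
  left_inv := invS_invS a
  right_inv := invS_invS a
  measurable_toFun := A2_measurable_invS a
  measurable_invFun := A2_measurable_invS a

private theorem A2_det {n : ℕ} (r : ℝ) (v : E n) :
    |(r ^ 2 • ((ℝ ∙ v)ᗮ.reflection : E n →L[ℝ] E n)).det| = (r ^ 2) ^ n := by
  have h1 : |((ℝ ∙ v)ᗮ.reflection : E n →L[ℝ] E n).det| = 1 := by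
    have := (ℝ ∙ v)ᗮ.det_reflection
    change |LinearMap.det (ℝ ∙ v)ᗮ.reflection.toLinearMap| = 1
    rw [this, abs_pow, abs_neg, abs_one, one_pow]
  rw [ContinuousLinearMap.det, ContinuousLinearMap.toLinearMap_smul, LinearMap.det_smul, abs_mul,
    finrank_euclideanSpace_fin, abs_pow, abs_of_nonneg (by positivity)]
  rw [ContinuousLinearMap.det] at h1
  rw [h1, mul_one]

theorem measurePreserving_invS {n : ℕ} (hn : n = 3 ∨ n = 4) (a : E n) :
    MeasurePreserving (invS a) (piM n) (piM n) := by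
  have : Nontrivial (E n) := by
    rcases hn with rfl | rfl <;> infer_instance
  have hder : ∀ y ∈ ({a}ᶜ : Set (E n)), HasFDerivWithinAt (invS a)
      ((√(1 + ‖a‖ ^ 2) / dist y a) ^ 2 • ((ℝ ∙ (y - a))ᗮ.reflection : E n →L[ℝ] E n)) {a}ᶜ y := by
    intro y hy
    have : invS a = EuclideanGeometry.inversion a (√(1 + ‖a‖ ^ 2)) := funext (A2_inversion a)
    rw [this]
    exact (EuclideanGeometry.hasFDerivAt_inversion hy).hasFDerivWithinAt
  have hinj : Function.Injective (invS a) := (A2_equiv a).injective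
  have hself : invS a a = a := by simp [invS]
  have himg : invS a '' {a}ᶜ = {a}ᶜ := by
    rw [Set.image_compl_eq (f := invS a) (A2_equiv a).bijective, Set.image_singleton, hself]
  have hae : ∀ s : Set (E n), MeasurableSet s → piM n s = ∫⁻ y in {a}ᶜ,
      s.indicator (fun _ => 1) y * ENNReal.ofReal (bub n y) := by
    intro s hs
    have h0 : (volume : Measure (E n)).restrict {a}ᶜ = volume := by
      rw [MeasureTheory.Measure.restrict_eq_self_of_ae_mem]
      exact MeasureTheory.compl_mem_ae_iff.2 (measure_singleton a)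
    rw [h0, piM, withDensity_apply _ hs, ← lintegral_indicator hs]
    congr 1
    ext y
    by_cases h : y ∈ s <;> simp [h]
  refine ⟨A2_measurable_invS a, ?_⟩
  ext s hs
  rw [Measure.map_apply (A2_measurable_invS a) hs, hae _ (A2_measurable_invS a hs), hae _ hs]
  conv_rhs => rw [← himg]
  rw [lintegral_image_eq_lintegral_abs_det_fderiv_mul volume (measurableSet_singleton a).compl hder
    hinj.injOn]
  refine setLIntegral_congr_fun (measurableSet_singleton a).compl ?_
  intro y hy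
  have hy : y ≠ a := hy
  have hd : ‖y - a‖ ≠ 0 := (norm_pos_iff.2 (sub_ne_zero.2 hy)).ne'
  simp only
  rw [A2_det, mul_left_comm, ← ENNReal.ofReal_mul (by positivity)]
  have h1 : ((√(1 + ‖a‖ ^ 2) / dist y a) ^ 2) ^ n * bub n (invS a y) = bub n y := by
    unfold bub
    rw [mul_left_comm, ← mul_pow, A2_norm a y hy, div_pow, Real.sq_sqrt (by positivity),
      dist_eq_norm]
    congr 2
    field_simp
  rw [h1]
  rfl

/-- Any function of `tau a ·` has the same integral as for `a = ∞`. -/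
theorem integral_tau {n : ℕ} (hn : n = 3 ∨ n = 4) (a : E n) (g : ℝ → ℝ) :
    ∫ y, g (tau a y) ∂(piM n) = ∫ y : E n, g (1 / (1 + ‖y‖ ^ 2)) ∂(piM n) := by
  have : Nontrivial (E n) := by
    rcases hn with rfl | rfl <;> infer_instance
  have hae : ∀ᵐ y ∂(piM n), y ≠ a := by
    have h0 : ∀ᵐ y ∂(volume : Measure (E n)), y ≠ a :=
      MeasureTheory.compl_mem_ae_iff.2 (measure_singleton a)
    exact (withDensity_absolutelyContinuous _ _).ae_le h0
  rw [← (measurePreserving_invS hn a).integral_comp (A2_equiv a).measurableEmbedding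
    (fun y : E n => g (1 / (1 + ‖y‖ ^ 2)))]
  refine integral_congr_ae ?_
  filter_upwards [hae] with y hy
  rw [tau_eq_invS a y hy]

theorem integrable_tau {n : ℕ} (hn : n = 3 ∨ n = 4) (a : E n) (g : ℝ → ℝ) :
    Integrable (fun y => g (tau a y)) (piM n) ↔
      Integrable (fun y : E n => g (1 / (1 + ‖y‖ ^ 2))) (piM n) := by
  have : Nontrivial (E n) := by
    rcases hn with rfl | rfl <;> infer_instance
  have hae : ∀ᵐ y ∂(piM n), y ≠ a := by
    have h0 : ∀ᵐ y ∂(volume : Measure (E n)), y ≠ a :=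
      MeasureTheory.compl_mem_ae_iff.2 (measure_singleton a)
    exact (withDensity_absolutelyContinuous _ _).ae_le h0
  rw [← (measurePreserving_invS hn a).integrable_comp_emb (A2_equiv a).measurableEmbedding
    (g := fun y : E n => g (1 / (1 + ‖y‖ ^ 2)))]
  refine integrable_congr ?_
  filter_upwards [hae] with y hy
  simp only [Function.comp]
  rw [tau_eq_invS a y hy]

end Pool.Agent.QGlue
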