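import Pool.Agent.QGlue.Defs

/-!
# One-dimensional integrals of the radial density (package QG-A3a)
-/

set_option autoImplicit false

namespace Pool.Agent.QGlue

open MeasureTheory Real Set Filter Topology

private theorem ftc01 (F f : ℝ → ℝ) (hc : ContinuousOn F (Icc 0 1))
    (hd : ∀ x ∈ Ioo (0 : ℝ) 1, HasDerivAt F (f x) x) (hi : IntegrableOn f (Ioo 0 1)) :
    ∫ s in Ioo (0 : ℝ) 1, f s = F 1 - F 0 := by
  have hii : IntervalIntegrable f volume 0 1 := by
    rw [intervalIntegrable_iff_integrableOn_Ioo_of_le zero_le_one]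
    exact hi
  have h := intervalIntegral.integral_eq_sub_of_hasDerivAt_of_le zero_le_one hc hd hii
  rw [intervalIntegral.integral_of_le zero_le_one, integral_Ioc_eq_integral_Ioo] at h
  exact h

/-- Continuous functions are integrable on the unit interval. -/
private theorem int_cont {f : ℝ → ℝ} (hf : Continuous f) : IntegrableOn f (Ioo (0 : ℝ) 1) :=
  (hf.continuousOn.integrableOn_compact isCompact_Icc).mono_set Ioo_subset_Icc_self

private theorem betaD_cont (n : ℕ) : Continuous (betaD n) := by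
  unfold betaD
  split_ifs
  · fun_prop
  · fun_prop

private theorem betaD_nonneg (n : ℕ) {s : ℝ} (hs : s ∈ Ioo (0 : ℝ) 1) : 0 ≤ betaD n s := by
  unfold betaD
  split_ifs
  · positivity
  · have := hs.1
    have h2 : 0 ≤ 1 - s := by linarith [hs.2]
    positivity

private theorem betaD_le (n : ℕ) {s : ℝ} (hs : s ∈ Ioo (0 : ℝ) 1) :
    betaD n s ≤ 6 * Real.sqrt s := by
  have h0 : 0 < s := hs.1
  have h1 : s < 1 := hs.2
  unfold betaD
  split_ifs
  · have hpi : 8 / π ≤ 6 := by
      rw [div_le_iff₀ Real.pi_pos]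
      nlinarith [Real.pi_gt_three]
    have hs1 : Real.sqrt (s * (1 - s)) ≤ Real.sqrt s := by
      apply Real.sqrt_le_sqrt
      nlinarith
    have := Real.sqrt_nonneg (s * (1 - s))
    have := Real.sqrt_nonneg s
    have hp : 0 ≤ 8 / π := by positivity
    nlinarith
  · have hss : Real.sqrt s * Real.sqrt s = s := Real.mul_self_sqrt h0.le
    have hs0 : 0 ≤ Real.sqrt s := Real.sqrt_nonneg s
    have hs1 : Real.sqrt s ≤ 1 := by
      rw [Real.sqrt_le_one]; linarith
    have : s * (1 - s) ≤ s := by nlinarith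
    have : s ≤ Real.sqrt s := by nlinarith
    linarith

theorem beta_int_log {n : ℕ} (_hn : n = 3 ∨ n = 4) (k : ℕ) :
    IntegrableOn (fun s => betaD n s * (Real.log s) ^ k) (Ioo (0 : ℝ) 1) := by
  have hmeas : AEStronglyMeasurable (fun s => betaD n s * (Real.log s) ^ k) volume := by
    apply Measurable.aestronglyMeasurable
    exact (betaD_cont n).measurable.mul (Real.measurable_log.pow_const k)
  have hfin : volume (Ioo (0 : ℝ) 1) ≠ ⊤ := by simp
  apply Measure.integrableOn_of_bounded (M := 6 * (2 * (k + 1)) ^ k) hfin hmeas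
  rw [ae_restrict_iff' measurableSet_Ioo]
  refine Eventually.of_forall fun s hs => ?_
  have h0 : 0 < s := hs.1
  have h1 : s < 1 := hs.2
  rw [norm_mul, norm_pow, Real.norm_of_nonneg (betaD_nonneg n hs), Real.norm_eq_abs]
  set t : ℝ := 1 / (2 * (k + 1)) with ht
  have htpos : 0 < t := by positivity
  have hlog := Real.abs_log_mul_self_rpow_lt s t h0 h1.le htpos
  have hinv : 1 / t = 2 * (k + 1) := by
    rw [ht]; field_simp
  rw [hinv, abs_mul, abs_of_nonneg (Real.rpow_nonneg h0.le t)] at hlog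
  have hpow : |Real.log s| ^ k * (s ^ t) ^ k ≤ (2 * (k + 1)) ^ k := by
    rw [← mul_pow]
    exact pow_le_pow_left₀ (by positivity) hlog.le k
  have hsq : Real.sqrt s ≤ (s ^ t) ^ k := by
    rw [Real.sqrt_eq_rpow, ← Real.rpow_mul_natCast h0.le]
    apply Real.rpow_le_rpow_of_exponent_ge h0 h1.le
    rw [ht]
    rw [div_mul_eq_mul_div, div_le_div_iff₀ (by positivity) (by norm_num)]
    nlinarith
  calc betaD n s * |Real.log s| ^ k ≤ 6 * Real.sqrt s * |Real.log s| ^ k :=
        mul_le_mul_of_nonneg_right (betaD_le n hs) (by positivity)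
    _ ≤ 6 * (s ^ t) ^ k * |Real.log s| ^ k := by gcongr
    _ = 6 * (|Real.log s| ^ k * (s ^ t) ^ k) := by ring
    _ ≤ 6 * (2 * (k + 1)) ^ k := by gcongr

theorem beta_int_inv {n : ℕ} (_hn : n = 3 ∨ n = 4) :
    IntegrableOn (fun s => betaD n s * ((1 - s) / s)) (Ioo (0 : ℝ) 1) := by
  have hg : IntegrableOn (fun s : ℝ => 6 * s ^ (-(1 / 2) : ℝ)) (Ioo (0 : ℝ) 1) := by
    apply Integrable.const_mul
    have := (intervalIntegral.integrableOn_Ioo_rpow_iff (s := (-(1 / 2) : ℝ)) (t := 1)
      one_pos).2 (by norm_num)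
    exact this
  refine Integrable.mono' hg ?_ ?_
  · apply Measurable.aestronglyMeasurable
    exact (betaD_cont n).measurable.mul (by fun_prop)
  · rw [ae_restrict_iff' measurableSet_Ioo]
    refine Eventually.of_forall fun s hs => ?_
    have h0 : 0 < s := hs.1
    have h1 : s < 1 := hs.2
    have hq : 0 ≤ (1 - s) / s := by
      apply div_nonneg <;> linarith
    rw [norm_mul, Real.norm_of_nonneg (betaD_nonneg n hs), Real.norm_of_nonneg hq]
    have hr : s ^ (-(1 / 2) : ℝ) = Real.sqrt s / s := by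
      rw [Real.sqrt_eq_rpow, eq_div_iff h0.ne']
      nth_rewrite 2 [← Real.rpow_one s]
      rw [← Real.rpow_add h0]
      norm_num
    rw [hr]
    have h2 : (1 - s) / s ≤ 1 / s := by
      apply div_le_div_of_nonneg_right _ h0.le
      linarith
    calc betaD n s * ((1 - s) / s) ≤ 6 * Real.sqrt s * (1 / s) := by
          apply mul_le_mul (betaD_le n hs) h2 hq (by positivity)
      _ = 6 * (Real.sqrt s / s) := by ring

private theorem int_sqrt_q : ∫ s in Ioo (0 : ℝ) 1, Real.sqrt (s * (1 - s)) = π / 8 := by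
  have h1 : ∀ s : ℝ, Real.sqrt (s * (1 - s)) = (fun x => 1 / 2 * Real.sqrt (1 - x ^ 2)) (2 * s - 1) := by
    intro s
    have : s * (1 - s) = (1 / 2) ^ 2 * (1 - (2 * s - 1) ^ 2) := by ring
    rw [this, Real.sqrt_mul (by positivity), Real.sqrt_sq (by norm_num)]
  simp_rw [h1]
  rw [← integral_Ioc_eq_integral_Ioo, ← intervalIntegral.integral_of_le zero_le_one]
  rw [intervalIntegral.integral_comp_mul_sub (fun x => 1 / 2 * Real.sqrt (1 - x ^ 2))
    (by norm_num : (2 : ℝ) ≠ 0) 1]
  rw [intervalIntegral.integral_const_mul]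
  have h2 : (2 : ℝ) * 0 - 1 = -1 := by norm_num
  have h3 : (2 : ℝ) * 1 - 1 = 1 := by norm_num
  rw [h2, h3, integral_sqrt_one_sub_sq]
  rw [smul_eq_mul]
  ring

theorem beta_one {n : ℕ} (hn : n = 3 ∨ n = 4) : ∫ s in Ioo (0 : ℝ) 1, betaD n s = 1 := by
  rcases hn with rfl | rfl
  · have : ∀ s, betaD 3 s = 8 / π * Real.sqrt (s * (1 - s)) := fun s => by simp [betaD]
    simp_rw [this]
    rw [integral_const_mul, int_sqrt_q]
    field_simp
  · have : ∀ s, betaD 4 s = 6 * (s * (1 - s)) := fun s => by simp [betaD]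
    rw [ftc01 (fun s => 3 * s ^ 2 - 2 * s ^ 3) (betaD 4) (by fun_prop) _ (int_cont (betaD_cont 4))]
    · norm_num
    · intro x _
      rw [this]
      have h := ((hasDerivAt_pow 2 x).const_mul 3).sub ((hasDerivAt_pow 3 x).const_mul 2)
      refine h.congr_deriv ?_
      push_cast
      ring

private theorem betaD_symm (n : ℕ) (s : ℝ) : betaD n (1 - s) = betaD n s := by
  unfold betaD
  have : (1 - s) * (1 - (1 - s)) = s * (1 - s) := by ring
  rw [this]

theorem beta_half {n : ℕ} (hn : n = 3 ∨ n = 4) :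
    ∫ s in Ioo (0 : ℝ) 1, betaD n s * s = 1 / 2 := by
  have h1 : ∫ s in Ioo (0 : ℝ) 1, betaD n s * (1 - s) = ∫ s in Ioo (0 : ℝ) 1, betaD n s * s := by
    rw [← integral_Ioc_eq_integral_Ioo, ← intervalIntegral.integral_of_le zero_le_one,
      ← integral_Ioc_eq_integral_Ioo, ← intervalIntegral.integral_of_le zero_le_one]
    have h := intervalIntegral.integral_comp_sub_left (a := 0) (b := 1)
      (fun s => betaD n s * s) 1
    simp only [betaD_symm] at h
    rw [h]
    norm_num
  have h2 : ∫ s in Ioo (0 : ℝ) 1, betaD n s * (1 - s) =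
      (∫ s in Ioo (0 : ℝ) 1, betaD n s) - ∫ s in Ioo (0 : ℝ) 1, betaD n s * s := by
    have hW : IntegrableOn (fun s => betaD n s) (Ioo (0 : ℝ) 1) := int_cont (betaD_cont n)
    have hS : IntegrableOn (fun s => betaD n s * s) (Ioo (0 : ℝ) 1) :=
      int_cont ((betaD_cont n).mul continuous_id)
    rw [← integral_sub hW hS]
    congr 1
    ext s
    ring
  rw [beta_one hn, h1] at h2
  linarith

/-- Derivative of `q ^ (3/2)`. -/
private theorem deriv_q32 {s : ℝ} (hs : s ∈ Ioo (0 : ℝ) 1) :
    HasDerivAt (fun s : ℝ => s * (1 - s) * Real.sqrt (s * (1 - s)))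
      (3 / 2 * (1 - 2 * s) * Real.sqrt (s * (1 - s))) s := by
  have h0 : 0 < s := hs.1
  have h1 : 0 < 1 - s := by linarith [hs.2]
  have hq : 0 < s * (1 - s) := mul_pos h0 h1
  have hd : HasDerivAt (fun s : ℝ => s * (1 - s)) (1 - 2 * s) s := by
    have h := (hasDerivAt_id s).mul ((hasDerivAt_const s (1 : ℝ)).sub (hasDerivAt_id s))
    refine h.congr_deriv ?_
    simp only [id, Pi.sub_apply]
    ring
  have hs2 := hd.sqrt hq.ne'
  have hm := hd.mul hs2
  refine HasDerivAt.congr_deriv (f := fun s : ℝ => s * (1 - s) * Real.sqrt (s * (1 - s))) hm ?_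
  have hss : Real.sqrt (s * (1 - s)) * Real.sqrt (s * (1 - s)) = s * (1 - s) :=
    Real.mul_self_sqrt hq.le
  have hsp : 0 < Real.sqrt (s * (1 - s)) := Real.sqrt_pos.2 hq
  have hdiv : s * (1 - s) * ((1 - 2 * s) / (2 * Real.sqrt (s * (1 - s)))) =
      (1 - 2 * s) / 2 * Real.sqrt (s * (1 - s)) := by
    rw [mul_div_assoc', div_eq_iff (by positivity)]
    linear_combination (-(1 - 2 * s)) * hss
  rw [hdiv]
  ring

theorem beta_sq {n : ℕ} (hn : n = 3 ∨ n = 4) :
    ∫ s in Ioo (0 : ℝ) 1, betaD n s * (2 * s - 1) ^ 2 = (1 : ℝ) / (n + 1) := by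
  rcases hn with rfl | rfl
  · have hb : ∀ s, betaD 3 s = 8 / π * Real.sqrt (s * (1 - s)) := fun s => by simp [betaD]
    have hX := int_cont (f := fun s => betaD 3 s * (2 * s - 1) ^ 2)
      ((betaD_cont 3).mul (by fun_prop))
    have hW := int_cont (betaD_cont 3)
    have hX2 : IntegrableOn (fun s => (-2) * (betaD 3 s * (2 * s - 1) ^ 2)) (Ioo (0 : ℝ) 1) :=
      hX.const_mul _
    have hW2 : IntegrableOn (fun s => (1 / 2) * betaD 3 s) (Ioo (0 : ℝ) 1) :=
      hW.const_mul _
    have key : ∫ s in Ioo (0 : ℝ) 1,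
        ((-2) * (betaD 3 s * (2 * s - 1) ^ 2) + (1 / 2) * betaD 3 s) = 0 := by
      rw [ftc01 (fun s => 8 / π * (s * (1 - s) * Real.sqrt (s * (1 - s)) * (2 * s - 1)))
        (fun s => (-2) * (betaD 3 s * (2 * s - 1) ^ 2) + (1 / 2) * betaD 3 s)
        (by fun_prop) _ (hX2.add hW2)]
      · norm_num
      · intro x hx
        have h2 : HasDerivAt (fun s : ℝ => 2 * s - 1) 2 x := by
          simpa using ((hasDerivAt_id x).const_mul 2).sub_const 1
        have h := ((deriv_q32 hx).mul h2).const_mul (8 / π)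
        refine h.congr_deriv ?_
        rw [hb]
        ring
    rw [integral_add hX2 hW2, integral_const_mul, integral_const_mul,
      beta_one (Or.inl rfl)] at key
    push_cast
    linarith
  · have : ∀ s, betaD 4 s = 6 * (s * (1 - s)) := fun s => by simp [betaD]
    rw [ftc01 (fun s => 3 * s ^ 2 - 10 * s ^ 3 + 12 * s ^ 4 - 24 / 5 * s ^ 5)
      (fun s => betaD 4 s * (2 * s - 1) ^ 2) (by fun_prop) _
      (int_cont ((betaD_cont 4).mul (by fun_prop)))]
    · norm_num
    · intro x _
      rw [this]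
      have h := ((((hasDerivAt_pow 2 x).const_mul 3).sub ((hasDerivAt_pow 3 x).const_mul 10)).add
        ((hasDerivAt_pow 4 x).const_mul 12)).sub ((hasDerivAt_pow 5 x).const_mul (24 / 5))
      refine h.congr_deriv ?_
      push_cast
      ring

private theorem int_log_lin {n : ℕ} (hn : n = 3 ∨ n = 4) (a b : ℝ) :
    IntegrableOn (fun s => betaD n s * Real.log s * (a * s + b)) (Ioo (0 : ℝ) 1) := by
  have h := beta_int_log hn 1
  simp only [pow_one] at h
  have hc : ContinuousOn (fun s : ℝ => a * s + b) (Icc 0 1) := by fun_prop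
  obtain ⟨C, hC⟩ := isCompact_Icc.exists_bound_of_continuousOn hc
  refine Integrable.mul_bdd (c := C) h (by fun_prop) ?_
  rw [ae_restrict_iff' measurableSet_Ioo]
  exact Eventually.of_forall fun s hs => hC s (Ioo_subset_Icc_self hs)

theorem beta_log {n : ℕ} (hn : n = 3 ∨ n = 4) :
    ∫ s in Ioo (0 : ℝ) 1, betaD n s * (- Real.log s * (2 * s - 1)) = -(1 : ℝ) / n := by
  have hL : IntegrableOn (fun s => betaD n s * (- Real.log s * (2 * s - 1))) (Ioo (0 : ℝ) 1) := by
    have h := int_log_lin hn (-2) 1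
    refine h.congr_fun ?_ measurableSet_Ioo
    intro s _
    simp only
    ring
  have hW : IntegrableOn (fun s => betaD n s) (Ioo (0 : ℝ) 1) := int_cont (betaD_cont n)
  have hS : IntegrableOn (fun s => betaD n s * s) (Ioo (0 : ℝ) 1) :=
    int_cont ((betaD_cont n).mul continuous_id)
  have hR : IntegrableOn (fun s => (2 / (n : ℝ)) * (betaD n s - betaD n s * s)) (Ioo (0 : ℝ) 1) :=
    (hW.sub hS).const_mul _
  have key : ∫ s in Ioo (0 : ℝ) 1, (betaD n s * (- Real.log s * (2 * s - 1)) +
      (2 / n) * (betaD n s - betaD n s * s)) = 0 := by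
    rcases hn with rfl | rfl
    · have hb : ∀ s, betaD 3 s = 8 / π * Real.sqrt (s * (1 - s)) := fun s => by simp [betaD]
      rw [ftc01 (fun s => 2 / 3 * (8 / π) * (s * (1 - s) * Real.sqrt (s * (1 - s)) * Real.log s))
        (fun s => betaD 3 s * (- Real.log s * (2 * s - 1)) +
          (2 / (3 : ℕ)) * (betaD 3 s - betaD 3 s * s)) _ _ (hL.add hR)]
      · norm_num
      · have h : Continuous (fun s : ℝ => 2 / 3 * (8 / π) * ((1 - s) * Real.sqrt (s * (1 - s)) *
            (s * Real.log s))) := by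
          have := Real.continuous_mul_log
          fun_prop
        refine (h.congr fun s => ?_).continuousOn
        ring
      · intro x hx
        have hx0 : 0 < x := hx.1
        have h := ((deriv_q32 hx).mul (Real.hasDerivAt_log hx0.ne')).const_mul (2 / 3 * (8 / π))
        refine h.congr_deriv ?_
        rw [hb]
        push_cast
        field_simp
        ring
    · have hb : ∀ s, betaD 4 s = 6 * (s * (1 - s)) := fun s => by simp [betaD]
      rw [ftc01 (fun s => 3 * ((s - 2 * s ^ 2 + s ^ 3) * (s * Real.log s)))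
        (fun s => betaD 4 s * (- Real.log s * (2 * s - 1)) +
          (2 / (4 : ℕ)) * (betaD 4 s - betaD 4 s * s)) _ _ (hL.add hR)]
      · norm_num
      · have h : Continuous (fun s : ℝ => 3 * ((s - 2 * s ^ 2 + s ^ 3) * (s * Real.log s))) := by
          have := Real.continuous_mul_log
          fun_prop
        exact h.continuousOn
      · intro x hx
        have hx0 : 0 < x := hx.1
        have h1 : HasDerivAt (fun s : ℝ => s - 2 * s ^ 2 + s ^ 3)
            (1 - 2 * (2 * x) + 3 * x ^ 2) x := by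
          have h := ((hasDerivAt_id x).sub ((hasDerivAt_pow 2 x).const_mul 2)).add
            (hasDerivAt_pow 3 x)
          refine h.congr_deriv ?_
          push_cast
          ring
        have h2 : HasDerivAt (fun s : ℝ => s * Real.log s) (1 * Real.log x + x * x⁻¹) x :=
          (hasDerivAt_id x).mul (Real.hasDerivAt_log hx0.ne')
        have h := (h1.mul h2).const_mul 3
        refine h.congr_deriv ?_
        rw [hb]
        push_cast
        field_simp
        ring
  rw [integral_add hL hR, integral_const_mul, integral_sub hW hS,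
    beta_one hn, beta_half hn] at key
  have hn0 : (n : ℝ) ≠ 0 := by
    rcases hn with rfl | rfl <;> norm_num
  have : (2 / (n : ℝ)) * (1 - 1 / 2) = 1 / n := by
    field_simp
    norm_num
  rw [this] at key
  rw [neg_div]
  linarith

end Pool.Agent.QGlue
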