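import Pool.Agent.QGlue.Defs

/-!
# Variance of the logarithm under the bubble measure, `n = 4` (package QG-A3b)
-/

set_option autoImplicit false

namespace Pool.Agent.QGlue

open MeasureTheory Real Set Filter Topology

private lemma a3b_betaD (s : ℝ) : betaD 4 s = 6 * (s * (1 - s)) := by
  simp [betaD]

private lemma a3b_contL : Continuous (fun s : ℝ => s * Real.log s) := Real.continuous_mul_log

private lemma a3b_int1 : ∫ s in Ioo (0 : ℝ) 1, betaD 4 s * Real.log s = -(5 / 6) := by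
  rw [← integral_Ioc_eq_integral_Ioo, ← intervalIntegral.integral_of_le zero_le_one]
  have hF : ∀ x ∈ Ioo (0 : ℝ) 1, HasDerivAt (fun s : ℝ => 6 * (s / 2 * (s * Real.log s) - s ^ 2 / 4
      - (s ^ 2 / 3 * (s * Real.log s) - s ^ 3 / 9))) (betaD 4 x * Real.log x) x := by
    intro x hx
    have hx0 : x ≠ 0 := hx.1.ne'
    have hlog := Real.hasDerivAt_log hx0
    have hid : HasDerivAt (fun s : ℝ => s) 1 x := hasDerivAt_id' x
    have hL : HasDerivAt (fun s : ℝ => s * Real.log s) (1 * Real.log x + x * x⁻¹) x := hid.mul hlog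
    have h1 : HasDerivAt (fun s : ℝ => s / 2 * (s * Real.log s))
        (1 / 2 * (x * Real.log x) + x / 2 * (1 * Real.log x + x * x⁻¹)) x :=
      (hid.div_const 2).mul hL
    have h2 : HasDerivAt (fun s : ℝ => s ^ 2 / 4) ((2 : ℕ) * x ^ (2 - 1) / 4) x :=
      (hasDerivAt_pow 2 x).div_const 4
    have h3 : HasDerivAt (fun s : ℝ => s ^ 2 / 3 * (s * Real.log s))
        ((2 : ℕ) * x ^ (2 - 1) / 3 * (x * Real.log x) + x ^ 2 / 3 * (1 * Real.log x + x * x⁻¹)) x :=
      ((hasDerivAt_pow 2 x).div_const 3).mul hL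
    have h4 : HasDerivAt (fun s : ℝ => s ^ 3 / 9) ((3 : ℕ) * x ^ (3 - 1) / 9) x :=
      (hasDerivAt_pow 3 x).div_const 9
    have h := ((h1.sub h2).sub (h3.sub h4)).const_mul 6
    refine h.congr_deriv ?_
    rw [a3b_betaD, mul_inv_cancel₀ hx0]
    push_cast
    ring
  rw [intervalIntegral.integral_eq_sub_of_hasDerivAt_of_le zero_le_one ?_ hF ?_]
  · norm_num
  · have := a3b_contL
    exact Continuous.continuousOn (by fun_prop)
  · have : (fun s : ℝ => betaD 4 s * Real.log s) = fun s => 6 * (1 - s) * (s * Real.log s) := by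
      funext s
      rw [a3b_betaD]
      ring
    rw [this]
    have := a3b_contL
    exact Continuous.intervalIntegrable (by fun_prop) _ _

private lemma a3b_int2 : ∫ s in Ioo (0 : ℝ) 1, betaD 4 s * (Real.log s) ^ 2 = 19 / 18 := by
  rw [← integral_Ioc_eq_integral_Ioo, ← intervalIntegral.integral_of_le zero_le_one]
  have hF : ∀ x ∈ Ioo (0 : ℝ) 1, HasDerivAt (fun s : ℝ => 6 * ((s * Real.log s) ^ 2 / 2
      - s / 2 * (s * Real.log s) + s ^ 2 / 4
      - (s / 3 * (s * Real.log s) ^ 2 - 2 * s ^ 2 / 9 * (s * Real.log s) + 2 * s ^ 3 / 27)))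
      (betaD 4 x * Real.log x ^ 2) x := by
    intro x hx
    have hx0 : x ≠ 0 := hx.1.ne'
    have hlog := Real.hasDerivAt_log hx0
    have hid : HasDerivAt (fun s : ℝ => s) 1 x := hasDerivAt_id' x
    have hL : HasDerivAt (fun s : ℝ => s * Real.log s) (Real.log x + 1) x := by
      have := hid.mul hlog
      rw [one_mul, mul_inv_cancel₀ hx0] at this
      exact this
    have hL2 : HasDerivAt (fun s : ℝ => (s * Real.log s) ^ 2)
        ((2 : ℕ) * (x * Real.log x) ^ (2 - 1) * (Real.log x + 1)) x := hL.pow 2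
    have h1 := hL2.div_const 2
    have h2 : HasDerivAt (fun s : ℝ => s / 2 * (s * Real.log s))
        (1 / 2 * (x * Real.log x) + x / 2 * (Real.log x + 1)) x :=
      (hid.div_const 2).mul hL
    have h3 : HasDerivAt (fun s : ℝ => s ^ 2 / 4) ((2 : ℕ) * x ^ (2 - 1) / 4) x :=
      (hasDerivAt_pow 2 x).div_const 4
    have h4 : HasDerivAt (fun s : ℝ => s / 3 * (s * Real.log s) ^ 2)
        (1 / 3 * (x * Real.log x) ^ 2 +
          x / 3 * ((2 : ℕ) * (x * Real.log x) ^ (2 - 1) * (Real.log x + 1))) x :=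
      (hid.div_const 3).mul hL2
    have h5 : HasDerivAt (fun s : ℝ => 2 * s ^ 2 / 9 * (s * Real.log s))
        (2 * ((2 : ℕ) * x ^ (2 - 1)) / 9 * (x * Real.log x)
          + 2 * x ^ 2 / 9 * (Real.log x + 1)) x :=
      (((hasDerivAt_pow 2 x).const_mul 2).div_const 9).mul hL
    have h6 : HasDerivAt (fun s : ℝ => 2 * s ^ 3 / 27) (2 * ((3 : ℕ) * x ^ (3 - 1)) / 27) x :=
      ((hasDerivAt_pow 3 x).const_mul 2).div_const 27
    have h := (((h1.sub h2).add h3).sub ((h4.sub h5).add h6)).const_mul 6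
    refine h.congr_deriv ?_
    rw [a3b_betaD]
    push_cast
    ring
  have hcont : ContinuousOn (fun s : ℝ => 6 * ((s * Real.log s) ^ 2 / 2
      - s / 2 * (s * Real.log s) + s ^ 2 / 4
      - (s / 3 * (s * Real.log s) ^ 2 - 2 * s ^ 2 / 9 * (s * Real.log s) + 2 * s ^ 3 / 27)))
      (Icc 0 1) := by
    have := a3b_contL
    exact Continuous.continuousOn (by fun_prop)
  rw [intervalIntegral.integral_eq_sub_of_hasDerivAt_of_le zero_le_one hcont hF ?_]
  · norm_num
  · refine intervalIntegral.intervalIntegrable_deriv_of_nonneg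
      (g := fun s : ℝ => 6 * ((s * Real.log s) ^ 2 / 2
      - s / 2 * (s * Real.log s) + s ^ 2 / 4
      - (s / 3 * (s * Real.log s) ^ 2 - 2 * s ^ 2 / 9 * (s * Real.log s) + 2 * s ^ 3 / 27)))
      ?_ ?_ ?_
    · rw [uIcc_of_le zero_le_one]
      exact hcont
    · intro x hx
      rw [min_eq_left zero_le_one, max_eq_right zero_le_one] at hx
      exact hF x hx
    · intro x hx
      rw [min_eq_left zero_le_one, max_eq_right zero_le_one] at hx
      rw [a3b_betaD]
      have h1 : 0 ≤ 1 - x := by linarith [hx.2]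
      have h2 : 0 ≤ x := hx.1.le
      positivity

theorem beta_var_four :
    16 * ((∫ s in Ioo (0 : ℝ) 1, betaD 4 s * (Real.log s) ^ 2)
      - (∫ s in Ioo (0 : ℝ) 1, betaD 4 s * Real.log s) ^ 2) < 6 := by
  rw [a3b_int1, a3b_int2]
  norm_num

end Pool.Agent.QGlue
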