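import Pool.Agent.QGlue.Defs

/-!
# The variance of `log s` under `betaD 3` (package A3c)
-/

set_option autoImplicit false

namespace Pool.Agent.QGlue

open MeasureTheory Real Set Filter Topology

private lemma a3c_cont1 {b : ℝ} (hb : 0 < b) :
    ContinuousOn (fun s : ℝ => s ^ b * Real.log s) (Icc 0 1) := by
  have h1 : ContinuousOn (fun s : ℝ => (1 / b) * ((s ^ b) * Real.log (s ^ b))) (Icc 0 1) := by
    apply Continuous.continuousOn
    exact continuous_const.mul (Real.continuous_mul_log.comp (Real.continuous_rpow_const hb.le))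
  refine h1.congr ?_
  intro s hs
  rcases hs.1.eq_or_lt with h0 | h0
  · rw [← h0]; simp [Real.zero_rpow hb.ne']
  · simp only
    rw [Real.log_rpow h0]
    field_simp

private lemma a3c_cont2 {b : ℝ} (hb : 0 < b) :
    ContinuousOn (fun s : ℝ => s ^ b * Real.log s ^ 2) (Icc 0 1) := by
  have h1 := a3c_cont1 (b := b / 2) (by positivity)
  refine (h1.mul h1).congr ?_
  intro s hs
  rcases hs.1.eq_or_lt with h0 | h0
  · rw [← h0]; simp [Real.zero_rpow hb.ne']
  · simp only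
    have : s ^ b = s ^ (b / 2) * s ^ (b / 2) := by
      rw [← Real.rpow_add h0]; congr 1; ring
    rw [this, Pi.mul_apply]; ring

private lemma a3c_rpow {b s : ℝ} (h : 0 < s) : s ^ b = s ^ (b - 1) * s := by
  rw [← Real.rpow_add_one h.ne']; congr 1; ring

private lemma a3c_J1 {b : ℝ} (hb : 0 < b) :
    IntegrableOn (fun s : ℝ => s ^ (b - 1) * Real.log s) (Ioo 0 1) ∧
      ∫ s in Ioo (0 : ℝ) 1, s ^ (b - 1) * Real.log s = -1 / b ^ 2 := by
  set F : ℝ → ℝ := fun s => -(s ^ b * Real.log s / b - s ^ b / b ^ 2) with hF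
  have hc : ContinuousOn F (Icc 0 1) := by
    have h2 : ContinuousOn (fun s : ℝ => s ^ b) (Icc 0 1) :=
      (Real.continuous_rpow_const hb.le).continuousOn
    exact (((a3c_cont1 hb).div_const b).sub (h2.div_const _)).neg
  have hd : ∀ s ∈ Ioo (0 : ℝ) 1, HasDerivAt F (-(s ^ (b - 1) * Real.log s)) s := by
    intro s hs
    have h0 : 0 < s := hs.1
    have h1 := Real.hasDerivAt_rpow_const (x := s) (p := b) (Or.inl h0.ne')
    have h2 := Real.hasDerivAt_log h0.ne'
    have h3 := (((h1.mul h2).div_const b).sub (h1.div_const (b ^ 2))).neg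
    refine HasDerivAt.congr_deriv (f := F) h3 ?_
    rw [a3c_rpow (b := b) h0]
    field_simp
    ring
  have hpos : ∀ s ∈ Ioo (0 : ℝ) 1, 0 ≤ -(s ^ (b - 1) * Real.log s) := by
    intro s hs
    have := Real.log_nonpos hs.1.le hs.2.le
    have h2 := Real.rpow_nonneg hs.1.le (b - 1)
    nlinarith
  have hi := intervalIntegral.integrableOn_deriv_of_nonneg hc hd hpos
  have hii : IntegrableOn (fun s : ℝ => s ^ (b - 1) * Real.log s) (Ioc 0 1) := by
    have := hi.neg
    simpa using this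
  refine ⟨hii.mono_set Ioo_subset_Ioc_self, ?_⟩
  have hint : IntervalIntegrable (fun s : ℝ => -(s ^ (b - 1) * Real.log s)) volume 0 1 := by
    rw [intervalIntegrable_iff_integrableOn_Ioc_of_le zero_le_one]; exact hi
  have h := intervalIntegral.integral_eq_sub_of_hasDerivAt_of_le zero_le_one hc hd hint
  rw [intervalIntegral.integral_of_le zero_le_one, integral_Ioc_eq_integral_Ioo,
    integral_neg] at h
  have hF1 : F 1 = 1 / b ^ 2 := by simp [hF]
  have hF0 : F 0 = 0 := by simp [hF, Real.zero_rpow hb.ne']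
  rw [hF1, hF0] at h
  rw [neg_eq_iff_eq_neg] at h
  rw [h]
  ring

private lemma a3c_J2 {b : ℝ} (hb : 0 < b) :
    IntegrableOn (fun s : ℝ => s ^ (b - 1) * Real.log s ^ 2) (Ioo 0 1) ∧
      ∫ s in Ioo (0 : ℝ) 1, s ^ (b - 1) * Real.log s ^ 2 = 2 / b ^ 3 := by
  set F : ℝ → ℝ := fun s => s ^ b * Real.log s ^ 2 / b - 2 * (s ^ b * Real.log s) / b ^ 2 +
    2 * s ^ b / b ^ 3 with hF
  have hc : ContinuousOn F (Icc 0 1) := by
    have h2 : ContinuousOn (fun s : ℝ => s ^ b) (Icc 0 1) :=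
      (Real.continuous_rpow_const hb.le).continuousOn
    exact (((a3c_cont2 hb).div_const b).sub (((a3c_cont1 hb).const_mul 2).div_const _)).add
      ((h2.const_mul 2).div_const _)
  have hd : ∀ s ∈ Ioo (0 : ℝ) 1, HasDerivAt F (s ^ (b - 1) * Real.log s ^ 2) s := by
    intro s hs
    have h0 : 0 < s := hs.1
    have h1 := Real.hasDerivAt_rpow_const (x := s) (p := b) (Or.inl h0.ne')
    have h2 := Real.hasDerivAt_log h0.ne'
    have h3 := (((h1.mul (h2.pow 2)).div_const b).sub (((h1.mul h2).const_mul 2).div_const (b ^ 2))).add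
      ((h1.const_mul 2).div_const (b ^ 3))
    refine HasDerivAt.congr_deriv (f := F) h3 ?_
    rw [a3c_rpow (b := b) h0]
    simp only [Nat.cast_ofNat, Pi.pow_apply, pow_one, Nat.reduceSub]
    field_simp
    ring
  have hpos : ∀ s ∈ Ioo (0 : ℝ) 1, 0 ≤ s ^ (b - 1) * Real.log s ^ 2 := by
    intro s hs
    have h2 := Real.rpow_nonneg hs.1.le (b - 1)
    positivity
  have hi := intervalIntegral.integrableOn_deriv_of_nonneg hc hd hpos
  refine ⟨hi.mono_set Ioo_subset_Ioc_self, ?_⟩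
  have hint : IntervalIntegrable (fun s : ℝ => s ^ (b - 1) * Real.log s ^ 2) volume 0 1 := by
    rw [intervalIntegrable_iff_integrableOn_Ioc_of_le zero_le_one]; exact hi
  have h := intervalIntegral.integral_eq_sub_of_hasDerivAt_of_le zero_le_one hc hd hint
  rw [intervalIntegral.integral_of_le zero_le_one, integral_Ioc_eq_integral_Ioo] at h
  rw [h]
  simp [hF, Real.zero_rpow hb.ne']

/-- coefficients of an upper bound for `√(1-s)` -/
private noncomputable def a3c_t (k : ℕ) : ℝ :=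
  match k with
  | 0 => 1 | 1 => -1 / 2 | 2 => -1 / 8 | 3 => -1 / 16 | 4 => -5 / 128 | 5 => -7 / 256 | _ => 0

/-- coefficients of a lower bound for `√(1-s)` -/
private noncomputable def a3c_p (k : ℕ) : ℝ :=
  match k with
  | 0 => 1 | 1 => -1 / 2 | 2 => -1 / 8 | 3 => -1 / 16 | 4 => -5 / 128 | 5 => -7 / 256
  | 6 => -21 / 1024 | 7 => -231 / 1024 | _ => 0

private lemma a3c_upper {s : ℝ} (h0 : 0 < s) (h1 : s < 1) :
    Real.sqrt (1 - s) ≤ ∑ k ∈ Finset.range 6, a3c_t k * s ^ k := by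
  have e : ∑ k ∈ Finset.range 6, a3c_t k * s ^ k =
      1 - s / 2 - s ^ 2 / 8 - s ^ 3 / 16 - 5 * s ^ 4 / 128 - 7 * s ^ 5 / 256 := by
    simp only [Finset.sum_range_succ, Finset.sum_range_zero, a3c_t]
    ring
  rw [e]
  have h2 : s ^ 2 ≤ 1 := by nlinarith
  have h3 : s ^ 3 ≤ 1 := by nlinarith [mul_pos h0 h0]
  have h4 : s ^ 4 ≤ 1 := by nlinarith [mul_pos h0 h0]
  have h5 : s ^ 5 ≤ 1 := by nlinarith [mul_pos h0 h0, pow_pos h0 4]
  apply Real.sqrt_le_iff.2
  constructor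
  · nlinarith
  · have key : (1 - s / 2 - s ^ 2 / 8 - s ^ 3 / 16 - 5 * s ^ 4 / 128 - 7 * s ^ 5 / 256) ^ 2 - (1 - s) =
        s ^ 6 * (21 / 512 + 3 / 256 * s + 81 / 16384 * s ^ 2 + 35 / 16384 * s ^ 3 +
          49 / 65536 * s ^ 4) := by ring
    have : 0 ≤ s ^ 6 * (21 / 512 + 3 / 256 * s + 81 / 16384 * s ^ 2 + 35 / 16384 * s ^ 3 +
          49 / 65536 * s ^ 4) := by positivity
    linarith

private lemma a3c_lower {s : ℝ} (h0 : 0 < s) (h1 : s < 1) :
    ∑ k ∈ Finset.range 8, a3c_p k * s ^ k ≤ Real.sqrt (1 - s) := by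
  have e : ∑ k ∈ Finset.range 8, a3c_p k * s ^ k =
      (1 - s) * (1 + s / 2 + 3 * s ^ 2 / 8 + 5 * s ^ 3 / 16 + 35 * s ^ 4 / 128 +
        63 * s ^ 5 / 256 + 231 * s ^ 6 / 1024) := by
    simp only [Finset.sum_range_succ, Finset.sum_range_zero, a3c_p]
    ring
  rw [e]
  set R := 1 + s / 2 + 3 * s ^ 2 / 8 + 5 * s ^ 3 / 16 + 35 * s ^ 4 / 128 +
        63 * s ^ 5 / 256 + 231 * s ^ 6 / 1024 with hR
  apply Real.le_sqrt_of_sq_le
  have key : 1 - (1 - s) * R ^ 2 = s ^ 7 * (429 / 1024 + 3003 / 16384 * s + 1001 / 8192 * s ^ 2 +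
      3003 / 32768 * s ^ 3 + 9555 / 131072 * s ^ 4 + 63063 / 1048576 * s ^ 5 +
      53361 / 1048576 * s ^ 6) := by
    rw [hR]; ring
  have hpos : 0 ≤ s ^ 7 * (429 / 1024 + 3003 / 16384 * s + 1001 / 8192 * s ^ 2 +
      3003 / 32768 * s ^ 3 + 9555 / 131072 * s ^ 4 + 63063 / 1048576 * s ^ 5 +
      53361 / 1048576 * s ^ 6) := by positivity
  have h2 : (1 - s) * R ^ 2 ≤ 1 := by linarith
  have h3 : 0 ≤ 1 - s := by linarith
  calc ((1 - s) * R) ^ 2 = (1 - s) * ((1 - s) * R ^ 2) := by ring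
    _ ≤ (1 - s) * 1 := mul_le_mul_of_nonneg_left h2 h3
    _ = 1 - s := by ring

private lemma a3c_beta {s : ℝ} (h0 : 0 < s) : betaD 3 s = 8 / π * (Real.sqrt s * Real.sqrt (1 - s)) := by
  rw [betaD, if_pos rfl, Real.sqrt_mul h0.le]

private lemma a3c_pow {s : ℝ} (h0 : 0 < s) (k : ℕ) :
    Real.sqrt s * s ^ k = s ^ (((k : ℝ) + 3 / 2) - 1) := by
  rw [Real.sqrt_eq_rpow, ← Real.rpow_natCast, ← Real.rpow_add h0]
  congr 1
  ring

theorem beta_var_three :
    9 * ((∫ s in Ioo (0 : ℝ) 1, betaD 3 s * (Real.log s) ^ 2)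
      - (∫ s in Ioo (0 : ℝ) 1, betaD 3 s * Real.log s) ^ 2) < 5 := by
  have hpi : 0 < 8 / π := by positivity
  -- upper bound for the second moment
  have hb : ∀ k : ℕ, (0 : ℝ) < (k : ℝ) + 3 / 2 := fun k => by positivity
  have hmeas : Measurable (betaD 3) := by
    have : betaD 3 = fun s => 8 / π * Real.sqrt (s * (1 - s)) := by
      ext s; rw [betaD, if_pos rfl]
    rw [this]
    fun_prop
  have I2 : IntegrableOn (fun s : ℝ => ∑ k ∈ Finset.range 6,
      (8 / π * a3c_t k) * (s ^ (((k : ℝ) + 3 / 2) - 1) * Real.log s ^ 2)) (Ioo 0 1) :=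
    integrable_finsetSum _ fun k _ => ((a3c_J2 (hb k)).1.const_mul _)
  have V2 : ∫ s in Ioo (0 : ℝ) 1, ∑ k ∈ Finset.range 6,
      (8 / π * a3c_t k) * (s ^ (((k : ℝ) + 3 / 2) - 1) * Real.log s ^ 2) =
      8 / π * (761491480659563 / 1462378375458000) := by
    rw [integral_finsetSum _ fun k _ => ((a3c_J2 (hb k)).1.const_mul _)]
    simp only [integral_const_mul, (a3c_J2 (hb _)).2]
    simp only [Finset.sum_range_succ, Finset.sum_range_zero, a3c_t]
    push_cast
    ring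
  have U2 : ∀ s ∈ Ioo (0 : ℝ) 1, betaD 3 s * (Real.log s) ^ 2 ≤ ∑ k ∈ Finset.range 6,
      (8 / π * a3c_t k) * (s ^ (((k : ℝ) + 3 / 2) - 1) * Real.log s ^ 2) := by
    intro s hs
    have e : ∑ k ∈ Finset.range 6, (8 / π * a3c_t k) * (s ^ (((k : ℝ) + 3 / 2) - 1) * Real.log s ^ 2)
        = 8 / π * (Real.sqrt s * ∑ k ∈ Finset.range 6, a3c_t k * s ^ k) * Real.log s ^ 2 := by
      rw [Finset.mul_sum, Finset.mul_sum, Finset.sum_mul]
      refine Finset.sum_congr rfl fun k _ => ?_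
      rw [← a3c_pow hs.1]
      ring
    rw [e, a3c_beta hs.1]
    have h1 := a3c_upper hs.1 hs.2
    have h2 := Real.sqrt_nonneg s
    gcongr
  have B2 : IntegrableOn (fun s : ℝ => betaD 3 s * (Real.log s) ^ 2) (Ioo 0 1) := by
    refine Integrable.mono' I2 (by fun_prop) ?_
    refine (ae_restrict_iff' measurableSet_Ioo).2 (ae_of_all _ fun s hs => ?_)
    rw [Real.norm_of_nonneg]
    · exact U2 s hs
    · rw [a3c_beta hs.1]; positivity
  have E2 : ∫ s in Ioo (0 : ℝ) 1, betaD 3 s * (Real.log s) ^ 2 ≤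
      8 / π * (761491480659563 / 1462378375458000) := by
    rw [← V2]
    exact setIntegral_mono_on B2 I2 measurableSet_Ioo U2
  -- lower bound for the first moment
  have I1 : IntegrableOn (fun s : ℝ => ∑ k ∈ Finset.range 8,
      (8 / π * a3c_p k) * (s ^ (((k : ℝ) + 3 / 2) - 1) * Real.log s)) (Ioo 0 1) :=
    integrable_finsetSum _ fun k _ => ((a3c_J1 (hb k)).1.const_mul _)
  have V1 : ∫ s in Ioo (0 : ℝ) 1, ∑ k ∈ Finset.range 8,
      (8 / π * a3c_p k) * (s ^ (((k : ℝ) + 3 / 2) - 1) * Real.log s) =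
      -(8 / π * (1621870814203 / 4691168281800)) := by
    rw [integral_finsetSum _ fun k _ => ((a3c_J1 (hb k)).1.const_mul _)]
    simp only [integral_const_mul, (a3c_J1 (hb _)).2]
    simp only [Finset.sum_range_succ, Finset.sum_range_zero, a3c_p]
    push_cast
    ring
  have U1 : ∀ s ∈ Ioo (0 : ℝ) 1, betaD 3 s * Real.log s ≤ ∑ k ∈ Finset.range 8,
      (8 / π * a3c_p k) * (s ^ (((k : ℝ) + 3 / 2) - 1) * Real.log s) := by
    intro s hs
    have e : ∑ k ∈ Finset.range 8, (8 / π * a3c_p k) * (s ^ (((k : ℝ) + 3 / 2) - 1) * Real.log s)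
        = 8 / π * (Real.sqrt s * ∑ k ∈ Finset.range 8, a3c_p k * s ^ k) * Real.log s := by
      rw [Finset.mul_sum, Finset.mul_sum, Finset.sum_mul]
      refine Finset.sum_congr rfl fun k _ => ?_
      rw [← a3c_pow hs.1]
      ring
    rw [e, a3c_beta hs.1]
    have h1 := a3c_lower hs.1 hs.2
    have h2 := Real.sqrt_nonneg s
    have h3 := Real.log_nonpos hs.1.le hs.2.le
    apply mul_le_mul_of_nonpos_right _ h3
    gcongr
  have B1 : IntegrableOn (fun s : ℝ => betaD 3 s * Real.log s) (Ioo 0 1) := by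
    have hJ := (a3c_J1 (b := 3 / 2) (by norm_num)).1.const_mul (-(8 / π))
    refine Integrable.mono' hJ (by fun_prop) ?_
    refine (ae_restrict_iff' measurableSet_Ioo).2 (ae_of_all _ fun s hs => ?_)
    have h3 := Real.log_nonpos hs.1.le hs.2.le
    have h4 : Real.sqrt (1 - s) ≤ 1 := by
      exact Real.sqrt_le_one.2 (by linarith [hs.1])
    have h5 := Real.sqrt_nonneg (1 - s)
    have h6 := Real.sqrt_nonneg s
    rw [Real.norm_eq_abs, abs_mul, abs_of_nonpos h3, a3c_beta hs.1, abs_of_nonneg (by positivity)]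
    have e := a3c_pow hs.1 0
    simp only [pow_zero, mul_one, Nat.cast_zero, zero_add] at e
    rw [← e]
    have h7 : Real.sqrt s * Real.sqrt (1 - s) ≤ Real.sqrt s * 1 := by gcongr
    have h8 : 8 / π * (Real.sqrt s * Real.sqrt (1 - s)) * -Real.log s ≤
        8 / π * (Real.sqrt s * 1) * -Real.log s := by
      have : 0 ≤ -Real.log s := by linarith
      gcongr
    calc 8 / π * (Real.sqrt s * Real.sqrt (1 - s)) * -Real.log s ≤
        8 / π * (Real.sqrt s * 1) * -Real.log s := h8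
      _ = -(8 / π) * (Real.sqrt s * Real.log s) := by ring
  have E1 : ∫ s in Ioo (0 : ℝ) 1, betaD 3 s * Real.log s ≤
      -(8 / π * (1621870814203 / 4691168281800)) := by
    rw [← V1]
    exact setIntegral_mono_on B1 I1 measurableSet_Ioo U1
  set X := ∫ s in Ioo (0 : ℝ) 1, betaD 3 s * (Real.log s) ^ 2
  set Y := ∫ s in Ioo (0 : ℝ) 1, betaD 3 s * Real.log s
  have hx : (2546 : ℝ) / 1000 < 8 / π := by
    rw [lt_div_iff₀ Real.pi_pos]
    have := Real.pi_lt_d4
    linarith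
  set x := 8 / π
  have hY : (x * (1621870814203 / 4691168281800)) ^ 2 ≤ Y ^ 2 := by
    have h0 : 0 ≤ x * (1621870814203 / 4691168281800) := by positivity
    nlinarith
  have hfin : x * (761491480659563 / 1462378375458000) -
      (x * (1621870814203 / 4691168281800)) ^ 2 < 5 / 9 := by
    have h1 : (0 : ℝ) ≤ (x - 2546 / 1000) * (x - 2546 / 1000) := mul_self_nonneg _
    have h2 : (0 : ℝ) ≤ x - 2546 / 1000 := by linarith
    norm_num at *
    nlinarith
  linarith

end Pool.Agent.QGlue
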