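import Pool.Agent.QGlue.A1
import Pool.Agent.QGlue.A2
import Pool.Agent.QGlue.A3a
import Pool.Agent.QGlue.A3b
import Pool.Agent.QGlue.A3c

set_option autoImplicit false

namespace Pool.Agent.QGlue

open MeasureTheory Real Set Filter Topology

private lemma A4_pos {n : ℕ} (y : E n) : 0 < 1 + ‖y‖ ^ 2 := by positivity

private lemma A4_ne {n : ℕ} (y : E n) : 1 + ‖y‖ ^ 2 ≠ 0 := (A4_pos y).ne'

theorem continuous_Z0 {n : ℕ} : Continuous (Z0 : E n → ℝ) := by
  unfold Z0
  exact Continuous.div (by fun_prop) (by fun_prop) (fun y => A4_ne y)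

theorem continuous_Zv {n : ℕ} : Continuous (Zv : E n → E n) := by
  unfold Zv
  exact Continuous.smul (Continuous.div (by fun_prop) (by fun_prop) (fun y => A4_ne y))
    continuous_id

private lemma A4_norm_Zv {n : ℕ} (y : E n) : ‖Zv y‖ = 2 / (1 + ‖y‖ ^ 2) * ‖y‖ := by
  unfold Zv
  rw [norm_smul, Real.norm_of_nonneg (by positivity)]

theorem Z_norm {n : ℕ} (y : E n) : Z0 y ^ 2 + ‖Zv y‖ ^ 2 = 1 := by
  rw [A4_norm_Zv]
  unfold Z0
  have := A4_ne y
  field_simp
  ring

theorem Z_inner {n : ℕ} (y z : E n) : Z0 y * Z0 z + inner ℝ (Zv y) (Zv z) = 1 - 2 * tau y z := by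
  unfold Z0 Zv tau
  rw [inner_smul_left, inner_smul_right, norm_sub_sq_real]
  have h1 := A4_ne y
  have h2 := A4_ne z
  simp only [conj_trivial]
  field_simp
  ring

private lemma A4_abs_Z0 {n : ℕ} (y : E n) : |Z0 y| ≤ 1 := by
  have h := Z_norm y
  have h1 : Z0 y ^ 2 ≤ 1 := by nlinarith [sq_nonneg ‖Zv y‖]
  exact (sq_le_one_iff_abs_le_one _).1 h1

private lemma A4_norm_Zv_le {n : ℕ} (y : E n) : ‖Zv y‖ ≤ 1 := by
  have h := Z_norm y
  have h1 : ‖Zv y‖ ^ 2 ≤ 1 := by nlinarith [sq_nonneg (Z0 y)]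
  have := (sq_le_one_iff_abs_le_one _).1 h1
  rwa [abs_norm] at this

private lemma A4_Z0_eq {n : ℕ} (y : E n) : Z0 y = 2 * (1 / (1 + ‖y‖ ^ 2)) - 1 := by
  unfold Z0
  have := A4_ne y
  field_simp
  ring

private lemma A4_Z0_neg {n : ℕ} (y : E n) : Z0 (-y) = Z0 y := by
  unfold Z0; rw [norm_neg]

private lemma A4_Zv_neg {n : ℕ} (y : E n) : Zv (-y) = - Zv y := by
  unfold Zv; rw [norm_neg, smul_neg]

private lemma A4_neg_mp {n : ℕ} : MeasurePreserving (fun y : E n => -y) (piM n) (piM n) := by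
  have := piM_isometry (LinearIsometryEquiv.neg ℝ (E := E n))
  simpa using this

/-- odd functions have integral zero -/
private lemma A4_odd {n : ℕ} {F : Type*} [NormedAddCommGroup F] [NormedSpace ℝ F]
    (f : E n → F) (hf : ∀ y, f (-y) = - f y) : ∫ y, f y ∂(piM n) = 0 := by
  have h1 : ∫ y, f (-y) ∂(piM n) = ∫ y, f y ∂(piM n) :=
    (A4_neg_mp (n := n)).integral_comp (Homeomorph.neg (E n)).measurableEmbedding f
  simp only [hf, integral_neg] at h1
  have h2 : (2 : ℝ) • ∫ y, f y ∂(piM n) = 0 := by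
    rw [two_smul]
    nth_rewrite 1 [← h1]
    simp
  exact (smul_eq_zero.1 h2).resolve_left (by norm_num)

section betas

variable {n : ℕ} (hn : n = 3 ∨ n = 4)
include hn

private lemma A4_int_beta : IntegrableOn (fun s => betaD n s) (Ioo (0 : ℝ) 1) := by
  simpa using beta_int_log hn 0

private lemma A4_int_beta_s : IntegrableOn (fun s => betaD n s * s) (Ioo (0 : ℝ) 1) := by
  by_contra h
  have h1 := beta_half hn
  rw [integral_undef h] at h1
  norm_num at h1

private lemma A4_int_beta_log : IntegrableOn (fun s => betaD n s * Real.log s) (Ioo (0 : ℝ) 1) := by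
  simpa using beta_int_log hn 1

theorem int_Z0 : ∫ y : E n, Z0 y ∂(piM n) = 0 := by
  simp only [A4_Z0_eq]
  rw [integral_piM_radial hn (fun s => 2 * s - 1)]
  have h1 : ∀ s : ℝ, betaD n s * (2 * s - 1) = 2 * (betaD n s * s) - betaD n s := by
    intro s; ring
  simp only [h1]
  rw [integral_sub ((A4_int_beta_s hn).const_mul 2) (A4_int_beta hn), integral_const_mul,
    beta_half hn, beta_one hn]
  norm_num

end betas

set_option linter.unusedVariables false in
theorem int_Zv {n : ℕ} (hn : n = 3 ∨ n = 4) : ∫ y : E n, Zv y ∂(piM n) = 0 :=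
  A4_odd _ A4_Zv_neg

private lemma A4_ellInf {n : ℕ} (z : E n) : ellInf z = - Real.log (1 / (1 + ‖z‖ ^ 2)) := by
  unfold ellInf
  rw [one_div, Real.log_inv, neg_neg]

private lemma A4_int_ellInf {n : ℕ} (hn : n = 3 ∨ n = 4) :
    Integrable (fun z : E n => ellInf z) (piM n) := by
  simp only [A4_ellInf]
  rw [integrable_piM_radial hn (fun s => - Real.log s)]
  simp only [mul_neg]
  exact (A4_int_beta_log hn).neg

theorem int_ell {n : ℕ} (hn : n = 3 ∨ n = 4) (y : E n) :
    Integrable (fun z => ell y z) (piM n) ∧ ∫ z, ell y z ∂(piM n) = kap n := by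
  constructor
  · unfold ell
    rw [integrable_tau hn y (fun s => - Real.log s)]
    simpa only [A4_ellInf] using A4_int_ellInf hn
  · unfold ell
    rw [integral_tau hn y (fun s => - Real.log s)]
    unfold kap
    simp only [A4_ellInf]

private lemma A4_aesm_Z0 {n : ℕ} : AEStronglyMeasurable (Z0 : E n → ℝ) (piM n) :=
  continuous_Z0.aestronglyMeasurable

private lemma A4_aesm_Zv {n : ℕ} : AEStronglyMeasurable (Zv : E n → E n) (piM n) :=
  continuous_Zv.aestronglyMeasurable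

private lemma A4_mul_Z0 {n : ℕ} {f : E n → ℝ} (hf : Integrable f (piM n)) :
    Integrable (fun z => f z * Z0 z) (piM n) :=
  hf.mul_bdd (c := 1) A4_aesm_Z0 (ae_of_all _ fun z => by
    rw [Real.norm_eq_abs]; exact A4_abs_Z0 z)

private lemma A4_smul_Zv {n : ℕ} {f : E n → ℝ} (hf : Integrable f (piM n)) :
    Integrable (fun z => f z • Zv z) (piM n) := by
  refine Integrable.mono hf (hf.aestronglyMeasurable.smul A4_aesm_Zv) (ae_of_all _ fun z => ?_)
  rw [norm_smul]
  exact mul_le_of_le_one_right (norm_nonneg _) (A4_norm_Zv_le z)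

theorem int_ellInf_Z0 {n : ℕ} (hn : n = 3 ∨ n = 4) :
    ∫ z : E n, ellInf z * Z0 z ∂(piM n) = -(1 : ℝ) / n := by
  simp only [A4_ellInf, A4_Z0_eq]
  rw [integral_piM_radial hn (fun s => - Real.log s * (2 * s - 1)), beta_log hn]

theorem int_ellInf_Zv {n : ℕ} (hn : n = 3 ∨ n = 4) :
    ∫ z : E n, ellInf z • Zv z ∂(piM n) = 0 := by
  apply A4_odd
  intro y
  rw [A4_Zv_neg, smul_neg]
  unfold ellInf
  rw [norm_neg]

private lemma A4_n_pos {n : ℕ} (hn : n = 3 ∨ n = 4) : (0 : ℝ) < n := by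
  rcases hn with rfl | rfl <;> norm_num

private lemma A4_factor {n : ℕ} (y : E n) : (1 + ‖y‖ ^ 2) / 2 * (Z0 y + 1) = 1 := by
  unfold Z0
  have := A4_ne y
  field_simp
  ring

private lemma A4_measurable_tau {n : ℕ} (y : E n) : Measurable (fun z => tau y z) := by
  unfold tau
  apply Continuous.measurable
  exact Continuous.div (by fun_prop) (by fun_prop)
    (fun z => (mul_pos (A4_pos y) (A4_pos z)).ne')

private lemma A4_measurable_ell {n : ℕ} (y : E n) : Measurable (fun z => ell y z) := by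
  unfold ell
  exact ((A4_measurable_tau y).log).neg

private lemma A4_invS_ne {n : ℕ} (a y : E n) (h : y ≠ a) : invS a y ≠ a := by
  intro h1
  unfold invS at h1
  have h2 : ((1 + ‖a‖ ^ 2) / ‖y - a‖ ^ 2) • (y - a) = 0 := by
    simpa using h1
  have h3 : y - a ≠ 0 := sub_ne_zero.2 h
  have h4 : (1 + ‖a‖ ^ 2) / ‖y - a‖ ^ 2 ≠ 0 := by
    apply div_ne_zero (A4_ne a)
    exact pow_ne_zero 2 (norm_ne_zero_iff.2 h3)
  rcases smul_eq_zero.1 h2 with h5 | h5
  · exact h4 h5
  · exact h3 h5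

private lemma A4_ell_invS {n : ℕ} (y z : E n) (h : z ≠ y) : ell y (invS y z) = ellInf z := by
  unfold ell
  rw [tau_eq_invS y (invS y z) (A4_invS_ne y z h), invS_invS, A4_ellInf]

private lemma A4_ae_ne {n : ℕ} (hn : n = 3 ∨ n = 4) (y : E n) : ∀ᵐ z ∂(piM n), z ≠ y := by
  have hn0 : 0 < n := by omega
  have : Nonempty (Fin n) := ⟨⟨0, hn0⟩⟩
  have h1 : ∀ᵐ z ∂(volume : Measure (E n)), z ≠ y := by
    rw [ae_iff]
    simp
  exact (withDensity_absolutelyContinuous _ _) h1

/-- change of variables by the inversion -/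
private lemma A4_subst {n : ℕ} (hn : n = 3 ∨ n = 4) {F : Type*} [NormedAddCommGroup F]
    [NormedSpace ℝ F] (y : E n) (f : E n → F) (hf : AEStronglyMeasurable f (piM n)) :
    ∫ z, f z ∂(piM n) = ∫ z, f (invS y z) ∂(piM n) := by
  have hmp := measurePreserving_invS hn y
  have h1 := integral_map hmp.measurable.aemeasurable (f := f) (by rw [hmp.map_eq]; exact hf)
  rw [hmp.map_eq] at h1
  exact h1

theorem int_ell_Z0 {n : ℕ} (hn : n = 3 ∨ n = 4) (y : E n) :
    ∫ z, ell y z * Z0 z ∂(piM n) = (1 / n) * Z0 y := by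
  rw [A4_subst hn y (fun z => ell y z * Z0 z)
    (((A4_measurable_ell y).aestronglyMeasurable).mul A4_aesm_Z0)]
  have hI := A4_int_ellInf hn
  have e1 : ∫ z, ell y (invS y z) * Z0 (invS y z) ∂(piM n) =
      ∫ z, (ellInf z * Z0 z - (inner ℝ (ellInf z • Zv z) (Zv y) + (ellInf z * Z0 z) * (Z0 y + 1)))
        ∂(piM n) := by
    apply integral_congr_ae
    filter_upwards [A4_ae_ne hn y] with z hz
    rw [A4_ell_invS y z hz, Z0_invS y z hz, inner_smul_left]
    simp only [conj_trivial]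
    have hf := A4_factor y
    have : ellInf z * ((1 + ‖y‖ ^ 2) / 2 * (inner ℝ (Zv z) (Zv y) + Z0 z * Z0 y + Z0 z) *
        (Z0 y + 1)) = ellInf z * (inner ℝ (Zv z) (Zv y) + Z0 z * Z0 y + Z0 z) *
        ((1 + ‖y‖ ^ 2) / 2 * (Z0 y + 1)) := by ring
    rw [mul_sub, this, hf]
    ring
  rw [e1]
  have hA := A4_mul_Z0 hI
  have hB := A4_smul_Zv hI
  have hB' : Integrable (fun z => inner ℝ (ellInf z • Zv z) (Zv y)) (piM n) := hB.inner_const _
  have hC : Integrable (fun z => inner ℝ (ellInf z • Zv z) (Zv y)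
        + (ellInf z * Z0 z) * (Z0 y + 1)) (piM n) := hB'.add (hA.mul_const _)
  rw [integral_sub hA hC, integral_add hB' (hA.mul_const _),
    integral_mul_const, int_ellInf_Z0 hn]
  have h2 : ∫ z, inner ℝ (ellInf z • Zv z) (Zv y) ∂(piM n) =
      inner ℝ (∫ z, ellInf z • Zv z ∂(piM n)) (Zv y) := by
    rw [real_inner_comm, ← integral_inner hB]
    congr 1; ext z; rw [real_inner_comm]
  rw [h2, int_ellInf_Zv hn, inner_zero_left]
  ring

theorem int_ell_Zv {n : ℕ} (hn : n = 3 ∨ n = 4) (y : E n) :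
    ∫ z, ell y z • Zv z ∂(piM n) = ((1 : ℝ) / n) • Zv y := by
  rw [A4_subst hn y (fun z => ell y z • Zv z)
    (((A4_measurable_ell y).aestronglyMeasurable).smul A4_aesm_Zv)]
  have hI := A4_int_ellInf hn
  have e1 : ∫ z, ell y (invS y z) • Zv (invS y z) ∂(piM n) =
      ∫ z, (ellInf z • Zv z - (((1 + ‖y‖ ^ 2) / 2) * (inner ℝ (ellInf z • Zv z) (Zv y)
        + (ellInf z * Z0 z) * (Z0 y + 1))) • Zv y) ∂(piM n) := by
    apply integral_congr_ae
    filter_upwards [A4_ae_ne hn y] with z hz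
    rw [A4_ell_invS y z hz, Zv_invS y z hz, inner_smul_left, smul_sub, smul_smul]
    simp only [conj_trivial]
    congr 2
    ring
  rw [e1]
  have hA := A4_mul_Z0 hI
  have hB := A4_smul_Zv hI
  have hB' : Integrable (fun z => inner ℝ (ellInf z • Zv z) (Zv y)) (piM n) := hB.inner_const _
  have hC : Integrable (fun z => ((1 + ‖y‖ ^ 2) / 2) * (inner ℝ (ellInf z • Zv z) (Zv y)
        + (ellInf z * Z0 z) * (Z0 y + 1))) (piM n) :=
    (hB'.add (hA.mul_const _)).const_mul _
  rw [integral_sub hB (hC.smul_const _), integral_smul_const, integral_const_mul,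
    integral_add hB' (hA.mul_const _), integral_mul_const, int_ellInf_Z0 hn, int_ellInf_Zv hn]
  have h2 : ∫ z, inner ℝ (ellInf z • Zv z) (Zv y) ∂(piM n) =
      inner ℝ (∫ z, ellInf z • Zv z ∂(piM n)) (Zv y) := by
    rw [real_inner_comm, ← integral_inner hB]
    congr 1; ext z; rw [real_inner_comm]
  rw [h2, int_ellInf_Zv hn, inner_zero_left, zero_sub, zero_add, ← neg_smul]
  congr 1
  have hf := A4_factor y
  have : (1 + ‖y‖ ^ 2) / 2 * (-1 / (n : ℝ) * (Z0 y + 1)) =
      (-1 / (n : ℝ)) * ((1 + ‖y‖ ^ 2) / 2 * (Z0 y + 1)) := by ring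
  rw [this, hf]
  ring

theorem int_sq {n : ℕ} (hn : n = 3 ∨ n = 4) : Integrable (fun y : E n => ‖y‖ ^ 2) (piM n) := by
  have h1 : (fun y : E n => ‖y‖ ^ 2) =
      fun y : E n => (fun s : ℝ => (1 - s) / s) (1 / (1 + ‖y‖ ^ 2)) := by
    ext y
    have := A4_ne y
    show ‖y‖ ^ 2 = (1 - 1 / (1 + ‖y‖ ^ 2)) / (1 / (1 + ‖y‖ ^ 2))
    field_simp
    ring
  rw [h1, integrable_piM_radial hn (fun s : ℝ => (1 - s) / s)]
  exact beta_int_inv hn

theorem int_lin_Z0 {n : ℕ} (hn : n = 3 ∨ n = 4) (v : E n) :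
    ∫ y, inner ℝ v y * Z0 y ∂(piM n) = 0 := by
  apply A4_odd
  intro y
  rw [A4_Z0_neg, inner_neg_right]
  ring

/-! ### isotropy -/

/-- sign change of one coordinate -/
private noncomputable def A4_sgn {n : ℕ} (i : Fin n) : E n ≃ₗᵢ[ℝ] E n :=
  LinearIsometryEquiv.piLpCongrRight 2 (fun k => if k = i then LinearIsometryEquiv.neg ℝ
    else LinearIsometryEquiv.refl ℝ ℝ)

private lemma A4_sgn_self {n : ℕ} (i : Fin n) (y : E n) : A4_sgn i y i = - y i := by
  simp [A4_sgn, LinearIsometryEquiv.piLpCongrRight_apply]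

private lemma A4_sgn_ne {n : ℕ} (i j : Fin n) (h : j ≠ i) (y : E n) : A4_sgn i y j = y j := by
  simp [A4_sgn, LinearIsometryEquiv.piLpCongrRight_apply, h]

private lemma A4_mat_off {n : ℕ} (h : ℝ → ℝ) (i j : Fin n) (hij : i ≠ j) :
    ∫ y : E n, h ‖y‖ * (y i * y j) ∂(piM n) = 0 := by
  have h1 : ∫ y : E n, h ‖A4_sgn i y‖ * (A4_sgn i y i * A4_sgn i y j) ∂(piM n)
      = ∫ y : E n, h ‖y‖ * (y i * y j) ∂(piM n) :=
    (piM_isometry (A4_sgn i)).integral_comp (A4_sgn i).toHomeomorph.measurableEmbedding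
      (fun y : E n => h ‖y‖ * (y i * y j))
  have h2 : ∀ y : E n, h ‖A4_sgn i y‖ * (A4_sgn i y i * A4_sgn i y j) =
      - (h ‖y‖ * (y i * y j)) := by
    intro y
    rw [LinearIsometryEquiv.norm_map, A4_sgn_self, A4_sgn_ne i j hij.symm]
    ring
  simp only [h2, integral_neg] at h1
  linarith

private lemma A4_mat_diag {n : ℕ} (h : ℝ → ℝ) (i j : Fin n) :
    ∫ y : E n, h ‖y‖ * (y i * y i) ∂(piM n) = ∫ y : E n, h ‖y‖ * (y j * y j) ∂(piM n) := by
  set g : E n ≃ₗᵢ[ℝ] E n := LinearIsometryEquiv.piLpCongrLeft 2 ℝ ℝ (Equiv.swap i j) with hg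
  have h1 : ∫ y : E n, h ‖g y‖ * (g y i * g y i) ∂(piM n)
      = ∫ y : E n, h ‖y‖ * (y i * y i) ∂(piM n) :=
    (piM_isometry g).integral_comp g.toHomeomorph.measurableEmbedding
      (fun y : E n => h ‖y‖ * (y i * y i))
  have h2 : ∀ y : E n, h ‖g y‖ * (g y i * g y i) = h ‖y‖ * (y j * y j) := by
    intro y
    rw [LinearIsometryEquiv.norm_map]
    have : g y i = y j := by
      rw [hg, LinearIsometryEquiv.piLpCongrLeft_apply]
      simp [Equiv.piCongrLeft'_apply]
    rw [this]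
  simp only [h2] at h1
  exact h1.symm

private lemma A4_abs_coord {n : ℕ} (y : E n) (i : Fin n) : |y i| ≤ ‖y‖ := by
  have := PiLp.norm_apply_le (p := 2) y i
  simpa using this

private lemma A4_coord_meas {n : ℕ} (i : Fin n) : Continuous (fun y : E n => y i) := by
  fun_prop

private lemma A4_int_coord {n : ℕ} (h : ℝ → ℝ) (hm : Measurable h)
    (hint : Integrable (fun y : E n => h ‖y‖ * ‖y‖ ^ 2) (piM n)) (i j : Fin n) :
    Integrable (fun y : E n => h ‖y‖ * (y i * y j)) (piM n) := by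
  refine Integrable.mono hint ?_ (ae_of_all _ fun y => ?_)
  · exact ((hm.comp measurable_norm).mul (((A4_coord_meas i).mul
      (A4_coord_meas j)).measurable)).aestronglyMeasurable
  · rw [norm_mul, norm_mul, norm_mul]
    apply mul_le_mul_of_nonneg_left _ (norm_nonneg _)
    rw [Real.norm_eq_abs, Real.norm_eq_abs, Real.norm_eq_abs, abs_of_nonneg (sq_nonneg ‖y‖), sq]
    exact mul_le_mul (A4_abs_coord y i) (A4_abs_coord y j) (abs_nonneg _) (norm_nonneg _)

private lemma A4_mat {n : ℕ} (hn : n = 3 ∨ n = 4) (h : ℝ → ℝ) (hm : Measurable h)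
    (hint : Integrable (fun y : E n => h ‖y‖ * ‖y‖ ^ 2) (piM n)) (i j : Fin n) :
    ∫ y : E n, h ‖y‖ * (y i * y j) ∂(piM n) =
      if i = j then (1 / n) * ∫ y : E n, h ‖y‖ * ‖y‖ ^ 2 ∂(piM n) else 0 := by
  by_cases hij : i = j
  · subst hij
    rw [if_pos rfl]
    have h1 : ∫ y : E n, h ‖y‖ * ‖y‖ ^ 2 ∂(piM n) =
        ∑ k : Fin n, ∫ y : E n, h ‖y‖ * (y k * y k) ∂(piM n) := by
      rw [← integral_finsetSum _ (fun k _ => A4_int_coord h hm hint k k)]
      congr 1
      ext y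
      rw [EuclideanSpace.real_norm_sq_eq, Finset.mul_sum]
      apply Finset.sum_congr rfl
      intro k _
      ring
    have h2 : ∑ k : Fin n, ∫ y : E n, h ‖y‖ * (y k * y k) ∂(piM n) =
        ∑ _k : Fin n, ∫ y : E n, h ‖y‖ * (y i * y i) ∂(piM n) :=
      Finset.sum_congr rfl (fun k _ => A4_mat_diag h k i)
    rw [h1, h2, Finset.sum_const, Finset.card_univ, Fintype.card_fin, nsmul_eq_mul]
    have := A4_n_pos hn
    field_simp
  · rw [if_neg hij, A4_mat_off h i j hij]

/-- isotropy of the bubble measure -/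
private lemma A4_iso {n : ℕ} (hn : n = 3 ∨ n = 4) (h : ℝ → ℝ) (hm : Measurable h)
    (hint : Integrable (fun y : E n => h ‖y‖ * ‖y‖ ^ 2) (piM n)) (v : E n) :
    ∫ y : E n, (h ‖y‖ * inner ℝ v y) • y ∂(piM n) =
      ((1 / n) * ∫ y : E n, h ‖y‖ * ‖y‖ ^ 2 ∂(piM n)) • v := by
  have hI : Integrable (fun y : E n => (h ‖y‖ * inner ℝ v y) • y) (piM n) := by
    refine Integrable.mono (hint.const_mul ‖v‖) ?_ (ae_of_all _ fun y => ?_)
    · have q1 : AEStronglyMeasurable (fun y : E n => h ‖y‖ * inner ℝ v y) (piM n) := by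
        apply Measurable.aestronglyMeasurable
        exact (hm.comp measurable_norm).mul
          ((continuous_const.inner continuous_id).measurable)
      exact q1.smul (continuous_id.aestronglyMeasurable)
    · rw [norm_smul, norm_mul, norm_mul, norm_mul, norm_norm, norm_pow, norm_norm]
      have h1 : ‖inner ℝ v y‖ ≤ ‖v‖ * ‖y‖ := norm_inner_le_norm v y
      calc ‖h ‖y‖‖ * ‖inner ℝ v y‖ * ‖y‖ ≤ ‖h ‖y‖‖ * (‖v‖ * ‖y‖) * ‖y‖ := by gcongr
        _ = ‖v‖ * (‖h ‖y‖‖ * ‖y‖ ^ 2) := by ring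
  ext j
  have h1 : (∫ y : E n, (h ‖y‖ * inner ℝ v y) • y ∂(piM n)) j =
      ∫ y : E n, ((h ‖y‖ * inner ℝ v y) • y) j ∂(piM n) :=
    ((EuclideanSpace.proj (𝕜 := ℝ) j).integral_comp_comm hI).symm
  rw [h1]
  have h2 : ∀ y : E n, ((h ‖y‖ * inner ℝ v y) • y) j = ∑ i, v i * (h ‖y‖ * (y i * y j)) := by
    intro y
    rw [PiLp.smul_apply, smul_eq_mul, PiLp.inner_apply, Finset.mul_sum, Finset.sum_mul]
    apply Finset.sum_congr rfl
    intro i _
    simp only [RCLike.inner_apply, conj_trivial]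
    ring
  simp only [h2]
  rw [integral_finsetSum _ (fun i _ => (A4_int_coord h hm hint i j).const_mul _)]
  simp only [integral_const_mul, A4_mat hn h hm hint]
  rw [PiLp.smul_apply, smul_eq_mul]
  rw [Finset.sum_eq_single j]
  · rw [if_pos rfl]; ring
  · intro i _ hij
    rw [if_neg hij, mul_zero]
  · intro hj
    exact absurd (Finset.mem_univ j) hj

private lemma A4_one_add_sq (n : ℕ) : Measurable (fun r : ℝ => 2 / (1 + r ^ 2)) := by
  fun_prop

theorem int_lin_Zv {n : ℕ} (hn : n = 3 ∨ n = 4) (v : E n) :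
    ∫ y, (inner ℝ v y : ℝ) • Zv y ∂(piM n) = ((1 : ℝ) / n) • v := by
  have := piM_prob hn
  have e0 : ∀ y : E n, (2 / (1 + ‖y‖ ^ 2)) * ‖y‖ ^ 2 = 1 - Z0 y := by
    intro y
    unfold Z0
    have := A4_ne y
    field_simp
    ring
  have hZ : Integrable (fun y : E n => Z0 y) (piM n) := by
    have := A4_mul_Z0 (integrable_const (μ := piM n) (1 : ℝ))
    simpa using this
  have e1 : Integrable (fun y : E n => (2 / (1 + ‖y‖ ^ 2)) * ‖y‖ ^ 2) (piM n) := by
    simp only [e0]
    exact (integrable_const 1).sub hZ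
  have e2 : ∫ y : E n, (2 / (1 + ‖y‖ ^ 2)) * ‖y‖ ^ 2 ∂(piM n) = 1 := by
    simp only [e0]
    rw [integral_sub (integrable_const 1) hZ, int_Z0 hn]
    simp
  have e3 := A4_iso hn (fun r : ℝ => 2 / (1 + r ^ 2)) (A4_one_add_sq n) e1 v
  rw [e2, mul_one] at e3
  rw [← e3]
  congr 1
  ext1 y
  unfold Zv
  rw [smul_smul, mul_comm]

/-! ### the kernel -/

/-- the kernel as a function of `tau` -/
private noncomputable def A4_G (n : ℕ) (s : ℝ) : ℝ :=
  n * (- Real.log s) - n * kap n - (n + 1) * (1 - 2 * s)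

private lemma A4_ker {n : ℕ} (y z : E n) : ker n y z = A4_G n (tau y z) := rfl

private lemma A4_kerInf {n : ℕ} (z : E n) : kerInf n z = A4_G n (1 / (1 + ‖z‖ ^ 2)) := by
  unfold kerInf A4_G
  rw [← A4_ellInf, mul_one_div]

private lemma A4_kap {n : ℕ} (hn : n = 3 ∨ n = 4) :
    kap n = - ∫ s in Ioo (0 : ℝ) 1, betaD n s * Real.log s := by
  unfold kap
  simp only [A4_ellInf]
  rw [integral_piM_radial hn (fun s => - Real.log s)]
  simp only [mul_neg, integral_neg]

private lemma A4_measurable_G (n : ℕ) : Measurable (A4_G n) := by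
  unfold A4_G
  fun_prop

private lemma A4_betaG {n : ℕ} (hn : n = 3 ∨ n = 4) :
    IntegrableOn (fun s => betaD n s * (A4_G n s) ^ 2) (Ioo (0 : ℝ) 1) ∧
    ∫ s in Ioo (0 : ℝ) 1, betaD n s * (A4_G n s) ^ 2 =
      n ^ 2 * ((∫ s in Ioo (0 : ℝ) 1, betaD n s * (Real.log s) ^ 2)
      - (∫ s in Ioo (0 : ℝ) 1, betaD n s * Real.log s) ^ 2) - (n + 1) := by
  have hnp := A4_n_pos hn
  set m1 : ℝ := ∫ s in Ioo (0 : ℝ) 1, betaD n s * Real.log s with hm1
  set m2 : ℝ := ∫ s in Ioo (0 : ℝ) 1, betaD n s * (Real.log s) ^ 2 with hm2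
  have hk : kap n = - m1 := A4_kap hn
  have i1 : IntegrableOn (fun s => betaD n s * (Real.log s) ^ 2) (Ioo (0 : ℝ) 1) :=
    beta_int_log hn 2
  have i2 := A4_int_beta_log hn
  have i3 := A4_int_beta hn
  have i4 : IntegrableOn (fun s => betaD n s * (- Real.log s * (2 * s - 1))) (Ioo (0 : ℝ) 1) := by
    by_contra h
    have h1 := beta_log hn
    rw [integral_undef h] at h1
    have : (-(1 : ℝ) / n) < 0 := div_neg_of_neg_of_pos (by norm_num) hnp
    linarith
  have i5 : IntegrableOn (fun s => betaD n s * (2 * s - 1)) (Ioo (0 : ℝ) 1) := by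
    have := ((A4_int_beta_s hn).const_mul 2).sub (A4_int_beta hn)
    refine this.congr (ae_of_all _ fun s => ?_)
    simp only [Pi.sub_apply]
    ring
  have i6 : IntegrableOn (fun s => betaD n s * (2 * s - 1) ^ 2) (Ioo (0 : ℝ) 1) := by
    by_contra h
    have h1 := beta_sq hn
    rw [integral_undef h] at h1
    have : (0 : ℝ) < 1 / (n + 1) := by positivity
    linarith
  have v5 : ∫ s in Ioo (0 : ℝ) 1, betaD n s * (2 * s - 1) = 0 := by
    have h1 : ∀ s : ℝ, betaD n s * (2 * s - 1) = 2 * (betaD n s * s) - betaD n s := by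
      intro s; ring
    simp only [h1]
    rw [integral_sub ((A4_int_beta_s hn).const_mul 2) (A4_int_beta hn), integral_const_mul,
      beta_half hn, beta_one hn]
    norm_num
  have e : ∀ s : ℝ, betaD n s * (A4_G n s) ^ 2 =
      ((((((n : ℝ) ^ 2) * (betaD n s * (Real.log s) ^ 2)
      + (-2 * n ^ 2 * m1) * (betaD n s * Real.log s))
      + (n ^ 2 * m1 ^ 2) * betaD n s)
      + (2 * n * (n + 1)) * (betaD n s * (- Real.log s * (2 * s - 1))))
      + (2 * n * m1 * (n + 1)) * (betaD n s * (2 * s - 1)))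
      + ((n + 1 : ℝ) ^ 2) * (betaD n s * (2 * s - 1) ^ 2) := by
    intro s
    unfold A4_G
    rw [hk]
    ring
  have j1 := i1.const_mul ((n : ℝ) ^ 2)
  have j2 := i2.const_mul (-2 * n ^ 2 * m1)
  have j3 := i3.const_mul (n ^ 2 * m1 ^ 2)
  have j4 := i4.const_mul (2 * n * (n + 1))
  have j5 := i5.const_mul (2 * n * m1 * (n + 1))
  have j6 := i6.const_mul ((n + 1 : ℝ) ^ 2)
  simp only [e]
  refine ⟨((((j1.add j2).add j3).add j4).add j5).add j6, ?_⟩
  have t1 := integral_add j1 j2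
  have t2 := integral_add (j1.add j2) j3
  have t3 := integral_add ((j1.add j2).add j3) j4
  have t4 := integral_add (((j1.add j2).add j3).add j4) j5
  have t5 := integral_add ((((j1.add j2).add j3).add j4).add j5) j6
  simp only [Pi.add_apply] at t1 t2 t3 t4 t5
  rw [t5, t4, t3, t2, t1]
  simp only [integral_const_mul]
  rw [v5, beta_one hn, beta_log hn, beta_sq hn, ← hm1, ← hm2]
  field_simp
  ring

/-- The decisive spectral bound: the row norm of the kernel is a constant smaller than one. -/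
theorem ker_row {n : ℕ} (hn : n = 3 ∨ n = 4) : ∃ θ : ℝ, 0 ≤ θ ∧ θ < 1 ∧
    (∀ y : E n, MemLp (fun z => ker n y z) 2 (piM n) ∧ ∫ z, ker n y z ^ 2 ∂(piM n) = θ ^ 2) ∧
    MemLp (kerInf n) 2 (piM n) ∧ ∫ z, kerInf n z ^ 2 ∂(piM n) = θ ^ 2 := by
  obtain ⟨hI, hV⟩ := A4_betaG hn
  have hkI : ∫ z : E n, kerInf n z ^ 2 ∂(piM n) =
      ∫ s in Ioo (0 : ℝ) 1, betaD n s * (A4_G n s) ^ 2 := by
    simp only [A4_kerInf]
    exact integral_piM_radial hn (fun s => (A4_G n s) ^ 2)
  have hkInt : Integrable (fun z : E n => kerInf n z ^ 2) (piM n) := by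
    simp only [A4_kerInf]
    exact (integrable_piM_radial hn (fun s => (A4_G n s) ^ 2)).2 hI
  have hnn : 0 ≤ ∫ z : E n, kerInf n z ^ 2 ∂(piM n) := integral_nonneg fun z => sq_nonneg _
  have hlt : ∫ z : E n, kerInf n z ^ 2 ∂(piM n) < 1 := by
    rw [hkI, hV]
    rcases hn with rfl | rfl
    · have := beta_var_three
      push_cast
      linarith
    · have := beta_var_four
      push_cast
      linarith
  refine ⟨Real.sqrt (∫ z : E n, kerInf n z ^ 2 ∂(piM n)), Real.sqrt_nonneg _, ?_, ?_, ?_, ?_⟩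
  · rw [Real.sqrt_lt' one_pos]
    simpa using hlt
  · intro y
    have h1 : Integrable (fun z => ker n y z ^ 2) (piM n) := by
      simp only [A4_ker]
      rw [integrable_tau hn y (fun s => (A4_G n s) ^ 2)]
      simpa only [A4_kerInf] using hkInt
    constructor
    · rw [memLp_two_iff_integrable_sq]
      · exact h1
      · exact ((A4_measurable_G n).comp (A4_measurable_tau y)).aestronglyMeasurable
    · rw [Real.sq_sqrt hnn]
      simp only [A4_ker, A4_kerInf]
      exact integral_tau hn y (fun s => (A4_G n s) ^ 2)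
  · rw [memLp_two_iff_integrable_sq]
    · exact hkInt
    · have : Measurable (kerInf n : E n → ℝ) := by
        have h2 : (kerInf n : E n → ℝ) = fun z => A4_G n (1 / (1 + ‖z‖ ^ 2)) := by
          ext z; exact A4_kerInf z
        rw [h2]
        exact (A4_measurable_G n).comp (by fun_prop)
      exact this.aestronglyMeasurable
  · rw [Real.sq_sqrt hnn]

private lemma A4_tau_comm {n : ℕ} (y z : E n) : tau y z = tau z y := by
  unfold tau
  rw [norm_sub_rev, mul_comm (1 + ‖y‖ ^ 2)]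

private lemma A4_ker_eq {n : ℕ} (y z : E n) : ker n y z =
    n * ell z y - n * kap n - (n + 1) * (Z0 y * Z0 z + inner ℝ (Zv y) (Zv z)) := by
  rw [Z_inner]
  unfold ker ell
  rw [A4_tau_comm y z]

private lemma A4_int_Z0sq {n : ℕ} (hn : n = 3 ∨ n = 4) :
    Integrable (fun y : E n => Z0 y ^ 2) (piM n) ∧
    ∫ y : E n, Z0 y ^ 2 ∂(piM n) = 1 / (n + 1) := by
  have hnp := A4_n_pos hn
  simp only [A4_Z0_eq]
  have h1 := integral_piM_radial hn (fun s => (2 * s - 1) ^ 2)
  have h2 := beta_sq hn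
  rw [h2] at h1
  refine ⟨?_, h1⟩
  by_contra h
  rw [integral_undef h] at h1
  have : (0 : ℝ) < 1 / (n + 1) := by positivity
  linarith

theorem int_ker {n : ℕ} (hn : n = 3 ∨ n = 4) (z : E n) :
    ∫ y, ker n y z ∂(piM n) = 0 ∧ ∫ y, ker n y z * Z0 y ∂(piM n) = 0 ∧
      ∫ y, ker n y z • Zv y ∂(piM n) = 0 := by
  have hprob := piM_prob hn
  have hnp := A4_n_pos hn
  obtain ⟨hell, hell'⟩ := int_ell hn z
  have c1 : Integrable (fun _ : E n => (1 : ℝ)) (piM n) := integrable_const 1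
  have hZ0 : Integrable (fun y : E n => Z0 y) (piM n) := by
    have := A4_mul_Z0 c1
    simpa using this
  have hZv : Integrable (fun y : E n => Zv y) (piM n) := by
    have := A4_smul_Zv c1
    simpa using this
  have hin : Integrable (fun y : E n => inner ℝ (Zv y) (Zv z)) (piM n) := hZv.inner_const _
  have hin0 : ∫ y : E n, inner ℝ (Zv y) (Zv z) ∂(piM n) = 0 := by
    apply A4_odd
    intro y
    rw [A4_Zv_neg, inner_neg_left]
  obtain ⟨hsq, hsq'⟩ := A4_int_Z0sq hn
  refine ⟨?_, ?_, ?_⟩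
  · simp only [A4_ker_eq]
    have a1 : Integrable (fun y : E n => n * ell z y - n * kap n) (piM n) :=
      (hell.const_mul _).sub (integrable_const _)
    have a2 : Integrable (fun y : E n => Z0 y * Z0 z + inner ℝ (Zv y) (Zv z)) (piM n) :=
      (hZ0.mul_const _).add hin
    rw [integral_sub a1 (a2.const_mul _), integral_sub (hell.const_mul _) (integrable_const _),
      integral_const_mul (n + 1 : ℝ), integral_add (hZ0.mul_const _) hin,
      integral_const_mul, integral_mul_const (Z0 z), hell', int_Z0 hn, hin0]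
    simp
  · have e : ∀ y : E n, ker n y z * Z0 y = ((n * (ell z y * Z0 y) - (n * kap n) * Z0 y)
        - ((n + 1) * Z0 z) * (Z0 y ^ 2)) - (n + 1) * (inner ℝ (Zv y) (Zv z) * Z0 y) := by
      intro y
      rw [A4_ker_eq]
      ring
    simp only [e]
    have b1 := (A4_mul_Z0 hell).const_mul (n : ℝ)
    have b2 := hZ0.const_mul (n * kap n)
    have b3 := hsq.const_mul ((n + 1) * Z0 z)
    have b4 := (A4_mul_Z0 hin).const_mul (n + 1 : ℝ)
    have z4 : ∫ y : E n, inner ℝ (Zv y) (Zv z) * Z0 y ∂(piM n) = 0 := by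
      apply A4_odd
      intro y
      rw [A4_Zv_neg, inner_neg_left, A4_Z0_neg]
      ring
    have t1 := integral_sub b1 b2
    have t2 := integral_sub (b1.sub b2) b3
    have t3 := integral_sub ((b1.sub b2).sub b3) b4
    simp only [Pi.sub_apply] at t1 t2 t3
    rw [t3, t2, t1]
    simp only [integral_const_mul]
    rw [int_ell_Z0 hn, int_Z0 hn, hsq', z4]
    field_simp
    ring
  · have e : ∀ y : E n, ker n y z • Zv y = (((n : ℝ) • (ell z y • Zv y) - (n * kap n) • Zv y)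
        - ((n + 1) * Z0 z) • (Z0 y • Zv y)) - (n + 1 : ℝ) • (inner ℝ (Zv y) (Zv z) • Zv y) := by
      intro y
      rw [A4_ker_eq]
      module
    simp only [e]
    have b1 := (A4_smul_Zv hell).smul (n : ℝ)
    have b2 := hZv.smul (n * kap n)
    have b3 := (A4_smul_Zv hZ0).smul ((n + 1) * Z0 z)
    have b4 := (A4_smul_Zv hin).smul (n + 1 : ℝ)
    have z3 : ∫ y : E n, Z0 y • Zv y ∂(piM n) = 0 := by
      apply A4_odd
      intro y
      rw [A4_Zv_neg, A4_Z0_neg, smul_neg]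
    have z4 : ∫ y : E n, (inner ℝ (Zv y) (Zv z) : ℝ) • Zv y ∂(piM n) =
        ((1 : ℝ) / (n + 1)) • Zv z := by
      have e0 : ∀ y : E n, (2 / (1 + ‖y‖ ^ 2)) ^ 2 * ‖y‖ ^ 2 = 1 - Z0 y ^ 2 := by
        intro y
        have h1 := Z_norm y
        rw [A4_norm_Zv, mul_pow] at h1
        linarith
      have e1 : Integrable (fun y : E n => (2 / (1 + ‖y‖ ^ 2)) ^ 2 * ‖y‖ ^ 2) (piM n) := by
        simp only [e0]
        exact c1.sub hsq
      have e2 : ∫ y : E n, (2 / (1 + ‖y‖ ^ 2)) ^ 2 * ‖y‖ ^ 2 ∂(piM n) = (n : ℝ) / (n + 1) := by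
        simp only [e0]
        rw [integral_sub c1 hsq, hsq']
        simp only [integral_const, probReal_univ, smul_eq_mul, mul_one]
        field_simp
        ring
      have e3 := A4_iso hn (fun r : ℝ => (2 / (1 + r ^ 2)) ^ 2) (by fun_prop) e1 (Zv z)
      rw [e2] at e3
      have e4 : (1 / (n : ℝ)) * (n / (n + 1)) = 1 / (n + 1) := by field_simp
      rw [e4] at e3
      rw [← e3]
      congr 1
      ext1 y
      have : (inner ℝ (Zv y) (Zv z) : ℝ) = (2 / (1 + ‖y‖ ^ 2)) * inner ℝ (Zv z) y := by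
        rw [real_inner_comm]
        conv_lhs => unfold Zv
        rw [inner_smul_right]
        rfl
      rw [this]
      conv_lhs => enter [2]; unfold Zv
      rw [smul_smul]
      congr 1
      ring
    have t1 := integral_sub b1 b2
    have t2 := integral_sub (b1.sub b2) b3
    have t3 := integral_sub ((b1.sub b2).sub b3) b4
    simp only [Pi.sub_apply, Pi.smul_apply] at t1 t2 t3
    rw [t3, t2, t1]
    simp only [integral_smul]
    rw [int_ell_Zv hn, int_Zv hn, z3, z4, smul_smul, smul_smul]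
    have q1 : (n : ℝ) * (1 / n) = 1 := by field_simp
    have q2 : ((n : ℝ) + 1) * (1 / (n + 1)) = 1 := by field_simp
    rw [q1, q2]
    simp

end Pool.Agent.QGlue
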