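import Pool.Agent.QGlue.A1
import Pool.Agent.QGlue.A4

/-!
# MP_77c265_an, package A5: the potential operator on `L²` of the bubble measure
-/

set_option autoImplicit false

namespace Pool.Agent.QGlue

open MeasureTheory Real Set Filter Topology

/-! ### General lemmas -/

/-- Riesz–Scheffé in `L²`: pointwise convergence plus equality of the norms. -/
private theorem A5_scheffe {X ι : Type*} {m : MeasurableSpace X} {μ : Measure X} {u : Filter ι}
    [u.IsCountablyGenerated] {a : ι → X → ℝ} {b : X → ℝ} (ha : ∀ i, MemLp (a i) 2 μ)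
    (hb : MemLp b 2 μ) (c : ℝ) (h1 : ∀ i, ∫ x, a i x ^ 2 ∂μ = c) (h2 : ∫ x, b x ^ 2 ∂μ = c)
    (hlim : ∀ᵐ x ∂μ, Tendsto (fun i => a i x) u (𝓝 (b x))) :
    Tendsto (fun i => ∫ x, (a i x - b x) ^ 2 ∂μ) u (𝓝 0) := by
  rcases u.eq_or_neBot with hu | hu
  · rw [hu]; exact tendsto_bot
  have hsum : ∀ i, ∫ x, (a i x - b x) ^ 2 ∂μ = 4 * c - ∫ x, (a i x + b x) ^ 2 ∂μ := by
    intro i
    have hm : Integrable (fun x => (a i x - b x) ^ 2) μ := ((ha i).sub hb).integrable_sq
    have hp : Integrable (fun x => (a i x + b x) ^ 2) μ := ((ha i).add hb).integrable_sq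
    have e : ∫ x, (a i x - b x) ^ 2 ∂μ + ∫ x, (a i x + b x) ^ 2 ∂μ
        = ∫ x, (2 * a i x ^ 2 + 2 * b x ^ 2) ∂μ := by
      rw [← integral_add hm hp]
      congr 1
      funext x
      ring
    rw [integral_add ((ha i).integrable_sq.const_mul 2) (hb.integrable_sq.const_mul 2),
      integral_const_mul, integral_const_mul, h1, h2] at e
    linarith
  have hpos : ∀ i, 0 ≤ ∫ x, (a i x + b x) ^ 2 ∂μ := fun i => integral_nonneg fun x => sq_nonneg _
  have hfat : ENNReal.ofReal (4 * c) ≤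
      liminf (fun i => ENNReal.ofReal (∫ x, (a i x + b x) ^ 2 ∂μ)) u := by
    have e1 : ENNReal.ofReal (4 * c) = ∫⁻ x, ENNReal.ofReal ((b x + b x) ^ 2) ∂μ := by
      have hbb : Integrable (fun x => (b x + b x) ^ 2) μ := (hb.add hb).integrable_sq
      rw [← ofReal_integral_eq_lintegral_ofReal hbb (ae_of_all _ fun x => sq_nonneg _)]
      congr 1
      rw [← h2, ← integral_const_mul]
      congr 1
      funext x
      ring
    have e2 : ∀ i, ENNReal.ofReal (∫ x, (a i x + b x) ^ 2 ∂μ)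
        = ∫⁻ x, ENNReal.ofReal ((a i x + b x) ^ 2) ∂μ := fun i =>
      ofReal_integral_eq_lintegral_ofReal ((ha i).add hb).integrable_sq
        (ae_of_all _ fun x => sq_nonneg _)
    rw [e1]
    simp_rw [e2]
    refine le_trans ?_ (lintegral_liminf_le' fun i =>
      (((ha i).aestronglyMeasurable.aemeasurable.add
        hb.aestronglyMeasurable.aemeasurable).pow_const 2).ennreal_ofReal)
    refine lintegral_mono_ae ?_
    filter_upwards [hlim] with x hx
    have : Tendsto (fun i => ENNReal.ofReal ((a i x + b x) ^ 2)) u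
        (𝓝 (ENNReal.ofReal ((b x + b x) ^ 2))) :=
      (ENNReal.continuous_ofReal.tendsto _).comp ((hx.add_const (b x)).pow 2)
    exact le_of_eq this.liminf_eq.symm
  rw [Metric.tendsto_nhds]
  intro ε hε
  have hnn : ∀ i, 0 ≤ ∫ x, (a i x - b x) ^ 2 ∂μ := fun i => integral_nonneg fun x => sq_nonneg _
  have key : ∀ᶠ i in u, 4 * c - ε < ∫ x, (a i x + b x) ^ 2 ∂μ := by
    by_cases hc : 4 * c - ε < 0
    · exact Eventually.of_forall fun i => lt_of_lt_of_le hc (hpos i)
    · rw [not_lt] at hc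
      have hlt : ENNReal.ofReal (4 * c - ε) < ENNReal.ofReal (4 * c) :=
        (ENNReal.ofReal_lt_ofReal_iff (by linarith)).2 (by linarith)
      have := eventually_lt_of_lt_liminf (lt_of_lt_of_le hlt hfat)
      filter_upwards [this] with i hi
      by_contra hcon
      rw [not_lt] at hcon
      exact absurd (ENNReal.ofReal_le_ofReal hcon) (not_le.2 hi)
  filter_upwards [key] with i hi
  rw [Real.dist_eq, sub_zero, abs_of_nonneg (hnn i), hsum i]
  linarith

/-- Cauchy–Schwarz in `L²`. -/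
private theorem A5_cs {X : Type*} {m : MeasurableSpace X} {μ : Measure X} {a : X → ℝ}
    (ha : MemLp a 2 μ) (f : Lp ℝ 2 μ) :
    |∫ x, a x * f x ∂μ| ≤ √(∫ x, a x ^ 2 ∂μ) * ‖f‖ := by
  have h1 : inner ℝ (ha.toLp a) f = ∫ x, a x * f x ∂μ := by
    rw [L2.inner_def]
    refine integral_congr_ae ?_
    filter_upwards [ha.coeFn_toLp] with x hx
    rw [hx]
    simp [mul_comm]
  have h2 : ‖ha.toLp a‖ = √(∫ x, a x ^ 2 ∂μ) := by
    rw [eq_comm, Real.sqrt_eq_iff_mul_self_eq (integral_nonneg fun x => sq_nonneg _)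
      (norm_nonneg _), ← real_inner_self_eq_norm_mul_norm, L2.inner_def]
    refine integral_congr_ae ?_
    filter_upwards [ha.coeFn_toLp] with x hx
    rw [hx]
    simp [sq]
  rw [← h1, ← h2]
  exact abs_real_inner_le_norm _ _

private theorem A5_int_mul {X : Type*} {m : MeasurableSpace X} {μ : Measure X} {a b : X → ℝ}
    (ha : MemLp a 2 μ) (hb : MemLp b 2 μ) : Integrable (fun x => a x * b x) μ :=
  ha.integrable_mul hb

/-! ### The kernel -/

private theorem A5_tau_comm {n : ℕ} (y z : E n) : tau y z = tau z y := by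
  unfold tau
  rw [norm_sub_rev, mul_comm (1 + ‖y‖ ^ 2)]

private theorem A5_ker_comm {n : ℕ} (y z : E n) : ker n y z = ker n z y := by
  unfold ker ell
  rw [A5_tau_comm]

private theorem A5_meas_ker {n : ℕ} : Measurable (fun p : E n × E n => ker n p.1 p.2) := by
  unfold ker ell tau
  fun_prop

private theorem A5_memLp {n : ℕ} (hn : n = 3 ∨ n = 4) (y : E n) :
    MemLp (fun z => ker n y z) 2 (piM n) := by
  obtain ⟨θ, -, -, h, -, -⟩ := ker_row hn
  exact (h y).1

private theorem A5_memLpInf {n : ℕ} (hn : n = 3 ∨ n = 4) : MemLp (kerInf n) 2 (piM n) := by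
  obtain ⟨θ, -, -, -, h, -⟩ := ker_row hn
  exact h

private theorem A5_cast_ne {n : ℕ} (hn : n = 3 ∨ n = 4) : (n : ℝ) ≠ 0 := by
  rcases hn with rfl | rfl <;> norm_num

private theorem A5_cast_pos {n : ℕ} (hn : n = 3 ∨ n = 4) : (0 : ℝ) < n := by
  rcases hn with rfl | rfl <;> norm_num

private theorem A5_null {n : ℕ} (hn : n = 3 ∨ n = 4) (y : E n) : ∀ᵐ z ∂(piM n), z ≠ y := by
  have h : piM n ≪ (volume : Measure (E n)) := withDensity_absolutelyContinuous _ _
  refine h.ae_le ?_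
  rcases hn with rfl | rfl
  · exact Measure.ae_ne volume y
  · exact Measure.ae_ne volume y

private theorem A5_ratio {n : ℕ} (z : E n) :
    Tendsto (fun y : E n => ‖y - z‖ ^ 2 / (1 + ‖y‖ ^ 2)) (comap norm atTop) (𝓝 1) := by
  have hb : ∀ y : E n, dist (‖y - z‖ ^ 2 / (1 + ‖y‖ ^ 2)) 1
      ≤ 2 * (1 + ‖z‖) ^ 2 * (1 + ‖y‖)⁻¹ := by
    intro y
    have h1 : (0 : ℝ) < 1 + ‖y‖ ^ 2 := by positivity
    have h2 : (0 : ℝ) < 1 + ‖y‖ := by positivity
    have e : ‖y - z‖ ^ 2 / (1 + ‖y‖ ^ 2) - 1 = (‖y - z‖ ^ 2 - 1 - ‖y‖ ^ 2) / (1 + ‖y‖ ^ 2) := by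
      field_simp
      ring
    rw [Real.dist_eq, e, abs_div, abs_of_pos h1, div_le_iff₀ h1]
    have u1 : ‖y - z‖ ≤ ‖y‖ + ‖z‖ := norm_sub_le _ _
    have u2 : |‖y‖ - ‖z‖| ≤ ‖y - z‖ := abs_norm_sub_norm_le _ _
    have u3 : ‖y - z‖ ^ 2 ≤ (‖y‖ + ‖z‖) ^ 2 := pow_le_pow_left₀ (norm_nonneg _) u1 2
    have u4 : (‖y‖ - ‖z‖) ^ 2 ≤ ‖y - z‖ ^ 2 := by
      rw [← sq_abs (‖y‖ - ‖z‖)]
      exact pow_le_pow_left₀ (abs_nonneg _) u2 2
    have hy : 0 ≤ ‖y‖ := norm_nonneg _
    have hz : 0 ≤ ‖z‖ := norm_nonneg _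
    have u5 : |‖y - z‖ ^ 2 - 1 - ‖y‖ ^ 2| ≤ (1 + ‖z‖) ^ 2 * (1 + ‖y‖) := by
      rw [abs_le]
      constructor <;> nlinarith [mul_nonneg hy hz, mul_nonneg hy (mul_nonneg hz hz)]
    refine u5.trans ?_
    have u6 : (1 + ‖y‖) ≤ 2 * (1 + ‖y‖)⁻¹ * (1 + ‖y‖ ^ 2) := by
      rw [mul_assoc, mul_comm (1 + ‖y‖)⁻¹, ← mul_assoc, ← div_eq_mul_inv, le_div_iff₀ h2]
      nlinarith [sq_nonneg (‖y‖ - 1)]
    calc (1 + ‖z‖) ^ 2 * (1 + ‖y‖) ≤ (1 + ‖z‖) ^ 2 * (2 * (1 + ‖y‖)⁻¹ * (1 + ‖y‖ ^ 2)) :=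
          mul_le_mul_of_nonneg_left u6 (by positivity)
      _ = 2 * (1 + ‖z‖) ^ 2 * (1 + ‖y‖)⁻¹ * (1 + ‖y‖ ^ 2) := by ring
  rw [tendsto_iff_dist_tendsto_zero]
  refine squeeze_zero (fun _ => dist_nonneg) hb ?_
  have h3 : Tendsto (fun y : E n => (1 + ‖y‖)⁻¹) (comap norm atTop) (𝓝 0) :=
    tendsto_inv_atTop_zero.comp (tendsto_atTop_add_const_left _ 1 tendsto_comap)
  simpa using h3.const_mul (2 * (1 + ‖z‖) ^ 2)

private theorem A5_tendsto_inf {n : ℕ} (z : E n) :
    Tendsto (fun y : E n => ker n y z) (comap norm atTop) (𝓝 (kerInf n z)) := by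
  have hz : (0 : ℝ) < 1 + ‖z‖ ^ 2 := by positivity
  have h1 : Tendsto (fun y : E n => tau y z) (comap norm atTop) (𝓝 (1 / (1 + ‖z‖ ^ 2))) := by
    have := (A5_ratio z).div_const (1 + ‖z‖ ^ 2)
    refine this.congr fun y => ?_
    unfold tau
    rw [div_div]
  have h2 : Tendsto (fun y : E n => ell y z) (comap norm atTop) (𝓝 (ellInf z)) := by
    have h3 := (h1.log (by positivity)).neg
    have e : ellInf z = - Real.log (1 / (1 + ‖z‖ ^ 2)) := by
      unfold ellInf
      rw [one_div, Real.log_inv, neg_neg]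
    rw [e]
    exact h3
  have e : kerInf n z = n * ellInf z - n * kap n - (n + 1) * (1 - 2 * (1 / (1 + ‖z‖ ^ 2))) := by
    unfold kerInf
    ring
  rw [e]
  exact ((h2.const_mul (n : ℝ)).sub_const _).sub ((tendsto_const_nhds.sub (h1.const_mul 2)).const_mul _)

private theorem A5_tendsto_pt {n : ℕ} (y₀ z : E n) (h : z ≠ y₀) :
    Tendsto (fun y : E n => ker n y z) (𝓝 y₀) (𝓝 (ker n y₀ z)) := by
  have hz : (0 : ℝ) < 1 + ‖z‖ ^ 2 := by positivity
  have ht : ContinuousAt (fun y : E n => tau y z) y₀ := by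
    unfold tau
    refine ContinuousAt.div (by fun_prop) (by fun_prop) ?_
    positivity
  have hne : tau y₀ z ≠ 0 := by
    unfold tau
    have : y₀ - z ≠ 0 := sub_ne_zero.2 h.symm
    have := norm_pos_iff.2 this
    positivity
  have hl : ContinuousAt (fun y : E n => ell y z) y₀ := (ht.log hne).neg
  exact ((hl.const_mul (n : ℝ)).sub continuousAt_const).sub
    ((continuousAt_const.sub (ht.const_mul 2)).const_mul _)

/-! ### The operator -/

private theorem A5_U_eq {n : ℕ} (hn : n = 3 ∨ n = 4) (f : Lp ℝ 2 (piM n)) (y : E n) :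
    n * U n f y = (∫ z, ker n y z * f z ∂(piM n)) - ∫ z, kerInf n z * f z ∂(piM n) := by
  have h0 := A5_cast_ne hn
  have hf : MemLp f 2 (piM n) := Lp.memLp f
  have h1 := A5_int_mul (A5_memLp hn y) hf
  have h2 := A5_int_mul (A5_memLpInf hn) hf
  unfold U
  rw [← integral_sub h1 h2, ← mul_assoc, mul_one_div_cancel h0, one_mul]
  congr 1
  funext z
  ring

theorem U_sub {n : ℕ} (hn : n = 3 ∨ n = 4) (f g : Lp ℝ 2 (piM n)) (y : E n) :
    U n (f - g : Lp ℝ 2 (piM n)) y = U n f y - U n g y := by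
  have hk : MemLp (fun z => ker n y z - kerInf n z) 2 (piM n) :=
    (A5_memLp hn y).sub (A5_memLpInf hn)
  have h1 := A5_int_mul hk (Lp.memLp f)
  have h2 := A5_int_mul hk (Lp.memLp g)
  unfold U
  rw [← mul_sub, ← integral_sub h1 h2]
  congr 1
  refine integral_congr_ae ?_
  filter_upwards [Lp.coeFn_sub f g] with z hz
  rw [hz, Pi.sub_apply]
  ring

theorem U_zero {n : ℕ} (y : E n) : U n (0 : Lp ℝ 2 (piM n)) y = 0 := by
  unfold U
  have : ∫ z, (ker n y z - kerInf n z) * (0 : Lp ℝ 2 (piM n)) z ∂(piM n) = 0 := by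
    rw [← integral_zero (E n) ℝ (μ := piM n)]
    refine integral_congr_ae ?_
    filter_upwards [Lp.coeFn_zero ℝ 2 (piM n)] with z hz
    rw [hz]
    simp
  rw [this, mul_zero]

theorem U_contr {n : ℕ} (hn : n = 3 ∨ n = 4) : ∃ θ : ℝ, 0 ≤ θ ∧ θ < 1 ∧
    ∀ f : Lp ℝ 2 (piM n), ∃ c : ℝ, ∀ y, |n * U n f y - c| ≤ θ * ‖f‖ := by
  obtain ⟨θ, h0, h1, hk, -, -⟩ := ker_row hn
  refine ⟨θ, h0, h1, fun f => ⟨-∫ z, kerInf n z * f z ∂(piM n), fun y => ?_⟩⟩
  have e : n * U n f y - -∫ z, kerInf n z * f z ∂(piM n) = ∫ z, ker n y z * f z ∂(piM n) := by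
    rw [A5_U_eq hn]
    ring
  rw [e]
  have := A5_cs (hk y).1 f
  rwa [(hk y).2, Real.sqrt_sq h0] at this

theorem U_bound {n : ℕ} (hn : n = 3 ∨ n = 4) : ∃ C : ℝ, 0 < C ∧
    ∀ (f : Lp ℝ 2 (piM n)) (y : E n), |U n f y| ≤ C * ‖f‖ := by
  obtain ⟨θ, h0, h1, hk, hi, hi2⟩ := ker_row hn
  refine ⟨2, by norm_num, fun f y => ?_⟩
  have hp := A5_cast_pos hn
  have hn1 : (1 : ℝ) ≤ n := by rcases hn with rfl | rfl <;> norm_num
  have u1 := A5_cs (hk y).1 f
  have u2 := A5_cs hi f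
  rw [(hk y).2, Real.sqrt_sq h0] at u1
  rw [hi2, Real.sqrt_sq h0] at u2
  have e := A5_U_eq hn f y
  have hf : 0 ≤ ‖f‖ := norm_nonneg _
  have h3 : |n * U n f y| ≤ 2 * ‖f‖ := by
    rw [e]
    refine (abs_sub _ _).trans ?_
    nlinarith
  rw [abs_mul, abs_of_pos hp] at h3
  nlinarith [abs_nonneg (U n f y)]

theorem U_decay {n : ℕ} (hn : n = 3 ∨ n = 4) (σ : ℝ) (hσ : 0 < σ) : ∃ R : ℝ, 0 < R ∧
    ∀ (f : Lp ℝ 2 (piM n)) (y : E n), R ≤ ‖y‖ → |U n f y| ≤ σ * ‖f‖ := by
  obtain ⟨θ, h0, h1, hk, hi, hi2⟩ := ker_row hn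
  have hp := A5_cast_pos hn
  have hlim : Tendsto (fun y : E n => ∫ z, (ker n y z - kerInf n z) ^ 2 ∂(piM n))
      (comap norm atTop) (𝓝 0) :=
    A5_scheffe (a := fun (y : E n) z => ker n y z) (fun y => (hk y).1) hi (θ ^ 2)
      (fun y => (hk y).2) hi2 (ae_of_all _ fun z => A5_tendsto_inf z)
  have hev : ∀ᶠ y : E n in comap norm atTop,
      ∫ z, (ker n y z - kerInf n z) ^ 2 ∂(piM n) < σ ^ 2 :=
    hlim.eventually (gt_mem_nhds (by positivity))
  rw [eventually_comap, eventually_atTop] at hev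
  obtain ⟨R, hR⟩ := hev
  refine ⟨max R 1, by positivity, fun f y hy => ?_⟩
  have h3 := hR ‖y‖ ((le_max_left _ _).trans hy) y rfl
  have hkk : MemLp (fun z => ker n y z - kerInf n z) 2 (piM n) := (hk y).1.sub hi
  have h4 := A5_cs hkk f
  have h5 : √(∫ z, (ker n y z - kerInf n z) ^ 2 ∂(piM n)) ≤ σ := by
    rw [Real.sqrt_le_left hσ.le]
    exact h3.le
  have hn1 : (1 : ℝ) ≤ n := by rcases hn with rfl | rfl <;> norm_num
  have h6 : |U n f y| ≤ |∫ z, (ker n y z - kerInf n z) * f z ∂(piM n)| := by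
    unfold U
    rw [abs_mul, abs_of_pos (by positivity : (0 : ℝ) < 1 / n)]
    refine mul_le_of_le_one_left (abs_nonneg _) ?_
    rw [div_le_one hp]
    exact hn1
  exact h6.trans (h4.trans (mul_le_mul_of_nonneg_right h5 (norm_nonneg _)))

theorem U_cont {n : ℕ} (hn : n = 3 ∨ n = 4) (f : Lp ℝ 2 (piM n)) : Continuous (U n f) := by
  obtain ⟨θ, h0, h1, hk, hi, hi2⟩ := ker_row hn
  have hp := A5_cast_pos hn
  have h00 := A5_cast_ne hn
  rw [continuous_iff_continuousAt]
  intro y₀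
  have hlim : Tendsto (fun y : E n => ∫ z, (ker n y z - ker n y₀ z) ^ 2 ∂(piM n))
      (𝓝 y₀) (𝓝 0) := by
    refine A5_scheffe (a := fun (y : E n) z => ker n y z) (fun y => (hk y).1) (hk y₀).1 (θ ^ 2)
      (fun y => (hk y).2) (hk y₀).2 ?_
    filter_upwards [A5_null hn y₀] with z hz using A5_tendsto_pt y₀ z hz
  have hlim2 : Tendsto (fun y : E n => √(∫ z, (ker n y z - ker n y₀ z) ^ 2 ∂(piM n)) * ‖f‖)
      (𝓝 y₀) (𝓝 0) := by
    have := (hlim.sqrt).mul_const ‖f‖
    simpa using this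
  have hlim3 : Tendsto (fun y : E n => n * U n f y - n * U n f y₀) (𝓝 y₀) (𝓝 0) := by
    refine squeeze_zero_norm (fun y => ?_) hlim2
    have hkk : MemLp (fun z => ker n y z - ker n y₀ z) 2 (piM n) := (hk y).1.sub (hk y₀).1
    have h4 := A5_cs hkk f
    have e : n * U n f y - n * U n f y₀ = ∫ z, (ker n y z - ker n y₀ z) * f z ∂(piM n) := by
      rw [A5_U_eq hn, A5_U_eq hn, sub_sub_sub_cancel_right,
        ← integral_sub (A5_int_mul (hk y).1 (Lp.memLp f)) (A5_int_mul (hk y₀).1 (Lp.memLp f))]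
      congr 1
      funext z
      ring
    rw [Real.norm_eq_abs, e]
    exact h4
  have hlim4 : Tendsto (fun y : E n => U n f y₀ + (1 / n) * (n * U n f y - n * U n f y₀)) (𝓝 y₀)
      (𝓝 (U n f y₀ + (1 / n) * 0)) := tendsto_const_nhds.add (hlim3.const_mul _)
  rw [mul_zero, add_zero] at hlim4
  refine hlim4.congr fun y => ?_
  field_simp
  ring

/-- The product function is integrable. -/
private theorem A5_prod {n : ℕ} (hn : n = 3 ∨ n = 4) (f : Lp ℝ 2 (piM n)) :
    Integrable (fun p : E n × E n => (ker n p.1 p.2 - kerInf n p.2) * f p.2)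
      ((piM n).prod (piM n)) := by
  obtain ⟨θ, h0, h1, hk, hi, hi2⟩ := ker_row hn
  have := piM_prob hn
  have hf : MemLp f 2 (piM n) := Lp.memLp f
  have hfm : AEStronglyMeasurable (fun p : E n × E n => f p.2) ((piM n).prod (piM n)) :=
    (Lp.aestronglyMeasurable f).comp_snd
  have hkm : AEStronglyMeasurable (fun p : E n × E n => ker n p.1 p.2) ((piM n).prod (piM n)) :=
    A5_meas_ker.aestronglyMeasurable
  have hks : Integrable (fun p : E n × E n => ker n p.1 p.2 ^ 2) ((piM n).prod (piM n)) := by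
    have hkm2 : AEStronglyMeasurable (fun p : E n × E n => ker n p.1 p.2 ^ 2)
        ((piM n).prod (piM n)) := hkm.pow 2
    rw [integrable_prod_iff hkm2]
    refine ⟨ae_of_all _ fun y => (hk y).1.integrable_sq, ?_⟩
    have : (fun x : E n => ∫ z, ‖ker n x z ^ 2‖ ∂(piM n)) = fun _ => θ ^ 2 := by
      funext y
      rw [← (hk y).2]
      congr 1
      funext z
      rw [Real.norm_eq_abs, abs_of_nonneg (sq_nonneg _)]
    rw [this]
    exact integrable_const _
  have hfs : Integrable (fun p : E n × E n => f p.2 ^ 2) ((piM n).prod (piM n)) :=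
    hf.integrable_sq.comp_snd (piM n)
  have hkf : Integrable (fun p : E n × E n => kerInf n p.2 * f p.2) ((piM n).prod (piM n)) :=
    (A5_int_mul hi hf).comp_snd (piM n)
  have hkk : Integrable (fun p : E n × E n => ker n p.1 p.2 * f p.2) ((piM n).prod (piM n)) := by
    refine (hks.add hfs).mono' (hkm.mul hfm) (ae_of_all _ fun p => ?_)
    rw [Real.norm_eq_abs, abs_mul, Pi.add_apply]
    nlinarith [sq_nonneg (|ker n p.1 p.2| - |f p.2|), sq_abs (ker n p.1 p.2), sq_abs (f p.2)]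
  refine (hkk.sub hkf).congr (ae_of_all _ fun p => ?_)
  simp only [Pi.sub_apply]
  ring

private theorem A5_Z0_le {n : ℕ} (y : E n) : |Z0 y| ≤ 1 := by
  have := Z_norm y
  have h2 := sq_nonneg ‖Zv y‖
  rw [← sq_le_one_iff_abs_le_one]
  linarith

private theorem A5_Zv_le {n : ℕ} (y : E n) : ‖Zv y‖ ≤ 1 := by
  have := Z_norm y
  have h2 := sq_nonneg (Z0 y)
  have h3 : ‖Zv y‖ ^ 2 ≤ 1 := by linarith
  have h4 := (sq_le_one_iff_abs_le_one ‖Zv y‖).1 h3
  rwa [abs_of_nonneg (norm_nonneg _)] at h4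

theorem U_Z0 {n : ℕ} (hn : n = 3 ∨ n = 4) (f : Lp ℝ 2 (piM n)) :
    ∫ y, U n f y * Z0 y ∂(piM n) = 0 := by
  have := piM_prob hn
  have hint : Integrable (fun p : E n × E n => ((ker n p.1 p.2 - kerInf n p.2) * f p.2) * Z0 p.1)
      ((piM n).prod (piM n)) := by
    refine (A5_prod hn f).mul_bdd (c := 1)
      ((continuous_Z0.comp continuous_fst).aestronglyMeasurable) (ae_of_all _ fun p => ?_)
    rw [Real.norm_eq_abs]
    exact A5_Z0_le p.1
  have hsw := integral_integral_swap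
    (f := fun y z : E n => ((ker n y z - kerInf n z) * f z) * Z0 y) (μ := piM n) (ν := piM n) hint
  have hL : ∫ y, U n f y * Z0 y ∂(piM n)
      = (1 / n) * ∫ y, ∫ z, ((ker n y z - kerInf n z) * f z) * Z0 y ∂(piM n) ∂(piM n) := by
    rw [← integral_const_mul]
    congr 1
    funext y
    unfold U
    rw [integral_mul_const]
    ring
  rw [hL, hsw]
  have hz : ∀ z : E n, ∫ y, ((ker n y z - kerInf n z) * f z) * Z0 y ∂(piM n) = 0 := by
    intro z
    have i1 : Integrable (fun y => ker n y z * Z0 y) (piM n) := by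
      have hh : Integrable (fun y => ker n y z) (piM n) := by
        have := (A5_memLp hn z).integrable (by norm_num)
        refine this.congr (ae_of_all _ fun y => A5_ker_comm z y)
      refine hh.mul_bdd (c := 1) continuous_Z0.aestronglyMeasurable (ae_of_all _ fun p => ?_)
      rw [Real.norm_eq_abs]
      exact A5_Z0_le p
    have i2 : Integrable (fun y => kerInf n z * Z0 y) (piM n) := by
      refine (integrable_const (kerInf n z)).mul_bdd (c := 1) continuous_Z0.aestronglyMeasurable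
        (ae_of_all _ fun p => ?_)
      rw [Real.norm_eq_abs]
      exact A5_Z0_le p
    have e : (fun y : E n => ((ker n y z - kerInf n z) * f z) * Z0 y)
        = fun y => f z * (ker n y z * Z0 y - kerInf n z * Z0 y) := by
      funext y
      ring
    rw [e, integral_const_mul, integral_sub i1 i2, integral_const_mul, int_Z0 hn,
      (int_ker hn z).2.1]
    ring
  simp [hz]

theorem U_Zv {n : ℕ} (hn : n = 3 ∨ n = 4) (f : Lp ℝ 2 (piM n)) :
    ∫ y, U n f y • Zv y ∂(piM n) = 0 := by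
  have := piM_prob hn
  have hint : Integrable (fun p : E n × E n => ((ker n p.1 p.2 - kerInf n p.2) * f p.2) • Zv p.1)
      ((piM n).prod (piM n)) := by
    refine (A5_prod hn f).smul_bdd 1
      ((continuous_Zv.comp continuous_fst).aestronglyMeasurable) (ae_of_all _ fun p => ?_)
    exact A5_Zv_le p.1
  have hsw := integral_integral_swap
    (f := fun y z : E n => ((ker n y z - kerInf n z) * f z) • Zv y) (μ := piM n) (ν := piM n) hint
  have hL : ∫ y, U n f y • Zv y ∂(piM n)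
      = (1 / n : ℝ) • ∫ y, ∫ z, ((ker n y z - kerInf n z) * f z) • Zv y ∂(piM n) ∂(piM n) := by
    rw [← integral_smul]
    congr 1
    funext y
    unfold U
    rw [integral_smul_const, mul_smul]
  rw [hL, hsw]
  have hz : ∀ z : E n, ∫ y, ((ker n y z - kerInf n z) * f z) • Zv y ∂(piM n) = 0 := by
    intro z
    have i1 : Integrable (fun y => ker n y z • Zv y) (piM n) := by
      have hh : Integrable (fun y => ker n y z) (piM n) := by
        have := (A5_memLp hn z).integrable (by norm_num)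
        refine this.congr (ae_of_all _ fun y => A5_ker_comm z y)
      exact hh.smul_bdd 1 continuous_Zv.aestronglyMeasurable (ae_of_all _ fun p => A5_Zv_le p)
    have i2 : Integrable (fun y : E n => kerInf n z • Zv y) (piM n) :=
      (integrable_const (kerInf n z)).smul_bdd 1 continuous_Zv.aestronglyMeasurable
        (ae_of_all _ fun p => A5_Zv_le p)
    have e : (fun y : E n => ((ker n y z - kerInf n z) * f z) • Zv y)
        = fun y => f z • (ker n y z • Zv y - kerInf n z • Zv y) := by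
      funext y
      rw [← sub_smul, smul_smul, mul_comm]
    rw [e, integral_smul, integral_sub i1 i2, integral_smul, int_Zv hn, (int_ker hn z).2.2]
    simp
  simp [hz]

/-- Invariance under isometries. -/
theorem U_isometry {n : ℕ} (f : E n → ℝ) (g : E n ≃ₗᵢ[ℝ] E n) (y : E n) :
    U n (fun z => f (g.symm z)) (g y) = U n f y := by
  unfold U
  congr 1
  have h := (piM_isometry g).integral_comp g.toHomeomorph.measurableEmbedding
    (fun z => (ker n (g y) z - kerInf n z) * f (g.symm z))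
  rw [← h]
  congr 1
  funext z
  have e1 : ker n (g y) (g z) = ker n y z := by
    unfold ker ell tau
    rw [← map_sub, g.norm_map, g.norm_map, g.norm_map]
  have e2 : kerInf n (g z) = kerInf n z := by
    unfold kerInf ellInf
    rw [g.norm_map]
  rw [e1, e2, g.symm_apply_apply]

end Pool.Agent.QGlue
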