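import Pool.Agent.QGlue.A1
import Pool.Agent.QGlue.A4

/-!
# Logarithmic potentials of bubbles (package QG-B of MP_77c265_an)
-/

set_option autoImplicit false

namespace Pool.Agent.QGlue

open MeasureTheory Real Set Filter Topology

private theorem B_bub_pos {n : ℕ} (y : E n) : 0 ≤ bub n y := by
  unfold bub cN
  have h1 : (0 : ℝ) ≤ if n = 3 then 1 / (2 * π ^ 2) else 3 / (8 * π ^ 2) := by
    split_ifs <;> positivity
  positivity

private theorem B_bub_cont {n : ℕ} : Continuous (fun y : E n => bub n y) := by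
  unfold bub
  have : ∀ y : E n, (1 + ‖y‖ ^ 2) ≠ 0 := fun y => by positivity
  fun_prop (disch := exact this _)

private theorem B_ne_ae {n : ℕ} (hn : n = 3 ∨ n = 4) (y : E n) : ∀ᵐ z ∂(piM n), z ≠ y := by
  have h1 : piM n ≪ volume := withDensity_absolutelyContinuous _ _
  have h2 : Nonempty (Fin n) := ⟨⟨0, by omega⟩⟩
  have h3 : Nontrivial (E n) := inferInstance
  have h4 : ∀ᵐ z ∂(volume : Measure (E n)), z ≠ y := by
    rw [ae_iff]
    simp
  exact h1.ae_le h4

private theorem B_ell_formula {n : ℕ} (y z : E n) (h : z ≠ y) :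
    ell y z = Real.log (1 + ‖y‖ ^ 2) + ellInf z - 2 * Real.log ‖y - z‖ := by
  unfold ell tau ellInf
  have h1 : (0 : ℝ) < 1 + ‖y‖ ^ 2 := by positivity
  have h2 : (0 : ℝ) < 1 + ‖z‖ ^ 2 := by positivity
  have h3 : 0 < ‖y - z‖ := norm_pos_iff.2 (sub_ne_zero.2 (Ne.symm h))
  rw [Real.log_div (by positivity) (by positivity), Real.log_mul h1.ne' h2.ne', Real.log_pow]
  push_cast
  ring

private theorem B_ellInf_cont {n : ℕ} : Continuous (ellInf : E n → ℝ) := by
  unfold ellInf
  have : ∀ y : E n, (1 + ‖y‖ ^ 2) ≠ 0 := fun y => by positivity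
  exact Continuous.log (by fun_prop) this

private theorem B_int_ellInf {n : ℕ} (hn : n = 3 ∨ n = 4) : Integrable (ellInf : E n → ℝ) (piM n) := by
  refine (int_sq hn).mono' B_ellInf_cont.aestronglyMeasurable ?_
  refine Filter.Eventually.of_forall fun z => ?_
  unfold ellInf
  have h1 : (0 : ℝ) ≤ ‖z‖ ^ 2 := by positivity
  rw [Real.norm_eq_abs, abs_of_nonneg (Real.log_nonneg (by linarith))]
  have := Real.log_le_sub_one_of_pos (show (0 : ℝ) < 1 + ‖z‖ ^ 2 by positivity)
  linarith

private theorem B_log_ae {n : ℕ} (hn : n = 3 ∨ n = 4) (y : E n) :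
    (fun z => Real.log ‖y - z‖) =ᵐ[piM n]
      fun z => (1 / 2) * (Real.log (1 + ‖y‖ ^ 2) + ellInf z - ell y z) := by
  filter_upwards [B_ne_ae hn y] with z hz
  rw [B_ell_formula y z hz]
  ring

/-- The logarithmic potential of the bubble measure. -/
theorem log_pot_one {n : ℕ} (hn : n = 3 ∨ n = 4) (y : E n) :
    Integrable (fun z => Real.log ‖y - z‖) (piM n) ∧
    ∫ z, Real.log ‖y - z‖ ∂(piM n) = (1 / 2) * Real.log (1 + ‖y‖ ^ 2) := by
  have := piM_prob hn
  have h1 : Integrable (fun z => (1 / 2) * (Real.log (1 + ‖y‖ ^ 2) + ellInf z - ell y z)) (piM n) :=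
    (((integrable_const _).add (B_int_ellInf hn)).sub (int_ell hn y).1).const_mul _
  refine ⟨h1.congr (B_log_ae hn y).symm, ?_⟩
  have h2 : Integrable (fun z : E n => Real.log (1 + ‖y‖ ^ 2) + ellInf z) (piM n) :=
    (integrable_const _).add (B_int_ellInf hn)
  rw [integral_congr_ae (B_log_ae hn y), integral_const_mul, integral_sub h2 (int_ell hn y).1,
    integral_add (integrable_const _) (B_int_ellInf hn), (int_ell hn y).2]
  have h3 : ∫ z, ellInf z ∂(piM n) = kap n := rfl
  rw [h3]
  simp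

private theorem B_absZ {n : ℕ} (y : E n) : |Z0 y| ≤ 1 ∧ ‖Zv y‖ ≤ 1 := by
  have h := Z_norm y
  constructor
  · rw [← sq_le_one_iff_abs_le_one]
    nlinarith [sq_nonneg ‖Zv y‖]
  · have h1 := norm_nonneg (Zv y)
    nlinarith [sq_nonneg (Z0 y)]

private theorem B_one_sub_tau {n : ℕ} (y z : E n) : |1 - 2 * tau y z| ≤ 2 := by
  rw [← Z_inner]
  have h1 := B_absZ y
  have h2 := B_absZ z
  have h3 : |Z0 y * Z0 z| ≤ 1 := by
    rw [abs_mul]
    nlinarith [abs_nonneg (Z0 y), abs_nonneg (Z0 z)]
  have h4 : |(inner ℝ (Zv y) (Zv z) : ℝ)| ≤ 1 := by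
    refine (abs_real_inner_le_norm _ _).trans ?_
    nlinarith [norm_nonneg (Zv y), norm_nonneg (Zv z)]
  exact (abs_add_le _ _).trans (by linarith)

private theorem B_memLp_tau {n : ℕ} (hn : n = 3 ∨ n = 4) (y : E n) :
    MemLp (fun z => 1 - 2 * tau y z) 2 (piM n) := by
  have := piM_prob hn
  refine MemLp.of_bound ?_ 2 (Filter.Eventually.of_forall fun z => ?_)
  · have : (fun z => 1 - 2 * tau y z) = fun z : E n => Z0 y * Z0 z + inner ℝ (Zv y) (Zv z) := by
      funext z
      rw [Z_inner]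
    rw [this]
    have h1 := continuous_Z0 (n := n)
    have h2 := continuous_Zv (n := n)
    exact (((continuous_const.mul h1).add (continuous_const.inner h2)).aestronglyMeasurable)
  · rw [Real.norm_eq_abs]
    exact B_one_sub_tau y z

private theorem B_memLp_ell {n : ℕ} (hn : n = 3 ∨ n = 4) (y : E n) :
    MemLp (fun z => ell y z) 2 (piM n) := by
  have := piM_prob hn
  obtain ⟨θ, -, -, hker, -, -⟩ := ker_row hn
  have hn0 : (n : ℝ) ≠ 0 := by
    rcases hn with h | h <;> rw [h] <;> norm_num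
  have hb' : MemLp (fun z : E n => (n + 1 : ℝ) * (1 - 2 * tau y z)) 2 (piM n) :=
    (B_memLp_tau hn y).const_mul _
  have hc' : MemLp (fun z : E n => ker n y z + (n * kap n)) 2 (piM n) :=
    (hker y).1.add (memLp_const _)
  have h1 : MemLp (fun z => (1 / n : ℝ) * (ker n y z + (n * kap n) + (n + 1) * (1 - 2 * tau y z))) 2
      (piM n) := (hc'.add hb').const_mul _
  refine h1.ae_eq (Filter.Eventually.of_forall fun z => ?_)
  simp only [ker]
  field_simp
  ring

private theorem B_memLp_ellInf {n : ℕ} (hn : n = 3 ∨ n = 4) :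
    MemLp (ellInf : E n → ℝ) 2 (piM n) := by
  have := piM_prob hn
  obtain ⟨θ, -, -, -, hker, -⟩ := ker_row hn
  have hn0 : (n : ℝ) ≠ 0 := by
    rcases hn with h | h <;> rw [h] <;> norm_num
  have hb : MemLp (fun z : E n => Z0 z) 2 (piM n) := by
    refine MemLp.of_bound continuous_Z0.aestronglyMeasurable 1
      (Filter.Eventually.of_forall fun z => ?_)
    rw [Real.norm_eq_abs]
    exact (B_absZ z).1
  have hb' : MemLp (fun z : E n => (n + 1 : ℝ) * (-Z0 z)) 2 (piM n) := hb.neg.const_mul _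
  have hc' : MemLp (fun z : E n => kerInf n z + (n * kap n)) 2 (piM n) :=
    hker.add (memLp_const _)
  have h1 : MemLp (fun z => (1 / n : ℝ) * (kerInf n z + (n * kap n) + (n + 1) * (-Z0 z))) 2
      (piM n) := (hc'.add hb').const_mul _
  refine h1.ae_eq (Filter.Eventually.of_forall fun z => ?_)
  have h2 : (1 + ‖z‖ ^ 2 : ℝ) ≠ 0 := by positivity
  simp only [kerInf, Z0]
  field_simp
  ring

private theorem B_memLp_log {n : ℕ} (hn : n = 3 ∨ n = 4) (y : E n) :
    MemLp (fun z => Real.log ‖y - z‖) 2 (piM n) := by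
  have := piM_prob hn
  have hd' : MemLp (fun _ : E n => Real.log (1 + ‖y‖ ^ 2)) 2 (piM n) := memLp_const _
  have hc' : MemLp (fun z : E n => Real.log (1 + ‖y‖ ^ 2) + ellInf z) 2 (piM n) :=
    hd'.add (B_memLp_ellInf hn)
  have h1 : MemLp (fun z => (1 / 2 : ℝ) * (Real.log (1 + ‖y‖ ^ 2) + ellInf z - ell y z)) 2
      (piM n) := (hc'.sub (B_memLp_ell hn y)).const_mul _
  exact h1.ae_eq (B_log_ae hn y).symm

private theorem B_ker_sub {n : ℕ} (y z : E n) :
    ker n y z - kerInf n z = n * (ell y z - ellInf z)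
      - (n + 1) * ((Z0 y + 1) * Z0 z + inner ℝ (Zv y) (Zv z)) := by
  have h1 := Z_inner y z
  have h2 : 2 / (1 + ‖z‖ ^ 2) = 1 + Z0 z := by
    have h3 : (1 + ‖z‖ ^ 2 : ℝ) ≠ 0 := by positivity
    unfold Z0
    field_simp
    ring
  unfold ker kerInf
  rw [h2, ← h1]
  ring

/-- The logarithmic potential of a density without first moments. -/
theorem log_pot_orth {n : ℕ} (hn : n = 3 ∨ n = 4) (f : Lp ℝ 2 (piM n))
    (h1 : ∫ z, f z ∂(piM n) = 0) (h2 : ∫ z, f z * Z0 z ∂(piM n) = 0)
    (h3 : ∫ z, f z • Zv z ∂(piM n) = 0) (y : E n) :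
    Integrable (fun z => Real.log ‖y - z‖ * f z) (piM n) ∧
    ∫ z, Real.log ‖y - z‖ * f z ∂(piM n) = - (1 / 2) * U n f y := by
  have := piM_prob hn
  have hn0 : (n : ℝ) ≠ 0 := by
    rcases hn with h | h <;> rw [h] <;> norm_num
  have hf : MemLp (fun z => f z) 2 (piM n) := Lp.memLp f
  have hf1 : Integrable (fun z => f z) (piM n) := hf.integrable (by norm_num)
  have hlog : Integrable (fun z => Real.log ‖y - z‖ * f z) (piM n) :=
    (B_memLp_log hn y).integrable_mul hf
  refine ⟨hlog, ?_⟩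
  have hZ0 : Integrable (fun z => f z * Z0 z) (piM n) := by
    have hb : MemLp (fun z : E n => Z0 z) 2 (piM n) := by
      refine MemLp.of_bound continuous_Z0.aestronglyMeasurable 1
        (Filter.Eventually.of_forall fun z => ?_)
      rw [Real.norm_eq_abs]
      exact (B_absZ z).1
    exact hf.integrable_mul hb
  have hZv : Integrable (fun z => f z • Zv z) (piM n) := by
    refine hf1.norm.mono' (hf1.aestronglyMeasurable.smul
      continuous_Zv.aestronglyMeasurable) (Filter.Eventually.of_forall fun z => ?_)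
    rw [norm_smul]
    nlinarith [norm_nonneg (f z), (B_absZ z).2, norm_nonneg (Zv z)]
  have hin : Integrable (fun z => (inner ℝ (Zv y) (f z • Zv z) : ℝ)) (piM n) :=
    hZv.const_inner _
  have hin0 : ∫ z, (inner ℝ (Zv y) (f z • Zv z) : ℝ) ∂(piM n) = 0 := by
    rw [integral_inner hZv, h3, inner_zero_right]
  have key : ∀ᵐ z ∂(piM n), (ker n y z - kerInf n z) * f z =
      n * (Real.log (1 + ‖y‖ ^ 2) * f z - 2 * (Real.log ‖y - z‖ * f z))
        - (n + 1) * ((Z0 y + 1) * (f z * Z0 z) + inner ℝ (Zv y) (f z • Zv z)) := by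
    filter_upwards [B_ne_ae hn y] with z hz
    rw [B_ker_sub, B_ell_formula y z hz, inner_smul_right]
    ring
  have hU : U n f y = (1 / n) * (n * (Real.log (1 + ‖y‖ ^ 2) * 0
      - 2 * ∫ z, Real.log ‖y - z‖ * f z ∂(piM n)) - (n + 1) * ((Z0 y + 1) * 0 + 0)) := by
    unfold U
    rw [integral_congr_ae key, integral_sub, integral_const_mul, integral_const_mul, integral_sub,
      integral_add, integral_const_mul, integral_const_mul, integral_const_mul, h1, h2, hin0]
    · exact hZ0.const_mul _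
    · exact hin
    · exact hf1.const_mul _
    · exact hlog.const_mul _
    · exact ((hf1.const_mul _).sub (hlog.const_mul _)).const_mul _
    · exact ((hZ0.const_mul _).add hin).const_mul _
  rw [hU]
  field_simp
  ring

/-- Transport of the bubble measure: the bubble with centre `ξ` and scale `s`. -/
theorem bub_transport {n : ℕ} (_hn : n = 3 ∨ n = 4) (ξ : E n) (s : ℝ) (hs : 0 < s)
    (F : E n → ℝ) :
    ∫ z, F z * (s⁻¹ ^ n * bub n (s⁻¹ • (z - ξ))) = ∫ y, F (ξ + s • y) ∂(piM n) ∧
    (Integrable (fun z => F z * (s⁻¹ ^ n * bub n (s⁻¹ • (z - ξ)))) ↔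
      Integrable (fun y => F (ξ + s • y)) (piM n)) := by
  have hfin : Module.finrank ℝ (E n) = n := by simp
  have hden : ∀ (G : E n → ℝ), (∫ y, G y ∂(piM n) = ∫ y, G y * bub n y) ∧
      (Integrable G (piM n) ↔ Integrable (fun y => G y * bub n y)) := by
    intro G
    have hm : Measurable (fun y : E n => ENNReal.ofReal (bub n y)) :=
      (B_bub_cont.measurable).ennreal_ofReal
    have hlt : ∀ᵐ y : E n ∂volume, ENNReal.ofReal (bub n y) < ⊤ :=
      Filter.Eventually.of_forall fun y => ENNReal.ofReal_lt_top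
    constructor
    · unfold piM
      rw [integral_withDensity_eq_integral_toReal_smul hm hlt]
      refine integral_congr_ae (Filter.Eventually.of_forall fun y => ?_)
      simp only [ENNReal.toReal_ofReal (B_bub_pos y), smul_eq_mul]
      ring
    · unfold piM
      rw [integrable_withDensity_iff_integrable_smul' hm hlt]
      have : (fun y : E n => (ENNReal.ofReal (bub n y)).toReal • G y) = fun y => G y * bub n y := by
        funext y
        simp only [ENNReal.toReal_ofReal (B_bub_pos y), smul_eq_mul]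
        ring
      rw [this]
  have hsub : ∀ y : E n, s⁻¹ • ((ξ + s • y) - ξ) = y := by
    intro y
    rw [add_sub_cancel_left, smul_smul, inv_mul_cancel₀ hs.ne', one_smul]
  have hsn : (s⁻¹ ^ n : ℝ) ≠ 0 := by positivity
  set G : E n → ℝ := fun z => F z * (s⁻¹ ^ n * bub n (s⁻¹ • (z - ξ))) with hG
  have hGc : ∀ y, G (ξ + s • y) = s⁻¹ ^ n * (F (ξ + s • y) * bub n y) := by
    intro y
    simp only [hG, hsub]
    ring
  have hI : ∫ z, G z = s ^ n * ∫ y, G (ξ + s • y) := by
    have e1 : ∫ y, G (ξ + s • y) = |(s ^ n)⁻¹| * ∫ z, G (ξ + z) := by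
      have := MeasureTheory.Measure.integral_comp_smul (μ := (volume : Measure (E n)))
        (fun z => G (ξ + z)) s
      rw [this, hfin, smul_eq_mul]
    rw [e1, integral_add_left_eq_self (μ := (volume : Measure (E n))) G ξ,
      abs_of_pos (by positivity)]
    field_simp
  have hIn : Integrable G ↔ Integrable (fun y => G (ξ + s • y)) := by
    have e1 := integrable_comp_smul_iff (volume : Measure (E n)) (fun z => G (ξ + z)) hs.ne'
    rw [e1]
    constructor
    · intro h
      exact h.comp_add_left ξ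
    · intro h
      have := h.comp_add_left (-ξ)
      simpa using this
  constructor
  · rw [hI, (hden _).1]
    simp only [hGc]
    rw [integral_const_mul]
    rw [← mul_assoc, ← mul_pow, mul_inv_cancel₀ hs.ne', one_pow, one_mul]
  · rw [hIn, (hden _).2]
    simp only [hGc]
    exact integrable_const_mul_iff (IsUnit.mk0 _ hsn) _

end Pool.Agent.QGlue
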