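import Pool.Agent.QGlue.Defs

/-!
The outer measure `mu0` and its logarithmic potential.
-/

set_option autoImplicit false

namespace Pool.Agent.QGlue

open MeasureTheory Real Set Filter Topology

namespace CC

/-- the density of the outer measure -/
noncomputable def dn (n : ℕ) (α : ℝ) (P : Pol n) (x : E n) : ℝ :=
  ‖x‖ ^ (n * α) * Real.exp (n * P.eval x)

theorem dn_nonneg {n : ℕ} (α : ℝ) (P : Pol n) (x : E n) : 0 ≤ dn n α P x := by
  unfold dn
  positivity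

theorem measurable_eval {n : ℕ} (P : Pol n) : Measurable P.eval := by
  unfold Pol.eval
  fun_prop

theorem measurable_dn {n : ℕ} (α : ℝ) (P : Pol n) : Measurable (dn n α P) := by
  unfold dn
  have := measurable_eval P
  fun_prop

theorem mu0_eq {n : ℕ} (α : ℝ) (P : Pol n) :
    mu0 n α P = volume.withDensity (fun x => ENNReal.ofReal (dn n α P x)) := rfl

theorem integrable_iff {n : ℕ} (α : ℝ) (P : Pol n) (F : E n → ℝ) :
    Integrable F (mu0 n α P) ↔ Integrable (fun x => dn n α P x * F x) := by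
  rw [mu0_eq, integrable_withDensity_iff_integrable_smul' (measurable_dn α P).ennreal_ofReal
    (ae_of_all _ fun x => ENNReal.ofReal_lt_top)]
  refine integrable_congr (ae_of_all _ fun x => ?_)
  simp only [ENNReal.toReal_ofReal (dn_nonneg α P x), smul_eq_mul]

theorem integral_eq {n : ℕ} (α : ℝ) (P : Pol n) (F : E n → ℝ) :
    ∫ x, F x ∂(mu0 n α P) = ∫ x, dn n α P x * F x := by
  rw [mu0_eq, integral_withDensity_eq_integral_toReal_smul (measurable_dn α P).ennreal_ofReal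
    (ae_of_all _ fun x => ENNReal.ofReal_lt_top)]
  refine integral_congr_ae (ae_of_all _ fun x => ?_)
  simp only [ENNReal.toReal_ofReal (dn_nonneg α P x), smul_eq_mul]

theorem gauss_int {n : ℕ} {c : ℝ} (hc : 0 < c) :
    Integrable (fun x : E n => Real.exp (-c * ‖x‖ ^ 2)) := by
  have h := GaussianFourier.integrable_cexp_neg_mul_sq_norm_add (V := E n) (b := (c : ℂ))
    (by simpa using hc) 0 0
  refine h.norm.congr (ae_of_all _ fun x => ?_)
  simp only [zero_mul, add_zero, Complex.norm_exp]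
  congr 1
  have : (-(c : ℂ) * (‖x‖ : ℂ) ^ 2) = ((-c * ‖x‖ ^ 2 : ℝ) : ℂ) := by push_cast; ring
  rw [this, Complex.ofReal_re]

theorem sing_int {n : ℕ} (hn : n = 3 ∨ n = 4) {a : ℝ} (ha : a < n) :
    IntegrableOn (fun x : E n => ‖x‖ ^ (-a)) (Metric.ball 0 1) := by
  refine integrableOn_ball_of_norm_le_rpow (C := 1) (α := a) ?_ ?_ ?_ ?_
  · simp only [finrank_euclideanSpace, Fintype.card_fin]
    rcases hn with rfl | rfl <;> norm_num
  · simpa using ha
  · refine ae_of_all _ fun x => ?_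
    rw [Real.norm_eq_abs, abs_of_nonneg (by positivity), one_mul]
  · have : Measurable (fun x : E n => ‖x‖ ^ (-a)) := by fun_prop
    exact this.aestronglyMeasurable

theorem poly_exp (K : ℕ) {c : ℝ} (hc : 0 < c) :
    ∃ C : ℝ, 0 < C ∧ ∀ r : ℝ, 0 ≤ r → (1 + r) ^ K ≤ C * Real.exp (c * r ^ 2) := by
  refine ⟨K.factorial / c ^ K * Real.exp (2 * c), by positivity, fun r hr => ?_⟩
  have h1 := Real.pow_div_factorial_le_exp (x := c * (1 + r)) (by positivity) K
  have h2 : Real.exp (c * (1 + r)) ≤ Real.exp (2 * c) * Real.exp (c * r ^ 2) := by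
    rw [← Real.exp_add]
    apply Real.exp_le_exp.2
    nlinarith [sq_nonneg (r - 1), mul_nonneg hc.le (sq_nonneg (r - 1)), mul_nonneg hc.le (sq_nonneg r)]
  have hf : (0 : ℝ) < K.factorial := by positivity
  have hcK : 0 < c ^ K := by positivity
  rw [mul_pow, div_le_iff₀ hf] at h1
  have h3 : (1 + r) ^ K = (c ^ K * (1 + r) ^ K) / c ^ K := by field_simp
  rw [h3, div_le_iff₀ hcK]
  calc c ^ K * (1 + r) ^ K ≤ Real.exp (c * (1 + r)) * K.factorial := h1
    _ ≤ (Real.exp (2 * c) * Real.exp (c * r ^ 2)) * K.factorial :=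
        mul_le_mul_of_nonneg_right h2 hf.le
    _ = K.factorial / c ^ K * Real.exp (2 * c) * Real.exp (c * r ^ 2) * c ^ K := by
        field_simp

theorem eval_le {n : ℕ} (hn : 0 < n) (P : Pol n) :
    ∃ C c : ℝ, 0 < c ∧ ∀ x, P.eval x ≤ C - c * ‖x‖ ^ 2 := by
  have hne : (Finset.univ : Finset (Fin n)).Nonempty := ⟨⟨0, hn⟩, Finset.mem_univ _⟩
  obtain ⟨i0, -, hi0⟩ := Finset.exists_min_image Finset.univ P.b hne
  refine ⟨∑ i, P.g i ^ 2 / (2 * P.b i), P.b i0 / 2, by have := P.hb i0; positivity, fun x => ?_⟩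
  rw [EuclideanSpace.real_norm_sq_eq, Finset.mul_sum, ← Finset.sum_sub_distrib]
  unfold Pol.eval
  refine Finset.sum_le_sum fun i _ => ?_
  have hb := P.hb i
  have h1 : P.b i0 / 2 * x i ^ 2 ≤ P.b i / 2 * x i ^ 2 :=
    mul_le_mul_of_nonneg_right (by linarith [hi0 i (Finset.mem_univ i)]) (sq_nonneg _)
  have h2 : P.g i * x i - P.b i * x i ^ 2 ≤ P.g i ^ 2 / (2 * P.b i) - P.b i / 2 * x i ^ 2 := by
    have : P.g i ^ 2 / (2 * P.b i) - P.b i / 2 * x i ^ 2 - (P.g i * x i - P.b i * x i ^ 2)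
        = (P.g i - P.b i * x i) ^ 2 / (2 * P.b i) := by
      field_simp
      ring
    have h3 : 0 ≤ (P.g i - P.b i * x i) ^ 2 / (2 * P.b i) := by positivity
    linarith
  linarith

/-- The density is dominated by a singular Gaussian. -/
theorem dn_le {n : ℕ} (hn : n = 3 ∨ n = 4) {α : ℝ} (hα : -1 < α) (P : Pol n) (K : ℕ) :
    ∃ C c a : ℝ, 0 < C ∧ 0 < c ∧ 0 ≤ a ∧ a < n ∧ ∀ x : E n, x ≠ 0 →
      (1 + ‖x‖) ^ K * dn n α P x ≤ C * (‖x‖ ^ (-a) * Real.exp (-c * ‖x‖ ^ 2)) := by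
  have hn0 : 0 < n := by rcases hn with rfl | rfl <;> norm_num
  have hnR : (0 : ℝ) < n := by exact_mod_cast hn0
  obtain ⟨C0, c, hc, hP⟩ := eval_le hn0 P
  obtain ⟨K', hK'⟩ := exists_nat_ge (n * α)
  obtain ⟨C1, hC1, h1⟩ := poly_exp (K + K') (c := n * c / 2) (by positivity)
  refine ⟨C1 * Real.exp (n * C0), n * c / 2, max (-(n * α)) 0, by positivity, by positivity,
    le_max_right _ _, ?_, fun x hx => ?_⟩
  · rw [max_lt_iff]
    exact ⟨by nlinarith, hnR⟩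
  · have hx0 : 0 < ‖x‖ := norm_pos_iff.2 hx
    have h2 : ‖x‖ ^ (n * α) ≤ ‖x‖ ^ (-(max (-(n * α)) 0)) * (1 + ‖x‖) ^ K' := by
      rcases le_total 0 (n * α) with h | h
      · rw [max_eq_right (by linarith), neg_zero, Real.rpow_zero, one_mul]
        calc ‖x‖ ^ (n * α) ≤ (1 + ‖x‖) ^ (n * α) :=
              Real.rpow_le_rpow hx0.le (by linarith) h
          _ ≤ (1 + ‖x‖) ^ (K' : ℝ) := Real.rpow_le_rpow_of_exponent_le (by linarith) hK'
          _ = _ := Real.rpow_natCast _ _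
      · rw [max_eq_left (by linarith), neg_neg]
        exact le_mul_of_one_le_right (by positivity) (one_le_pow₀ (by linarith))
    have h3 : Real.exp (n * P.eval x) ≤ Real.exp (n * C0) * Real.exp (-(n * c) * ‖x‖ ^ 2) := by
      rw [← Real.exp_add]
      apply Real.exp_le_exp.2
      nlinarith [hP x]
    have h4 := h1 ‖x‖ hx0.le
    unfold dn
    set A := ‖x‖ ^ (-(max (-(n * α)) 0)) with hA
    have hA0 : 0 ≤ A := by positivity
    calc (1 + ‖x‖) ^ K * (‖x‖ ^ (n * α) * Real.exp (n * P.eval x))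
        ≤ (1 + ‖x‖) ^ K * ((A * (1 + ‖x‖) ^ K')
            * (Real.exp (n * C0) * Real.exp (-(n * c) * ‖x‖ ^ 2))) := by
          gcongr
      _ = (1 + ‖x‖) ^ (K + K') * (A * Real.exp (n * C0) * Real.exp (-(n * c) * ‖x‖ ^ 2)) := by
          rw [pow_add]; ring
      _ ≤ (C1 * Real.exp (n * c / 2 * ‖x‖ ^ 2))
            * (A * Real.exp (n * C0) * Real.exp (-(n * c) * ‖x‖ ^ 2)) := by
          gcongr
      _ = C1 * Real.exp (n * C0) * (A * (Real.exp (n * c / 2 * ‖x‖ ^ 2)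
            * Real.exp (-(n * c) * ‖x‖ ^ 2))) := by ring
      _ = C1 * Real.exp (n * C0) * (A * Real.exp (-(n * c / 2) * ‖x‖ ^ 2)) := by
          rw [← Real.exp_add]
          congr 3
          ring

/-- The majorant of the kernel. -/
noncomputable def maj (n : ℕ) (c e : ℝ) (z w : E n) : ℝ :=
  (Metric.ball (0 : E n) 1).indicator (fun u : E n => ‖u‖ ^ (-e)) (z - w)
    + (Metric.ball (0 : E n) 1).indicator (fun u : E n => ‖u‖ ^ (-e)) w + 2 * Real.exp (-c * ‖w‖ ^ 2)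

theorem maj_int {n : ℕ} (hn : n = 3 ∨ n = 4) {c e : ℝ} (hc : 0 < c) (he : e < n) (z : E n) :
    Integrable (maj n c e z) := by
  have h1 := (integrable_indicator_iff Metric.isOpen_ball.measurableSet).2 (sing_int hn he)
  exact ((h1.comp_sub_left z).add h1).add ((gauss_int hc).const_mul 2)

theorem maj_integral {n : ℕ} (hn : n = 3 ∨ n = 4) {c e : ℝ} (hc : 0 < c) (he : e < n) (z : E n) :
    ∫ w, maj n c e z w = ∫ w, maj n c e 0 w := by
  have h1 := (integrable_indicator_iff Metric.isOpen_ball.measurableSet).2 (sing_int hn he)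
  have h : ∀ z : E n, ∫ w, maj n c e z w
      = (∫ w, (Metric.ball (0 : E n) 1).indicator (fun u : E n => ‖u‖ ^ (-e)) w)
        + (∫ w, (Metric.ball (0 : E n) 1).indicator (fun u : E n => ‖u‖ ^ (-e)) w)
        + ∫ w : E n, 2 * Real.exp (-c * ‖w‖ ^ 2) := by
    intro z
    unfold maj
    have e1 : Integrable (fun w : E n =>
        (Metric.ball (0 : E n) 1).indicator (fun u : E n => ‖u‖ ^ (-e)) (z - w)
          + (Metric.ball (0 : E n) 1).indicator (fun u : E n => ‖u‖ ^ (-e)) w) :=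
      (h1.comp_sub_left z).add h1
    rw [integral_add e1 ((gauss_int hc).const_mul 2), integral_add (h1.comp_sub_left z) h1,
      integral_sub_left_eq_self (fun w => (Metric.ball (0 : E n) 1).indicator
        (fun u : E n => ‖u‖ ^ (-e)) w) volume z]
  rw [h z, h 0]

theorem kernel_le {n : ℕ} {c a b : ℝ} (hc : 0 < c) (ha : 0 ≤ a) (hb : 0 ≤ b) (z w : E n)
    (hw : w ≠ 0) (hz : w ≠ z) :
    ‖z - w‖ ^ (-b) * (‖w‖ ^ (-a) * Real.exp (-c * ‖w‖ ^ 2)) ≤ maj n c (a + b) z w := by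
  have hw0 : 0 < ‖w‖ := norm_pos_iff.2 hw
  have hz0 : 0 < ‖z - w‖ := norm_pos_iff.2 (sub_ne_zero.2 hz.symm)
  have key : ∀ x y : ℝ, 0 < x → 0 < y → x ^ (-b) * y ^ (-a) ≤ x ^ (-(a + b)) + y ^ (-(a + b)) := by
    intro x y hx hy
    rcases le_total x y with h | h
    · have : y ^ (-a) ≤ x ^ (-a) := Real.rpow_le_rpow_of_nonpos hx h (by linarith)
      calc x ^ (-b) * y ^ (-a) ≤ x ^ (-b) * x ^ (-a) := by gcongr
        _ = x ^ (-(a + b)) := by rw [← Real.rpow_add hx]; congr 1; ring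
        _ ≤ _ := le_add_of_nonneg_right (by positivity)
    · have : x ^ (-b) ≤ y ^ (-b) := Real.rpow_le_rpow_of_nonpos hy h (by linarith)
      calc x ^ (-b) * y ^ (-a) ≤ y ^ (-b) * y ^ (-a) := by gcongr
        _ = y ^ (-(a + b)) := by rw [← Real.rpow_add hy]; congr 1; ring
        _ ≤ _ := le_add_of_nonneg_left (by positivity)
  have loc : ∀ u : E n, 0 < ‖u‖ → ∀ G : ℝ, 0 ≤ G → G ≤ 1 →
      ‖u‖ ^ (-(a + b)) * G
        ≤ (Metric.ball (0 : E n) 1).indicator (fun u => ‖u‖ ^ (-(a + b))) u + G := by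
    intro u hu G hG hG1
    by_cases h : u ∈ Metric.ball (0 : E n) 1
    · rw [indicator_of_mem h]
      have : ‖u‖ ^ (-(a + b)) * G ≤ ‖u‖ ^ (-(a + b)) := mul_le_of_le_one_right (by positivity) hG1
      linarith
    · rw [indicator_of_notMem h, zero_add]
      have h1 : 1 ≤ ‖u‖ := by simpa using h
      exact mul_le_of_le_one_left hG (Real.rpow_le_one_of_one_le_of_nonpos h1 (by linarith))
  have hG1 : Real.exp (-c * ‖w‖ ^ 2) ≤ 1 := by
    rw [Real.exp_le_one_iff]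
    nlinarith [sq_nonneg ‖w‖]
  have h1 := loc (z - w) hz0 _ (Real.exp_pos (-c * ‖w‖ ^ 2)).le hG1
  have h2 := loc w hw0 _ (Real.exp_pos (-c * ‖w‖ ^ 2)).le hG1
  calc ‖z - w‖ ^ (-b) * (‖w‖ ^ (-a) * Real.exp (-c * ‖w‖ ^ 2))
      = (‖z - w‖ ^ (-b) * ‖w‖ ^ (-a)) * Real.exp (-c * ‖w‖ ^ 2) := by ring
    _ ≤ (‖z - w‖ ^ (-(a + b)) + ‖w‖ ^ (-(a + b))) * Real.exp (-c * ‖w‖ ^ 2) := by
        gcongr
        exact key _ _ hz0 hw0
    _ ≤ maj n c (a + b) z w := by
        unfold maj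
        linarith [add_mul (‖z - w‖ ^ (-(a + b))) (‖w‖ ^ (-(a + b))) (Real.exp (-c * ‖w‖ ^ 2))]

/-- The kernel bound: some exponent works uniformly. -/
theorem kernel_bound {n : ℕ} (hn : n = 3 ∨ n = 4) {α : ℝ} (hα : -1 < α) (P : Pol n) :
    ∃ κ M : ℝ, 0 < κ ∧ κ ≤ 1 ∧ 0 < M ∧ ∀ z : E n,
      Integrable (fun w => (‖z - w‖ ^ (-κ)) ^ 2) (mu0 n α P) ∧
      ∫ w, (‖z - w‖ ^ (-κ)) ^ 2 ∂(mu0 n α P) ≤ M := by
  obtain ⟨C, c, a, hC, hc, ha, han, hdn⟩ := dn_le hn hα P 0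
  have hn0 : 0 < n := by rcases hn with rfl | rfl <;> norm_num
  have : Nonempty (Fin n) := ⟨⟨0, hn0⟩⟩
  set κ := min 1 ((n - a) / 4) with hκ
  have hκ0 : 0 < κ := lt_min one_pos (by linarith)
  have he : a + 2 * κ < n := by
    have := min_le_right (1 : ℝ) ((n - a) / 4)
    linarith
  have hae : ∀ z : E n, ∀ᵐ w : E n, ‖dn n α P w * (‖z - w‖ ^ (-κ)) ^ 2‖
      ≤ C * maj n c (a + 2 * κ) z w := by
    intro z
    have h0 : ∀ᵐ w : E n, w ≠ 0 := by simp [ae_iff, measure_singleton]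
    have hz : ∀ᵐ w : E n, w ≠ z := by simp [ae_iff, measure_singleton]
    filter_upwards [h0, hz] with w hw hwz
    rw [Real.norm_eq_abs, abs_of_nonneg (mul_nonneg (dn_nonneg α P w) (sq_nonneg _))]
    have h1 := hdn w hw
    rw [pow_zero, one_mul] at h1
    have h2 : (‖z - w‖ ^ (-κ)) ^ 2 = ‖z - w‖ ^ (-(2 * κ)) := by
      rw [← Real.rpow_natCast, ← Real.rpow_mul (norm_nonneg _)]
      congr 1
      push_cast
      ring
    have h3 := kernel_le (n := n) hc ha (by linarith : (0 : ℝ) ≤ 2 * κ) z w hw hwz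
    rw [h2]
    calc dn n α P w * ‖z - w‖ ^ (-(2 * κ))
        ≤ (C * (‖w‖ ^ (-a) * Real.exp (-c * ‖w‖ ^ 2))) * ‖z - w‖ ^ (-(2 * κ)) := by gcongr
      _ = C * (‖z - w‖ ^ (-(2 * κ)) * (‖w‖ ^ (-a) * Real.exp (-c * ‖w‖ ^ 2))) := by ring
      _ ≤ _ := by gcongr
  have hmeas : ∀ z : E n, AEStronglyMeasurable (fun w => dn n α P w * (‖z - w‖ ^ (-κ)) ^ 2)
      volume := by
    intro z
    have := measurable_dn α P
    exact Measurable.aestronglyMeasurable (by fun_prop)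
  refine ⟨κ, C * |∫ w, maj n c (a + 2 * κ) 0 w| + 1, hκ0, min_le_left _ _, by positivity,
    fun z => ?_⟩
  have hint := ((maj_int hn hc he z).const_mul C).mono' (hmeas z) (hae z)
  refine ⟨(integrable_iff α P _).2 hint, ?_⟩
  rw [integral_eq]
  calc ∫ w, dn n α P w * (‖z - w‖ ^ (-κ)) ^ 2
      ≤ ∫ w, C * maj n c (a + 2 * κ) z w := by
        refine integral_mono_ae hint ((maj_int hn hc he z).const_mul C) ?_
        filter_upwards [hae z] with w hw
        exact (le_abs_self _).trans hw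
    _ = C * ∫ w, maj n c (a + 2 * κ) 0 w := by
        rw [integral_const_mul, maj_integral hn hc he z]
    _ ≤ C * |∫ w, maj n c (a + 2 * κ) 0 w| + 1 := by
        have := mul_le_mul_of_nonneg_left (le_abs_self (∫ w, maj n c (a + 2 * κ) 0 w)) hC.le
        linarith

/-- Cauchy-Schwarz. -/
theorem cs {n : ℕ} {μ : Measure (E n)} {f : E n → ℝ} (hf : MemLp f 2 μ) (g : Lp ℝ 2 μ) :
    Integrable (fun w => f w * g w) μ ∧
      |∫ w, f w * g w ∂μ| ≤ √(∫ w, f w ^ 2 ∂μ) * ‖g‖ := by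
  have hi : Integrable (fun w => f w * g w) μ := hf.integrable_mul (Lp.memLp g)
  refine ⟨hi, ?_⟩
  have h1 : ∫ w, f w * g w ∂μ = inner ℝ g (hf.toLp f) := by
    rw [L2.inner_def]
    refine integral_congr_ae ?_
    filter_upwards [hf.coeFn_toLp] with w hw
    rw [hw]
    simp
  have h2 : ‖hf.toLp f‖ = √(∫ w, f w ^ 2 ∂μ) := by
    have : ∫ w, f w ^ 2 ∂μ = ‖hf.toLp f‖ ^ 2 := by
      rw [← real_inner_self_eq_norm_sq, L2.inner_def]
      refine integral_congr_ae ?_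
      filter_upwards [hf.coeFn_toLp] with w hw
      rw [hw]
      simp [sq]
    rw [this, Real.sqrt_sq (norm_nonneg _)]
  rw [h1, ← h2, mul_comm]
  exact abs_real_inner_le_norm _ _

theorem abs_log_le {κ r : ℝ} (hκ : 0 < κ) (hr : 0 ≤ r) :
    |Real.log r| ≤ r ^ (-κ) / κ + Real.log (1 + r) := by
  have hl : 0 ≤ Real.log (1 + r) := Real.log_nonneg (by linarith)
  rcases hr.eq_or_lt with rfl | hr
  · simp only [Real.log_zero, abs_zero]
    positivity
  rcases le_total 1 r with h | h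
  · rw [abs_of_nonneg (Real.log_nonneg h)]
    have : Real.log r ≤ Real.log (1 + r) := Real.log_le_log hr (by linarith)
    have h2 : 0 ≤ r ^ (-κ) / κ := by positivity
    linarith
  · rw [abs_of_nonpos (Real.log_nonpos hr.le h), ← Real.log_inv]
    have := Real.log_le_rpow_div (inv_nonneg.2 hr.le) hκ
    rw [Real.inv_rpow hr.le, ← Real.rpow_neg hr.le] at this
    linarith

theorem log_sub_le {κ a b : ℝ} (hκ : 0 < κ) (hκ1 : κ ≤ 1) (ha : 0 < a) (hb : 0 < b) :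
    |Real.log a - Real.log b| ≤ (1 / κ) * |a - b| ^ κ * (a ^ (-κ) + b ^ (-κ)) := by
  wlog h : b ≤ a generalizing a b with H
  · have := H hb ha (not_le.1 h).le
    rw [abs_sub_comm, abs_sub_comm a b, add_comm (a ^ (-κ))]
    exact this
  have h0 : 0 ≤ Real.log a - Real.log b := sub_nonneg.2 (Real.log_le_log hb h)
  rw [abs_of_nonneg h0, abs_of_nonneg (sub_nonneg.2 h)]
  have h1 : Real.log a - Real.log b = (1 / κ) * Real.log ((a / b) ^ κ) := by
    rw [Real.log_rpow (by positivity), Real.log_div ha.ne' hb.ne']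
    field_simp
  have h2 : Real.log ((a / b) ^ κ) ≤ (a / b) ^ κ - 1 := Real.log_le_sub_one_of_pos (by positivity)
  have h3 : (a / b) ^ κ - 1 ≤ (a - b) ^ κ * b ^ (-κ) := by
    have h4 : a ^ κ ≤ (a - b) ^ κ + b ^ κ := by
      have := Real.rpow_add_le_add_rpow (sub_nonneg.2 h) hb.le hκ.le hκ1
      simpa using this
    have hbk : 0 < b ^ κ := by positivity
    rw [Real.div_rpow ha.le hb.le, Real.rpow_neg hb.le, ← div_eq_mul_inv, div_sub_one hbk.ne']
    gcongr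
    linarith
  rw [h1, mul_assoc]
  gcongr
  have h5 : 0 ≤ (a - b) ^ κ * a ^ (-κ) := by
    have := sub_nonneg.2 h
    positivity
  nlinarith

end CC

theorem mu0_moment {n : ℕ} (hn : n = 3 ∨ n = 4) {α : ℝ} (hα : -1 < α) (P : Pol n) (K : ℕ) :
    Integrable (fun x => (1 + ‖x‖) ^ K) (mu0 n α P) := by
  obtain ⟨C, c, a, hC, hc, ha, han, hdn⟩ := CC.dn_le hn hα P K
  have hn0 : 0 < n := by rcases hn with rfl | rfl <;> norm_num
  have : Nonempty (Fin n) := ⟨⟨0, hn0⟩⟩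
  have h0 : ∀ᵐ w : E n, w ≠ 0 := by simp [ae_iff, measure_singleton]
  have hae : ∀ᵐ w : E n, ‖CC.dn n α P w * (1 + ‖w‖) ^ K‖ ≤ C * CC.maj n c (a + 0) 0 w := by
    filter_upwards [h0] with w hw
    rw [Real.norm_eq_abs, abs_of_nonneg (mul_nonneg (CC.dn_nonneg α P w) (by positivity))]
    have h1 := hdn w hw
    have h2 := CC.kernel_le (n := n) hc ha le_rfl 0 w hw hw
    rw [neg_zero, Real.rpow_zero, one_mul] at h2
    calc CC.dn n α P w * (1 + ‖w‖) ^ K = (1 + ‖w‖) ^ K * CC.dn n α P w := mul_comm _ _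
      _ ≤ C * (‖w‖ ^ (-a) * Real.exp (-c * ‖w‖ ^ 2)) := h1
      _ ≤ _ := by gcongr
  have hmeas : AEStronglyMeasurable (fun w => CC.dn n α P w * (1 + ‖w‖) ^ K) volume := by
    have := CC.measurable_dn α P
    exact Measurable.aestronglyMeasurable (by fun_prop)
  refine (CC.integrable_iff α P _).2 (Integrable.mono' ?_ hmeas hae)
  exact (CC.maj_int hn hc (by linarith) 0).const_mul C

theorem mu0_finite {n : ℕ} (hn : n = 3 ∨ n = 4) {α : ℝ} (hα : -1 < α) (P : Pol n) :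
    IsFiniteMeasure (mu0 n α P) := by
  have h := mu0_moment hn hα P 0
  simp only [pow_zero] at h
  rcases integrable_const_iff.1 h with h | h
  · exact absurd h one_ne_zero
  · exact h

theorem mu0_isometry {n : ℕ} (α : ℝ) (P : Pol n) (g : E n ≃ₗᵢ[ℝ] E n)
    (hP : ∀ x, P.eval (g x) = P.eval x) : MeasurePreserving g (mu0 n α P) (mu0 n α P) := by
  have hg : MeasurePreserving g (volume : Measure (E n)) volume := g.measurePreserving
  refine ⟨hg.measurable, ?_⟩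
  ext s hs
  rw [Measure.map_apply hg.measurable hs, CC.mu0_eq]
  rw [withDensity_apply _ hs, withDensity_apply _ (hg.measurable hs),
    ← hg.setLIntegral_comp_preimage hs (CC.measurable_dn α P).ennreal_ofReal]
  refine lintegral_congr fun y => ?_
  unfold CC.dn
  rw [hP, g.norm_map]

theorem Psi_isometry {n : ℕ} (α : ℝ) (P : Pol n) (f : E n → ℝ) (g : E n ≃ₗᵢ[ℝ] E n)
    (hP : ∀ x, P.eval (g x) = P.eval x) (z : E n) :
    Psi n α P (fun w => f (g.symm w)) (g z) = Psi n α P f z := by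
  have h := (mu0_isometry α P g hP).integral_comp g.toHomeomorph.measurableEmbedding
    (fun w => Real.log ‖g z - w‖ * f (g.symm w))
  unfold Psi
  rw [← h]
  congr 1
  refine integral_congr_ae (ae_of_all _ fun w => ?_)
  simp only [LinearIsometryEquiv.symm_apply_apply, ← map_sub, g.norm_map]

theorem Psi_zero {n : ℕ} (α : ℝ) (P : Pol n) (z : E n) :
    Psi n α P (0 : Lp ℝ 2 (mu0 n α P)) z = 0 := by
  unfold Psi
  have : ∫ w, Real.log ‖z - w‖ * (0 : Lp ℝ 2 (mu0 n α P)) w ∂(mu0 n α P) = 0 := by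
    rw [integral_eq_zero_of_ae]
    filter_upwards [Lp.coeFn_zero ℝ 2 (mu0 n α P)] with w hw
    rw [hw]
    simp
  rw [this, mul_zero]

/-- square of the logarithm is integrable -/
theorem CC.log_memLp {n : ℕ} (hn : n = 3 ∨ n = 4) {α : ℝ} (hα : -1 < α) (P : Pol n) :
    ∃ C : ℝ, 0 < C ∧ ∀ z : E n, MemLp (fun w => Real.log ‖z - w‖) 2 (mu0 n α P) ∧
      √(∫ w, Real.log ‖z - w‖ ^ 2 ∂(mu0 n α P)) ≤ C * (1 + Real.log (1 + ‖z‖)) := by
  obtain ⟨κ, M, hκ, hκ1, hM, hker⟩ := CC.kernel_bound hn hα P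
  have h0 := mu0_moment hn hα P 0
  have h2 := mu0_moment hn hα P 2
  have hsq : ∀ z w : E n, Real.log ‖z - w‖ ^ 2 ≤ 2 / κ ^ 2 * (‖z - w‖ ^ (-κ)) ^ 2
      + 4 * Real.log (1 + ‖z‖) ^ 2 * (1 + ‖w‖) ^ 0 + 4 * (1 + ‖w‖) ^ 2 := by
    intro z w
    have h3 := CC.abs_log_le hκ (norm_nonneg (z - w))
    have h4 : Real.log (1 + ‖z - w‖) ≤ Real.log (1 + ‖z‖) + (1 + ‖w‖) := by
      have h5 : 1 + ‖z - w‖ ≤ (1 + ‖z‖) * (1 + ‖w‖) := by
        nlinarith [norm_sub_le z w, norm_nonneg z, norm_nonneg w,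
          mul_nonneg (norm_nonneg z) (norm_nonneg w)]
      calc Real.log (1 + ‖z - w‖) ≤ Real.log ((1 + ‖z‖) * (1 + ‖w‖)) :=
            Real.log_le_log (by positivity) h5
        _ = Real.log (1 + ‖z‖) + Real.log (1 + ‖w‖) :=
            Real.log_mul (by positivity) (by positivity)
        _ ≤ _ := by
            have := Real.log_le_sub_one_of_pos (by positivity : 0 < 1 + ‖w‖)
            linarith
    have hl : 0 ≤ Real.log (1 + ‖z‖) := Real.log_nonneg (by linarith [norm_nonneg z])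
    have hw : 0 ≤ ‖w‖ := norm_nonneg w
    have hA : 0 ≤ ‖z - w‖ ^ (-κ) / κ := by positivity
    set A := ‖z - w‖ ^ (-κ) / κ with hAdef
    have h6 : |Real.log ‖z - w‖| ≤ A + (Real.log (1 + ‖z‖) + (1 + ‖w‖)) := by linarith
    have h7 : Real.log ‖z - w‖ ^ 2 ≤ (A + (Real.log (1 + ‖z‖) + (1 + ‖w‖))) ^ 2 := by
      rw [← sq_abs]
      exact pow_le_pow_left₀ (abs_nonneg _) h6 2
    have h8 : 2 / κ ^ 2 * (‖z - w‖ ^ (-κ)) ^ 2 = 2 * A ^ 2 := by
      rw [hAdef]
      field_simp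
    rw [h8, pow_zero, mul_one]
    nlinarith [sq_nonneg (A - (Real.log (1 + ‖z‖) + (1 + ‖w‖))),
      sq_nonneg (Real.log (1 + ‖z‖) - (1 + ‖w‖))]
  have hdom : ∀ z : E n, Integrable (fun w => 2 / κ ^ 2 * (‖z - w‖ ^ (-κ)) ^ 2
      + 4 * Real.log (1 + ‖z‖) ^ 2 * (1 + ‖w‖) ^ 0 + 4 * (1 + ‖w‖) ^ 2) (mu0 n α P) := by
    intro z
    exact (((hker z).1.const_mul _).add (h0.const_mul _)).add (h2.const_mul _)
  have hmeas : ∀ z : E n, Measurable (fun w : E n => Real.log ‖z - w‖) := by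
    intro z
    fun_prop
  have hint : ∀ z : E n, Integrable (fun w => Real.log ‖z - w‖ ^ 2) (mu0 n α P) := by
    intro z
    refine (hdom z).mono' ((hmeas z).pow_const 2).aestronglyMeasurable (ae_of_all _ fun w => ?_)
    rw [Real.norm_eq_abs, abs_of_nonneg (sq_nonneg _)]
    exact hsq z w
  set A0 := |∫ w, (1 + ‖w‖) ^ 0 ∂(mu0 n α P)| with hA0
  set A2 := |∫ w, (1 + ‖w‖) ^ 2 ∂(mu0 n α P)| with hA2
  have hA0' : 0 ≤ A0 := abs_nonneg _
  have hA2' : 0 ≤ A2 := abs_nonneg _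
  set D := 2 / κ ^ 2 * M + 4 * A0 + 4 * A2 + 1 with hD
  have hD0 : 0 < D := by positivity
  refine ⟨√D, by positivity, fun z => ⟨(memLp_two_iff_integrable_sq
    (hmeas z).aestronglyMeasurable).2 (hint z), ?_⟩⟩
  have hl : 0 ≤ Real.log (1 + ‖z‖) := Real.log_nonneg (by linarith [norm_nonneg z])
  have hL : 0 ≤ 1 + Real.log (1 + ‖z‖) := by linarith
  have hb : ∫ w, Real.log ‖z - w‖ ^ 2 ∂(mu0 n α P) ≤ D * (1 + Real.log (1 + ‖z‖)) ^ 2 := by
    calc ∫ w, Real.log ‖z - w‖ ^ 2 ∂(mu0 n α P)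
        ≤ ∫ w, (2 / κ ^ 2 * (‖z - w‖ ^ (-κ)) ^ 2
            + 4 * Real.log (1 + ‖z‖) ^ 2 * (1 + ‖w‖) ^ 0 + 4 * (1 + ‖w‖) ^ 2) ∂(mu0 n α P) :=
          integral_mono (hint z) (hdom z) (hsq z)
      _ = 2 / κ ^ 2 * (∫ w, (‖z - w‖ ^ (-κ)) ^ 2 ∂(mu0 n α P))
            + 4 * Real.log (1 + ‖z‖) ^ 2 * (∫ w, (1 + ‖w‖) ^ 0 ∂(mu0 n α P))
            + 4 * (∫ w, (1 + ‖w‖) ^ 2 ∂(mu0 n α P)) := by
          have e1 : Integrable (fun w : E n => 2 / κ ^ 2 * (‖z - w‖ ^ (-κ)) ^ 2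
              + 4 * Real.log (1 + ‖z‖) ^ 2 * (1 + ‖w‖) ^ 0) (mu0 n α P) :=
            ((hker z).1.const_mul _).add (h0.const_mul _)
          rw [integral_add e1 (h2.const_mul 4),
            integral_add ((hker z).1.const_mul _) (h0.const_mul _),
            integral_const_mul, integral_const_mul, integral_const_mul]
      _ ≤ 2 / κ ^ 2 * M + 4 * Real.log (1 + ‖z‖) ^ 2 * A0 + 4 * A2 := by
          gcongr
          · exact (hker z).2
          · exact le_abs_self _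
          · exact le_abs_self _
      _ ≤ D * (1 + Real.log (1 + ‖z‖)) ^ 2 := by
          have h1 : 1 ≤ (1 + Real.log (1 + ‖z‖)) ^ 2 := by nlinarith
          have h2 : Real.log (1 + ‖z‖) ^ 2 ≤ (1 + Real.log (1 + ‖z‖)) ^ 2 := by nlinarith
          have h3 : 0 ≤ 2 / κ ^ 2 * M := by positivity
          have h4 : 4 * Real.log (1 + ‖z‖) ^ 2 * A0 ≤ 4 * A0 * (1 + Real.log (1 + ‖z‖)) ^ 2 := by
            nlinarith
          have h5 : 2 / κ ^ 2 * M ≤ 2 / κ ^ 2 * M * (1 + Real.log (1 + ‖z‖)) ^ 2 :=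
            le_mul_of_one_le_right h3 h1
          have h6 : 4 * A2 ≤ 4 * A2 * (1 + Real.log (1 + ‖z‖)) ^ 2 :=
            le_mul_of_one_le_right (by positivity) h1
          rw [hD]
          nlinarith
  calc √(∫ w, Real.log ‖z - w‖ ^ 2 ∂(mu0 n α P))
      ≤ √(D * (1 + Real.log (1 + ‖z‖)) ^ 2) := Real.sqrt_le_sqrt hb
    _ = √D * (1 + Real.log (1 + ‖z‖)) := by
        rw [Real.sqrt_mul hD0.le, Real.sqrt_sq hL]

theorem Psi_bound {n : ℕ} (hn : n = 3 ∨ n = 4) {α : ℝ} (hα : -1 < α) (P : Pol n) :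
    ∃ C : ℝ, 0 < C ∧ ∀ (g : Lp ℝ 2 (mu0 n α P)) (z : E n),
      Integrable (fun w => Real.log ‖z - w‖ * g w) (mu0 n α P) ∧
      |Psi n α P g z| ≤ C * (1 + Real.log (1 + ‖z‖)) * ‖g‖ := by
  obtain ⟨C, hC, h⟩ := CC.log_memLp hn hα P
  have hg : 0 < gam n := by unfold gam; split_ifs <;> positivity
  refine ⟨1 / gam n * C, by positivity, fun g z => ?_⟩
  obtain ⟨h1, h2⟩ := h z
  obtain ⟨h3, h4⟩ := CC.cs h1 g
  refine ⟨h3, ?_⟩
  unfold Psi
  rw [abs_mul, abs_neg, abs_of_pos (by positivity : 0 < 1 / gam n), mul_assoc, mul_assoc]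
  refine mul_le_mul_of_nonneg_left ?_ (by positivity)
  rw [← mul_assoc]
  exact h4.trans (mul_le_mul_of_nonneg_right h2 (norm_nonneg _))

theorem Psi_sub {n : ℕ} (hn : n = 3 ∨ n = 4) {α : ℝ} (hα : -1 < α) (P : Pol n)
    (f g : Lp ℝ 2 (mu0 n α P)) (z : E n) :
    Psi n α P (f - g : Lp ℝ 2 (mu0 n α P)) z = Psi n α P f z - Psi n α P g z := by
  obtain ⟨C, hC, h⟩ := Psi_bound hn hα P
  unfold Psi
  rw [← mul_sub, ← integral_sub (h f z).1 (h g z).1]
  congr 1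
  refine integral_congr_ae ?_
  filter_upwards [Lp.coeFn_sub f g] with w hw
  rw [hw, Pi.sub_apply]
  ring

theorem Psi_cont {n : ℕ} (hn : n = 3 ∨ n = 4) {α : ℝ} (hα : -1 < α) (P : Pol n)
    (g : Lp ℝ 2 (mu0 n α P)) : Continuous (Psi n α P g) := by
  obtain ⟨κ, M, hκ, hκ1, hM, hker⟩ := CC.kernel_bound hn hα P
  obtain ⟨K, hK, hlog⟩ := CC.log_memLp hn hα P
  have hn0 : 0 < n := by rcases hn with rfl | rfl <;> norm_num
  have hne : Nonempty (Fin n) := ⟨⟨0, hn0⟩⟩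
  have hgam : 0 < gam n := by unfold gam; split_ifs <;> positivity
  have hnull : ∀ z : E n, ∀ᵐ w ∂(mu0 n α P), w ≠ z := by
    intro z
    have hz : ∀ᵐ w : E n, w ≠ z := by simp [ae_iff, measure_singleton]
    exact (withDensity_absolutelyContinuous _ _).ae_le hz
  have hbd : ∀ z z' : E n, |Psi n α P g z - Psi n α P g z'|
      ≤ (1 / gam n * (√(4 * M) / κ * ‖g‖)) * ‖z - z'‖ ^ κ := by
    intro z z'
    have hm : MemLp (fun w => Real.log ‖z - w‖ - Real.log ‖z' - w‖) 2 (mu0 n α P) :=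
      (hlog z).1.sub (hlog z').1
    obtain ⟨h1, h2⟩ := CC.cs hm g
    have h3 : Psi n α P g z - Psi n α P g z'
        = -(1 / gam n) * ∫ w, (Real.log ‖z - w‖ - Real.log ‖z' - w‖) * g w ∂(mu0 n α P) := by
      unfold Psi
      rw [← mul_sub, ← integral_sub (CC.cs (hlog z).1 g).1 (CC.cs (hlog z').1 g).1]
      congr 1
      refine integral_congr_ae (ae_of_all _ fun w => ?_)
      ring
    have hdom : Integrable (fun w => (‖z - z'‖ ^ κ / κ) ^ 2 * (2 * (‖z - w‖ ^ (-κ)) ^ 2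
        + 2 * (‖z' - w‖ ^ (-κ)) ^ 2)) (mu0 n α P) :=
      (((hker z).1.const_mul 2).add ((hker z').1.const_mul 2)).const_mul _
    have h4 : ∫ w, (Real.log ‖z - w‖ - Real.log ‖z' - w‖) ^ 2 ∂(mu0 n α P)
        ≤ (‖z - z'‖ ^ κ / κ) ^ 2 * (4 * M) := by
      calc ∫ w, (Real.log ‖z - w‖ - Real.log ‖z' - w‖) ^ 2 ∂(mu0 n α P)
          ≤ ∫ w, (‖z - z'‖ ^ κ / κ) ^ 2 * (2 * (‖z - w‖ ^ (-κ)) ^ 2
            + 2 * (‖z' - w‖ ^ (-κ)) ^ 2) ∂(mu0 n α P) := by
            refine integral_mono_ae hm.integrable_sq hdom ?_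
            filter_upwards [hnull z, hnull z'] with w hw hw'
            have ha : 0 < ‖z - w‖ := norm_pos_iff.2 (sub_ne_zero.2 hw.symm)
            have hb : 0 < ‖z' - w‖ := norm_pos_iff.2 (sub_ne_zero.2 hw'.symm)
            have h5 := CC.log_sub_le hκ hκ1 ha hb
            have h6 : |‖z - w‖ - ‖z' - w‖| ≤ ‖z - z'‖ := by
              have := abs_norm_sub_norm_le (z - w) (z' - w)
              simpa using this
            have h7 : |‖z - w‖ - ‖z' - w‖| ^ κ ≤ ‖z - z'‖ ^ κ :=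
              Real.rpow_le_rpow (abs_nonneg _) h6 hκ.le
            have h8 : |Real.log ‖z - w‖ - Real.log ‖z' - w‖|
                ≤ (‖z - z'‖ ^ κ / κ) * (‖z - w‖ ^ (-κ) + ‖z' - w‖ ^ (-κ)) := by
              calc _ ≤ _ := h5
                _ ≤ (1 / κ) * ‖z - z'‖ ^ κ * (‖z - w‖ ^ (-κ) + ‖z' - w‖ ^ (-κ)) := by gcongr
                _ = _ := by ring
            have h9 : (Real.log ‖z - w‖ - Real.log ‖z' - w‖) ^ 2
                ≤ ((‖z - z'‖ ^ κ / κ) * (‖z - w‖ ^ (-κ) + ‖z' - w‖ ^ (-κ))) ^ 2 := by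
              rw [← sq_abs]
              exact pow_le_pow_left₀ (abs_nonneg _) h8 2
            refine h9.trans ?_
            rw [mul_pow]
            refine mul_le_mul_of_nonneg_left ?_ (sq_nonneg _)
            nlinarith [sq_nonneg (‖z - w‖ ^ (-κ) - ‖z' - w‖ ^ (-κ))]
        _ = (‖z - z'‖ ^ κ / κ) ^ 2 * (2 * (∫ w, (‖z - w‖ ^ (-κ)) ^ 2 ∂(mu0 n α P))
            + 2 * (∫ w, (‖z' - w‖ ^ (-κ)) ^ 2 ∂(mu0 n α P))) := by
            rw [integral_const_mul, integral_add ((hker z).1.const_mul 2)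
              ((hker z').1.const_mul 2), integral_const_mul, integral_const_mul]
        _ ≤ (‖z - z'‖ ^ κ / κ) ^ 2 * (4 * M) := by
            refine mul_le_mul_of_nonneg_left ?_ (sq_nonneg _)
            linarith [(hker z).2, (hker z').2]
    have h5 : √(∫ w, (Real.log ‖z - w‖ - Real.log ‖z' - w‖) ^ 2 ∂(mu0 n α P))
        ≤ ‖z - z'‖ ^ κ / κ * √(4 * M) := by
      calc _ ≤ √((‖z - z'‖ ^ κ / κ) ^ 2 * (4 * M)) := Real.sqrt_le_sqrt h4
        _ = _ := by rw [Real.sqrt_mul (sq_nonneg _), Real.sqrt_sq (by positivity)]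
    rw [h3, abs_mul, abs_neg, abs_of_pos (by positivity : 0 < 1 / gam n)]
    calc 1 / gam n * |∫ w, (Real.log ‖z - w‖ - Real.log ‖z' - w‖) * g w ∂(mu0 n α P)|
        ≤ 1 / gam n * ((‖z - z'‖ ^ κ / κ * √(4 * M)) * ‖g‖) := by
          gcongr
          exact h2.trans (mul_le_mul_of_nonneg_right h5 (norm_nonneg _))
      _ = _ := by ring
  set L := 1 / gam n * (√(4 * M) / κ * ‖g‖) with hL
  rw [continuous_iff_continuousAt]
  intro z0
  rw [ContinuousAt, tendsto_iff_norm_sub_tendsto_zero]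
  have hlim : Tendsto (fun z => L * ‖z - z0‖ ^ κ) (𝓝 z0) (𝓝 0) := by
    have : Continuous (fun z => L * ‖z - z0‖ ^ κ) :=
      continuous_const.mul ((continuous_id.sub continuous_const).norm.rpow_const
        fun _ => Or.inr hκ.le)
    have h := this.tendsto z0
    simpa [Real.zero_rpow hκ.ne'] using h
  exact squeeze_zero (fun _ => norm_nonneg _) (fun z => by
    rw [Real.norm_eq_abs]; exact hbd z z0) hlim

end Pool.Agent.QGlue
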