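import Pool.Agent.QGlue.Defs

set_option autoImplicit false

/-!
# D1: configuration estimates
-/

namespace Pool.Agent.QGlue

open MeasureTheory Real Set Filter Topology

section elem

/-- Taylor bound for the logarithm. -/
private theorem d1_log_taylor {X : ℝ} (h : |X| ≤ 1 / 2) :
    |Real.log (1 + X) - X| ≤ 2 * X ^ 2 := by
  have h1 := Real.abs_log_sub_add_sum_range_le (x := -X) (by rw [abs_neg]; linarith) 1
  simp only [Finset.range_one, Finset.sum_singleton, zero_add, pow_one, Nat.cast_zero, div_one,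
    sub_neg_eq_add, abs_neg] at h1
  have h2 : |X| ^ (1 + 1) / (1 - |X|) ≤ 2 * X ^ 2 := by
    rw [div_le_iff₀ (by linarith)]
    have : |X| ^ (1 + 1) = X ^ 2 := by norm_num
    rw [this]
    nlinarith [sq_nonneg X]
  have h3 : Real.log (1 + X) - X = -X + Real.log (1 + X) := by ring
  rw [h3]
  exact h1.trans h2

variable {n : ℕ}

private theorem d1_taylor (s : ℝ) (v h : E n) (hv : v ≠ 0) (hh : ‖h‖ ≤ ‖v‖ / 8) :
    |Real.log (s ^ 2 + ‖v + h‖ ^ 2) - Real.log (s ^ 2 + ‖v‖ ^ 2)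
      - 2 * inner ℝ v h / (s ^ 2 + ‖v‖ ^ 2)| ≤ 11 * ‖h‖ ^ 2 / ‖v‖ ^ 2 := by
  have hv0 : 0 < ‖v‖ := norm_pos_iff.2 hv
  set Q := s ^ 2 + ‖v‖ ^ 2 with hQ
  have hv2 : 0 < ‖v‖ ^ 2 := by positivity
  have hQpos : 0 < Q := by positivity
  have hQv : ‖v‖ ^ 2 ≤ Q := by rw [hQ]; nlinarith [sq_nonneg s]
  have hin : |inner ℝ v h| ≤ ‖v‖ * ‖h‖ := abs_real_inner_le_norm v h
  set X := (2 * inner ℝ v h + ‖h‖ ^ 2) / Q with hX
  have hexp : s ^ 2 + ‖v + h‖ ^ 2 = Q * (1 + X) := by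
    rw [norm_add_sq_real, hX, hQ]
    field_simp
    ring
  have habs : |2 * inner ℝ v h + ‖h‖ ^ 2| ≤ (17 / 8) * (‖v‖ * ‖h‖) := by
    have h1 : |2 * inner ℝ v h + ‖h‖ ^ 2| ≤ 2 * |inner ℝ v h| + ‖h‖ ^ 2 := by
      calc _ ≤ |2 * inner ℝ v h| + |‖h‖ ^ 2| := abs_add_le _ _
        _ = _ := by rw [abs_mul, abs_two, abs_of_nonneg (sq_nonneg ‖h‖)]
    nlinarith [norm_nonneg h]
  have hXle : |X| ≤ (17 / 8) * (‖h‖ / ‖v‖) := by
    rw [hX, abs_div, abs_of_pos hQpos, div_le_iff₀ hQpos]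
    calc _ ≤ (17 / 8) * (‖v‖ * ‖h‖) := habs
      _ = (17 / 8) * (‖h‖ / ‖v‖) * ‖v‖ ^ 2 := by field_simp
      _ ≤ _ := by
        apply mul_le_mul_of_nonneg_left hQv
        positivity
  have hhv : ‖h‖ / ‖v‖ ≤ 1 / 8 := by
    rw [div_le_iff₀ hv0]; linarith
  have hX2 : |X| ≤ 1 / 2 := by linarith
  have h1X : 0 < 1 + X := by linarith [(abs_le.1 hX2).1]
  have hlog : Real.log (s ^ 2 + ‖v + h‖ ^ 2) - Real.log Q = Real.log (1 + X) := by
    rw [hexp, Real.log_mul hQpos.ne' h1X.ne']; ring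
  rw [hlog]
  have hT := d1_log_taylor hX2
  have hXX : X ^ 2 ≤ (17 / 8) ^ 2 * (‖h‖ / ‖v‖) ^ 2 := by
    rw [← sq_abs X, ← mul_pow]
    exact pow_le_pow_left₀ (abs_nonneg X) hXle 2
  have hdiff : Real.log (1 + X) - 2 * inner ℝ v h / Q
      = (Real.log (1 + X) - X) + ‖h‖ ^ 2 / Q := by
    rw [hX]; field_simp; ring
  rw [hdiff]
  have hhQ : ‖h‖ ^ 2 / Q ≤ ‖h‖ ^ 2 / ‖v‖ ^ 2 := by
    apply div_le_div_of_nonneg_left (sq_nonneg _) hv2 hQv
  have hhQ0 : 0 ≤ ‖h‖ ^ 2 / Q := by positivity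
  calc |(Real.log (1 + X) - X) + ‖h‖ ^ 2 / Q|
      ≤ |Real.log (1 + X) - X| + |‖h‖ ^ 2 / Q| := abs_add_le _ _
    _ ≤ 2 * X ^ 2 + ‖h‖ ^ 2 / ‖v‖ ^ 2 := by
        rw [abs_of_nonneg hhQ0]; exact add_le_add hT hhQ
    _ ≤ 11 * ‖h‖ ^ 2 / ‖v‖ ^ 2 := by
        have hXX' : X ^ 2 ≤ (17 / 8) ^ 2 * (‖h‖ ^ 2 / ‖v‖ ^ 2) := by rw [← div_pow]; exact hXX
        have : 0 ≤ ‖h‖ ^ 2 / ‖v‖ ^ 2 := by positivity
        rw [mul_div_assoc]
        linarith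

/-- the same for the logarithm of the norm -/
private theorem d1_taylor0 (v h : E n) (hv : v ≠ 0) (hh : ‖h‖ ≤ ‖v‖ / 8) :
    |Real.log ‖v + h‖ - Real.log ‖v‖ - inner ℝ v h / ‖v‖ ^ 2| ≤ 11 * ‖h‖ ^ 2 / ‖v‖ ^ 2 := by
  have h1 := d1_taylor 0 v h hv hh
  rw [zero_pow two_ne_zero, zero_add, zero_add, Real.log_pow, Real.log_pow] at h1
  have e : (2 : ℕ) * Real.log ‖v + h‖ - (2 : ℕ) * Real.log ‖v‖ - 2 * inner ℝ v h / ‖v‖ ^ 2
      = 2 * (Real.log ‖v + h‖ - Real.log ‖v‖ - inner ℝ v h / ‖v‖ ^ 2) := by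
    push_cast; ring
  rw [e, abs_mul, abs_two] at h1
  have : 0 ≤ |Real.log ‖v + h‖ - Real.log ‖v‖ - inner ℝ v h / ‖v‖ ^ 2| := abs_nonneg _
  linarith

private theorem d1_coord (x : E n) (i : Fin n) : |x i| ≤ ‖x‖ := by
  have := PiLp.norm_apply_le x i
  rwa [Real.norm_eq_abs] at this

private theorem d1_inner (v h : E n) : inner ℝ v h = ∑ i, v i * h i := by
  rw [PiLp.inner_apply]
  refine Finset.sum_congr rfl fun i _ => ?_
  simp [mul_comm]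

private theorem d1_pol (P : Pol n) (x h : E n) :
    P.eval (x + h) - P.eval x - inner ℝ (P.grad x) h = - ∑ i, P.b i * h i ^ 2 := by
  rw [d1_inner, Pol.eval, Pol.eval, ← Finset.sum_sub_distrib, ← Finset.sum_sub_distrib,
    ← Finset.sum_neg_distrib]
  refine Finset.sum_congr rfl fun i _ => ?_
  simp only [Pol.grad, PiLp.add_apply]
  ring

private theorem d1_pol_bound (P : Pol n) (x h : E n) :
    |P.eval (x + h) - P.eval x - inner ℝ (P.grad x) h| ≤ (∑ i, P.b i) * ‖h‖ ^ 2 := by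
  rw [d1_pol, abs_neg, Finset.sum_mul]
  refine (Finset.abs_sum_le_sum_abs _ _).trans (Finset.sum_le_sum fun i _ => ?_)
  rw [abs_mul, abs_of_pos (P.hb i), abs_of_nonneg (sq_nonneg _)]
  apply mul_le_mul_of_nonneg_left _ (P.hb i).le
  rw [← sq_abs]
  exact pow_le_pow_left₀ (abs_nonneg _) (d1_coord h i) 2

private theorem d1_eval_bound (P : Pol n) {R : ℝ} (x : E n) (hx : ‖x‖ ≤ R) :
    |P.eval x| ≤ ∑ i, (|P.g i| * R + P.b i * R ^ 2) := by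
  rw [Pol.eval]
  refine (Finset.abs_sum_le_sum_abs _ _).trans (Finset.sum_le_sum fun i _ => ?_)
  have h1 := (d1_coord x i).trans hx
  calc |P.g i * x i - P.b i * x i ^ 2| ≤ |P.g i * x i| + |P.b i * x i ^ 2| := abs_sub _ _
    _ ≤ _ := by
      rw [abs_mul, abs_mul, abs_of_pos (P.hb i), abs_of_nonneg (sq_nonneg (x i))]
      apply add_le_add
      · exact mul_le_mul_of_nonneg_left h1 (abs_nonneg _)
      · apply mul_le_mul_of_nonneg_left _ (P.hb i).le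
        rw [← sq_abs]
        exact pow_le_pow_left₀ (abs_nonneg _) h1 2

private theorem d1_norm_le_sum (x : E n) : ‖x‖ ≤ ∑ i, |x i| := by
  have h0 : 0 ≤ ∑ i, |x i| := Finset.sum_nonneg fun i _ => abs_nonneg _
  rw [EuclideanSpace.norm_eq]
  rw [Real.sqrt_le_left h0]
  have : ∑ i, ‖x i‖ ^ 2 ≤ (∑ i, |x i|) ^ 2 := by
    have := Finset.sum_sq_le_sq_sum_of_nonneg (s := Finset.univ) (f := fun i => |x i|)
      (fun i _ => abs_nonneg _)
    simpa [Real.norm_eq_abs] using this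
  exact this

private theorem d1_grad_bound (P : Pol n) {R : ℝ} (x : E n) (hx : ‖x‖ ≤ R) :
    ‖P.grad x‖ ≤ ∑ i, (|P.g i| + 2 * P.b i * R) := by
  refine (d1_norm_le_sum _).trans (Finset.sum_le_sum fun i _ => ?_)
  have h1 := (d1_coord x i).trans hx
  simp only [Pol.grad]
  calc |P.g i - 2 * P.b i * x i| ≤ |P.g i| + |2 * P.b i * x i| := abs_sub _ _
    _ ≤ _ := by
      rw [abs_mul, abs_mul, abs_two, abs_of_pos (P.hb i)]
      gcongr
      have := (P.hb i).le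
      positivity

private theorem d1_log_bound {a b x : ℝ} (ha : 0 < a) (h1 : a ≤ x) (h2 : x ≤ b) :
    |Real.log x| ≤ |Real.log a| + |Real.log b| := by
  have hx : 0 < x := ha.trans_le h1
  have e1 := Real.log_le_log ha h1
  have e2 := Real.log_le_log hx h2
  rw [abs_le]
  constructor
  · have := neg_abs_le (Real.log a)
    have := abs_nonneg (Real.log b)
    linarith
  · have := le_abs_self (Real.log b)
    have := abs_nonneg (Real.log a)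
    linarith

end elem

section

variable {n : ℕ} {J : Type} [Fintype J] [DecidableEq J] (α : ℝ) (P : Pol n)

theorem cfg_geom (d δ2 ε : ℝ) (q : Par n J) (hq : q ∈ Qd d δ2 ε) (j : J) (x : E n)
    (hx : ‖x - q.1 j‖ < d / 8) : 7 / 8 * d ≤ ‖x‖ ∧ ‖x‖ ≤ 1 / d + d / 8 ∧
      ∀ i, i ≠ j → 7 / 8 * d ≤ ‖x - q.1 i‖ := by
  obtain ⟨h1, h2, h3, h4⟩ := hq
  have e1 : ‖q.1 j‖ ≤ ‖x‖ + ‖x - q.1 j‖ := by
    calc ‖q.1 j‖ = ‖x - (x - q.1 j)‖ := by congr 1; abel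
      _ ≤ _ := norm_sub_le _ _
  have e2 : ‖x‖ ≤ ‖q.1 j‖ + ‖x - q.1 j‖ := by
    calc ‖x‖ = ‖q.1 j + (x - q.1 j)‖ := by congr 1; abel
      _ ≤ _ := norm_add_le _ _
  refine ⟨by linarith [(h1 j).1], by linarith [(h1 j).2], fun i hi => ?_⟩
  have e3 : ‖q.1 j - q.1 i‖ ≤ ‖x - q.1 i‖ + ‖x - q.1 j‖ := by
    calc ‖q.1 j - q.1 i‖ = ‖(x - q.1 i) - (x - q.1 j)‖ := by congr 1; abel
      _ ≤ _ := norm_sub_le _ _
  have := h2 j i hi.symm
  linarith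

private theorem d1_dist_le {d δ2 ε : ℝ} {q : Par n J} (hq : q ∈ Qd d δ2 ε) (i j : J) :
    ‖q.1 i - q.1 j‖ ≤ 2 / d := by
  have h1 := (hq.1 i).2
  have h2 := (hq.1 j).2
  calc ‖q.1 i - q.1 j‖ ≤ ‖q.1 i‖ + ‖q.1 j‖ := norm_sub_le _ _
    _ ≤ 1 / d + 1 / d := add_le_add h1 h2
    _ = 2 / d := by ring

/-- the bound for the heights -/
private theorem d1_H (d : ℝ) (hd : 0 < d) : ∃ C : ℝ, 0 ≤ C ∧ ∀ ε δ2 : ℝ,
    ∀ q ∈ Qd (n := n) (J := J) d δ2 ε, ∀ j, |Hj α P q.1 j| ≤ C := by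
  refine ⟨|α| * (|Real.log d| + |Real.log (1 / d)|)
    + (∑ i, (|P.g i| * (1 / d) + P.b i * (1 / d) ^ 2))
    + Fintype.card J * (2 * (|Real.log d| + |Real.log (2 / d)|)), ?_, ?_⟩
  · have : 0 ≤ ∑ i, (|P.g i| * (1 / d) + P.b i * (1 / d) ^ 2) :=
      Finset.sum_nonneg fun i _ => by
        have := (P.hb i).le
        positivity
    positivity
  · intro ε δ2 q hq j
    have h1 := d1_log_bound hd (hq.1 j).1 (hq.1 j).2
    have h2 := d1_eval_bound P (q.1 j) (hq.1 j).2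
    have h3 : |∑ i ∈ Finset.univ.erase j, 2 * Real.log ‖q.1 j - q.1 i‖|
        ≤ Fintype.card J * (2 * (|Real.log d| + |Real.log (2 / d)|)) := by
      refine (Finset.abs_sum_le_sum_abs _ _).trans ?_
      calc _ ≤ ∑ i ∈ Finset.univ.erase j, 2 * (|Real.log d| + |Real.log (2 / d)|) := by
            apply Finset.sum_le_sum
            intro i hi
            rw [abs_mul, abs_two]
            have := d1_log_bound hd (hq.2.1 j i (Finset.ne_of_mem_erase hi).symm)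
              (d1_dist_le hq j i)
            linarith
        _ ≤ _ := by
            rw [Finset.sum_const, nsmul_eq_mul]
            apply mul_le_mul_of_nonneg_right _ (by positivity)
            exact_mod_cast (Finset.card_le_card (Finset.erase_subset _ _))
    rw [Hj]
    calc _ ≤ |α * Real.log ‖q.1 j‖ + P.eval (q.1 j)|
          + |∑ i ∈ Finset.univ.erase j, 2 * Real.log ‖q.1 j - q.1 i‖| := abs_sub _ _
      _ ≤ |α * Real.log ‖q.1 j‖| + |P.eval (q.1 j)|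
          + |∑ i ∈ Finset.univ.erase j, 2 * Real.log ‖q.1 j - q.1 i‖| := by
          gcongr; exact abs_add_le _ _
      _ ≤ _ := by
          rw [abs_mul]
          gcongr

private theorem d1_D (d : ℝ) (hd : 0 < d) : ∃ C : ℝ, 0 ≤ C ∧ ∀ ε δ2 : ℝ,
    ∀ q ∈ Qd (n := n) (J := J) d δ2 ε, ∀ j, ‖Dj α P q.1 j‖ ≤ C := by
  refine ⟨|α| / d + (∑ i, (|P.g i| + 2 * P.b i * (1 / d))) + Fintype.card J * (2 / d), ?_, ?_⟩
  · have : 0 ≤ ∑ i, (|P.g i| + 2 * P.b i * (1 / d)) :=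
      Finset.sum_nonneg fun i _ => by
        have := (P.hb i).le
        positivity
    positivity
  · intro ε δ2 q hq j
    have h0 : 0 < ‖q.1 j‖ := hd.trans_le (hq.1 j).1
    have h1 : ‖(α / ‖q.1 j‖ ^ 2) • q.1 j‖ ≤ |α| / d := by
      rw [norm_smul, Real.norm_eq_abs, abs_div, abs_of_nonneg (sq_nonneg ‖q.1 j‖)]
      have : |α| / ‖q.1 j‖ ^ 2 * ‖q.1 j‖ = |α| / ‖q.1 j‖ := by field_simp
      rw [this]
      exact div_le_div_of_nonneg_left (abs_nonneg _) hd (hq.1 j).1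
    have h2 := d1_grad_bound P (q.1 j) (hq.1 j).2
    have h3 : ‖∑ i ∈ Finset.univ.erase j, (2 / ‖q.1 j - q.1 i‖ ^ 2) • (q.1 j - q.1 i)‖
        ≤ Fintype.card J * (2 / d) := by
      refine (norm_sum_le _ _).trans ?_
      calc _ ≤ ∑ i ∈ Finset.univ.erase j, 2 / d := by
            apply Finset.sum_le_sum
            intro i hi
            have hdi := hq.2.1 j i (Finset.ne_of_mem_erase hi).symm
            have hpos : 0 < ‖q.1 j - q.1 i‖ := hd.trans_le hdi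
            rw [norm_smul, Real.norm_eq_abs, abs_div, abs_two,
              abs_of_nonneg (sq_nonneg ‖q.1 j - q.1 i‖)]
            have : 2 / ‖q.1 j - q.1 i‖ ^ 2 * ‖q.1 j - q.1 i‖ = 2 / ‖q.1 j - q.1 i‖ := by
              field_simp
            rw [this]
            exact div_le_div_of_nonneg_left (by norm_num) hd hdi
        _ ≤ _ := by
            rw [Finset.sum_const, nsmul_eq_mul]
            apply mul_le_mul_of_nonneg_right _ (by positivity)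
            exact_mod_cast (Finset.card_le_card (Finset.erase_subset _ _))
    rw [Dj]
    calc _ ≤ ‖(α / ‖q.1 j‖ ^ 2) • q.1 j + P.grad (q.1 j)‖
          + ‖∑ i ∈ Finset.univ.erase j, (2 / ‖q.1 j - q.1 i‖ ^ 2) • (q.1 j - q.1 i)‖ :=
          norm_sub_le _ _
      _ ≤ ‖(α / ‖q.1 j‖ ^ 2) • q.1 j‖ + ‖P.grad (q.1 j)‖
          + ‖∑ i ∈ Finset.univ.erase j, (2 / ‖q.1 j - q.1 i‖ ^ 2) • (q.1 j - q.1 i)‖ := by
          gcongr; exact norm_add_le _ _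
      _ ≤ _ := by gcongr

theorem cfg_scale (d : ℝ) (hd : 0 < d) : ∃ C : ℝ, 0 < C ∧ ∀ ε, 0 < ε → ∀ δ2 ≤ (1 : ℝ),
    ∀ q ∈ Qd (n := n) (J := J) d δ2 ε, ∀ j,
      ε / C ≤ epj α P ε q j ∧ epj α P ε q j ≤ C * ε ∧ ‖Dj α P q.1 j‖ ≤ C := by
  obtain ⟨C1, hC1, hH⟩ := d1_H (J := J) α P d hd
  obtain ⟨C2, hC2, hD⟩ := d1_D (J := J) α P d hd
  refine ⟨Real.exp (C1 + 1) + C2, by positivity, ?_⟩
  intro ε hε δ2 hδ2 q hq j
  have h1 := abs_le.1 (hH ε δ2 q hq j)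
  have h2 := abs_le.1 (hq.2.2.1 j)
  have h3 := hD ε δ2 q hq j
  have he := Real.exp_pos (C1 + 1)
  refine ⟨?_, ?_, by linarith⟩
  · rw [epj, div_le_iff₀ (by positivity)]
    have e1 : 1 ≤ Real.exp (Hj α P q.1 j - q.2.1 j) * Real.exp (C1 + 1) := by
      rw [← Real.exp_add]
      exact Real.one_le_exp (by linarith)
    have e2 : 0 ≤ Real.exp (Hj α P q.1 j - q.2.1 j) * C2 := by positivity
    nlinarith
  · rw [epj]
    have e1 : Real.exp (Hj α P q.1 j - q.2.1 j) ≤ Real.exp (C1 + 1) :=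
      Real.exp_le_exp.2 (by linarith)
    nlinarith

theorem cfg_out (d : ℝ) (hd : 0 < d) : ∃ C : ℝ, 0 < C ∧ ∀ ε, 0 < ε → ε ≤ 1 → ∀ δ2 : ℝ,
    ∀ q ∈ Qd (n := n) (J := J) d δ2 ε, ∀ z ∈ outR (d / 8) q, Wf α P ε q z ≤ C := by
  refine ⟨Fintype.card J * (2 * |Real.log ((d / 8) ^ 2)|) + 1, by positivity, ?_⟩
  intro ε hε hε1 δ2 q hq z hz
  have h1 : Wf α P ε q z ≤ ∑ _j : J, 2 * |Real.log ((d / 8) ^ 2)| := by
    rw [Wf, ← Finset.sum_neg_distrib]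
    apply Finset.sum_le_sum
    intro j _
    have hm := abs_le.1 (hq.2.2.2 j)
    have hz' := hz j
    have h2 : (d / 8) ^ 2 ≤ epj α P ε q j ^ 2 + ‖z - q.1 j‖ ^ 2 := by
      have : (d / 8) ^ 2 ≤ ‖z - q.1 j‖ ^ 2 := pow_le_pow_left₀ (by positivity) hz' 2
      nlinarith [sq_nonneg (epj α P ε q j)]
    have h3 := Real.log_le_log (by positivity) h2
    have h4 := neg_abs_le (Real.log ((d / 8) ^ 2))
    have h5 : -Real.log (epj α P ε q j ^ 2 + ‖z - q.1 j‖ ^ 2) ≤ |Real.log ((d / 8) ^ 2)| := by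
      linarith
    have h6 : 0 ≤ 1 + q.2.2 j := by linarith
    have h7 : 1 + q.2.2 j ≤ 2 := by linarith
    have h8 := abs_nonneg (Real.log ((d / 8) ^ 2))
    nlinarith
  rw [Finset.sum_const, nsmul_eq_mul, Finset.card_univ] at h1
  linarith

private theorem d1_epj_pos (ε : ℝ) (hε : 0 < ε) (q : Par n J) (j : J) : 0 < epj α P ε q j :=
  mul_pos hε (Real.exp_pos _)

private theorem d1_hj_eq (ε : ℝ) (q : Par n J) (j : J) (x : E n) :
    hj α P ε q j x = α * Real.log ‖x‖ + P.eval x + Wf α P ε q x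
      + Real.log (epj α P ε q j ^ 2 + ‖x - q.1 j‖ ^ 2) - (Hj α P q.1 j - q.2.1 j) := by
  have h := Finset.add_sum_erase Finset.univ
    (fun i => (1 + q.2.2 i) * Real.log (epj α P ε q i ^ 2 + ‖x - q.1 i‖ ^ 2)) (Finset.mem_univ j)
  rw [hj, Wf, ← h]
  ring

/-- The two expressions of the density agree. -/
theorem cfg_id (hn : n = 3 ∨ n = 4) (ε : ℝ) (hε : 0 < ε) (q : Par n J) (j : J) (x : E n)
    (hx : x ≠ 0) :
    2 * gam n * ((epj α P ε q j)⁻¹ ^ n * bub n ((epj α P ε q j)⁻¹ • (x - q.1 j)))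
        * Real.exp (n * hj α P ε q j x)
      = ‖x‖ ^ (n * α) * Real.exp (n * (Wf α P ε q x + P.eval x + c0 n ε)) := by
  have hs := d1_epj_pos α P ε hε q j
  set s := epj α P ε q j with hsdef
  have hn0 : (n : ℝ) ≠ 0 := by rcases hn with rfl | rfl <;> norm_num
  have hG : 0 < 2 * gam n * cN n := by
    rcases hn with rfl | rfl
    · simp only [gam, cN, if_true]; positivity
    · have : ¬ ((4 : ℕ) = 3) := by norm_num
      simp only [gam, cN, if_neg this]; positivity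
  have hx0 : 0 < ‖x‖ := norm_pos_iff.2 hx
  set r2 := ‖x - q.1 j‖ ^ 2 with hr2
  have hr : 0 ≤ r2 := by positivity
  have hsr : 0 < s ^ 2 + r2 := by positivity
  -- the bubble
  have hb : s⁻¹ ^ n * bub n (s⁻¹ • (x - q.1 j)) = cN n * (2 * s / (s ^ 2 + r2)) ^ n := by
    have h1 : ‖s⁻¹ • (x - q.1 j)‖ ^ 2 = r2 / s ^ 2 := by
      rw [norm_smul, mul_pow, Real.norm_eq_abs, sq_abs, inv_pow, hr2]
      field_simp
    rw [bub, h1]
    have h2 : 2 * s / (s ^ 2 + r2) = s⁻¹ * (2 / (1 + r2 / s ^ 2)) := by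
      field_simp
    rw [h2, mul_pow]
    ring
  rw [hb, d1_hj_eq, ← hsdef, ← hr2]
  -- exponentials
  have e0 : Real.exp (n * (α * Real.log ‖x‖ + P.eval x + Wf α P ε q x + Real.log (s ^ 2 + r2)
      - (Hj α P q.1 j - q.2.1 j)))
      = ‖x‖ ^ (n * α) * Real.exp (n * (Wf α P ε q x + P.eval x)) * (s ^ 2 + r2) ^ n
        * Real.exp (-(Hj α P q.1 j - q.2.1 j)) ^ n := by
    rw [Real.rpow_def_of_pos hx0, ← Real.exp_nat_mul, ← Real.exp_log (pow_pos hsr n),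
      Real.log_pow, ← Real.exp_add, ← Real.exp_add, ← Real.exp_add]
    congr 1
    ring
  have e1 : Real.exp (n * (Wf α P ε q x + P.eval x + c0 n ε))
      = Real.exp (n * (Wf α P ε q x + P.eval x)) * ((2 * ε) ^ n * (2 * gam n * cN n)) := by
    rw [c0, ← Real.exp_log (pow_pos (by positivity : 0 < 2 * ε) n), ← Real.exp_log hG,
      Real.log_pow, ← Real.exp_add, ← Real.exp_add, Real.exp_log hG]
    congr 1
    field_simp
  have e2 : s * Real.exp (-(Hj α P q.1 j - q.2.1 j)) = ε := by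
    rw [hsdef, epj, mul_assoc, ← Real.exp_add, add_neg_cancel, Real.exp_zero, mul_one]
  rw [e0, e1]
  have e3 : (2 * s / (s ^ 2 + r2)) ^ n * ((s ^ 2 + r2) ^ n
      * Real.exp (-(Hj α P q.1 j - q.2.1 j)) ^ n) = (2 * ε) ^ n := by
    rw [← mul_pow, ← mul_pow]
    congr 1
    rw [← e2]
    field_simp
  calc _ = 2 * gam n * cN n * (‖x‖ ^ (n * α) * Real.exp (n * (Wf α P ε q x + P.eval x)))
        * ((2 * s / (s ^ 2 + r2)) ^ n * ((s ^ 2 + r2) ^ n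
          * Real.exp (-(Hj α P q.1 j - q.2.1 j)) ^ n)) := by ring
    _ = _ := by rw [e3]; ring

/-- one interaction term -/
private theorem d1_R {d C1 ε e m : ℝ} (hd : 0 < d) (hC1 : 0 < C1) (hε : 0 < ε) (hε1 : ε ≤ 1)
    (he : 0 < e) (heC : e ≤ C1 * ε) (hm : |m| ≤ ε) (v h : E n) (hv : d ≤ ‖v‖)
    (hh : ‖h‖ ≤ d / 8) {Y : ℝ} (hY : ‖h‖ ≤ C1 * ε * Y) (hY2 : ‖h‖ ^ 2 ≤ C1 ^ 2 * ε ^ 2 * Y) :
    |(1 + m) * (Real.log (e ^ 2 + ‖v + h‖ ^ 2) - Real.log (e ^ 2 + ‖v‖ ^ 2))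
      - 2 * inner ℝ v h / ‖v‖ ^ 2|
      ≤ (22 * C1 ^ 2 / d ^ 2 + 2 * C1 * (1 / d + C1 ^ 2 / d ^ 3)) * (ε ^ 2 * Y) := by
  have hv0 : 0 < ‖v‖ := hd.trans_le hv
  have hvne : v ≠ 0 := norm_pos_iff.1 hv0
  have hT := d1_taylor e v h hvne (by linarith)
  set Q := e ^ 2 + ‖v‖ ^ 2 with hQ
  have hQpos : 0 < Q := by positivity
  have hQv : ‖v‖ ^ 2 ≤ Q := by rw [hQ]; nlinarith [sq_nonneg e]
  set T := Real.log (e ^ 2 + ‖v + h‖ ^ 2) - Real.log Q - 2 * inner ℝ v h / Q with hTdef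
  have hsplit : (1 + m) * (Real.log (e ^ 2 + ‖v + h‖ ^ 2) - Real.log Q)
      - 2 * inner ℝ v h / ‖v‖ ^ 2
      = (1 + m) * T + 2 * inner ℝ v h * ((m * ‖v‖ ^ 2 - e ^ 2) / (Q * ‖v‖ ^ 2)) := by
    rw [hTdef]
    have : (m * ‖v‖ ^ 2 - e ^ 2) / (Q * ‖v‖ ^ 2) = (1 + m) / Q - 1 / ‖v‖ ^ 2 := by
      rw [div_sub_div _ _ hQpos.ne' (by positivity)]
      congr 1
      rw [hQ]; ring
    rw [this]
    ring
  have hin : |inner ℝ v h| ≤ ‖v‖ * ‖h‖ := abs_real_inner_le_norm v h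
  have hm' := abs_le.1 hm
  have h1m : |1 + m| ≤ 2 := by rw [abs_le]; constructor <;> linarith
  have hv2 : 0 < ‖v‖ ^ 2 := by positivity
  have hd2 : d ^ 2 ≤ ‖v‖ ^ 2 := pow_le_pow_left₀ hd.le hv 2
  -- first part
  have p1 : |(1 + m) * T| ≤ 22 * C1 ^ 2 / d ^ 2 * (ε ^ 2 * Y) := by
    rw [abs_mul]
    calc |1 + m| * |T| ≤ 2 * (11 * ‖h‖ ^ 2 / ‖v‖ ^ 2) :=
          mul_le_mul h1m hT (abs_nonneg _) (by norm_num)
      _ ≤ 2 * (11 * ‖h‖ ^ 2 / d ^ 2) := by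
          gcongr
      _ ≤ 2 * (11 * (C1 ^ 2 * ε ^ 2 * Y) / d ^ 2) := by
          gcongr
      _ = _ := by ring
  -- second part
  have p2 : |2 * inner ℝ v h * ((m * ‖v‖ ^ 2 - e ^ 2) / (Q * ‖v‖ ^ 2))|
      ≤ 2 * C1 * (1 / d + C1 ^ 2 / d ^ 3) * (ε ^ 2 * Y) := by
    have q1 : |m * ‖v‖ ^ 2 - e ^ 2| ≤ ε * ‖v‖ ^ 2 + C1 ^ 2 * ε := by
      calc _ ≤ |m * ‖v‖ ^ 2| + |e ^ 2| := abs_sub _ _
        _ ≤ _ := by
          rw [abs_mul, abs_of_pos hv2, abs_of_nonneg (sq_nonneg e)]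
          have : e ^ 2 ≤ C1 ^ 2 * ε := by
            calc e ^ 2 ≤ (C1 * ε) ^ 2 := pow_le_pow_left₀ he.le heC 2
              _ = C1 ^ 2 * ε * ε := by ring
              _ ≤ C1 ^ 2 * ε * 1 := by gcongr
              _ = _ := by ring
          gcongr
    have q2 : |(m * ‖v‖ ^ 2 - e ^ 2) / (Q * ‖v‖ ^ 2)| * ‖v‖ ≤ ε * (1 / d + C1 ^ 2 / d ^ 3) := by
      rw [abs_div, abs_of_pos (by positivity : 0 < Q * ‖v‖ ^ 2)]
      calc |m * ‖v‖ ^ 2 - e ^ 2| / (Q * ‖v‖ ^ 2) * ‖v‖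
          ≤ (ε * ‖v‖ ^ 2 + C1 ^ 2 * ε) / (‖v‖ ^ 2 * ‖v‖ ^ 2) * ‖v‖ := by gcongr
        _ = ε * (1 / ‖v‖ + C1 ^ 2 / ‖v‖ ^ 3) := by field_simp
        _ ≤ _ := by gcongr
    calc |2 * inner ℝ v h * ((m * ‖v‖ ^ 2 - e ^ 2) / (Q * ‖v‖ ^ 2))|
        = 2 * |inner ℝ v h| * |(m * ‖v‖ ^ 2 - e ^ 2) / (Q * ‖v‖ ^ 2)| := by
          rw [abs_mul, abs_mul, abs_two]
      _ ≤ 2 * (‖v‖ * ‖h‖) * |(m * ‖v‖ ^ 2 - e ^ 2) / (Q * ‖v‖ ^ 2)| := by gcongr
      _ = 2 * ‖h‖ * (|(m * ‖v‖ ^ 2 - e ^ 2) / (Q * ‖v‖ ^ 2)| * ‖v‖) := by ring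
      _ ≤ 2 * (C1 * ε * Y) * (ε * (1 / d + C1 ^ 2 / d ^ 3)) := by
          apply mul_le_mul (by linarith) q2 (by positivity)
          have := norm_nonneg h
          linarith
      _ = _ := by ring
  rw [hsplit]
  calc _ ≤ |(1 + m) * T| + |2 * inner ℝ v h * ((m * ‖v‖ ^ 2 - e ^ 2) / (Q * ‖v‖ ^ 2))| :=
        abs_add_le _ _
    _ ≤ _ := (add_le_add p1 p2).trans (le_of_eq (by ring))

/-- the size of the constant term of one interaction -/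
private theorem d1_A {d C1 ε e m V : ℝ} (hd : 0 < d) (hC1 : 0 < C1) (hε : 0 < ε) (hε1 : ε ≤ 1)
    (he : 0 < e) (heC : e ≤ C1 * ε) (hm : |m| ≤ ε) (hv : d ≤ V) (hV : V ≤ 2 / d) :
    |(1 + m) * Real.log (e ^ 2 + V ^ 2) - 2 * Real.log V|
      ≤ (|Real.log (d ^ 2)| + |Real.log (C1 ^ 2 + (2 / d) ^ 2)| + C1 ^ 2 / d ^ 2) * ε := by
  have hV0 : 0 < V := hd.trans_le hv
  have hd2 : d ^ 2 ≤ V ^ 2 := pow_le_pow_left₀ hd.le hv 2
  have hV2 : V ^ 2 ≤ (2 / d) ^ 2 := pow_le_pow_left₀ hV0.le hV 2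
  have he2 : e ^ 2 ≤ C1 ^ 2 * ε := by
    calc e ^ 2 ≤ (C1 * ε) ^ 2 := pow_le_pow_left₀ he.le heC 2
      _ = C1 ^ 2 * ε * ε := by ring
      _ ≤ C1 ^ 2 * ε * 1 := by gcongr
      _ = _ := by ring
  have he3 : e ^ 2 ≤ C1 ^ 2 := by
    calc e ^ 2 ≤ C1 ^ 2 * ε := he2
      _ ≤ C1 ^ 2 * 1 := by gcongr
      _ = _ := by ring
  have h1 := d1_log_bound (a := d ^ 2) (b := C1 ^ 2 + (2 / d) ^ 2) (x := e ^ 2 + V ^ 2)
    (by positivity) (by nlinarith [sq_nonneg e]) (by linarith)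
  have h2 : |Real.log (e ^ 2 + V ^ 2) - 2 * Real.log V| ≤ C1 ^ 2 / d ^ 2 * ε := by
    have e1 : 2 * Real.log V = Real.log (V ^ 2) := by rw [Real.log_pow]; norm_num
    rw [e1, ← Real.log_div (by positivity) (by positivity)]
    have e2 : (e ^ 2 + V ^ 2) / V ^ 2 = 1 + e ^ 2 / V ^ 2 := by field_simp; ring
    rw [e2]
    have e3 : 0 ≤ e ^ 2 / V ^ 2 := by positivity
    rw [abs_of_nonneg (Real.log_nonneg (by linarith))]
    calc _ ≤ (1 + e ^ 2 / V ^ 2) - 1 := Real.log_le_sub_one_of_pos (by positivity)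
      _ = e ^ 2 / V ^ 2 := by ring
      _ ≤ C1 ^ 2 * ε / d ^ 2 := by gcongr
      _ = _ := by ring
  have h3 : (1 + m) * Real.log (e ^ 2 + V ^ 2) - 2 * Real.log V
      = m * Real.log (e ^ 2 + V ^ 2) + (Real.log (e ^ 2 + V ^ 2) - 2 * Real.log V) := by ring
  rw [h3]
  calc _ ≤ |m * Real.log (e ^ 2 + V ^ 2)| + |Real.log (e ^ 2 + V ^ 2) - 2 * Real.log V| :=
        abs_add_le _ _
    _ ≤ ε * (|Real.log (d ^ 2)| + |Real.log (C1 ^ 2 + (2 / d) ^ 2)|) + C1 ^ 2 / d ^ 2 * ε := by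
        rw [abs_mul]
        gcongr
    _ = _ := by ring

theorem cfg_est (d σ : ℝ) (hd : 0 < d) (hσ : 0 < σ) : ∃ ε0 C : ℝ, 0 < ε0 ∧ 0 < C ∧
    ∀ ε, 0 < ε → ε < ε0 → ∀ δ2 ≤ (1 : ℝ), ∀ q ∈ Qd (n := n) (J := J) d δ2 ε, ∀ j,
      ∃ A : ℝ, |A - q.2.1 j| ≤ σ ∧ ∀ y, ‖epj α P ε q j • y‖ < d / 8 →
        |hj α P ε q j (q.1 j + epj α P ε q j • y)
          - (A + epj α P ε q j * inner ℝ (Dj α P q.1 j) y
              - q.2.2 j * Real.log (1 + ‖y‖ ^ 2))| ≤ C * ε ^ 2 * (1 + ‖y‖ ^ 2) := by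
  obtain ⟨C1, hC1, hsc⟩ := cfg_scale (J := J) α P d hd
  set L : ℝ := |Real.log (d ^ 2)| + |Real.log (C1 ^ 2 + (2 / d) ^ 2)| + C1 ^ 2 / d ^ 2 with hL
  have hL0 : 0 ≤ L := by positivity
  -- the small parameter
  obtain ⟨ε1, hε1, hF⟩ : ∃ ε1 : ℝ, 0 < ε1 ∧ ∀ ε, 0 < ε → ε < ε1 →
      Fintype.card J * (L * ε) + 2 * (ε * |Real.log C1|) + 2 * |ε * Real.log ε| ≤ σ := by
    have hc : Continuous (fun ε : ℝ => Fintype.card J * (L * ε) + 2 * (ε * |Real.log C1|)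
        + 2 * |ε * Real.log ε|) := by
      have := Real.continuous_mul_log
      fun_prop
    have h0 := (Metric.continuous_iff.1 hc) 0 σ hσ
    obtain ⟨δ, hδ, h⟩ := h0
    refine ⟨δ, hδ, fun ε hε hεδ => ?_⟩
    have := h ε (by rw [Real.dist_eq, sub_zero, abs_of_pos hε]; exact hεδ)
    simp only [mul_zero, zero_mul, abs_zero, add_zero, Real.dist_eq, sub_zero] at this
    exact (le_abs_self _).trans this.le
  set K : ℝ := 22 * C1 ^ 2 / d ^ 2 + 2 * C1 * (1 / d + C1 ^ 2 / d ^ 3) with hK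
  have hK0 : 0 ≤ K := by positivity
  have hb0 : 0 ≤ ∑ i, P.b i := Finset.sum_nonneg fun i _ => (P.hb i).le
  refine ⟨min 1 ε1, |α| * (11 * C1 ^ 2 / d ^ 2) + (∑ i, P.b i) * C1 ^ 2
    + Fintype.card J * K + 1, by positivity, by positivity, ?_⟩
  intro ε hε hε0 δ2 hδ2 q hq j
  have hε1' : ε ≤ 1 := (hε0.trans_le (min_le_left _ _)).le
  have hεF := hF ε hε (hε0.trans_le (min_le_right _ _))
  have hpos := fun i => d1_epj_pos α P ε hε q i
  have hle := fun i => (hsc ε hε δ2 hδ2 q hq i).2.1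
  have hge := fun i => (hsc ε hε δ2 hδ2 q hq i).1
  refine ⟨α * Real.log ‖q.1 j‖ + P.eval (q.1 j)
    - ∑ i ∈ Finset.univ.erase j, (1 + q.2.2 i)
        * Real.log (epj α P ε q i ^ 2 + ‖q.1 j - q.1 i‖ ^ 2)
    - (Hj α P q.1 j - q.2.1 j) - 2 * q.2.2 j * Real.log (epj α P ε q j), ?_, ?_⟩
  · -- the constant term
    have e1 : α * Real.log ‖q.1 j‖ + P.eval (q.1 j)
        - ∑ i ∈ Finset.univ.erase j, (1 + q.2.2 i)
            * Real.log (epj α P ε q i ^ 2 + ‖q.1 j - q.1 i‖ ^ 2)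
        - (Hj α P q.1 j - q.2.1 j) - 2 * q.2.2 j * Real.log (epj α P ε q j) - q.2.1 j
        = - (∑ i ∈ Finset.univ.erase j, ((1 + q.2.2 i)
            * Real.log (epj α P ε q i ^ 2 + ‖q.1 j - q.1 i‖ ^ 2)
              - 2 * Real.log ‖q.1 j - q.1 i‖))
          - 2 * (q.2.2 j * Real.log (epj α P ε q j)) := by
      rw [Hj, Finset.sum_sub_distrib]; ring
    rw [e1]
    have e2 : |∑ i ∈ Finset.univ.erase j, ((1 + q.2.2 i)
            * Real.log (epj α P ε q i ^ 2 + ‖q.1 j - q.1 i‖ ^ 2)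
              - 2 * Real.log ‖q.1 j - q.1 i‖)| ≤ Fintype.card J * (L * ε) := by
      refine (Finset.abs_sum_le_sum_abs _ _).trans ?_
      calc _ ≤ ∑ i ∈ Finset.univ.erase j, L * ε := by
            apply Finset.sum_le_sum
            intro i hi
            exact d1_A hd hC1 hε hε1' (hpos i) (hle i) (hq.2.2.2 i)
              (hq.2.1 j i (Finset.ne_of_mem_erase hi).symm) (d1_dist_le hq j i)
        _ ≤ _ := by
            rw [Finset.sum_const, nsmul_eq_mul]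
            apply mul_le_mul_of_nonneg_right _ (by positivity)
            exact_mod_cast (Finset.card_le_card (Finset.erase_subset _ _))
    have e3 : |Real.log (epj α P ε q j)| ≤ |Real.log ε| + |Real.log C1| := by
      have h1 := Real.log_le_log (hpos j) (hle j)
      rw [Real.log_mul hC1.ne' hε.ne'] at h1
      have h2 := Real.log_le_log (by positivity) (hge j)
      rw [Real.log_div hε.ne' hC1.ne'] at h2
      have a1 := neg_abs_le (Real.log ε)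
      have a2 := neg_abs_le (Real.log C1)
      have a3 := le_abs_self (Real.log ε)
      have a4 := le_abs_self (Real.log C1)
      rw [abs_le]; constructor <;> linarith
    have e4 : |q.2.2 j * Real.log (epj α P ε q j)| ≤ |ε * Real.log ε| + ε * |Real.log C1| := by
      rw [abs_mul, abs_mul, abs_of_pos hε, ← mul_add]
      exact mul_le_mul (hq.2.2.2 j) e3 (abs_nonneg _) hε.le
    calc _ ≤ |-(∑ i ∈ Finset.univ.erase j, ((1 + q.2.2 i)
            * Real.log (epj α P ε q i ^ 2 + ‖q.1 j - q.1 i‖ ^ 2)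
              - 2 * Real.log ‖q.1 j - q.1 i‖))|
            + |2 * (q.2.2 j * Real.log (epj α P ε q j))| := abs_sub _ _
      _ ≤ Fintype.card J * (L * ε) + 2 * (|ε * Real.log ε| + ε * |Real.log C1|) := by
          rw [abs_neg, abs_mul 2, abs_two]
          gcongr
      _ ≤ σ := by linarith
  · intro y hy
    set s := epj α P ε q j with hs
    set h := s • y with hh
    have hs0 : 0 < s := hpos j
    have hnh : ‖h‖ = s * ‖y‖ := by rw [hh, norm_smul, Real.norm_eq_abs, abs_of_pos hs0]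
    have hY1 : ‖h‖ ≤ C1 * ε * (1 + ‖y‖ ^ 2) := by
      rw [hnh]
      have : ‖y‖ ≤ 1 + ‖y‖ ^ 2 := by nlinarith [sq_nonneg (‖y‖ - 1), norm_nonneg y]
      exact mul_le_mul (hle j) this (norm_nonneg _) (by positivity)
    have hY2 : ‖h‖ ^ 2 ≤ C1 ^ 2 * ε ^ 2 * (1 + ‖y‖ ^ 2) := by
      rw [hnh, mul_pow]
      have h1 : s ^ 2 ≤ C1 ^ 2 * ε ^ 2 := by
        calc s ^ 2 ≤ (C1 * ε) ^ 2 := pow_le_pow_left₀ hs0.le (hle j) 2
          _ = _ := by ring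
      exact mul_le_mul h1 (by linarith) (by positivity) (by positivity)
    have hξ0 : 0 < ‖q.1 j‖ := hd.trans_le (hq.1 j).1
    have hξ : q.1 j ≠ 0 := norm_pos_iff.1 hξ0
    -- the terms
    have t0 := d1_taylor0 (q.1 j) h hξ (by linarith [(hq.1 j).1])
    have t1 := d1_pol_bound P (q.1 j) h
    have t2 : ∀ i ∈ Finset.univ.erase j, |(1 + q.2.2 i)
        * (Real.log (epj α P ε q i ^ 2 + ‖(q.1 j - q.1 i) + h‖ ^ 2)
          - Real.log (epj α P ε q i ^ 2 + ‖q.1 j - q.1 i‖ ^ 2))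
        - 2 * inner ℝ (q.1 j - q.1 i) h / ‖q.1 j - q.1 i‖ ^ 2|
        ≤ K * (ε ^ 2 * (1 + ‖y‖ ^ 2)) := by
      intro i hi
      exact d1_R hd hC1 hε hε1' (hpos i) (hle i) (hq.2.2.2 i) _ h
        (hq.2.1 j i (Finset.ne_of_mem_erase hi).symm) hy.le hY1 hY2
    -- the inner product with `Dj`
    have hD : s * inner ℝ (Dj α P q.1 j) y = α * (inner ℝ (q.1 j) h / ‖q.1 j‖ ^ 2)
        + inner ℝ (P.grad (q.1 j)) h
        - ∑ i ∈ Finset.univ.erase j, 2 * inner ℝ (q.1 j - q.1 i) h / ‖q.1 j - q.1 i‖ ^ 2 := by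
      have e1 : s * inner ℝ (Dj α P q.1 j) y = inner ℝ (Dj α P q.1 j) h := by
        rw [hh, real_inner_smul_right]
      rw [e1, Dj, inner_sub_left, inner_add_left, sum_inner, real_inner_smul_left]
      congr 1
      · ring
      · refine Finset.sum_congr rfl fun i _ => ?_
        rw [real_inner_smul_left]
        ring
    -- the logarithm at the own bubble
    have hown : Real.log (s ^ 2 + ‖(q.1 j + h) - q.1 j‖ ^ 2)
        = 2 * Real.log s + Real.log (1 + ‖y‖ ^ 2) := by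
      rw [add_sub_cancel_left, hnh]
      have : s ^ 2 + (s * ‖y‖) ^ 2 = s ^ 2 * (1 + ‖y‖ ^ 2) := by ring
      rw [this, Real.log_mul (by positivity) (by positivity), Real.log_pow]
      norm_num
    have hsum : ∑ i ∈ Finset.univ.erase j, (1 + q.2.2 i)
          * Real.log (epj α P ε q i ^ 2 + ‖(q.1 j + h) - q.1 i‖ ^ 2)
        = ∑ i ∈ Finset.univ.erase j, (1 + q.2.2 i)
          * Real.log (epj α P ε q i ^ 2 + ‖(q.1 j - q.1 i) + h‖ ^ 2) := by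
      refine Finset.sum_congr rfl fun i _ => ?_
      have : q.1 j + h - q.1 i = q.1 j - q.1 i + h := by abel
      rw [this]
    have hmain : hj α P ε q j (q.1 j + h)
        - (α * Real.log ‖q.1 j‖ + P.eval (q.1 j)
            - ∑ i ∈ Finset.univ.erase j, (1 + q.2.2 i)
                * Real.log (epj α P ε q i ^ 2 + ‖q.1 j - q.1 i‖ ^ 2)
            - (Hj α P q.1 j - q.2.1 j) - 2 * q.2.2 j * Real.log s
          + s * inner ℝ (Dj α P q.1 j) y - q.2.2 j * Real.log (1 + ‖y‖ ^ 2))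
        = α * (Real.log ‖q.1 j + h‖ - Real.log ‖q.1 j‖ - inner ℝ (q.1 j) h / ‖q.1 j‖ ^ 2)
          + (P.eval (q.1 j + h) - P.eval (q.1 j) - inner ℝ (P.grad (q.1 j)) h)
          - ∑ i ∈ Finset.univ.erase j, ((1 + q.2.2 i)
            * (Real.log (epj α P ε q i ^ 2 + ‖(q.1 j - q.1 i) + h‖ ^ 2)
              - Real.log (epj α P ε q i ^ 2 + ‖q.1 j - q.1 i‖ ^ 2))
            - 2 * inner ℝ (q.1 j - q.1 i) h / ‖q.1 j - q.1 i‖ ^ 2) := by
      rw [hj, ← hs, hown, hsum, hD, Finset.sum_sub_distrib]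
      simp only [mul_sub, Finset.sum_sub_distrib]
      ring
    rw [hmain]
    have hsumle : |∑ i ∈ Finset.univ.erase j, ((1 + q.2.2 i)
            * (Real.log (epj α P ε q i ^ 2 + ‖(q.1 j - q.1 i) + h‖ ^ 2)
              - Real.log (epj α P ε q i ^ 2 + ‖q.1 j - q.1 i‖ ^ 2))
            - 2 * inner ℝ (q.1 j - q.1 i) h / ‖q.1 j - q.1 i‖ ^ 2)|
        ≤ Fintype.card J * (K * (ε ^ 2 * (1 + ‖y‖ ^ 2))) := by
      refine (Finset.abs_sum_le_sum_abs _ _).trans ((Finset.sum_le_sum t2).trans ?_)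
      rw [Finset.sum_const, nsmul_eq_mul]
      apply mul_le_mul_of_nonneg_right _ (by positivity)
      exact_mod_cast (Finset.card_le_card (Finset.erase_subset _ _))
    have t0' : |α * (Real.log ‖q.1 j + h‖ - Real.log ‖q.1 j‖ - inner ℝ (q.1 j) h / ‖q.1 j‖ ^ 2)|
        ≤ |α| * (11 * C1 ^ 2 / d ^ 2) * (ε ^ 2 * (1 + ‖y‖ ^ 2)) := by
      rw [abs_mul, mul_assoc]
      apply mul_le_mul_of_nonneg_left _ (abs_nonneg _)
      refine t0.trans ?_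
      calc 11 * ‖h‖ ^ 2 / ‖q.1 j‖ ^ 2 ≤ 11 * (C1 ^ 2 * ε ^ 2 * (1 + ‖y‖ ^ 2)) / d ^ 2 := by
            have := (hq.1 j).1
            gcongr
        _ = _ := by ring
    have t1' : |P.eval (q.1 j + h) - P.eval (q.1 j) - inner ℝ (P.grad (q.1 j)) h|
        ≤ (∑ i, P.b i) * C1 ^ 2 * (ε ^ 2 * (1 + ‖y‖ ^ 2)) := by
      refine t1.trans ?_
      calc _ ≤ (∑ i, P.b i) * (C1 ^ 2 * ε ^ 2 * (1 + ‖y‖ ^ 2)) := by gcongr
        _ = _ := by ring
    have hEY : 0 ≤ ε ^ 2 * (1 + ‖y‖ ^ 2) := by positivity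
    calc _ ≤ |α * (Real.log ‖q.1 j + h‖ - Real.log ‖q.1 j‖ - inner ℝ (q.1 j) h / ‖q.1 j‖ ^ 2)
          + (P.eval (q.1 j + h) - P.eval (q.1 j) - inner ℝ (P.grad (q.1 j)) h)|
          + |∑ i ∈ Finset.univ.erase j, ((1 + q.2.2 i)
            * (Real.log (epj α P ε q i ^ 2 + ‖(q.1 j - q.1 i) + h‖ ^ 2)
              - Real.log (epj α P ε q i ^ 2 + ‖q.1 j - q.1 i‖ ^ 2))
            - 2 * inner ℝ (q.1 j - q.1 i) h / ‖q.1 j - q.1 i‖ ^ 2)| := abs_sub _ _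
      _ ≤ (|α| * (11 * C1 ^ 2 / d ^ 2) * (ε ^ 2 * (1 + ‖y‖ ^ 2))
          + (∑ i, P.b i) * C1 ^ 2 * (ε ^ 2 * (1 + ‖y‖ ^ 2)))
          + Fintype.card J * (K * (ε ^ 2 * (1 + ‖y‖ ^ 2))) :=
          add_le_add ((abs_add_le _ _).trans (add_le_add t0' t1')) hsumle
      _ ≤ (|α| * (11 * C1 ^ 2 / d ^ 2) * (ε ^ 2 * (1 + ‖y‖ ^ 2))
          + (∑ i, P.b i) * C1 ^ 2 * (ε ^ 2 * (1 + ‖y‖ ^ 2)))
          + Fintype.card J * (K * (ε ^ 2 * (1 + ‖y‖ ^ 2))) + ε ^ 2 * (1 + ‖y‖ ^ 2) :=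
          le_add_of_nonneg_right hEY
      _ = _ := by ring

end

end Pool.Agent.QGlue
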