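import Pool.Agent.QGlue.DefsE

/-! # Continuity in the parameters -/

set_option autoImplicit false

namespace Pool.Agent.QGlue

open MeasureTheory Real Set Filter Topology

section

variable {n : ℕ} {J : Type} [Fintype J] [DecidableEq J] (α : ℝ) (P : Pol n)

private theorem D2_eval_cont : Continuous (Pol.eval P) := by
  unfold Pol.eval
  fun_prop

private theorem D2_Hj_cont (d δ2 ε : ℝ) (hd : 0 < d) (j : J) :
    ContinuousOn (fun q : Par n J => Hj α P q.1 j) (Qd d δ2 ε) := by
  unfold Hj
  refine ContinuousOn.sub (ContinuousOn.add ?_ ?_) ?_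
  · refine ContinuousOn.mul continuousOn_const ?_
    refine ContinuousOn.log (by fun_prop) ?_
    intro q hq
    have := (hq.1 j).1
    exact (by linarith : (0:ℝ) < ‖q.1 j‖).ne'
  · exact ((D2_eval_cont P).comp (by fun_prop : Continuous fun q : Par n J => q.1 j)).continuousOn
  · refine continuousOn_finsetSum _ fun i hi => ?_
    refine ContinuousOn.mul continuousOn_const ?_
    refine ContinuousOn.log (by fun_prop) ?_
    intro q hq
    have := hq.2.1 j i (Finset.ne_of_mem_erase hi).symm
    exact (by linarith : (0:ℝ) < ‖q.1 j - q.1 i‖).ne'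

theorem epj_cont (d δ2 ε : ℝ) (hd : 0 < d) (j : J) :
    ContinuousOn (fun q : Par n J => epj α P ε q j) (Qd d δ2 ε) := by
  unfold epj
  refine ContinuousOn.mul continuousOn_const ?_
  refine ContinuousOn.rexp ?_
  exact (D2_Hj_cont α P d δ2 ε hd j).sub (by fun_prop)

private theorem D2_epj_pos (ε : ℝ) (hε : 0 < ε) (q : Par n J) (j : J) : 0 < epj α P ε q j := by
  unfold epj
  positivity

private theorem D2_arg_pos (ε : ℝ) (hε : 0 < ε) (q : Par n J) (j : J) (x : E n) :
    0 < epj α P ε q j ^ 2 + ‖x - q.1 j‖ ^ 2 := by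
  have := D2_epj_pos α P ε hε q j
  positivity

theorem Wf_cont (d δ2 ε : ℝ) (hd : 0 < d) (hε : 0 < ε) (z : E n) :
    ContinuousOn (fun q : Par n J => Wf α P ε q z) (Qd d δ2 ε) := by
  unfold Wf
  refine ContinuousOn.neg ?_
  refine continuousOn_finsetSum _ fun i _ => ?_
  refine ContinuousOn.mul (by fun_prop) ?_
  refine ContinuousOn.log ?_ ?_
  · exact ((epj_cont α P d δ2 ε hd i).pow 2).add (by fun_prop)
  · intro q _
    exact (D2_arg_pos α P ε hε q i z).ne'

theorem hj_cont (d δ2 ε : ℝ) (hd : 0 < d) (hε : 0 < ε) (j : J) (y : E n) (q0 : Par n J)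
    (hq0 : q0 ∈ Qd d δ2 ε) (hy : ‖epj α P ε q0 j • y‖ < d / 8) :
    ContinuousWithinAt (fun q : Par n J => hj α P ε q j (q.1 j + epj α P ε q j • y))
      (Qd d δ2 ε) q0 := by
  have hep : ∀ i, ContinuousWithinAt (fun q : Par n J => epj α P ε q i) (Qd d δ2 ε) q0 :=
    fun i => epj_cont α P d δ2 ε hd i q0 hq0
  have hpt : ContinuousWithinAt (fun q : Par n J => q.1 j + epj α P ε q j • y)
      (Qd d δ2 ε) q0 := by
    refine ContinuousWithinAt.add ?_ ?_
    · exact (by fun_prop : Continuous fun q : Par n J => q.1 j).continuousWithinAt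
    · exact (hep j).smul continuousWithinAt_const
  have hne : 0 < ‖q0.1 j + epj α P ε q0 j • y‖ := by
    have h1 := (hq0.1 j).1
    have h2 : ‖q0.1 j‖ ≤ ‖q0.1 j + epj α P ε q0 j • y‖ + ‖epj α P ε q0 j • y‖ := by
      have := norm_sub_le (q0.1 j + epj α P ε q0 j • y) (epj α P ε q0 j • y)
      simpa using this
    linarith
  unfold hj
  refine ContinuousWithinAt.sub (ContinuousWithinAt.sub (ContinuousWithinAt.sub
    (ContinuousWithinAt.add ?_ ?_) ?_) ?_) ?_
  · refine continuousWithinAt_const.mul ?_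
    exact hpt.norm.log hne.ne'
  · exact (D2_eval_cont P).continuousAt.comp_continuousWithinAt hpt
  · refine (D2_Hj_cont α P d δ2 ε hd j q0 hq0).sub ?_
    exact (by fun_prop : Continuous fun q : Par n J => q.2.1 j).continuousWithinAt
  · refine ContinuousWithinAt.mul ?_ ?_
    · exact (by fun_prop : Continuous fun q : Par n J => q.2.2 j).continuousWithinAt
    · refine ContinuousWithinAt.log ?_ (D2_arg_pos α P ε hε q0 j _).ne'
      refine ((hep j).pow 2).add ?_
      refine ContinuousWithinAt.pow ?_ 2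
      refine ContinuousWithinAt.norm ?_
      exact hpt.sub (by fun_prop : Continuous fun q : Par n J => q.1 j).continuousWithinAt
  · refine tendsto_finsetSum _ fun i _ => ?_
    change ContinuousWithinAt (fun q : Par n J => (1 + q.2.2 i) * Real.log (epj α P ε q i ^ 2
      + ‖q.1 j + epj α P ε q j • y - q.1 i‖ ^ 2)) (Qd d δ2 ε) q0
    refine ContinuousWithinAt.mul ?_ ?_
    · exact (by fun_prop : Continuous fun q : Par n J => 1 + q.2.2 i).continuousWithinAt
    · refine ContinuousWithinAt.log ?_ (D2_arg_pos α P ε hε q0 i _).ne'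
      refine ((hep i).pow 2).add ?_
      refine ContinuousWithinAt.pow ?_ 2
      refine ContinuousWithinAt.norm ?_
      exact hpt.sub (by fun_prop : Continuous fun q : Par n J => q.1 i).continuousWithinAt

theorem hj_cont_x (d δ2 ε : ℝ) (hd : 0 < d) (hε : 0 < ε) (j : J) (q : Par n J)
    (hq : q ∈ Qd d δ2 ε) : ContinuousOn (hj α P ε q j) {x | 7 / 8 * d ≤ ‖x‖} := by
  have _ := hq
  unfold hj
  refine ContinuousOn.sub (ContinuousOn.sub (ContinuousOn.sub
    (ContinuousOn.add ?_ ?_) ?_) ?_) ?_
  · refine continuousOn_const.mul ?_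
    refine ContinuousOn.log (by fun_prop) ?_
    intro x hx
    have hx' : 7 / 8 * d ≤ ‖x‖ := hx
    exact (by linarith : (0:ℝ) < ‖x‖).ne'
  · exact (D2_eval_cont P).continuousOn
  · exact continuousOn_const
  · refine continuousOn_const.mul ?_
    refine ContinuousOn.log (by fun_prop) ?_
    intro x _
    exact (D2_arg_pos α P ε hε q j x).ne'
  · refine continuousOn_finsetSum _ fun i _ => ?_
    refine continuousOn_const.mul ?_
    refine ContinuousOn.log (by fun_prop) ?_
    intro x _
    exact (D2_arg_pos α P ε hε q i x).ne'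

theorem Wf_cont_x (ε : ℝ) (hε : 0 < ε) (q : Par n J) : Continuous (Wf α P ε q) := by
  unfold Wf
  refine Continuous.neg ?_
  refine continuous_finsetSum _ fun i _ => ?_
  refine continuous_const.mul ?_
  refine Continuous.log (by fun_prop) ?_
  intro x
  exact (D2_arg_pos α P ε hε q i x).ne'

end

end Pool.Agent.QGlue
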