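import Mathlib

/-!
# Definitions for MP_77c265_an (large total Q-curvature)

Gluing `N` spherical bubbles for `(-Δ)^{n/2} u = |x|^{nα} e^{nu}` on `ℝ^n`, `n = 3, 4`.
-/

set_option autoImplicit false

namespace Pool.Agent.QGlue

open MeasureTheory Real Set Filter Topology

/-- Euclidean space. -/
abbrev E (n : ℕ) := EuclideanSpace ℝ (Fin n)

/-- `1 / |S^n|`. -/
noncomputable def cN (n : ℕ) : ℝ := if n = 3 then 1 / (2 * π ^ 2) else 3 / (8 * π ^ 2)

/-- `γ_n = (n-1)! |S^n| / 2`. -/
noncomputable def gam (n : ℕ) : ℝ := if n = 3 then 2 * π ^ 2 else 8 * π ^ 2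

/-- Density of the bubble measure (stereographic projection of the normalised sphere measure). -/
noncomputable def bub (n : ℕ) (y : E n) : ℝ := cN n * (2 / (1 + ‖y‖ ^ 2)) ^ n

/-- The bubble measure. -/
noncomputable def piM (n : ℕ) : Measure (E n) :=
  volume.withDensity (fun y => ENNReal.ofReal (bub n y))

/-- The density of `1 / (1 + ‖y‖ ^ 2)` under the bubble measure. -/
noncomputable def betaD (n : ℕ) (s : ℝ) : ℝ :=
  if n = 3 then 8 / π * Real.sqrt (s * (1 - s)) else 6 * (s * (1 - s))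

/-- The coordinate functions of the inverse stereographic projection. -/
noncomputable def Z0 {n : ℕ} (y : E n) : ℝ := (1 - ‖y‖ ^ 2) / (1 + ‖y‖ ^ 2)

/-- The coordinate functions of the inverse stereographic projection. -/
noncomputable def Zv {n : ℕ} (y : E n) : E n := (2 / (1 + ‖y‖ ^ 2)) • y

/-- A quarter of the squared chordal distance. -/
noncomputable def tau {n : ℕ} (y z : E n) : ℝ := ‖y - z‖ ^ 2 / ((1 + ‖y‖ ^ 2) * (1 + ‖z‖ ^ 2))

/-- The logarithmic kernel on the sphere. -/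
noncomputable def ell {n : ℕ} (y z : E n) : ℝ := - Real.log (tau y z)

/-- The logarithmic kernel with one point at infinity. -/
noncomputable def ellInf {n : ℕ} (z : E n) : ℝ := Real.log (1 + ‖z‖ ^ 2)

/-- The mean of the logarithmic kernel. -/
noncomputable def kap (n : ℕ) : ℝ := ∫ z, ellInf z ∂(piM n)

/-- The kernel of the linearised operator with the first two eigenspaces removed. -/
noncomputable def ker (n : ℕ) (y z : E n) : ℝ :=
  n * ell y z - n * kap n - (n + 1) * (1 - 2 * tau y z)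

/-- The same with one point at infinity. -/
noncomputable def kerInf (n : ℕ) (z : E n) : ℝ :=
  n * ellInf z - n * kap n - (n + 1) * (1 - 2 / (1 + ‖z‖ ^ 2))

/-- The potential operator of a bubble. -/
noncomputable def U (n : ℕ) (f : E n → ℝ) (y : E n) : ℝ :=
  (1 / n) * ∫ z, (ker n y z - kerInf n z) * f z ∂(piM n)

/-- The inversion with centre `a` and radius `√(1 + ‖a‖²)`. -/
noncomputable def invS {n : ℕ} (a y : E n) : E n := a + ((1 + ‖a‖ ^ 2) / ‖y - a‖ ^ 2) • (y - a)

/-- Quadratic polynomials without constant term which tend to `-∞`. -/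
structure Pol (n : ℕ) where
  g : Fin n → ℝ
  b : Fin n → ℝ
  hb : ∀ i, 0 < b i

/-- Value of the polynomial. -/
noncomputable def Pol.eval {n : ℕ} (P : Pol n) (x : E n) : ℝ := ∑ i, (P.g i * x i - P.b i * x i ^ 2)

/-- Gradient of the polynomial. -/
noncomputable def Pol.grad {n : ℕ} (P : Pol n) (x : E n) : E n :=
  WithLp.toLp 2 (fun i => P.g i - 2 * P.b i * x i)

/-- The reference measure of the outer region. -/
noncomputable def mu0 (n : ℕ) (α : ℝ) (P : Pol n) : Measure (E n) :=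
  volume.withDensity (fun x => ENNReal.ofReal (‖x‖ ^ (n * α) * Real.exp (n * P.eval x)))

/-- Logarithmic potential of the outer density. -/
noncomputable def Psi (n : ℕ) (α : ℝ) (P : Pol n) (g : E n → ℝ) (z : E n) : ℝ :=
  - (1 / gam n) * ∫ w, Real.log ‖z - w‖ * g w ∂(mu0 n α P)

/-- Parameters: positions, height defects, mass defects. -/
abbrev Par (n : ℕ) (J : Type) := (J → E n) × (J → ℝ) × (J → ℝ)

section Bubbles

variable {n : ℕ} {J : Type} [Fintype J] [DecidableEq J] (α : ℝ) (P : Pol n)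

/-- The height function at the `j`-th position. -/
noncomputable def Hj (ξ : J → E n) (j : J) : ℝ :=
  α * Real.log ‖ξ j‖ + P.eval (ξ j) - ∑ i ∈ Finset.univ.erase j, 2 * Real.log ‖ξ j - ξ i‖

/-- The force at the `j`-th position. -/
noncomputable def Dj (ξ : J → E n) (j : J) : E n :=
  (α / ‖ξ j‖ ^ 2) • ξ j + P.grad (ξ j)
    - ∑ i ∈ Finset.univ.erase j, (2 / ‖ξ j - ξ i‖ ^ 2) • (ξ j - ξ i)

/-- The scale of the `j`-th bubble. -/
noncomputable def epj (ε : ℝ) (q : Par n J) (j : J) : ℝ := ε * Real.exp (Hj α P q.1 j - q.2.1 j)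

/-- The main part of the potential. -/
noncomputable def Wf (ε : ℝ) (q : Par n J) (x : E n) : ℝ :=
  - ∑ j, (1 + q.2.2 j) * Real.log (epj α P ε q j ^ 2 + ‖x - q.1 j‖ ^ 2)

/-- The additive constant. -/
noncomputable def c0 (n : ℕ) (ε : ℝ) : ℝ := Real.log (2 * ε) + (1 / n) * Real.log (2 * gam n * cN n)

/-- The logarithm of the ratio of the density to the `j`-th bubble (divided by `n`). -/
noncomputable def hj (ε : ℝ) (q : Par n J) (j : J) (x : E n) : ℝ :=
  α * Real.log ‖x‖ + P.eval x - (Hj α P q.1 j - q.2.1 j)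
    - q.2.2 j * Real.log (epj α P ε q j ^ 2 + ‖x - q.1 j‖ ^ 2)
    - ∑ i ∈ Finset.univ.erase j, (1 + q.2.2 i) * Real.log (epj α P ε q i ^ 2 + ‖x - q.1 i‖ ^ 2)

/-- Admissible parameters. -/
def Qd (d δ2 ε : ℝ) : Set (Par n J) :=
  {q | (∀ j, d ≤ ‖q.1 j‖ ∧ ‖q.1 j‖ ≤ 1 / d) ∧ (∀ i j, i ≠ j → d ≤ ‖q.1 i - q.1 j‖) ∧
    (∀ j, |q.2.1 j| ≤ δ2) ∧ ∀ j, |q.2.2 j| ≤ ε}

/-- The outer region. -/
def outR (δ : ℝ) (q : Par n J) : Set (E n) := {z | ∀ j, δ ≤ ‖z - q.1 j‖}

/-- The total correction of the potential. `f j` is the relative density correction of the `j`-th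
bubble, `g` the (scaled) relative density of the outer region. -/
noncomputable def phi (ε : ℝ) (q : Par n J) (f : J → E n → ℝ) (g : E n → ℝ) (x : E n) : ℝ :=
  ∑ j, U n (f j) ((1 / epj α P ε q j) • (x - q.1 j)) + ε * Psi n α P g x

/-- The relative density error at the `j`-th bubble, in bubble coordinates. -/
noncomputable def FF (ε δ : ℝ) (q : Par n J) (f : J → E n → ℝ) (g : E n → ℝ) (j : J) (y : E n) : ℝ :=
  ({y | ‖epj α P ε q j • y‖ < δ} : Set (E n)).indicator
    (fun y => Real.exp (n * (hj α P ε q j (q.1 j + epj α P ε q j • y)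
      + phi α P ε q f g (q.1 j + epj α P ε q j • y)))) y - (1 + q.2.2 j)

/-- The (scaled) relative density of the outer region. -/
noncomputable def GG (ε δ : ℝ) (q : Par n J) (f : J → E n → ℝ) (g : E n → ℝ) (z : E n) : ℝ :=
  (1 / ε) * (outR δ q).indicator
    (fun z => Real.exp (n * (Wf α P ε q z + c0 n ε + phi α P ε q f g z))) z

end Bubbles

/-- Solutions of the integral equation. -/
def IntSol (n : ℕ) (α : ℝ) (u : E n → ℝ) : Prop :=
  Measurable u ∧
  Integrable (fun x => (1 + ‖x‖) * (‖x‖ ^ (n * α) * Real.exp (n * u x))) ∧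
  ∃ (P : Pol n) (c : ℝ), ∀ x, u x =
    - (1 / gam n) * (∫ z, Real.log ‖x - z‖ * (‖z‖ ^ (n * α) * Real.exp (n * u z))) + P.eval x + c

end Pool.Agent.QGlue
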