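import Pool.Agent.QGlue.Defs

/-! # The fixed point map -/

set_option autoImplicit false

namespace Pool.Agent.QGlue

open MeasureTheory Real Set Filter Topology

/-- The class of a function in `L²` (zero if it is not in `L²`). -/
noncomputable def toL {n : ℕ} (μ : Measure (E n)) (f : E n → ℝ) : Lp ℝ 2 μ := by
  classical exact if h : MemLp f 2 μ then h.toLp f else 0

/-- The functions `1, Z_0, Z_1, ..., Z_n` in `L²`. -/
noncomputable def kf (n : ℕ) : Option (Option (Fin n)) → Lp ℝ 2 (piM n)
  | none => toL (piM n) (fun _ => 1)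
  | some none => toL (piM n) Z0
  | some (some i) => toL (piM n) (fun y => Zv y i)

/-- Their span. -/
noncomputable def KK (n : ℕ) : Submodule ℝ (Lp ℝ 2 (piM n)) := Submodule.span ℝ (Set.range (kf n))

instance KK_fd (n : ℕ) : FiniteDimensional ℝ (KK n) :=
  FiniteDimensional.span_of_finite ℝ (Set.finite_range _)

/-- The orthogonal projection onto the complement of the span. -/
noncomputable def PP (n : ℕ) (f : Lp ℝ 2 (piM n)) : Lp ℝ 2 (piM n) :=
  f - (KK n).starProjection f

/-- The space of unknowns. -/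
abbrev XX (n : ℕ) (J : Type) (α : ℝ) (P : Pol n) :=
  (J → Lp ℝ 2 (piM n)) × Lp ℝ 2 (mu0 n α P)

section

variable {n : ℕ} {J : Type} [Fintype J] [DecidableEq J] (α : ℝ) (P : Pol n)

/-- `phi` on the space of unknowns. -/
noncomputable def phiX (ε : ℝ) (q : Par n J) (x : XX n J α P) (z : E n) : ℝ :=
  phi α P ε q (fun j => x.1 j) x.2 z

/-- `FF` on the space of unknowns. -/
noncomputable def FFX (ε δ : ℝ) (q : Par n J) (x : XX n J α P) (j : J) (y : E n) : ℝ :=
  FF α P ε δ q (fun j => x.1 j) x.2 j y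

/-- `GG` on the space of unknowns. -/
noncomputable def GGX (ε δ : ℝ) (q : Par n J) (x : XX n J α P) (z : E n) : ℝ :=
  GG α P ε δ q (fun j => x.1 j) x.2 z

/-- The fixed point map. -/
noncomputable def TT (ε δ : ℝ) (q : Par n J) (x : XX n J α P) : XX n J α P :=
  (fun j => PP n (toL (piM n) (FFX α P ε δ q x j)), toL (mu0 n α P) (GGX α P ε δ q x))

/-- The reduced functions. -/
noncomputable def redA (ε δ : ℝ) (q : Par n J) (x : XX n J α P) (j : J) : ℝ :=
  ∫ y, FFX α P ε δ q x j y ∂(piM n)

/-- The reduced functions. -/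
noncomputable def redB (ε δ : ℝ) (q : Par n J) (x : XX n J α P) (j : J) : ℝ :=
  ∫ y, FFX α P ε δ q x j y * Z0 y ∂(piM n)

/-- The reduced functions. -/
noncomputable def redC (ε δ : ℝ) (q : Par n J) (x : XX n J α P) (j : J) : E n :=
  ∫ y, FFX α P ε δ q x j y • Zv y ∂(piM n)

end

end Pool.Agent.QGlue
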