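import Pool.Agent.QGlue.Defs

/-! # The notion of solution in the problem, and test pairs -/

set_option autoImplicit false

namespace Pool.Agent.QGlue

open MeasureTheory Real Set Filter Topology
open scoped FourierTransform SchwartzMap ContDiff Laplacian

/-- Distributional solutions in dimension four. -/
def IsSol4 (α : ℝ) (u : E 4 → ℝ) : Prop :=
  LocallyIntegrable u ∧
  Integrable (fun x : E 4 => ‖x‖ ^ (4 * α) * Real.exp (4 * u x)) ∧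
  ∀ φ : E 4 → ℝ, ContDiff ℝ ∞ φ → HasCompactSupport φ →
    ∫ x, u x * (Δ (Δ φ)) x = ∫ x, ‖x‖ ^ (4 * α) * Real.exp (4 * u x) * φ x

/-- `(-Δ)^{3/2}` on Schwartz functions: the Fourier multiplier with symbol `|2πξ|³` for the
normalisation `∫ e^{-2πi x·ξ} φ(x) dx` of the Fourier transform (symbol `|ξ|³` in the other
normalisation). -/
noncomputable def fracLap (φ : 𝓢(E 3, ℂ)) (x : E 3) : ℂ :=
  𝓕⁻ (fun ξ : E 3 => (((2 * π * ‖ξ‖) ^ 3 : ℝ) : ℂ) * 𝓕 (φ : E 3 → ℂ) ξ) x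

/-- Distributional solutions in dimension three. -/
def IsSol3 (α : ℝ) (u : E 3 → ℝ) : Prop :=
  LocallyIntegrable u ∧
  Integrable (fun x : E 3 => |u x| / (1 + ‖x‖ ^ 6)) ∧
  Integrable (fun x : E 3 => ‖x‖ ^ (3 * α) * Real.exp (3 * u x)) ∧
  ∀ φ : 𝓢(E 3, ℂ), Integrable (fun x => (u x : ℂ) * fracLap φ x) ∧
    ∫ x, (u x : ℂ) * fracLap φ x =
      ∫ x, ((‖x‖ ^ (3 * α) * Real.exp (3 * u x) : ℝ) : ℂ) * φ x

/-- `Ψ = (-Δ)^{n/2} ψ` in the sense of Fourier transforms, with enough decay. -/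
structure TestPair (n : ℕ) (ψ Ψ : E n → ℂ) : Prop where
  contψ : Continuous ψ
  contΨ : Continuous Ψ
  intψ : Integrable ψ
  bddψ : ∃ C : ℝ, ∀ x, ‖ψ x‖ ≤ C
  bddΨ : ∃ C : ℝ, ∀ x, ‖Ψ x‖ ≤ C
  intΨ : Integrable (fun x => (1 + ‖x‖ ^ 2) * ‖Ψ x‖)
  intF : Integrable (fun ξ => (1 + ‖ξ‖ ^ n) * ‖𝓕 ψ ξ‖)
  rel : ∀ ξ, 𝓕 Ψ ξ = (((2 * π * ‖ξ‖) ^ n : ℝ) : ℂ) * 𝓕 ψ ξ

end Pool.Agent.QGlue
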