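import Pool.Agent.QGlue.DefsE

/-! # Stable configurations -/

set_option autoImplicit false

namespace Pool.Agent.QGlue

open MeasureTheory Real Set Filter Topology

/-- A stable family of configurations with index set `J`, position parameters `K` and symmetries
`G`. -/
structure Cfg (n : ℕ) (α : ℝ) (P : Pol n) (J K G : Type) [Fintype J] [DecidableEq J] where
  /-- the configurations -/
  Xi : (K → ℝ) → J → E n
  cont : ContinuousOn Xi {s | ∀ k, |s k| ≤ 1}
  d : ℝ
  hd : 0 < d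
  sep : ∀ s : K → ℝ, (∀ k, |s k| ≤ 1) → (∀ j, d ≤ ‖Xi s j‖ ∧ ‖Xi s j‖ ≤ 1 / d) ∧
    ∀ i j, i ≠ j → d ≤ ‖Xi s i - Xi s j‖
  /-- symmetries -/
  iso : G → E n ≃ₗᵢ[ℝ] E n
  perm : G → Equiv.Perm J
  hP : ∀ g x, P.eval (iso g x) = P.eval x
  hXi : ∀ g (s : K → ℝ), (∀ k, |s k| ≤ 1) → ∀ j, Xi s (perm g j) = iso g (Xi s j)
  /-- orbit representatives -/
  rep : J → J
  hrep : ∀ j, ∃ g, perm g (rep j) = j
  rep_inv : ∀ g j, rep (perm g j) = rep j
  /-- the bubble and the direction controlled by a parameter -/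
  idx : K → J
  dir : K → E n
  dir_norm : ∀ k, ‖dir k‖ ≤ 1
  c1 : ℝ
  hc1 : 0 < c1
  hi : ∀ s : K → ℝ, (∀ k, |s k| ≤ 1) → ∀ k, s k = 1 →
    c1 ≤ inner ℝ (Dj α P (Xi s) (idx k)) (dir k)
  lo : ∀ s : K → ℝ, (∀ k, |s k| ≤ 1) → ∀ k, s k = -1 →
    inner ℝ (Dj α P (Xi s) (idx k)) (dir k) ≤ -c1
  closed : ∀ j, rep j = j → ∀ v : E n, (∀ g, perm g j = j → iso g v = v) →
    (∀ k, idx k = j → inner ℝ v (dir k) = 0) → v = 0

/-- The vector with given first coordinates. -/
noncomputable def vec (n : ℕ) (x y z w : ℝ) : E n :=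
  WithLp.toLp 2 (fun i : Fin n =>
    if i.val = 0 then x else if i.val = 1 then y else if i.val = 2 then z else w)

/-- The polynomial `x_0 - a x_0² - B (x_1² + ... )`. -/
noncomputable def polAB (n : ℕ) (a B : ℝ) (ha : 0 < a) (hB : 0 < B) : Pol n where
  g := fun i => if i.val = 0 then 1 else 0
  b := fun i => if i.val = 0 then a else B
  hb := fun i => by split_ifs <;> assumption

/-- The force on the `j`-th far point in the limit. -/
noncomputable def farM {N : ℕ} (Q : ℝ) (x : Fin N → ℝ) (j : Fin N) : ℝ :=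
  1 - Q / x j - ∑ i ∈ Finset.univ.erase j, 2 / (x j - x i)

end Pool.Agent.QGlue
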