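import Pool.Agent.QGlue.DefsE
import Pool.Agent.QGlue.A1
import Pool.Agent.QGlue.A4

/-! # The projection -/

set_option autoImplicit false

namespace Pool.Agent.QGlue

open MeasureTheory Real Set Filter Topology

private lemma E0_toL {n : ℕ} (μ : Measure (E n)) (f : E n → ℝ) (h : MemLp f 2 μ) :
    toL μ f = h.toLp f := by
  unfold toL
  exact dif_pos h

theorem toL_coe {n : ℕ} (μ : Measure (E n)) (f : E n → ℝ) (h : MemLp f 2 μ) :
    toL μ f =ᵐ[μ] f := by
  rw [E0_toL μ f h]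
  exact h.coeFn_toLp

theorem toL_sub {n : ℕ} (μ : Measure (E n)) (f g : E n → ℝ) (hf : MemLp f 2 μ)
    (hg : MemLp g 2 μ) : toL μ f - toL μ g = toL μ (fun x => f x - g x) := by
  have h : MemLp (fun x => f x - g x) 2 μ := hf.sub hg
  rw [E0_toL μ f hf, E0_toL μ g hg, E0_toL μ _ h]
  exact (MemLp.toLp_sub hf hg).symm

theorem toL_norm_sq {n : ℕ} (μ : Measure (E n)) (f : E n → ℝ) (h : MemLp f 2 μ) :
    ‖toL μ f‖ ^ 2 = ∫ x, f x ^ 2 ∂μ := by
  rw [← real_inner_self_eq_norm_sq, MeasureTheory.L2.inner_def]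
  refine integral_congr_ae ?_
  filter_upwards [toL_coe μ f h] with x hx
  rw [hx]
  simp [sq]

theorem toL_norm_le {n : ℕ} (μ : Measure (E n)) [IsProbabilityMeasure μ] (f : E n → ℝ)
    (h : AEStronglyMeasurable f μ) (C : ℝ) (hC : ∀ x, |f x| ≤ C) : ‖toL μ f‖ ≤ C := by
  have hm : MemLp f 2 μ := MemLp.of_bound h C (Eventually.of_forall hC)
  have hC0 : 0 ≤ C := (abs_nonneg _).trans (hC 0)
  have := Lp.norm_le_of_ae_bound (f := toL μ f) hC0 (by
    filter_upwards [toL_coe μ f hm] with x hx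
    rw [hx]
    exact hC x)
  simpa [measureUnivNNReal] using this

theorem toL_norm_mono {n : ℕ} (μ : Measure (E n)) (f g : E n → ℝ) (hf : MemLp f 2 μ)
    (hg : MemLp g 2 μ) (h : ∀ x, |f x| ≤ |g x|) : ‖toL μ f‖ ≤ ‖toL μ g‖ := by
  refine Lp.norm_le_norm_of_ae_le ?_
  filter_upwards [toL_coe μ f hf, toL_coe μ g hg] with x hx hy
  rw [hx, hy]
  exact h x

theorem PP_norm {n : ℕ} (f : Lp ℝ 2 (piM n)) : ‖PP n f‖ ≤ ‖f‖ := by
  unfold PP
  rw [← Submodule.starProjection_orthogonal_val]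
  exact Submodule.norm_starProjection_apply_le _ _

theorem PP_sub {n : ℕ} (f g : Lp ℝ 2 (piM n)) : PP n (f - g) = PP n f - PP n g := by
  unfold PP
  rw [map_sub]
  abel

private lemma E0_memLp_const {n : ℕ} (hn : n = 3 ∨ n = 4) (c : ℝ) :
    MemLp (fun _ : E n => c) 2 (piM n) := by
  have := piM_prob hn
  exact memLp_const c

private lemma E0_abs_Z0 {n : ℕ} (y : E n) : |Z0 y| ≤ 1 := by
  have h := Z_norm y
  have h2 : Z0 y ^ 2 ≤ 1 := by nlinarith [sq_nonneg ‖Zv y‖]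
  exact (sq_le_one_iff_abs_le_one _).1 h2

private lemma E0_norm_Zv {n : ℕ} (y : E n) : ‖Zv y‖ ≤ 1 := by
  have h := Z_norm y
  have h2 : ‖Zv y‖ ^ 2 ≤ 1 := by nlinarith [sq_nonneg (Z0 y)]
  have := (sq_le_one_iff_abs_le_one _).1 h2
  rwa [abs_of_nonneg (norm_nonneg _)] at this

private lemma E0_abs_Zv {n : ℕ} (y : E n) (i : Fin n) : |Zv y i| ≤ 1 := by
  have h1 : ‖Zv y i‖ ≤ ‖Zv y‖ := PiLp.norm_apply_le (Zv y) i
  exact h1.trans (E0_norm_Zv y)

private lemma E0_cont_Zvi {n : ℕ} (i : Fin n) : Continuous fun y : E n => Zv y i :=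
  (EuclideanSpace.proj (𝕜 := ℝ) i).continuous.comp continuous_Zv

private lemma E0_memLp_Z0 {n : ℕ} (hn : n = 3 ∨ n = 4) :
    MemLp (Z0 : E n → ℝ) 2 (piM n) := by
  have := piM_prob hn
  exact MemLp.of_bound continuous_Z0.aestronglyMeasurable 1 (Eventually.of_forall E0_abs_Z0)

private lemma E0_memLp_Zvi {n : ℕ} (hn : n = 3 ∨ n = 4) (i : Fin n) :
    MemLp (fun y : E n => Zv y i) 2 (piM n) := by
  have := piM_prob hn
  exact MemLp.of_bound (E0_cont_Zvi i).aestronglyMeasurable 1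
    (Eventually.of_forall fun y => E0_abs_Zv y i)

theorem PP_const {n : ℕ} (hn : n = 3 ∨ n = 4) (c : ℝ) : PP n (toL (piM n) (fun _ => c)) = 0 := by
  have h1 : toL (piM n) (fun _ => c) = c • kf n none := by
    have h0 : kf n none = toL (piM n) (fun _ => 1) := rfl
    rw [h0, E0_toL _ _ (E0_memLp_const hn c), E0_toL _ _ (E0_memLp_const hn 1)]
    rw [← MemLp.toLp_const_smul c (E0_memLp_const hn 1)]
    congr 1
    ext x
    simp
  have h2 : toL (piM n) (fun _ => c) ∈ KK n := by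
    rw [h1]
    exact (KK n).smul_mem c (Submodule.subset_span ⟨none, rfl⟩)
  unfold PP
  rw [Submodule.starProjection_eq_self_iff.2 h2, sub_self]

private lemma E0_inner {n : ℕ} (g : E n → ℝ) (hg : MemLp g 2 (piM n)) (f : Lp ℝ 2 (piM n)) :
    inner ℝ (toL (piM n) g) f = ∫ y, f y * g y ∂(piM n) := by
  rw [MeasureTheory.L2.inner_def]
  refine integral_congr_ae ?_
  filter_upwards [toL_coe _ g hg] with x hx
  rw [hx]
  simp

private lemma E0_int {n : ℕ} (hn : n = 3 ∨ n = 4) (f : Lp ℝ 2 (piM n)) : Integrable f (piM n) := by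
  have := piM_prob hn
  exact (Lp.memLp f).integrable (by norm_num)

private lemma E0_int_Zv {n : ℕ} (hn : n = 3 ∨ n = 4) (f : Lp ℝ 2 (piM n)) :
    Integrable (fun y => f y • Zv y) (piM n) := by
  refine (E0_int hn f).norm.mono'
    ((Lp.aestronglyMeasurable f).smul continuous_Zv.aestronglyMeasurable) ?_
  refine Eventually.of_forall fun y => ?_
  rw [norm_smul]
  exact mul_le_of_le_one_right (norm_nonneg _) (E0_norm_Zv y)

private lemma E0_vec {n : ℕ} (hn : n = 3 ∨ n = 4) (f : Lp ℝ 2 (piM n)) (i : Fin n) :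
    (∫ y, f y • Zv y ∂(piM n)) i = ∫ y, f y * Zv y i ∂(piM n) := by
  have h := (EuclideanSpace.proj (𝕜 := ℝ) i).integral_comp_comm (E0_int_Zv hn f)
  exact h.symm

private lemma E0_mem_orth {n : ℕ} (hn : n = 3 ∨ n = 4) (f : Lp ℝ 2 (piM n)) :
    f ∈ (KK n)ᗮ ↔ (∫ y, f y ∂(piM n) = 0 ∧ ∫ y, f y * Z0 y ∂(piM n) = 0 ∧
      ∫ y, f y • Zv y ∂(piM n) = 0) := by
  have hk0 : inner ℝ (kf n none) f = ∫ y, f y ∂(piM n) := by
    have h0 : kf n none = toL (piM n) (fun _ => 1) := rfl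
    rw [h0, E0_inner _ (E0_memLp_const hn 1)]
    simp
  have hk1 : inner ℝ (kf n (some none)) f = ∫ y, f y * Z0 y ∂(piM n) := by
    have h0 : kf n (some none) = toL (piM n) Z0 := rfl
    rw [h0, E0_inner _ (E0_memLp_Z0 hn)]
  have hk2 : ∀ i, inner ℝ (kf n (some (some i))) f = ∫ y, f y * Zv y i ∂(piM n) := by
    intro i
    have h0 : kf n (some (some i)) = toL (piM n) (fun y => Zv y i) := rfl
    rw [h0, E0_inner _ (E0_memLp_Zvi hn i)]
  constructor
  · intro h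
    have hin : ∀ a, inner ℝ (kf n a) f = 0 := fun a =>
      (Submodule.mem_orthogonal _ _).1 h _ (Submodule.subset_span ⟨a, rfl⟩)
    refine ⟨hk0 ▸ hin none, hk1 ▸ hin _, ?_⟩
    ext i
    rw [E0_vec hn f i, ← hk2 i, hin]
    rfl
  · rintro ⟨h1, h2, h3⟩
    rw [Submodule.mem_orthogonal]
    intro u hu
    induction hu using Submodule.span_induction with
    | mem x hx =>
      obtain ⟨a, rfl⟩ := hx
      match a with
      | none => rw [hk0, h1]
      | some none => rw [hk1, h2]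
      | some (some i) => rw [hk2, ← E0_vec hn f i, h3]; rfl
    | zero => simp
    | add x y _ _ hx hy => rw [inner_add_left, hx, hy, add_zero]
    | smul a x _ hx => rw [inner_smul_left, hx, mul_zero]

theorem PP_orth {n : ℕ} (hn : n = 3 ∨ n = 4) (f : Lp ℝ 2 (piM n)) :
    ∫ y, PP n f y ∂(piM n) = 0 ∧ ∫ y, PP n f y * Z0 y ∂(piM n) = 0 ∧
      ∫ y, PP n f y • Zv y ∂(piM n) = 0 := by
  refine (E0_mem_orth hn (PP n f)).1 ?_
  unfold PP
  exact Submodule.sub_starProjection_mem_orthogonal f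

theorem PP_fix {n : ℕ} (hn : n = 3 ∨ n = 4) (f : Lp ℝ 2 (piM n))
    (h1 : ∫ y, f y ∂(piM n) = 0) (h2 : ∫ y, f y * Z0 y ∂(piM n) = 0)
    (h3 : ∫ y, f y • Zv y ∂(piM n) = 0) : PP n f = f := by
  have h := (E0_mem_orth hn f).2 ⟨h1, h2, h3⟩
  unfold PP
  rw [(Submodule.starProjection_apply_eq_zero_iff _).2 h, sub_zero]

/-- Chebyshev: the complement of a large ball. -/
theorem piM_tail {n : ℕ} (hn : n = 3 ∨ n = 4) : ∃ C : ℝ, 0 < C ∧ ∀ R : ℝ, 0 < R →
    (piM n).real {y | R ≤ ‖y‖} ≤ C / R ^ 2 := by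
  have := piM_prob hn
  refine ⟨(∫ y, ‖y‖ ^ 2 ∂(piM n)) + 1, ?_, ?_⟩
  · have : 0 ≤ ∫ y, ‖y‖ ^ 2 ∂(piM n) := integral_nonneg fun y => by positivity
    linarith
  · intro R hR
    have h := mul_meas_ge_le_integral_of_nonneg (μ := piM n) (f := fun y : E n => ‖y‖ ^ 2)
      (Eventually.of_forall fun y => by positivity) (int_sq hn) (R ^ 2)
    have hs : {y : E n | R ≤ ‖y‖} = {x : E n | R ^ 2 ≤ ‖x‖ ^ 2} := by
      ext y
      simp only [Set.mem_ofPred_eq]
      exact (pow_le_pow_iff_left₀ hR.le (norm_nonneg _) (by norm_num)).symm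
    rw [hs, le_div_iff₀ (by positivity), mul_comm]
    linarith

end Pool.Agent.QGlue
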