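import Pool.Agent.QGlue.DefsE
import Pool.Agent.QGlue.A5
import Pool.Agent.QGlue.C
import Pool.Agent.QGlue.D1
import Pool.Agent.QGlue.D2

/-!
# MP_77c265_an, package E1: the correction of the potential
-/

set_option autoImplicit false

namespace Pool.Agent.QGlue

open MeasureTheory Real Set Filter Topology

section

variable {n : ℕ} {J : Type} [Fintype J] [DecidableEq J] {α : ℝ} (P : Pol n)

private theorem E1_eq (ε : ℝ) (q : Par n J) (x : XX n J α P) (z : E n) :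
    phiX α P ε q x z = ∑ j, U n (x.1 j) ((1 / epj α P ε q j) • (z - q.1 j)) +
      ε * Psi n α P x.2 z := rfl

theorem phiX_sub (hn : n = 3 ∨ n = 4) (hα : -1 < α) (ε : ℝ) (q : Par n J) (x x' : XX n J α P)
    (z : E n) : phiX α P ε q (x - x') z = phiX α P ε q x z - phiX α P ε q x' z := by
  simp only [E1_eq]
  have h1 : (x - x').2 = x.2 - x'.2 := rfl
  have h2 : ∀ j, (x - x').1 j = x.1 j - x'.1 j := fun j => rfl
  rw [h1, Psi_sub hn hα]
  simp only [h2, U_sub hn]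
  rw [Finset.sum_sub_distrib]
  ring

theorem phiX_zero (ε : ℝ) (q : Par n J) (z : E n) :
    phiX α P ε q (0 : XX n J α P) z = 0 := by
  simp only [E1_eq]
  have h1 : (0 : XX n J α P).2 = 0 := rfl
  have h2 : ∀ j, (0 : XX n J α P).1 j = 0 := fun j => rfl
  rw [h1, Psi_zero]
  simp only [h2, U_zero]
  simp

theorem phiX_cont (hn : n = 3 ∨ n = 4) (hα : -1 < α) (ε : ℝ) (q : Par n J) (x : XX n J α P) :
    Continuous (phiX α P ε q x) := by
  have : phiX α P ε q x = fun z => ∑ j, U n (x.1 j) ((1 / epj α P ε q j) • (z - q.1 j)) +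
      ε * Psi n α P x.2 z := rfl
  rw [this]
  refine (continuous_finsetSum _ fun j _ => ?_).add (continuous_const.mul (Psi_cont hn hα P x.2))
  have h1 : Continuous fun z : E n => (1 / epj α P ε q j) • (z - q.1 j) := by fun_prop
  exact (U_cont hn (x.1 j)).comp h1

theorem phiX_cont_q (hn : n = 3 ∨ n = 4) (hα : -1 < α) (d δ2 ε : ℝ) (hd : 0 < d) (hε : 0 < ε)
    (x : XX n J α P) :
    ContinuousOn (fun r : Par n J × E n => phiX α P ε r.1 x r.2) (Qd d δ2 ε ×ˢ univ) := by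
  simp only [E1_eq]
  refine (continuousOn_finsetSum _ fun j _ => ?_).add
    (continuousOn_const.mul ((Psi_cont hn hα P x.2).comp continuous_snd).continuousOn)
  refine (U_cont hn (x.1 j)).comp_continuousOn ?_
  have he : ContinuousOn (fun r : Par n J × E n => epj α P ε r.1 j) (Qd d δ2 ε ×ˢ univ) :=
    (epj_cont α P d δ2 ε hd j).comp continuousOn_fst (fun r hr => hr.1)
  have hpos : ∀ r : Par n J × E n, epj α P ε r.1 j ≠ 0 := by
    intro r
    unfold epj
    positivity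
  refine (continuousOn_const.div he fun r _ => hpos r).smul ?_
  refine (continuous_snd.sub ?_).continuousOn
  exact (continuous_apply j).comp (continuous_fst.comp continuous_fst)

omit [DecidableEq J] in
private theorem E1_norm (x : XX n J α P) (j : J) : ‖x.1 j‖ ≤ ‖x‖ :=
  (norm_le_pi_norm x.1 j).trans (norm_fst_le x)

theorem phiX_all (hn : n = 3 ∨ n = 4) (hα : -1 < α) : ∃ C : ℝ, 0 < C ∧ ∀ ε, 0 ≤ ε → ε ≤ 1 →
    ∀ (q : Par n J) (x : XX n J α P) (z : E n),
      |phiX α P ε q x z| ≤ C * (1 + Real.log (1 + ‖z‖)) * ‖x‖ := by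
  obtain ⟨C1, hC1, h1⟩ := U_bound hn
  obtain ⟨C2, hC2, h2⟩ := Psi_bound hn hα P
  refine ⟨Fintype.card J * C1 + C2, by positivity, ?_⟩
  intro ε hε0 hε1 q x z
  have hlog : 0 ≤ Real.log (1 + ‖z‖) := Real.log_nonneg (by linarith [norm_nonneg z])
  have hx := norm_nonneg x
  have hx2 : ‖x.2‖ ≤ ‖x‖ := norm_snd_le x
  rw [E1_eq]
  have e1 : |∑ j, U n (x.1 j) ((1 / epj α P ε q j) • (z - q.1 j))| ≤
      Fintype.card J * (C1 * ‖x‖) := by
    refine (Finset.abs_sum_le_sum_abs _ _).trans ?_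
    rw [← nsmul_eq_mul, ← Finset.card_univ, ← Finset.sum_const]
    refine Finset.sum_le_sum fun j _ => (h1 _ _).trans ?_
    exact mul_le_mul_of_nonneg_left (E1_norm P x j) hC1.le
  have e2 : |ε * Psi n α P x.2 z| ≤ C2 * (1 + Real.log (1 + ‖z‖)) * ‖x‖ := by
    rw [abs_mul, abs_of_nonneg hε0]
    have := (h2 x.2 z).2
    calc ε * |Psi n α P x.2 z| ≤ 1 * (C2 * (1 + Real.log (1 + ‖z‖)) * ‖x.2‖) := by gcongr
      _ ≤ C2 * (1 + Real.log (1 + ‖z‖)) * ‖x‖ := by rw [one_mul]; gcongr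
  have e3 : (Fintype.card J : ℝ) * (C1 * ‖x‖) ≤
      Fintype.card J * C1 * (1 + Real.log (1 + ‖z‖)) * ‖x‖ := by
    have : (0 : ℝ) ≤ Fintype.card J * (C1 * ‖x‖) * Real.log (1 + ‖z‖) := by positivity
    nlinarith
  calc _ ≤ |∑ j, U n (x.1 j) ((1 / epj α P ε q j) • (z - q.1 j))| + |ε * Psi n α P x.2 z| :=
        abs_add_le _ _
    _ ≤ Fintype.card J * C1 * (1 + Real.log (1 + ‖z‖)) * ‖x‖ +
        C2 * (1 + Real.log (1 + ‖z‖)) * ‖x‖ := add_le_add (e1.trans e3) e2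
    _ = _ := by ring

theorem phiX_ball (hn : n = 3 ∨ n = 4) (hα : -1 < α) (d σ : ℝ) (hd : 0 < d) (hσ : 0 < σ) :
    ∃ ε0 : ℝ, 0 < ε0 ∧ ∀ ε, 0 < ε → ε < ε0 → ∀ δ2 ≤ (1 : ℝ), ∀ q ∈ Qd (n := n) (J := J) d δ2 ε,
      ∀ (j : J) (x : XX n J α P) (y : E n), ‖epj α P ε q j • y‖ < d / 8 →
        |phiX α P ε q x (q.1 j + epj α P ε q j • y) - U n (x.1 j) y| ≤ σ * ‖x‖ := by
  obtain ⟨C, hC, hsc⟩ := cfg_scale (J := J) α P d hd
  obtain ⟨C2, hC2, h2⟩ := Psi_bound hn hα P
  set N : ℝ := Fintype.card J + 1 with hN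
  have hNpos : 0 < N := by positivity
  obtain ⟨R, hR, hdec⟩ := U_decay hn (σ / (2 * N)) (by positivity)
  set B : ℝ := C2 * (1 + Real.log (1 + (1 / d + d / 8))) with hB
  have hBpos : 0 < B := by
    have : 0 ≤ Real.log (1 + (1 / d + d / 8)) := Real.log_nonneg (by
      have : 0 < 1 / d + d / 8 := by positivity
      linarith)
    positivity
  refine ⟨min (7 / 8 * d / (C * R)) (σ / (2 * B)), by positivity, ?_⟩
  intro ε hε hε0 δ2 hδ2 q hq j x y hy
  have hepos : ∀ i, 0 < epj α P ε q i := by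
    intro i
    unfold epj
    positivity
  set z := q.1 j + epj α P ε q j • y with hz
  have hzj : z - q.1 j = epj α P ε q j • y := by rw [hz]; abel
  obtain ⟨g1, g2, g3⟩ := cfg_geom d δ2 ε q hq j z (by rw [hzj]; exact hy)
  have hterm : U n (x.1 j) ((1 / epj α P ε q j) • (z - q.1 j)) = U n (x.1 j) y := by
    rw [hzj, smul_smul, one_div, inv_mul_cancel₀ (hepos j).ne', one_smul]
  have hx := norm_nonneg x
  rw [E1_eq, ← Finset.add_sum_erase _ _ (Finset.mem_univ j), hterm]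
  have e0 : U n (x.1 j) y + ∑ i ∈ Finset.univ.erase j,
      U n (x.1 i) ((1 / epj α P ε q i) • (z - q.1 i)) + ε * Psi n α P x.2 z - U n (x.1 j) y =
      ∑ i ∈ Finset.univ.erase j,
      U n (x.1 i) ((1 / epj α P ε q i) • (z - q.1 i)) + ε * Psi n α P x.2 z := by ring
  rw [e0]
  have e1 : |∑ i ∈ Finset.univ.erase j, U n (x.1 i) ((1 / epj α P ε q i) • (z - q.1 i))| ≤
      N * (σ / (2 * N) * ‖x‖) := by
    refine (Finset.abs_sum_le_sum_abs _ _).trans ?_
    have : ∀ i ∈ Finset.univ.erase j, |U n (x.1 i) ((1 / epj α P ε q i) • (z - q.1 i))| ≤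
        σ / (2 * N) * ‖x‖ := by
      intro i hi
      have hij := Finset.ne_of_mem_erase hi
      refine (hdec _ _ ?_).trans (mul_le_mul_of_nonneg_left (E1_norm P x i) (by positivity))
      rw [norm_smul, Real.norm_eq_abs, abs_of_pos (by have := hepos i; positivity)]
      have h3 := g3 i hij
      have h4 := (hsc ε hε δ2 hδ2 q hq i).2.1
      have h5 : ε ≤ 7 / 8 * d / (C * R) := (hε0.le).trans (min_le_left _ _)
      rw [le_div_iff₀ (by positivity)] at h5
      rw [one_div, ← div_eq_inv_mul, le_div_iff₀ (hepos i)]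
      calc R * epj α P ε q i ≤ R * (C * ε) := by gcongr
        _ = ε * (C * R) := by ring
        _ ≤ 7 / 8 * d := h5
        _ ≤ _ := h3
    refine (Finset.sum_le_sum this).trans ?_
    rw [Finset.sum_const, nsmul_eq_mul]
    refine mul_le_mul_of_nonneg_right ?_ (by positivity)
    have : ((Finset.univ.erase j).card : ℝ) ≤ Fintype.card J := by
      exact_mod_cast (Finset.card_le_univ _)
    rw [hN]; linarith
  have e2 : |ε * Psi n α P x.2 z| ≤ σ / 2 * ‖x‖ := by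
    rw [abs_mul, abs_of_pos hε]
    have h3 := (h2 x.2 z).2
    have h4 : ε ≤ σ / (2 * B) := (hε0.le).trans (min_le_right _ _)
    rw [le_div_iff₀ (by positivity)] at h4
    have h5 : C2 * (1 + Real.log (1 + ‖z‖)) ≤ B := by
      rw [hB]
      have h6 : 0 ≤ ‖z‖ := norm_nonneg z
      gcongr
    calc ε * |Psi n α P x.2 z| ≤ ε * (C2 * (1 + Real.log (1 + ‖z‖)) * ‖x.2‖) := by gcongr
      _ ≤ ε * (B * ‖x‖) := by
          gcongr
          exact norm_snd_le x
      _ = (ε * (2 * B)) / 2 * ‖x‖ := by ring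
      _ ≤ σ / 2 * ‖x‖ := by gcongr
  have e3 : N * (σ / (2 * N) * ‖x‖) = σ / 2 * ‖x‖ := by field_simp
  calc _ ≤ |∑ i ∈ Finset.univ.erase j, U n (x.1 i) ((1 / epj α P ε q i) • (z - q.1 i))| +
        |ε * Psi n α P x.2 z| := abs_add_le _ _
    _ ≤ σ / 2 * ‖x‖ + σ / 2 * ‖x‖ := add_le_add (e1.trans e3.le) e2
    _ = σ * ‖x‖ := by ring

end

end Pool.Agent.QGlue
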