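import Pool.Agent.QGlue.DefsE
import Pool.Agent.QGlue.A1
import Pool.Agent.QGlue.C
import Pool.Agent.QGlue.D1
import Pool.Agent.QGlue.D2
import Pool.Agent.QGlue.E1

/-! # The components of the fixed point map are in `L²` -/

set_option autoImplicit false

namespace Pool.Agent.QGlue

open MeasureTheory Real Set Filter Topology

variable {n : ℕ} {J : Type} [Fintype J] [DecidableEq J] {α : ℝ} (P : Pol n)

theorem FFX_memLp (hn : n = 3 ∨ n = 4) (hα : -1 < α) (d δ2 ε : ℝ) (hd : 0 < d) (hε : 0 < ε)
    (q : Par n J) (hq : q ∈ Qd d δ2 ε) (x : XX n J α P) (j : J) :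
    MemLp (FFX α P ε (d / 8) q x j) 2 (piM n) := by
  have := piM_prob hn
  have hs : 0 < epj α P ε q j := by unfold epj; positivity
  set s := epj α P ε q j with hs_def
  set f : E n → ℝ := fun y => Real.exp (n * (hj α P ε q j (q.1 j + s • y)
      + phiX α P ε q x (q.1 j + s • y))) with hf
  have hK : IsCompact {y : E n | ‖s • y‖ ≤ d / 8} := by
    have : {y : E n | ‖s • y‖ ≤ d / 8} = Metric.closedBall 0 (d / 8 / s) := by
      ext y
      rw [mem_ofPred_eq, mem_closedBall_zero_iff, norm_smul, Real.norm_of_nonneg hs.le,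
        le_div_iff₀ hs, mul_comm]
    rw [this]
    exact isCompact_closedBall _ _
  have hcont : ContinuousOn f {y : E n | ‖s • y‖ ≤ d / 8} := by
    have hg : Continuous fun y : E n => q.1 j + s • y := by fun_prop
    have h1 : ContinuousOn (fun y : E n => hj α P ε q j (q.1 j + s • y))
        {y : E n | ‖s • y‖ ≤ d / 8} := by
      refine (hj_cont_x α P d δ2 ε hd hε j q hq).comp hg.continuousOn ?_
      intro y hy
      have h2 := (hq.1 j).1
      have h3 : ‖q.1 j‖ ≤ ‖q.1 j + s • y‖ + ‖s • y‖ := by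
        have := norm_sub_le (q.1 j + s • y) (s • y)
        rwa [add_sub_cancel_right] at this
      have h4 : ‖s • y‖ ≤ d / 8 := hy
      change 7 / 8 * d ≤ ‖q.1 j + s • y‖
      linarith
    have h2 : Continuous fun y : E n => phiX α P ε q x (q.1 j + s • y) :=
      (phiX_cont P hn hα ε q x).comp hg
    exact Real.continuous_exp.comp_continuousOn
      (continuousOn_const.mul (h1.add h2.continuousOn))
  have hopen : IsOpen {y : E n | ‖s • y‖ < d / 8} :=
    isOpen_lt (by fun_prop) continuous_const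
  obtain ⟨C, hC⟩ := hK.exists_bound_of_continuousOn hcont
  have heq : FFX α P ε (d / 8) q x j =
      fun y => ({y : E n | ‖s • y‖ < d / 8}).indicator f y - (1 + q.2.2 j) := rfl
  rw [heq]
  have hmeas : AEStronglyMeasurable (({y : E n | ‖s • y‖ < d / 8}).indicator f) (piM n) := by
    rw [aestronglyMeasurable_indicator_iff hopen.measurableSet]
    have hsub : {y : E n | ‖s • y‖ < d / 8} ⊆ {y : E n | ‖s • y‖ ≤ d / 8} := by
      intro y hy
      rw [mem_ofPred_eq] at hy ⊢
      exact hy.le
    exact (hcont.mono hsub).aestronglyMeasurable hopen.measurableSet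
  have h1 : MemLp (({y : E n | ‖s • y‖ < d / 8}).indicator f) 2 (piM n) := by
    refine MemLp.of_bound hmeas (max C 0) (Eventually.of_forall fun y => ?_)
    by_cases hy : y ∈ {y : E n | ‖s • y‖ < d / 8}
    · rw [indicator_of_mem hy]
      rw [mem_ofPred_eq] at hy
      exact (hC y hy.le).trans (le_max_left _ _)
    · rw [indicator_of_notMem hy, norm_zero]
      exact le_max_right _ _
  exact h1.sub (memLp_const _)

theorem GGX_memLp (hn : n = 3 ∨ n = 4) (hα : -1 < α) (d δ2 ε : ℝ) (hd : 0 < d) (hε : 0 < ε)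
    (hε1 : ε ≤ 1) (q : Par n J) (hq : q ∈ Qd d δ2 ε) (x : XX n J α P) :
    MemLp (GGX α P ε (d / 8) q x) 2 (mu0 n α P) := by
  obtain ⟨C, hC, h1⟩ := cfg_out (n := n) (J := J) α P d hd
  obtain ⟨C', hC', h2⟩ := phiX_all (n := n) (J := J) P hn hα
  set f : E n → ℝ := fun z => Real.exp (n * (Wf α P ε q z + c0 n ε + phiX α P ε q x z)) with hf
  have hcont : Continuous f := by
    have := Wf_cont_x α P ε hε q
    have := phiX_cont P hn hα ε q x
    rw [hf]
    fun_prop
  have hclosed : IsClosed (outR (d / 8) q) := by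
    have : outR (d / 8) q = ⋂ j, {z | d / 8 ≤ ‖z - q.1 j‖} := by
      ext z
      simp [outR]
    rw [this]
    exact isClosed_iInter fun j => isClosed_le continuous_const (by fun_prop)
  have heq : GGX α P ε (d / 8) q x = fun z => (1 / ε) * (outR (d / 8) q).indicator f z := rfl
  rw [heq]
  obtain ⟨K, hK⟩ := exists_nat_ge (n * (C' * ‖x‖))
  set A : ℝ := Real.exp (n * (C + c0 n ε + C' * ‖x‖)) with hA
  have hbound : ∀ z, ‖(outR (d / 8) q).indicator f z‖ ≤ A * (1 + ‖z‖) ^ K := by
    intro z
    by_cases hz : z ∈ outR (d / 8) q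
    · rw [indicator_of_mem hz, hf]
      simp only
      rw [Real.norm_of_nonneg (Real.exp_pos _).le]
      have g1 := h1 ε hε hε1 δ2 q hq z hz
      have g2 := (abs_le.1 (h2 ε hε.le hε1 q x z)).2
      have hz0 : 0 < 1 + ‖z‖ := by positivity
      have hn0 : (0 : ℝ) ≤ n := Nat.cast_nonneg n
      have hlog : 0 ≤ Real.log (1 + ‖z‖) := Real.log_nonneg (by linarith [norm_nonneg z])
      calc Real.exp (n * (Wf α P ε q z + c0 n ε + phiX α P ε q x z))
          ≤ Real.exp (n * (C + c0 n ε + C' * ‖x‖) + K * Real.log (1 + ‖z‖)) := by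
            refine Real.exp_le_exp.2 ?_
            have g3 : (n : ℝ) * (Wf α P ε q z + c0 n ε + phiX α P ε q x z) ≤
                n * (C + c0 n ε + C' * (1 + Real.log (1 + ‖z‖)) * ‖x‖) :=
              mul_le_mul_of_nonneg_left (by linarith) hn0
            have g4 : n * (C' * ‖x‖) * Real.log (1 + ‖z‖) ≤ K * Real.log (1 + ‖z‖) :=
              mul_le_mul_of_nonneg_right hK hlog
            linarith
        _ = A * (1 + ‖z‖) ^ K := by
            rw [Real.exp_add, mul_comm (K : ℝ), Real.exp_mul (Real.log _), Real.exp_log hz0,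
              Real.rpow_natCast]
    · rw [indicator_of_notMem hz, norm_zero]
      positivity
  have hmeas : AEStronglyMeasurable ((outR (d / 8) q).indicator f) (mu0 n α P) :=
    (hcont.aestronglyMeasurable).indicator hclosed.measurableSet
  have h3 : MemLp ((outR (d / 8) q).indicator f) 2 (mu0 n α P) := by
    rw [memLp_two_iff_integrable_sq hmeas]
    have h4 := (mu0_moment hn hα P (2 * K)).const_mul (A ^ 2)
    refine h4.mono' (hmeas.pow 2) (Eventually.of_forall fun z => ?_)
    rw [norm_pow]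
    calc ‖(outR (d / 8) q).indicator f z‖ ^ 2 ≤ (A * (1 + ‖z‖) ^ K) ^ 2 :=
          pow_le_pow_left₀ (norm_nonneg _) (hbound z) 2
      _ = A ^ 2 * (1 + ‖z‖) ^ (2 * K) := by
          rw [mul_pow, ← pow_mul, mul_comm K 2]
  exact h3.const_mul (1 / ε)

end Pool.Agent.QGlue
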