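import Pool.Agent.QGlue.DefsE
import Pool.Agent.QGlue.D1

/-! # The ratio of the density to the bubble -/

set_option autoImplicit false

namespace Pool.Agent.QGlue

open MeasureTheory Real Set Filter Topology

private lemma E3a_exp1 (X : ℝ) : |Real.exp X - 1| ≤ |X| * Real.exp |X| := by
  rcases le_total 0 X with h | h
  · have h1 : 0 ≤ Real.exp X - 1 := by linarith [Real.add_one_le_exp X]
    rw [abs_of_nonneg h1, abs_of_nonneg h]
    have h2 : 1 - X ≤ Real.exp (-X) := by linarith [Real.add_one_le_exp (-X)]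
    have h3 : Real.exp X * Real.exp (-X) = 1 := by rw [← Real.exp_add]; simp
    nlinarith [Real.exp_pos X]
  · have h1 : Real.exp X - 1 ≤ 0 := by
      have := Real.exp_le_one_iff.2 h
      linarith
    rw [abs_of_nonpos h1, abs_of_nonpos h]
    have h2 : 1 + X ≤ Real.exp X := by linarith [Real.add_one_le_exp X]
    have h3 : 1 ≤ Real.exp (-X) := Real.one_le_exp (by linarith)
    nlinarith

private lemma E3a_exp2 (X : ℝ) : |Real.exp X - 1 - X| ≤ X ^ 2 * Real.exp |X| := by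
  have h1 : 0 ≤ Real.exp X - 1 - X := by linarith [Real.add_one_le_exp X]
  rw [abs_of_nonneg h1]
  have h2 : 1 - X ≤ Real.exp (-X) := by linarith [Real.add_one_le_exp (-X)]
  have h3 : Real.exp X * Real.exp (-X) = 1 := by rw [← Real.exp_add]; simp
  have h4 : Real.exp X - 1 - X ≤ X * (Real.exp X - 1) := by nlinarith [Real.exp_pos X]
  have h5 : X * (Real.exp X - 1) ≤ |X| * |Real.exp X - 1| := by
    rw [← abs_mul]; exact le_abs_self _
  have h6 : |X| * |Real.exp X - 1| ≤ |X| * (|X| * Real.exp |X|) :=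
    mul_le_mul_of_nonneg_left (E3a_exp1 X) (abs_nonneg X)
  have h7 : |X| * (|X| * Real.exp |X|) = X ^ 2 * Real.exp |X| := by
    rw [← sq_abs X]; ring
  linarith

private lemma E3a_log (r : ℝ) (hr : 0 ≤ r) : |Real.log (1 + r ^ 2)| ≤ 2 * r := by
  have h1 : 0 ≤ Real.log (1 + r ^ 2) := Real.log_nonneg (by nlinarith)
  rw [abs_of_nonneg h1]
  have h2 : Real.log (1 + r ^ 2) ≤ Real.log ((1 + r) ^ 2) :=
    Real.log_le_log (by positivity) (by nlinarith)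
  have h3 : Real.log ((1 + r) ^ 2) = 2 * Real.log (1 + r) := by
    rw [Real.log_pow]; norm_num
  have h4 : Real.log (1 + r) ≤ r := by
    have := Real.log_le_sub_one_of_pos (show (0 : ℝ) < 1 + r by linarith)
    linarith
  linarith

private lemma E3a_core (EA X L M K1 K2 C1 ε r : ℝ) (hEA0 : 0 < EA) (hEA : EA ≤ M) (hK1 : 0 < K1)
    (hC1 : 0 < C1) (hε : 0 < ε) (hr : 0 ≤ r) (h1 : |X| ≤ K1 * (ε * (1 + r))) (h2 : |X| ≤ K2)
    (h3 : |X - L| ≤ 4 * C1 * (ε ^ 2 * (1 + r ^ 2))) :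
    |EA * Real.exp X - EA| ≤ (M * (K1 * Real.exp K2) + M * (2 * K1 ^ 2 * Real.exp K2 + 4 * C1))
        * ε * (1 + r) ∧
    |EA * Real.exp X - EA * (1 + L)|
      ≤ (M * (K1 * Real.exp K2) + M * (2 * K1 ^ 2 * Real.exp K2 + 4 * C1)) * ε ^ 2
        * (1 + r ^ 2) := by
  have hM0 : 0 < M := hEA0.trans_le hEA
  have hexpX : Real.exp |X| ≤ Real.exp K2 := Real.exp_le_exp.2 h2
  have hE0 : 0 < Real.exp K2 := Real.exp_pos _
  generalize Real.exp K2 = E at *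
  have hmain1 : |Real.exp X - 1| ≤ K1 * (ε * (1 + r)) * E :=
    (E3a_exp1 X).trans (mul_le_mul h1 hexpX (Real.exp_pos _).le (by positivity))
  have hp1 : 0 ≤ M * (K1 * E) := by positivity
  have hp2 : 0 ≤ M * (2 * K1 ^ 2 * E + 4 * C1) := by positivity
  have hs1 : 0 ≤ ε * (1 + r) := by positivity
  have hs2 : 0 ≤ ε ^ 2 * (1 + r ^ 2) := by positivity
  constructor
  · rw [show EA * Real.exp X - EA = EA * (Real.exp X - 1) by ring, abs_mul, abs_of_pos hEA0]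
    have h4 : EA * |Real.exp X - 1| ≤ M * (K1 * (ε * (1 + r)) * E) :=
      mul_le_mul hEA hmain1 (abs_nonneg _) hM0.le
    have h5 : 0 ≤ M * (2 * K1 ^ 2 * E + 4 * C1) * (ε * (1 + r)) := mul_nonneg hp2 hs1
    calc EA * |Real.exp X - 1| ≤ M * (K1 * (ε * (1 + r)) * E) := h4
      _ = M * (K1 * E) * (ε * (1 + r)) := by ring
      _ ≤ M * (K1 * E) * (ε * (1 + r)) + M * (2 * K1 ^ 2 * E + 4 * C1) * (ε * (1 + r)) := by
          linarith
      _ = (M * (K1 * E) + M * (2 * K1 ^ 2 * E + 4 * C1)) * ε * (1 + r) := by ring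
  · rw [show EA * Real.exp X - EA * (1 + L) = EA * ((Real.exp X - 1 - X) + (X - L)) by ring,
      abs_mul, abs_of_pos hEA0]
    have ha : |X| ^ 2 ≤ (K1 * (ε * (1 + r))) ^ 2 := pow_le_pow_left₀ (abs_nonneg _) h1 2
    have hb : (K1 * (ε * (1 + r))) ^ 2 ≤ K1 ^ 2 * (2 * (ε ^ 2 * (1 + r ^ 2))) := by
      have hc : (1 + r) ^ 2 ≤ 2 * (1 + r ^ 2) := by nlinarith [sq_nonneg (1 - r)]
      have hd : (K1 * (ε * (1 + r))) ^ 2 = (K1 ^ 2 * ε ^ 2) * (1 + r) ^ 2 := by ring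
      have he : K1 ^ 2 * (2 * (ε ^ 2 * (1 + r ^ 2))) = (K1 ^ 2 * ε ^ 2) * (2 * (1 + r ^ 2)) := by
        ring
      rw [hd, he]
      exact mul_le_mul_of_nonneg_left hc (by positivity)
    have hf : X ^ 2 ≤ K1 ^ 2 * (2 * (ε ^ 2 * (1 + r ^ 2))) := by
      rw [← sq_abs X]
      exact ha.trans hb
    have hg : |Real.exp X - 1 - X| ≤ K1 ^ 2 * (2 * (ε ^ 2 * (1 + r ^ 2))) * E :=
      (E3a_exp2 X).trans (mul_le_mul hf hexpX (Real.exp_pos _).le (by positivity))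
    have hh : |(Real.exp X - 1 - X) + (X - L)|
        ≤ K1 ^ 2 * (2 * (ε ^ 2 * (1 + r ^ 2))) * E + 4 * C1 * (ε ^ 2 * (1 + r ^ 2)) :=
      (abs_add_le _ _).trans (add_le_add hg h3)
    have hi : EA * |(Real.exp X - 1 - X) + (X - L)|
        ≤ M * (K1 ^ 2 * (2 * (ε ^ 2 * (1 + r ^ 2))) * E + 4 * C1 * (ε ^ 2 * (1 + r ^ 2))) :=
      mul_le_mul hEA hh (abs_nonneg _) hM0.le
    have h5 : 0 ≤ M * (K1 * E) * (ε ^ 2 * (1 + r ^ 2)) := mul_nonneg hp1 hs2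
    calc EA * |(Real.exp X - 1 - X) + (X - L)|
        ≤ M * (K1 ^ 2 * (2 * (ε ^ 2 * (1 + r ^ 2))) * E + 4 * C1 * (ε ^ 2 * (1 + r ^ 2))) := hi
      _ = M * (2 * K1 ^ 2 * E + 4 * C1) * (ε ^ 2 * (1 + r ^ 2)) := by ring
      _ ≤ M * (K1 * E) * (ε ^ 2 * (1 + r ^ 2))
          + M * (2 * K1 ^ 2 * E + 4 * C1) * (ε ^ 2 * (1 + r ^ 2)) := by linarith
      _ = (M * (K1 * E) + M * (2 * K1 ^ 2 * E + 4 * C1)) * ε ^ 2 * (1 + r ^ 2) := by ring

theorem ratio_est {n : ℕ} {J : Type} [Fintype J] [DecidableEq J]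
    (hn : n = 3 ∨ n = 4) (α : ℝ) (P : Pol n) (d σ : ℝ) (hd : 0 < d) (hσ : 0 < σ) :
    ∃ ε0 C : ℝ, 0 < ε0 ∧ 0 < C ∧ ∀ ε, 0 < ε → ε < ε0 → ∀ δ2 ≤ (1 : ℝ),
    ∀ q ∈ Qd (n := n) (J := J) d δ2 ε, ∀ j,
      ∃ A : ℝ, |A - q.2.1 j| ≤ σ ∧ ∀ y, ‖epj α P ε q j • y‖ < d / 8 →
        |Real.exp (n * hj α P ε q j (q.1 j + epj α P ε q j • y)) - Real.exp (n * A)|
          ≤ C * ε * (1 + ‖y‖) ∧
        |Real.exp (n * hj α P ε q j (q.1 j + epj α P ε q j • y))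
          - Real.exp (n * A) * (1 + n * (epj α P ε q j * inner ℝ (Dj α P q.1 j) y
              - q.2.2 j * Real.log (1 + ‖y‖ ^ 2)))| ≤ C * ε ^ 2 * (1 + ‖y‖ ^ 2) := by
  obtain ⟨C2, hC2, hsc⟩ := cfg_scale (J := J) α P d hd
  obtain ⟨ε1, C1, hε1, hC1, hest⟩ := cfg_est (J := J) α P d σ hd hσ
  have hn0 : (0 : ℝ) ≤ n := Nat.cast_nonneg n
  have hn4 : (n : ℝ) ≤ 4 := by
    rcases hn with h | h <;> rw [h] <;> norm_num
  set B : ℝ := 1 + C2 * (d / 8) with hB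
  have hB1 : 1 ≤ B := by rw [hB]; have : 0 < C2 * (d / 8) := by positivity
                         linarith
  have hB0 : 0 < B := by linarith
  set K1 : ℝ := 4 * (C2 ^ 2 + 2 + C1 * B) with hK1
  have hK10 : 0 < K1 := by positivity
  set K2 : ℝ := K1 * B with hK2
  set M : ℝ := Real.exp (4 * (1 + σ)) with hM
  have hM0 : 0 < M := Real.exp_pos _
  set C : ℝ := M * (K1 * Real.exp K2) + M * (2 * K1 ^ 2 * Real.exp K2 + 4 * C1) with hC
  refine ⟨min ε1 1, C, lt_min hε1 one_pos, by positivity, ?_⟩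
  intro ε hε hεm δ2 hδ2 q hq j
  have hεε1 : ε < ε1 := lt_of_lt_of_le hεm (min_le_left _ _)
  have hε11 : ε ≤ 1 := (lt_of_lt_of_le hεm (min_le_right _ _)).le
  obtain ⟨hs1, hs2, hs3⟩ := hsc ε hε δ2 hδ2 q hq j
  obtain ⟨A, hA, hy⟩ := hest ε hε hεε1 δ2 hδ2 q hq j
  refine ⟨A, hA, ?_⟩
  intro y hyb
  have h0 := hy y hyb
  set e : ℝ := epj α P ε q j with he
  set D := Dj α P q.1 j with hD
  set H : ℝ := hj α P ε q j (q.1 j + e • y) with hH
  set lam : ℝ := e * inner ℝ D y - q.2.2 j * Real.log (1 + ‖y‖ ^ 2) with hlam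
  have he0 : 0 < e := lt_of_lt_of_le (by positivity) hs1
  have hr0 : 0 ≤ ‖y‖ := norm_nonneg y
  have hεe : ε ≤ C2 * e := by
    rw [div_le_iff₀ hC2] at hs1
    linarith
  have hry : ε * ‖y‖ ≤ C2 * (d / 8) := by
    rw [norm_smul, Real.norm_of_nonneg he0.le] at hyb
    calc ε * ‖y‖ ≤ C2 * e * ‖y‖ := by gcongr
      _ = C2 * (e * ‖y‖) := by ring
      _ ≤ C2 * (d / 8) := by gcongr
  have hm : |q.2.2 j| ≤ ε := hq.2.2.2 j
  have ht : |q.2.1 j| ≤ δ2 := hq.2.2.1 j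
  have hlam1 : |lam| ≤ (C2 ^ 2 + 2) * ε * ‖y‖ := by
    have h1 : |e * inner ℝ D y| ≤ C2 * ε * (C2 * ‖y‖) := by
      rw [abs_mul, abs_of_pos he0]
      have h2 : |inner ℝ D y| ≤ ‖D‖ * ‖y‖ := abs_real_inner_le_norm D y
      have h3 : ‖D‖ * ‖y‖ ≤ C2 * ‖y‖ := by gcongr
      exact mul_le_mul hs2 (h2.trans h3) (abs_nonneg _) (by positivity)
    have h2 : |q.2.2 j * Real.log (1 + ‖y‖ ^ 2)| ≤ ε * (2 * ‖y‖) := by
      rw [abs_mul]
      exact mul_le_mul hm (E3a_log _ hr0) (abs_nonneg _) hε.le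
    calc |lam| ≤ |e * inner ℝ D y| + |q.2.2 j * Real.log (1 + ‖y‖ ^ 2)| := abs_sub _ _
      _ ≤ C2 * ε * (C2 * ‖y‖) + ε * (2 * ‖y‖) := add_le_add h1 h2
      _ = (C2 ^ 2 + 2) * ε * ‖y‖ := by ring
  have hrem : |H - A - lam| ≤ C1 * ε ^ 2 * (1 + ‖y‖ ^ 2) := by
    have : H - A - lam = H - (A + e * inner ℝ D y - q.2.2 j * Real.log (1 + ‖y‖ ^ 2)) := by
      rw [hlam]; ring
    rw [this]
    exact h0
  have hB2 : ε * (1 + ‖y‖) ≤ B := by
    rw [hB]; nlinarith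
  have hrem2 : C1 * ε ^ 2 * (1 + ‖y‖ ^ 2) ≤ C1 * B * ε * (1 + ‖y‖) := by
    have h1 : ε ^ 2 * (1 + ‖y‖ ^ 2) ≤ B * ε * (1 + ‖y‖) := by
      have h2 : ε * (1 + ‖y‖ ^ 2) ≤ B * (1 + ‖y‖) := by
        have h3 : ε * (1 + ‖y‖ ^ 2) ≤ ε * (1 + ‖y‖) * (1 + ‖y‖) := by nlinarith
        exact h3.trans (by gcongr)
      nlinarith
    nlinarith
  set X : ℝ := n * (H - A) with hX
  have hX1 : |X| ≤ K1 * (ε * (1 + ‖y‖)) := by
    have h1 : |H - A| ≤ (C2 ^ 2 + 2) * ε * ‖y‖ + C1 * B * ε * (1 + ‖y‖) := by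
      calc |H - A| = |lam + (H - A - lam)| := by congr 1; ring
        _ ≤ |lam| + |H - A - lam| := abs_add_le _ _
        _ ≤ _ := add_le_add hlam1 (hrem.trans hrem2)
    have h2 : |H - A| ≤ (C2 ^ 2 + 2 + C1 * B) * (ε * (1 + ‖y‖)) := by
      refine h1.trans ?_
      have : (C2 ^ 2 + 2) * ε * ‖y‖ ≤ (C2 ^ 2 + 2) * (ε * (1 + ‖y‖)) := by nlinarith [sq_nonneg C2]
      nlinarith
    rw [hX, abs_mul, abs_of_nonneg hn0]
    calc (n : ℝ) * |H - A| ≤ 4 * ((C2 ^ 2 + 2 + C1 * B) * (ε * (1 + ‖y‖))) :=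
          mul_le_mul hn4 h2 (abs_nonneg _) (by norm_num)
      _ = K1 * (ε * (1 + ‖y‖)) := by rw [hK1]; ring
  have hX2 : |X| ≤ K2 := by
    refine hX1.trans ?_
    rw [hK2]
    gcongr
  have hAb : Real.exp (n * A) ≤ M := by
    rw [hM]
    refine Real.exp_le_exp.2 ?_
    have h1 : |A| ≤ 1 + σ := by
      calc |A| = |(A - q.2.1 j) + q.2.1 j| := by congr 1; ring
        _ ≤ |A - q.2.1 j| + |q.2.1 j| := abs_add_le _ _
        _ ≤ σ + 1 := add_le_add hA (ht.trans hδ2)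
        _ = 1 + σ := by ring
    have h2 : n * A ≤ n * |A| := by
      gcongr
      exact le_abs_self A
    have h3 : (n : ℝ) * |A| ≤ 4 * (1 + σ) := mul_le_mul hn4 h1 (abs_nonneg _) (by norm_num)
    linarith
  have hA0 : 0 < Real.exp (n * A) := Real.exp_pos _
  have hEH : Real.exp (n * H) = Real.exp (n * A) * Real.exp X := by
    rw [← Real.exp_add, hX]; congr 1; ring
  rw [hEH]
  refine E3a_core (Real.exp (n * A)) X (n * lam) M K1 K2 C1 ε ‖y‖ hA0 hAb hK10 hC1 hε hr0 hX1 hX2 ?_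
  have hXL : X - n * lam = n * (H - A - lam) := by rw [hX]; ring
  rw [hXL, abs_mul, abs_of_nonneg hn0]
  have := mul_le_mul hn4 hrem (abs_nonneg _) (by norm_num)
  refine this.trans (le_of_eq ?_)
  ring

end Pool.Agent.QGlue
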