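import Pool.Agent.QGlue.DefsE
import Pool.Agent.QGlue.A1
import Pool.Agent.QGlue.A4
import Pool.Agent.QGlue.A5
import Pool.Agent.QGlue.D1
import Pool.Agent.QGlue.E0
import Pool.Agent.QGlue.E1
import Pool.Agent.QGlue.E2
import Pool.Agent.QGlue.E3a

/-!
# MP_77c265_an, package E3b: the contraction estimate of the bubble components
-/

set_option autoImplicit false

namespace Pool.Agent.QGlue

open MeasureTheory Real Set Filter Topology

/-- Difference of exponentials compared with the difference of the exponents. -/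
private theorem E3b_exp (a b M : ℝ) (ha : |Real.exp a - 1| ≤ M) (hb : |Real.exp b - 1| ≤ M) :
    |Real.exp a - Real.exp b - (a - b)| ≤ |a - b| * M := by
  -- by symmetry and monotonicity
  have key : ∀ a b : ℝ, b ≤ a → |Real.exp a - 1| ≤ M → |Real.exp b - 1| ≤ M →
      |Real.exp a - Real.exp b - (a - b)| ≤ |a - b| * M := by
    intro a b hab ha hb
    have h1 : Real.exp b * (a - b) ≤ Real.exp a - Real.exp b := by
      have := Real.add_one_le_exp (a - b)
      have h2 : Real.exp a = Real.exp b * Real.exp (a - b) := by rw [← Real.exp_add]; ring_nf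
      rw [h2]
      nlinarith [Real.exp_pos b]
    have h2 : Real.exp a - Real.exp b ≤ Real.exp a * (a - b) := by
      have := Real.add_one_le_exp (b - a)
      have h2 : Real.exp b = Real.exp a * Real.exp (b - a) := by rw [← Real.exp_add]; ring_nf
      rw [h2]
      nlinarith [Real.exp_pos a]
    rw [abs_le] at ha hb
    have hab' : 0 ≤ a - b := by linarith
    rw [abs_of_nonneg hab', abs_le]
    constructor
    · nlinarith
    · nlinarith
  rcases le_total b a with h | h
  · exact key a b h ha hb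
  · have := key b a h hb ha
    rw [abs_sub_comm b a] at this
    rw [← abs_neg]
    convert this using 2
    ring

/-- The linear weight is square integrable. -/
private theorem E3b_lin {n : ℕ} (hn : n = 3 ∨ n = 4) (a b : ℝ) :
    MemLp (fun y : E n => a + b * (1 + ‖y‖)) 2 (piM n) := by
  have := piM_prob hn
  have hc : Continuous (fun y : E n => ‖y‖) := continuous_norm
  have h1 : MemLp (fun y : E n => ‖y‖) 2 (piM n) := by
    rw [memLp_two_iff_integrable_sq hc.aestronglyMeasurable]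
    exact int_sq hn
  exact (memLp_const a).add (((memLp_const (1 : ℝ)).add h1).const_mul b)

/-- Norm of `a + b (1 + ‖y‖)`. -/
private theorem E3b_lin_norm {n : ℕ} (hn : n = 3 ∨ n = 4) (a b : ℝ) (ha : 0 ≤ a) (hb : 0 ≤ b) :
    ‖toL (piM n) (fun y : E n => a + b * (1 + ‖y‖))‖
      ≤ a + b * ‖toL (piM n) (fun y : E n => 0 + 1 * (1 + ‖y‖))‖ := by
  have := piM_prob hn
  have e : toL (piM n) (fun y : E n => a + b * (1 + ‖y‖))
      = toL (piM n) (fun _ : E n => a) + b • toL (piM n) (fun y : E n => 0 + 1 * (1 + ‖y‖)) := by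
    have h1 := toL_coe (piM n) _ (E3b_lin hn a b)
    have h2 := toL_coe (piM n) _ (E3b_lin hn 0 1)
    have h3 := toL_coe (piM n) (fun _ : E n => a) (memLp_const a)
    apply Lp.ext
    filter_upwards [h1, h2, h3, Lp.coeFn_add (toL (piM n) (fun _ : E n => a))
      (b • toL (piM n) (fun y : E n => 0 + 1 * (1 + ‖y‖))),
      Lp.coeFn_smul b (toL (piM n) (fun y : E n => 0 + 1 * (1 + ‖y‖)))] with y e1 e2 e3 e4 e5
    rw [e1, e4]
    simp only [Pi.add_apply]
    rw [e3, e5]
    simp only [Pi.smul_apply, smul_eq_mul]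
    rw [e2]
    ring
  rw [e]
  refine (norm_add_le _ _).trans ?_
  rw [norm_smul, Real.norm_eq_abs, abs_of_nonneg hb]
  have := toL_norm_le (piM n) (fun _ : E n => a) aestronglyMeasurable_const a
    (fun _ => by rw [abs_of_nonneg ha])
  linarith

/-- The choice of the small constants. -/
private theorem E3b_small (B η : ℝ) (hη : 0 < η) :
    ∃ t : ℝ, 0 < t ∧ t ≤ 1 ∧ 4 * B * (Real.exp (12 * t) - 1) ≤ η ∧ 4 * t ≤ η := by
  have h1 : Tendsto (fun t : ℝ => 4 * B * (Real.exp (12 * t) - 1)) (𝓝 0) (𝓝 0) := by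
    have : Continuous (fun t : ℝ => 4 * B * (Real.exp (12 * t) - 1)) := by fun_prop
    have h := this.tendsto 0
    simpa using h
  have h2 := h1.eventually (gt_mem_nhds hη)
  rw [Metric.eventually_nhds_iff] at h2
  obtain ⟨s, hs, h3⟩ := h2
  refine ⟨min (s / 2) (min 1 (η / 4)), by positivity, (min_le_right _ _).trans (min_le_left _ _),
    ?_, ?_⟩
  · apply le_of_lt
    apply h3
    rw [Real.dist_eq, sub_zero, abs_of_nonneg (by positivity)]
    exact lt_of_le_of_lt (min_le_left _ _) (by linarith)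
  · have : min (s / 2) (min 1 (η / 4)) ≤ η / 4 := (min_le_right _ _).trans (min_le_right _ _)
    linarith

/-- The pointwise estimate. -/
private theorem E3b_point {n : ℕ} (hn : n = 3 ∨ n = 4) {θ0 CU t : ℝ}
    (hCU : 0 < CU) (ht : 0 < t) (ht1 : t ≤ 1)
    (h A φ φ' u u' c y1 Ce m N : ℝ)
    (hN : 0 ≤ N)
    (hA : |A| ≤ 2 * t)
    (hh : |Real.exp (n * h) - Real.exp (n * A)| ≤ Ce * y1)
    (hφ : |φ| ≤ t) (hφ' : |φ'| ≤ t)
    (hd : |φ - φ' - (u - u')| ≤ t * N)
    (hu : |u - u'| ≤ CU * N)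
    (hc : |n * (u - u') - c| ≤ θ0 * N) :
    |(Real.exp (n * (h + φ)) - (1 + m)) - (Real.exp (n * (h + φ')) - (1 + m)) - c|
      ≤ N * ((θ0 + 4 * t + 4 * (CU + 1) * (Real.exp (12 * t) - 1))
        + 4 * (CU + 1) * Real.exp 4 * Ce * y1) := by
  have hn4 : (n : ℝ) ≤ 4 := by rcases hn with h | h <;> subst h <;> norm_num
  have hn0 : (0 : ℝ) ≤ n := Nat.cast_nonneg n
  have hb : ∀ φ : ℝ, |φ| ≤ t → |Real.exp (n * (h + φ)) - 1|
      ≤ Real.exp 4 * (Ce * y1) + (Real.exp (12 * t) - 1) := by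
    intro φ hφ
    have e1 : Real.exp (n * (h + φ)) - 1 = Real.exp (n * φ) * (Real.exp (n * h) - Real.exp (n * A))
        + (Real.exp (n * A + n * φ) - 1) := by
      rw [Real.exp_add, mul_add, Real.exp_add]; ring
    rw [e1]
    have h1 : |n * A + n * φ| ≤ 12 * t := by
      rw [← mul_add, abs_mul, abs_of_nonneg hn0]
      have : |A + φ| ≤ 3 * t := (abs_add_le _ _).trans (by linarith)
      nlinarith [abs_nonneg (A + φ)]
    have h2 : Real.exp (n * φ) ≤ Real.exp 4 := by
      apply Real.exp_le_exp.2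
      have : φ ≤ 1 := (le_abs_self φ).trans (hφ.trans ht1)
      nlinarith
    have h3 : |Real.exp (n * A + n * φ) - 1| ≤ Real.exp (12 * t) - 1 := by
      rw [abs_le] at h1 ⊢
      constructor
      · have h5 := Real.exp_le_exp.2 h1.1
        have h6 : Real.exp (-(12 * t)) + Real.exp (12 * t) ≥ 2 := by
          have h7 := Real.add_one_le_exp (12 * t)
          have h8 : Real.exp (-(12 * t)) * Real.exp (12 * t) = 1 := by
            rw [← Real.exp_add]; simp
          nlinarith [Real.exp_pos (12 * t), Real.exp_pos (-(12 * t)),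
            sq_nonneg (Real.exp (-(12 * t)) - Real.exp (12 * t)),
            sq_nonneg (Real.exp (-(12 * t)) + Real.exp (12 * t) - 2)]
        linarith
      · have h5 := Real.exp_le_exp.2 h1.2
        linarith
    refine (abs_add_le _ _).trans ?_
    rw [abs_mul, abs_of_pos (Real.exp_pos _)]
    have : Real.exp (n * φ) * |Real.exp (n * h) - Real.exp (n * A)| ≤ Real.exp 4 * (Ce * y1) := by
      gcongr
    linarith
  have hE := E3b_exp _ _ _ (hb φ hφ) (hb φ' hφ')
  set M := Real.exp 4 * (Ce * y1) + (Real.exp (12 * t) - 1) with hM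
  have hM0 : 0 ≤ M := (abs_nonneg _).trans (hb φ hφ)
  have e2 : n * (h + φ) - n * (h + φ') = n * (φ - φ') := by ring
  rw [e2] at hE
  have h5 : |(n : ℝ) * (φ - φ')| ≤ 4 * ((CU + 1) * N) := by
    rw [abs_mul, abs_of_nonneg hn0]
    have : |φ - φ'| ≤ (CU + 1) * N := by
      have : φ - φ' = (φ - φ' - (u - u')) + (u - u') := by ring
      rw [this]
      refine (abs_add_le _ _).trans ?_
      nlinarith
    have h6 : 0 ≤ (CU + 1) * N := by positivity
    calc (n : ℝ) * |φ - φ'| ≤ 4 * |φ - φ'| := by gcongr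
      _ ≤ _ := by gcongr
  have e3 : (Real.exp (n * (h + φ)) - (1 + m)) - (Real.exp (n * (h + φ')) - (1 + m)) - c
      = (Real.exp (n * (h + φ)) - Real.exp (n * (h + φ')) - n * (φ - φ'))
        + n * (φ - φ' - (u - u')) + (n * (u - u') - c) := by ring
  rw [e3]
  refine (abs_add_le _ _).trans ?_
  have h7 : |(n : ℝ) * (φ - φ' - (u - u'))| ≤ 4 * (t * N) := by
    rw [abs_mul, abs_of_nonneg hn0]
    calc (n : ℝ) * |φ - φ' - (u - u')| ≤ 4 * |φ - φ' - (u - u')| := by gcongr
      _ ≤ _ := by gcongr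
  have h8 := abs_add_le (Real.exp (n * (h + φ)) - Real.exp (n * (h + φ')) - n * (φ - φ'))
    (n * (φ - φ' - (u - u')))
  have h9 : |(n : ℝ) * (φ - φ')| * M ≤ 4 * ((CU + 1) * N) * M := by gcongr
  calc _ ≤ 4 * ((CU + 1) * N) * M + 4 * (t * N) + θ0 * N := by linarith
    _ = _ := by rw [hM]; ring

theorem FF_contr {n : ℕ} (hn : n = 3 ∨ n = 4) : ∃ δ2 r θ : ℝ, 0 < δ2 ∧ δ2 ≤ 1 ∧ 0 < r ∧ r ≤ 1 ∧ 0 < θ ∧
    θ < 1 ∧ ∀ (J : Type) [Fintype J] [DecidableEq J] (α : ℝ) (P : Pol n) (d : ℝ), -1 < α → 0 < d →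
    ∃ ε0 : ℝ, 0 < ε0 ∧ ∀ ε, 0 < ε → ε < ε0 → ∀ q ∈ Qd (n := n) (J := J) d δ2 ε,
      ∀ x x' : XX n J α P, ‖x‖ ≤ r → ‖x'‖ ≤ r → ∀ j,
        ‖PP n (toL (piM n) (FFX α P ε (d / 8) q x j))
          - PP n (toL (piM n) (FFX α P ε (d / 8) q x' j))‖ ≤ θ * ‖x - x'‖ := by
  have := piM_prob hn
  obtain ⟨θ0, hθ0, hθ1, hU⟩ := U_contr hn
  obtain ⟨CU, hCU, hUb⟩ := U_bound hn
  obtain ⟨t, ht, ht1, ht2, ht3⟩ := E3b_small (CU + 1) ((1 - θ0) / 8) (by linarith)
  have hn4 : (n : ℝ) ≤ 4 := by rcases hn with h | h <;> subst h <;> norm_num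
  have hn0 : (0 : ℝ) ≤ n := Nat.cast_nonneg n
  have hCU1 : 0 < CU + 1 := by linarith
  refine ⟨t, t / (CU + 1), (1 + θ0) / 2, ht, ht1, by positivity, ?_, by linarith, by linarith, ?_⟩
  · rw [div_le_one hCU1]; linarith
  intro J _ _ α P d hα hd
  obtain ⟨C1, hC1, hsc⟩ := cfg_scale (n := n) (J := J) α P d hd
  obtain ⟨ε1, hε1, hball⟩ := phiX_ball (n := n) (J := J) (α := α) P hn hα d t hd ht
  obtain ⟨ε2, C2, hε2, hC2, hrat⟩ := ratio_est (n := n) (J := J) hn α P d t hd ht
  set M := ‖toL (piM n) (fun y : E n => 0 + 1 * (1 + ‖y‖))‖ with hM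
  have hM0 : 0 ≤ M := norm_nonneg _
  set K := 4 * (CU + 1) * Real.exp 4 * C2 + 4 * CU * (C1 * 8 / d) with hK
  have hK0 : 0 ≤ K := by positivity
  refine ⟨min ε1 (min ε2 ((1 - θ0) / 8 / (K * M + 1))), ?_, ?_⟩
  · have : 0 < (1 - θ0) / 8 / (K * M + 1) := by
      apply div_pos (by linarith) (by positivity)
    exact lt_min hε1 (lt_min hε2 this)
  intro ε hε hεs q hq x x' hx hx' j
  have hl1 : ε < ε1 := lt_of_lt_of_le hεs (min_le_left _ _)
  have hl2 : ε < ε2 := lt_of_lt_of_le hεs ((min_le_right _ _).trans (min_le_left _ _))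
  have hl3 : ε < (1 - θ0) / 8 / (K * M + 1) :=
    lt_of_lt_of_le hεs ((min_le_right _ _).trans (min_le_right _ _))
  have hl4 : ε * (K * M) ≤ (1 - θ0) / 8 := by
    rw [lt_div_iff₀ (by positivity)] at hl3
    nlinarith
  obtain ⟨hs1, hs2, -⟩ := hsc ε hε t ht1 q hq j
  obtain ⟨A, hA1, hA2⟩ := hrat ε hε hl2 t ht1 q hq j
  have hqt : |q.2.1 j| ≤ t := hq.2.2.1 j
  have hA : |A| ≤ 2 * t := by
    have : A = (A - q.2.1 j) + q.2.1 j := by ring
    rw [this]
    exact (abs_add_le _ _).trans (by linarith)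
  set N := ‖x - x'‖ with hN
  have hN0 : 0 ≤ N := norm_nonneg _
  have hcomp : ∀ z : XX n J α P, ‖z.1 j‖ ≤ ‖z‖ := fun z =>
    (norm_le_pi_norm z.1 j).trans (norm_fst_le z)
  obtain ⟨c, hc⟩ := hU ((x - x').1 j)
  have hUx : ∀ y, U n ((x - x').1 j) y = U n (x.1 j) y - U n (x'.1 j) y := by
    intro y
    have : (x - x').1 j = x.1 j - x'.1 j := rfl
    rw [this]
    exact U_sub hn _ _ y
  have hF := FFX_memLp (n := n) (J := J) (α := α) P hn hα d t ε hd hε q hq x j
  have hF' := FFX_memLp (n := n) (J := J) (α := α) P hn hα d t ε hd hε q hq x' j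
  have e1 : PP n (toL (piM n) (FFX α P ε (d / 8) q x j))
      - PP n (toL (piM n) (FFX α P ε (d / 8) q x' j))
      = PP n (toL (piM n) (fun y => FFX α P ε (d / 8) q x j y - FFX α P ε (d / 8) q x' j y - c)) := by
    have h1 := toL_sub (piM n) _ _ hF hF'
    have h2 := toL_sub (piM n) (fun y => FFX α P ε (d / 8) q x j y - FFX α P ε (d / 8) q x' j y)
      (fun _ => c) (hF.sub hF') (memLp_const c)
    rw [← h2, ← h1, PP_sub, PP_const hn, sub_zero, PP_sub]
  rw [e1]
  refine (PP_norm _).trans ?_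
  have hmem : MemLp (fun y => FFX α P ε (d / 8) q x j y - FFX α P ε (d / 8) q x' j y - c) 2
      (piM n) := (hF.sub hF').sub (memLp_const c)
  set a := N * (θ0 + 4 * t + 4 * (CU + 1) * (Real.exp (12 * t) - 1)) with ha
  set b := N * (ε * K) with hb
  have hexp : 0 ≤ Real.exp (12 * t) - 1 := by
    have := Real.add_one_le_exp (12 * t); linarith
  have ha0 : 0 ≤ a := by positivity
  have hb0 : 0 ≤ b := by positivity
  have hpt : ∀ y, |FFX α P ε (d / 8) q x j y - FFX α P ε (d / 8) q x' j y - c|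
      ≤ |a + b * (1 + ‖y‖)| := by
    intro y
    have hr : 0 ≤ a + b * (1 + ‖y‖) := by positivity
    rw [abs_of_nonneg hr]
    by_cases hy : ‖epj α P ε q j • y‖ < d / 8
    · have eF : ∀ z : XX n J α P, FFX α P ε (d / 8) q z j y
          = Real.exp (n * (hj α P ε q j (q.1 j + epj α P ε q j • y)
            + phiX α P ε q z (q.1 j + epj α P ε q j • y))) - (1 + q.2.2 j) := by
        intro z
        unfold FFX FF
        rw [Set.indicator_of_mem (by exact hy)]
        rfl
      rw [eF x, eF x']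
      have hφ : ∀ z : XX n J α P, ‖z‖ ≤ t / (CU + 1) →
          |phiX α P ε q z (q.1 j + epj α P ε q j • y)| ≤ t := by
        intro z hz
        have h1 := hball ε hε hl1 t ht1 q hq j z y hy
        have h2 := hUb (z.1 j) y
        have h3 : phiX α P ε q z (q.1 j + epj α P ε q j • y)
            = (phiX α P ε q z (q.1 j + epj α P ε q j • y) - U n (z.1 j) y) + U n (z.1 j) y := by
          ring
        rw [h3]
        refine (abs_add_le _ _).trans ?_
        have h4 := hcomp z
        have h5 : CU * ‖z.1 j‖ ≤ CU * ‖z‖ := by gcongr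
        have h6 : t * ‖z‖ ≤ 1 * ‖z‖ := by gcongr
        have h7 : (CU + 1) * ‖z‖ ≤ t := by
          rw [le_div_iff₀ hCU1] at hz; linarith
        linarith
      have hd1 : |phiX α P ε q x (q.1 j + epj α P ε q j • y)
          - phiX α P ε q x' (q.1 j + epj α P ε q j • y) - (U n (x.1 j) y - U n (x'.1 j) y)|
          ≤ t * N := by
        rw [← phiX_sub P hn hα, ← hUx]
        exact hball ε hε hl1 t ht1 q hq j (x - x') y hy
      have hu1 : |U n (x.1 j) y - U n (x'.1 j) y| ≤ CU * N := by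
        rw [← hUx]
        refine (hUb _ y).trans ?_
        have := hcomp (x - x')
        gcongr
      have hc1 : |n * (U n (x.1 j) y - U n (x'.1 j) y) - c| ≤ θ0 * N := by
        rw [← hUx]
        refine (hc y).trans ?_
        have := hcomp (x - x')
        gcongr
      have hp := E3b_point hn hCU ht ht1 (hj α P ε q j (q.1 j + epj α P ε q j • y)) A
        (phiX α P ε q x (q.1 j + epj α P ε q j • y)) (phiX α P ε q x' (q.1 j + epj α P ε q j • y))
        (U n (x.1 j) y) (U n (x'.1 j) y) c (1 + ‖y‖) (C2 * ε) (q.2.2 j) N hN0 hA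
        (hA2 y hy).1 (hφ x hx) (hφ x' hx') hd1 hu1 hc1
      refine hp.trans ?_
      have hk : 4 * (CU + 1) * Real.exp 4 * C2 ≤ K := by
        rw [hK]
        have : 0 ≤ 4 * CU * (C1 * 8 / d) := by positivity
        linarith
      calc _ = a + N * (ε * (4 * (CU + 1) * Real.exp 4 * C2)) * (1 + ‖y‖) := by rw [ha]; ring
        _ ≤ a + b * (1 + ‖y‖) := by rw [hb]; gcongr
    · have eF : ∀ z : XX n J α P, FFX α P ε (d / 8) q z j y = 0 - (1 + q.2.2 j) := by
        intro z
        unfold FFX FF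
        rw [Set.indicator_of_notMem (by exact hy)]
      rw [eF x, eF x', sub_self, zero_sub, abs_neg]
      have hy1 : 1 ≤ ε * (C1 * 8 / d) * ‖y‖ := by
        have hep : 0 ≤ epj α P ε q j := by
          have : 0 ≤ ε / C1 := by positivity
          linarith
        rw [not_lt, norm_smul, Real.norm_eq_abs, abs_of_nonneg hep] at hy
        have h1 : d / 8 ≤ C1 * ε * ‖y‖ := hy.trans (by gcongr)
        have h2 : ε * (C1 * 8 / d) * ‖y‖ = (C1 * ε * ‖y‖) * 8 / d := by ring
        rw [h2, le_div_iff₀ hd]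
        linarith
      have h3 := hc y
      have h4 := hUb ((x - x').1 j) y
      have h5 := hcomp (x - x')
      have h6 : |c| ≤ θ0 * N + 4 * (CU * N) := by
        have e : c = n * U n ((x - x').1 j) y - (n * U n ((x - x').1 j) y - c) := by ring
        rw [e]
        refine (abs_sub _ _).trans ?_
        rw [abs_mul, abs_of_nonneg hn0]
        have h7 : (n : ℝ) * |U n ((x - x').1 j) y| ≤ 4 * (CU * N) := by
          calc (n : ℝ) * |U n ((x - x').1 j) y| ≤ 4 * |U n ((x - x').1 j) y| := by gcongr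
            _ ≤ 4 * (CU * ‖(x - x').1 j‖) := by gcongr
            _ ≤ _ := by gcongr
        have h8 : θ0 * ‖(x - x').1 j‖ ≤ θ0 * N := by gcongr
        linarith
      refine h6.trans ?_
      have h9 : 4 * (CU * N) ≤ b * (1 + ‖y‖) := by
        have h10 : N * (ε * (4 * CU * (C1 * 8 / d))) * ‖y‖ ≤ b * (1 + ‖y‖) := by
          rw [hb]
          have h11 : 4 * CU * (C1 * 8 / d) ≤ K := by
            rw [hK]
            have : 0 ≤ 4 * (CU + 1) * Real.exp 4 * C2 := by positivity
            linarith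
          have h12 : ‖y‖ ≤ 1 + ‖y‖ := by linarith
          gcongr
        have h13 : 4 * (CU * N) * 1 ≤ 4 * (CU * N) * (ε * (C1 * 8 / d) * ‖y‖) := by gcongr
        calc 4 * (CU * N) = 4 * (CU * N) * 1 := by ring
          _ ≤ 4 * (CU * N) * (ε * (C1 * 8 / d) * ‖y‖) := h13
          _ = N * (ε * (4 * CU * (C1 * 8 / d))) * ‖y‖ := by ring
          _ ≤ _ := h10
      have h14 : θ0 * N ≤ a := by
        have h15 : 0 ≤ N * (4 * t + 4 * (CU + 1) * (Real.exp (12 * t) - 1)) := by positivity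
        have h16 : a = θ0 * N + N * (4 * t + 4 * (CU + 1) * (Real.exp (12 * t) - 1)) := by
          rw [ha]; ring
        rw [h16]
        exact le_add_of_nonneg_right h15
      linarith
  refine (toL_norm_mono (piM n) _ _ hmem (E3b_lin hn a b) hpt).trans ?_
  refine (E3b_lin_norm hn a b ha0 hb0).trans ?_
  rw [← hM, ha, hb]
  calc N * (θ0 + 4 * t + 4 * (CU + 1) * (Real.exp (12 * t) - 1)) + N * (ε * K) * M
      = N * (θ0 + 4 * t + 4 * (CU + 1) * (Real.exp (12 * t) - 1) + ε * (K * M)) := by ring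
    _ ≤ N * ((1 + θ0) / 2) := by
        gcongr
        linarith
    _ = _ := by ring

end Pool.Agent.QGlue
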