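import Pool.Agent.QGlue.E0
import Pool.Agent.QGlue.A5
import Pool.Agent.QGlue.D1
import Pool.Agent.QGlue.E1
import Pool.Agent.QGlue.E2
import Pool.Agent.QGlue.E3a

/-! # Lipschitz bound of the inner component and its size at zero -/

set_option autoImplicit false

namespace Pool.Agent.QGlue

open MeasureTheory Real Set Filter Topology

section

variable {n : ℕ} {J : Type} [Fintype J] [DecidableEq J] {α : ℝ} (P : Pol n)

private lemma E3c_exp_sub_le {a b M : ℝ} (ha : a ≤ M) (hb : b ≤ M) :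
    |Real.exp a - Real.exp b| ≤ Real.exp M * |a - b| := by
  have key : ∀ p q : ℝ, p ≤ q → q ≤ M → |Real.exp p - Real.exp q| ≤ Real.exp M * |p - q| := by
    intro p q hpq hq
    have h1 : Real.exp p = Real.exp q * Real.exp (p - q) := by
      rw [← Real.exp_add]; ring_nf
    have h2 := Real.add_one_le_exp (p - q)
    have h3 : Real.exp q ≤ Real.exp M := Real.exp_le_exp.mpr hq
    have h4 := Real.exp_pos q
    rw [abs_sub_comm, abs_of_nonneg (sub_nonneg.mpr (Real.exp_le_exp.mpr hpq)),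
      abs_of_nonpos (sub_nonpos.mpr hpq), h1]
    nlinarith
  rcases le_total a b with h | h
  · exact key a b h hb
  · rw [abs_sub_comm, abs_sub_comm a b]
    exact key b a h ha

private lemma E3c_n {n : ℕ} (hn : n = 3 ∨ n = 4) : (0 : ℝ) < n ∧ (n : ℝ) ≤ 4 := by
  rcases hn with rfl | rfl <;> norm_num

/-- On the ball `ε ‖y‖` is bounded. -/
private lemma E3c_ball (d : ℝ) (hd : 0 < d) : ∃ C : ℝ, 0 < C ∧ ∀ ε, 0 < ε → ∀ δ2 ≤ (1 : ℝ),
    ∀ q ∈ Qd (n := n) (J := J) d δ2 ε, ∀ j, ∀ y : E n,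
      (‖epj α P ε q j • y‖ < d / 8 → ε * ‖y‖ ≤ C) ∧
      (d / 8 ≤ ‖epj α P ε q j • y‖ → 1 ≤ C * (ε * ‖y‖)) := by
  obtain ⟨C, hC, h⟩ := cfg_scale (J := J) α P d hd
  refine ⟨C * (d / 8) + C * (8 / d), by positivity, fun ε hε δ2 hδ q hq j y => ?_⟩
  obtain ⟨h1, h2, -⟩ := h ε hε δ2 hδ q hq j
  have hpos : 0 < epj α P ε q j := lt_of_lt_of_le (by positivity) h1
  rw [norm_smul, Real.norm_eq_abs, abs_of_pos hpos]
  have hy := norm_nonneg y
  constructor
  · intro h3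
    have h4 : ε / C * ‖y‖ ≤ d / 8 := (mul_le_mul_of_nonneg_right h1 hy).trans h3.le
    have h5 : ε * ‖y‖ ≤ C * (d / 8) := by
      calc ε * ‖y‖ = C * (ε / C * ‖y‖) := by field_simp
        _ ≤ C * (d / 8) := by gcongr
    have : 0 ≤ C * (8 / d) := by positivity
    linarith
  · intro h3
    have h4 : d / 8 ≤ C * ε * ‖y‖ := h3.trans (mul_le_mul_of_nonneg_right h2 hy)
    have h5 : 1 ≤ C * (8 / d) * (ε * ‖y‖) := by
      calc (1 : ℝ) = (8 / d) * (d / 8) := by field_simp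
        _ ≤ (8 / d) * (C * ε * ‖y‖) := by gcongr
        _ = _ := by ring
    have : 0 ≤ C * (d / 8) * (ε * ‖y‖) := by positivity
    linarith

/-- Bounds for the ratio on the ball. -/
private lemma E3c_ratio (hn : n = 3 ∨ n = 4) (d : ℝ) (hd : 0 < d) :
    ∃ ε0 C : ℝ, 0 < ε0 ∧ 0 < C ∧ ∀ ε, 0 < ε → ε < ε0 → ∀ δ2 ≤ (1 : ℝ),
    ∀ q ∈ Qd (n := n) (J := J) d δ2 ε, ∀ j,
      ∃ c : ℝ, 0 ≤ c ∧ c ≤ C ∧ ∀ y, ‖epj α P ε q j • y‖ < d / 8 →
        |Real.exp (n * hj α P ε q j (q.1 j + epj α P ε q j • y)) - c| ≤ C * ε * (1 + ‖y‖) ∧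
        Real.exp (n * hj α P ε q j (q.1 j + epj α P ε q j • y)) ≤ C := by
  obtain ⟨ε0, C0, hε0, hC0, h0⟩ := ratio_est (J := J) hn α P d 1 hd one_pos
  obtain ⟨C1, hC1, h1⟩ := E3c_ball (J := J) (α := α) P d hd
  obtain ⟨hn0, hn4⟩ := E3c_n hn
  refine ⟨min ε0 1, Real.exp 8 + C0 + C0 * (1 + C1), by positivity, by positivity, ?_⟩
  intro ε hε hε' δ2 hδ q hq j
  obtain ⟨A, hA, h⟩ := h0 ε hε (hε'.trans_le (min_le_left _ _)) δ2 hδ q hq j
  have hε1 : ε < 1 := hε'.trans_le (min_le_right _ _)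
  have hA2 : A ≤ 2 := by
    have h3 := (hq.2.2.1 j)
    have h4 := abs_le.mp hA
    have h5 := abs_le.mp (h3.trans hδ)
    linarith
  have hexp : Real.exp (n * A) ≤ Real.exp 8 := by
    apply Real.exp_le_exp.mpr
    nlinarith
  refine ⟨Real.exp (n * A), (Real.exp_pos _).le, ?_, fun y hy => ?_⟩
  · have : 0 ≤ C0 + C0 * (1 + C1) := by positivity
    linarith
  obtain ⟨h3, -⟩ := h y hy
  have h4 := (h1 ε hε δ2 hδ q hq j y).1 hy
  constructor
  · refine h3.trans ?_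
    have : 0 ≤ (Real.exp 8 + C0 * (1 + C1)) * (ε * (1 + ‖y‖)) := by positivity
    nlinarith
  · have h5 := (abs_le.mp h3).2
    have h6 : C0 * ε * (1 + ‖y‖) ≤ C0 * (1 + C1) := by
      have : ε * (1 + ‖y‖) ≤ 1 + C1 := by nlinarith
      calc C0 * ε * (1 + ‖y‖) = C0 * (ε * (1 + ‖y‖)) := by ring
        _ ≤ C0 * (1 + C1) := by gcongr
    linarith

theorem FF_lip (hn : n = 3 ∨ n = 4) (hα : -1 < α) (d : ℝ) (hd : 0 < d) :
    ∃ ε0 C : ℝ, 0 < ε0 ∧ 0 < C ∧ ∀ ε, 0 < ε → ε < ε0 → ∀ δ2 ≤ (1 : ℝ),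
    ∀ q ∈ Qd (n := n) (J := J) d δ2 ε,
      ∀ x x' : XX n J α P, ‖x‖ ≤ 1 → ‖x'‖ ≤ 1 → ∀ j,
        ‖toL (piM n) (FFX α P ε (d / 8) q x j) - toL (piM n) (FFX α P ε (d / 8) q x' j)‖
          ≤ C * ‖x - x'‖ := by
  have : IsProbabilityMeasure (piM n) := piM_prob hn
  obtain ⟨hn0, hn4⟩ := E3c_n hn
  obtain ⟨ε1, C1, hε1, hC1, h1⟩ := E3c_ratio (J := J) (α := α) P hn d hd
  obtain ⟨ε2, hε2, h2⟩ := phiX_ball (J := J) P hn hα d 1 hd one_pos
  obtain ⟨CU, hCU, hU⟩ := U_bound hn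
  refine ⟨min ε1 ε2, C1 * (Real.exp (4 * (CU + 1)) * (4 * (CU + 1))), by positivity, by positivity,
    ?_⟩
  intro ε hε hε' δ2 hδ q hq x x' hx hx' j
  obtain ⟨c, -, -, hc⟩ := h1 ε hε (hε'.trans_le (min_le_left _ _)) δ2 hδ q hq j
  have hphi : ∀ (w : XX n J α P) (y : E n), ‖epj α P ε q j • y‖ < d / 8 →
      |phiX α P ε q w (q.1 j + epj α P ε q j • y)| ≤ (CU + 1) * ‖w‖ := by
    intro w y hy
    have h3 := h2 ε hε (hε'.trans_le (min_le_right _ _)) δ2 hδ q hq j w y hy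
    have h4 := hU (w.1 j) y
    have h5 : ‖w.1 j‖ ≤ ‖w‖ := (norm_le_pi_norm w.1 j).trans (norm_fst_le w)
    have h6 : CU * ‖w.1 j‖ ≤ CU * ‖w‖ := by gcongr
    have h7 := abs_sub_abs_le_abs_sub (phiX α P ε q w (q.1 j + epj α P ε q j • y)) (U n (w.1 j) y)
    linarith
  have hm := FFX_memLp P hn hα d δ2 ε hd hε q hq x j
  have hm' := FFX_memLp P hn hα d δ2 ε hd hε q hq x' j
  rw [toL_sub _ _ _ hm hm']
  refine toL_norm_le (piM n) (fun y => FFX α P ε (d / 8) q x j y - FFX α P ε (d / 8) q x' j y)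
    (hm.sub hm').aestronglyMeasurable _ fun y => ?_
  have hFx : ∀ w : XX n J α P, FFX α P ε (d / 8) q w j y =
      ({y | ‖epj α P ε q j • y‖ < d / 8} : Set (E n)).indicator
        (fun y => Real.exp (n * (hj α P ε q j (q.1 j + epj α P ε q j • y)
          + phiX α P ε q w (q.1 j + epj α P ε q j • y)))) y - (1 + q.2.2 j) := fun w => rfl
  rw [hFx, hFx]
  by_cases hy : ‖epj α P ε q j • y‖ < d / 8
  · rw [indicator_of_mem (show y ∈ {y | ‖epj α P ε q j • y‖ < d / 8} from hy),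
      indicator_of_mem (show y ∈ {y | ‖epj α P ε q j • y‖ < d / 8} from hy)]
    set z := q.1 j + epj α P ε q j • y with hz
    have e1 := hphi x y hy
    have e2 := hphi x' y hy
    have e3 := hphi (x - x') y hy
    rw [phiX_sub P hn hα] at e3
    have e4 := (hc y hy).2
    have e5 : phiX α P ε q x z ≤ CU + 1 := by
      have := (abs_le.mp e1).2
      nlinarith
    have e6 : phiX α P ε q x' z ≤ CU + 1 := by
      have := (abs_le.mp e2).2
      nlinarith
    have e7 := E3c_exp_sub_le (a := n * phiX α P ε q x z) (b := n * phiX α P ε q x' z)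
      (M := 4 * (CU + 1)) (by nlinarith) (by nlinarith)
    have e8 : (n : ℝ) * phiX α P ε q x z - n * phiX α P ε q x' z =
      n * (phiX α P ε q x z - phiX α P ε q x' z) := by ring
    rw [e8, abs_mul, abs_of_pos hn0] at e7
    have e9 : Real.exp (n * (hj α P ε q j z + phiX α P ε q x z)) - (1 + q.2.2 j)
        - (Real.exp (n * (hj α P ε q j z + phiX α P ε q x' z)) - (1 + q.2.2 j)) =
        Real.exp (n * hj α P ε q j z) *
          (Real.exp (n * phiX α P ε q x z) - Real.exp (n * phiX α P ε q x' z)) := by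
      rw [mul_add, mul_add, Real.exp_add, Real.exp_add]
      ring
    rw [e9, abs_mul, Real.abs_exp]
    calc Real.exp (n * hj α P ε q j z) *
          |Real.exp (n * phiX α P ε q x z) - Real.exp (n * phiX α P ε q x' z)|
        ≤ C1 * (Real.exp (4 * (CU + 1)) * (n * |phiX α P ε q x z - phiX α P ε q x' z|)) := by
          gcongr
      _ ≤ C1 * (Real.exp (4 * (CU + 1)) * (4 * ((CU + 1) * ‖x - x'‖))) := by
          gcongr
      _ = _ := by ring
  · rw [indicator_of_notMem (show y ∉ {y | ‖epj α P ε q j • y‖ < d / 8} from hy),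
      indicator_of_notMem (show y ∉ {y | ‖epj α P ε q j • y‖ < d / 8} from hy), sub_self, abs_zero]
    positivity

theorem FF_zero (hn : n = 3 ∨ n = 4) (hα : -1 < α) (d : ℝ) (hd : 0 < d) :
    ∃ ε0 C : ℝ, 0 < ε0 ∧ 0 < C ∧ ∀ ε, 0 < ε → ε < ε0 → ∀ δ2 ≤ (1 : ℝ),
    ∀ q ∈ Qd (n := n) (J := J) d δ2 ε, ∀ j,
      ‖PP n (toL (piM n) (FFX α P ε (d / 8) q (0 : XX n J α P) j))‖ ≤ C * ε := by
  have : IsProbabilityMeasure (piM n) := piM_prob hn
  obtain ⟨hn0, hn4⟩ := E3c_n hn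
  obtain ⟨ε1, C1, hε1, hC1, h1⟩ := E3c_ratio (J := J) (α := α) P hn d hd
  obtain ⟨C2, hC2, h2⟩ := E3c_ball (J := J) (α := α) P d hd
  set g : E n → ℝ := fun y => 1 + ‖y‖ with hg
  have hgm : MemLp g 2 (piM n) := by
    refine (memLp_const (1 : ℝ)).add ?_
    have hc : Continuous fun y : E n => ‖y‖ := continuous_norm
    rw [memLp_two_iff_integrable_sq hc.aestronglyMeasurable]
    exact int_sq hn
  set K : ℝ := ‖toL (piM n) g‖ with hK
  refine ⟨ε1, (C1 + C1 * C2) * K + 1, hε1, by positivity, ?_⟩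
  intro ε hε hε' δ2 hδ q hq j
  obtain ⟨c, hc0, hc1, hc⟩ := h1 ε hε hε' δ2 hδ q hq j
  have hm := FFX_memLp P hn hα d δ2 ε hd hε q hq (0 : XX n J α P) j
  set κ : ℝ := (1 + q.2.2 j) - c with hκ
  set G : E n → ℝ := fun y => FFX α P ε (d / 8) q (0 : XX n J α P) j y - (-κ) with hG
  have hκm : MemLp (fun _ : E n => -κ) 2 (piM n) := memLp_const _
  have hGm : MemLp G 2 (piM n) := hm.sub hκm
  have hPP : PP n (toL (piM n) (FFX α P ε (d / 8) q (0 : XX n J α P) j)) =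
      PP n (toL (piM n) G) := by
    rw [hG, ← toL_sub _ _ _ hm hκm, PP_sub, PP_const hn, sub_zero]
  have hFx : ∀ y, FFX α P ε (d / 8) q (0 : XX n J α P) j y =
      ({y | ‖epj α P ε q j • y‖ < d / 8} : Set (E n)).indicator
        (fun y => Real.exp (n * (hj α P ε q j (q.1 j + epj α P ε q j • y)
          + phiX α P ε q (0 : XX n J α P) (q.1 j + epj α P ε q j • y)))) y - (1 + q.2.2 j) :=
    fun y => rfl
  have hbound : ∀ y, |G y| ≤ |(C1 + C1 * C2) * ε * g y| := by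
    intro y
    have hr : 0 ≤ (C1 + C1 * C2) * ε * g y := by
      have : 0 ≤ g y := by simp only [hg]; positivity
      positivity
    rw [abs_of_nonneg hr]
    by_cases hy : ‖epj α P ε q j • y‖ < d / 8
    · have e1 : G y = Real.exp (n * hj α P ε q j (q.1 j + epj α P ε q j • y)) - c := by
        simp only [hG]
        rw [hFx, indicator_of_mem (show y ∈ {y | ‖epj α P ε q j • y‖ < d / 8} from hy),
          phiX_zero, add_zero, hκ]
        ring
      rw [e1]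
      refine (hc y hy).1.trans ?_
      have : 0 ≤ C1 * C2 * ε * (1 + ‖y‖) := by positivity
      simp only [hg]
      linarith
    · have e1 : G y = - c := by
        simp only [hG]
        rw [hFx, indicator_of_notMem (show y ∉ {y | ‖epj α P ε q j • y‖ < d / 8} from hy), hκ]
        ring
      rw [e1, abs_neg, abs_of_nonneg hc0]
      have e2 := (h2 ε hε δ2 hδ q hq j y).2 (not_lt.mp hy)
      have e3 : c ≤ C1 * (C2 * (ε * ‖y‖)) := by
        calc c ≤ C1 * 1 := by linarith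
          _ ≤ C1 * (C2 * (ε * ‖y‖)) := by gcongr
      have : 0 ≤ C1 * ε * (1 + ‖y‖) + C1 * C2 * ε := by positivity
      simp only [hg]
      linarith
  have hgm' : MemLp (fun y => (C1 + C1 * C2) * ε * g y) 2 (piM n) := hgm.const_mul _
  have hnorm : ‖toL (piM n) (fun y => (C1 + C1 * C2) * ε * g y)‖ = (C1 + C1 * C2) * ε * K := by
    have e1 : ‖toL (piM n) (fun y => (C1 + C1 * C2) * ε * g y)‖ ^ 2 =
        ((C1 + C1 * C2) * ε * K) ^ 2 := by
      rw [toL_norm_sq _ _ hgm', mul_pow, hK, toL_norm_sq _ _ hgm, ← integral_const_mul]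
      congr 1
      ext y
      ring
    exact (sq_eq_sq₀ (norm_nonneg _) (by positivity)).mp e1
  rw [hPP]
  calc ‖PP n (toL (piM n) G)‖ ≤ ‖toL (piM n) G‖ := PP_norm _
    _ ≤ ‖toL (piM n) (fun y => (C1 + C1 * C2) * ε * g y)‖ := toL_norm_mono _ _ _ hGm hgm' hbound
    _ = (C1 + C1 * C2) * ε * K := hnorm
    _ ≤ ((C1 + C1 * C2) * K + 1) * ε := by nlinarith

end

end Pool.Agent.QGlue
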