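import Pool.Agent.QGlue.C
import Pool.Agent.QGlue.D1
import Pool.Agent.QGlue.E0
import Pool.Agent.QGlue.E1
import Pool.Agent.QGlue.E2

/-! # The outer component of the fixed point map -/

set_option autoImplicit false

namespace Pool.Agent.QGlue

open MeasureTheory Real Set Filter Topology

private theorem E4_exp_diff (a b M : ℝ) (ha : |a| ≤ M) (hb : |b| ≤ M) :
    |Real.exp a - Real.exp b| ≤ |a - b| * Real.exp M := by
  have key : ∀ a b : ℝ, a ≤ M → Real.exp a - Real.exp b ≤ |a - b| * Real.exp M := by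
    intro a b ha
    have h1 := Real.add_one_le_exp (b - a)
    have h2 : Real.exp b = Real.exp a * Real.exp (b - a) := by
      rw [← Real.exp_add]
      congr 1
      ring
    have h3 : Real.exp a - Real.exp b ≤ Real.exp a * (a - b) := by
      rw [h2]
      have := Real.exp_pos a
      nlinarith
    have h4 : Real.exp a * (a - b) ≤ Real.exp a * |a - b| :=
      mul_le_mul_of_nonneg_left (le_abs_self _) (Real.exp_pos a).le
    have h5 : Real.exp a * |a - b| ≤ Real.exp M * |a - b| :=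
      mul_le_mul_of_nonneg_right (Real.exp_le_exp.2 ha) (abs_nonneg _)
    linarith
  rw [abs_le]
  constructor
  · have := key b a ((le_abs_self b).trans hb)
    rw [abs_sub_comm] at this
    linarith
  · exact key a b ((le_abs_self a).trans ha)

private theorem E4_cN_pos (n : ℕ) : 0 < cN n := by
  unfold cN
  split_ifs <;> positivity

private theorem E4_gam_pos (n : ℕ) : 0 < gam n := by
  unfold gam
  split_ifs <;> positivity

private theorem E4_c0 {n : ℕ} (hn : n = 3 ∨ n = 4) {ε : ℝ} (hε : 0 < ε) (hε1 : ε ≤ 1) :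
    (1 / ε) * Real.exp (n * c0 n ε) ≤ 2 ^ n * (2 * gam n * cN n) * ε := by
  have hA : 0 < 2 * gam n * cN n := by
    have := E4_cN_pos n
    have := E4_gam_pos n
    positivity
  have hn0 : (n : ℝ) ≠ 0 := by
    rcases hn with rfl | rfl <;> norm_num
  have h1 : Real.exp (n * c0 n ε) = (2 * ε) ^ n * (2 * gam n * cN n) := by
    have e1 : (n : ℝ) * c0 n ε = n * Real.log (2 * ε) + Real.log (2 * gam n * cN n) := by
      unfold c0
      field_simp
    rw [e1, Real.exp_add, Real.exp_log hA, Real.exp_nat_mul, Real.exp_log (by positivity)]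
  rw [h1, mul_pow]
  have h2 : ε ^ n ≤ ε ^ 2 := by
    apply pow_le_pow_of_le_one hε.le hε1
    rcases hn with rfl | rfl <;> norm_num
  have h3 : 0 ≤ 2 ^ n * (2 * gam n * cN n) := by positivity
  calc 1 / ε * (2 ^ n * ε ^ n * (2 * gam n * cN n))
      = (1 / ε) * (ε ^ n) * (2 ^ n * (2 * gam n * cN n)) := by ring
    _ ≤ (1 / ε) * ε ^ 2 * (2 ^ n * (2 * gam n * cN n)) := by
        refine mul_le_mul_of_nonneg_right ?_ h3
        exact mul_le_mul_of_nonneg_left h2 (by positivity)
    _ = 2 ^ n * (2 * gam n * cN n) * ε := by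
        field_simp

private theorem E4_norm {n : ℕ} (μ : Measure (E n)) (B : E n → ℝ) (hB : MemLp B 2 μ) (c : ℝ)
    (hc : 0 ≤ c) : ‖toL μ (fun z => c * B z)‖ ≤ c * Real.sqrt (∫ z, B z ^ 2 ∂μ) := by
  have h1 : MemLp (fun z => c * B z) 2 μ := hB.const_mul c
  have h2 := toL_norm_sq μ _ h1
  have h3 : ∫ z, (c * B z) ^ 2 ∂μ = c ^ 2 * ∫ z, B z ^ 2 ∂μ := by
    rw [← integral_const_mul]
    congr 1
    funext z
    ring
  rw [h3] at h2
  have h4 : ‖toL μ (fun z => c * B z)‖ = Real.sqrt (c ^ 2 * ∫ z, B z ^ 2 ∂μ) := by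
    rw [← h2, Real.sqrt_sq (norm_nonneg _)]
  rw [h4, Real.sqrt_mul (sq_nonneg c), Real.sqrt_sq hc]

section

variable {n : ℕ} {J : Type} [Fintype J] [DecidableEq J] {α : ℝ} (P : Pol n)

theorem GG_contr (hn : n = 3 ∨ n = 4) (hα : -1 < α) (d : ℝ) (hd : 0 < d) :
    ∃ ε0 C : ℝ, 0 < ε0 ∧ 0 < C ∧ ∀ ε, 0 < ε → ε < ε0 → ∀ δ2 ≤ (1 : ℝ),
    ∀ q ∈ Qd (n := n) (J := J) d δ2 ε,
      (∀ x x' : XX n J α P, ‖x‖ ≤ 1 → ‖x'‖ ≤ 1 →
        ‖toL (mu0 n α P) (GGX α P ε (d / 8) q x) - toL (mu0 n α P) (GGX α P ε (d / 8) q x')‖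
          ≤ C * ε * ‖x - x'‖) ∧
      ‖toL (mu0 n α P) (GGX α P ε (d / 8) q (0 : XX n J α P))‖ ≤ C * ε := by
  obtain ⟨C1, hC1, hphi⟩ := phiX_all (J := J) P hn hα
  obtain ⟨C2, hC2, hout⟩ := cfg_out (J := J) α P d hd
  set A : ℝ := 2 ^ n * (2 * gam n * cN n) with hA
  have hA0 : 0 < A := by
    have := E4_cN_pos n
    have := E4_gam_pos n
    positivity
  set K : ℕ := ⌈n * C1⌉₊ with hK
  set B : E n → ℝ := fun z => (1 + ‖z‖) ^ (K + 1) with hB
  have hB1 : ∀ z, 1 ≤ B z := fun z => one_le_pow₀ (by have := norm_nonneg z; linarith)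
  have hBm : MemLp B 2 (mu0 n α P) := by
    have hc : Continuous B := by
      simp only [hB]
      fun_prop
    rw [memLp_two_iff_integrable_sq hc.aestronglyMeasurable]
    have h1 := mu0_moment hn hα P (2 * (K + 1))
    refine h1.congr (Eventually.of_forall fun z => ?_)
    simp only [hB]
    rw [← pow_mul]
    ring
  set N : ℝ := Real.sqrt (∫ z, B z ^ 2 ∂(mu0 n α P)) with hN
  have hN0 : 0 ≤ N := Real.sqrt_nonneg _
  set D : ℝ := A * Real.exp (n * C2) * (n * C1 * Real.exp (n * C1)) with hD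
  set D' : ℝ := A * Real.exp (n * C2) with hD'
  have hD0 : 0 ≤ D := by positivity
  have hD'0 : 0 < D' := by positivity
  refine ⟨1, (D + D') * (N + 1), one_pos, by positivity, ?_⟩
  intro ε hε hε1 δ2 hδ2 q hq
  have hc0 := E4_c0 hn hε hε1.le
  rw [← hA] at hc0
  -- the prefactor
  have hpre : ∀ z ∈ outR (d / 8) q, (1 / ε) * Real.exp (n * (Wf α P ε q z + c0 n ε)) ≤ D' * ε := by
    intro z hz
    have h1 := hout ε hε hε1.le δ2 q hq z hz
    have h2 : Real.exp (n * (Wf α P ε q z + c0 n ε))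
        = Real.exp (n * Wf α P ε q z) * Real.exp (n * c0 n ε) := by
      rw [← Real.exp_add]
      congr 1
      ring
    have h3 : Real.exp (n * Wf α P ε q z) ≤ Real.exp (n * C2) :=
      Real.exp_le_exp.2 (mul_le_mul_of_nonneg_left h1 (Nat.cast_nonneg n))
    rw [h2]
    calc 1 / ε * (Real.exp (n * Wf α P ε q z) * Real.exp (n * c0 n ε))
        = Real.exp (n * Wf α P ε q z) * (1 / ε * Real.exp (n * c0 n ε)) := by ring
      _ ≤ Real.exp (n * C2) * (A * ε) :=
          mul_le_mul h3 hc0 (by positivity) (Real.exp_pos _).le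
      _ = D' * ε := by rw [hD']; ring
  -- pointwise value
  have hval : ∀ (x : XX n J α P) (z : E n), z ∈ outR (d / 8) q → GGX α P ε (d / 8) q x z =
      (1 / ε) * Real.exp (n * (Wf α P ε q z + c0 n ε)) * Real.exp (n * phiX α P ε q x z) := by
    intro x z hz
    have h1 : GGX α P ε (d / 8) q x z = (1 / ε) * (outR (d / 8) q).indicator
      (fun z => Real.exp (n * (Wf α P ε q z + c0 n ε + phiX α P ε q x z))) z := rfl
    rw [h1, Set.indicator_of_mem hz, mul_assoc, ← Real.exp_add]
    congr 2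
    ring
  have hval0 : ∀ (x : XX n J α P) (z : E n), z ∉ outR (d / 8) q →
      GGX α P ε (d / 8) q x z = 0 := by
    intro x z hz
    have h1 : GGX α P ε (d / 8) q x z = (1 / ε) * (outR (d / 8) q).indicator
      (fun z => Real.exp (n * (Wf α P ε q z + c0 n ε + phiX α P ε q x z))) z := rfl
    rw [h1, Set.indicator_of_notMem hz, mul_zero]
  have hmem := fun x : XX n J α P => GGX_memLp P hn hα d δ2 ε hd hε hε1.le q hq x
  have hM : ∀ z : E n, Real.exp (n * (C1 * (1 + Real.log (1 + ‖z‖)))) ≤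
      Real.exp (n * C1) * (1 + ‖z‖) ^ K := by
    intro z
    have hz : 0 < 1 + ‖z‖ := by have := norm_nonneg z; linarith
    have h1 : (n : ℝ) * (C1 * (1 + Real.log (1 + ‖z‖))) = n * C1 + n * C1 * Real.log (1 + ‖z‖) := by
      ring
    rw [h1, Real.exp_add]
    refine mul_le_mul_of_nonneg_left ?_ (Real.exp_pos _).le
    have h2 : 0 ≤ Real.log (1 + ‖z‖) := Real.log_nonneg (by have := norm_nonneg z; linarith)
    have h3 : (n : ℝ) * C1 ≤ K := Nat.le_ceil _
    calc Real.exp (n * C1 * Real.log (1 + ‖z‖)) ≤ Real.exp (K * Real.log (1 + ‖z‖)) :=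
          Real.exp_le_exp.2 (mul_le_mul_of_nonneg_right h3 h2)
      _ = (1 + ‖z‖) ^ K := by rw [Real.exp_nat_mul, Real.exp_log hz]
  constructor
  · intro x x' hx hx'
    rw [toL_sub _ _ _ (hmem x) (hmem x')]
    have hpt : ∀ z, |GGX α P ε (d / 8) q x z - GGX α P ε (d / 8) q x' z| ≤
        |(D * ε * ‖x - x'‖) * B z| := by
      intro z
      have hBz : 0 ≤ (D * ε * ‖x - x'‖) * B z := by
        have := hB1 z
        positivity
      rw [abs_of_nonneg hBz]
      by_cases hz : z ∈ outR (d / 8) q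
      · rw [hval x z hz, hval x' z hz, ← mul_sub, abs_mul, abs_of_nonneg (by positivity)]
        have hlog : 0 ≤ Real.log (1 + ‖z‖) :=
          Real.log_nonneg (by have := norm_nonneg z; linarith)
        have hM0 : 0 ≤ C1 * (1 + Real.log (1 + ‖z‖)) := by positivity
        have hb : ∀ y : XX n J α P, ‖y‖ ≤ 1 → |(n : ℝ) * phiX α P ε q y z| ≤
            n * (C1 * (1 + Real.log (1 + ‖z‖))) := by
          intro y hy
          rw [abs_mul, abs_of_nonneg (Nat.cast_nonneg n : (0:ℝ) ≤ n)]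
          refine mul_le_mul_of_nonneg_left ?_ (Nat.cast_nonneg n)
          refine (hphi ε hε.le hε1.le q y z).trans ?_
          exact mul_le_of_le_one_right hM0 hy
        have h1 := E4_exp_diff _ _ _ (hb x hx) (hb x' hx')
        have h2 : |(n : ℝ) * phiX α P ε q x z - n * phiX α P ε q x' z| ≤
            n * (C1 * (1 + ‖z‖) * ‖x - x'‖) := by
          rw [← mul_sub, ← phiX_sub P hn hα, abs_mul,
            abs_of_nonneg (Nat.cast_nonneg n : (0:ℝ) ≤ n)]
          refine mul_le_mul_of_nonneg_left ?_ (Nat.cast_nonneg n)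
          refine (hphi ε hε.le hε1.le q (x - x') z).trans ?_
          refine mul_le_mul_of_nonneg_right ?_ (norm_nonneg _)
          refine mul_le_mul_of_nonneg_left ?_ hC1.le
          have hz : 0 < 1 + ‖z‖ := by have := norm_nonneg z; linarith
          have := Real.log_le_sub_one_of_pos hz
          linarith
        have h3 : |Real.exp (n * phiX α P ε q x z) - Real.exp (n * phiX α P ε q x' z)| ≤
            (n * (C1 * (1 + ‖z‖) * ‖x - x'‖)) * (Real.exp (n * C1) * (1 + ‖z‖) ^ K) :=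
          h1.trans (mul_le_mul h2 (hM z) (Real.exp_pos _).le (by positivity))
        calc _ ≤ (D' * ε) * ((n * (C1 * (1 + ‖z‖) * ‖x - x'‖)) *
              (Real.exp (n * C1) * (1 + ‖z‖) ^ K)) :=
              mul_le_mul (hpre z hz) h3 (abs_nonneg _) (by positivity)
          _ = (D * ε * ‖x - x'‖) * B z := by
              simp only [hD, hD', hB]
              ring
      · rw [hval0 x z hz, hval0 x' z hz, sub_zero, abs_zero]
        exact hBz
    have hg : MemLp (fun z => (D * ε * ‖x - x'‖) * B z) 2 (mu0 n α P) := hBm.const_mul _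
    have h1 := toL_norm_mono (mu0 n α P)
      (fun z => GGX α P ε (d / 8) q x z - GGX α P ε (d / 8) q x' z)
      (fun z => (D * ε * ‖x - x'‖) * B z) ((hmem x).sub (hmem x')) hg hpt
    have h2 := E4_norm (mu0 n α P) B hBm (D * ε * ‖x - x'‖) (by positivity)
    rw [← hN] at h2
    refine h1.trans (h2.trans ?_)
    have h3 : 0 ≤ ε * ‖x - x'‖ := by positivity
    have h4 : D * N ≤ (D + D') * (N + 1) := by nlinarith
    calc D * ε * ‖x - x'‖ * N = (D * N) * (ε * ‖x - x'‖) := by ring
      _ ≤ ((D + D') * (N + 1)) * (ε * ‖x - x'‖) := mul_le_mul_of_nonneg_right h4 h3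
      _ = _ := by ring
  · have hpt : ∀ z, |GGX α P ε (d / 8) q (0 : XX n J α P) z| ≤ |(D' * ε) * B z| := by
      intro z
      have hBz : 0 ≤ (D' * ε) * B z := by
        have := hB1 z
        positivity
      rw [abs_of_nonneg hBz]
      by_cases hz : z ∈ outR (d / 8) q
      · rw [hval _ z hz, phiX_zero, mul_zero, Real.exp_zero, mul_one, abs_of_nonneg (by positivity)]
        exact (hpre z hz).trans (le_mul_of_one_le_right (by positivity) (hB1 z))
      · rw [hval0 _ z hz, abs_zero]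
        exact hBz
    have hg : MemLp (fun z => (D' * ε) * B z) 2 (mu0 n α P) := hBm.const_mul _
    have h1 := toL_norm_mono (mu0 n α P) (GGX α P ε (d / 8) q (0 : XX n J α P))
      (fun z => (D' * ε) * B z) (hmem 0) hg hpt
    have h2 := E4_norm (mu0 n α P) B hBm (D' * ε) (by positivity)
    rw [← hN] at h2
    refine h1.trans (h2.trans ?_)
    have h4 : D' * N ≤ (D + D') * (N + 1) := by nlinarith
    calc D' * ε * N = (D' * N) * ε := by ring
      _ ≤ ((D + D') * (N + 1)) * ε := mul_le_mul_of_nonneg_right h4 hε.le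

end

end Pool.Agent.QGlue
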