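import Pool.Agent.QGlue.D2
import Pool.Agent.QGlue.E0
import Pool.Agent.QGlue.E1
import Pool.Agent.QGlue.E2
import Pool.Agent.QGlue.A1

/-! # Package E5a: continuity of the inner component in the parameters -/

set_option autoImplicit false

namespace Pool.Agent.QGlue

open MeasureTheory Real Set Filter Topology

namespace E5a

variable {n : ℕ} {J : Type} [Fintype J] [DecidableEq J] (α : ℝ) (P : Pol n)

/-- the set of parameters with a point in the closed ball -/
def SS (n : ℕ) (J : Type) (d δ2 ε : ℝ) (j : J) : Set (Par n J × E n) :=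
  {r | r.1 ∈ Qd d δ2 ε ∧ ‖r.2 - r.1.1 j‖ ≤ d / 8}

omit [Fintype J] [DecidableEq J] in
theorem isClosed_Qd (d δ2 ε : ℝ) : IsClosed (Qd (n := n) (J := J) d δ2 ε) := by
  have e : Qd (n := n) (J := J) d δ2 ε =
      {q : Par n J | ∀ j, d ≤ ‖q.1 j‖ ∧ ‖q.1 j‖ ≤ 1 / d} ∩
      ({q : Par n J | ∀ i j, i ≠ j → d ≤ ‖q.1 i - q.1 j‖} ∩
      ({q : Par n J | ∀ j, |q.2.1 j| ≤ δ2} ∩ {q : Par n J | ∀ j, |q.2.2 j| ≤ ε})) := rfl
  rw [e]
  refine IsClosed.inter ?_ (IsClosed.inter ?_ (IsClosed.inter ?_ ?_))
  · rw [Set.ofPred_forall]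
    refine isClosed_iInter fun j => ?_
    have e2 : {q : Par n J | d ≤ ‖q.1 j‖ ∧ ‖q.1 j‖ ≤ 1 / d} =
        {q : Par n J | d ≤ ‖q.1 j‖} ∩ {q : Par n J | ‖q.1 j‖ ≤ 1 / d} := rfl
    rw [e2]
    refine IsClosed.inter ?_ ?_
    · exact isClosed_le continuous_const (by fun_prop)
    · exact isClosed_le (by fun_prop) continuous_const
  · simp only [Set.ofPred_forall]
    refine isClosed_iInter fun i => isClosed_iInter fun j => isClosed_iInter fun _ => ?_
    exact isClosed_le continuous_const (by fun_prop)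
  · rw [Set.ofPred_forall]
    exact isClosed_iInter fun j => isClosed_le (by fun_prop) continuous_const
  · rw [Set.ofPred_forall]
    exact isClosed_iInter fun j => isClosed_le (by fun_prop) continuous_const

omit [DecidableEq J] in
theorem isCompact_SS (d δ2 ε : ℝ) (hd : 0 < d) (j : J) : IsCompact (SS n J d δ2 ε j) := by
  apply Metric.isCompact_of_isClosed_isBounded
  · have e : SS n J d δ2 ε j = (Prod.fst ⁻¹' Qd (n := n) (J := J) d δ2 ε) ∩
        {r : Par n J × E n | ‖r.2 - r.1.1 j‖ ≤ d / 8} := rfl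
    rw [e]
    refine IsClosed.inter ?_ ?_
    · exact (isClosed_Qd d δ2 ε).preimage continuous_fst
    · exact isClosed_le (by fun_prop) continuous_const
  · rw [isBounded_iff_forall_norm_le]
    refine ⟨max (max (1 / d) (max |δ2| |ε|)) (1 / d + d / 8), ?_⟩
    rintro ⟨⟨ξ, t, m⟩, x⟩ ⟨⟨h1, h2, h3, h4⟩, h5⟩
    simp only at h1 h3 h4 h5
    rw [Prod.norm_mk, Prod.norm_mk, Prod.norm_mk]
    refine max_le_max (max_le_max ?_ (max_le_max ?_ ?_)) ?_
    · exact (pi_norm_le_iff_of_nonneg (by positivity)).2 fun i => (h1 i).2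
    · refine (pi_norm_le_iff_of_nonneg (abs_nonneg _)).2 fun i => ?_
      exact (h3 i).trans (le_abs_self _)
    · refine (pi_norm_le_iff_of_nonneg (abs_nonneg _)).2 fun i => ?_
      exact (h4 i).trans (le_abs_self _)
    · have h6 : x = (x - ξ j) + ξ j := by abel
      rw [h6]
      refine (norm_add_le _ _).trans ?_
      have := (h1 j).2
      linarith

theorem hj_bdd (d δ2 ε : ℝ) (hd : 0 < d) (hε : 0 < ε) (j : J) : ∃ C : ℝ, ∀ q ∈ Qd (n := n) (J := J)
    d δ2 ε, ∀ x : E n, ‖x - q.1 j‖ ≤ d / 8 → |hj α P ε q j x| ≤ C := by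
  have hc : ContinuousOn (fun r : Par n J × E n => hj α P ε r.1 j r.2) (SS n J d δ2 ε j) := by
    have hep : ∀ i, ContinuousOn (fun r : Par n J × E n => epj α P ε r.1 i) (SS n J d δ2 ε j) :=
      fun i => (epj_cont α P d δ2 ε hd i).comp continuousOn_fst fun r hr => hr.1
    have hpos : ∀ i (q : Par n J), 0 < epj α P ε q i := fun i q => by
      unfold epj
      positivity
    have hx : ∀ r ∈ SS n J d δ2 ε j, ‖r.2‖ ≠ 0 := by
      rintro ⟨q, x⟩ ⟨h1, h2⟩ h3
      have h4 := (h1.1 j).1
      simp only at h2 h3 h4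
      have h5 : ‖q.1 j‖ ≤ ‖x - q.1 j‖ + ‖x‖ := by
        have h6 : q.1 j = -(x - q.1 j) + x := by abel
        calc ‖q.1 j‖ = ‖-(x - q.1 j) + x‖ := by rw [← h6]
          _ ≤ ‖-(x - q.1 j)‖ + ‖x‖ := norm_add_le _ _
          _ = _ := by rw [norm_neg]
      linarith
    have hlog : ∀ i, ContinuousOn (fun r : Par n J × E n =>
        Real.log (epj α P ε r.1 i ^ 2 + ‖r.2 - r.1.1 i‖ ^ 2)) (SS n J d δ2 ε j) := by
      intro i
      apply ContinuousOn.log
      · refine ((hep i).pow 2).add (Continuous.continuousOn ?_)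
        fun_prop
      · intro r _
        have := hpos i r.1
        positivity
    have hH : ContinuousOn (fun r : Par n J × E n => Hj α P r.1.1 j) (SS n J d δ2 ε j) := by
      unfold Hj
      refine ContinuousOn.sub (ContinuousOn.add ?_ ?_) ?_
      · refine continuousOn_const.mul (ContinuousOn.log (Continuous.continuousOn (by fun_prop)) ?_)
        rintro ⟨q, x⟩ ⟨h1, h2⟩ h3
        have h4 := (h1.1 j).1
        simp only at h3 h4
        linarith
      · apply Continuous.continuousOn
        unfold Pol.eval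
        fun_prop
      · refine continuousOn_finsetSum _ fun i hi => ?_
        refine continuousOn_const.mul (ContinuousOn.log (Continuous.continuousOn (by fun_prop)) ?_)
        rintro ⟨q, x⟩ ⟨h1, h2⟩ h3
        have h4 := h1.2.1 j i (Ne.symm (Finset.ne_of_mem_erase hi))
        simp only at h3 h4
        linarith
    unfold hj
    refine ContinuousOn.sub (ContinuousOn.sub (ContinuousOn.sub (ContinuousOn.add ?_ ?_) ?_) ?_) ?_
    · exact continuousOn_const.mul (ContinuousOn.log (Continuous.continuousOn (by fun_prop)) hx)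
    · apply Continuous.continuousOn
      unfold Pol.eval
      fun_prop
    · refine hH.sub (Continuous.continuousOn ?_)
      fun_prop
    · refine ContinuousOn.mul (Continuous.continuousOn ?_) (hlog j)
      fun_prop
    · refine continuousOn_finsetSum _ fun i _ => ContinuousOn.mul (Continuous.continuousOn ?_)
        (hlog i)
      fun_prop
  obtain ⟨C, hC⟩ := (isCompact_SS d δ2 ε hd j).exists_bound_of_continuousOn hc
  exact ⟨C, fun q hq x hx => hC (q, x) ⟨hq, hx⟩⟩

end E5a

section

variable {n : ℕ} {J : Type} [Fintype J] [DecidableEq J] {α : ℝ} (P : Pol n)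

theorem FF_cont_q (hn : n = 3 ∨ n = 4) (hα : -1 < α) (d δ2 ε : ℝ) (hd : 0 < d) (hε : 0 < ε)
    (hε1 : ε ≤ 1) (x : XX n J α P) (j : J) :
    ContinuousOn (fun q : Par n J => toL (piM n) (FFX α P ε (d / 8) q x j)) (Qd d δ2 ε) := by
  intro q0 hq0
  have := piM_prob hn
  have hmem : ∀ q ∈ Qd (n := n) (J := J) d δ2 ε, MemLp (FFX α P ε (d / 8) q x j) 2 (piM n) :=
    fun q hq => FFX_memLp P hn hα d δ2 ε hd hε q hq x j
  obtain ⟨C1, hC1⟩ := E5a.hj_bdd α P d δ2 ε hd hε j
  obtain ⟨C2, hC2pos, hC2⟩ := phiX_all (J := J) P hn hα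
  have hlogpos : 0 ≤ Real.log (1 + (1 / d + d / 8)) := Real.log_nonneg (by
    have : 0 < 1 / d := by positivity
    linarith)
  obtain ⟨M, hM⟩ : ∃ M : ℝ, M = Real.exp (n * (C1 + C2 * (1 + Real.log (1 + (1 / d + d / 8))) *
      ‖x‖)) + (1 + ε) := ⟨_, rfl⟩
  have hbd : ∀ q ∈ Qd (n := n) (J := J) d δ2 ε, ∀ y, |FFX α P ε (d / 8) q x j y| ≤ M := by
    intro q hq y
    have h1 : FFX α P ε (d / 8) q x j y =
        ({y | ‖epj α P ε q j • y‖ < d / 8} : Set (E n)).indicator
        (fun y => Real.exp (n * (hj α P ε q j (q.1 j + epj α P ε q j • y)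
        + phiX α P ε q x (q.1 j + epj α P ε q j • y)))) y - (1 + q.2.2 j) := rfl
    have h2 : |1 + q.2.2 j| ≤ 1 + ε := by
      have h3 := hq.2.2.2 j
      refine (abs_add_le _ _).trans ?_
      rw [abs_one]
      linarith
    rw [h1, hM]
    refine (abs_sub _ _).trans (add_le_add ?_ h2)
    by_cases hy : y ∈ ({y | ‖epj α P ε q j • y‖ < d / 8} : Set (E n))
    · rw [Set.indicator_of_mem hy, abs_of_pos (Real.exp_pos _)]
      apply Real.exp_le_exp.2
      apply mul_le_mul_of_nonneg_left _ (Nat.cast_nonneg n)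
      have hy' : ‖epj α P ε q j • y‖ < d / 8 := hy
      refine add_le_add ((le_abs_self _).trans (hC1 q hq _ ?_)) ((le_abs_self _).trans
        ((hC2 ε hε.le hε1 q x _).trans ?_))
      · rw [add_sub_cancel_left]
        exact hy'.le
      · apply mul_le_mul_of_nonneg_right _ (norm_nonneg _)
        apply mul_le_mul_of_nonneg_left _ hC2pos.le
        refine add_le_add_right (Real.log_le_log (by positivity) ?_) _
        have h4 := (hq.1 j).2
        have h5 := norm_add_le (q.1 j) (epj α P ε q j • y)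
        linarith
    · rw [Set.indicator_of_notMem hy, abs_zero]
      exact (Real.exp_pos _).le
  have hnull : ∀ᵐ y ∂(piM n), ‖epj α P ε q0 j • y‖ ≠ d / 8 := by
    have hac : piM n ≪ volume := withDensity_absolutelyContinuous _ _
    have hep : 0 < epj α P ε q0 j := by
      unfold epj
      positivity
    have hvol : ∀ᵐ y ∂(volume : Measure (E n)), ‖epj α P ε q0 j • y‖ ≠ d / 8 := ?_
    · exact hac.ae_le hvol
    rw [ae_iff]
    have e : {y : E n | ¬ ‖epj α P ε q0 j • y‖ ≠ d / 8} =
        Metric.sphere 0 (d / 8 / epj α P ε q0 j) := by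
      ext y
      rw [mem_sphere_zero_iff_norm]
      change ¬ ‖epj α P ε q0 j • y‖ ≠ d / 8 ↔ _
      rw [not_not, norm_smul, Real.norm_eq_abs, abs_of_pos hep, eq_div_iff hep.ne', mul_comm]
    rw [e]
    exact Measure.addHaar_sphere_of_ne_zero volume 0 (by positivity)
  have hlim : ∀ᵐ y ∂(piM n), Tendsto (fun q : Par n J => (FFX α P ε (d / 8) q x j y
      - FFX α P ε (d / 8) q0 x j y) ^ 2) (𝓝[Qd d δ2 ε] q0) (𝓝 0) := by
    filter_upwards [hnull] with y hy
    have hep : ContinuousWithinAt (fun q : Par n J => epj α P ε q j) (Qd d δ2 ε) q0 :=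
      epj_cont α P d δ2 ε hd j q0 hq0
    have hepy : ContinuousWithinAt (fun q : Par n J => epj α P ε q j • y) (Qd d δ2 ε) q0 :=
      hep.smul continuousWithinAt_const
    have hnrm : Tendsto (fun q : Par n J => ‖epj α P ε q j • y‖) (𝓝[Qd d δ2 ε] q0)
        (𝓝 ‖epj α P ε q0 j • y‖) := hepy.norm
    have hm : Tendsto (fun q : Par n J => (1 + q.2.2 j)) (𝓝[Qd d δ2 ε] q0)
        (𝓝 (1 + q0.2.2 j)) := by
      have : Continuous (fun q : Par n J => (1 + q.2.2 j)) := by fun_prop
      exact this.continuousWithinAt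
    have key : Tendsto (fun q : Par n J => FFX α P ε (d / 8) q x j y) (𝓝[Qd d δ2 ε] q0)
        (𝓝 (FFX α P ε (d / 8) q0 x j y)) := by
      rcases lt_or_gt_of_ne hy with h | h
      · have h1 : Tendsto (fun q : Par n J => Real.exp (n * (hj α P ε q j
            (q.1 j + epj α P ε q j • y) + phiX α P ε q x (q.1 j + epj α P ε q j • y)))
            - (1 + q.2.2 j)) (𝓝[Qd d δ2 ε] q0) (𝓝 (Real.exp (n * (hj α P ε q0 j
            (q0.1 j + epj α P ε q0 j • y) + phiX α P ε q0 x (q0.1 j + epj α P ε q0 j • y)))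
            - (1 + q0.2.2 j))) := by
          refine Tendsto.sub ?_ hm
          refine (Real.continuous_exp.tendsto _).comp (Tendsto.const_mul _ (Tendsto.add ?_ ?_))
          · exact hj_cont α P d δ2 ε hd hε j y q0 hq0 h
          · have hz : ContinuousWithinAt (fun q : Par n J => (q, q.1 j + epj α P ε q j • y))
                (Qd d δ2 ε) q0 := by
              refine continuousWithinAt_id.prodMk (ContinuousWithinAt.add ?_ hepy)
              have : Continuous (fun q : Par n J => q.1 j) := by fun_prop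
              exact this.continuousWithinAt
            have h2 := phiX_cont_q P hn hα d δ2 ε hd hε x
              (q0, q0.1 j + epj α P ε q0 j • y) ⟨hq0, mem_univ _⟩
            exact ContinuousWithinAt.comp (t := Qd d δ2 ε ×ˢ univ)
              (f := fun q : Par n J => (q, q.1 j + epj α P ε q j • y)) h2 hz
              (fun q hq => ⟨hq, mem_univ _⟩)
        have h2 : FFX α P ε (d / 8) q0 x j y = Real.exp (n * (hj α P ε q0 j
            (q0.1 j + epj α P ε q0 j • y) + phiX α P ε q0 x (q0.1 j + epj α P ε q0 j • y)))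
            - (1 + q0.2.2 j) := by
          change ({y | ‖epj α P ε q0 j • y‖ < d / 8} : Set (E n)).indicator _ y - _ = _
          rw [Set.indicator_of_mem (show y ∈ {y | ‖epj α P ε q0 j • y‖ < d / 8} from h)]
          rfl
        rw [h2]
        refine h1.congr' ?_
        filter_upwards [hnrm.eventually_lt_const h] with q hq
        change _ = ({y | ‖epj α P ε q j • y‖ < d / 8} : Set (E n)).indicator _ y - _
        rw [Set.indicator_of_mem (show y ∈ {y | ‖epj α P ε q j • y‖ < d / 8} from hq)]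
        rfl
      · have h2 : FFX α P ε (d / 8) q0 x j y = 0 - (1 + q0.2.2 j) := by
          change ({y | ‖epj α P ε q0 j • y‖ < d / 8} : Set (E n)).indicator _ y - _ = _
          rw [Set.indicator_of_notMem (show y ∉ {y | ‖epj α P ε q0 j • y‖ < d / 8} from
            not_lt_of_gt h)]
        rw [h2]
        refine (tendsto_const_nhds.sub hm).congr' ?_
        filter_upwards [hnrm.eventually_const_lt h] with q hq
        change _ = ({y | ‖epj α P ε q j • y‖ < d / 8} : Set (E n)).indicator _ y - _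
        rw [Set.indicator_of_notMem (show y ∉ {y | ‖epj α P ε q j • y‖ < d / 8} from
          not_lt_of_gt hq)]
    have h3 := (key.sub_const (FFX α P ε (d / 8) q0 x j y)).pow 2
    rw [sub_self, zero_pow (by norm_num)] at h3
    exact h3
  have hT : Tendsto (fun q : Par n J => ∫ y, (FFX α P ε (d / 8) q x j y
      - FFX α P ε (d / 8) q0 x j y) ^ 2 ∂(piM n)) (𝓝[Qd d δ2 ε] q0) (𝓝 (∫ _, (0 : ℝ) ∂(piM n))) := by
    refine tendsto_integral_filter_of_dominated_convergence (fun _ => (2 * M) ^ 2) ?_ ?_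
      (integrable_const _) hlim
    · filter_upwards [self_mem_nhdsWithin] with q hq
      exact (((hmem q hq).1.sub (hmem q0 hq0).1).pow 2)
    · filter_upwards [self_mem_nhdsWithin] with q hq
      refine Filter.Eventually.of_forall fun y => ?_
      rw [Real.norm_eq_abs, abs_pow]
      refine pow_le_pow_left₀ (abs_nonneg _) ?_ 2
      refine (abs_sub _ _).trans ?_
      have h1 := hbd q hq y
      have h2 := hbd q0 hq0 y
      linarith
  rw [integral_zero] at hT
  have hS := hT.sqrt
  rw [Real.sqrt_zero] at hS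
  change Tendsto _ _ _
  rw [tendsto_iff_norm_sub_tendsto_zero]
  refine hS.congr' ?_
  filter_upwards [self_mem_nhdsWithin] with q hq
  rw [toL_sub _ _ _ (hmem q hq) (hmem q0 hq0)]
  have h1 := toL_norm_sq (piM n) (fun y => FFX α P ε (d / 8) q x j y - FFX α P ε (d / 8) q0 x j y)
    ((hmem q hq).sub (hmem q0 hq0))
  rw [← h1, Real.sqrt_sq (norm_nonneg _)]

end

end Pool.Agent.QGlue
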