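import Pool.Agent.QGlue.C
import Pool.Agent.QGlue.D1
import Pool.Agent.QGlue.D2
import Pool.Agent.QGlue.E0
import Pool.Agent.QGlue.E1
import Pool.Agent.QGlue.E2

set_option autoImplicit false

namespace Pool.Agent.QGlue

open MeasureTheory Real Set Filter Topology

section

variable {n : ℕ} {J : Type} [Fintype J] [DecidableEq J] {α : ℝ} (P : Pol n)

private theorem E5b_bound (hn : n = 3 ∨ n = 4) (hα : -1 < α) (d δ2 ε : ℝ) (hd : 0 < d)
    (hε : 0 < ε) (hε1 : ε ≤ 1) (x : XX n J α P) :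
    ∃ (C : ℝ) (K : ℕ), 0 ≤ C ∧ ∀ q ∈ Qd (n := n) (J := J) d δ2 ε, ∀ z,
      |GGX α P ε (d / 8) q x z| ≤ C * (1 + ‖z‖) ^ K := by
  obtain ⟨C1, hC1, h1⟩ := cfg_out (J := J) α P d hd
  obtain ⟨C2, hC2, h2⟩ := phiX_all (J := J) P hn hα
  refine ⟨(1 / ε) * Real.exp (n * (C1 + c0 n ε + C2 * ‖x‖)), ⌈n * (C2 * ‖x‖)⌉₊, by positivity, ?_⟩
  intro q hq z
  have hz1 : 1 ≤ 1 + ‖z‖ := by linarith [norm_nonneg z]
  have hz0 : 0 < 1 + ‖z‖ := by linarith
  by_cases hz : z ∈ outR (d / 8) q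
  · have e1 : GGX α P ε (d / 8) q x z =
        (1 / ε) * Real.exp (n * (Wf α P ε q z + c0 n ε + phiX α P ε q x z)) := by
      simp only [GGX, GG, indicator_of_mem hz, phiX]
    rw [e1, abs_of_nonneg (by positivity), mul_assoc]
    refine mul_le_mul_of_nonneg_left ?_ (by positivity)
    have h3 := h1 ε hε hε1 δ2 q hq z hz
    have h4 := (abs_le.1 (h2 ε hε.le hε1 q x z)).2
    have h5 : (1 + ‖z‖) ^ ⌈n * (C2 * ‖x‖)⌉₊ =
        Real.exp (⌈n * (C2 * ‖x‖)⌉₊ * Real.log (1 + ‖z‖)) := by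
      rw [← Real.rpow_natCast, Real.rpow_def_of_pos hz0, mul_comm]
    rw [h5, ← Real.exp_add]
    refine Real.exp_le_exp.2 ?_
    have h6 : (n : ℝ) * (C2 * ‖x‖) ≤ ⌈n * (C2 * ‖x‖)⌉₊ := Nat.le_ceil _
    have h7 : 0 ≤ Real.log (1 + ‖z‖) := Real.log_nonneg hz1
    have h8 : (n : ℝ) * (Wf α P ε q z + c0 n ε + phiX α P ε q x z) ≤
        n * (C1 + c0 n ε + C2 * (1 + Real.log (1 + ‖z‖)) * ‖x‖) :=
      mul_le_mul_of_nonneg_left (by linarith) (Nat.cast_nonneg n)
    have h9 := mul_le_mul_of_nonneg_right h6 h7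
    nlinarith
  · have e1 : GGX α P ε (d / 8) q x z = 0 := by
      simp only [GGX, GG, indicator_of_notMem hz, mul_zero]
    rw [e1, abs_zero]
    positivity

private theorem E5b_pt (hn : n = 3 ∨ n = 4) (hα : -1 < α) (d δ2 ε : ℝ) (hd : 0 < d)
    (hε : 0 < ε) (x : XX n J α P) (q0 : Par n J) (hq0 : q0 ∈ Qd d δ2 ε) (z : E n)
    (hz : ∀ j, ‖z - q0.1 j‖ ≠ d / 8) :
    Tendsto (fun q : Par n J => GGX α P ε (d / 8) q x z) (𝓝[Qd d δ2 ε] q0)
      (𝓝 (GGX α P ε (d / 8) q0 x z)) := by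
  have hcont : ∀ j, Continuous (fun q : Par n J => ‖z - q.1 j‖) := by
    intro j
    have : Continuous (fun q : Par n J => q.1 j) := (continuous_apply j).comp continuous_fst
    exact (continuous_const.sub this).norm
  by_cases hz0 : z ∈ outR (d / 8) q0
  · have h1 : ∀ᶠ q in 𝓝[Qd d δ2 ε] q0, z ∈ outR (d / 8) q := by
      have h2 : ∀ j, ∀ᶠ q in 𝓝 q0, d / 8 < ‖z - q.1 j‖ := fun j =>
        (hcont j).continuousAt.eventually (lt_mem_nhds (lt_of_le_of_ne (hz0 j) (hz j).symm))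
      refine nhdsWithin_le_nhds ?_
      filter_upwards [eventually_all.2 h2] with q hq j
      exact (hq j).le
    have h3 : Tendsto (fun q : Par n J =>
        (1 / ε) * Real.exp (n * (Wf α P ε q z + c0 n ε + phiX α P ε q x z)))
        (𝓝[Qd d δ2 ε] q0)
        (𝓝 ((1 / ε) * Real.exp (n * (Wf α P ε q0 z + c0 n ε + phiX α P ε q0 x z)))) := by
      have h4 : Tendsto (fun q : Par n J => Wf α P ε q z) (𝓝[Qd d δ2 ε] q0)
          (𝓝 (Wf α P ε q0 z)) := Wf_cont α P d δ2 ε hd hε z q0 hq0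
      have h5 : Tendsto (fun q : Par n J => phiX α P ε q x z) (𝓝[Qd d δ2 ε] q0)
          (𝓝 (phiX α P ε q0 x z)) := by
        have hc : Continuous (fun q : Par n J => ((q, z) : Par n J × E n)) :=
          Continuous.prodMk continuous_id continuous_const
        have hm : MapsTo (fun q : Par n J => ((q, z) : Par n J × E n)) (Qd d δ2 ε)
            (Qd d δ2 ε ×ˢ univ) := fun q hq => ⟨hq, mem_univ _⟩
        exact (phiX_cont_q P hn hα d δ2 ε hd hε x).comp hc.continuousOn hm q0 hq0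
      exact tendsto_const_nhds.mul ((Real.continuous_exp.tendsto _).comp
        (tendsto_const_nhds.mul ((h4.add tendsto_const_nhds).add h5)))
    have e0 : GGX α P ε (d / 8) q0 x z =
        (1 / ε) * Real.exp (n * (Wf α P ε q0 z + c0 n ε + phiX α P ε q0 x z)) := by
      simp only [GGX, GG, indicator_of_mem hz0, phiX]
    rw [e0]
    refine h3.congr' ?_
    filter_upwards [h1] with q hq
    simp only [GGX, GG, indicator_of_mem hq, phiX]
  · have h1 : ∀ᶠ q in 𝓝[Qd d δ2 ε] q0, z ∉ outR (d / 8) q := by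
      have h2 : ∃ j, ‖z - q0.1 j‖ < d / 8 := by
        by_contra hcon
        push Not at hcon
        exact hz0 fun j => hcon j
      obtain ⟨j, hj⟩ := h2
      have h3 : ∀ᶠ q in 𝓝 q0, ‖z - q.1 j‖ < d / 8 :=
        (hcont j).continuousAt.eventually (gt_mem_nhds hj)
      refine nhdsWithin_le_nhds ?_
      filter_upwards [h3] with q hq hq'
      exact absurd (hq' j) (not_le.2 hq)
    have e0 : GGX α P ε (d / 8) q0 x z = 0 := by
      simp only [GGX, GG, indicator_of_notMem hz0, mul_zero]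
    rw [e0]
    refine tendsto_const_nhds.congr' ?_
    filter_upwards [h1] with q hq
    simp only [GGX, GG, indicator_of_notMem hq, mul_zero]

theorem GG_cont_q (hn : n = 3 ∨ n = 4) (hα : -1 < α) (d δ2 ε : ℝ) (hd : 0 < d) (hε : 0 < ε)
    (hε1 : ε ≤ 1) (x : XX n J α P) :
    ContinuousOn (fun q : Par n J => toL (mu0 n α P) (GGX α P ε (d / 8) q x)) (Qd d δ2 ε) := by
  intro q0 hq0
  obtain ⟨C, K, hC, hb⟩ := E5b_bound P hn hα d δ2 ε hd hε hε1 x
  have hmem := fun q hq => GGX_memLp (J := J) P hn hα d δ2 ε hd hε hε1 q hq x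
  show Tendsto _ _ _
  rw [tendsto_iff_norm_sub_tendsto_zero]
  -- the squared norms
  have hsq : Tendsto (fun q : Par n J => ∫ z, (GGX α P ε (d / 8) q x z -
      GGX α P ε (d / 8) q0 x z) ^ 2 ∂(mu0 n α P)) (𝓝[Qd d δ2 ε] q0) (𝓝 0) := by
    have h0 : ∫ z, (0 : ℝ) ∂(mu0 n α P) = 0 := integral_zero _ _
    rw [← h0]
    refine tendsto_integral_filter_of_dominated_convergence
      (fun z => (2 * C) ^ 2 * (1 + ‖z‖) ^ (2 * K)) ?_ ?_ ?_ ?_
    · filter_upwards [self_mem_nhdsWithin] with q hq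
      exact ((hmem q hq).aestronglyMeasurable.sub (hmem q0 hq0).aestronglyMeasurable).pow 2
    · filter_upwards [self_mem_nhdsWithin] with q hq
      refine Eventually.of_forall fun z => ?_
      have h1 := hb q hq z
      have h2 := hb q0 hq0 z
      rw [Real.norm_eq_abs, abs_of_nonneg (sq_nonneg _), pow_mul', ← mul_pow]
      refine sq_le_sq' ?_ ?_
      · have h3 := abs_le.1 h1
        have h4 := abs_le.1 h2
        nlinarith [h3.1, h3.2, h4.1, h4.2]
      · have h3 := abs_le.1 h1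
        have h4 := abs_le.1 h2
        nlinarith [h3.1, h3.2, h4.1, h4.2]
    · exact (mu0_moment hn hα P (2 * K)).const_mul _
    · have hnull : mu0 n α P (⋃ j, Metric.sphere (q0.1 j) (d / 8)) = 0 := by
        rw [measure_iUnion_null_iff]
        intro j
        refine withDensity_absolutelyContinuous _ _ ?_
        exact Measure.addHaar_sphere_of_ne_zero _ _ (by positivity)
      rw [measure_eq_zero_iff_ae_notMem] at hnull
      filter_upwards [hnull] with z hz
      have hz' : ∀ j, ‖z - q0.1 j‖ ≠ d / 8 := by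
        intro j hj
        refine hz (mem_iUnion.2 ⟨j, ?_⟩)
        rw [mem_sphere_iff_norm]
        exact hj
      have h1 := E5b_pt P hn hα d δ2 ε hd hε x q0 hq0 z hz'
      have h2 : Tendsto (fun q : Par n J => (GGX α P ε (d / 8) q x z -
          GGX α P ε (d / 8) q0 x z) ^ 2) (𝓝[Qd d δ2 ε] q0)
          (𝓝 ((GGX α P ε (d / 8) q0 x z - GGX α P ε (d / 8) q0 x z) ^ 2)) :=
        (h1.sub tendsto_const_nhds).pow 2
      simpa using h2
  have hroot : Tendsto (fun q : Par n J => Real.sqrt (∫ z, (GGX α P ε (d / 8) q x z -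
      GGX α P ε (d / 8) q0 x z) ^ 2 ∂(mu0 n α P))) (𝓝[Qd d δ2 ε] q0) (𝓝 0) := by
    have h1 := (Real.continuous_sqrt.tendsto 0).comp hsq
    rw [Real.sqrt_zero] at h1
    exact h1
  refine hroot.congr' ?_
  filter_upwards [self_mem_nhdsWithin] with q hq
  have hs := toL_norm_sq _ (fun z => GGX α P ε (d / 8) q x z - GGX α P ε (d / 8) q0 x z)
    ((hmem q hq).sub (hmem q0 hq0))
  rw [toL_sub _ _ _ (hmem q hq) (hmem q0 hq0), ← hs, Real.sqrt_sq (norm_nonneg _)]

end

end Pool.Agent.QGlue
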