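import Pool.Agent.QGlue.DefsE

set_option autoImplicit false

namespace Pool.Agent.QGlue

open MeasureTheory Real Set Filter Topology

/-- Banach's fixed point theorem with parameters. -/
theorem param_fixed {X Y : Type*} [NormedAddCommGroup X] [CompleteSpace X] [TopologicalSpace Y]
    (Q : Set Y) (T : Y → X → X) (r θ M : ℝ) (hr : 0 < r) (hθ : 0 ≤ θ) (hθ1 : θ < 1)
    (hL : ∀ q ∈ Q, ∀ x x', ‖x‖ ≤ r → ‖x'‖ ≤ r → ‖T q x - T q x'‖ ≤ θ * ‖x - x'‖)
    (h0 : ∀ q ∈ Q, ‖T q 0‖ ≤ M) (hM : M ≤ (1 - θ) * r)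
    (hc : ∀ x, ‖x‖ ≤ r → ContinuousOn (fun q => T q x) Q) :
    ∃ S : Y → X, ContinuousOn S Q ∧ ∀ q ∈ Q, ‖S q‖ ≤ M / (1 - θ) ∧ T q (S q) = S q ∧
      ∀ x, ‖x‖ ≤ r → T q x = x → x = S q := by
  have h1θ : 0 < 1 - θ := by linarith
  -- the bound of images of the ball
  have hbd : ∀ q ∈ Q, ∀ x, ‖x‖ ≤ r → ‖T q x‖ ≤ θ * ‖x‖ + M := by
    intro q hq x hx
    have h1 := hL q hq x 0 hx (by simpa using hr.le)
    rw [sub_zero] at h1
    have h2 : ‖T q x‖ ≤ ‖T q x - T q 0‖ + ‖T q 0‖ := by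
      have := norm_add_le (T q x - T q 0) (T q 0)
      simpa using this
    have h3 := h0 q hq
    linarith
  have hmaps : ∀ q ∈ Q, MapsTo (T q) (Metric.closedBall (0 : X) r) (Metric.closedBall (0 : X) r) := by
    intro q hq x hx
    rw [mem_closedBall_zero_iff] at hx ⊢
    have := hbd q hq x hx
    have h2 : θ * ‖x‖ ≤ θ * r := mul_le_mul_of_nonneg_left hx hθ
    nlinarith
  have hfix : ∀ q ∈ Q, ∃ x, ‖x‖ ≤ r ∧ T q x = x := by
    intro q hq
    have hcomplete : IsComplete (Metric.closedBall (0 : X) r) :=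
      Metric.isClosed_closedBall.isComplete
    have hcontr : ContractingWith ⟨θ, hθ⟩ ((hmaps q hq).restrict (T q) _ _) := by
      refine ⟨by exact_mod_cast hθ1, ?_⟩
      refine LipschitzWith.of_dist_le_mul ?_
      rintro ⟨x, hx⟩ ⟨y, hy⟩
      rw [mem_closedBall_zero_iff] at hx hy
      have := hL q hq x y hx hy
      rw [Subtype.dist_eq, Subtype.dist_eq]
      simp only [MapsTo.val_restrict_apply, dist_eq_norm]
      exact this
    obtain ⟨y, hy, hy', -⟩ := hcontr.exists_fixedPoint' hcomplete (hmaps q hq)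
      (x := 0) (by simpa using hr.le) (edist_ne_top _ _)
    exact ⟨y, by simpa using hy, hy'⟩
  choose! S hS1 hS2 using hfix
  have hest : ∀ q ∈ Q, ‖S q‖ ≤ M / (1 - θ) := by
    intro q hq
    have h1 := hbd q hq (S q) (hS1 q hq)
    rw [hS2 q hq] at h1
    rw [le_div_iff₀ h1θ]
    linarith
  refine ⟨S, ?_, ?_⟩
  · intro q0 hq0
    have hkey : ∀ q ∈ Q, dist (S q) (S q0) ≤ (1 - θ)⁻¹ * dist (T q (S q0)) (T q0 (S q0)) := by
      intro q hq
      have h1 := hL q hq (S q) (S q0) (hS1 q hq) (hS1 q0 hq0)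
      rw [hS2 q hq] at h1
      rw [hS2 q0 hq0]
      rw [dist_eq_norm, dist_eq_norm]
      have h2 : ‖S q - S q0‖ ≤ ‖S q - T q (S q0)‖ + ‖T q (S q0) - S q0‖ := by
        have := norm_add_le (S q - T q (S q0)) (T q (S q0) - S q0)
        simpa using this
      rw [inv_mul_eq_div, le_div_iff₀ h1θ]
      linarith
    have hcont : Tendsto (fun q => (1 - θ)⁻¹ * dist (T q (S q0)) (T q0 (S q0))) (𝓝[Q] q0) (𝓝 0) := by
      have h1 := hc (S q0) (hS1 q0 hq0) q0 hq0
      have h2 : Tendsto (fun q => dist (T q (S q0)) (T q0 (S q0))) (𝓝[Q] q0) (𝓝 0) := by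
        have := tendsto_iff_dist_tendsto_zero.mp h1
        simpa using this
      simpa using h2.const_mul (1 - θ)⁻¹
    rw [ContinuousWithinAt, tendsto_iff_dist_tendsto_zero]
    refine squeeze_zero' (Eventually.of_forall fun q => dist_nonneg) ?_ hcont
    filter_upwards [self_mem_nhdsWithin] with q hq using hkey q hq
  · intro q hq
    refine ⟨hest q hq, hS2 q hq, ?_⟩
    intro x hx hTx
    have h1 := hL q hq x (S q) hx (hS1 q hq)
    rw [hTx, hS2 q hq] at h1
    have h2 : ‖x - S q‖ = 0 := by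
      have := norm_nonneg (x - S q)
      nlinarith
    exact sub_eq_zero.mp (norm_eq_zero.mp h2)

end Pool.Agent.QGlue
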