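import Pool.Agent.QGlue.A1
import Pool.Agent.QGlue.A4
import Pool.Agent.QGlue.E0
import Pool.Agent.QGlue.E2
import Pool.Agent.QGlue.E3b
import Pool.Agent.QGlue.E3c
import Pool.Agent.QGlue.E4
import Pool.Agent.QGlue.E5a
import Pool.Agent.QGlue.E5b
import Pool.Agent.QGlue.E6

/-! # The family of fixed points -/

set_option autoImplicit false

namespace Pool.Agent.QGlue

open MeasureTheory Real Set Filter Topology

private theorem E7_Z0 {n : ℕ} (y : E n) : ‖Z0 y‖ ≤ 1 := by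
  have h := Z_norm y
  rw [Real.norm_eq_abs]
  refine (sq_le_one_iff_abs_le_one _).1 ?_
  have := sq_nonneg ‖Zv y‖
  linarith

private theorem E7_Zv {n : ℕ} (y : E n) : ‖Zv y‖ ≤ 1 := by
  have h := Z_norm y
  have h1 : ‖Zv y‖ ^ 2 ≤ 1 := by
    have := sq_nonneg (Z0 y)
    linarith
  exact (sq_le_one_iff₀ (norm_nonneg _)).1 h1

private theorem E7_int {n : ℕ} (hn : n = 3 ∨ n = 4) {F : Type*} [NormedAddCommGroup F]
    [NormedSpace ℝ F] [SecondCountableTopology F] (w : E n → F) (hw : Continuous w)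
    (hM : ∀ y, ‖w y‖ ≤ 1) (f g : Lp ℝ 2 (piM n)) :
    ‖(∫ y, f y • w y ∂(piM n)) - ∫ y, g y • w y ∂(piM n)‖ ≤ ‖f - g‖ := by
  haveI := piM_prob hn
  have hint : ∀ f : Lp ℝ 2 (piM n), Integrable (fun y => f y) (piM n) := fun f =>
    (Lp.memLp f).integrable (by norm_num)
  have hintw : ∀ f : Lp ℝ 2 (piM n), Integrable (fun y => f y • w y) (piM n) := fun f =>
    (hint f).smul_bdd 1 hw.aestronglyMeasurable (Eventually.of_forall hM)
  rw [← integral_sub (hintw f) (hintw g)]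
  have h1 : (fun y => f y • w y - g y • w y) =ᵐ[piM n] fun y => (f - g : Lp ℝ 2 (piM n)) y • w y := by
    filter_upwards [Lp.coeFn_sub f g] with y hy
    rw [hy, Pi.sub_apply, sub_smul]
  rw [integral_congr_ae h1]
  set k : Lp ℝ 2 (piM n) := f - g with hk
  calc ‖∫ y, k y • w y ∂(piM n)‖ ≤ ∫ y, ‖k y • w y‖ ∂(piM n) := norm_integral_le_integral_norm _
    _ ≤ ∫ y, ‖k y‖ ∂(piM n) := by
        refine integral_mono (hintw k).norm (hint k).norm fun y => ?_
        simp only [norm_smul]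
        exact mul_le_of_le_one_right (norm_nonneg _) (hM y)
    _ ≤ ‖k‖ := by
        have h2 : eLpNorm k 1 (piM n) ≤ eLpNorm k 2 (piM n) :=
          eLpNorm_le_eLpNorm_of_exponent_le (by norm_num) (Lp.aestronglyMeasurable k)
        have h3 : ∫ y, ‖k y‖ ∂(piM n) = (eLpNorm k 1 (piM n)).toReal := by
          rw [integral_norm_eq_lintegral_enorm (Lp.aestronglyMeasurable k),
            eLpNorm_one_eq_lintegral_enorm]
        rw [h3, Lp.norm_def]
        exact ENNReal.toReal_mono (Lp.eLpNorm_ne_top k) h2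

theorem fixed_family {n : ℕ} (hn : n = 3 ∨ n = 4) : ∃ δ2 r : ℝ, 0 < δ2 ∧ δ2 ≤ 1 ∧ 0 < r ∧ r ≤ 1 ∧
    ∀ (J : Type) [Fintype J] [DecidableEq J] (α : ℝ) (P : Pol n) (d : ℝ), -1 < α → 0 < d →
    ∃ ε0 C : ℝ, 0 < ε0 ∧ ε0 ≤ 1 ∧ 0 < C ∧ ∀ ε, 0 < ε → ε < ε0 →
      ∃ S : Par n J → XX n J α P, ContinuousOn S (Qd d δ2 ε) ∧
        (∀ j, ContinuousOn (fun q => redA α P ε (d / 8) q (S q) j) (Qd d δ2 ε)) ∧
        (∀ j, ContinuousOn (fun q => redB α P ε (d / 8) q (S q) j) (Qd d δ2 ε)) ∧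
        (∀ j, ContinuousOn (fun q => redC α P ε (d / 8) q (S q) j) (Qd d δ2 ε)) ∧
        ∀ q ∈ Qd (n := n) (J := J) d δ2 ε, ‖S q‖ ≤ C * ε ∧ ‖S q‖ ≤ r ∧
          TT α P ε (d / 8) q (S q) = S q ∧
          ∀ x, ‖x‖ ≤ r → TT α P ε (d / 8) q x = x → x = S q := by
  haveI := piM_prob hn
  obtain ⟨δ2, r, θ, hδ, hδ1, hr, hr1, hθ, hθ1, hcontr⟩ := FF_contr hn
  refine ⟨δ2, r, hδ, hδ1, hr, hr1, ?_⟩
  intro J _ _ α P d hα hd
  obtain ⟨ε1, hε1, hc1⟩ := hcontr J α P d hα hd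
  obtain ⟨ε2, C2, hε2, hC2, hlip⟩ := FF_lip (J := J) P hn hα d hd
  obtain ⟨ε3, C3, hε3, hC3, hzero⟩ := FF_zero (J := J) P hn hα d hd
  obtain ⟨ε4, C4, hε4, hC4, hgg⟩ := GG_contr (J := J) P hn hα d hd
  set C0 : ℝ := C3 + C4 with hC0
  have hC0p : 0 < C0 := by positivity
  have h1θ : 0 < 1 - θ := by linarith
  set ε0 : ℝ := min (min (min ε1 ε2) (min ε3 ε4)) (min 1 (min (θ / C4) ((1 - θ) * r / C0))) with hε0
  have hε0p : 0 < ε0 := by
    simp only [hε0, lt_min_iff]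
    refine ⟨⟨⟨hε1, hε2⟩, hε3, hε4⟩, one_pos, by positivity, by positivity⟩
  refine ⟨ε0, C0 / (1 - θ), hε0p, ?_, by positivity, ?_⟩
  · exact (min_le_right _ _).trans (min_le_left _ _)
  intro ε hε hεlt
  simp only [hε0, lt_min_iff] at hεlt
  obtain ⟨⟨⟨l1, l2⟩, l3, l4⟩, l5, l6, l7⟩ := hεlt
  have hθC : C4 * ε ≤ θ := by
    have := (lt_div_iff₀ hC4).1 l6
    linarith
  have hM : C0 * ε ≤ (1 - θ) * r := by
    have := (lt_div_iff₀ hC0p).1 l7
    linarith
  have hnorm : ∀ (a : XX n J α P) (c : ℝ), 0 ≤ c → (∀ j, ‖a.1 j‖ ≤ c) → ‖a.2‖ ≤ c → ‖a‖ ≤ c := by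
    intro a c hc h1 h2
    rw [Prod.norm_def]
    exact max_le ((pi_norm_le_iff_of_nonneg hc).2 h1) h2
  have hL : ∀ q ∈ Qd (n := n) (J := J) d δ2 ε, ∀ x x' : XX n J α P, ‖x‖ ≤ r → ‖x'‖ ≤ r →
      ‖TT α P ε (d / 8) q x - TT α P ε (d / 8) q x'‖ ≤ θ * ‖x - x'‖ := by
    intro q hq x x' hx hx'
    refine hnorm _ _ (by positivity) (fun j => ?_) ?_
    · exact hc1 ε hε l1 q hq x x' hx hx' j
    · have := (hgg ε hε l4 δ2 hδ1 q hq).1 x x' (hx.trans hr1) (hx'.trans hr1)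
      refine this.trans ?_
      exact mul_le_mul_of_nonneg_right hθC (norm_nonneg _)
  have h0 : ∀ q ∈ Qd (n := n) (J := J) d δ2 ε, ‖TT α P ε (d / 8) q (0 : XX n J α P)‖ ≤ C0 * ε := by
    intro q hq
    refine hnorm _ _ (by positivity) (fun j => ?_) ?_
    · refine (hzero ε hε l3 δ2 hδ1 q hq j).trans ?_
      exact mul_le_mul_of_nonneg_right (by linarith) hε.le
    · refine (hgg ε hε l4 δ2 hδ1 q hq).2.trans ?_
      exact mul_le_mul_of_nonneg_right (by linarith) hε.le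
  have hPP : Continuous (PP n) := by
    have : LipschitzWith 1 (PP n) := LipschitzWith.of_dist_le_mul fun f g => by
      rw [dist_eq_norm, dist_eq_norm, ← PP_sub]
      simpa using PP_norm (f - g)
    exact this.continuous
  have hc : ∀ x : XX n J α P, ‖x‖ ≤ r →
      ContinuousOn (fun q => TT α P ε (d / 8) q x) (Qd (n := n) (J := J) d δ2 ε) := by
    intro x _
    refine ContinuousOn.prodMk (continuousOn_pi.2 fun j => ?_) ?_
    · exact hPP.comp_continuousOn (FF_cont_q P hn hα d δ2 ε hd hε l5.le x j)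
    · exact GG_cont_q P hn hα d δ2 ε hd hε l5.le x
  obtain ⟨S, hS, hSq⟩ := param_fixed (Qd (n := n) (J := J) d δ2 ε)
    (fun q x => TT α P ε (d / 8) q x) r θ (C0 * ε) hr hθ.le hθ1 hL h0 hM hc
  have hSr : ∀ q ∈ Qd (n := n) (J := J) d δ2 ε, ‖S q‖ ≤ r := by
    intro q hq
    refine (hSq q hq).1.trans ?_
    rw [div_le_iff₀ h1θ]
    linarith
  -- continuity of the bubble components along the family
  have hFc : ∀ j, ContinuousOn (fun q => toL (piM n) (FFX α P ε (d / 8) q (S q) j))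
      (Qd (n := n) (J := J) d δ2 ε) := by
    intro j q0 hq0
    have h1 : Tendsto (fun q => toL (piM n) (FFX α P ε (d / 8) q (S q0) j))
        (𝓝[Qd d δ2 ε] q0) (𝓝 (toL (piM n) (FFX α P ε (d / 8) q0 (S q0) j))) :=
      FF_cont_q P hn hα d δ2 ε hd hε l5.le (S q0) j q0 hq0
    have h2 : Tendsto (fun q => toL (piM n) (FFX α P ε (d / 8) q (S q) j)
        - toL (piM n) (FFX α P ε (d / 8) q (S q0) j)) (𝓝[Qd d δ2 ε] q0) (𝓝 0) := by
      have h3 : Tendsto (fun q => C2 * ‖S q - S q0‖) (𝓝[Qd d δ2 ε] q0) (𝓝 0) := by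
        have h4 : Tendsto (fun q => C2 * ‖S q - S q0‖) (𝓝[Qd d δ2 ε] q0)
            (𝓝 (C2 * ‖S q0 - S q0‖)) :=
          (((hS q0 hq0).sub tendsto_const_nhds).norm).const_mul C2
        simpa using h4
      refine squeeze_zero_norm' ?_ h3
      filter_upwards [self_mem_nhdsWithin] with q hq
      exact hlip ε hε l2 δ2 hδ1 q hq (S q) (S q0) ((hSr q hq).trans hr1)
        ((hSr q0 hq0).trans hr1) j
    have h5 := h2.add h1
    have h6 : Tendsto (fun q => toL (piM n) (FFX α P ε (d / 8) q (S q) j))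
        (𝓝[Qd d δ2 ε] q0) (𝓝 (toL (piM n) (FFX α P ε (d / 8) q0 (S q0) j))) := by
      simpa using h5
    exact h6
  have hred : ∀ {F : Type} [NormedAddCommGroup F] [NormedSpace ℝ F]
      [SecondCountableTopology F] (w : E n → F), Continuous w → (∀ y, ‖w y‖ ≤ 1) → ∀ j,
      ContinuousOn (fun q => ∫ y, FFX α P ε (d / 8) q (S q) j y • w y ∂(piM n))
        (Qd (n := n) (J := J) d δ2 ε) := by
    intro F _ _ _ w hw hw1 j
    have hLip : LipschitzWith 1 (fun f : Lp ℝ 2 (piM n) => ∫ y, f y • w y ∂(piM n)) :=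
      LipschitzWith.of_dist_le_mul fun f g => by
        rw [dist_eq_norm, dist_eq_norm]
        simpa using E7_int hn w hw hw1 f g
    refine (hLip.continuous.comp_continuousOn (hFc j)).congr fun q hq => ?_
    have h1 := toL_coe (piM n) _ (FFX_memLp P hn hα d δ2 ε hd hε q hq (S q) j)
    refine integral_congr_ae ?_
    filter_upwards [h1] with y hy
    rw [hy]
  refine ⟨S, hS, fun j => ?_, fun j => ?_, fun j => ?_, fun q hq => ?_⟩
  · have := hred (fun _ : E n => (1 : ℝ)) continuous_const (fun _ => by simp) j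
    simpa [redA] using this
  · exact hred (fun y : E n => Z0 y) continuous_Z0 E7_Z0 j
  · exact hred (fun y : E n => Zv y) continuous_Zv E7_Zv j
  · obtain ⟨a1, a2, a3⟩ := hSq q hq
    refine ⟨a1.trans (le_of_eq (by ring)), hSr q hq, a2, a3⟩

end Pool.Agent.QGlue
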