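import Pool.Agent.QGlue.A1
import Pool.Agent.QGlue.A4
import Pool.Agent.QGlue.A5
import Pool.Agent.QGlue.D1
import Pool.Agent.QGlue.E1
import Pool.Agent.QGlue.E2
import Pool.Agent.QGlue.E3a

set_option autoImplicit false

namespace Pool.Agent.QGlue

open MeasureTheory Real Set Filter Topology

/-- The pointwise algebra on the ball. -/
private theorem F_alg (N e1 eA lam ph u C ε r K0 K s X C2 : ℝ) (hN : 0 < N) (hC : 0 < C)
    (hε : 0 < ε) (hr : 0 ≤ r) (hK0 : 0 < K0) (hK : 0 < K) (hC2 : 0 < C2)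
    (h1 : |e1 - eA| ≤ C * ε * (1 + r))
    (h2 : |e1 - eA * (1 + N * lam)| ≤ C * ε ^ 2 * (1 + r ^ 2))
    (he1 : |e1| ≤ K) (heA : |eA| ≤ K0)
    (hph : |ph| ≤ C2 * ε) (hu : |ph - u| ≤ s * X) (hsmall : N * (C2 * ε) ≤ 1) :
    |e1 * Real.exp (N * ph) - eA * (1 + N * lam + N * u)|
      ≤ (K * N ^ 2 * C2 ^ 2 + C + 2 * (N * C2 * C)) * (ε ^ 2 * (1 + r ^ 2))
        + N * K0 * (s * X) := by
  have e : e1 * Real.exp (N * ph) - eA * (1 + N * lam + N * u)
      = e1 * (Real.exp (N * ph) - 1 - N * ph) + (e1 - eA * (1 + N * lam))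
        + N * ph * (e1 - eA) + N * eA * (ph - u) := by ring
  have hNph : |N * ph| ≤ N * (C2 * ε) := by
    rw [abs_mul, abs_of_pos hN]; exact mul_le_mul_of_nonneg_left hph hN.le
  have q1 : |e1 * (Real.exp (N * ph) - 1 - N * ph)| ≤ K * (N * (C2 * ε)) ^ 2 := by
    rw [abs_mul]
    have := Real.abs_exp_sub_one_sub_id_le (x := N * ph) (hNph.trans hsmall)
    have h3 : (N * ph) ^ 2 ≤ (N * (C2 * ε)) ^ 2 := by
      rw [← sq_abs (N * ph)]; exact pow_le_pow_left₀ (abs_nonneg _) hNph 2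
    exact mul_le_mul he1 (this.trans h3) (abs_nonneg _) hK.le
  have q3 : |N * ph * (e1 - eA)| ≤ N * (C2 * ε) * (C * ε * (1 + r)) := by
    rw [abs_mul]
    exact mul_le_mul hNph h1 (abs_nonneg _) (by positivity)
  have q4 : |N * eA * (ph - u)| ≤ N * K0 * (s * X) := by
    rw [abs_mul, abs_mul, abs_of_pos hN]
    exact mul_le_mul (mul_le_mul_of_nonneg_left heA hN.le) hu (abs_nonneg _) (by positivity)
  have hr2 : 1 + r ≤ 2 * (1 + r ^ 2) := by nlinarith [sq_nonneg (r - 1), sq_nonneg r]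
  rw [e]
  have t1 := abs_add_le (e1 * (Real.exp (N * ph) - 1 - N * ph) + (e1 - eA * (1 + N * lam))
        + N * ph * (e1 - eA)) (N * eA * (ph - u))
  have t2 := abs_add_le (e1 * (Real.exp (N * ph) - 1 - N * ph) + (e1 - eA * (1 + N * lam)))
        (N * ph * (e1 - eA))
  have t3 := abs_add_le (e1 * (Real.exp (N * ph) - 1 - N * ph)) (e1 - eA * (1 + N * lam))
  have q1' : K * (N * (C2 * ε)) ^ 2 ≤ K * N ^ 2 * C2 ^ 2 * (ε ^ 2 * (1 + r ^ 2)) := by
    have : K * (N * (C2 * ε)) ^ 2 = K * N ^ 2 * C2 ^ 2 * (ε ^ 2 * 1) := by ring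
    rw [this]
    have : ε ^ 2 * 1 ≤ ε ^ 2 * (1 + r ^ 2) := by nlinarith [sq_nonneg r, sq_nonneg ε, mul_nonneg (sq_nonneg ε) (sq_nonneg r)]
    exact mul_le_mul_of_nonneg_left this (by positivity)
  have q3' : N * (C2 * ε) * (C * ε * (1 + r)) ≤ 2 * (N * C2 * C) * (ε ^ 2 * (1 + r ^ 2)) := by
    have e3 : N * (C2 * ε) * (C * ε * (1 + r)) = (N * C2 * C * ε ^ 2) * (1 + r) := by ring
    rw [e3]
    have := mul_le_mul_of_nonneg_left hr2 (by positivity : 0 ≤ N * C2 * C * ε ^ 2)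
    nlinarith [this]
  have q2' : C * ε ^ 2 * (1 + r ^ 2) = C * (ε ^ 2 * (1 + r ^ 2)) := by ring
  nlinarith [q1, q3, q4, q1', q3', q2', t1, t2, t3, h2]

/-- The pointwise estimate off the ball. -/
private theorem F_off (N eA lam u ε r K0 M C3 C4 : ℝ) (hN : 0 < N)
    (hε : 0 < ε) (hr : 0 ≤ r) (hK0 : 0 < K0) (hM : 0 < M) (hC3 : 0 < C3) (hC4 : 0 < C4)
    (heA : |eA| ≤ K0) (hlam : |lam| ≤ C3 * ε * r) (hu : |u| ≤ C4 * ε) (hb : 1 ≤ M * ε * r) :
    |eA * (1 + N * lam + N * u)| ≤ K0 * (M ^ 2 + N * C3 * M + N * C4 * M) * (ε ^ 2 * (1 + r ^ 2)) := by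
  rw [abs_mul]
  have h1 : |1 + N * lam + N * u| ≤ 1 + N * (C3 * ε * r) + N * (C4 * ε) := by
    have a1 := abs_add_le (1 + N * lam) (N * u)
    have a2 := abs_add_le 1 (N * lam)
    rw [abs_mul N lam, abs_of_pos hN, abs_one] at a2
    rw [abs_mul N u, abs_of_pos hN] at a1
    have := mul_le_mul_of_nonneg_left hlam hN.le
    have := mul_le_mul_of_nonneg_left hu hN.le
    linarith
  have hrr : r ≤ 1 + r ^ 2 := by nlinarith [sq_nonneg (r - 1)]
  have h2 : 1 ≤ M ^ 2 * (ε ^ 2 * (1 + r ^ 2)) := by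
    have : 1 ≤ (M * ε * r) ^ 2 := by nlinarith
    nlinarith [sq_nonneg (M * ε), sq_nonneg (M * ε * r)]
  have h3 : ε * r ≤ M * (ε ^ 2 * (1 + r ^ 2)) := by
    have : ε * r * 1 ≤ ε * r * (M * ε * r) := mul_le_mul_of_nonneg_left hb (by positivity)
    have h0 : 0 ≤ M * ε ^ 2 := by positivity
    nlinarith
  have h4 : ε ≤ M * (ε ^ 2 * (1 + r ^ 2)) := by
    have : ε * 1 ≤ ε * (M * ε * r) := mul_le_mul_of_nonneg_left hb (by positivity)
    have h0 : 0 ≤ M * ε ^ 2 := by positivity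
    nlinarith [mul_le_mul_of_nonneg_left hrr h0]
  have h5 : 1 + N * (C3 * ε * r) + N * (C4 * ε)
      ≤ (M ^ 2 + N * C3 * M + N * C4 * M) * (ε ^ 2 * (1 + r ^ 2)) := by
    have := mul_le_mul_of_nonneg_left h3 (by positivity : 0 ≤ N * C3)
    have := mul_le_mul_of_nonneg_left h4 (by positivity : 0 ≤ N * C4)
    nlinarith
  calc |eA| * |1 + N * lam + N * u| ≤ K0 * ((M ^ 2 + N * C3 * M + N * C4 * M) * (ε ^ 2 * (1 + r ^ 2))) :=
        mul_le_mul heA (h1.trans h5) (abs_nonneg _) hK0.le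
    _ = _ := by ring

/-- Integration of a pointwise estimate against a bounded function. -/
private theorem F_int {n : ℕ} (μ : Measure (E n)) [IsProbabilityMeasure μ]
    {V : Type*} [NormedAddCommGroup V] [NormedSpace ℝ V]
    (F G : E n → ℝ) (W : E n → V) (hW : Continuous W) (hW1 : ∀ y, ‖W y‖ ≤ 1)
    (hF : Integrable F μ) (hG : Integrable G μ) (hsq : Integrable (fun y : E n => ‖y‖ ^ 2) μ)
    (a b : ℝ) (h : ∀ y, |F y - G y| ≤ a * (1 + ‖y‖ ^ 2) + b) :
    Integrable (fun y => F y • W y) μ ∧ Integrable (fun y => G y • W y) μ ∧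
    ‖∫ y, F y • W y ∂μ - ∫ y, G y • W y ∂μ‖ ≤ a * (1 + ∫ y, ‖y‖ ^ 2 ∂μ) + b := by
  have hi : ∀ f : E n → ℝ, Integrable f μ → Integrable (fun y => f y • W y) μ := by
    intro f hf
    refine Integrable.mono hf (hf.aestronglyMeasurable.smul hW.aestronglyMeasurable)
      (Eventually.of_forall fun y => ?_)
    rw [norm_smul]
    exact mul_le_of_le_one_right (norm_nonneg _) (hW1 y)
  refine ⟨hi F hF, hi G hG, ?_⟩
  rw [← integral_sub (hi F hF) (hi G hG)]
  have e : ∀ y, F y • W y - G y • W y = (F y - G y) • W y := fun y => by rw [sub_smul]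
  have hint : Integrable (fun y : E n => a * (1 + ‖y‖ ^ 2) + b) μ :=
    (((integrable_const 1).add hsq).const_mul a).add (integrable_const b)
  have := norm_integral_le_of_norm_le (f := fun y => F y • W y - G y • W y) hint
    (Eventually.of_forall fun y => by
      rw [e, norm_smul]
      exact (mul_le_of_le_one_right (norm_nonneg _) (hW1 y)).trans (h y))
  refine this.trans (le_of_eq ?_)
  have e1 : ∫ y : E n, (a * (1 + ‖y‖ ^ 2) + b) ∂μ
      = (∫ y : E n, a * (1 + ‖y‖ ^ 2) ∂μ) + ∫ _y : E n, b ∂μ :=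
    integral_add (((integrable_const 1).add hsq).const_mul a) (integrable_const b)
  have e2 : ∫ y : E n, a * (1 + ‖y‖ ^ 2) ∂μ = a * ∫ y : E n, (1 + ‖y‖ ^ 2) ∂μ :=
    integral_const_mul _ _
  have e3 : ∫ y : E n, (1 + ‖y‖ ^ 2) ∂μ = (∫ _y : E n, (1 : ℝ) ∂μ) + ∫ y : E n, ‖y‖ ^ 2 ∂μ :=
    integral_add (integrable_const 1) hsq
  rw [e1, e2, e3]
  simp

private theorem F_log_le (r : ℝ) (hr : 0 ≤ r) : |Real.log (1 + r ^ 2)| ≤ 2 * r := by
  have h1 : 0 ≤ Real.log (1 + r ^ 2) := Real.log_nonneg (by nlinarith [sq_nonneg r])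
  rw [abs_of_nonneg h1]
  have h2 : Real.log (1 + r ^ 2) ≤ Real.log ((1 + r) ^ 2) :=
    Real.log_le_log (by positivity) (by nlinarith)
  rw [Real.log_pow] at h2
  have h3 : Real.log (1 + r) ≤ r := by
    have := Real.log_le_sub_one_of_pos (show (0 : ℝ) < 1 + r by linarith)
    linarith
  push_cast at h2
  linarith

section

variable {n : ℕ}

/-- The linear part. -/
private noncomputable def F_lam (e m : ℝ) (D : E n) (y : E n) : ℝ :=
  e * inner ℝ D y - m * Real.log (1 + ‖y‖ ^ 2)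

private theorem F_lam_cont (e m : ℝ) (D : E n) : Continuous (F_lam e m D) := by
  unfold F_lam
  have : Continuous fun y : E n => Real.log (1 + ‖y‖ ^ 2) :=
    Continuous.log (by fun_prop) (fun y => by positivity)
  fun_prop

private theorem F_lam_le (e m : ℝ) (D : E n) (y : E n) :
    |F_lam e m D y| ≤ (|e| * ‖D‖ + 2 * |m|) * ‖y‖ := by
  unfold F_lam
  have h1 := abs_sub (e * inner ℝ D y) (m * Real.log (1 + ‖y‖ ^ 2))
  rw [abs_mul, abs_mul] at h1
  have h2 : |inner ℝ D y| ≤ ‖D‖ * ‖y‖ := abs_real_inner_le_norm D y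
  have h3 := F_log_le ‖y‖ (norm_nonneg y)
  have := mul_le_mul_of_nonneg_left h2 (abs_nonneg e)
  have := mul_le_mul_of_nonneg_left h3 (abs_nonneg m)
  nlinarith

private theorem F_int_norm (hn : n = 3 ∨ n = 4) : Integrable (fun y : E n => ‖y‖) (piM n) := by
  have := piM_prob hn
  refine Integrable.mono ((integrable_const (1 : ℝ)).add (int_sq hn))
    (by fun_prop : Continuous fun y : E n => ‖y‖).aestronglyMeasurable
    (Eventually.of_forall fun y => ?_)
  simp only [Pi.add_apply, norm_norm]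
  rw [Real.norm_of_nonneg (by positivity)]
  nlinarith [sq_nonneg (‖y‖ - 1)]

private theorem F_lam_int (hn : n = 3 ∨ n = 4) (e m : ℝ) (D : E n) :
    Integrable (F_lam e m D) (piM n) := by
  refine Integrable.mono ((F_int_norm hn).const_mul (|e| * ‖D‖ + 2 * |m|))
    (F_lam_cont e m D).aestronglyMeasurable (Eventually.of_forall fun y => ?_)
  rw [Real.norm_eq_abs]
  refine (F_lam_le e m D y).trans ?_
  rw [Real.norm_of_nonneg (by positivity)]

private theorem F_u_int (hn : n = 3 ∨ n = 4) (f : Lp ℝ 2 (piM n)) :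
    Integrable (U n f) (piM n) := by
  have := piM_prob hn
  obtain ⟨C, hC, h⟩ := U_bound hn
  refine Integrable.mono (integrable_const (C * ‖f‖)) (U_cont hn f).aestronglyMeasurable
    (Eventually.of_forall fun y => ?_)
  rw [Real.norm_eq_abs]
  refine (h f y).trans ?_
  rw [Real.norm_of_nonneg (by positivity)]

/-- The comparison function. -/
private noncomputable def F_G (eA e m : ℝ) (D : E n) (f : Lp ℝ 2 (piM n)) (y : E n) : ℝ :=
  eA * (1 + n * F_lam e m D y + n * U n f y) - (1 + m)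

private theorem F_G_int (hn : n = 3 ∨ n = 4) (eA e m : ℝ) (D : E n) (f : Lp ℝ 2 (piM n)) :
    Integrable (F_G eA e m D f) (piM n) := by
  have := piM_prob hn
  unfold F_G
  exact ((((integrable_const (1 : ℝ)).add ((F_lam_int hn e m D).const_mul n)).add
    ((F_u_int hn f).const_mul n)).const_mul eA).sub (integrable_const _)

private theorem F_Z0_le (y : E n) : ‖Z0 y‖ ≤ 1 := by
  have h := Z_norm y
  rw [Real.norm_eq_abs]
  exact abs_le_one_iff_mul_self_le_one.2 (by nlinarith [sq_nonneg ‖Zv y‖])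

private theorem F_Zv_le (y : E n) : ‖Zv y‖ ≤ 1 := by
  have h := Z_norm y
  nlinarith [sq_nonneg (Z0 y), norm_nonneg (Zv y)]

private theorem F_smul_int (hn : n = 3 ∨ n = 4) {V : Type*} [NormedAddCommGroup V]
    [NormedSpace ℝ V] (F : E n → ℝ) (W : E n → V) (hW : Continuous W) (hW1 : ∀ y, ‖W y‖ ≤ 1)
    (hF : Integrable F (piM n)) : Integrable (fun y => F y • W y) (piM n) := by
  refine Integrable.mono hF (hF.aestronglyMeasurable.smul hW.aestronglyMeasurable)
      (Eventually.of_forall fun y => ?_)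
  rw [norm_smul]
  exact mul_le_of_le_one_right (norm_nonneg _) (hW1 y)

private theorem F_split {V : Type*} [NormedAddCommGroup V] [NormedSpace ℝ V] (μ : Measure (E n))
    (a b c d : ℝ) (f1 f2 f3 f4 : E n → V) (h1 : Integrable f1 μ) (h2 : Integrable f2 μ)
    (h3 : Integrable f3 μ) (h4 : Integrable f4 μ) :
    ∫ y, (a • f1 y + (b • f2 y - c • f3 y + d • f4 y)) ∂μ
      = a • ∫ y, f1 y ∂μ + (b • ∫ y, f2 y ∂μ - c • ∫ y, f3 y ∂μ + d • ∫ y, f4 y ∂μ) := by
  have e1 : ∫ y, (a • f1 y + (b • f2 y - c • f3 y + d • f4 y)) ∂μ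
      = (∫ y, a • f1 y ∂μ) + ∫ y, (b • f2 y - c • f3 y + d • f4 y) ∂μ :=
    integral_add (h1.smul a) (((h2.smul b).sub (h3.smul c)).add (h4.smul d))
  have e2 : ∫ y, (b • f2 y - c • f3 y + d • f4 y) ∂μ
      = (∫ y, (b • f2 y - c • f3 y) ∂μ) + ∫ y, d • f4 y ∂μ :=
    integral_add ((h2.smul b).sub (h3.smul c)) (h4.smul d)
  have e3 : ∫ y, (b • f2 y - c • f3 y) ∂μ = (∫ y, b • f2 y ∂μ) - ∫ y, c • f3 y ∂μ :=
    integral_sub (h2.smul b) (h3.smul c)
  rw [e1, e2, e3, integral_smul, integral_smul, integral_smul, integral_smul]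

/-- Integral of the comparison function against a mode. -/
private theorem F_G_W (hn : n = 3 ∨ n = 4) {V : Type*} [NormedAddCommGroup V]
    [NormedSpace ℝ V] (W : E n → V) (hW : Continuous W) (hW1 : ∀ y, ‖W y‖ ≤ 1)
    (eA e m : ℝ) (D : E n) (f : Lp ℝ 2 (piM n)) (h0 : ∫ y, W y ∂(piM n) = 0)
    (hU : ∫ y, U n f y • W y ∂(piM n) = 0) :
    ∫ y, F_G eA e m D f y • W y ∂(piM n)
      = (eA * n) • (e • (∫ y, (inner ℝ D y : ℝ) • W y ∂(piM n))
          - m • ∫ y, Real.log (1 + ‖y‖ ^ 2) • W y ∂(piM n)) := by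
  have := piM_prob hn
  have i1 : Integrable (fun y : E n => (1 : ℝ) • W y) (piM n) :=
    F_smul_int hn (fun _ => (1 : ℝ)) W hW hW1 (integrable_const _)
  have iD : Integrable (fun y : E n => (inner ℝ D y : ℝ) • W y) (piM n) :=
    F_smul_int hn _ W hW hW1 (by
      have := F_lam_int hn 1 0 D
      have e : F_lam 1 0 D = fun y : E n => (inner ℝ D y : ℝ) := by
        funext y; simp [F_lam]
      rwa [e] at this)
  have iL : Integrable (fun y : E n => Real.log (1 + ‖y‖ ^ 2) • W y) (piM n) :=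
    F_smul_int hn _ W hW hW1 (by
      have := (F_lam_int hn 0 (-1) (0 : E n))
      have e : F_lam 0 (-1) (0 : E n) = fun y : E n => Real.log (1 + ‖y‖ ^ 2) := by
        funext y; simp [F_lam]
      rwa [e] at this)
  have iU : Integrable (fun y : E n => U n f y • W y) (piM n) :=
    F_smul_int hn _ W hW hW1 (F_u_int hn f)
  have e1 : ∀ y, F_G eA e m D f y • W y = (eA - (1 + m)) • ((1 : ℝ) • W y)
      + ((eA * n * e) • ((inner ℝ D y : ℝ) • W y) - (eA * n * m) • (Real.log (1 + ‖y‖ ^ 2) • W y)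
        + (eA * n) • (U n f y • W y)) := by
    intro y
    simp only [F_G, F_lam, smul_smul, ← add_smul, ← sub_smul]
    congr 1
    ring
  simp only [e1]
  rw [F_split (piM n) (eA - (1 + m)) (eA * n * e) (eA * n * m) (eA * n) _ _ _ _ i1 iD iL iU, hU]
  simp only [one_smul, h0, smul_zero, add_zero, zero_add]
  rw [smul_sub, smul_smul, smul_smul]

private theorem F_G_one (eA e m : ℝ) (D : E n) (f : Lp ℝ 2 (piM n)) (y : E n) (K0 L V : ℝ)
    (hK0 : 0 ≤ K0) (heA : |eA| ≤ K0)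
    (hL : |F_lam e m D y| ≤ L) (hV : |U n f y| ≤ V) :
    |F_G eA e m D f y - (eA - 1)| ≤ K0 * (n * L + n * V) + |m| := by
  have e1 : F_G eA e m D f y - (eA - 1) = eA * (n * F_lam e m D y + n * U n f y) - m := by
    unfold F_G; ring
  rw [e1]
  have h1 := abs_sub (eA * (n * F_lam e m D y + n * U n f y)) m
  have h2 : |n * F_lam e m D y + n * U n f y| ≤ n * L + n * V := by
    have := abs_add_le ((n : ℝ) * F_lam e m D y) (n * U n f y)
    rw [abs_mul, abs_mul, Nat.abs_cast] at this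
    have a := mul_le_mul_of_nonneg_left hL (Nat.cast_nonneg (α := ℝ) n)
    have b := mul_le_mul_of_nonneg_left hV (Nat.cast_nonneg (α := ℝ) n)
    linarith
  rw [abs_mul] at h1
  have := mul_le_mul heA h2 (abs_nonneg _) hK0
  linarith

private theorem F_exp_diff (N A t s : ℝ) (hN : 0 < N) (hN4 : N ≤ 4) (hA : A ≤ 2) (ht : t ≤ 2)
    (h : |A - t| ≤ s) : |Real.exp (N * A) - Real.exp (N * t)| ≤ N * Real.exp 8 * s := by
  have key : ∀ a b : ℝ, a ≤ 8 → b ≤ a → Real.exp a - Real.exp b ≤ Real.exp 8 * (a - b) := by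
    intro a b ha hab
    have h1 : Real.exp b = Real.exp a * Real.exp (b - a) := by rw [← Real.exp_add]; congr 1; ring
    have h2 : b - a + 1 ≤ Real.exp (b - a) := Real.add_one_le_exp _
    have h3 : Real.exp a ≤ Real.exp 8 := Real.exp_le_exp.2 ha
    have h4 : 0 < Real.exp a := Real.exp_pos a
    nlinarith [mul_le_mul_of_nonneg_left h2 h4.le]
  have hs : 0 ≤ s := (abs_nonneg _).trans h
  have h8 : 0 < Real.exp 8 := Real.exp_pos 8
  have hb : ∀ x : ℝ, x ≤ 2 → N * x ≤ 8 := by intro x hx; nlinarith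
  rcases le_total A t with hAt | hAt
  · have hle : N * A ≤ N * t := mul_le_mul_of_nonneg_left hAt hN.le
    have := key (N * t) (N * A) (hb t ht) hle
    rw [abs_sub_comm, abs_of_nonneg (by linarith [Real.exp_le_exp.2 hle])]
    have h5 : t - A ≤ s := by rw [abs_sub_comm] at h; exact (le_abs_self _).trans h
    nlinarith [mul_le_mul_of_nonneg_left h5 (by positivity : 0 ≤ N * Real.exp 8)]
  · have hle : N * t ≤ N * A := mul_le_mul_of_nonneg_left hAt hN.le
    have := key (N * A) (N * t) (hb A hA) hle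
    rw [abs_of_nonneg (by linarith [Real.exp_le_exp.2 hle])]
    have h5 : A - t ≤ s := (le_abs_self _).trans h
    nlinarith [mul_le_mul_of_nonneg_left h5 (by positivity : 0 ≤ N * Real.exp 8)]

end

section

variable {n : ℕ} {J : Type} [Fintype J] [DecidableEq J] {α : ℝ} (P : Pol n)

/-- The pointwise comparison and the constants. -/
private theorem F_main (hn : n = 3 ∨ n = 4) (hα : -1 < α) (d C1 τ : ℝ) (hd : 0 < d)
    (hC1 : 0 < C1) (hτ : 0 < τ) (hτ1 : τ ≤ 1) : ∃ ε0 B : ℝ, 0 < ε0 ∧ 0 < B ∧ ∀ ε, 0 < ε → ε < ε0 →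
      ∀ δ2 ≤ (1 : ℝ), ∀ q ∈ Qd (n := n) (J := J) d δ2 ε, ∀ x : XX n J α P, ‖x‖ ≤ C1 * ε → ∀ j,
        ∃ A : ℝ, |A - q.2.1 j| ≤ τ ∧ ∀ y,
          |FFX α P ε (d / 8) q x j y
            - F_G (Real.exp (n * A)) (epj α P ε q j) (q.2.2 j) (Dj α P q.1 j) (x.1 j) y|
            ≤ B * ε ^ 2 * (1 + ‖y‖ ^ 2) + n * Real.exp 8 * (τ * (C1 * ε)) := by
  have hN : (0 : ℝ) < n := by rcases hn with h | h <;> subst h <;> norm_num
  have hN4 : (n : ℝ) ≤ 4 := by rcases hn with h | h <;> subst h <;> norm_num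
  obtain ⟨C', hC', hscale⟩ := cfg_scale (J := J) α P d hd
  obtain ⟨CU, hCU, hU⟩ := U_bound hn
  obtain ⟨εa, C, hεa, hC, hratio⟩ := ratio_est (J := J) hn α P d τ hd hτ
  obtain ⟨εb, hεb, hball⟩ := phiX_ball (J := J) P hn hα d τ hd hτ
  set K0 := Real.exp 8 with hK0def
  have hK0 : 0 < K0 := Real.exp_pos 8
  set K := K0 + C * (1 + C' * (d / 8)) with hKdef
  have hK : 0 < K := by positivity
  set C2 := (CU + 1) * C1 with hC2def
  have hC2 : 0 < C2 := by positivity
  set M := 8 / d * C' with hMdef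
  have hM : 0 < M := by positivity
  set C3 := C' ^ 2 + 2 with hC3def
  have hC3 : 0 < C3 := by positivity
  set C4 := CU * C1 with hC4def
  have hC4 : 0 < C4 := by positivity
  set B := (K * (n : ℝ) ^ 2 * C2 ^ 2 + C + 2 * (n * C2 * C)) + K0 * (M ^ 2 + n * C3 * M + n * C4 * M)
    with hBdef
  have hBa : 0 < K * (n : ℝ) ^ 2 * C2 ^ 2 + C + 2 * (n * C2 * C) := by positivity
  have hBb : 0 < K0 * (M ^ 2 + n * C3 * M + n * C4 * M) := by positivity
  refine ⟨min εa (min εb (min 1 (1 / (n * C2)))), B, by positivity, by positivity, ?_⟩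
  intro ε hε hε0 δ2 hδ2 q hq x hx j
  have hεa' : ε < εa := lt_of_lt_of_le hε0 (min_le_left _ _)
  have hεb' : ε < εb := lt_of_lt_of_le hε0 ((min_le_right _ _).trans (min_le_left _ _))
  have hε1 : ε ≤ 1 :=
    (lt_of_lt_of_le hε0 ((min_le_right _ _).trans ((min_le_right _ _).trans (min_le_left _ _)))).le
  have hεC : ε < 1 / (n * C2) :=
    lt_of_lt_of_le hε0 ((min_le_right _ _).trans ((min_le_right _ _).trans (min_le_right _ _)))
  have hsmall : n * (C2 * ε) ≤ 1 := by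
    rw [lt_div_iff₀ (by positivity)] at hεC
    have : (n : ℝ) * (C2 * ε) = ε * (n * C2) := by ring
    rw [this]
    exact hεC.le
  obtain ⟨A, hA, hr⟩ := hratio ε hε hεa' δ2 hδ2 q hq j
  obtain ⟨hs1, hs2, hs3⟩ := hscale ε hε δ2 hδ2 q hq j
  have hej : 0 < epj α P ε q j := by unfold epj; positivity
  have ht : |q.2.1 j| ≤ 1 := (hq.2.2.1 j).trans hδ2
  have hm : |q.2.2 j| ≤ ε := hq.2.2.2 j
  have hA2 : A ≤ 2 := by
    have h1 := (abs_le.1 hA).2; have h2 := (abs_le.1 ht).2; linarith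
  have hxj : ‖x.1 j‖ ≤ C1 * ε := ((norm_le_pi_norm x.1 j).trans (norm_fst_le x)).trans hx
  refine ⟨A, hA, fun y => ?_⟩
  have heA : |Real.exp (n * A)| ≤ K0 := by
    rw [abs_of_pos (Real.exp_pos _)]
    refine Real.exp_le_exp.2 ?_
    have h1 : (n : ℝ) * A ≤ n * 2 := mul_le_mul_of_nonneg_left hA2 hN.le
    linarith only [h1, hN4]
  have hu : |U n (x.1 j) y| ≤ C4 * ε := by
    refine (hU (x.1 j) y).trans ((mul_le_mul_of_nonneg_left hxj hCU.le).trans (le_of_eq ?_))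
    rw [hC4def, mul_assoc]
  have hlamle : |F_lam (epj α P ε q j) (q.2.2 j) (Dj α P q.1 j) y| ≤ C3 * ε * ‖y‖ := by
    refine (F_lam_le _ _ _ y).trans (mul_le_mul_of_nonneg_right ?_ (norm_nonneg y))
    rw [abs_of_pos hej]
    have h1 : epj α P ε q j * ‖Dj α P q.1 j‖ ≤ (C' * ε) * C' :=
      mul_le_mul hs2 hs3 (norm_nonneg _) (by positivity)
    rw [hC3def]
    have h2 : (C' ^ 2 + 2) * ε = (C' * ε) * C' + 2 * ε := by ring
    rw [h2]
    exact add_le_add h1 (mul_le_mul_of_nonneg_left hm zero_le_two)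
  by_cases hy : ‖epj α P ε q j • y‖ < d / 8
  · -- on the ball
    obtain ⟨r1, r2⟩ := hr y hy
    have hb := hball ε hε hεb' δ2 hδ2 q hq j x y hy
    have hFF : FFX α P ε (d / 8) q x j y
        = Real.exp (n * hj α P ε q j (q.1 j + epj α P ε q j • y))
          * Real.exp (n * phiX α P ε q x (q.1 j + epj α P ε q j • y)) - (1 + q.2.2 j) := by
      unfold FFX FF
      rw [Set.indicator_of_mem (by exact hy), ← Real.exp_add]
      congr 2
      unfold phiX
      ring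
    have hery : ε * ‖y‖ ≤ C' * (d / 8) := by
      rw [norm_smul, Real.norm_of_nonneg hej.le] at hy
      have h1 : ε ≤ C' * epj α P ε q j := by
        rw [div_le_iff₀ hC'] at hs1; linarith
      have h2 : ε * ‖y‖ ≤ C' * epj α P ε q j * ‖y‖ := mul_le_mul_of_nonneg_right h1 (norm_nonneg y)
      refine h2.trans ?_
      rw [mul_assoc]
      exact mul_le_mul_of_nonneg_left hy.le hC'.le
    have he1 : |Real.exp (n * hj α P ε q j (q.1 j + epj α P ε q j • y))| ≤ K := by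
      have h1 := abs_sub_abs_le_abs_sub
        (Real.exp (n * hj α P ε q j (q.1 j + epj α P ε q j • y))) (Real.exp (n * A))
      have h2 : C * ε * (1 + ‖y‖) ≤ C * (1 + C' * (d / 8)) := by
        have : C * ε * (1 + ‖y‖) = C * (ε + ε * ‖y‖) := by ring
        rw [this]
        exact mul_le_mul_of_nonneg_left (by linarith) hC.le
      rw [hKdef]; linarith
    have hph : |phiX α P ε q x (q.1 j + epj α P ε q j • y)| ≤ C2 * ε := by
      have h1 := abs_sub_abs_le_abs_sub (phiX α P ε q x (q.1 j + epj α P ε q j • y))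
        (U n (x.1 j) y)
      have h2 : τ * ‖x‖ ≤ 1 * (C1 * ε) := mul_le_mul hτ1 hx (norm_nonneg _) zero_le_one
      have h3 : C2 * ε = C4 * ε + 1 * (C1 * ε) := by rw [hC2def, hC4def]; ring
      rw [h3]
      have h4 := hb.trans h2
      linarith only [h1, h4, hu]
    have hb' : |phiX α P ε q x (q.1 j + epj α P ε q j • y) - U n (x.1 j) y| ≤ τ * (C1 * ε) :=
      hb.trans (mul_le_mul_of_nonneg_left hx hτ.le)
    have key := F_alg n (Real.exp (n * hj α P ε q j (q.1 j + epj α P ε q j • y)))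
      (Real.exp (n * A)) (F_lam (epj α P ε q j) (q.2.2 j) (Dj α P q.1 j) y)
      (phiX α P ε q x (q.1 j + epj α P ε q j • y)) (U n (x.1 j) y) C ε ‖y‖ K0 K τ (C1 * ε) C2
      hN hC hε (norm_nonneg y) hK0 hK hC2 r1 r2 he1 heA hph hb' hsmall
    have e : FFX α P ε (d / 8) q x j y
            - F_G (Real.exp (n * A)) (epj α P ε q j) (q.2.2 j) (Dj α P q.1 j) (x.1 j) y
        = Real.exp (n * hj α P ε q j (q.1 j + epj α P ε q j • y))
          * Real.exp (n * phiX α P ε q x (q.1 j + epj α P ε q j • y))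
          - Real.exp (n * A) * (1 + n * F_lam (epj α P ε q j) (q.2.2 j) (Dj α P q.1 j) y
            + n * U n (x.1 j) y) := by
      rw [hFF]; unfold F_G; ring
    rw [e]
    refine key.trans ?_
    have : 0 ≤ ε ^ 2 * (1 + ‖y‖ ^ 2) := by positivity
    have h9 := mul_nonneg hBb.le this
    have e9 : B * ε ^ 2 * (1 + ‖y‖ ^ 2)
        = (K * (n : ℝ) ^ 2 * C2 ^ 2 + C + 2 * (n * C2 * C)) * (ε ^ 2 * (1 + ‖y‖ ^ 2))
          + K0 * (M ^ 2 + n * C3 * M + n * C4 * M) * (ε ^ 2 * (1 + ‖y‖ ^ 2)) := by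
      rw [hBdef]; ring
    rw [e9]
    linarith only [h9]
  · have hFF : FFX α P ε (d / 8) q x j y = - (1 + q.2.2 j) := by
      unfold FFX FF
      rw [Set.indicator_of_notMem (by exact hy)]
      ring
    have hb : 1 ≤ M * ε * ‖y‖ := by
      rw [not_lt, norm_smul, Real.norm_of_nonneg hej.le] at hy
      have h1 : d / 8 ≤ C' * ε * ‖y‖ := hy.trans (mul_le_mul_of_nonneg_right hs2 (norm_nonneg y))
      rw [hMdef]
      have h2 : 8 / d * (d / 8) = 1 := by field_simp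
      calc (1 : ℝ) = 8 / d * (d / 8) := h2.symm
        _ ≤ 8 / d * (C' * ε * ‖y‖) := mul_le_mul_of_nonneg_left h1 (by positivity)
        _ = _ := by ring
    have key := F_off n (Real.exp (n * A)) (F_lam (epj α P ε q j) (q.2.2 j) (Dj α P q.1 j) y)
      (U n (x.1 j) y) ε ‖y‖ K0 M C3 C4 hN hε (norm_nonneg y) hK0 hM hC3 hC4 heA hlamle hu hb
    have e : FFX α P ε (d / 8) q x j y
            - F_G (Real.exp (n * A)) (epj α P ε q j) (q.2.2 j) (Dj α P q.1 j) (x.1 j) y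
        = - (Real.exp (n * A) * (1 + n * F_lam (epj α P ε q j) (q.2.2 j) (Dj α P q.1 j) y
            + n * U n (x.1 j) y)) := by
      rw [hFF]; unfold F_G; ring
    rw [e, abs_neg]
    refine key.trans ?_
    have : 0 ≤ ε ^ 2 * (1 + ‖y‖ ^ 2) := by positivity
    have h9 := mul_nonneg hBa.le this
    have h10 : 0 ≤ n * K0 * (τ * (C1 * ε)) := by positivity
    have e9 : B * ε ^ 2 * (1 + ‖y‖ ^ 2)
        = (K * (n : ℝ) ^ 2 * C2 ^ 2 + C + 2 * (n * C2 * C)) * (ε ^ 2 * (1 + ‖y‖ ^ 2))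
          + K0 * (M ^ 2 + n * C3 * M + n * C4 * M) * (ε ^ 2 * (1 + ‖y‖ ^ 2)) := by
      rw [hBdef]; ring
    rw [e9]
    linarith only [h9, h10]

theorem reduced (hn : n = 3 ∨ n = 4) (hα : -1 < α) (d C1 σ : ℝ) (hd : 0 < d) (hC1 : 0 < C1)
    (hσ : 0 < σ) : ∃ ε0 : ℝ, 0 < ε0 ∧ ∀ ε, 0 < ε → ε < ε0 → ∀ δ2 ≤ (1 : ℝ),
      ∀ q ∈ Qd (n := n) (J := J) d δ2 ε, ∀ x : XX n J α P, ‖x‖ ≤ C1 * ε → ∀ j,
        |redA α P ε (d / 8) q x j - (Real.exp (n * q.2.1 j) - 1)| ≤ σ ∧
        |redB α P ε (d / 8) q x j - Real.exp (n * q.2.1 j) * q.2.2 j| ≤ σ * ε ∧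
        ‖redC α P ε (d / 8) q x j - (Real.exp (n * q.2.1 j) * epj α P ε q j) • Dj α P q.1 j‖
          ≤ σ * ε := by
  have hpr : IsProbabilityMeasure (piM n) := piM_prob hn
  have hN : (0 : ℝ) < n := by rcases hn with h | h <;> subst h <;> norm_num
  have hN4 : (n : ℝ) ≤ 4 := by rcases hn with h | h <;> subst h <;> norm_num
  obtain ⟨C', hC', hscale⟩ := cfg_scale (J := J) α P d hd
  obtain ⟨CU, hCU, hU⟩ := U_bound hn
  set K0 := Real.exp 8 with hK0def
  have hK0 : 0 < K0 := Real.exp_pos 8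
  set B5 := n * K0 * C1 + n * K0 * (1 + C' ^ 2) with hB5
  have hB5p : 0 < B5 := by positivity
  set τ := min 1 (σ / (2 * B5)) with hτdef
  have hτ : 0 < τ := by positivity
  have hτ1 : τ ≤ 1 := min_le_left _ _
  have hτ2 : B5 * τ ≤ σ / 2 := by
    have : τ ≤ σ / (2 * B5) := min_le_right _ _
    calc B5 * τ ≤ B5 * (σ / (2 * B5)) := mul_le_mul_of_nonneg_left this hB5p.le
      _ = σ / 2 := by field_simp
  obtain ⟨εa, B, hεa, hB, hmain⟩ := F_main (J := J) P hn hα d C1 τ hd hC1 hτ hτ1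
  set S := 1 + ∫ y : E n, ‖y‖ ^ 2 ∂(piM n) with hS
  have hSp : 0 < S := by
    have : 0 ≤ ∫ y : E n, ‖y‖ ^ 2 ∂(piM n) := integral_nonneg fun y => by positivity
    rw [hS]; linarith
  set T := K0 * (n * (C' ^ 2 + 2)) with hT
  have hTp : 0 < T := by positivity
  set T2 := K0 * (n * (CU * C1)) + 1 with hT2
  have hT2p : 0 < T2 := by positivity
  refine ⟨min εa (min 1 (min (σ / (4 * (B * S))) (σ / (4 * (T * S + T2))))), by positivity, ?_⟩
  intro ε hε hε0 δ2 hδ2 q hq x hx j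
  have hεa' : ε < εa := lt_of_lt_of_le hε0 (min_le_left _ _)
  have hε1 : ε ≤ 1 :=
    (lt_of_lt_of_le hε0 ((min_le_right _ _).trans (min_le_left _ _))).le
  have hεb : B * S * ε ≤ σ / 4 := by
    have : ε < σ / (4 * (B * S)) := lt_of_lt_of_le hε0
      ((min_le_right _ _).trans ((min_le_right _ _).trans (min_le_left _ _)))
    calc B * S * ε ≤ B * S * (σ / (4 * (B * S))) :=
          mul_le_mul_of_nonneg_left this.le (by positivity)
      _ = σ / 4 := by field_simp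
  have hεc : (T * S + T2) * ε ≤ σ / 4 := by
    have : ε < σ / (4 * (T * S + T2)) := lt_of_lt_of_le hε0
      ((min_le_right _ _).trans ((min_le_right _ _).trans (min_le_right _ _)))
    calc (T * S + T2) * ε ≤ (T * S + T2) * (σ / (4 * (T * S + T2))) :=
          mul_le_mul_of_nonneg_left this.le (by positivity)
      _ = σ / 4 := by field_simp
  obtain ⟨A, hA, hpt⟩ := hmain ε hε hεa' δ2 hδ2 q hq x hx j
  obtain ⟨hs1, hs2, hs3⟩ := hscale ε hε δ2 hδ2 q hq j
  have hej : 0 < epj α P ε q j := by unfold epj; positivity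
  have ht : |q.2.1 j| ≤ 1 := (hq.2.2.1 j).trans hδ2
  have hm : |q.2.2 j| ≤ ε := hq.2.2.2 j
  have ht2 : q.2.1 j ≤ 2 := (abs_le.1 ht).2.trans (by norm_num)
  have hA2 : A ≤ 2 := by
    have h1 := (abs_le.1 hA).2; have h2 := (abs_le.1 ht).2; linarith
  have hxj : ‖x.1 j‖ ≤ C1 * ε := ((norm_le_pi_norm x.1 j).trans (norm_fst_le x)).trans hx
  have heA : |Real.exp (n * A)| ≤ K0 := by
    rw [abs_of_pos (Real.exp_pos _)]
    refine Real.exp_le_exp.2 ?_
    have h1 : (n : ℝ) * A ≤ n * 2 := mul_le_mul_of_nonneg_left hA2 hN.le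
    linarith only [h1, hN4]
  have hdiff : |Real.exp (n * A) - Real.exp (n * q.2.1 j)| ≤ n * K0 * τ :=
    F_exp_diff n A (q.2.1 j) τ hN hN4 hA2 ht2 hA
  have hFi : Integrable (FFX α P ε (d / 8) q x j) (piM n) :=
    (FFX_memLp P hn hα d δ2 ε hd hε q hq x j).integrable one_le_two
  generalize hGdef : F_G (Real.exp (n * A)) (epj α P ε q j) (q.2.2 j) (Dj α P q.1 j) (x.1 j) = G
    at hpt
  have hGi : Integrable G (piM n) := by rw [← hGdef]; exact F_G_int hn _ _ _ _ _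
  -- the common bound
  have hbd : B * ε ^ 2 * (1 + ∫ y : E n, ‖y‖ ^ 2 ∂(piM n)) + n * K0 * (τ * (C1 * ε))
      ≤ σ / 4 * ε + n * K0 * C1 * τ * ε := by
    have h1 : B * ε ^ 2 * S = (B * S * ε) * ε := by ring
    have h2 : (B * S * ε) * ε ≤ σ / 4 * ε := mul_le_mul_of_nonneg_right hεb hε.le
    have h3 : n * K0 * (τ * (C1 * ε)) = n * K0 * C1 * τ * ε := by ring
    rw [← hS, h1, h3]
    linarith only [h2]
  have hBτ : n * K0 * C1 * τ + n * K0 * (1 + C' ^ 2) * τ ≤ σ / 2 := by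
    have : B5 * τ = n * K0 * C1 * τ + n * K0 * (1 + C' ^ 2) * τ := by rw [hB5]; ring
    linarith only [this, hτ2]
  have hp1 : 0 ≤ n * K0 * τ * C' ^ 2 := by positivity
  have hp2 : 0 ≤ n * K0 * τ := by positivity
  have hp3 : 0 ≤ n * K0 * C1 * τ := by positivity
  refine ⟨?_, ?_, ?_⟩
  · -- A
    obtain ⟨-, -, h3⟩ := F_int (piM n) (FFX α P ε (d / 8) q x j) G (fun _ => (1 : ℝ))
      continuous_const (fun y => by simp) hFi hGi (int_sq hn) _ _ hpt
    simp only [smul_eq_mul, mul_one] at h3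
    have h4 : |∫ y, G y ∂(piM n) - (Real.exp (n * A) - 1)| ≤ (T * ε) * S + T2 * ε := by
      have hc : Integrable (fun _ : E n => Real.exp (n * A) - 1) (piM n) := integrable_const _
      have hpt2 : ∀ y, |G y - (Real.exp (n * A) - 1)| ≤ (T * ε) * (1 + ‖y‖ ^ 2) + T2 * ε := by
        intro y
        rw [← hGdef]
        have hlam : |F_lam (epj α P ε q j) (q.2.2 j) (Dj α P q.1 j) y|
            ≤ (C' ^ 2 + 2) * ε * (1 + ‖y‖ ^ 2) := by
          have h5 : |epj α P ε q j| * ‖Dj α P q.1 j‖ + 2 * |q.2.2 j| ≤ (C' ^ 2 + 2) * ε := by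
            rw [abs_of_pos hej]
            have h1 : epj α P ε q j * ‖Dj α P q.1 j‖ ≤ (C' * ε) * C' :=
              mul_le_mul hs2 hs3 (norm_nonneg _) (by positivity)
            have h2 : (C' ^ 2 + 2) * ε = (C' * ε) * C' + 2 * ε := by ring
            rw [h2]
            exact add_le_add h1 (mul_le_mul_of_nonneg_left hm zero_le_two)
          refine (F_lam_le _ _ _ y).trans (mul_le_mul h5 ?_ (norm_nonneg y) (by positivity))
          nlinarith only [sq_nonneg (‖y‖ - 1)]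
        have hu : |U n (x.1 j) y| ≤ CU * (C1 * ε) :=
          (hU (x.1 j) y).trans (mul_le_mul_of_nonneg_left hxj hCU.le)
        refine (F_G_one _ _ _ _ _ y K0 _ _ hK0.le heA hlam hu).trans ?_
        have h6 : K0 * (n * ((C' ^ 2 + 2) * ε * (1 + ‖y‖ ^ 2)) + n * (CU * (C1 * ε))) + ε
            = (T * ε) * (1 + ‖y‖ ^ 2) + T2 * ε := by rw [hT, hT2]; ring
        rw [← h6]
        exact add_le_add_right hm _
      have := (F_int (piM n) G (fun _ => Real.exp (n * A) - 1) (fun _ => (1 : ℝ))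
        continuous_const (fun y => by simp) hGi hc (int_sq hn) _ _ hpt2).2.2
      simpa using this
    have h5 : redA α P ε (d / 8) q x j - (Real.exp (n * q.2.1 j) - 1)
        = (∫ y, FFX α P ε (d / 8) q x j y ∂(piM n) - ∫ y, G y ∂(piM n))
          + (∫ y, G y ∂(piM n) - (Real.exp (n * A) - 1))
          + (Real.exp (n * A) - Real.exp (n * q.2.1 j)) := by
      unfold redA; ring
    rw [h5]
    have t1 := abs_add_le ((∫ y, FFX α P ε (d / 8) q x j y ∂(piM n) - ∫ y, G y ∂(piM n))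
          + (∫ y, G y ∂(piM n) - (Real.exp (n * A) - 1))) (Real.exp (n * A) - Real.exp (n * q.2.1 j))
    have t2 := abs_add_le (∫ y, FFX α P ε (d / 8) q x j y ∂(piM n) - ∫ y, G y ∂(piM n))
          (∫ y, G y ∂(piM n) - (Real.exp (n * A) - 1))
    rw [Real.norm_eq_abs] at h3
    have h6 := h3.trans hbd
    have h7 : (T * ε) * S + T2 * ε = (T * S + T2) * ε := by ring
    rw [h7] at h4
    have h8 : σ / 4 * ε ≤ σ / 4 := mul_le_of_le_one_right (by positivity) hε1
    have h9 : n * K0 * C1 * τ * ε ≤ n * K0 * C1 * τ := mul_le_of_le_one_right hp3 hε1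
    have h10 : n * K0 * (1 + C' ^ 2) * τ = n * K0 * τ + n * K0 * τ * C' ^ 2 := by ring
    rw [h10] at hBτ
    linarith only [t1, t2, h6, h4, hεc, hdiff, h8, h9, hBτ, hp1]
  · -- B
    obtain ⟨-, -, h3⟩ := F_int (piM n) (FFX α P ε (d / 8) q x j) G (Z0 (n := n))
      continuous_Z0 F_Z0_le hFi hGi (int_sq hn) _ _ hpt
    have hGW : ∫ y, G y • Z0 y ∂(piM n) = Real.exp (n * A) * q.2.2 j := by
      rw [← hGdef, F_G_W hn _ continuous_Z0 F_Z0_le _ _ _ _ _ (int_Z0 hn)
        (by simpa only [smul_eq_mul] using U_Z0 hn (x.1 j))]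
      simp only [smul_eq_mul]
      rw [int_lin_Z0 hn]
      have h4 := int_ellInf_Z0 hn
      simp only [ellInf] at h4
      rw [h4]
      field_simp
      ring
    have h5 : redB α P ε (d / 8) q x j - Real.exp (n * q.2.1 j) * q.2.2 j
        = (∫ y, FFX α P ε (d / 8) q x j y • Z0 y ∂(piM n) - ∫ y, G y • Z0 y ∂(piM n))
          + (Real.exp (n * A) - Real.exp (n * q.2.1 j)) * q.2.2 j := by
      rw [hGW]; unfold redB; simp only [smul_eq_mul]; ring
    rw [h5]
    have t1 := abs_add_le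
      (∫ y, FFX α P ε (d / 8) q x j y • Z0 y ∂(piM n) - ∫ y, G y • Z0 y ∂(piM n))
      ((Real.exp (n * A) - Real.exp (n * q.2.1 j)) * q.2.2 j)
    rw [Real.norm_eq_abs] at h3
    have h6 := h3.trans hbd
    have h7 : |(Real.exp (n * A) - Real.exp (n * q.2.1 j)) * q.2.2 j| ≤ n * K0 * τ * ε := by
      rw [abs_mul]
      exact mul_le_mul hdiff hm (abs_nonneg _) hp2
    have h10 : n * K0 * (1 + C' ^ 2) * τ = n * K0 * τ + n * K0 * τ * C' ^ 2 := by ring
    rw [h10] at hBτ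
    have h11 := mul_le_mul_of_nonneg_right hBτ hε.le
    have h12 := mul_nonneg hp1 hε.le
    have h13 : 0 ≤ σ / 4 * ε := by positivity
    linarith only [t1, h6, h7, h11, h12, h13]
  · -- C
    obtain ⟨-, -, h3⟩ := F_int (piM n) (FFX α P ε (d / 8) q x j) G (Zv (n := n))
      continuous_Zv F_Zv_le hFi hGi (int_sq hn) _ _ hpt
    have hGW : ∫ y, G y • Zv y ∂(piM n)
        = (Real.exp (n * A) * epj α P ε q j) • Dj α P q.1 j := by
      rw [← hGdef, F_G_W hn _ continuous_Zv F_Zv_le _ _ _ _ _ (int_Zv hn) (U_Zv hn (x.1 j))]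
      rw [int_lin_Zv hn]
      have h4 := int_ellInf_Zv hn
      simp only [ellInf] at h4
      rw [h4, smul_zero, sub_zero, smul_smul, smul_smul]
      congr 1
      field_simp
    have h5 : redC α P ε (d / 8) q x j
          - (Real.exp (n * q.2.1 j) * epj α P ε q j) • Dj α P q.1 j
        = (∫ y, FFX α P ε (d / 8) q x j y • Zv y ∂(piM n) - ∫ y, G y • Zv y ∂(piM n))
          + ((Real.exp (n * A) - Real.exp (n * q.2.1 j)) * epj α P ε q j) • Dj α P q.1 j := by
      rw [hGW]; unfold redC; rw [sub_mul, sub_smul]; abel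
    rw [h5]
    have t1 := norm_add_le
      (∫ y, FFX α P ε (d / 8) q x j y • Zv y ∂(piM n) - ∫ y, G y • Zv y ∂(piM n))
      (((Real.exp (n * A) - Real.exp (n * q.2.1 j)) * epj α P ε q j) • Dj α P q.1 j)
    have h6 := h3.trans hbd
    have h7 : ‖((Real.exp (n * A) - Real.exp (n * q.2.1 j)) * epj α P ε q j) • Dj α P q.1 j‖
        ≤ n * K0 * τ * C' ^ 2 * ε := by
      rw [norm_smul, norm_mul, Real.norm_eq_abs, Real.norm_eq_abs, abs_of_pos hej]
      have h8 : |Real.exp (n * A) - Real.exp (n * q.2.1 j)| * epj α P ε q j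
          ≤ n * K0 * τ * (C' * ε) := mul_le_mul hdiff hs2 hej.le hp2
      have h9 := mul_le_mul h8 hs3 (norm_nonneg _) (by positivity : 0 ≤ n * K0 * τ * (C' * ε))
      refine h9.trans (le_of_eq (by ring))
    have h10 : n * K0 * (1 + C' ^ 2) * τ = n * K0 * τ + n * K0 * τ * C' ^ 2 := by ring
    rw [h10] at hBτ
    have h11 := mul_le_mul_of_nonneg_right hBτ hε.le
    have h12 := mul_nonneg hp2 hε.le
    have h13 : 0 ≤ σ / 4 * ε := by positivity
    linarith only [t1, h6, h7, h11, h12, h13]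

end

end Pool.Agent.QGlue
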