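import Pool.Agent.QGlue.DefsE
import Pool.Agent.QGlue.D1

/-! # Decomposition of the density -/

set_option autoImplicit false

namespace Pool.Agent.QGlue

open MeasureTheory Real Set Filter Topology

/-! ### Null sets -/

private theorem G1_cN_pos (n : ℕ) : 0 < cN n := by
  unfold cN
  split_ifs <;> positivity

private theorem G1_bub_pos (n : ℕ) (y : E n) : 0 < bub n y := by
  unfold bub
  have := G1_cN_pos n
  positivity

private theorem G1_bub_meas (n : ℕ) : Measurable (bub n) := by
  unfold bub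
  fun_prop

private theorem G1_ae_piM {n : ℕ} {p : E n → Prop} (h : ∀ᵐ y ∂(piM n), p y) : ∀ᵐ y : E n, p y := by
  have hac : (volume : Measure (E n)) ≪ piM n := by
    refine withDensity_absolutelyContinuous' ?_ ?_
    · exact (G1_bub_meas n).ennreal_ofReal.aemeasurable
    · exact Filter.Eventually.of_forall (fun y => by
        simpa using G1_bub_pos n y)
  exact hac.ae_le h

private theorem G1_ae_affine {n : ℕ} {p : E n → Prop} (h : ∀ᵐ y : E n, p y) (c : ℝ) (hc : c ≠ 0)
    (ξ : E n) : ∀ᵐ z : E n, p (c • (z - ξ)) := by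
  have h1 : ∀ᵐ z : E n, p (c • z) := by
    rw [ae_iff] at h ⊢
    have := Measure.addHaar_preimage_smul (volume : Measure (E n)) hc {y | ¬ p y}
    rw [h, mul_zero] at this
    exact this
  have h2 : MeasurePreserving (fun z : E n => z - ξ) volume volume :=
    measurePreserving_sub_right volume ξ
  exact h2.quasiMeasurePreserving.ae h1

private theorem G1_eval_cont {n : ℕ} (P : Pol n) : Continuous P.eval := by
  unfold Pol.eval
  fun_prop

private theorem G1_ae_mu0 {n : ℕ} (hn : 0 < n) (α : ℝ) (P : Pol n) {p : E n → Prop}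
    (h : ∀ᵐ y ∂(mu0 n α P), p y) : ∀ᵐ y : E n, p y := by
  have : Nontrivial (E n) := by
    have : Nonempty (Fin n) := ⟨⟨0, hn⟩⟩
    infer_instance
  have hne : ∀ᵐ y : E n, y ≠ 0 := by
    have h0 : (volume : Measure (E n)) {0} = 0 := measure_singleton 0
    rw [ae_iff]
    simpa using h0
  have hac : (volume : Measure (E n)) ≪ mu0 n α P := by
    refine withDensity_absolutelyContinuous' ?_ ?_
    · have h1 : Measurable (fun x : E n => ‖x‖ ^ (n * α) * Real.exp (n * P.eval x)) := by
        have := (G1_eval_cont P).measurable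
        fun_prop
      exact h1.ennreal_ofReal.aemeasurable
    · filter_upwards [hne] with y hy
      have : 0 < ‖y‖ := norm_pos_iff.2 hy
      have : 0 < ‖y‖ ^ (n * α) * Real.exp (n * P.eval y) := by positivity
      simpa using this
  exact hac.ae_le h

section

variable {n : ℕ} {J : Type} [Fintype J] [DecidableEq J] {α : ℝ} (P : Pol n)

private theorem G1_epj_pos (ε : ℝ) (hε : 0 < ε) (q : Par n J) (j : J) : 0 < epj α P ε q j := by
  unfold epj
  positivity

theorem density_split (hn : n = 3 ∨ n = 4) (hα : -1 < α) (d δ2 ε : ℝ) (hd : 0 < d) (hε : 0 < ε)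
    (hε1 : ε ≤ 1 / 2) (q : Par n J) (hq : q ∈ Qd d δ2 ε) (x : XX n J α P)
    (h1 : ∀ j, (x.1 j : E n → ℝ) =ᵐ[piM n] FFX α P ε (d / 8) q x j)
    (h2 : (x.2 : E n → ℝ) =ᵐ[mu0 n α P] GGX α P ε (d / 8) q x) :
    ∀ᵐ z : E n, ‖z‖ ^ (n * α) *
        Real.exp (n * (Wf α P ε q z + P.eval z + c0 n ε + phiX α P ε q x z))
      = (∑ j, 2 * gam n * ((epj α P ε q j)⁻¹ ^ n * bub n ((epj α P ε q j)⁻¹ • (z - q.1 j)))
          * (1 + q.2.2 j + x.1 j ((epj α P ε q j)⁻¹ • (z - q.1 j))))
        + ε * x.2 z * (‖z‖ ^ (n * α) * Real.exp (n * P.eval z)) := by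
  have hn0 : 0 < n := by rcases hn with h | h <;> omega
  have : Nontrivial (E n) := by
    have : Nonempty (Fin n) := ⟨⟨0, hn0⟩⟩
    infer_instance
  have hne : ∀ᵐ y : E n, y ≠ 0 := by
    have h0 : (volume : Measure (E n)) {0} = 0 := measure_singleton 0
    rw [ae_iff]
    simpa using h0
  have h1' : ∀ᵐ z : E n, ∀ j, x.1 j ((epj α P ε q j)⁻¹ • (z - q.1 j)) =
      FFX α P ε (d / 8) q x j ((epj α P ε q j)⁻¹ • (z - q.1 j)) := by
    rw [ae_all_iff]
    intro j
    exact G1_ae_affine (G1_ae_piM (h1 j)) _ (inv_ne_zero (G1_epj_pos P ε hε q j).ne') _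
  have h2' : ∀ᵐ z : E n, x.2 z = GGX α P ε (d / 8) q x z := G1_ae_mu0 hn0 α P h2
  filter_upwards [hne, h1', h2'] with z hz hz1 hz2
  have hback : ∀ j, q.1 j + epj α P ε q j • ((epj α P ε q j)⁻¹ • (z - q.1 j)) = z := by
    intro j
    rw [smul_smul, mul_inv_cancel₀ (G1_epj_pos P ε hε q j).ne', one_smul]
    abel
  have hnorm : ∀ j, epj α P ε q j • ((epj α P ε q j)⁻¹ • (z - q.1 j)) = z - q.1 j := by
    intro j
    rw [smul_smul, mul_inv_cancel₀ (G1_epj_pos P ε hε q j).ne', one_smul]
  have hfar : ∀ j, d / 8 ≤ ‖z - q.1 j‖ →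
      1 + q.2.2 j + x.1 j ((epj α P ε q j)⁻¹ • (z - q.1 j)) = 0 := by
    intro j hj
    rw [hz1 j]
    unfold FFX FF
    rw [Set.indicator_of_notMem]
    · ring
    · simp only [Set.mem_ofPred_eq, hnorm j, not_lt]
      exact hj
  by_cases hcase : ∃ j, ‖z - q.1 j‖ < d / 8
  · obtain ⟨j, hj⟩ := hcase
    have hgeom := cfg_geom d δ2 ε q hq j z hj
    have hnear : 1 + q.2.2 j + x.1 j ((epj α P ε q j)⁻¹ • (z - q.1 j)) =
        Real.exp (n * (Pool.Agent.QGlue.hj α P ε q j z + phiX α P ε q x z)) := by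
      rw [hz1 j]
      unfold FFX FF
      rw [Set.indicator_of_mem]
      · rw [hback j]
        unfold phiX
        ring
      · simp only [Set.mem_ofPred_eq, hnorm j]
        exact hj
    have hG : x.2 z = 0 := by
      rw [hz2]
      unfold GGX GG
      rw [Set.indicator_of_notMem, mul_zero]
      intro hz'
      exact absurd (hz' j) (not_le.2 hj)
    rw [Finset.sum_eq_single j, hnear, hG]
    · have hid := cfg_id α P hn ε hε q j z hz
      rw [mul_zero, zero_mul, add_zero,
        show (n : ℝ) * (Pool.Agent.QGlue.hj α P ε q j z + phiX α P ε q x z) =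
          n * Pool.Agent.QGlue.hj α P ε q j z + n * phiX α P ε q x z by ring, Real.exp_add,
        ← mul_assoc, hid,
        show (n : ℝ) * (Wf α P ε q z + P.eval z + c0 n ε + phiX α P ε q x z) =
          n * (Wf α P ε q z + P.eval z + c0 n ε) + n * phiX α P ε q x z by ring, Real.exp_add,
        mul_assoc]
    · intro i _ hij
      rw [hfar i, mul_zero]
      have := hgeom.2.2 i hij
      linarith
    · intro h
      exact absurd (Finset.mem_univ j) h
  · push Not at hcase
    have hG : x.2 z = (1 / ε) * Real.exp (n * (Wf α P ε q z + c0 n ε + phiX α P ε q x z)) := by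
      rw [hz2]
      unfold GGX GG
      rw [Set.indicator_of_mem]
      · rfl
      · exact hcase
    rw [Finset.sum_eq_zero, zero_add, hG]
    · rw [show (n : ℝ) * (Wf α P ε q z + P.eval z + c0 n ε + phiX α P ε q x z) =
          n * (Wf α P ε q z + c0 n ε + phiX α P ε q x z) + n * P.eval z by ring, Real.exp_add]
      field_simp
    · intro i _
      rw [hfar i (hcase i), mul_zero]

end

end Pool.Agent.QGlue
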