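import Pool.Agent.QGlue.DefsE
import Pool.Agent.QGlue.A1
import Pool.Agent.QGlue.A4
import Pool.Agent.QGlue.B
import Pool.Agent.QGlue.C
import Pool.Agent.QGlue.D2
import Pool.Agent.QGlue.E0
import Pool.Agent.QGlue.E1
import Pool.Agent.QGlue.E2
import Pool.Agent.QGlue.G1

/-!
# Zeros of the reduced functions give solutions (package QG-G2 of MP_77c265_an)
-/

set_option autoImplicit false

namespace Pool.Agent.QGlue

open MeasureTheory Real Set Filter Topology

private theorem G2_gam_pos {n : ℕ} : 0 < gam n := by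
  unfold gam; split_ifs <;> positivity

/-- The bubble with the relative density `1 + m + f`. -/
private noncomputable def G2_T {n : ℕ} (ξ : E n) (s m : ℝ) (f : E n → ℝ) (z : E n) : ℝ :=
  2 * gam n * (s⁻¹ ^ n * bub n (s⁻¹ • (z - ξ))) * (1 + m + f (s⁻¹ • (z - ξ)))

private theorem G2_transport {n : ℕ} (hn : n = 3 ∨ n = 4) (ξ : E n) (s m : ℝ) (hs : 0 < s)
    (f : E n → ℝ) (G : E n → ℝ) :
    ∫ z, G z * G2_T ξ s m f z = ∫ y, G (ξ + s • y) * (2 * gam n * (1 + m + f y)) ∂(piM n) ∧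
    (Integrable (fun z => G z * G2_T ξ s m f z) ↔
      Integrable (fun y => G (ξ + s • y) * (2 * gam n * (1 + m + f y))) (piM n)) := by
  have h := bub_transport hn ξ s hs (fun z => G z * (2 * gam n * (1 + m + f (s⁻¹ • (z - ξ)))))
  have e1 : (fun z => G z * G2_T ξ s m f z) = fun z => G z * (2 * gam n * (1 + m + f (s⁻¹ • (z - ξ))))
      * (s⁻¹ ^ n * bub n (s⁻¹ • (z - ξ))) := by
    funext z; unfold G2_T; ring
  have e2 : (fun y => G (ξ + s • y) * (2 * gam n * (1 + m + f (s⁻¹ • (ξ + s • y - ξ)))))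
      = fun y => G (ξ + s • y) * (2 * gam n * (1 + m + f y)) := by
    funext y
    have : s⁻¹ • (ξ + s • y - ξ) = y := by
      rw [add_sub_cancel_left, smul_smul, inv_mul_cancel₀ hs.ne', one_smul]
    rw [this]
  simp only [e2] at h
  rw [e1]
  exact h

private theorem G2_pos {n : ℕ} (hn : n = 3 ∨ n = 4) : 0 < n := by omega

private theorem G2_mem {n : ℕ} (f : Lp ℝ 2 (piM n)) : MemLp (fun y => f y) 2 (piM n) := Lp.memLp f

private theorem G2_int {n : ℕ} (hn : n = 3 ∨ n = 4) (f : Lp ℝ 2 (piM n)) :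
    Integrable (fun y => f y) (piM n) := by
  have := piM_prob hn
  exact (G2_mem f).integrable (by norm_num)

/-- `‖ξ + s y‖` is in `L²`. -/
private theorem G2_norm_mem {n : ℕ} (hn : n = 3 ∨ n = 4) (ξ : E n) (s : ℝ) :
    MemLp (fun y : E n => 1 + ‖ξ + s • y‖) 2 (piM n) := by
  have := piM_prob hn
  have h1 : MemLp (fun y : E n => ‖y‖) 2 (piM n) := by
    rw [memLp_two_iff_integrable_sq]
    · exact int_sq hn
    · exact continuous_norm.aestronglyMeasurable
  have h2 : MemLp (fun y : E n => 1 + ‖ξ‖ + |s| * ‖y‖) 2 (piM n) := by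
    exact (memLp_const (1 + ‖ξ‖)).add (h1.const_mul |s|)
  refine h2.of_le (Continuous.aestronglyMeasurable (by fun_prop)) (Eventually.of_forall fun y => ?_)
  have h3 : ‖ξ + s • y‖ ≤ ‖ξ‖ + |s| * ‖y‖ := by
    calc ‖ξ + s • y‖ ≤ ‖ξ‖ + ‖s • y‖ := norm_add_le _ _
      _ = ‖ξ‖ + |s| * ‖y‖ := by rw [norm_smul, Real.norm_eq_abs]
  rw [Real.norm_eq_abs, Real.norm_eq_abs, abs_of_nonneg (by positivity), abs_of_nonneg (by positivity)]
  linarith

/-- The factor `1 + m + f` is in `L²`. -/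
private theorem G2_fac_mem {n : ℕ} (hn : n = 3 ∨ n = 4) (f : Lp ℝ 2 (piM n)) (m : ℝ) :
    MemLp (fun y => 2 * gam n * (1 + m + f y)) 2 (piM n) := by
  have := piM_prob hn
  exact ((memLp_const (1 + m)).add (G2_mem f)).const_mul _

private theorem G2_int_one {n : ℕ} (hn : n = 3 ∨ n = 4) (ξ : E n) (s m : ℝ) (hs : 0 < s)
    (f : Lp ℝ 2 (piM n)) (h1 : ∫ y, f y ∂(piM n) = 0) :
    Integrable (fun z => G2_T ξ s m f z) ∧ ∫ z, G2_T ξ s m f z = 2 * gam n * (1 + m) := by
  have := piM_prob hn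
  have h := G2_transport hn ξ s m hs f (fun _ => 1)
  simp only [one_mul] at h
  refine ⟨h.2.2 ((G2_fac_mem hn f m).integrable (by norm_num)), ?_⟩
  rw [h.1, integral_const_mul, integral_add (integrable_const _) (G2_int hn f), h1]
  simp

private theorem G2_int_norm {n : ℕ} (hn : n = 3 ∨ n = 4) (ξ : E n) (s m : ℝ) (hs : 0 < s)
    (f : Lp ℝ 2 (piM n)) :
    Integrable (fun z => (1 + ‖z‖) * G2_T ξ s m f z) := by
  have h := G2_transport hn ξ s m hs f (fun z => 1 + ‖z‖)
  rw [h.2]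
  exact (G2_norm_mem hn ξ s).integrable_mul (G2_fac_mem hn f m)

private theorem G2_ne_ae {n : ℕ} (hn : n = 3 ∨ n = 4) (y : E n) : ∀ᵐ z ∂(piM n), z ≠ y := by
  have h1 : piM n ≪ volume := withDensity_absolutelyContinuous _ _
  have h2 : Nonempty (Fin n) := ⟨⟨0, by omega⟩⟩
  have h3 : Nontrivial (E n) := inferInstance
  have h4 : ∀ᵐ z ∂(volume : Measure (E n)), z ≠ y := by
    rw [ae_iff]
    simp
  exact h1.ae_le h4

private theorem G2_int_log {n : ℕ} (hn : n = 3 ∨ n = 4) (ξ : E n) (s m : ℝ) (hs : 0 < s)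
    (f : Lp ℝ 2 (piM n)) (h1 : ∫ z, f z ∂(piM n) = 0) (h2 : ∫ z, f z * Z0 z ∂(piM n) = 0)
    (h3 : ∫ z, f z • Zv z ∂(piM n) = 0) (x : E n) :
    Integrable (fun z => Real.log ‖x - z‖ * G2_T ξ s m f z) ∧
    ∫ z, Real.log ‖x - z‖ * G2_T ξ s m f z
      = gam n * ((1 + m) * Real.log (s ^ 2 + ‖x - ξ‖ ^ 2) - U n f ((1 / s) • (x - ξ))) := by
  have hP := piM_prob hn
  have h := G2_transport hn ξ s m hs f (fun z => Real.log ‖x - z‖)
  set y0 : E n := (1 / s) • (x - ξ) with hy0
  have e : (fun y => Real.log ‖x - (ξ + s • y)‖ * (2 * gam n * (1 + m + f y))) =ᵐ[piM n]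
      fun y => 2 * gam n * (Real.log s * (1 + m) + Real.log s * f y
        + (1 + m) * Real.log ‖y0 - y‖ + Real.log ‖y0 - y‖ * f y) := by
    filter_upwards [G2_ne_ae hn y0] with y hy
    have e1 : x - (ξ + s • y) = s • (y0 - y) := by
      rw [hy0, smul_sub, smul_smul, mul_one_div, div_self hs.ne', one_smul]; abel
    have e2 : ‖y0 - y‖ ≠ 0 := by
      rw [norm_ne_zero_iff, sub_ne_zero]; exact hy.symm
    rw [e1, norm_smul, Real.norm_eq_abs, abs_of_pos hs, Real.log_mul hs.ne' e2]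
    ring
  obtain ⟨i1, e1⟩ := log_pot_one hn y0
  obtain ⟨i2, e2⟩ := log_pot_orth hn f h1 h2 h3 y0
  have i3 : Integrable (fun y => Real.log s * (1 + m) + Real.log s * f y) (piM n) :=
    (integrable_const _).add ((G2_int hn f).const_mul _)
  have i4 : Integrable (fun y => Real.log s * (1 + m) + Real.log s * f y
        + (1 + m) * Real.log ‖y0 - y‖) (piM n) := i3.add (i1.const_mul _)
  have i5 : Integrable (fun y => 2 * gam n * (Real.log s * (1 + m) + Real.log s * f y
        + (1 + m) * Real.log ‖y0 - y‖ + Real.log ‖y0 - y‖ * f y)) (piM n) :=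
    (i4.add i2).const_mul _
  refine ⟨h.2.2 (i5.congr e.symm), ?_⟩
  rw [h.1, integral_congr_ae e, integral_const_mul, integral_add i4 i2,
    integral_add i3 (i1.const_mul _), integral_add (integrable_const _) ((G2_int hn f).const_mul _),
    integral_const_mul (Real.log s) (fun y => f y),
    integral_const_mul (1 + m) (fun y => Real.log ‖y0 - y‖), h1, e1, e2]
  have e3 : Real.log (s ^ 2 + ‖x - ξ‖ ^ 2) = 2 * Real.log s + Real.log (1 + ‖y0‖ ^ 2) := by
    have : s ^ 2 + ‖x - ξ‖ ^ 2 = s ^ 2 * (1 + ‖y0‖ ^ 2) := by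
      rw [hy0, norm_smul, Real.norm_eq_abs, abs_of_pos (by positivity)]
      field_simp
    rw [this, Real.log_mul (by positivity) (by positivity), Real.log_pow]
    push_cast; ring
  rw [e3]
  simp
  ring

/-- The outer part. -/
private theorem G2_outer {n : ℕ} (α : ℝ) (P : Pol n) (G : E n → ℝ) (g : E n → ℝ) :
    ∫ z, G z * (g z * (‖z‖ ^ (n * α) * Real.exp (n * P.eval z)))
      = ∫ z, G z * g z ∂(mu0 n α P) ∧
    (Integrable (fun z => G z * (g z * (‖z‖ ^ (n * α) * Real.exp (n * P.eval z)))) ↔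
      Integrable (fun z => G z * g z) (mu0 n α P)) := by
  have hc : Continuous (fun z : E n => P.eval z) := by
    unfold Pol.eval; fun_prop
  have hm : Measurable (fun z : E n => ‖z‖ ^ (n * α) * Real.exp (n * P.eval z)) := by
    have h1 : Measurable (fun z : E n => ‖z‖ ^ (n * α)) := by fun_prop
    have h2 : Measurable (fun z : E n => Real.exp (n * P.eval z)) := by
      exact (Real.continuous_exp.comp (continuous_const.mul hc)).measurable
    exact h1.mul h2
  have hp : ∀ z : E n, 0 ≤ ‖z‖ ^ (n * α) * Real.exp (n * P.eval z) := fun z => by positivity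
  have hm' : Measurable (fun z : E n => ENNReal.ofReal (‖z‖ ^ (n * α) * Real.exp (n * P.eval z))) :=
    hm.ennreal_ofReal
  have e : (fun z => G z * (g z * (‖z‖ ^ (n * α) * Real.exp (n * P.eval z)))) = fun z =>
      (ENNReal.ofReal (‖z‖ ^ (n * α) * Real.exp (n * P.eval z))).toReal • (G z * g z) := by
    funext z
    rw [ENNReal.toReal_ofReal (hp z), smul_eq_mul]; ring
  unfold mu0
  constructor
  · rw [e, integral_withDensity_eq_integral_toReal_smul hm']
    exact Eventually.of_forall fun z => ENNReal.ofReal_lt_top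
  · rw [e, integrable_withDensity_iff_integrable_smul' hm']
    exact Eventually.of_forall fun z => ENNReal.ofReal_lt_top

section

variable {n : ℕ} {J : Type} [Fintype J] [DecidableEq J] {α : ℝ} (P : Pol n)

theorem solve (hn : n = 3 ∨ n = 4) (hα : -1 < α) (d δ2 ε : ℝ) (hd : 0 < d) (hε : 0 < ε)
    (hε1 : ε ≤ 1 / 2) (q : Par n J) (hq : q ∈ Qd d δ2 ε) (x : XX n J α P)
    (hT : TT α P ε (d / 8) q x = x)
    (h0 : ∀ j, redA α P ε (d / 8) q x j = 0 ∧ redB α P ε (d / 8) q x j = 0 ∧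
      redC α P ε (d / 8) q x j = 0) :
    ∃ u : E n → ℝ, IntSol n α u ∧
      gam n * Fintype.card J ≤ ∫ z, ‖z‖ ^ (n * α) * Real.exp (n * u z) := by
  classical
  have hP := piM_prob hn
  have hg : 0 < gam n := G2_gam_pos
  -- the fixed point equation
  have hT1 : ∀ j, PP n (toL (piM n) (FFX α P ε (d / 8) q x j)) = x.1 j := fun j => by
    have := congrArg (fun w : XX n J α P => w.1 j) hT
    exact this
  have hT2 : toL (mu0 n α P) (GGX α P ε (d / 8) q x) = x.2 := by
    have := congrArg (fun w : XX n J α P => w.2) hT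
    exact this
  have hF : ∀ j, (toL (piM n) (FFX α P ε (d / 8) q x j) : E n → ℝ) =ᵐ[piM n]
      FFX α P ε (d / 8) q x j := fun j =>
    toL_coe (piM n) _ (FFX_memLp P hn hα d δ2 ε hd hε q hq x j)
  have hG : (toL (mu0 n α P) (GGX α P ε (d / 8) q x) : E n → ℝ) =ᵐ[mu0 n α P]
      GGX α P ε (d / 8) q x :=
    toL_coe (mu0 n α P) _ (GGX_memLp P hn hα d δ2 ε hd hε (by linarith) q hq x)
  have hx1 : ∀ j, toL (piM n) (FFX α P ε (d / 8) q x j) = x.1 j := fun j => by
    have := PP_fix hn (toL (piM n) (FFX α P ε (d / 8) q x j)) ?_ ?_ ?_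
    · rw [← this]; exact hT1 j
    · rw [integral_congr_ae (hF j)]; exact (h0 j).1
    · rw [integral_congr_ae (g := fun y => FFX α P ε (d / 8) q x j y * Z0 y)
        (by filter_upwards [hF j] with y hy; rw [hy])]
      exact (h0 j).2.1
    · rw [integral_congr_ae (g := fun y => FFX α P ε (d / 8) q x j y • Zv y)
        (by filter_upwards [hF j] with y hy; rw [hy])]
      exact (h0 j).2.2
  have h1 : ∀ j, (x.1 j : E n → ℝ) =ᵐ[piM n] FFX α P ε (d / 8) q x j := fun j => by
    have := hF j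
    rwa [hx1 j] at this
  have h2 : (x.2 : E n → ℝ) =ᵐ[mu0 n α P] GGX α P ε (d / 8) q x := by
    rwa [hT2] at hG
  have o1 : ∀ j, ∫ y, x.1 j y ∂(piM n) = 0 := fun j => by
    rw [integral_congr_ae (h1 j)]; exact (h0 j).1
  have o2 : ∀ j, ∫ y, x.1 j y * Z0 y ∂(piM n) = 0 := fun j => by
    rw [integral_congr_ae (g := fun y => FFX α P ε (d / 8) q x j y * Z0 y)
        (by filter_upwards [h1 j] with y hy; rw [hy])]
    exact (h0 j).2.1
  have o3 : ∀ j, ∫ y, x.1 j y • Zv y ∂(piM n) = 0 := fun j => by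
    rw [integral_congr_ae (g := fun y => FFX α P ε (d / 8) q x j y • Zv y)
        (by filter_upwards [h1 j] with y hy; rw [hy])]
    exact (h0 j).2.2
  have hm : ∀ j, 1 / 2 ≤ 1 + q.2.2 j := fun j => by
    have := (abs_le.1 (hq.2.2.2 j)).1
    linarith
  have hs : ∀ j, 0 < epj α P ε q j := fun j => by unfold epj; positivity
  -- the solution
  set u : E n → ℝ := fun z => Wf α P ε q z + P.eval z + c0 n ε + phiX α P ε q x z with hu
  have hPc : Continuous (fun z : E n => P.eval z) := by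
    unfold Pol.eval; fun_prop
  have huc : Continuous u := by
    have a1 := Wf_cont_x α P ε hε q
    have a2 := phiX_cont P hn hα ε q x
    exact ((a1.add hPc).add continuous_const).add a2
  -- the decomposition
  have hsplit : (fun z : E n => ‖z‖ ^ (n * α) * Real.exp (n * u z)) =ᵐ[volume]
      fun z => (∑ j, G2_T (q.1 j) (epj α P ε q j) (q.2.2 j) (x.1 j) z)
        + ε * (x.2 z * (‖z‖ ^ (n * α) * Real.exp (n * P.eval z))) := by
    filter_upwards [density_split P hn hα d δ2 ε hd hε hε1 q hq x h1 h2] with z hz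
    rw [hu]
    simp only
    rw [hz]
    unfold G2_T
    ring
  -- integrals against a weight
  have key : ∀ G : E n → ℝ,
      (∀ j, Integrable (fun z => G z * G2_T (q.1 j) (epj α P ε q j) (q.2.2 j) (x.1 j) z)) →
      Integrable (fun z => G z * x.2 z) (mu0 n α P) →
      Integrable (fun z => G z * (‖z‖ ^ (n * α) * Real.exp (n * u z))) ∧
      ∫ z, G z * (‖z‖ ^ (n * α) * Real.exp (n * u z))
        = (∑ j, ∫ z, G z * G2_T (q.1 j) (epj α P ε q j) (q.2.2 j) (x.1 j) z)
          + ε * ∫ z, G z * x.2 z ∂(mu0 n α P) := by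
    intro G i1 i2
    have e : (fun z : E n => G z * (‖z‖ ^ (n * α) * Real.exp (n * u z))) =ᵐ[volume]
        fun z => (∑ j, G z * G2_T (q.1 j) (epj α P ε q j) (q.2.2 j) (x.1 j) z)
          + ε * (G z * (x.2 z * (‖z‖ ^ (n * α) * Real.exp (n * P.eval z)))) := by
      filter_upwards [hsplit] with z hz
      rw [hz, ← Finset.mul_sum]; ring
    have i3 : Integrable (fun z => ∑ j, G z * G2_T (q.1 j) (epj α P ε q j) (q.2.2 j) (x.1 j) z) :=
      integrable_finsetSum _ fun j _ => i1 j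
    have i4 := (G2_outer α P G x.2).2.2 i2
    refine ⟨(i3.add (i4.const_mul ε)).congr e.symm, ?_⟩
    rw [integral_congr_ae e, integral_add i3 (i4.const_mul ε), integral_const_mul,
      integral_finsetSum _ (fun j _ => i1 j), (G2_outer α P G x.2).1]
  have hmem2 : MemLp (fun z => x.2 z) 2 (mu0 n α P) := Lp.memLp x.2
  have hfin := mu0_finite hn hα P
  refine ⟨u, ⟨huc.measurable, ?_, P, c0 n ε, ?_⟩, ?_⟩
  · refine (key (fun z => 1 + ‖z‖) (fun j => G2_int_norm hn _ _ _ (hs j) _) ?_).1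
    have : MemLp (fun z : E n => 1 + ‖z‖) 2 (mu0 n α P) := by
      rw [memLp_two_iff_integrable_sq]
      · exact mu0_moment hn hα P 2
      · exact Continuous.aestronglyMeasurable (by fun_prop)
    exact this.integrable_mul hmem2
  · intro y
    obtain ⟨C, hC, hPsi⟩ := Psi_bound hn hα P
    have k := (key (fun z => Real.log ‖y - z‖)
      (fun j => (G2_int_log hn _ _ _ (hs j) _ (o1 j) (o2 j) (o3 j) y).1) (hPsi x.2 y).1).2
    rw [k, Finset.sum_congr rfl
      (fun j _ => (G2_int_log hn _ _ _ (hs j) _ (o1 j) (o2 j) (o3 j) y).2)]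
    rw [hu]
    simp only
    have e1 : phiX α P ε q x y = ∑ j, U n (x.1 j) ((1 / epj α P ε q j) • (y - q.1 j))
      + ε * Psi n α P x.2 y := rfl
    have e2 : Wf α P ε q y = - ∑ j, (1 + q.2.2 j) * Real.log (epj α P ε q j ^ 2 + ‖y - q.1 j‖ ^ 2) := rfl
    have e3 : Psi n α P x.2 y = - (1 / gam n) * ∫ w, Real.log ‖y - w‖ * x.2 w ∂(mu0 n α P) := rfl
    rw [e1, e2, e3, ← Finset.mul_sum, Finset.sum_sub_distrib]
    field_simp
    ring
  · have k := (key (fun _ => 1)
      (fun j => by simpa using (G2_int_one hn (q.1 j) _ (q.2.2 j) (hs j) _ (o1 j)).1)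
      (by simpa using hmem2.integrable (by norm_num))).2
    simp only [one_mul] at k
    rw [k, Finset.sum_congr rfl (fun j _ => (G2_int_one hn (q.1 j) _ (q.2.2 j) (hs j) _ (o1 j)).2)]
    have h3 : 0 ≤ ∫ z, x.2 z ∂(mu0 n α P) := by
      refine integral_nonneg_of_ae ?_
      filter_upwards [h2] with z hz
      rw [hz]
      show (0 : ℝ) ≤ (1 / ε) * (outR (d / 8) q).indicator
        (fun z => Real.exp (n * (Wf α P ε q z + c0 n ε + phi α P ε q (fun j => x.1 j) x.2 z))) z
      refine mul_nonneg (by positivity) (indicator_nonneg (fun z _ => (Real.exp_pos _).le) z)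
    have h4 : ∑ j : J, gam n ≤ ∑ j, 2 * gam n * (1 + q.2.2 j) :=
      Finset.sum_le_sum fun j _ => by nlinarith [hm j]
    rw [Finset.sum_const, Finset.card_univ, nsmul_eq_mul] at h4
    nlinarith [mul_nonneg hε.le h3]

end

end Pool.Agent.QGlue
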