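import Pool.Agent.QGlue.DefsH

/-! # The logarithm is a fundamental solution of `(-Δ)^{n/2}` -/

set_option autoImplicit false

namespace Pool.Agent.QGlue

open MeasureTheory Real Set Filter Topology
open scoped FourierTransform SchwartzMap ContDiff Laplacian InnerProductSpace

/-! ### Frullani integrals -/

private lemma H1_exp_diff_le {a s : ℝ} (hs : 0 ≤ s) :
    |Real.exp (-(a * s)) - Real.exp (-s)| ≤ |a - 1| * s * Real.exp (-(min a 1 * s)) := by
  have key : ∀ p q : ℝ, p ≤ q →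
      |Real.exp (-(p * s)) - Real.exp (-(q * s))| ≤ (q - p) * s * Real.exp (-(p * s)) := by
    intro p q hpq
    have h1 : Real.exp (-(q * s)) = Real.exp (-(p * s)) * Real.exp (-((q - p) * s)) := by
      rw [← Real.exp_add]; ring_nf
    have h2 : -((q - p) * s) + 1 ≤ Real.exp (-((q - p) * s)) := Real.add_one_le_exp _
    have h3 : Real.exp (-((q - p) * s)) ≤ 1 := by
      apply Real.exp_le_one_iff.mpr
      have := mul_nonneg (sub_nonneg.mpr hpq) hs
      linarith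
    have h4 := Real.exp_pos (-(p * s))
    rw [h1, abs_of_nonneg (by nlinarith)]
    nlinarith
  rcases le_total a 1 with h | h
  · have := key a 1 h
    rw [one_mul] at this
    rw [min_eq_left h, abs_of_nonpos (sub_nonpos.mpr h)]
    simpa using this
  · have := key 1 a h
    rw [one_mul] at this
    rw [min_eq_right h, one_mul, abs_sub_comm, abs_of_nonneg (sub_nonneg.mpr h)]
    simpa using this

private lemma H1_fr_int {a : ℝ} (ha : 0 < a) :
    IntegrableOn (fun s => s⁻¹ * (Real.exp (-(a * s)) - Real.exp (-s))) (Ioi 0) := by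
  have hm : 0 < min a 1 := lt_min ha one_pos
  have h1 : IntegrableOn (fun s => |a - 1| * Real.exp (-(min a 1) * s)) (Ioi 0) :=
    (exp_neg_integrableOn_Ioi 0 hm).const_mul _
  refine Integrable.mono' h1 (by fun_prop) ?_
  rw [ae_restrict_iff' measurableSet_Ioi]
  refine ae_of_all _ fun s (hs : 0 < s) => ?_
  have := H1_exp_diff_le (a := a) hs.le
  rw [Real.norm_eq_abs, abs_mul, abs_of_pos (inv_pos.mpr hs)]
  calc s⁻¹ * |Real.exp (-(a * s)) - Real.exp (-s)|
      ≤ s⁻¹ * (|a - 1| * s * Real.exp (-(min a 1 * s))) := by gcongr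
    _ = |a - 1| * Real.exp (-(min a 1) * s) := by
        rw [neg_mul]; field_simp

private lemma H1_fr {a : ℝ} (ha : 0 < a) :
    ∫ s in Ioi 0, s⁻¹ * (Real.exp (-(a * s)) - Real.exp (-s)) = - Real.log a := by
  have h := Frullani.integral_Ioi_eq (f := fun x : ℝ => Real.exp (-x)) (a := a) (b := 1)
    (L := 1) (R := 0) ?_ ha one_pos ?_ ?_ ?_
  · simp only [smul_eq_mul, one_mul, sub_zero, mul_one, one_div, Real.log_inv] at h
    exact h
  · exact (by fun_prop : Continuous fun x : ℝ => Real.exp (-x)).locallyIntegrable.locallyIntegrableOn _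
  · have : Tendsto (fun x : ℝ => Real.exp (-x)) (𝓝 0) (𝓝 (Real.exp (-0))) :=
      (by fun_prop : Continuous fun x : ℝ => Real.exp (-x)).tendsto 0
    simp only [neg_zero, Real.exp_zero] at this
    exact this.mono_left nhdsWithin_le_nhds
  · exact Real.tendsto_exp_neg_atTop_nhds_zero
  · have := H1_fr_int ha
    simpa using this

private lemma H1_fr_abs {a : ℝ} (ha : 0 < a) :
    ∫ s in Ioi 0, |s⁻¹ * (Real.exp (-(a * s)) - Real.exp (-s))| = |Real.log a| := by
  rcases le_total a 1 with h | h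
  · rw [abs_of_nonpos (Real.log_nonpos ha.le h), ← H1_fr ha]
    refine setIntegral_congr_fun measurableSet_Ioi fun s (hs : 0 < s) => ?_
    apply abs_of_nonneg
    apply mul_nonneg (inv_pos.mpr hs).le
    rw [sub_nonneg, Real.exp_le_exp]
    nlinarith
  · rw [abs_of_nonneg (Real.log_nonneg h), ← neg_neg (Real.log a), ← H1_fr ha, ← integral_neg]
    refine setIntegral_congr_fun measurableSet_Ioi fun s (hs : 0 < s) => ?_
    apply abs_of_nonpos
    apply mul_nonpos_of_nonneg_of_nonpos (inv_pos.mpr hs).le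
    rw [sub_nonpos, Real.exp_le_exp]
    nlinarith

/-! ### Local integrability of the logarithm -/

private lemma H1_ball_int {n : ℕ} (hn : n = 3 ∨ n = 4) :
    IntegrableOn (fun y : E n => ‖y‖⁻¹) (Metric.ball 0 1) := by
  have key : ∀ k : ℕ, IntegrableOn (fun y : ℝ => y ^ (k + 1) • y⁻¹) (Ioo 0 1) := by
    intro k
    refine Measure.integrableOn_of_bounded (M := 1) (by simp) (by fun_prop) ?_
    rw [ae_restrict_iff' measurableSet_Ioo]
    refine ae_of_all _ fun y hy => ?_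
    rw [smul_eq_mul, pow_succ, mul_assoc, mul_inv_cancel₀ hy.1.ne', mul_one, Real.norm_eq_abs,
      abs_of_nonneg (pow_nonneg hy.1.le _)]
    exact pow_le_one₀ hy.1.le hy.2.le
  rcases hn with rfl | rfl
  · rw [integrableOn_fun_norm_addHaar (μ := volume) (f := fun r : ℝ => r⁻¹)]
    simpa using key 1
  · rw [integrableOn_fun_norm_addHaar (μ := volume) (f := fun r : ℝ => r⁻¹)]
    simpa using key 2

private lemma H1_log_le {n : ℕ} (y : E n) :
    |Real.log ‖y‖| ≤ (Metric.ball (0 : E n) 1).indicator (fun y => ‖y‖⁻¹) y + ‖y‖ := by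
  rcases eq_or_ne y 0 with rfl | hy
  · simp
  have hp : 0 < ‖y‖ := norm_pos_iff.mpr hy
  rcases lt_or_ge ‖y‖ 1 with h | h
  · have h1 : y ∈ Metric.ball (0 : E n) 1 := by simpa using h
    rw [indicator_of_mem h1, abs_of_nonpos (Real.log_nonpos hp.le h.le), ← Real.log_inv]
    have := Real.log_le_sub_one_of_pos (inv_pos.mpr hp)
    linarith
  · have h1 : y ∉ Metric.ball (0 : E n) 1 := by simpa using h
    rw [indicator_of_notMem h1, abs_of_nonneg (Real.log_nonneg h)]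
    have := Real.log_le_sub_one_of_pos hp
    linarith

theorem log_int_test {n : ℕ} (hn : n = 3 ∨ n = 4) {ψ Ψ : E n → ℂ} (h : TestPair n ψ Ψ) :
    ∃ C : ℝ, ∀ z : E n, Integrable (fun x => (Real.log ‖x - z‖ : ℂ) * Ψ x) ∧
      ∫ x, |Real.log ‖x - z‖| * ‖Ψ x‖ ≤ C * (1 + ‖z‖) := by
  obtain ⟨M, hM⟩ := h.bddΨ
  have hM0 : 0 ≤ M := (norm_nonneg _).trans (hM 0)
  set ind : E n → ℝ := (Metric.ball (0 : E n) 1).indicator (fun y => ‖y‖⁻¹) with hind
  have hindI : Integrable ind := (H1_ball_int hn).integrable_indicator Metric.isOpen_ball.measurableSet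
  have hind0 : ∀ y, 0 ≤ ind y := fun y => indicator_nonneg (fun _ _ => by positivity) y
  have hbound : ∀ z x : E n, |Real.log ‖x - z‖| * ‖Ψ x‖ ≤
      M * ind (x - z) + (1 + ‖z‖) * ((1 + ‖x‖ ^ 2) * ‖Ψ x‖) := by
    intro z x
    have h1 := H1_log_le (x - z)
    have h2 : ‖x - z‖ ≤ (1 + ‖z‖) * (1 + ‖x‖ ^ 2) := by
      have h3 := norm_sub_le x z
      have h4 := norm_nonneg x
      have h5 := norm_nonneg z
      nlinarith [mul_nonneg h5 (sq_nonneg ‖x‖), sq_nonneg (‖x‖ - 1)]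
    calc |Real.log ‖x - z‖| * ‖Ψ x‖ ≤ (ind (x - z) + ‖x - z‖) * ‖Ψ x‖ := by
          gcongr
      _ = ind (x - z) * ‖Ψ x‖ + ‖x - z‖ * ‖Ψ x‖ := by ring
      _ ≤ ind (x - z) * M + (1 + ‖z‖) * (1 + ‖x‖ ^ 2) * ‖Ψ x‖ := by
          have := hind0 (x - z)
          gcongr
          exact hM x
      _ = _ := by ring
  have hgI : ∀ z, Integrable (fun x => M * ind (x - z) + (1 + ‖z‖) * ((1 + ‖x‖ ^ 2) * ‖Ψ x‖)) :=
    fun z => ((hindI.comp_sub_right z).const_mul M).add (h.intΨ.const_mul _)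
  have hmeas : ∀ z, AEStronglyMeasurable (fun x => (Real.log ‖x - z‖ : ℂ) * Ψ x) volume := by
    intro z
    refine AEStronglyMeasurable.mul ?_ h.contΨ.aestronglyMeasurable
    exact (by fun_prop : Measurable fun x : E n => (Real.log ‖x - z‖ : ℂ)).aestronglyMeasurable
  have hI : ∀ z, Integrable (fun x => (Real.log ‖x - z‖ : ℂ) * Ψ x) := by
    intro z
    refine (hgI z).mono' (hmeas z) (ae_of_all _ fun x => ?_)
    rw [norm_mul, Complex.norm_real, Real.norm_eq_abs]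
    exact hbound z x
  refine ⟨M * (∫ y, ind y) + ∫ x, (1 + ‖x‖ ^ 2) * ‖Ψ x‖, fun z => ⟨hI z, ?_⟩⟩
  have h1 : ∫ x, |Real.log ‖x - z‖| * ‖Ψ x‖ ≤
      ∫ x, (M * ind (x - z) + (1 + ‖z‖) * ((1 + ‖x‖ ^ 2) * ‖Ψ x‖)) := by
    refine integral_mono_of_nonneg (ae_of_all _ fun x => by positivity) (hgI z)
      (ae_of_all _ fun x => hbound z x)
  rw [integral_add ((hindI.comp_sub_right z).const_mul M) (h.intΨ.const_mul _),
    integral_const_mul, integral_const_mul, integral_sub_right_eq_self (fun y => ind y) z] at h1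
  refine h1.trans ?_
  have h2 : 0 ≤ M * ∫ y, ind y := mul_nonneg hM0 (integral_nonneg hind0)
  nlinarith [mul_nonneg h2 (norm_nonneg z)]

/-! ### The integral over the scale of the Gaussians -/

private lemma H1_gam {n : ℕ} (hn : n = 3 ∨ n = 4) :
    π ^ ((n : ℝ) / 2) * 2 ^ n * Real.Gamma ((n : ℝ) / 2) = 2 * gam n := by
  rcases hn with rfl | rfl
  · have h1 : ((3 : ℕ) : ℝ) / 2 = 1 / 2 + 1 := by norm_num
    rw [h1, Real.Gamma_add_one (by norm_num), Real.Gamma_one_half_eq,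
      Real.rpow_add Real.pi_pos, Real.rpow_one, ← Real.sqrt_eq_rpow, gam, if_pos rfl]
    have := Real.mul_self_sqrt Real.pi_pos.le
    linear_combination (4 * π) * this
  · have h1 : ((4 : ℕ) : ℝ) / 2 = 1 + 1 := by norm_num
    rw [h1, Real.Gamma_add_one (by norm_num), Real.Gamma_one, Real.rpow_add Real.pi_pos,
      Real.rpow_one, gam, if_neg (by norm_num)]
    ring

private lemma H1_scale {n : ℕ} (hn : n = 3 ∨ n = 4) {r : ℝ} (hr : 0 < r) :
    IntegrableOn (fun s => s⁻¹ * ((π / s) ^ ((n : ℝ) / 2) * Real.exp (-(π ^ 2 * r ^ 2 / s))) *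
      (2 * π * r) ^ n) (Ioi 0) ∧
    ∫ s in Ioi 0, s⁻¹ * ((π / s) ^ ((n : ℝ) / 2) * Real.exp (-(π ^ 2 * r ^ 2 / s))) *
      (2 * π * r) ^ n = 2 * gam n := by
  have hn0 : 0 < (n : ℝ) / 2 := by
    rcases hn with rfl | rfl <;> norm_num
  have hc : 0 < π ^ 2 * r ^ 2 := by positivity
  set c := π ^ 2 * r ^ 2 with hcdef
  set g : ℝ → ℝ := fun t => t ^ ((n : ℝ) / 2 - 1) * Real.exp (-(c * t)) with hg
  have hgI : IntegrableOn g (Ioi 0) := by
    have := integrableOn_rpow_mul_exp_neg_mul_rpow (s := (n : ℝ) / 2 - 1) (p := 1) (b := c)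
      (by linarith) one_pos hc
    refine this.congr_fun (fun x _ => ?_) measurableSet_Ioi
    simp [hg]
  have hcongr : ∀ s ∈ Ioi (0 : ℝ), s⁻¹ * ((π / s) ^ ((n : ℝ) / 2) * Real.exp (-(c / s))) *
      (2 * π * r) ^ n = (π ^ ((n : ℝ) / 2) * (2 * π * r) ^ n) *
        ((|(-1 : ℝ)| * s ^ ((-1 : ℝ) - 1)) • g (s ^ (-1 : ℝ))) := by
    intro s hs
    have hs : 0 < s := hs
    have h1 : s ^ ((-1 : ℝ) - 1) * (s ^ (-1 : ℝ)) ^ ((n : ℝ) / 2 - 1) = s⁻¹ * (s ^ ((n : ℝ) / 2))⁻¹ := by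
      rw [← Real.rpow_mul hs.le, ← Real.rpow_add hs, ← Real.rpow_neg hs.le, ← Real.rpow_neg_one,
        ← Real.rpow_add hs]
      congr 1
      ring
    have h2 : (π / s) ^ ((n : ℝ) / 2) = π ^ ((n : ℝ) / 2) * (s ^ ((n : ℝ) / 2))⁻¹ := by
      rw [Real.div_rpow Real.pi_pos.le hs.le, div_eq_mul_inv]
    rw [abs_neg, abs_one, one_mul, smul_eq_mul, hg]
    simp only
    rw [← mul_assoc (s ^ ((-1 : ℝ) - 1)), h1, h2, Real.rpow_neg_one, ← div_eq_mul_inv]
    ring_nf
  constructor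
  · have h1 := (integrableOn_Ioi_comp_rpow_iff g (p := -1) (by norm_num)).mpr hgI
    refine IntegrableOn.congr_fun (h1.const_mul (π ^ ((n : ℝ) / 2) * (2 * π * r) ^ n)) ?_
      measurableSet_Ioi
    intro s hs
    exact (hcongr s hs).symm
  · rw [setIntegral_congr_fun measurableSet_Ioi hcongr, integral_const_mul,
      integral_comp_rpow_Ioi g (by norm_num), hg, Real.integral_rpow_mul_exp_neg_mul_Ioi hn0 hc,
      ← H1_gam hn]
    have h3 : (1 / c) ^ ((n : ℝ) / 2) = ((π * r) ^ n)⁻¹ := by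
      rw [hcdef, ← mul_pow, one_div, Real.inv_rpow (by positivity), ← Real.rpow_natCast _ 2,
        ← Real.rpow_mul (by positivity)]
      rw [← Real.rpow_natCast _ n]
      congr 2
      push_cast
      ring
    rw [h3, mul_assoc 2, mul_pow 2]
    have h4 : (π * r) ^ n ≠ 0 := by positivity
    field_simp

/-! ### Gaussian averages of `Ψ` -/

private lemma H1_zero {n : ℕ} (hn : n = 3 ∨ n = 4) {ψ Ψ : E n → ℂ} (h : TestPair n ψ Ψ) :
    ∫ x, Ψ x = 0 := by
  have h1 := h.rel 0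
  rw [Real.fourier_eq] at h1
  have hn0 : n ≠ 0 := by rcases hn with rfl | rfl <;> norm_num
  simpa [hn0] using h1

private lemma H1_intΨ {n : ℕ} {ψ Ψ : E n → ℂ} (h : TestPair n ψ Ψ) : Integrable Ψ := by
  refine h.intΨ.mono h.contΨ.aestronglyMeasurable (ae_of_all _ fun x => ?_)
  rw [Real.norm_eq_abs, abs_of_nonneg (by positivity)]
  nlinarith [norm_nonneg (Ψ x), sq_nonneg ‖x‖, mul_nonneg (norm_nonneg (Ψ x)) (sq_nonneg ‖x‖)]

/-- The Gaussian averages of `Ψ` through the Fourier transform. -/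
private lemma H1_gauss {n : ℕ} {ψ Ψ : E n → ℂ} (h : TestPair n ψ Ψ) (z : E n) {s : ℝ} (hs : 0 < s) :
    ∫ x, ((Real.exp (-(‖x - z‖ ^ 2 * s)) : ℝ) : ℂ) * Ψ x =
      ∫ ξ : E n, (((π / s) ^ ((n : ℝ) / 2) * Real.exp (-(π ^ 2 * ‖ξ‖ ^ 2 / s)) : ℝ) : ℂ) *
        (Complex.exp (2 * π * Complex.I * ⟪z, ξ⟫_ℝ) * 𝓕 Ψ ξ) := by
  set b : ℂ := ((π ^ 2 / s : ℝ) : ℂ) with hb
  have hbre : 0 < b.re := by rw [hb, Complex.ofReal_re]; positivity
  set g : E n → ℂ := fun v => Complex.exp (-b * ‖v‖ ^ 2 + 2 * π * Complex.I * ⟪z, v⟫_ℝ) with hg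
  have hgI : Integrable g := by
    have := GaussianFourier.integrable_cexp_neg_mul_sq_norm_add hbre (2 * π * Complex.I) z
    exact this
  have hgF : ∀ x, 𝓕 g x = (((s / π) ^ ((n : ℝ) / 2) * Real.exp (-(‖x - z‖ ^ 2 * s)) : ℝ) : ℂ) := by
    intro x
    rw [hg, fourier_gaussian_innerProductSpace' hbre z x]
    have h1 : (π : ℂ) / b = ((s / π : ℝ) : ℂ) := by
      rw [hb, ← Complex.ofReal_div]
      congr 1
      field_simp
    have h2 : (-(π : ℂ) ^ 2 * ((‖z - x‖ : ℝ) : ℂ) ^ 2 / b) = ((-(‖x - z‖ ^ 2 * s) : ℝ) : ℂ) := by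
      rw [hb, norm_sub_rev]
      push_cast
      have : (s : ℂ) ≠ 0 := by exact_mod_cast hs.ne'
      have : (π : ℂ) ≠ 0 := by exact_mod_cast Real.pi_pos.ne'
      field_simp
    rw [h1, h2, ← Complex.ofReal_exp, Complex.ofReal_mul, Complex.ofReal_cpow (by positivity)]
    simp
  have key : ∫ x, (𝓕 g x) • Ψ x = ∫ ξ, g ξ • 𝓕 Ψ ξ := by
    have := VectorFourier.integral_fourierIntegral_smul_eq_flip (e := 𝐞) (μ := volume) (ν := volume)
      (L := innerₗ (E n)) (f := g) (g := Ψ) Real.continuous_fourierChar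
      (by simpa using continuous_inner) hgI (H1_intΨ h)
    rw [flip_innerₗ] at this
    exact this
  have hsπ : ((s / π) ^ ((n : ℝ) / 2) : ℝ) ≠ 0 := by positivity
  have h3 : (π / s) ^ ((n : ℝ) / 2) = ((s / π) ^ ((n : ℝ) / 2))⁻¹ := by
    rw [← Real.inv_rpow (by positivity), inv_div]
  have h4 : ∫ x, ((Real.exp (-(‖x - z‖ ^ 2 * s)) : ℝ) : ℂ) * Ψ x =
      (((π / s) ^ ((n : ℝ) / 2) : ℝ) : ℂ) * ∫ x, (𝓕 g x) • Ψ x := by
    rw [← integral_const_mul]
    congr 1
    ext x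
    rw [hgF, smul_eq_mul, h3, Complex.ofReal_mul, ← mul_assoc, ← mul_assoc, ← Complex.ofReal_mul,
      inv_mul_cancel₀ hsπ, Complex.ofReal_one, one_mul]
  rw [h4, key, ← integral_const_mul]
  congr 1
  ext ξ
  rw [smul_eq_mul, hg]
  simp only
  rw [Complex.exp_add, Complex.ofReal_mul]
  have h5 : -b * ((‖ξ‖ : ℝ) : ℂ) ^ 2 = ((-(π ^ 2 * ‖ξ‖ ^ 2 / s) : ℝ) : ℂ) := by
    rw [hb]
    push_cast
    ring
  rw [h5, ← Complex.ofReal_exp]
  ring

theorem log_test {n : ℕ} (hn : n = 3 ∨ n = 4) {ψ Ψ : E n → ℂ} (h : TestPair n ψ Ψ) (z : E n) :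
    ∫ x, (Real.log ‖x - z‖ : ℂ) * Ψ x = - (gam n : ℂ) * ψ z := by
  have hn0 : n ≠ 0 := by rcases hn with rfl | rfl <;> norm_num
  have : Nontrivial (E n) := by rcases hn with rfl | rfl <;> infer_instance
  obtain ⟨C, hC⟩ := log_int_test hn h
  have hlogI := (hC z).1
  set ν : Measure ℝ := volume.restrict (Ioi 0) with hν
  have hae : ∀ w : E n, ∀ᵐ x : E n, x ≠ w := fun w => by
    rw [ae_iff]
    simp
  -- the first double integral
  set F : E n → ℝ → ℂ := fun x s =>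
    ((s⁻¹ * (Real.exp (-(‖x - z‖ ^ 2 * s)) - Real.exp (-s)) : ℝ) : ℂ) * Ψ x with hF
  have hFm : AEStronglyMeasurable (Function.uncurry F) (volume.prod ν) := by
    have h1 : Measurable (fun p : E n × ℝ =>
        ((p.2⁻¹ * (Real.exp (-(‖p.1 - z‖ ^ 2 * p.2)) - Real.exp (-p.2)) : ℝ) : ℂ)) := by
      fun_prop
    have h2 : Measurable (fun p : E n × ℝ => Ψ p.1) := h.contΨ.measurable.comp measurable_fst
    exact (h1.mul h2).aestronglyMeasurable
  have hFI : Integrable (Function.uncurry F) (volume.prod ν) := by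
    rw [integrable_prod_iff hFm]
    constructor
    · filter_upwards [hae z] with x hx
      have hpos : 0 < ‖x - z‖ ^ 2 := by
        have := norm_pos_iff.mpr (sub_ne_zero.mpr hx)
        positivity
      exact (H1_fr_int hpos).ofReal.mul_const (Ψ x)
    · refine (hlogI.norm.const_mul 2).congr ?_
      filter_upwards [hae z] with x hx
      have hpos : 0 < ‖x - z‖ := norm_pos_iff.mpr (sub_ne_zero.mpr hx)
      have h1 : ∀ s, ‖Function.uncurry F (x, s)‖ =
          |s⁻¹ * (Real.exp (-(‖x - z‖ ^ 2 * s)) - Real.exp (-s))| * ‖Ψ x‖ := fun s => by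
        simp only [Function.uncurry_apply_pair, hF]
        rw [norm_mul, Complex.norm_real, Real.norm_eq_abs]
      simp_rw [h1]
      rw [integral_mul_const, hν, H1_fr_abs (by positivity), Real.log_pow, norm_mul,
        Complex.norm_real, Real.norm_eq_abs, abs_mul]
      norm_num
      ring
  have hA : ∫ x, (Real.log ‖x - z‖ : ℂ) * Ψ x = -(1 / 2) * ∫ x, ∫ s, F x s ∂ν := by
    rw [← integral_const_mul]
    refine integral_congr_ae ?_
    filter_upwards [hae z] with x hx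
    have hpos : 0 < ‖x - z‖ := norm_pos_iff.mpr (sub_ne_zero.mpr hx)
    rw [hF, hν]
    simp only
    rw [integral_mul_const, integral_complex_ofReal, H1_fr (by positivity), Real.log_pow]
    push_cast
    ring
  -- the second double integral
  set H : E n → ℝ → ℂ := fun ξ s =>
    ((s⁻¹ * ((π / s) ^ ((n : ℝ) / 2) * Real.exp (-(π ^ 2 * ‖ξ‖ ^ 2 / s))) *
      (2 * π * ‖ξ‖) ^ n : ℝ) : ℂ) * (Complex.exp (2 * π * Complex.I * ⟪z, ξ⟫_ℝ) * 𝓕 ψ ξ) with hH
  have hFc : Continuous (𝓕 ψ) :=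
    VectorFourier.fourierIntegral_continuous Real.continuous_fourierChar
      (by simpa using continuous_inner) h.intψ
  have hFψI : Integrable (𝓕 ψ) := by
    refine h.intF.mono hFc.aestronglyMeasurable (ae_of_all _ fun x => ?_)
    rw [Real.norm_eq_abs, abs_of_nonneg (by positivity)]
    have : 0 ≤ ‖x‖ ^ n * ‖𝓕 ψ x‖ := by positivity
    nlinarith [norm_nonneg (𝓕 ψ x)]
  have hHm : AEStronglyMeasurable (Function.uncurry H) (volume.prod ν) := by
    have h1 : Measurable (fun p : E n × ℝ =>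
        ((p.2⁻¹ * ((π / p.2) ^ ((n : ℝ) / 2) * Real.exp (-(π ^ 2 * ‖p.1‖ ^ 2 / p.2))) *
          (2 * π * ‖p.1‖) ^ n : ℝ) : ℂ)) := by
      fun_prop
    have h2 : Measurable (fun p : E n × ℝ => 𝓕 ψ p.1) := hFc.measurable.comp measurable_fst
    have h3 : Measurable (fun p : E n × ℝ => Complex.exp (2 * π * Complex.I * ⟪z, p.1⟫_ℝ)) := by
      fun_prop
    exact (h1.mul (h3.mul h2)).aestronglyMeasurable
  have hexp : ∀ ξ : E n, ‖Complex.exp (2 * π * Complex.I * ⟪z, ξ⟫_ℝ)‖ = 1 := fun ξ => by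
    have : (2 * π * Complex.I * ⟪z, ξ⟫_ℝ : ℂ) = ((2 * π * ⟪z, ξ⟫_ℝ : ℝ) : ℂ) * Complex.I := by
      push_cast; ring
    rw [this, Complex.norm_exp_ofReal_mul_I]
  have hHI : Integrable (Function.uncurry H) (volume.prod ν) := by
    rw [integrable_prod_iff hHm]
    constructor
    · filter_upwards [hae 0] with ξ hξ
      exact (H1_scale hn (norm_pos_iff.mpr hξ)).1.ofReal.mul_const
        (Complex.exp (2 * π * Complex.I * ⟪z, ξ⟫_ℝ) * 𝓕 ψ ξ)
    · refine (hFψI.norm.const_mul (2 * gam n)).congr ?_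
      filter_upwards [hae 0] with ξ hξ
      have hξ0 : 0 < ‖ξ‖ := norm_pos_iff.mpr hξ
      have h1 : ∫ s, ‖Function.uncurry H (ξ, s)‖ ∂ν = ∫ s in Ioi 0,
          (s⁻¹ * ((π / s) ^ ((n : ℝ) / 2) * Real.exp (-(π ^ 2 * ‖ξ‖ ^ 2 / s))) *
            (2 * π * ‖ξ‖) ^ n) * ‖𝓕 ψ ξ‖ := by
        refine setIntegral_congr_fun measurableSet_Ioi fun s (hs : 0 < s) => ?_
        simp only [Function.uncurry_apply_pair, hH]
        rw [norm_mul, norm_mul, hexp, one_mul, Complex.norm_real, Real.norm_eq_abs,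
          abs_of_nonneg (by positivity)]
      rw [h1, integral_mul_const, (H1_scale hn hξ0).2]
  -- equality of the inner integrals
  have hC' : ∫ s, (∫ x, F x s) ∂ν = ∫ s, (∫ ξ, H ξ s) ∂ν := by
    refine setIntegral_congr_fun measurableSet_Ioi fun s (hs : 0 < s) => ?_
    have hΨI := H1_intΨ h
    have hGI : Integrable (fun x => ((Real.exp (-(‖x - z‖ ^ 2 * s)) : ℝ) : ℂ) * Ψ x) := by
      refine hΨI.bdd_mul (c := 1) ?_ (ae_of_all _ fun x => ?_)
      · exact (by fun_prop : Continuous fun x : E n =>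
          ((Real.exp (-(‖x - z‖ ^ 2 * s)) : ℝ) : ℂ)).aestronglyMeasurable
      · rw [Complex.norm_real, Real.norm_eq_abs, Real.abs_exp, Real.exp_le_one_iff]
        have := mul_nonneg (sq_nonneg ‖x - z‖) hs.le
        linarith
    have h1 : ∀ x, F x s = ((s⁻¹ : ℝ) : ℂ) * (((Real.exp (-(‖x - z‖ ^ 2 * s)) : ℝ) : ℂ) * Ψ x)
        - ((s⁻¹ * Real.exp (-s) : ℝ) : ℂ) * Ψ x := fun x => by
      simp only [hF]
      push_cast
      ring
    simp_rw [h1]
    rw [integral_sub (hGI.const_mul _) (hΨI.const_mul _), integral_const_mul, integral_const_mul,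
      H1_zero hn h, mul_zero, sub_zero, H1_gauss h z hs, ← integral_const_mul]
    congr 1
    ext ξ
    rw [h.rel]
    simp only [hH]
    push_cast
    ring
  have hD : ∫ ξ, ∫ s, H ξ s ∂ν = 2 * (gam n : ℂ) * ψ z := by
    have h1 : ∫ ξ, ∫ s, H ξ s ∂ν = ∫ ξ : E n, 2 * (gam n : ℂ) *
        (Complex.exp ((↑(2 * π * ⟪ξ, z⟫_ℝ) * Complex.I)) • 𝓕 ψ ξ) := by
      refine integral_congr_ae ?_
      filter_upwards [hae 0] with ξ hξ
      simp only [hH]
      rw [integral_mul_const, integral_complex_ofReal, (H1_scale hn (norm_pos_iff.mpr hξ)).2,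
        smul_eq_mul, real_inner_comm]
      push_cast
      ring_nf
    rw [h1, integral_const_mul, ← Real.fourierInv_eq',
      h.intψ.fourierInv_fourier_eq hFψI h.contψ.continuousAt]
  rw [hA, integral_integral_swap hFI, hC', ← integral_integral_swap hHI, hD]
  ring

end Pool.Agent.QGlue
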