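import Pool.Agent.QGlue.DefsH

/-! # Quadratic polynomials are annihilated by `(-Δ)^{n/2}` of test functions -/

set_option autoImplicit false

namespace Pool.Agent.QGlue

open MeasureTheory Real Set Filter Topology
open scoped FourierTransform SchwartzMap ContDiff Laplacian

/-- `∫ Ψ = 0`. -/
theorem test_one {n : ℕ} (hn : n = 3 ∨ n = 4) {ψ Ψ : E n → ℂ} (h : TestPair n ψ Ψ) :
    ∫ x, Ψ x = 0 := by
  have hr := h.rel 0
  have hn0 : n ≠ 0 := by rcases hn with h | h <;> omega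
  rw [Real.fourier_eq'] at hr
  simpa [hn0] using hr

private noncomputable def H2F {n : ℕ} (Ψ : E n → ℂ) (i : Fin n) (t : ℝ) : ℂ :=
  ∫ x : E n, Complex.exp (((t * x i : ℝ) : ℂ) * Complex.I) * Ψ x

private theorem H2_norm {n : ℕ} {ψ Ψ : E n → ℂ} (h : TestPair n ψ Ψ) (i : Fin n) (t : ℝ) :
    ‖H2F Ψ i t‖ ≤ |t| ^ n * ∫ x, ‖ψ x‖ := by
  have h1 : H2F Ψ i t = 𝓕 Ψ ((-(t / (2 * π))) • EuclideanSpace.single i (1 : ℝ)) := by
    rw [Real.fourier_eq', H2F]
    congr 1
    funext x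
    rw [smul_eq_mul]
    congr 3
    rw [inner_smul_right]
    simp only [EuclideanSpace.inner_single_right]
    have hpi : π ≠ 0 := Real.pi_ne_zero
    simp
    field_simp
  rw [h1, h.rel, norm_mul]
  have h2 : ‖(((2 * π * ‖(-(t / (2 * π))) • (EuclideanSpace.single i (1 : ℝ) : E n)‖) ^ n : ℝ) : ℂ)‖
      = |t| ^ n := by
    rw [norm_smul]
    have hpi : (0 : ℝ) < π := Real.pi_pos
    rw [Complex.norm_real, PiLp.norm_single, norm_pow]
    congr 1
    simp only [norm_neg, norm_one, mul_one, Real.norm_eq_abs, abs_mul, abs_div, abs_abs,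
      abs_of_pos hpi]
    norm_num
    field_simp
  rw [h2]
  gcongr
  exact VectorFourier.norm_fourierIntegral_le_integral_norm _ _ _ _ _

private theorem H2_aesm {n : ℕ} {ψ Ψ : E n → ℂ} (h : TestPair n ψ Ψ) :
    AEStronglyMeasurable Ψ := h.contΨ.aestronglyMeasurable

private theorem H2_int0 {n : ℕ} {ψ Ψ : E n → ℂ} (h : TestPair n ψ Ψ) : Integrable Ψ := by
  refine h.intΨ.mono' (H2_aesm h) (ae_of_all _ fun x => ?_)
  nlinarith [norm_nonneg (Ψ x), sq_nonneg ‖x‖, mul_nonneg (sq_nonneg ‖x‖) (norm_nonneg (Ψ x))]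

private theorem H2_coord {n : ℕ} (x : E n) (i : Fin n) : |x i| ≤ ‖x‖ := by
  have := PiLp.norm_apply_le x i
  simpa using this

private theorem H2_int1 {n : ℕ} {ψ Ψ : E n → ℂ} (h : TestPair n ψ Ψ) (i : Fin n) :
    Integrable (fun x : E n => |x i| * ‖Ψ x‖) := by
  refine h.intΨ.mono' ?_ (ae_of_all _ fun x => ?_)
  · exact ((by fun_prop : Continuous fun x : E n => |x i|).mul h.contΨ.norm).aestronglyMeasurable
  · rw [norm_mul, norm_norm, Real.norm_eq_abs, abs_abs]
    gcongr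
    nlinarith [H2_coord x i, sq_nonneg (‖x‖ - 1), norm_nonneg x]

private theorem H2_int2 {n : ℕ} {ψ Ψ : E n → ℂ} (h : TestPair n ψ Ψ) (i : Fin n) :
    Integrable (fun x : E n => |x i| ^ 2 * ‖Ψ x‖) := by
  refine h.intΨ.mono' ?_ (ae_of_all _ fun x => ?_)
  · exact ((by fun_prop : Continuous fun x : E n => |x i| ^ 2).mul
      h.contΨ.norm).aestronglyMeasurable
  · rw [norm_mul, norm_norm, norm_pow, Real.norm_eq_abs, abs_abs]
    gcongr
    nlinarith [H2_coord x i, norm_nonneg x, abs_nonneg (x i)]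

private theorem H2_expint {n : ℕ} {ψ Ψ : E n → ℂ} (h : TestPair n ψ Ψ) (i : Fin n) (t : ℝ) :
    Integrable (fun x : E n => Complex.exp (((t * x i : ℝ) : ℂ) * Complex.I) * Ψ x) := by
  refine (H2_int0 h).norm.mono' ?_ (ae_of_all _ fun x => ?_)
  · exact ((by fun_prop : Continuous fun x : E n =>
      Complex.exp (((t * x i : ℝ) : ℂ) * Complex.I)).mul h.contΨ).aestronglyMeasurable
  · rw [norm_mul, Complex.norm_exp_ofReal_mul_I, one_mul]

private theorem H2_sinlim (a : ℝ) :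
    Tendsto (fun t : ℝ => Real.sin (t * a) / t) (𝓝[≠] 0) (𝓝 a) := by
  have h1 : HasDerivAt (fun t : ℝ => Real.sin (t * a)) (Real.cos (0 * a) * (1 * a)) 0 :=
    ((hasDerivAt_id (0 : ℝ)).mul_const a).sin
  have h2 := h1.tendsto_slope_zero
  simp only [zero_mul, Real.cos_zero, one_mul, zero_add, Real.sin_zero, sub_zero,
    smul_eq_mul] at h2
  refine h2.congr fun t => ?_
  rw [div_eq_inv_mul]

private theorem H2_sinbd (t a : ℝ) : |Real.sin (t * a) / t| ≤ |a| := by
  rcases eq_or_ne t 0 with rfl | ht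
  · simp
  rw [abs_div, div_le_iff₀ (abs_pos.2 ht), mul_comm, ← abs_mul]
  exact Real.abs_sin_le_abs

private theorem H2_pow_tendsto {k : ℕ} (hk : k ≠ 0) (C : ℝ) :
    Tendsto (fun t : ℝ => |t| ^ k * C) (𝓝[≠] 0) (𝓝 0) := by
  have h1 : Continuous fun t : ℝ => |t| ^ k * C := by fun_prop
  have h2 := h1.tendsto 0
  simp only [abs_zero, ne_eq, hk, not_false_eq_true, zero_pow, zero_mul] at h2
  exact h2.mono_left nhdsWithin_le_nhds

private theorem H2_lin {n : ℕ} (hn : n = 3 ∨ n = 4) {ψ Ψ : E n → ℂ} (h : TestPair n ψ Ψ)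
    (i : Fin n) : ∫ x : E n, (x i : ℂ) * Ψ x = 0 := by
  have hlim : Tendsto (fun t : ℝ => ∫ x : E n, ((Real.sin (t * x i) / t : ℝ) : ℂ) * Ψ x)
      (𝓝[≠] 0) (𝓝 (∫ x : E n, (x i : ℂ) * Ψ x)) := by
    refine tendsto_integral_filter_of_dominated_convergence (fun x => |x i| * ‖Ψ x‖) ?_ ?_
      (H2_int1 h i) ?_
    · refine Eventually.of_forall fun t => ?_
      exact ((by fun_prop : Continuous fun x : E n =>
        ((Real.sin (t * x i) / t : ℝ) : ℂ)).mul h.contΨ).aestronglyMeasurable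
    · refine Eventually.of_forall fun t => ae_of_all _ fun x => ?_
      rw [norm_mul, Complex.norm_real, Real.norm_eq_abs]
      exact mul_le_mul_of_nonneg_right (H2_sinbd t (x i)) (norm_nonneg _)
    · refine ae_of_all _ fun x => ?_
      exact ((Complex.continuous_ofReal.tendsto _).comp (H2_sinlim (x i))).mul_const _
  have heq : ∀ t : ℝ, ∫ x : E n, ((Real.sin (t * x i) / t : ℝ) : ℂ) * Ψ x =
      (H2F Ψ i t - H2F Ψ i (-t)) / (2 * Complex.I * t) := by
    intro t
    rw [H2F, H2F, ← integral_sub (H2_expint h i t) (H2_expint h i (-t)), ← integral_div]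
    congr 1
    funext x
    have h1 : Complex.exp (((t * x i : ℝ) : ℂ) * Complex.I) =
        Real.cos (t * x i) + Real.sin (t * x i) * Complex.I := by
      rw [Complex.exp_mul_I, Complex.ofReal_cos, Complex.ofReal_sin]
    have h2 : Complex.exp (((-t * x i : ℝ) : ℂ) * Complex.I) =
        Real.cos (t * x i) - Real.sin (t * x i) * Complex.I := by
      rw [neg_mul, Complex.exp_mul_I, ← Complex.ofReal_cos, ← Complex.ofReal_sin, Real.cos_neg,
        Real.sin_neg]
      push_cast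
      ring
    rw [h1, h2]
    rcases eq_or_ne t 0 with rfl | ht
    · simp
    · have : (t : ℂ) ≠ 0 := by exact_mod_cast ht
      have hI : Complex.I ≠ 0 := Complex.I_ne_zero
      push_cast
      field_simp
      ring
  have hzero : Tendsto (fun t : ℝ => ∫ x : E n, ((Real.sin (t * x i) / t : ℝ) : ℂ) * Ψ x)
      (𝓝[≠] 0) (𝓝 0) := by
    have hk : n - 1 ≠ 0 := by rcases hn with h | h <;> omega
    refine squeeze_zero_norm' ?_ (H2_pow_tendsto hk (∫ x, ‖ψ x‖))
    filter_upwards [self_mem_nhdsWithin] with t ht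
    have ht' : t ≠ 0 := ht
    have ht0 : 0 < |t| := abs_pos.2 ht'
    rw [heq, norm_div]
    have h3 : ‖(2 * Complex.I * (t : ℂ))‖ = 2 * |t| := by simp
    rw [h3, div_le_iff₀ (by positivity)]
    have h4 := H2_norm h i t
    have h5 := H2_norm h i (-t)
    rw [abs_neg] at h5
    have h6 : |t| ^ n = |t| ^ (n - 1) * |t| := by
      rw [← pow_succ]
      congr 1
      omega
    calc ‖H2F Ψ i t - H2F Ψ i (-t)‖ ≤ ‖H2F Ψ i t‖ + ‖H2F Ψ i (-t)‖ := norm_sub_le _ _
      _ ≤ |t| ^ n * (∫ x, ‖ψ x‖) + |t| ^ n * ∫ x, ‖ψ x‖ := add_le_add h4 h5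
      _ = |t| ^ (n - 1) * (∫ x, ‖ψ x‖) * (2 * |t|) := by rw [h6]; ring
  exact tendsto_nhds_unique hlim hzero

private theorem H2_quad {n : ℕ} (hn : n = 3 ∨ n = 4) {ψ Ψ : E n → ℂ} (h : TestPair n ψ Ψ)
    (i : Fin n) : ∫ x : E n, ((x i : ℂ) ^ 2) * Ψ x = 0 := by
  have hlim : Tendsto (fun t : ℝ => ∫ x : E n,
      (((Real.sin (t * x i) / t) ^ 2 : ℝ) : ℂ) * Ψ x)
      (𝓝[≠] 0) (𝓝 (∫ x : E n, ((x i : ℂ) ^ 2) * Ψ x)) := by
    refine tendsto_integral_filter_of_dominated_convergence (fun x => |x i| ^ 2 * ‖Ψ x‖) ?_ ?_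
      (H2_int2 h i) ?_
    · refine Eventually.of_forall fun t => ?_
      exact ((by fun_prop : Continuous fun x : E n =>
        (((Real.sin (t * x i) / t) ^ 2 : ℝ) : ℂ)).mul h.contΨ).aestronglyMeasurable
    · refine Eventually.of_forall fun t => ae_of_all _ fun x => ?_
      rw [norm_mul, Complex.norm_real, norm_pow, Real.norm_eq_abs]
      exact mul_le_mul_of_nonneg_right (pow_le_pow_left₀ (abs_nonneg _) (H2_sinbd t (x i)) 2)
        (norm_nonneg _)
    · refine ae_of_all _ fun x => ?_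
      have := (((Complex.continuous_ofReal.tendsto _).comp
        ((H2_sinlim (x i)).pow 2))).mul_const (Ψ x)
      simpa using this
  have heq : ∀ t : ℝ, ∫ x : E n, (((Real.sin (t * x i) / t) ^ 2 : ℝ) : ℂ) * Ψ x =
      (2 * H2F Ψ i 0 - H2F Ψ i (2 * t) - H2F Ψ i (-(2 * t))) / (4 * t ^ 2) := by
    intro t
    have hs := ((H2_expint h i 0).const_mul 2).sub (H2_expint h i (2 * t))
    simp only [Pi.sub_def] at hs
    rw [H2F, H2F, H2F, ← integral_const_mul, ← integral_sub ((H2_expint h i 0).const_mul 2)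
      (H2_expint h i (2 * t)), ← integral_sub hs (H2_expint h i (-(2 * t))), ← integral_div]
    congr 1
    funext x
    have h0 : Complex.exp (((0 * x i : ℝ) : ℂ) * Complex.I) = 1 := by simp
    have h1 : Complex.exp (((2 * t * x i : ℝ) : ℂ) * Complex.I) =
        Real.cos (2 * (t * x i)) + Real.sin (2 * (t * x i)) * Complex.I := by
      rw [Complex.exp_mul_I, Complex.ofReal_cos, Complex.ofReal_sin, mul_assoc]
    have h2 : Complex.exp (((-(2 * t) * x i : ℝ) : ℂ) * Complex.I) =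
        Real.cos (2 * (t * x i)) - Real.sin (2 * (t * x i)) * Complex.I := by
      rw [neg_mul, Complex.exp_mul_I, ← Complex.ofReal_cos, ← Complex.ofReal_sin, Real.cos_neg,
        Real.sin_neg, mul_assoc]
      push_cast
      ring
    have h3 : Real.cos (2 * (t * x i)) = 1 - 2 * Real.sin (t * x i) ^ 2 := by
      rw [Real.cos_two_mul]
      nlinarith [Real.sin_sq_add_cos_sq (t * x i)]
    rw [h0, h1, h2, h3]
    rcases eq_or_ne t 0 with rfl | ht
    · simp
    · have : (t : ℂ) ≠ 0 := by exact_mod_cast ht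
      push_cast
      field_simp
      ring
  have hzero : Tendsto (fun t : ℝ => ∫ x : E n, (((Real.sin (t * x i) / t) ^ 2 : ℝ) : ℂ) * Ψ x)
      (𝓝[≠] 0) (𝓝 0) := by
    have hk : n - 2 ≠ 0 := by rcases hn with h | h <;> omega
    refine squeeze_zero_norm' ?_ (H2_pow_tendsto hk (2 ^ n * ∫ x, ‖ψ x‖))
    filter_upwards [self_mem_nhdsWithin] with t ht
    have ht' : t ≠ 0 := ht
    have ht0 : 0 < |t| := abs_pos.2 ht'
    rw [heq, norm_div]
    have h3 : ‖(4 * (t : ℂ) ^ 2)‖ = 4 * |t| ^ 2 := by simp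
    rw [h3, div_le_iff₀ (by positivity)]
    have h40 := H2_norm h i 0
    have h4 := H2_norm h i (2 * t)
    have h5 := H2_norm h i (-(2 * t))
    have hn0 : n ≠ 0 := by rcases hn with h | h <;> omega
    rw [abs_zero, zero_pow hn0, zero_mul] at h40
    have h41 : H2F Ψ i 0 = 0 := norm_le_zero_iff.1 h40
    rw [abs_neg] at h5
    have h6 : |t| ^ n = |t| ^ (n - 2) * |t| ^ 2 := by
      rw [← pow_add]
      congr 1
      omega
    have h7 : |2 * t| ^ n = 2 ^ n * |t| ^ n := by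
      rw [abs_mul, mul_pow, abs_of_pos (by norm_num : (0 : ℝ) < 2)]
    have hI : 0 ≤ ∫ x, ‖ψ x‖ := integral_nonneg fun x => norm_nonneg _
    rw [h41, mul_zero, zero_sub]
    calc ‖-H2F Ψ i (2 * t) - H2F Ψ i (-(2 * t))‖
        ≤ ‖-H2F Ψ i (2 * t)‖ + ‖H2F Ψ i (-(2 * t))‖ := norm_sub_le _ _
      _ ≤ |2 * t| ^ n * (∫ x, ‖ψ x‖) + |2 * t| ^ n * ∫ x, ‖ψ x‖ := by
        rw [norm_neg]
        exact add_le_add h4 h5
      _ = |t| ^ (n - 2) * (2 ^ n * ∫ x, ‖ψ x‖) * (2 * |t| ^ 2) := by rw [h7, h6]; ring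
      _ ≤ |t| ^ (n - 2) * (2 ^ n * ∫ x, ‖ψ x‖) * (4 * |t| ^ 2) := by
        gcongr
        norm_num
  exact tendsto_nhds_unique hlim hzero

/-- Quadratic polynomials are annihilated. -/
theorem test_pol {n : ℕ} (hn : n = 3 ∨ n = 4) {ψ Ψ : E n → ℂ} (h : TestPair n ψ Ψ) (P : Pol n) :
    Integrable (fun x => (P.eval x : ℂ) * Ψ x) ∧ ∫ x, (P.eval x : ℂ) * Ψ x = 0 := by
  have h1 : ∀ i : Fin n, Integrable (fun x : E n => (x i : ℂ) * Ψ x) := by
    intro i
    refine (H2_int1 h i).mono' ?_ (ae_of_all _ fun x => ?_)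
    · exact ((by fun_prop : Continuous fun x : E n => (x i : ℂ)).mul
        h.contΨ).aestronglyMeasurable
    · rw [norm_mul, Complex.norm_real, Real.norm_eq_abs]
  have h2 : ∀ i : Fin n, Integrable (fun x : E n => (x i : ℂ) ^ 2 * Ψ x) := by
    intro i
    refine (H2_int2 h i).mono' ?_ (ae_of_all _ fun x => ?_)
    · exact ((by fun_prop : Continuous fun x : E n => (x i : ℂ) ^ 2).mul
        h.contΨ).aestronglyMeasurable
    · rw [norm_mul, norm_pow, Complex.norm_real, Real.norm_eq_abs]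
  have h3 : (fun x : E n => (P.eval x : ℂ) * Ψ x) = fun x : E n =>
      ∑ i, ((P.g i : ℂ) * ((x i : ℂ) * Ψ x) - (P.b i : ℂ) * ((x i : ℂ) ^ 2 * Ψ x)) := by
    funext x
    rw [Pol.eval, Complex.ofReal_sum, Finset.sum_mul]
    refine Finset.sum_congr rfl fun i _ => ?_
    push_cast
    ring
  have h4 : ∀ i ∈ (Finset.univ : Finset (Fin n)), Integrable (fun x : E n =>
      ((P.g i : ℂ) * ((x i : ℂ) * Ψ x) - (P.b i : ℂ) * ((x i : ℂ) ^ 2 * Ψ x))) := by
    intro i _
    exact ((h1 i).const_mul _).sub ((h2 i).const_mul _)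
  rw [h3]
  refine ⟨integrable_finsetSum _ h4, ?_⟩
  rw [integral_finsetSum _ h4]
  refine Finset.sum_eq_zero fun i _ => ?_
  rw [integral_sub ((h1 i).const_mul _) ((h2 i).const_mul _), integral_const_mul,
    integral_const_mul, H2_lin hn h i, H2_quad hn h i]
  simp

end Pool.Agent.QGlue
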