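import Pool.Agent.QGlue.H3Core
import Pool.Agent.QGlue.H1
import Pool.Agent.QGlue.H2

/-! # Integral equation implies the weak equation (H3) -/

set_option autoImplicit false
set_option linter.unusedVariables false

namespace Pool.Agent.QGlue

open MeasureTheory Real Set Filter Topology
open scoped FourierTransform SchwartzMap ContDiff Laplacian

theorem IntSol.weak {n : ℕ} (hn : n = 3 ∨ n = 4) {α : ℝ} (hα : -1 < α) {u : E n → ℝ}
    (h : IntSol n α u) {ψ Ψ : E n → ℂ} (ht : TestPair n ψ Ψ) :
    Integrable (fun x => (u x : ℂ) * Ψ x) ∧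
    ∫ x, (u x : ℂ) * Ψ x = ∫ x, ((‖x‖ ^ (n * α) * Real.exp (n * u x) : ℝ) : ℂ) * ψ x :=
  IntSol.weak_of hn (fun h z => log_test hn h z) (fun h => test_one hn h)
    (fun h P => test_pol hn h P) h ht

end Pool.Agent.QGlue
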