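import Pool.Agent.QGlue.DefsH

/-! # Integral equation implies the weak equation (H3), from H1 and H2 -/

set_option autoImplicit false
set_option linter.unusedVariables false

namespace Pool.Agent.QGlue

open MeasureTheory Real Set Filter Topology
open scoped FourierTransform SchwartzMap ContDiff Laplacian

namespace H3

/-- The local part of `|log ‖y‖|`. -/
noncomputable def lloc {n : ℕ} (y : E n) : ℝ := (Metric.ball (0 : E n) 1).indicator
  (fun y => |Real.log ‖y‖|) y

theorem lloc_nonneg {n : ℕ} (y : E n) : 0 ≤ lloc y := by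
  unfold lloc
  exact indicator_nonneg (fun _ _ => abs_nonneg _) _

theorem integrable_lloc {n : ℕ} (hn : 2 ≤ n) : Integrable (lloc : E n → ℝ) := by
  have : Nontrivial (E n) := by
    have : Nonempty (Fin n) := ⟨⟨0, by omega⟩⟩
    infer_instance
  unfold lloc
  rw [integrable_indicator_iff Metric.isOpen_ball.measurableSet]
  rw [integrableOn_fun_norm_addHaar volume (f := fun r => |Real.log r|)]
  have hd : Module.finrank ℝ (E n) = n := by simp
  rw [hd]
  refine Measure.integrableOn_of_bounded (M := 1) (by simp) ?_ ?_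
  · apply Measurable.aestronglyMeasurable
    fun_prop
  · refine (ae_restrict_iff' measurableSet_Ioo).2 (Eventually.of_forall fun r hr => ?_)
    obtain ⟨h0, h1⟩ := hr
    have hlog : |Real.log r| ≤ r⁻¹ := by
      rw [abs_of_nonpos (Real.log_nonpos h0.le h1.le), ← Real.log_inv]
      exact (Real.log_le_sub_one_of_pos (inv_pos.2 h0)).trans (by linarith)
    have hp : r ^ (n - 1) ≤ r := by
      calc r ^ (n - 1) ≤ r ^ 1 := pow_le_pow_of_le_one h0.le h1.le (by omega)
        _ = r := pow_one r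
    rw [smul_eq_mul, Real.norm_eq_abs, abs_mul, abs_abs, abs_of_nonneg (pow_nonneg h0.le _)]
    calc r ^ (n - 1) * |Real.log r| ≤ r * r⁻¹ :=
          mul_le_mul hp hlog (abs_nonneg _) h0.le
      _ = 1 := mul_inv_cancel₀ h0.ne'

theorem abs_log_le {n : ℕ} (y : E n) : |Real.log ‖y‖| ≤ ‖y‖ + lloc y := by
  unfold lloc
  by_cases h : y ∈ Metric.ball (0 : E n) 1
  · rw [indicator_of_mem h]
    linarith [norm_nonneg y]
  · rw [indicator_of_notMem h, add_zero]
    have h1 : 1 ≤ ‖y‖ := by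
      rw [mem_ball_zero_iff, not_lt] at h
      exact h
    rw [abs_of_nonneg (Real.log_nonneg h1)]
    exact (Real.log_le_sub_one_of_pos (by linarith)).trans (by linarith)

/-- The logarithm against a bounded weight with a first moment. -/
theorem log_weight {n : ℕ} (hn : 2 ≤ n) {w : E n → ℝ} (hw : Measurable w)
    {M : ℝ} (hM : ∀ x, |w x| ≤ M) (hw1 : Integrable (fun x => (1 + ‖x‖) * |w x|)) :
    ∃ C : ℝ, 0 ≤ C ∧ ∀ z : E n, Integrable (fun x => |Real.log ‖x - z‖| * |w x|) ∧
      ∫ x, |Real.log ‖x - z‖| * |w x| ≤ C * (1 + ‖z‖) := by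
  have hM0 : 0 ≤ M := (abs_nonneg _).trans (hM 0)
  have hint : Integrable (fun x => |w x|) := by
    refine hw1.mono' hw.norm.aestronglyMeasurable (Eventually.of_forall fun x => ?_)
    rw [Real.norm_eq_abs, abs_abs]
    exact le_mul_of_one_le_left (abs_nonneg _) (by linarith [norm_nonneg x])
  set I1 := ∫ x, (1 + ‖x‖) * |w x| with hI1
  set I2 := ∫ x, (lloc x : ℝ) with hI2
  have hI1' : 0 ≤ I1 := integral_nonneg fun x => by positivity
  have hI2' : 0 ≤ I2 := integral_nonneg fun x => lloc_nonneg (n := n) x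
  refine ⟨I1 + M * I2, by positivity, fun z => ?_⟩
  have hl : Integrable (fun x => lloc (x - z)) := (integrable_lloc hn).comp_sub_right z
  have hdom : Integrable (fun x => (1 + ‖z‖) * ((1 + ‖x‖) * |w x|) + M * lloc (x - z)) :=
    (hw1.const_mul _).add (hl.const_mul _)
  have hpt : ∀ x, |Real.log ‖x - z‖| * |w x| ≤
      (1 + ‖z‖) * ((1 + ‖x‖) * |w x|) + M * lloc (x - z) := by
    intro x
    have h1 : ‖x - z‖ ≤ (1 + ‖z‖) * (1 + ‖x‖) := by
      have := norm_sub_le x z
      nlinarith [norm_nonneg x, norm_nonneg z, mul_nonneg (norm_nonneg x) (norm_nonneg z)]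
    calc |Real.log ‖x - z‖| * |w x| ≤ (‖x - z‖ + lloc (x - z)) * |w x| :=
          mul_le_mul_of_nonneg_right (abs_log_le _) (abs_nonneg _)
      _ = ‖x - z‖ * |w x| + |w x| * lloc (x - z) := by ring
      _ ≤ (1 + ‖z‖) * (1 + ‖x‖) * |w x| + M * lloc (x - z) :=
          add_le_add (mul_le_mul_of_nonneg_right h1 (abs_nonneg _))
            (mul_le_mul_of_nonneg_right (hM x) (lloc_nonneg _))
      _ = _ := by ring
  have hmeas : AEStronglyMeasurable (fun x => |Real.log ‖x - z‖| * |w x|) volume := by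
    apply Measurable.aestronglyMeasurable
    have : Measurable fun x : E n => Real.log ‖x - z‖ :=
      Real.measurable_log.comp (measurable_id.sub_const z).norm
    exact this.norm.mul hw.norm
  have hi : Integrable (fun x => |Real.log ‖x - z‖| * |w x|) := by
    refine hdom.mono' hmeas (Eventually.of_forall fun x => ?_)
    rw [Real.norm_eq_abs, abs_of_nonneg (by positivity)]
    exact hpt x
  refine ⟨hi, ?_⟩
  calc ∫ x, |Real.log ‖x - z‖| * |w x|
      ≤ ∫ x, ((1 + ‖z‖) * ((1 + ‖x‖) * |w x|) + M * lloc (x - z)) :=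
        integral_mono hi hdom hpt
    _ = (1 + ‖z‖) * I1 + M * I2 := by
        rw [integral_add (hw1.const_mul _) (hl.const_mul _), integral_const_mul,
          integral_const_mul, integral_sub_right_eq_self (fun x => lloc x) z]
    _ ≤ (I1 + M * I2) * (1 + ‖z‖) := by
        nlinarith [mul_nonneg (mul_nonneg hM0 hI2') (norm_nonneg z)]

/-- The Fubini step. -/
theorem integrable_kernel {n : ℕ} (hn : 2 ≤ n) {ρ : E n → ℝ} (hρm : Measurable ρ)
    (hρ : Integrable (fun z => (1 + ‖z‖) * ρ z)) (hρ0 : ∀ z, 0 ≤ ρ z)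
    {W : E n → ℂ} (hW : Measurable W) {M : ℝ} (hM : ∀ x, ‖W x‖ ≤ M)
    (hW1 : Integrable (fun x => (1 + ‖x‖) * ‖W x‖)) :
    Integrable (fun p : E n × E n => ((Real.log ‖p.1 - p.2‖ * ρ p.2 : ℝ) : ℂ) * W p.1)
      (volume.prod volume) := by
  obtain ⟨C, hC0, hC⟩ := log_weight hn (w := fun x => ‖W x‖) hW.norm (M := M)
    (fun x => by rw [abs_of_nonneg (norm_nonneg _)]; exact hM x)
    (by
      refine hW1.congr (Eventually.of_forall fun x => ?_)
      simp only [abs_of_nonneg (norm_nonneg (W x))])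
  have hmeas : Measurable fun p : E n × E n =>
      ((Real.log ‖p.1 - p.2‖ * ρ p.2 : ℝ) : ℂ) * W p.1 := by
    have h1 : Measurable fun p : E n × E n => Real.log ‖p.1 - p.2‖ :=
      Real.measurable_log.comp (measurable_fst.sub measurable_snd).norm
    exact (Complex.measurable_ofReal.comp (h1.mul (hρm.comp measurable_snd))).mul
      (hW.comp measurable_fst)
  have hnorm : ∀ x z : E n, ‖((Real.log ‖x - z‖ * ρ z : ℝ) : ℂ) * W x‖ =
      ρ z * (|Real.log ‖x - z‖| * |‖W x‖|) := by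
    intro x z
    rw [norm_mul, Complex.norm_real, norm_mul, Real.norm_eq_abs, Real.norm_eq_abs,
      abs_of_nonneg (hρ0 z), abs_of_nonneg (norm_nonneg (W x))]
    ring
  rw [integrable_prod_iff' hmeas.aestronglyMeasurable]
  constructor
  · refine Eventually.of_forall fun z => ?_
    have h1 : Integrable (fun x => ρ z * (|Real.log ‖x - z‖| * |‖W x‖|)) :=
      (hC z).1.const_mul _
    refine h1.mono' ?_ (Eventually.of_forall fun x => ?_)
    · exact (hmeas.comp (measurable_id.prodMk measurable_const)).aestronglyMeasurable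
    · exact (hnorm x z).le
  · have h2 : Integrable (fun z => C * ((1 + ‖z‖) * ρ z)) := hρ.const_mul _
    refine h2.mono' ?_ (Eventually.of_forall fun z => ?_)
    · exact (hmeas.norm.stronglyMeasurable.integral_prod_left').aestronglyMeasurable
    · simp only [hnorm]
      rw [integral_const_mul, Real.norm_eq_abs, abs_of_nonneg (mul_nonneg (hρ0 z)
        (integral_nonneg fun x => by positivity))]
      calc ρ z * ∫ x, |Real.log ‖x - z‖| * |‖W x‖| ≤ ρ z * (C * (1 + ‖z‖)) :=
            mul_le_mul_of_nonneg_left (hC z).2 (hρ0 z)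
        _ = C * ((1 + ‖z‖) * ρ z) := by ring

/-- The potential against a weight. -/
theorem pot_weight {n : ℕ} (hn : 2 ≤ n) {ρ : E n → ℝ} (hρm : Measurable ρ)
    (hρ : Integrable (fun z => (1 + ‖z‖) * ρ z)) (hρ0 : ∀ z, 0 ≤ ρ z)
    {W : E n → ℂ} (hW : Measurable W) {M : ℝ} (hM : ∀ x, ‖W x‖ ≤ M)
    (hW1 : Integrable (fun x => (1 + ‖x‖) * ‖W x‖)) :
    Integrable (fun x => ((∫ z, Real.log ‖x - z‖ * ρ z : ℝ) : ℂ) * W x) ∧
    ∫ x, ((∫ z, Real.log ‖x - z‖ * ρ z : ℝ) : ℂ) * W x =
      ∫ z, (ρ z : ℂ) * ∫ x, ((Real.log ‖x - z‖ : ℝ) : ℂ) * W x := by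
  have hF := integrable_kernel hn hρm hρ hρ0 hW hM hW1
  have e1 : ∀ x, ((∫ z, Real.log ‖x - z‖ * ρ z : ℝ) : ℂ) * W x =
      ∫ z, ((Real.log ‖x - z‖ * ρ z : ℝ) : ℂ) * W x := by
    intro x
    rw [integral_mul_const, integral_complex_ofReal]
  constructor
  · have := hF.integral_prod_left
    refine this.congr (Eventually.of_forall fun x => ?_)
    exact (e1 x).symm
  · calc ∫ x, ((∫ z, Real.log ‖x - z‖ * ρ z : ℝ) : ℂ) * W x
        = ∫ x, ∫ z, ((Real.log ‖x - z‖ * ρ z : ℝ) : ℂ) * W x := by simp only [e1]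
      _ = ∫ z, ∫ x, ((Real.log ‖x - z‖ * ρ z : ℝ) : ℂ) * W x :=
          integral_integral_swap hF
      _ = _ := by
          congr 1
          ext z
          rw [← integral_const_mul]
          congr 1
          ext x
          push_cast
          ring

theorem pol_continuous {n : ℕ} (P : Pol n) : Continuous (fun x : E n => P.eval x) := by
  unfold Pol.eval
  fun_prop

/-- `|P x| ≤ C (1 + ‖x‖ ^ 2)`. -/
theorem pol_bound {n : ℕ} (P : Pol n) : ∃ C : ℝ, 0 ≤ C ∧ ∀ x : E n, |P.eval x| ≤ C * (1 + ‖x‖ ^ 2) := by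
  refine ⟨∑ i, (|P.g i| + |P.b i|), Finset.sum_nonneg fun i _ => by positivity, fun x => ?_⟩
  unfold Pol.eval
  rw [Finset.sum_mul]
  refine (Finset.abs_sum_le_sum_abs _ _).trans (Finset.sum_le_sum fun i _ => ?_)
  have hx : |x i| ≤ ‖x‖ := by
    have := PiLp.norm_apply_le x i
    simpa using this
  have h1 : |x i| ≤ 1 + ‖x‖ ^ 2 := by nlinarith [norm_nonneg x, sq_nonneg (‖x‖ - 1)]
  have h2 : |x i| ^ 2 ≤ 1 + ‖x‖ ^ 2 := by
    have := pow_le_pow_left₀ (abs_nonneg _) hx 2
    linarith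
  calc |P.g i * x i - P.b i * x i ^ 2| ≤ |P.g i * x i| + |P.b i * x i ^ 2| := abs_sub _ _
    _ = |P.g i| * |x i| + |P.b i| * |x i| ^ 2 := by
        rw [abs_mul, abs_mul, abs_pow]
    _ ≤ |P.g i| * (1 + ‖x‖ ^ 2) + |P.b i| * (1 + ‖x‖ ^ 2) :=
        add_le_add (mul_le_mul_of_nonneg_left h1 (abs_nonneg _))
          (mul_le_mul_of_nonneg_left h2 (abs_nonneg _))
    _ = _ := by ring

/-- The density of a solution. -/
noncomputable def rho (n : ℕ) (α : ℝ) (u : E n → ℝ) (x : E n) : ℝ :=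
  ‖x‖ ^ (n * α) * Real.exp (n * u x)

theorem rho_nonneg (n : ℕ) (α : ℝ) (u : E n → ℝ) (x : E n) : 0 ≤ rho n α u x := by
  unfold rho
  positivity

theorem rho_measurable {n : ℕ} {α : ℝ} {u : E n → ℝ} (hu : Measurable u) :
    Measurable (rho n α u) := by
  unfold rho
  exact (measurable_norm.pow_const _).mul (Real.measurable_exp.comp (hu.const_mul _))

end H3

open H3

theorem IntSol.loc {n : ℕ} (hn : n = 3 ∨ n = 4) {α : ℝ} (hα : -1 < α) {u : E n → ℝ}
    (h : IntSol n α u) : LocallyIntegrable u := by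
  have hn2 : 2 ≤ n := by omega
  obtain ⟨hum, hρ, P, c, hu⟩ := h
  have hρm := rho_measurable (n := n) (α := α) hum
  have hV : LocallyIntegrable (fun x => ∫ z, Real.log ‖x - z‖ * rho n α u z) := by
    intro x₀
    set B := Metric.ball x₀ 1 with hB
    have hBm : MeasurableSet B := Metric.isOpen_ball.measurableSet
    refine ⟨B, Metric.ball_mem_nhds x₀ one_pos, ?_⟩
    have hbi : Integrable (fun x : E n => (1 + ‖x‖) * ‖B.indicator (fun _ => (1 : ℂ)) x‖) := by
      have h1 : (fun x : E n => (1 + ‖x‖) * ‖B.indicator (fun _ => (1 : ℂ)) x‖) =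
          B.indicator (fun x => 1 + ‖x‖) := by
        ext x
        by_cases hx : x ∈ B
        · simp [hx]
        · simp [hx]
      rw [h1, integrable_indicator_iff hBm]
      have h2 : IntegrableOn (fun x : E n => 1 + ‖x‖) (Metric.closedBall x₀ 1) := by
        apply ContinuousOn.integrableOn_compact (isCompact_closedBall _ _)
        fun_prop
      exact h2.mono_set Metric.ball_subset_closedBall
    have h1 := (pot_weight hn2 hρm hρ (rho_nonneg n α u)
      (W := B.indicator fun _ => (1 : ℂ)) (measurable_const.indicator hBm) (M := 1) (fun x => by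
        by_cases hx : x ∈ B
        · simp [hx]
        · simp [hx]) hbi).1
    rw [← integrable_indicator_iff hBm]
    have h2 := h1.re
    refine h2.congr (Eventually.of_forall fun x => ?_)
    by_cases hx : x ∈ B
    · simp [hx]
    · simp [hx]
  have e : u = fun x => (- (1 / gam n)) * (∫ z, Real.log ‖x - z‖ * rho n α u z) +
      (P.eval x + c) := by
    ext x
    rw [hu x, add_assoc]
    rfl
  rw [e]
  refine LocallyIntegrable.add ?_ ?_
  · intro x₀
    obtain ⟨s, hs, hi⟩ := hV x₀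
    exact ⟨s, hs, hi.const_mul _⟩
  · exact ((pol_continuous P).add continuous_const).locallyIntegrable

theorem H3.weight_integrable : Integrable (fun x : E 3 => (1 + ‖x‖ ^ 2) * (1 / (1 + ‖x‖ ^ 6))) := by
  have h1 : Integrable (fun x : E 3 => (1 + ‖x‖) ^ (-(4 : ℝ))) := by
    apply integrable_one_add_norm
    simp
    norm_num
  have h2 := h1.const_mul 32
  refine h2.mono' ?_ (Eventually.of_forall fun x => ?_)
  · apply Continuous.aestronglyMeasurable
    have : ∀ x : E 3, 1 + ‖x‖ ^ 6 ≠ 0 := fun x => by positivity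
    fun_prop (disch := assumption)
  · have ht := norm_nonneg x
    set t := ‖x‖ with ht'
    rw [Real.norm_eq_abs, abs_of_nonneg (by positivity), Real.rpow_neg (by positivity),
      show (4 : ℝ) = ((4 : ℕ) : ℝ) by norm_num, Real.rpow_natCast, mul_one_div,
      div_le_iff₀ (by positivity), ← div_eq_mul_inv, div_mul_eq_mul_div, le_div_iff₀ (by positivity)]
    have h3 := add_pow_le (zero_le_one' ℝ) ht 6
    norm_num at h3
    have h4 : 1 + t ^ 2 ≤ (1 + t) ^ 2 := by nlinarith
    calc (1 + t ^ 2) * (1 + t) ^ 4 ≤ (1 + t) ^ 2 * (1 + t) ^ 4 :=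
          mul_le_mul_of_nonneg_right h4 (by positivity)
      _ = (1 + t) ^ 6 := by ring
      _ ≤ 32 * (1 + t ^ 6) := h3

theorem IntSol.weight {α : ℝ} (hα : -1 < α) {u : E 3 → ℝ}
    (h : IntSol 3 α u) : Integrable (fun x : E 3 => |u x| / (1 + ‖x‖ ^ 6)) := by
  obtain ⟨hum, hρ, P, c, hu⟩ := h
  have hρm := rho_measurable (n := 3) (α := α) hum
  set W : E 3 → ℂ := fun x => ((1 / (1 + ‖x‖ ^ 6) : ℝ) : ℂ) with hW
  have hWm : Measurable W := by
    rw [hW]
    fun_prop
  have hWn : ∀ x, ‖W x‖ = 1 / (1 + ‖x‖ ^ 6) := by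
    intro x
    rw [hW]
    simp only
    rw [Complex.norm_real, Real.norm_eq_abs, abs_of_nonneg (by positivity)]
  have hwi := H3.weight_integrable
  have hW1 : Integrable (fun x => (1 + ‖x‖) * ‖W x‖) := by
    refine (hwi.const_mul 2).mono' (by
      apply Measurable.aestronglyMeasurable
      exact (measurable_const.add measurable_norm).mul hWm.norm)
      (Eventually.of_forall fun x => ?_)
    rw [hWn, Real.norm_eq_abs, abs_of_nonneg (by positivity), ← mul_assoc]
    refine mul_le_mul_of_nonneg_right ?_ (by positivity)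
    nlinarith [norm_nonneg x, sq_nonneg (‖x‖ - 1)]
  have h1 := (pot_weight (by norm_num) hρm hρ (rho_nonneg 3 α u) hWm (M := 1) (fun x => by
    rw [hWn, div_le_one (by positivity)]
    have : 0 ≤ ‖x‖ ^ 6 := by positivity
    linarith) hW1).1
  obtain ⟨Cp, hCp0, hCp⟩ := pol_bound P
  have h2 : Integrable (fun x => |1 / gam 3| *
      ‖((∫ z, Real.log ‖x - z‖ * rho 3 α u z : ℝ) : ℂ) * W x‖ +
      (Cp + |c|) * ((1 + ‖x‖ ^ 2) * (1 / (1 + ‖x‖ ^ 6)))) :=
    (h1.norm.const_mul _).add (hwi.const_mul _)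
  refine h2.mono' ?_ (Eventually.of_forall fun x => ?_)
  · apply Measurable.aestronglyMeasurable
    exact hum.norm.div (measurable_const.add (measurable_norm.pow_const 6))
  · rw [Real.norm_eq_abs, abs_of_nonneg (by positivity), norm_mul, Complex.norm_real, hWn,
      Real.norm_eq_abs]
    have h3 : |u x| ≤ |1 / gam 3| * |∫ z, Real.log ‖x - z‖ * rho 3 α u z| +
        (Cp + |c|) * (1 + ‖x‖ ^ 2) := by
      have h4 : |c| ≤ |c| * (1 + ‖x‖ ^ 2) :=
        le_mul_of_one_le_right (abs_nonneg _) (by nlinarith [norm_nonneg x])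
      calc |u x| = |- (1 / gam 3) * (∫ z, Real.log ‖x - z‖ * rho 3 α u z) + P.eval x + c| := by
            conv_lhs => rw [hu x]
            rfl
        _ ≤ |- (1 / gam 3) * (∫ z, Real.log ‖x - z‖ * rho 3 α u z)| + |P.eval x| + |c| :=
            abs_add_three _ _ _
        _ ≤ |1 / gam 3| * |∫ z, Real.log ‖x - z‖ * rho 3 α u z| + Cp * (1 + ‖x‖ ^ 2)
              + |c| * (1 + ‖x‖ ^ 2) := by
            rw [abs_mul, abs_neg]
            have := hCp x
            linarith
        _ = _ := by ring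
    calc |u x| / (1 + ‖x‖ ^ 6) = |u x| * (1 / (1 + ‖x‖ ^ 6)) := by ring
      _ ≤ (|1 / gam 3| * |∫ z, Real.log ‖x - z‖ * rho 3 α u z| +
        (Cp + |c|) * (1 + ‖x‖ ^ 2)) * (1 / (1 + ‖x‖ ^ 6)) :=
          mul_le_mul_of_nonneg_right h3 (by positivity)
      _ = _ := by ring

theorem IntSol.weak_of {n : ℕ} (hn : n = 3 ∨ n = 4)
    (log_test : ∀ {ψ Ψ : E n → ℂ} (_ : TestPair n ψ Ψ) (z : E n),
      ∫ x, (Real.log ‖x - z‖ : ℂ) * Ψ x = - (gam n : ℂ) * ψ z)
    (test_one : ∀ {ψ Ψ : E n → ℂ} (_ : TestPair n ψ Ψ), ∫ x, Ψ x = 0)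
    (test_pol : ∀ {ψ Ψ : E n → ℂ} (_ : TestPair n ψ Ψ) (P : Pol n),
      Integrable (fun x => (P.eval x : ℂ) * Ψ x) ∧ ∫ x, (P.eval x : ℂ) * Ψ x = 0)
    {α : ℝ} {u : E n → ℝ}
    (h : IntSol n α u) {ψ Ψ : E n → ℂ} (ht : TestPair n ψ Ψ) :
    Integrable (fun x => (u x : ℂ) * Ψ x) ∧
    ∫ x, (u x : ℂ) * Ψ x = ∫ x, ((‖x‖ ^ (n * α) * Real.exp (n * u x) : ℝ) : ℂ) * ψ x := by
  have hn2 : 2 ≤ n := by omega
  obtain ⟨hum, hρ, P, c, hu⟩ := h
  have hρm := rho_measurable (n := n) (α := α) hum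
  obtain ⟨M, hM⟩ := ht.bddΨ
  have hΨi : Integrable Ψ := by
    have h1 : Integrable (fun x => ‖Ψ x‖) := by
      refine ht.intΨ.mono' ht.contΨ.norm.aestronglyMeasurable (Eventually.of_forall fun x => ?_)
      rw [norm_norm]
      exact le_mul_of_one_le_left (norm_nonneg _) (by nlinarith [norm_nonneg x])
    exact (integrable_norm_iff ht.contΨ.aestronglyMeasurable).1 h1
  have hW1 : Integrable (fun x => (1 + ‖x‖) * ‖Ψ x‖) := by
    refine (ht.intΨ.const_mul 2).mono' ?_ (Eventually.of_forall fun x => ?_)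
    · exact ((continuous_const.add continuous_norm).mul ht.contΨ.norm).aestronglyMeasurable
    · rw [Real.norm_eq_abs, abs_of_nonneg (by positivity), ← mul_assoc]
      refine mul_le_mul_of_nonneg_right ?_ (norm_nonneg _)
      nlinarith [norm_nonneg x, sq_nonneg (‖x‖ - 1)]
  obtain ⟨hV1, hV2⟩ := pot_weight hn2 hρm hρ (rho_nonneg n α u) ht.contΨ.measurable hM hW1
  obtain ⟨hP1, hP2⟩ := test_pol ht P
  have hg : gam n ≠ 0 := by
    unfold gam
    split_ifs <;> positivity
  have e : ∀ x, (u x : ℂ) * Ψ x = (- (1 / gam n) : ℂ) *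
      (((∫ z, Real.log ‖x - z‖ * rho n α u z : ℝ) : ℂ) * Ψ x) + (P.eval x : ℂ) * Ψ x +
      (c : ℂ) * Ψ x := by
    intro x
    have : u x = - (1 / gam n) * (∫ z, Real.log ‖x - z‖ * rho n α u z) + P.eval x + c := by
      conv_lhs => rw [hu x]
      rfl
    rw [this]
    push_cast
    ring
  have hI1 := hV1.const_mul (- (1 / gam n) : ℂ)
  have hI3 := hΨi.const_mul (c : ℂ)
  constructor
  · simp only [e]
    exact (hI1.add hP1).add hI3
  · simp only [e]
    have s1 := integral_add (f := fun x => (- (1 / gam n) : ℂ) *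
      (((∫ z, Real.log ‖x - z‖ * rho n α u z : ℝ) : ℂ) * Ψ x) + (P.eval x : ℂ) * Ψ x)
      (g := fun x => (c : ℂ) * Ψ x) (hI1.add hP1) hI3
    rw [s1, integral_add hI1 hP1, integral_const_mul,
      integral_const_mul, hP2, test_one ht, hV2]
    simp only [log_test ht]
    have e2 : ∀ z, (rho n α u z : ℂ) * (-(gam n : ℂ) * ψ z) =
        (-(gam n : ℂ)) * (((‖z‖ ^ (n * α) * Real.exp (n * u z) : ℝ) : ℂ) * ψ z) := by
      intro z
      unfold rho
      ring
    simp only [e2]
    rw [integral_const_mul]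
    have hg' : (gam n : ℂ) ≠ 0 := by exact_mod_cast hg
    field_simp
    ring

end Pool.Agent.QGlue
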