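import Pool.Agent.QGlue.DefsH

/-! # Test functions in dimension four -/

set_option autoImplicit false

namespace Pool.Agent.QGlue

open MeasureTheory Real Set Filter Topology
open scoped FourierTransform SchwartzMap ContDiff Laplacian

private theorem H4_fourier_lap (f : 𝓢(E 4, ℂ)) (ξ : E 4) :
    𝓕 ((Δ f : 𝓢(E 4, ℂ)) : E 4 → ℂ) ξ =
      (((-(2 * π * ‖ξ‖) ^ 2 : ℝ)) : ℂ) * 𝓕 (f : E 4 → ℂ) ξ := by
  have h := SchwartzMap.laplacian_eq_fourierMultiplierCLM f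
  have h2 : 𝓕 (Δ f) = -(2 * π) ^ 2 • (SchwartzMap.smulLeftCLM ℂ (fun x : E 4 => ‖x‖ ^ 2) (𝓕 f)) := by
    rw [h, SchwartzMap.fourierMultiplierCLM_apply]
    rw [FourierTransform.fourier_smul, FourierTransform.fourier_fourierInv_eq]
  have h3 := congrArg (fun g : 𝓢(E 4, ℂ) => g ξ) h2
  rw [← SchwartzMap.fourier_coe, ← SchwartzMap.fourier_coe, h3, _root_.smul_apply,
    SchwartzMap.smulLeftCLM_apply_apply (by fun_prop)]
  rw [smul_smul, Complex.real_smul]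
  congr 1
  push_cast
  ring

theorem testPair_four (φ : E 4 → ℝ) (h1 : ContDiff ℝ ∞ φ) (h2 : HasCompactSupport φ) :
    TestPair 4 (fun x => (φ x : ℂ)) (fun x => (((Δ (Δ φ)) x : ℝ) : ℂ)) := by
  have h1c : ContDiff ℝ ∞ (fun x => (φ x : ℂ)) := Complex.ofRealCLM.contDiff.comp h1
  have h2c : HasCompactSupport (fun x => (φ x : ℂ)) := h2.comp_left (g := fun t : ℝ => (t : ℂ)) rfl
  set f : 𝓢(E 4, ℂ) := h2c.toSchwartzMap h1c with hf
  set fr : 𝓢(E 4, ℝ) := h2.toSchwartzMap h1 with hfr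
  have hfc : (f : E 4 → ℂ) = fun x => (φ x : ℂ) := rfl
  have hfrc : (fr : E 4 → ℝ) = φ := rfl
  have hsm : ContDiff ℝ ∞ (Δ φ) := by
    have : Δ φ = ((Δ fr : 𝓢(E 4, ℝ)) : E 4 → ℝ) := by
      funext x
      rw [SchwartzMap.laplacian_apply, hfrc]
    rw [this]
    exact (Δ fr : 𝓢(E 4, ℝ)).smooth ⊤
  have e1 : ((Δ f : 𝓢(E 4, ℂ)) : E 4 → ℂ) = fun x => ((Δ φ x : ℝ) : ℂ) := by
    funext x
    rw [SchwartzMap.laplacian_apply, hfc]
    exact ContDiffAt.laplacian_CLM_comp_left (l := Complex.ofRealCLM)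
      ((h1.of_le (by norm_cast)).contDiffAt)
  have e2 : ((Δ (Δ f) : 𝓢(E 4, ℂ)) : E 4 → ℂ) = fun x => (((Δ (Δ φ)) x : ℝ) : ℂ) := by
    funext x
    rw [SchwartzMap.laplacian_apply, e1]
    exact ContDiffAt.laplacian_CLM_comp_left (l := Complex.ofRealCLM)
      ((hsm.of_le (by norm_cast)).contDiffAt)
  have hint : ∀ (g : 𝓢(E 4, ℂ)) (k : ℕ), Integrable (fun x => (1 + ‖x‖ ^ k) * ‖g x‖) := by
    intro g k
    have a1 := g.integrable_pow_mul volume 0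
    have a2 := g.integrable_pow_mul volume k
    refine (a1.add a2).congr (Eventually.of_forall fun x => ?_)
    simp only [Pi.add_apply, pow_zero]
    ring
  rw [← hfc, ← e2]
  refine ⟨f.continuous, (Δ (Δ f) : 𝓢(E 4, ℂ)).continuous, f.integrable,
    ⟨_, fun x => SchwartzMap.norm_le_seminorm ℝ f x⟩,
    ⟨_, fun x => SchwartzMap.norm_le_seminorm ℝ (Δ (Δ f)) x⟩, hint _ 2, ?_, ?_⟩
  · exact hint (𝓕 f) 4
  · intro ξ
    rw [H4_fourier_lap, H4_fourier_lap, ← mul_assoc, ← Complex.ofReal_mul]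
    congr 2
    ring

end Pool.Agent.QGlue
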