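import Pool.Agent.QGlue.DefsH

/-!
# Decay of `(-Δ)^{3/2} φ` (package H5a)

`(√π/2) μ³ = μ⁴ ∫_0^1 e^{-(ρμ)²} dρ + (μ²/2 - 1/4) e^{-μ²} + (3/4) ∫_1^∞ ρ^{-4} e^{-(ρμ)²} dρ`
with `μ = 2π|ξ|`, and every term is a superposition of translations.
-/

set_option autoImplicit false

namespace Pool.Agent.QGlue

open MeasureTheory Real Set Filter Topology
open scoped FourierTransform SchwartzMap ContDiff Laplacian RealInnerProductSpace

namespace H5a

/-- `F` is integrable and its inverse Fourier transform has two moments -/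
def Dec (F : E 3 → ℂ) : Prop :=
  Integrable F ∧ Integrable (fun x : E 3 => (1 + ‖x‖ ^ 2) * ‖𝓕⁻ F x‖)

lemma int_char {F : E 3 → ℂ} (hF : Integrable F) (x : E 3) :
    Integrable (fun ξ : E 3 => 𝐞 ⟪ξ, x⟫ • F ξ) := by
  have hc : Continuous (fun ξ : E 3 => (𝐞 ⟪ξ, x⟫ : ℂ)) := by fun_prop
  refine Integrable.mono' hF.norm ?_ (ae_of_all _ fun ξ => ?_)
  · simp only [Circle.smul_def]
    exact hc.aestronglyMeasurable.smul hF.aestronglyMeasurable
  · exact (Circle.norm_smul _ _).le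

lemma Dec.add {F G : E 3 → ℂ} (hF : Dec F) (hG : Dec G)  : Dec (fun ξ => F ξ + G ξ) := by
  refine ⟨hF.1.add hG.1, ?_⟩
  have e : ∀ x : E 3, 𝓕⁻ (fun ξ => F ξ + G ξ) x = 𝓕⁻ F x + 𝓕⁻ G x := by
    intro x
    rw [Real.fourierInv_eq, Real.fourierInv_eq, Real.fourierInv_eq,
      ← integral_add (int_char hF.1 x) (int_char hG.1 x)]
    simp only [smul_add]
  have hm : AEStronglyMeasurable (fun x : E 3 => (1 + ‖x‖ ^ 2) * ‖𝓕⁻ (fun ξ => F ξ + G ξ) x‖)
      volume := by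
    have h1 : Continuous (fun x : E 3 => 𝓕⁻ (fun ξ => F ξ + G ξ) x) := by
      have := VectorFourier.fourierIntegral_continuous (μ := (volume : Measure (E 3)))
        (L := -innerₗ (E 3)) Real.continuous_fourierChar
        (by
          have : Continuous (fun p : E 3 × E 3 => -(⟪p.1, p.2⟫ : ℝ)) := by fun_prop
          exact this) (hF.1.add hG.1)
      exact this
    exact ((by fun_prop : Continuous fun x : E 3 => (1 + ‖x‖ ^ 2)).mul h1.norm).aestronglyMeasurable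
  refine Integrable.mono' (hF.2.add hG.2) hm (ae_of_all _ fun x => ?_)
  rw [Real.norm_of_nonneg (by positivity), e, Pi.add_apply, ← mul_add]
  gcongr
  exact norm_add_le _ _

lemma Dec.const_mul {F : E 3 → ℂ} (hF : Dec F) (c : ℂ) : Dec (fun ξ => c * F ξ) := by
  refine ⟨hF.1.const_mul c, ?_⟩
  have e : ∀ x : E 3, 𝓕⁻ (fun ξ => c * F ξ) x = c * 𝓕⁻ F x := by
    intro x
    rw [Real.fourierInv_eq, Real.fourierInv_eq, ← integral_const_mul]
    congr 1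
    ext ξ
    simp only [Circle.smul_def, smul_eq_mul]
    ring
  simp only [e, norm_mul]
  have := hF.2.const_mul ‖c‖
  refine this.congr (ae_of_all _ fun x => ?_)
  simp only
  ring

/-- Superpositions of translations. -/
lemma dec_of {Ω : Type} [MeasurableSpace Ω] (ν : Measure Ω) [SFinite ν] (f : 𝓢(E 3, ℂ))
    {W : Ω → ℂ} {h : Ω → E 3} (hW : Measurable W) (hh : Measurable h)
    (hint : Integrable (fun o => (1 + ‖h o‖ ^ 2) * ‖W o‖) ν) :
    Dec (fun ξ => (∫ o, 𝐞 (-⟪h o, ξ⟫) • W o ∂ν) * 𝓕 (f : E 3 → ℂ) ξ) := by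
  have hWi : Integrable W ν := by
    refine Integrable.mono' hint hW.aestronglyMeasurable (ae_of_all _ fun o => ?_)
    nlinarith [norm_nonneg (W o), sq_nonneg ‖h o‖, mul_nonneg (sq_nonneg ‖h o‖) (norm_nonneg (W o))]
  have hfh : Integrable (𝓕 (f : E 3 → ℂ)) := by
    rw [← SchwartzMap.fourier_coe]; exact (𝓕 f).integrable
  have hfc : Continuous (𝓕 (f : E 3 → ℂ)) := by
    rw [← SchwartzMap.fourier_coe]; exact (𝓕 f).continuous
  have hcm : Measurable (fun p : E 3 × Ω => 𝐞 (-⟪h p.2, p.1⟫) • W p.2) := by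
    simp only [Circle.smul_def, smul_eq_mul]
    have hc : Continuous (fun q : E 3 × E 3 => (𝐞 (-⟪q.2, q.1⟫) : ℂ)) := by fun_prop
    have h2 : Measurable (fun p : E 3 × Ω => ((p.1, h p.2) : E 3 × E 3)) := by fun_prop
    exact (hc.measurable.comp h2).mul (hW.comp measurable_snd)
  -- integrability on the product
  have hprod : Integrable (fun p : E 3 × Ω => 𝐞 (-⟪h p.2, p.1⟫) • W p.2 * 𝓕 (f : E 3 → ℂ) p.1)
      (volume.prod ν) := by
    refine Integrable.mono' (hfh.norm.mul_prod hWi.norm)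
      (hcm.mul (hfc.measurable.comp measurable_fst)).aestronglyMeasurable (ae_of_all _ fun p => ?_)
    simp only [norm_mul, Circle.norm_smul]
    rw [mul_comm]
  have hF1 : Integrable (fun ξ => (∫ o, 𝐞 (-⟪h o, ξ⟫) • W o ∂ν) * 𝓕 (f : E 3 → ℂ) ξ) := by
    have := hprod.integral_prod_left
    simpa only [integral_mul_const] using this
  refine ⟨hF1, ?_⟩
  -- the inverse transform
  have hinv : ∀ x, 𝓕⁻ (fun ξ => (∫ o, 𝐞 (-⟪h o, ξ⟫) • W o ∂ν) * 𝓕 (f : E 3 → ℂ) ξ) x =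
      ∫ o, W o * f (x - h o) ∂ν := by
    intro x
    rw [Real.fourierInv_eq]
    have e1 : ∀ ξ : E 3, 𝐞 ⟪ξ, x⟫ • ((∫ o, 𝐞 (-⟪h o, ξ⟫) • W o ∂ν) * 𝓕 (f : E 3 → ℂ) ξ) =
        ∫ o, 𝐞 ⟪ξ, x⟫ • (𝐞 (-⟪h o, ξ⟫) • W o * 𝓕 (f : E 3 → ℂ) ξ) ∂ν := by
      intro ξ
      simp only [Circle.smul_def, smul_eq_mul]
      rw [integral_const_mul, integral_mul_const]
    simp only [e1]
    rw [integral_integral_swap]
    · congr 1
      ext o
      have e2 : ∀ ξ : E 3, 𝐞 ⟪ξ, x⟫ • (𝐞 (-⟪h o, ξ⟫) • W o * 𝓕 (f : E 3 → ℂ) ξ) =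
          W o * (𝐞 ⟪ξ, x - h o⟫ • 𝓕 (f : E 3 → ℂ) ξ) := by
        intro ξ
        have : 𝐞 ⟪ξ, x - h o⟫ = 𝐞 ⟪ξ, x⟫ * 𝐞 (-⟪h o, ξ⟫) := by
          rw [← AddChar.map_add_eq_mul, inner_sub_right, real_inner_comm ξ (h o), sub_eq_add_neg]
        rw [this]
        simp only [Circle.smul_def, smul_eq_mul, Circle.coe_mul]
        ring
      simp only [e2]
      rw [integral_const_mul, ← Real.fourierInv_eq]
      congr 1
      have := f.continuous.fourierInv_fourier_eq f.integrable hfh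
      exact congrFun this (x - h o)
    · have hc : Continuous (fun ξ : E 3 => (𝐞 ⟪ξ, x⟫ : ℂ)) := by fun_prop
      refine Integrable.mono' hprod.norm ?_ (ae_of_all _ fun p => ?_)
      · simp only [Function.uncurry_def, Circle.smul_def (𝐞 ⟪_, x⟫)]
        exact ((hc.measurable.comp measurable_fst).aestronglyMeasurable).smul
          hprod.aestronglyMeasurable
      · simp only [Function.uncurry_def, Circle.norm_smul, le_refl]
  simp only [hinv]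
  -- integrability with the weight
  have hcore : Integrable (fun p : E 3 × Ω => ((1 + ‖p.1‖ ^ 2 : ℝ) : ℂ) * (W p.2 * f (p.1 - h p.2)))
      (volume.prod ν) := by
    have hmeas : AEStronglyMeasurable
        (fun p : E 3 × Ω => ((1 + ‖p.1‖ ^ 2 : ℝ) : ℂ) * (W p.2 * f (p.1 - h p.2)))
        (volume.prod ν) := by
      apply Measurable.aestronglyMeasurable
      have h1 : Measurable (fun p : E 3 × Ω => f (p.1 - h p.2)) :=
        f.continuous.measurable.comp (measurable_fst.sub (hh.comp measurable_snd))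
      have h2 : Measurable (fun p : E 3 × Ω => ((1 + ‖p.1‖ ^ 2 : ℝ) : ℂ)) := by fun_prop
      exact h2.mul ((hW.comp measurable_snd).mul h1)
    have hf2 : Integrable (fun x : E 3 => (1 + ‖x‖ ^ 2) * ‖f x‖) := by
      have h1 := f.integrable_pow_mul (volume : Measure (E 3)) 2
      have h2 := (f.integrable (μ := (volume : Measure (E 3)))).norm
      refine (h2.add h1).congr (ae_of_all _ fun x => ?_)
      simp only [Pi.add_apply]; ring
    have hshift : ∀ o, Integrable (fun x : E 3 => (1 + ‖x‖ ^ 2) * ‖f (x - h o)‖) ∧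
        ∫ x : E 3, (1 + ‖x‖ ^ 2) * ‖f (x - h o)‖ ≤
          (2 * ∫ x : E 3, (1 + ‖x‖ ^ 2) * ‖f x‖) * (1 + ‖h o‖ ^ 2) := by
      intro o
      have hb : ∀ y : E 3, (1 + ‖y + h o‖ ^ 2) * ‖f y‖ ≤
          2 * (1 + ‖h o‖ ^ 2) * ((1 + ‖y‖ ^ 2) * ‖f y‖) := by
        intro y
        have h1 : ‖y + h o‖ ^ 2 ≤ 2 * ‖y‖ ^ 2 + 2 * ‖h o‖ ^ 2 := by
          have := norm_add_le y (h o)
          have h3 := norm_nonneg (y + h o)
          nlinarith [sq_nonneg (‖y‖ - ‖h o‖)]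
        have h2 : 1 + ‖y + h o‖ ^ 2 ≤ 2 * (1 + ‖h o‖ ^ 2) * (1 + ‖y‖ ^ 2) := by
          nlinarith [mul_nonneg (sq_nonneg ‖h o‖) (sq_nonneg ‖y‖)]
        calc (1 + ‖y + h o‖ ^ 2) * ‖f y‖ ≤ (2 * (1 + ‖h o‖ ^ 2) * (1 + ‖y‖ ^ 2)) * ‖f y‖ := by
              gcongr
          _ = _ := by ring
      have hi : Integrable (fun y : E 3 => (1 + ‖y + h o‖ ^ 2) * ‖f y‖) := by
        refine Integrable.mono' (hf2.const_mul (2 * (1 + ‖h o‖ ^ 2))) ?_ (ae_of_all _ fun y => ?_)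
        · exact ((by fun_prop : Continuous fun y : E 3 => (1 + ‖y + h o‖ ^ 2)).mul
            f.continuous.norm).aestronglyMeasurable
        · rw [Real.norm_of_nonneg (by positivity)]; exact hb y
      have e : (fun x : E 3 => (1 + ‖x‖ ^ 2) * ‖f (x - h o)‖) =
          fun x => (fun y : E 3 => (1 + ‖y + h o‖ ^ 2) * ‖f y‖) (x - h o) := by
        ext x; simp
      refine ⟨?_, ?_⟩
      · rw [e]; exact hi.comp_sub_right (h o)
      · rw [e, integral_sub_right_eq_self (fun y : E 3 => (1 + ‖y + h o‖ ^ 2) * ‖f y‖) (h o)]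
        calc ∫ y : E 3, (1 + ‖y + h o‖ ^ 2) * ‖f y‖ ≤
            ∫ y : E 3, 2 * (1 + ‖h o‖ ^ 2) * ((1 + ‖y‖ ^ 2) * ‖f y‖) :=
              integral_mono hi (hf2.const_mul _) hb
          _ = _ := by rw [integral_const_mul]; ring
    rw [integrable_prod_iff' hmeas]
    have hn : ∀ (x : E 3) (o : Ω), ‖((1 + ‖x‖ ^ 2 : ℝ) : ℂ) * (W o * f (x - h o))‖ =
        ‖W o‖ * ((1 + ‖x‖ ^ 2) * ‖f (x - h o)‖) := by
      intro x o
      rw [norm_mul, norm_mul, Complex.norm_real, Real.norm_of_nonneg (by positivity)]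
      ring
    constructor
    · refine ae_of_all _ fun o => ?_
      refine Integrable.mono' ((hshift o).1.const_mul ‖W o‖) ?_ (ae_of_all _ fun x => (hn x o).le)
      apply Continuous.aestronglyMeasurable
      have h1 : Continuous (fun x : E 3 => f (x - h o)) :=
        f.continuous.comp (continuous_id.sub continuous_const)
      have h2 : Continuous (fun x : E 3 => W o * f (x - h o)) := continuous_const.mul h1
      have h3 : Continuous fun x : E 3 => ((1 + ‖x‖ ^ 2 : ℝ) : ℂ) := by fun_prop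
      exact h3.mul h2
    · simp only [hn, integral_const_mul]
      have hm2 : AEStronglyMeasurable
          (fun o => ‖W o‖ * ∫ x : E 3, (1 + ‖x‖ ^ 2) * ‖f (x - h o)‖) ν := by
        have := hmeas.norm.prod_swap.integral_prod_right'
        simp only [Prod.swap, hn, integral_const_mul] at this
        exact this
      refine Integrable.mono' (hint.const_mul (2 * ∫ x : E 3, (1 + ‖x‖ ^ 2) * ‖f x‖)) hm2
        (ae_of_all _ fun o => ?_)
      rw [Real.norm_of_nonneg (by positivity)]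
      calc ‖W o‖ * ∫ x : E 3, (1 + ‖x‖ ^ 2) * ‖f (x - h o)‖ ≤
          ‖W o‖ * ((2 * ∫ x : E 3, (1 + ‖x‖ ^ 2) * ‖f x‖) * (1 + ‖h o‖ ^ 2)) := by
            gcongr; exact (hshift o).2
        _ = _ := by ring
  have := hcore.integral_prod_left.norm
  refine this.congr (ae_of_all _ fun x => ?_)
  simp only
  rw [integral_const_mul, norm_mul, Complex.norm_real, Real.norm_of_nonneg (by positivity)]

/-- normalised Gaussian -/
noncomputable def G (z : E 3) : ℂ :=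
  (((π : ℂ) / (1 / 4 : ℂ)) ^ ((3 : ℂ) / 2))⁻¹ * Complex.exp (-(1 / 4 : ℂ) * ‖z‖ ^ 2)

lemma G_measurable : Measurable G := by
  unfold G
  have : Continuous (fun z : E 3 => (((π : ℂ) / (1 / 4 : ℂ)) ^ ((3 : ℂ) / 2))⁻¹ *
      Complex.exp (-(1 / 4 : ℂ) * ‖z‖ ^ 2)) := by fun_prop
  exact this.measurable

lemma G_fourier (t : ℝ) (ξ : E 3) :
    ∫ z : E 3, 𝐞 (-⟪t • z, ξ⟫) • G z = ((Real.exp (-(t * (2 * π * ‖ξ‖)) ^ 2) : ℝ) : ℂ) := by
  have h1 : ∫ z : E 3, 𝐞 (-⟪t • z, ξ⟫) • G z = 𝓕 G (t • ξ) := by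
    rw [Real.fourier_eq]
    congr 1
    ext z
    rw [real_inner_smul_left, real_inner_smul_right]
  rw [h1]
  have h2 : 𝓕 G (t • ξ) = (((π : ℂ) / (1 / 4 : ℂ)) ^ ((3 : ℂ) / 2))⁻¹ *
      𝓕 (fun z : E 3 => Complex.exp (-(1 / 4 : ℂ) * ‖z‖ ^ 2)) (t • ξ) := by
    rw [Real.fourier_eq, Real.fourier_eq, ← integral_const_mul]
    congr 1
    ext z
    simp only [Circle.smul_def, smul_eq_mul, G]
    ring
  rw [h2, fourier_gaussian_innerProductSpace (by norm_num : 0 < (1 / 4 : ℂ).re)]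
  have hne : ((π : ℂ) / (1 / 4 : ℂ)) ^ ((3 : ℂ) / 2) ≠ 0 := by
    rw [Complex.cpow_ne_zero_iff]
    left
    have : (π : ℂ) ≠ 0 := by exact_mod_cast Real.pi_ne_zero
    simp
  have hdim : ((Module.finrank ℝ (E 3) : ℕ) : ℂ) = 3 := by
    simp [E]
  rw [hdim, ← mul_assoc, inv_mul_cancel₀ hne, one_mul]
  rw [Complex.ofReal_exp]
  congr 1
  rw [norm_smul]
  push_cast
  have : ((|t| : ℝ) : ℂ) ^ 2 = (t : ℂ) ^ 2 := by
    rw [← Complex.ofReal_pow, sq_abs, Complex.ofReal_pow]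
  rw [Real.norm_eq_abs, mul_pow, this]
  ring

lemma G_weight : Integrable (fun z : E 3 => (1 + ‖z‖ ^ 2) * ‖G z‖) := by
  have h1 := (GaussianFourier.integrable_cexp_neg_mul_sq_norm_add (V := E 3)
    (by norm_num : 0 < (1 / 8 : ℂ).re) 0 0).norm
  have hk : Continuous (fun z : E 3 => (1 + ‖z‖ ^ 2) * ‖G z‖) := by
    unfold G; fun_prop
  refine Integrable.mono' (h1.const_mul (8 * ‖(((π : ℂ) / (1 / 4 : ℂ)) ^ ((3 : ℂ) / 2))⁻¹‖))
    hk.aestronglyMeasurable (ae_of_all _ fun z => ?_)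
  rw [Real.norm_of_nonneg (by positivity)]
  unfold G
  rw [norm_mul]
  have e1 : ‖Complex.exp (-(1 / 4 : ℂ) * ‖z‖ ^ 2)‖ = Real.exp (-(1 / 4) * ‖z‖ ^ 2) := by
    rw [Complex.norm_exp]
    congr 1
    have : (-(1 / 4 : ℂ) * ‖z‖ ^ 2) = ((-(1 / 4) * ‖z‖ ^ 2 : ℝ) : ℂ) := by push_cast; ring
    rw [this, Complex.ofReal_re]
  have e2 : ‖Complex.exp (-(1 / 8 : ℂ) * ‖z‖ ^ 2 + 0 * (⟪(0 : E 3), z⟫ : ℝ))‖ =
      Real.exp (-(1 / 8) * ‖z‖ ^ 2) := by
    rw [Complex.norm_exp]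
    congr 1
    have : (-(1 / 8 : ℂ) * ‖z‖ ^ 2 + 0 * (⟪(0 : E 3), z⟫ : ℝ)) =
      ((-(1 / 8) * ‖z‖ ^ 2 : ℝ) : ℂ) := by push_cast; ring
    rw [this, Complex.ofReal_re]
  rw [e1, e2]
  have h3 : (1 + ‖z‖ ^ 2) * Real.exp (-(1 / 4) * ‖z‖ ^ 2) ≤ 8 * Real.exp (-(1 / 8) * ‖z‖ ^ 2) := by
    have h4 : Real.exp (-(1 / 8) * ‖z‖ ^ 2) =
        Real.exp (-(1 / 4) * ‖z‖ ^ 2) * Real.exp ((1 / 8) * ‖z‖ ^ 2) := by
      rw [← Real.exp_add]; congr 1; ring
    rw [h4]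
    have h5 := Real.add_one_le_exp ((1 / 8) * ‖z‖ ^ 2)
    nlinarith [Real.exp_pos (-(1 / 4) * ‖z‖ ^ 2)]
  calc (1 + ‖z‖ ^ 2) * (‖(((π : ℂ) / (1 / 4 : ℂ)) ^ ((3 : ℂ) / 2))⁻¹‖ *
        Real.exp (-(1 / 4) * ‖z‖ ^ 2))
      = ‖(((π : ℂ) / (1 / 4 : ℂ)) ^ ((3 : ℂ) / 2))⁻¹‖ *
        ((1 + ‖z‖ ^ 2) * Real.exp (-(1 / 4) * ‖z‖ ^ 2)) := by ring
    _ ≤ ‖(((π : ℂ) / (1 / 4 : ℂ)) ^ ((3 : ℂ) / 2))⁻¹‖ * (8 * Real.exp (-(1 / 8) * ‖z‖ ^ 2)) := by
        gcongr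
    _ = _ := by ring

lemma dec_point (f : 𝓢(E 3, ℂ)) :
    Dec (fun ξ => ((Real.exp (-(2 * π * ‖ξ‖) ^ 2) : ℝ) : ℂ) * 𝓕 (f : E 3 → ℂ) ξ) := by
  have := dec_of (volume : Measure (E 3)) f (W := G) (h := id) G_measurable measurable_id G_weight
  have e : ∀ ξ : E 3, ∫ o : E 3, 𝐞 (-⟪id o, ξ⟫) • G o =
      ((Real.exp (-(2 * π * ‖ξ‖) ^ 2) : ℝ) : ℂ) := by
    intro ξ
    simpa only [id_eq, one_smul, one_mul] using G_fourier 1 ξ
  simpa only [e] using this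

lemma dec_line (S : Set ℝ) (w : ℝ → ℂ) (hw : Measurable w)
    (hwi : Integrable (fun ρ => (1 + ρ ^ 2) * ‖w ρ‖) (volume.restrict S)) (f : 𝓢(E 3, ℂ)) :
    Dec (fun ξ => (∫ ρ in S, w ρ * ((Real.exp (-(ρ * (2 * π * ‖ξ‖)) ^ 2) : ℝ) : ℂ)) *
      𝓕 (f : E 3 → ℂ) ξ) := by
  have hW : Measurable (fun p : ℝ × E 3 => w p.1 * G p.2) :=
    (hw.comp measurable_fst).mul (G_measurable.comp measurable_snd)
  have hh : Measurable (fun p : ℝ × E 3 => p.1 • p.2) := measurable_fst.smul measurable_snd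
  have hint : Integrable (fun p : ℝ × E 3 => (1 + ‖p.1 • p.2‖ ^ 2) * ‖w p.1 * G p.2‖)
      ((volume.restrict S).prod (volume : Measure (E 3))) := by
    refine Integrable.mono' (hwi.mul_prod G_weight) ?_ (ae_of_all _ fun p => ?_)
    · apply Measurable.aestronglyMeasurable
      exact (measurable_const.add (hh.norm.pow_const 2)).mul hW.norm
    · rw [Real.norm_of_nonneg (by positivity), norm_smul, norm_mul, mul_pow, Real.norm_eq_abs,
        sq_abs]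
      have h1 : 1 + p.1 ^ 2 * ‖p.2‖ ^ 2 ≤ (1 + p.1 ^ 2) * (1 + ‖p.2‖ ^ 2) := by
        nlinarith [sq_nonneg p.1, sq_nonneg ‖p.2‖]
      calc (1 + p.1 ^ 2 * ‖p.2‖ ^ 2) * (‖w p.1‖ * ‖G p.2‖) ≤
          ((1 + p.1 ^ 2) * (1 + ‖p.2‖ ^ 2)) * (‖w p.1‖ * ‖G p.2‖) := by gcongr
        _ = _ := by ring
  have key := dec_of ((volume.restrict S).prod (volume : Measure (E 3))) f hW hh hint
  have e : ∀ ξ : E 3, ∫ o : ℝ × E 3, 𝐞 (-⟪o.1 • o.2, ξ⟫) • (w o.1 * G o.2)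
      ∂((volume.restrict S).prod (volume : Measure (E 3))) =
      ∫ ρ in S, w ρ * ((Real.exp (-(ρ * (2 * π * ‖ξ‖)) ^ 2) : ℝ) : ℂ) := by
    intro ξ
    have hWi : Integrable (fun p : ℝ × E 3 => w p.1 * G p.2)
        ((volume.restrict S).prod (volume : Measure (E 3))) := by
      refine Integrable.mono' hint hW.aestronglyMeasurable (ae_of_all _ fun o => ?_)
      nlinarith [norm_nonneg (w o.1 * G o.2), sq_nonneg ‖o.1 • o.2‖,
        mul_nonneg (sq_nonneg ‖o.1 • o.2‖) (norm_nonneg (w o.1 * G o.2))]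
    have hWc : Integrable (fun o : ℝ × E 3 => 𝐞 (-⟪o.1 • o.2, ξ⟫) • (w o.1 * G o.2))
        ((volume.restrict S).prod (volume : Measure (E 3))) := by
      refine Integrable.mono' hWi.norm ?_ (ae_of_all _ fun o => (Circle.norm_smul _ _).le)
      have hc : Continuous (fun q : E 3 => (𝐞 (-⟪q, ξ⟫) : ℂ)) := by fun_prop
      simp only [Circle.smul_def]
      exact ((hc.measurable.comp hh).mul hW).aestronglyMeasurable
    rw [integral_prod _ hWc]
    congr 1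
    ext ρ
    rw [← G_fourier ρ ξ, ← integral_const_mul]
    congr 1
    ext z
    simp only [Circle.smul_def, smul_eq_mul]
    ring
  simpa only [e] using key

lemma scalar_id (μ : ℝ) (hμ : 0 ≤ μ) :
    (√π / 2) * μ ^ 3 = (∫ ρ in Ioc (0 : ℝ) 1, Real.exp (-(ρ * μ) ^ 2)) * μ ^ 4 +
      (μ ^ 2 / 2 - 1 / 4) * Real.exp (-μ ^ 2) +
      (3 / 4) * ∫ ρ in Ioi (1 : ℝ), (ρ ^ 4)⁻¹ * Real.exp (-(ρ * μ) ^ 2) := by
  -- integrability
  have hI : IntegrableOn (fun ρ : ℝ => μ ^ 4 * Real.exp (-(ρ * μ) ^ 2)) (Ioi 1) := by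
    rcases hμ.eq_or_lt with h | h
    · rw [← h]; simp
    · have := (integrable_exp_neg_mul_sq (by positivity : 0 < μ ^ 2)).const_mul (μ ^ 4)
      refine (this.congr (ae_of_all _ fun ρ => ?_)).integrableOn
      simp only; congr 2; ring
  have hr : IntegrableOn (fun ρ : ℝ => (ρ ^ 4)⁻¹) (Ioi 1) := by
    have := integrableOn_Ioi_rpow_of_lt (by norm_num : (-4 : ℝ) < -1) (zero_lt_one)
    refine this.congr_fun (fun ρ hρ => ?_) measurableSet_Ioi
    have hρ0 : 0 < ρ := lt_trans zero_lt_one hρ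
    simp only
    rw [Real.rpow_neg hρ0.le]
    congr 1
    exact_mod_cast Real.rpow_natCast ρ 4
  have hJ : IntegrableOn (fun ρ : ℝ => (ρ ^ 4)⁻¹ * Real.exp (-(ρ * μ) ^ 2)) (Ioi 1) := by
    refine Integrable.mono' hr ?_ (ae_of_all _ fun ρ => ?_)
    · apply Measurable.aestronglyMeasurable; fun_prop
    · rw [Real.norm_of_nonneg (by positivity)]
      have : Real.exp (-(ρ * μ) ^ 2) ≤ 1 := by
        rw [Real.exp_le_one_iff]; nlinarith [sq_nonneg (ρ * μ)]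
      calc (ρ ^ 4)⁻¹ * Real.exp (-(ρ * μ) ^ 2) ≤ (ρ ^ 4)⁻¹ * 1 := by gcongr
        _ = _ := mul_one _
  have hH : ∫ ρ in Ioi (1 : ℝ), (μ ^ 4 * Real.exp (-(ρ * μ) ^ 2) -
      (3 / 4) * ((ρ ^ 4)⁻¹ * Real.exp (-(ρ * μ) ^ 2))) =
      0 - (-(μ ^ 2 / (2 * 1)) * Real.exp (-(1 * μ) ^ 2) +
        (1 / (4 * 1 ^ 3)) * Real.exp (-(1 * μ) ^ 2)) := by
    apply integral_Ioi_of_hasDerivAt_of_tendsto' (f := fun ρ : ℝ =>
      -(μ ^ 2 / (2 * ρ)) * Real.exp (-(ρ * μ) ^ 2) + (1 / (4 * ρ ^ 3)) * Real.exp (-(ρ * μ) ^ 2))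
    · intro ρ hρ
      have hρ0 : ρ ≠ 0 := by
        have : (1 : ℝ) ≤ ρ := hρ
        positivity
      have he : HasDerivAt (fun ρ : ℝ => Real.exp (-(ρ * μ) ^ 2))
          (Real.exp (-(ρ * μ) ^ 2) * (-(2 * (ρ * μ) * μ))) ρ := by
        have h1 : HasDerivAt (fun ρ : ℝ => -(ρ * μ) ^ 2) (-(2 * (ρ * μ) * μ)) ρ := by
          have := (((hasDerivAt_id ρ).mul_const μ).pow 2).neg
          convert! this using 1
          simp
        exact h1.exp
      have ha : HasDerivAt (fun ρ : ℝ => -(μ ^ 2 / (2 * ρ))) (μ ^ 2 / (2 * ρ ^ 2)) ρ := by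
        have h1 : HasDerivAt (fun ρ : ℝ => ρ⁻¹) (-(ρ ^ 2)⁻¹) ρ := hasDerivAt_inv hρ0
        have := h1.const_mul (-(μ ^ 2 / 2))
        convert! this using 1
        · ext y; simp only [div_eq_mul_inv, mul_inv]; ring
        · field_simp
      have hb : HasDerivAt (fun ρ : ℝ => 1 / (4 * ρ ^ 3)) (-(3 / (4 * ρ ^ 4))) ρ := by
        have h1 : HasDerivAt (fun ρ : ℝ => (ρ ^ 3)⁻¹) (-(3 * ρ ^ 2) / (ρ ^ 3) ^ 2) ρ := by
          have := (hasDerivAt_pow 3 ρ).inv (by positivity)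
          convert! this using 1
        have := h1.const_mul (1 / 4)
        convert! this using 1
        · ext y; simp only [one_div, mul_inv]
        · field_simp
      have := (ha.mul he).add (hb.mul he)
      convert! this using 1
      field_simp
      ring
    · exact hI.sub (hJ.const_mul (3 / 4))
    · have h1 : Tendsto (fun ρ : ℝ => μ ^ 2 / 2 * ρ⁻¹ + 1 / 4 * (ρ ^ 3)⁻¹) atTop (𝓝 0) := by
        have a1 := (tendsto_inv_atTop_zero (𝕜 := ℝ)).const_mul (μ ^ 2 / 2)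
        have a2 : Tendsto (fun ρ : ℝ => (ρ ^ 3)⁻¹) atTop (𝓝 0) :=
          (tendsto_pow_atTop (by norm_num : (3 : ℕ) ≠ 0)).inv_tendsto_atTop
        have := a1.add (a2.const_mul (1 / 4))
        simpa using this
      refine squeeze_zero_norm' ?_ h1
      filter_upwards [eventually_gt_atTop (0 : ℝ)] with ρ hρ
      have he : Real.exp (-(ρ * μ) ^ 2) ≤ 1 := by
        rw [Real.exp_le_one_iff]; nlinarith [sq_nonneg (ρ * μ)]
      have he0 := Real.exp_pos (-(ρ * μ) ^ 2)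
      have b1 : 0 ≤ μ ^ 2 / (2 * ρ) := by positivity
      have b2 : 0 ≤ 1 / (4 * ρ ^ 3) := by positivity
      calc ‖-(μ ^ 2 / (2 * ρ)) * Real.exp (-(ρ * μ) ^ 2) +
            (1 / (4 * ρ ^ 3)) * Real.exp (-(ρ * μ) ^ 2)‖
          ≤ μ ^ 2 / (2 * ρ) * Real.exp (-(ρ * μ) ^ 2) +
            (1 / (4 * ρ ^ 3)) * Real.exp (-(ρ * μ) ^ 2) := by
            refine (norm_add_le _ _).trans (le_of_eq ?_)
            rw [norm_mul, norm_mul, norm_neg, Real.norm_of_nonneg b1, Real.norm_of_nonneg b2,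
              Real.norm_of_nonneg he0.le]
        _ ≤ μ ^ 2 / (2 * ρ) * 1 + (1 / (4 * ρ ^ 3)) * 1 := by gcongr
        _ = _ := by field_simp
  rw [integral_sub hI (hJ.const_mul _), integral_const_mul, integral_const_mul] at hH
  rcases hμ.eq_or_lt with h | h
  · subst h
    simp only [mul_zero, ne_eq, OfNat.ofNat_ne_zero, not_false_eq_true, zero_pow, zero_mul,
      zero_div, zero_sub, neg_zero, Real.exp_zero, mul_one, one_pow, zero_add] at hH ⊢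
    linarith
  · have hG : ∫ ρ in Ioi (0 : ℝ), Real.exp (-(ρ * μ) ^ 2) = √π / μ / 2 := by
      have := integral_gaussian_Ioi (μ ^ 2)
      have e : ∀ ρ : ℝ, Real.exp (-(ρ * μ) ^ 2) = Real.exp (-μ ^ 2 * ρ ^ 2) := by
        intro ρ; congr 1; ring
      simp only [e]
      rw [this, Real.sqrt_div Real.pi_pos.le, Real.sqrt_sq h.le]
    have hI0 : Integrable (fun ρ : ℝ => Real.exp (-(ρ * μ) ^ 2)) := by
      have := (integrable_exp_neg_mul_sq (by positivity : 0 < μ ^ 2))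
      refine (this.congr (ae_of_all _ fun ρ => ?_))
      simp only; congr 1; ring
    have hsplit : ∫ ρ in Ioi (0 : ℝ), Real.exp (-(ρ * μ) ^ 2) =
        (∫ ρ in Ioc (0 : ℝ) 1, Real.exp (-(ρ * μ) ^ 2)) +
          ∫ ρ in Ioi (1 : ℝ), Real.exp (-(ρ * μ) ^ 2) := by
      rw [← setIntegral_union (by
        rw [Set.disjoint_left]; intro x hx hx'; exact absurd hx.2 (not_le.mpr hx'))
        measurableSet_Ioi hI0.integrableOn hI0.integrableOn, Ioc_union_Ioi_eq_Ioi zero_le_one]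
    have h3 : (∫ ρ in Ioi (1 : ℝ), Real.exp (-(ρ * μ) ^ 2)) =
        √π / μ / 2 - ∫ ρ in Ioc (0 : ℝ) 1, Real.exp (-(ρ * μ) ^ 2) := by
      rw [← hG, hsplit]; ring
    rw [h3] at hH
    have h4 : μ ^ 4 * (√π / μ / 2) = √π / 2 * μ ^ 3 := by field_simp
    simp only [one_mul, mul_one, one_pow] at hH
    rw [mul_sub, h4] at hH
    linarith

end H5a

/-- **H5a.** -/
theorem fracLap_decay (φ : 𝓢(E 3, ℂ)) :
    Integrable (fun x : E 3 => (1 + ‖x‖ ^ 2) * ‖fracLap φ x‖) := by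
  -- auxiliary Schwartz functions
  have hT : Function.HasTemperateGrowth (fun ξ : E 3 => (((2 * π) ^ 2 * ‖ξ‖ ^ 2 : ℝ) : ℂ)) := by
    have h1 : Function.HasTemperateGrowth (fun ξ : E 3 => ((2 * π) ^ 2 * ‖ξ‖ ^ 2 : ℝ)) := by
      exact (Function.HasTemperateGrowth.const _).mul (Function.hasTemperateGrowth_norm_sq (H := E 3))
    exact Function.Complex.hasTemperateGrowth_ofReal.comp h1
  set T := SchwartzMap.smulLeftCLM ℂ (fun ξ : E 3 => (((2 * π) ^ 2 * ‖ξ‖ ^ 2 : ℝ) : ℂ)) with hTdef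
  let g2 : 𝓢(E 3, ℂ) := 𝓕⁻ (T (𝓕 φ))
  let g4 : 𝓢(E 3, ℂ) := 𝓕⁻ (T (T (𝓕 φ)))
  have e0 : ∀ f : 𝓢(E 3, ℂ), 𝓕 (f : E 3 → ℂ) = (𝓕 f : 𝓢(E 3, ℂ)) := fun f =>
    (SchwartzMap.fourier_coe f).symm
  have e2 : ∀ ξ, 𝓕 (g2 : E 3 → ℂ) ξ = (((2 * π * ‖ξ‖) ^ 2 : ℝ) : ℂ) * 𝓕 (φ : E 3 → ℂ) ξ := by
    intro ξ
    rw [e0, e0]
    have : 𝓕 g2 = T (𝓕 φ) := FourierTransform.fourier_fourierInv_eq _
    rw [this, hTdef, SchwartzMap.smulLeftCLM_apply_apply hT, smul_eq_mul]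
    congr 2; ring
  have e4 : ∀ ξ, 𝓕 (g4 : E 3 → ℂ) ξ = (((2 * π * ‖ξ‖) ^ 4 : ℝ) : ℂ) * 𝓕 (φ : E 3 → ℂ) ξ := by
    intro ξ
    rw [e0, e0]
    have : 𝓕 g4 = T (T (𝓕 φ)) := FourierTransform.fourier_fourierInv_eq _
    rw [this, hTdef, SchwartzMap.smulLeftCLM_apply_apply hT,
      SchwartzMap.smulLeftCLM_apply_apply hT, smul_eq_mul, smul_eq_mul, ← mul_assoc]
    congr 1
    push_cast; ring
  -- the four pieces
  have d1 := H5a.dec_line (Ioc (0 : ℝ) 1) (fun _ => 1) measurable_const (by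
    refine Integrable.mono' (g := fun _ => (2 : ℝ)) (by simp) (by fun_prop) ?_
    refine (ae_restrict_iff' measurableSet_Ioc).mpr (ae_of_all _ fun ρ hρ => ?_)
    rw [Real.norm_of_nonneg (by positivity)]
    simp only [norm_one, mul_one]
    nlinarith [hρ.1, hρ.2]) g4
  have d2 := H5a.dec_point g2
  have d3 := H5a.dec_point φ
  have d4 := H5a.dec_line (Ioi (1 : ℝ)) (fun ρ => (((ρ ^ 4)⁻¹ : ℝ) : ℂ)) (by fun_prop) (by
    have hr : IntegrableOn (fun ρ : ℝ => 2 * (ρ ^ 2)⁻¹) (Ioi 1) := by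
      have h0 : IntegrableOn (fun ρ : ℝ => (ρ ^ 2)⁻¹) (Ioi 1) := by
        have := (integrableOn_Ioi_rpow_of_lt (by norm_num : (-2 : ℝ) < -1) (zero_lt_one))
        refine this.congr_fun (fun ρ hρ => ?_) measurableSet_Ioi
        have hρ0 : 0 < ρ := lt_trans zero_lt_one hρ
        simp only
        rw [Real.rpow_neg hρ0.le]
        congr 1
        exact_mod_cast Real.rpow_natCast ρ 2
      exact h0.const_mul 2
    refine Integrable.mono' hr (by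
      apply Measurable.aestronglyMeasurable; fun_prop) ?_
    refine (ae_restrict_iff' measurableSet_Ioi).mpr (ae_of_all _ fun ρ hρ => ?_)
    have hρ1 : (1 : ℝ) < ρ := hρ
    rw [Real.norm_of_nonneg (by positivity), Complex.norm_real, Real.norm_of_nonneg (by positivity)]
    rw [← div_eq_mul_inv, ← div_eq_mul_inv, div_le_div_iff₀ (by positivity) (by positivity)]
    nlinarith [sq_nonneg ρ, mul_pos (sub_pos.mpr hρ1) (sub_pos.mpr hρ1), pow_pos (lt_trans zero_lt_one hρ1) 2, pow_pos (lt_trans zero_lt_one hρ1) 4, mul_nonneg (sq_nonneg ρ) (mul_nonneg (sub_pos.mpr hρ1).le (by linarith : 0 ≤ ρ + 1))]) φ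
  have dall := ((d1.add (d2.const_mul (1 / 2))).add (d3.const_mul (-(1 / 4)))).add
    (d4.const_mul (3 / 4))
  have dfin := (dall.const_mul (2 / (√π : ℂ))).2
  refine dfin.congr (ae_of_all _ fun x => ?_)
  simp only
  congr 2
  unfold fracLap
  refine congrFun (congrArg _ (funext fun ξ => ?_)) x
  rw [e2, e4]
  have hs := H5a.scalar_id (2 * π * ‖ξ‖) (by positivity)
  have hπ : (√π : ℝ) ≠ 0 := by positivity
  have hs' : (2 * π * ‖ξ‖) ^ 3 = (2 / √π) *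
      ((∫ ρ in Ioc (0 : ℝ) 1, Real.exp (-(ρ * (2 * π * ‖ξ‖)) ^ 2)) * (2 * π * ‖ξ‖) ^ 4 +
      ((2 * π * ‖ξ‖) ^ 2 / 2 - 1 / 4) * Real.exp (-(2 * π * ‖ξ‖) ^ 2) +
      (3 / 4) * ∫ ρ in Ioi (1 : ℝ), (ρ ^ 4)⁻¹ * Real.exp (-(ρ * (2 * π * ‖ξ‖)) ^ 2)) := by
    rw [← hs]; field_simp
  rw [hs']
  simp only [one_mul, ← Complex.ofReal_mul]
  rw [integral_complex_ofReal, integral_complex_ofReal]
  push_cast
  ring

end Pool.Agent.QGlue
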