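import Pool.Agent.QGlue.DefsH
import Pool.Agent.QGlue.H5a

/-! # Schwartz functions give test pairs in dimension three -/

set_option autoImplicit false

namespace Pool.Agent.QGlue

open MeasureTheory Real Set Filter Topology
open scoped FourierTransform SchwartzMap ContDiff Laplacian

/-- The symbol times the Fourier transform. -/
private noncomputable def symF (φ : 𝓢(E 3, ℂ)) (ξ : E 3) : ℂ :=
  (((2 * π * ‖ξ‖) ^ 3 : ℝ) : ℂ) * 𝓕 (φ : E 3 → ℂ) ξ

private lemma fracLap_eq (φ : 𝓢(E 3, ℂ)) : fracLap φ = 𝓕⁻ (symF φ) := by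
  funext x; rfl

private lemma symF_cont (φ : 𝓢(E 3, ℂ)) : Continuous (symF φ) := by
  have h : Continuous (𝓕 (φ : E 3 → ℂ)) := by
    rw [← SchwartzMap.fourier_coe]; exact (𝓕 φ).continuous
  unfold symF
  exact (Complex.continuous_ofReal.comp (by fun_prop)).mul h

private lemma symF_int (φ : 𝓢(E 3, ℂ)) : Integrable (symF φ) := by
  have h := (𝓕 φ).integrable_pow_mul volume 3
  refine (h.const_mul ((2 * π) ^ 3)).mono' (symF_cont φ).aestronglyMeasurable ?_
  refine Eventually.of_forall fun ξ => ?_
  unfold symF
  rw [norm_mul, Complex.norm_real, Real.norm_of_nonneg (by positivity)]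
  rw [SchwartzMap.fourier_coe]
  exact le_of_eq (by ring)

theorem testPair_three (φ : 𝓢(E 3, ℂ)) : TestPair 3 (φ : E 3 → ℂ) (fracLap φ) where
  contψ := φ.continuous
  contΨ := by
    rw [fracLap_eq, Real.fourierInv_eq_fourier_comp_neg]
    exact VectorFourier.fourierIntegral_continuous Real.continuous_fourierChar
      (innerSL ℝ).continuous₂ (symF_int φ).comp_neg
  intψ := φ.integrable
  bddψ := ⟨SchwartzMap.seminorm ℝ 0 0 φ, fun x => φ.norm_le_seminorm ℝ x⟩
  bddΨ := by
    refine ⟨∫ ξ, ‖symF φ ξ‖, fun x => ?_⟩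
    rw [fracLap_eq, Real.fourierInv_eq]
    refine (norm_integral_le_integral_norm _).trans (le_of_eq ?_)
    simp only [Circle.norm_smul]
  intΨ := fracLap_decay φ
  intF := by
    have h0 := (𝓕 φ).integrable_pow_mul volume 0
    have h3 := (𝓕 φ).integrable_pow_mul volume 3
    refine (h0.add h3).congr (Eventually.of_forall fun ξ => ?_)
    simp only [Pi.add_apply]
    rw [SchwartzMap.fourier_coe]
    ring
  rel := by
    have hint : Integrable (𝓕 (symF φ)) := by
      have h1 : Integrable (fracLap φ) := by
        have hc : Continuous (fracLap φ) := by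
          rw [fracLap_eq, Real.fourierInv_eq_fourier_comp_neg]
          exact VectorFourier.fourierIntegral_continuous Real.continuous_fourierChar
            (innerSL ℝ).continuous₂ (symF_int φ).comp_neg
        refine (fracLap_decay φ).mono' hc.aestronglyMeasurable (Eventually.of_forall fun x => ?_)
        have : 0 ≤ ‖x‖ ^ 2 * ‖fracLap φ x‖ := by positivity
        linarith
      have h2 : 𝓕 (symF φ) = fun x => fracLap φ (-x) := by
        funext x
        rw [fracLap_eq, Real.fourierInv_eq_fourier_neg, neg_neg]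
      rw [h2]; exact h1.comp_neg
    intro ξ
    rw [fracLap_eq, (symF_cont φ).fourier_fourierInv_eq (symF_int φ) hint]
    rfl

end Pool.Agent.QGlue
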