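import Pool.Agent.QGlue.DefsK

set_option autoImplicit false

namespace Pool.Agent.QGlue

open MeasureTheory Real Set Filter Topology

private lemma I1_exists_pos_le {ι : Type} [Fintype ι] (f : ι → ℝ) (hf : ∀ i, 0 < f i) :
    ∃ δ, 0 < δ ∧ ∀ i, δ ≤ f i := by
  classical
  refine ⟨1 / (1 + ∑ i, 1 / f i), ?_, ?_⟩
  · have : 0 ≤ ∑ i, 1 / f i := Finset.sum_nonneg (fun i _ => (one_div_pos.mpr (hf i)).le)
    positivity
  · intro i
    have h1 : 1 / f i ≤ ∑ i, 1 / f i :=
      Finset.single_le_sum (f := fun i => 1 / f i) (fun i _ => (one_div_pos.mpr (hf i)).le)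
        (Finset.mem_univ i)
    have h2 : 1 / f i ≤ 1 + ∑ i, 1 / f i := by linarith
    have h3 := one_div_le_one_div_of_le (one_div_pos.mpr (hf i)) h2
    simpa using h3

/-- the density to be maximised -/
private noncomputable def I1_G (Q : ℝ) (N : ℕ) (x : Fin N → ℝ) : ℝ :=
  (∏ j, (x j) ^ Q) * (∏ j, ∏ i ∈ Finset.univ.erase j, |x j - x i|) * Real.exp (- ∑ j, x j)

private lemma I1_G_cont (Q : ℝ) (hQ : 0 < Q) (N : ℕ) : Continuous (I1_G Q N) := by
  unfold I1_G
  refine Continuous.mul (Continuous.mul ?_ ?_) ?_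
  · refine continuous_finsetProd _ (fun j _ => ?_)
    exact (Real.continuous_rpow_const hQ.le).comp (continuous_apply j)
  · fun_prop
  · fun_prop

private lemma I1_G_le (Q : ℝ) (hQ : 0 < Q) (N : ℕ) (x : Fin N → ℝ) (hx : ∀ j, 0 ≤ x j) :
    I1_G Q N x ≤ (((∑ j, x j) ^ Q) ^ N * (∏ j : Fin N, (∑ j, x j) ^ (Finset.univ.erase j).card)) *
      Real.exp (- ∑ j, x j) := by
  unfold I1_G
  have hs : ∀ j, x j ≤ ∑ j, x j := fun j =>
    Finset.single_le_sum (f := x) (fun i _ => hx i) (Finset.mem_univ j)
  refine mul_le_mul_of_nonneg_right ?_ (Real.exp_pos _).le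
  refine mul_le_mul ?_ ?_ ?_ ?_
  · calc ∏ j, (x j) ^ Q ≤ ∏ _j : Fin N, (∑ j, x j) ^ Q := by
          refine Finset.prod_le_prod (fun j _ => Real.rpow_nonneg (hx j) _) (fun j _ => ?_)
          exact Real.rpow_le_rpow (hx j) (hs j) hQ.le
      _ = _ := by simp
  · refine Finset.prod_le_prod (fun j _ => Finset.prod_nonneg (fun i _ => abs_nonneg _))
      (fun j _ => ?_)
    calc ∏ i ∈ Finset.univ.erase j, |x j - x i| ≤ ∏ _i ∈ Finset.univ.erase j, (∑ j, x j) := by
          refine Finset.prod_le_prod (fun i _ => abs_nonneg _) (fun i _ => ?_)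
          rw [abs_le]
          constructor <;> linarith [hs i, hs j, hx i, hx j]
      _ = _ := by simp
  · exact Finset.prod_nonneg (fun j _ => Finset.prod_nonneg (fun i _ => abs_nonneg _))
  · exact pow_nonneg (Real.rpow_nonneg (Finset.sum_nonneg (fun j _ => hx j)) _) _

private lemma I1_tendsto (Q : ℝ) (N : ℕ) :
    Tendsto (fun s : ℝ => ((s ^ Q) ^ N * (∏ j : Fin N, s ^ (Finset.univ.erase j).card)) *
      Real.exp (- s)) atTop (𝓝 0) := by
  have h := tendsto_rpow_mul_exp_neg_mul_atTop_nhds_zero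
    (Q * N + (∑ j : Fin N, (Finset.univ.erase j).card : ℕ)) 1 one_pos
  refine h.congr' ?_
  filter_upwards [eventually_gt_atTop 0] with s hs
  rw [Real.rpow_add hs, Real.rpow_mul hs.le, Real.rpow_natCast, Real.rpow_natCast,
    Finset.prod_pow_eq_pow_sum, neg_one_mul]

private lemma I1_max (Q : ℝ) (hQ : 0 < Q) (N : ℕ) : ∃ x : Fin N → ℝ, StrictMono x ∧
    (∀ i, 0 < x i) ∧ ∀ y : Fin N → ℝ, (∀ i, 0 ≤ y i) → Monotone y → I1_G Q N y ≤ I1_G Q N x := by
  set x0 : Fin N → ℝ := fun i => (i : ℝ) + 1 with hx0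
  have hx0m : StrictMono x0 := by
    intro i j hij
    simp only [hx0]
    have : (i : ℕ) < (j : ℕ) := hij
    have : ((i : ℕ) : ℝ) < (j : ℕ) := by exact_mod_cast this
    linarith
  have hx0p : ∀ i, 0 < x0 i := fun i => by simp only [hx0]; positivity
  have hpos : ∀ x : Fin N → ℝ, StrictMono x → (∀ i, 0 < x i) → 0 < I1_G Q N x := by
    intro x hm hp
    unfold I1_G
    refine mul_pos (mul_pos ?_ ?_) (Real.exp_pos _)
    · exact Finset.prod_pos (fun j _ => Real.rpow_pos_of_pos (hp j) _)
    · refine Finset.prod_pos (fun j _ => Finset.prod_pos (fun i hi => ?_))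
      rw [abs_pos, sub_ne_zero]
      exact fun h => (Finset.ne_of_mem_erase hi) (hm.injective h).symm
  have hG0 := hpos x0 hx0m hx0p
  obtain ⟨R, hR⟩ := (Filter.eventually_atTop.mp
    ((I1_tendsto Q N).eventually (gt_mem_nhds hG0)))
  set K : Set (Fin N → ℝ) := {x | (∀ i, x i ∈ Set.Icc 0 (max R (∑ j, x0 j)))} ∩
    {x | Monotone x} with hK
  have hKc : IsCompact K := by
    have h1 : IsCompact {x : Fin N → ℝ | (∀ i, x i ∈ Set.Icc 0 (max R (∑ j, x0 j)))} := by
      have := isCompact_univ_pi (s := fun _ : Fin N => Set.Icc (0:ℝ) (max R (∑ j, x0 j)))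
        (fun _ => isCompact_Icc)
      convert this using 1
      ext x
      exact ⟨fun h i _ => h i, fun h i => h i (Set.mem_univ i)⟩
    refine h1.inter_right ?_
    have : {x : Fin N → ℝ | Monotone x} = ⋂ (i : Fin N) (j : Fin N) (_ : i ≤ j),
        {x : Fin N → ℝ | x i ≤ x j} := by
      ext x
      simp [Monotone]
    rw [this]
    exact isClosed_iInter (fun i => isClosed_iInter (fun j => isClosed_iInter (fun _ =>
      isClosed_le (continuous_apply i) (continuous_apply j))))
  have hx0K : x0 ∈ K := by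
    refine ⟨fun i => ⟨(hx0p i).le, ?_⟩, hx0m.monotone⟩
    exact (Finset.single_le_sum (f := x0) (fun i _ => (hx0p i).le) (Finset.mem_univ i)).trans
      (le_max_right _ _)
  obtain ⟨x, hxK, hxmax⟩ := hKc.exists_isMaxOn ⟨x0, hx0K⟩ (I1_G_cont Q hQ N).continuousOn
  have hxG : I1_G Q N x0 ≤ I1_G Q N x := hxmax hx0K
  have hxp : 0 < I1_G Q N x := hG0.trans_le hxG
  have hne : I1_G Q N x ≠ 0 := hxp.ne'
  have hx0' : ∀ i, 0 < x i := by
    intro i
    refine lt_of_le_of_ne (hxK.1 i).1 (fun h => hne ?_)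
    unfold I1_G
    have : ∏ j, (x j) ^ Q = 0 := Finset.prod_eq_zero (Finset.mem_univ i) (by
      rw [← h, Real.zero_rpow hQ.ne'])
    rw [this, zero_mul, zero_mul]
  have hxinj : Function.Injective x := by
    intro i j hij
    by_contra hne'
    refine hne ?_
    unfold I1_G
    have : ∏ j, ∏ i ∈ Finset.univ.erase j, |x j - x i| = 0 := by
      refine Finset.prod_eq_zero (Finset.mem_univ i) ?_
      refine Finset.prod_eq_zero (Finset.mem_erase.mpr ⟨Ne.symm hne', Finset.mem_univ j⟩) ?_
      rw [hij, sub_self, abs_zero]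
    rw [this, mul_zero, zero_mul]
  refine ⟨x, hxK.2.strictMono_of_injective hxinj, hx0', ?_⟩
  intro y hy0 hym
  by_cases hyR : ∑ j, y j ≤ max R (∑ j, x0 j)
  · refine hxmax ⟨fun i => ⟨hy0 i, ?_⟩, hym⟩
    exact (Finset.single_le_sum (f := y) (fun i _ => hy0 i) (Finset.mem_univ i)).trans hyR
  · push Not at hyR
    have h1 := I1_G_le Q hQ N y hy0
    have h2 := hR (∑ j, y j) ((le_max_left _ _).trans hyR.le)
    exact (h1.trans h2.le).trans hxG

theorem far_eq (Q : ℝ) (hQ : 0 < Q) (N : ℕ) : ∃ x : Fin N → ℝ, StrictMono x ∧ (∀ i, 0 < x i) ∧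
    ∀ j, farM Q x j = 0 := by
  obtain ⟨x, hxm, hxp, hmax⟩ := I1_max Q hQ N
  refine ⟨x, hxm, hxp, fun k => ?_⟩
  -- the path
  set y : ℝ → Fin N → ℝ := fun t => Function.update x k t with hy
  set L : ℝ → ℝ := fun t => Q * ∑ j, Real.log (y t j) +
    (∑ j, ∑ i ∈ Finset.univ.erase j, Real.log (y t j - y t i)) - ∑ j, y t j with hL
  have hyk : y (x k) = x := by simp [hy]
  have hder : ∀ j, HasDerivAt (fun t => y t j) (if j = k then 1 else 0) (x k) := by
    intro j
    by_cases hjk : j = k
    · subst hjk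
      simpa [hy] using hasDerivAt_id' (x j)
    · simpa [hy, hjk] using hasDerivAt_const (x k) (x j)
  have hxne : ∀ i j, i ≠ j → x i - x j ≠ 0 := fun i j hij =>
    sub_ne_zero.mpr (fun h => hij (hxm.injective h))
  have hLder : HasDerivAt L (Q * (∑ j, (if j = k then 1 else 0) / x j) +
      (∑ j, ∑ i ∈ Finset.univ.erase j, ((if j = k then 1 else 0) - (if i = k then 1 else 0)) /
        (x j - x i)) - ∑ j, (if j = k then (1:ℝ) else 0)) (x k) := by
    have h1 : HasDerivAt (fun t => Q * ∑ j, Real.log (y t j))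
        (Q * (∑ j, (if j = k then 1 else 0) / x j)) (x k) := by
      refine HasDerivAt.const_mul Q ?_
      refine HasDerivAt.fun_sum (fun j _ => ?_)
      have := (hder j).log (by rw [hyk]; exact (hxp j).ne')
      rwa [hyk] at this
    have h2 : HasDerivAt (fun t => ∑ j, ∑ i ∈ Finset.univ.erase j, Real.log (y t j - y t i))
        (∑ j, ∑ i ∈ Finset.univ.erase j, ((if j = k then 1 else 0) - (if i = k then 1 else 0)) /
        (x j - x i)) (x k) := by
      refine HasDerivAt.fun_sum (fun j _ => HasDerivAt.fun_sum (fun i hi => ?_))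
      have := ((hder j).sub (hder i)).log (by
        simp only [Pi.sub_apply]
        rw [hyk]; exact hxne j i (Ne.symm (Finset.ne_of_mem_erase hi)))
      simp only [Pi.sub_apply] at this
      rwa [hyk] at this
    have h3 : HasDerivAt (fun t => ∑ j, y t j) (∑ j, (if j = k then (1:ℝ) else 0)) (x k) :=
      HasDerivAt.fun_sum (fun j _ => hder j)
    exact (h1.add h2).sub h3
  have hloc : IsLocalMax L (x k) := by
    -- near x k the path stays in the open chamber
    have hev1 : ∀ᶠ t in 𝓝 (x k), ∀ j, 0 < y t j := by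
      rw [Filter.eventually_all]
      intro j
      have hc : ContinuousAt (fun t => y t j) (x k) := (hder j).continuousAt
      have : 0 < y (x k) j := by rw [hyk]; exact hxp j
      exact hc.eventually (lt_mem_nhds this)
    have hev2 : ∀ᶠ t in 𝓝 (x k), ∀ i j, i < j → y t i < y t j := by
      rw [Filter.eventually_all]
      intro i
      rw [Filter.eventually_all]
      intro j
      by_cases hij : i < j
      · have hc : ContinuousAt (fun t => y t j - y t i) (x k) :=
          ((hder j).sub (hder i)).continuousAt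
        have : 0 < y (x k) j - y (x k) i := by rw [hyk]; exact sub_pos.mpr (hxm hij)
        filter_upwards [hc.eventually (lt_mem_nhds this)] with t ht
        intro _
        linarith
      · exact Filter.Eventually.of_forall (fun t h => absurd h hij)
    have hlog : ∀ z : Fin N → ℝ, (∀ j, 0 < z j) → StrictMono z →
        Real.log (I1_G Q N z) = Q * ∑ j, Real.log (z j) +
          (∑ j, ∑ i ∈ Finset.univ.erase j, Real.log (z j - z i)) - ∑ j, z j ∧
          0 < I1_G Q N z := by
      intro z hz hzm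
      have hA : ∀ j, 0 < (z j) ^ Q := fun j => Real.rpow_pos_of_pos (hz j) _
      have hB : ∀ j, ∀ i ∈ Finset.univ.erase j, 0 < |z j - z i| := by
        intro j i hi
        rw [abs_pos, sub_ne_zero]
        exact fun h => (Finset.ne_of_mem_erase hi) (hzm.injective h).symm
      have hA' : 0 < ∏ j, (z j) ^ Q := Finset.prod_pos (fun j _ => hA j)
      have hB' : 0 < ∏ j, ∏ i ∈ Finset.univ.erase j, |z j - z i| :=
        Finset.prod_pos (fun j _ => Finset.prod_pos (hB j))
      constructor
      · unfold I1_G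
        rw [Real.log_mul (mul_pos hA' hB').ne' (Real.exp_pos _).ne', Real.log_exp,
          Real.log_mul hA'.ne' hB'.ne', Real.log_prod (fun j _ => (hA j).ne'),
          Real.log_prod (fun j _ => (Finset.prod_pos (hB j)).ne')]
        have e1 : ∑ j, Real.log ((z j) ^ Q) = Q * ∑ j, Real.log (z j) := by
          rw [Finset.mul_sum]
          exact Finset.sum_congr rfl (fun j _ => Real.log_rpow (hz j) _)
        have e2 : ∑ j, Real.log (∏ i ∈ Finset.univ.erase j, |z j - z i|) =
            ∑ j, ∑ i ∈ Finset.univ.erase j, Real.log (z j - z i) := by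
          refine Finset.sum_congr rfl (fun j _ => ?_)
          rw [Real.log_prod (fun i hi => (hB j i hi).ne')]
          exact Finset.sum_congr rfl (fun i _ => Real.log_abs _)
        rw [e1, e2]
        ring
      · exact mul_pos (mul_pos hA' hB') (Real.exp_pos _)
    filter_upwards [hev1, hev2] with t ht1 ht2
    have hsm : StrictMono (y t) := fun i j hij => ht2 i j hij
    have a1 := hlog (y t) ht1 hsm
    have a2 := hlog x hxp hxm
    have a3 := hmax (y t) (fun i => (ht1 i).le) hsm.monotone
    have a4 := Real.log_le_log a1.2 a3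
    rw [a1.1, a2.1] at a4
    simp only [hL]
    rw [hyk]
    exact a4
  have h0 := hloc.hasDerivAt_eq_zero hLder
  -- simplify
  have s1 : ∑ j, (if j = k then (1:ℝ) else 0) / x j = 1 / x k := by
    rw [Finset.sum_eq_single k]
    · simp
    · intro b _ hb; simp [hb]
    · intro h; exact absurd (Finset.mem_univ k) h
  have s3 : ∑ j, (if j = k then (1:ℝ) else 0) = 1 := by simp
  have s2 : (∑ j, ∑ i ∈ Finset.univ.erase j,
      (((if j = k then (1:ℝ) else 0) - (if i = k then 1 else 0)) / (x j - x i))) =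
      ∑ i ∈ Finset.univ.erase k, 2 / (x k - x i) := by
    have e1 : ∀ j ∈ (Finset.univ : Finset (Fin N)), ∑ i ∈ Finset.univ.erase j,
        (((if j = k then (1:ℝ) else 0) - (if i = k then 1 else 0)) / (x j - x i)) =
        (if j = k then ∑ i ∈ Finset.univ.erase k, 1 / (x k - x i) else 1 / (x k - x j)) := by
      intro j _
      by_cases hjk : j = k
      · subst hjk
        simp only [if_true]
        refine Finset.sum_congr rfl (fun i hi => ?_)
        rw [if_neg (Finset.ne_of_mem_erase hi), sub_zero]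
      · simp only [if_neg hjk]
        rw [Finset.sum_eq_single k]
        · rw [if_pos rfl, zero_sub, neg_div, ← div_neg, neg_sub]
        · intro b _ hb
          rw [if_neg hb]; simp
        · intro h
          exact absurd (Finset.mem_erase.mpr ⟨Ne.symm hjk, Finset.mem_univ k⟩) h
    rw [Finset.sum_congr rfl e1, ← Finset.add_sum_erase _ _ (Finset.mem_univ k), if_pos rfl]
    have e3 : ∑ j ∈ Finset.univ.erase k,
        (if j = k then ∑ i ∈ Finset.univ.erase k, 1 / (x k - x i) else 1 / (x k - x j)) =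
        ∑ j ∈ Finset.univ.erase k, 1 / (x k - x j) :=
      Finset.sum_congr rfl (fun j hj => by rw [if_neg (Finset.ne_of_mem_erase hj)])
    rw [e3, ← Finset.sum_add_distrib]
    exact Finset.sum_congr rfl (fun j _ => by ring)
  rw [s1, s2, s3] at h0
  unfold farM
  have : Q * (1 / x k) = Q / x k := by ring
  linarith

theorem far_stable (Q : ℝ) (hQ : 0 < Q) (N : ℕ) : ∃ (x : Fin N → ℝ) (δ c : ℝ), 0 < δ ∧ 0 < c ∧
    (∀ i, 4 * δ ≤ x i) ∧ (∀ i j, i < j → 4 * δ ≤ x j - x i) ∧
    ∀ y : Fin N → ℝ, (∀ i, |y i - x i| ≤ δ) → ∀ j,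
      (y j = x j + δ → c ≤ farM Q y j) ∧ (y j = x j - δ → farM Q y j ≤ - c) := by
  obtain ⟨x, hxm, hxp, h0⟩ := far_eq Q hQ N
  obtain ⟨δ1, hδ1, hδ1'⟩ := I1_exists_pos_le (fun i : Fin N => x i) hxp
  obtain ⟨δ2, hδ2, hδ2'⟩ := I1_exists_pos_le
    (fun p : {p : Fin N × Fin N // p.1 < p.2} => x p.1.2 - x p.1.1)
    (fun p => sub_pos.mpr (hxm p.2))
  set δ := min δ1 δ2 / 4 with hδ
  have hδp : 0 < δ := by
    have := lt_min hδ1 hδ2
    positivity
  have hx4 : ∀ i, 4 * δ ≤ x i := fun i => by
    have := hδ1' i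
    have h := min_le_left δ1 δ2
    simp only [hδ]
    linarith
  have hxx4 : ∀ i j, i < j → 4 * δ ≤ x j - x i := fun i j hij => by
    have := hδ2' ⟨(i, j), hij⟩
    have h := min_le_right δ1 δ2
    simp only [hδ]
    simp only at this
    linarith
  obtain ⟨c, hc, hc'⟩ := I1_exists_pos_le (fun i : Fin N => Q * δ / (x i * (x i + δ)))
    (fun i => by have := hxp i; positivity)
  refine ⟨x, δ, c, hδp, hc, hx4, hxx4, ?_⟩
  intro y hy j
  have hxj := hxp j
  have hcj := hc' j
  have h4j := hx4 j
  have hfar := h0 j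
  unfold farM at hfar
  constructor
  · intro hyj
    have hsum : ∑ i ∈ Finset.univ.erase j, 2 / (y j - y i) ≤
        ∑ i ∈ Finset.univ.erase j, 2 / (x j - x i) := by
      refine Finset.sum_le_sum (fun i hi => ?_)
      have hyi := abs_le.mp (hy i)
      have hge : x j - x i ≤ y j - y i := by rw [hyj]; linarith [hyi.2]
      rcases lt_or_gt_of_ne (Finset.ne_of_mem_erase hi) with hij | hij
      · have := hxx4 i j hij
        exact div_le_div_of_nonneg_left (by norm_num) (by linarith) hge
      · have := hxx4 j i hij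
        have hneg : y j - y i < 0 := by rw [hyj]; linarith [hyi.1]
        have : 2 / -(x j - x i) ≤ 2 / -(y j - y i) :=
          div_le_div_of_nonneg_left (by norm_num) (by linarith) (by linarith)
        rw [div_neg, div_neg] at this
        linarith
    have hQ1 : Q / y j = Q / x j - Q * δ / (x j * (x j + δ)) := by
      rw [hyj]; field_simp; ring
    unfold farM
    rw [hQ1]
    linarith
  · intro hyj
    have hsum : ∑ i ∈ Finset.univ.erase j, 2 / (x j - x i) ≤
        ∑ i ∈ Finset.univ.erase j, 2 / (y j - y i) := by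
      refine Finset.sum_le_sum (fun i hi => ?_)
      have hyi := abs_le.mp (hy i)
      have hge : y j - y i ≤ x j - x i := by rw [hyj]; linarith [hyi.1]
      rcases lt_or_gt_of_ne (Finset.ne_of_mem_erase hi) with hij | hij
      · have := hxx4 i j hij
        have hp : 0 < y j - y i := by rw [hyj]; linarith [hyi.2]
        exact div_le_div_of_nonneg_left (by norm_num) hp hge
      · have := hxx4 j i hij
        have : 2 / -(y j - y i) ≤ 2 / -(x j - x i) :=
          div_le_div_of_nonneg_left (by norm_num) (by linarith) (by linarith)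
        rw [div_neg, div_neg] at this
        linarith
    have hxd : 0 < x j - δ := by linarith
    have hQ1 : Q / y j = Q / x j + Q * δ / (x j * (x j - δ)) := by
      rw [hyj]; field_simp; ring
    have hQ2 : Q * δ / (x j * (x j + δ)) ≤ Q * δ / (x j * (x j - δ)) := by
      refine div_le_div_of_nonneg_left (by positivity) (by positivity) ?_
      exact mul_le_mul_of_nonneg_left (by linarith) hxj.le
    unfold farM
    rw [hQ1]
    linarith

end Pool.Agent.QGlue
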