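import Pool.Agent.QGlue.DefsK

/-! Coordinates and isometries of `ℝ³` and `ℝ⁴`. -/

set_option autoImplicit false
open scoped BigOperators

namespace Pool.Agent.QGlue

theorem vec_norm_sq {n : ℕ} (hn : n = 3 ∨ n = 4) (x y z : ℝ) :
    ‖vec n x y z 0‖ ^ 2 = x ^ 2 + y ^ 2 + z ^ 2 := by
  rw [EuclideanSpace.norm_sq_eq]
  rcases hn with rfl | rfl
  · simp [vec, Fin.sum_univ_succ]; ring
  · simp [vec, Fin.sum_univ_succ]; ring

theorem vec_inner {n : ℕ} (hn : n = 3 ∨ n = 4) (x y z w x' y' z' : ℝ) :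
    inner ℝ (vec n x y z w) (vec n x' y' z' 0) = x * x' + y * y' + z * z' := by
  rw [PiLp.inner_apply]
  rcases hn with rfl | rfl
  · simp [vec, Fin.sum_univ_succ]; ring
  · simp [vec, Fin.sum_univ_succ]; ring

theorem vec_sub {n : ℕ} (x y z w x' y' z' w' : ℝ) :
    vec n x y z w - vec n x' y' z' w' = vec n (x - x') (y - y') (z - z') (w - w') := by
  ext i
  simp only [vec, PiLp.sub_apply]
  split_ifs <;> rfl

theorem vec_smul {n : ℕ} (c x y z w : ℝ) :
    c • vec n x y z w = vec n (c * x) (c * y) (c * z) (c * w) := by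
  ext i
  simp only [vec, PiLp.smul_apply, smul_eq_mul]
  split_ifs <;> rfl

theorem exists_vec {n : ℕ} (hn : n = 3 ∨ n = 4) (v : E n) : ∃ x y z w, v = vec n x y z w := by
  rcases hn with rfl | rfl
  · refine ⟨v 0, v 1, v 2, 0, ?_⟩
    ext i
    fin_cases i <;> simp [vec]
  · refine ⟨v 0, v 1, v 2, v 3, ?_⟩
    ext i
    fin_cases i <;> simp [vec]

theorem polAB_grad {n : ℕ} (hn : n = 3 ∨ n = 4) (a B : ℝ) (ha : 0 < a) (hB : 0 < B)
    (x y z w : ℝ) : (polAB n a B ha hB).grad (vec n x y z w)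
      = vec n (1 - 2 * a * x) (-2 * B * y) (-2 * B * z) (-2 * B * w) := by
  rcases hn with rfl | rfl
  · ext i
    fin_cases i <;> simp [vec, polAB, Pol.grad]
  · ext i
    fin_cases i <;> simp [vec, polAB, Pol.grad]

/-- Rotation of the plane of the coordinates 1 and 2. -/
private noncomputable def I2rotFun (n : ℕ) (h1 : 1 < n) (h2 : 2 < n) (c s : ℝ) (v : E n) : E n :=
  WithLp.toLp 2 (fun i : Fin n =>
    if i.val = 1 then c * v ⟨1, h1⟩ - s * v ⟨2, h2⟩
    else if i.val = 2 then s * v ⟨1, h1⟩ + c * v ⟨2, h2⟩ else v i)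

private theorem I2rot_inv (n : ℕ) (h1 : 1 < n) (h2 : 2 < n) (c s : ℝ) (h : c ^ 2 + s ^ 2 = 1)
    (v : E n) : I2rotFun n h1 h2 c (-s) (I2rotFun n h1 h2 c s v) = v := by
  ext i
  simp only [I2rotFun]
  by_cases hi1 : i.val = 1
  · have hi : i = ⟨1, h1⟩ := Fin.ext hi1
    subst hi
    simp
    linear_combination (v.ofLp ⟨1, h1⟩) * h
  · by_cases hi2 : i.val = 2
    · have hi : i = ⟨2, h2⟩ := Fin.ext hi2
      subst hi
      simp
      linear_combination (v.ofLp ⟨2, h2⟩) * h
    · simp [hi1, hi2]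

private noncomputable def I2rotLin (n : ℕ) (h1 : 1 < n) (h2 : 2 < n) (c s : ℝ)
    (h : c ^ 2 + s ^ 2 = 1) : E n ≃ₗ[ℝ] E n where
  toFun := I2rotFun n h1 h2 c s
  invFun := I2rotFun n h1 h2 c (-s)
  map_add' := by
    intro v w
    ext i
    simp only [I2rotFun, PiLp.add_apply]
    split_ifs <;> ring
  map_smul' := by
    intro a v
    ext i
    simp only [I2rotFun, PiLp.smul_apply, smul_eq_mul, RingHom.id_apply]
    split_ifs <;> ring
  left_inv := I2rot_inv n h1 h2 c s h
  right_inv := by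
    intro v
    have := I2rot_inv n h1 h2 c (-s) (by rw [neg_sq]; exact h) v
    rwa [neg_neg] at this

private theorem I2rot_norm {n : ℕ} (hn : n = 3 ∨ n = 4) (h1 : 1 < n) (h2 : 2 < n) (c s : ℝ)
    (h : c ^ 2 + s ^ 2 = 1) (v : E n) : ‖I2rotFun n h1 h2 c s v‖ = ‖v‖ := by
  have key : ‖I2rotFun n h1 h2 c s v‖ ^ 2 = ‖v‖ ^ 2 := by
    rw [EuclideanSpace.norm_sq_eq, EuclideanSpace.norm_sq_eq]
    rcases hn with rfl | rfl
    · simp only [I2rotFun, Fin.sum_univ_succ, Real.norm_eq_abs, sq_abs]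
      simp
      have e1 : (⟨1, h1⟩ : Fin 3) = 1 := rfl
      have e2 : (⟨2, h2⟩ : Fin 3) = 2 := rfl
      have e3 : (Fin.succ 1 : Fin 3) = 2 := rfl
      linear_combination (v.ofLp 1 ^ 2 + v.ofLp 2 ^ 2) * h
    · simp only [I2rotFun, Fin.sum_univ_succ, Real.norm_eq_abs, sq_abs]
      simp
      linear_combination (v.ofLp 1 ^ 2 + v.ofLp 2 ^ 2) * h
  have := congrArg Real.sqrt key
  rwa [Real.sqrt_sq (norm_nonneg _), Real.sqrt_sq (norm_nonneg _)] at this

theorem exists_rot {n : ℕ} (hn : n = 3 ∨ n = 4) (c s : ℝ) (h : c ^ 2 + s ^ 2 = 1) :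
    ∃ g : E n ≃ₗᵢ[ℝ] E n, (∀ x y z w,
      g (vec n x y z w) = vec n x (c * y - s * z) (s * y + c * z) w) ∧
      ∀ (a B : ℝ) (ha : 0 < a) (hB : 0 < B) (v : E n),
        (polAB n a B ha hB).eval (g v) = (polAB n a B ha hB).eval v := by
  have h1 : 1 < n := by rcases hn with rfl | rfl <;> norm_num
  have h2 : 2 < n := by rcases hn with rfl | rfl <;> norm_num
  refine ⟨⟨I2rotLin n h1 h2 c s h, I2rot_norm hn h1 h2 c s h⟩, ?_, ?_⟩
  · intro x y z w
    show I2rotFun n h1 h2 c s (vec n x y z w) = _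
    ext i
    simp only [I2rotFun, vec]
    by_cases hi0 : i.val = 0
    · simp [hi0]
    · by_cases hi1 : i.val = 1
      · simp [hi1]
      · by_cases hi2 : i.val = 2
        · simp [hi2]
        · simp [hi0, hi1, hi2]
  · intro a B ha hB v
    show (polAB n a B ha hB).eval (I2rotFun n h1 h2 c s v) = _
    rcases hn with rfl | rfl
    · simp only [Pol.eval, polAB, I2rotFun, Fin.sum_univ_succ]
      simp
      linear_combination (-B * (v.ofLp 1 ^ 2 + v.ofLp 2 ^ 2)) * h
    · simp only [Pol.eval, polAB, I2rotFun, Fin.sum_univ_succ]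
      simp
      linear_combination (-B * (v.ofLp 1 ^ 2 + v.ofLp 2 ^ 2)) * h

/-- Sign changes. -/
private noncomputable def I2sign (n k : ℕ) : E n ≃ₗᵢ[ℝ] E n :=
  LinearIsometryEquiv.piLpCongrRight 2 (fun i : Fin n =>
    if i.val < k then LinearIsometryEquiv.refl ℝ ℝ else LinearIsometryEquiv.neg ℝ)

private theorem I2sign_apply (n k : ℕ) (v : E n) (i : Fin n) :
    I2sign n k v i = if i.val < k then v i else - v i := by
  simp only [I2sign, LinearIsometryEquiv.piLpCongrRight_apply]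
  split_ifs <;> rfl

private theorem I2sign_eval (n k : ℕ) (hk : 1 ≤ k) (a B : ℝ) (ha : 0 < a) (hB : 0 < B) (v : E n) :
    (polAB n a B ha hB).eval (I2sign n k v) = (polAB n a B ha hB).eval v := by
  simp only [Pol.eval, polAB]
  refine Finset.sum_congr rfl fun i _ => ?_
  rw [I2sign_apply]
  by_cases hi0 : i.val = 0
  · simp only [if_pos (show i.val < k by omega)]
  · simp only [hi0, if_false]
    split_ifs <;> ring

theorem exists_refl {n : ℕ} (hn : n = 3 ∨ n = 4) :
    ∃ g : E n ≃ₗᵢ[ℝ] E n, (∀ x y z w, g (vec n x y z w) = vec n x y (-z) (-w)) ∧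
      (∀ v, g v = v → ∃ x y, v = vec n x y 0 0) ∧
      ∀ (a B : ℝ) (ha : 0 < a) (hB : 0 < B) (v : E n),
        (polAB n a B ha hB).eval (g v) = (polAB n a B ha hB).eval v := by
  refine ⟨I2sign n 2, ?_, ?_, I2sign_eval n 2 (by norm_num)⟩
  · intro x y z w
    ext i
    rw [I2sign_apply]
    simp only [vec]
    by_cases hi0 : i.val = 0
    · simp [hi0]
    · by_cases hi1 : i.val = 1
      · simp [hi1]
      · by_cases hi2 : i.val = 2
        · simp [hi2]
        · simp only [hi0, hi1, hi2, if_false]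
          rw [if_neg (by omega)]
  · intro v hv
    obtain ⟨x, y, z, w, rfl⟩ := exists_vec hn v
    refine ⟨x, y, ?_⟩
    ext i
    have hi := congrArg (fun u : E n => u i) hv
    simp only [I2sign_apply] at hi
    simp only [vec] at hi ⊢
    by_cases hi0 : i.val = 0
    · simp [hi0]
    · by_cases hi1 : i.val = 1
      · simp [hi1]
      · by_cases hi2 : i.val = 2
        · simp [hi2] at hi ⊢
          linarith
        · simp only [hi0, hi1, hi2, if_false] at hi ⊢
          rw [if_neg (by omega)] at hi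
          linarith

theorem exists_refl0 {n : ℕ} (hn : n = 3 ∨ n = 4) :
    ∃ g : E n ≃ₗᵢ[ℝ] E n, (∀ x y z w, g (vec n x y z w) = vec n x (-y) (-z) (-w)) ∧
      (∀ v, g v = v → ∃ x, v = vec n x 0 0 0) ∧
      ∀ (a B : ℝ) (ha : 0 < a) (hB : 0 < B) (v : E n),
        (polAB n a B ha hB).eval (g v) = (polAB n a B ha hB).eval v := by
  refine ⟨I2sign n 1, ?_, ?_, I2sign_eval n 1 (by norm_num)⟩
  · intro x y z w
    ext i
    rw [I2sign_apply]
    simp only [vec]
    by_cases hi0 : i.val = 0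
    · simp [hi0]
    · rw [if_neg (by omega)]
      by_cases hi1 : i.val = 1
      · simp [hi1]
      · by_cases hi2 : i.val = 2
        · simp [hi2]
        · simp only [hi0, hi1, hi2, if_false]
  · intro v hv
    obtain ⟨x, y, z, w, rfl⟩ := exists_vec hn v
    refine ⟨x, ?_⟩
    ext i
    have hi := congrArg (fun u : E n => u i) hv
    simp only [I2sign_apply] at hi
    simp only [vec] at hi ⊢
    by_cases hi0 : i.val = 0
    · simp [hi0]
    · rw [if_neg (show ¬ i.val < 1 by omega)] at hi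
      by_cases hi1 : i.val = 1
      · simp [hi1] at hi ⊢
        linarith
      · by_cases hi2 : i.val = 2
        · simp [hi2] at hi ⊢
          linarith
        · simp only [hi0, hi1, hi2, if_false] at hi ⊢
          linarith

end Pool.Agent.QGlue
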