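import Pool.Agent.QGlue.DefsK
import Pool.Agent.QGlue.I1

/-! I3: the force estimates in the near-far configuration. -/

set_option autoImplicit false

namespace Pool.Agent.QGlue

open MeasureTheory Real Set Filter Topology

private lemma I3_pair {δ u w : ℝ} (hδ : 0 < δ) (hu : 2 * δ ≤ |u|) (hw : 0 ≤ w) :
    |2 * u / (u ^ 2 + w)| ≤ 1 / δ := by
  have hu0 : 0 < |u| := by linarith
  have hu2 : u ^ 2 = |u| ^ 2 := (sq_abs u).symm
  have hden : 0 < u ^ 2 + w := by rw [hu2]; positivity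
  rw [abs_div, abs_mul, abs_of_pos (by norm_num : (0 : ℝ) < 2), abs_of_pos hden,
    div_le_div_iff₀ hden hδ, hu2]
  nlinarith

private lemma I3_err {δ u w : ℝ} (hδ : 0 < δ) (hu : 2 * δ ≤ |u|) (hw : 0 ≤ w) :
    |2 * u / (u ^ 2 + w) - 2 / u| ≤ w / (4 * δ ^ 3) := by
  have hu0 : 0 < |u| := by linarith
  have hune : u ≠ 0 := abs_pos.mp hu0
  have hu2 : u ^ 2 = |u| ^ 2 := (sq_abs u).symm
  have hden : 0 < u ^ 2 + w := by rw [hu2]; positivity
  have h1 : 2 * u / (u ^ 2 + w) - 2 / u = -(2 * w / (u * (u ^ 2 + w))) := by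
    field_simp
    ring
  rw [h1, abs_neg, abs_div, abs_mul, abs_mul, abs_of_pos (by norm_num : (0 : ℝ) < 2),
    abs_of_pos hden, abs_of_nonneg hw]
  have h2 : 8 * δ ^ 3 ≤ |u| * (u ^ 2 + w) := by
    have h3 : (2 * δ) ^ 3 ≤ |u| ^ 3 := by gcongr
    have h4 : |u| ^ 3 ≤ |u| * (u ^ 2 + w) := by
      rw [hu2]; nlinarith [mul_nonneg hu0.le hw]
    nlinarith
  calc 2 * w / (|u| * (u ^ 2 + w)) ≤ 2 * w / (8 * δ ^ 3) := by gcongr
    _ = w / (4 * δ ^ 3) := by field_simp; ring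

private lemma I3_perp {δ u v w : ℝ} (hδ : 0 < δ) (hu : 2 * δ ≤ |u|) (hw : 0 ≤ w) :
    |2 * v / (u ^ 2 + w)| ≤ |v| / (2 * δ ^ 2) := by
  have hu0 : 0 < |u| := by linarith
  have hu2 : u ^ 2 = |u| ^ 2 := (sq_abs u).symm
  have hden : 0 < u ^ 2 + w := by rw [hu2]; positivity
  rw [abs_div, abs_mul, abs_of_pos (by norm_num : (0 : ℝ) < 2), abs_of_pos hden]
  have h3 : 4 * δ ^ 2 ≤ u ^ 2 + w := by
    have : (2 * δ) ^ 2 ≤ |u| ^ 2 := by gcongr
    rw [hu2]; nlinarith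
  calc 2 * |v| / (u ^ 2 + w) ≤ 2 * |v| / (4 * δ ^ 2) := by gcongr
    _ = |v| / (2 * δ ^ 2) := by field_simp; ring

private lemma I3_sum {ι : Type} (s : Finset ι) (f : ι → ℝ) (b : ℝ) (n : ℕ) (hs : s.card ≤ n)
    (hb : 0 ≤ b) (hf : ∀ i ∈ s, |f i| ≤ b) : |∑ i ∈ s, f i| ≤ n * b := by
  calc |∑ i ∈ s, f i| ≤ ∑ i ∈ s, |f i| := Finset.abs_sum_le_sum_abs _ _
    _ ≤ ∑ _i ∈ s, b := Finset.sum_le_sum hf
    _ = s.card * b := by rw [Finset.sum_const, nsmul_eq_mul]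
    _ ≤ n * b := by gcongr

/-- `F0` estimate -/
private lemma I3_F0 {α : ℝ} (hα : 0 < α) (k N : ℕ) (X : Fin N → ℝ) (δ η r0 a β : ℝ)
    (hδ : 0 < δ) (hη : 0 < η) (hr0 : 0 < r0) (hβ : 0 < β) (hβ1 : β ≤ 1)
    (hX : ∀ j, 4 * δ ≤ X j) (hXX : ∀ i j, i < j → 4 * δ ≤ X j - X i)
    (hβη : β * η ≤ δ) (x y : Fin N → ℝ) (hx : ∀ j, |x j - X j| ≤ δ)
    (hy : ∀ j, |y j| ≤ β ^ 2) (h r : ℝ) (hh : |h| ≤ β * η) (hr : |r| ≤ 3 / 2 * β * r0)
    (C S : Fin k → ℝ) (hCS : ∀ i, C i ^ 2 + S i ^ 2 = 1) (j : Fin N) :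
    |(α * x j / (x j ^ 2 + y j ^ 2) + 1 - 2 * a * x j
        - (∑ i ∈ Finset.univ.erase j,
            2 * (x j - x i) / ((x j - x i) ^ 2 + (y j - y i) ^ 2))
        - ∑ i, 2 * (x j - h) / ((x j - h) ^ 2 + (y j - r * C i) ^ 2 + (r * S i) ^ 2))
      - (farM (2 * k - α) x j - 2 * a * x j)| ≤
      β * (α / (8 * δ ^ 3) + N * (1 / δ ^ 3)
        + k * ((2 + 5 * r0 ^ 2) / (4 * δ ^ 3) + η / (2 * δ ^ 2))) := by
  have hxpos : ∀ j, 3 * δ ≤ x j := fun j => by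
    have := abs_le.mp (hx j); linarith [hX j]
  have hxx : ∀ i j, i ≠ j → 2 * δ ≤ |x j - x i| := by
    intro i j hij
    have h1 := abs_le.mp (hx i)
    have h2 := abs_le.mp (hx j)
    rcases lt_or_gt_of_ne hij with h3 | h3
    · have := hXX i j h3
      rw [le_abs]; left; linarith
    · have := hXX j i h3
      rw [le_abs]; right; linarith
  have hhδ : |h| ≤ δ := hh.trans hβη
  have hxh : ∀ j, 2 * δ ≤ x j - h := fun j => by
    have := abs_le.mp hhδ; linarith [hxpos j]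
  have hβ2 : β ^ 2 ≤ β := by nlinarith
  have hβ4 : β ^ 4 ≤ β := by
    have : β ^ 4 = β ^ 2 * β ^ 2 := by ring
    nlinarith [sq_nonneg β, sq_nonneg (β ^ 2)]
  have hy2 : ∀ j, y j ^ 2 ≤ β := fun j => by
    have h1 : |y j| ^ 2 ≤ (β ^ 2) ^ 2 := by
      have := hy j
      gcongr
    rw [sq_abs] at h1
    nlinarith
  -- the three errors
  have e1 : |α * x j / (x j ^ 2 + y j ^ 2) - α / x j| ≤ β * (α / (8 * δ ^ 3)) := by
    have h1 := I3_err (u := x j) (w := y j ^ 2) hδ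
      (by rw [abs_of_pos (by linarith [hxpos j])]; linarith [hxpos j]) (sq_nonneg _)
    have h2 : α * x j / (x j ^ 2 + y j ^ 2) - α / x j
        = (α / 2) * (2 * x j / (x j ^ 2 + y j ^ 2) - 2 / x j) := by ring
    rw [h2, abs_mul, abs_of_pos (by positivity)]
    calc α / 2 * |2 * x j / (x j ^ 2 + y j ^ 2) - 2 / x j| ≤ α / 2 * (y j ^ 2 / (4 * δ ^ 3)) := by
          gcongr
      _ ≤ α / 2 * (β / (4 * δ ^ 3)) := by
          have := hy2 j
          gcongr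
      _ = β * (α / (8 * δ ^ 3)) := by field_simp; ring
  have e2 : |(∑ i ∈ Finset.univ.erase j,
      2 * (x j - x i) / ((x j - x i) ^ 2 + (y j - y i) ^ 2))
      - ∑ i ∈ Finset.univ.erase j, 2 / (x j - x i)| ≤ β * (N * (1 / δ ^ 3)) := by
    rw [← Finset.sum_sub_distrib]
    have h1 := I3_sum (Finset.univ.erase j) (fun i => 2 * (x j - x i) / ((x j - x i) ^ 2
      + (y j - y i) ^ 2) - 2 / (x j - x i)) (β * (1 / δ ^ 3)) N
      (by
        refine (Finset.card_le_card (Finset.erase_subset _ _)).trans ?_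
        simp) (by positivity) ?_
    · refine h1.trans (le_of_eq (by ring))
    · intro i hi
      have hij : i ≠ j := Finset.ne_of_mem_erase hi
      refine (I3_err hδ (hxx i j hij) (sq_nonneg _)).trans ?_
      have h3 : (y j - y i) ^ 2 ≤ 4 * β := by
        nlinarith [hy2 i, hy2 j, sq_nonneg (y j + y i)]
      calc (y j - y i) ^ 2 / (4 * δ ^ 3) ≤ (4 * β) / (4 * δ ^ 3) := by gcongr
        _ = β * (1 / δ ^ 3) := by field_simp
  have e3 : |(∑ i, 2 * (x j - h) / ((x j - h) ^ 2 + (y j - r * C i) ^ 2 + (r * S i) ^ 2))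
      - 2 * k / x j| ≤ β * (k * ((2 + 5 * r0 ^ 2) / (4 * δ ^ 3) + η / (2 * δ ^ 2))) := by
    have h0 : (2 * k / x j : ℝ) = ∑ _i : Fin k, 2 / x j := by
      rw [Finset.sum_const, Finset.card_univ, Fintype.card_fin, nsmul_eq_mul]; ring
    rw [h0, ← Finset.sum_sub_distrib]
    have h1 := I3_sum (Finset.univ : Finset (Fin k)) (fun i => 2 * (x j - h) / ((x j - h) ^ 2
      + (y j - r * C i) ^ 2 + (r * S i) ^ 2) - 2 / x j)
      (β * ((2 + 5 * r0 ^ 2) / (4 * δ ^ 3) + η / (2 * δ ^ 2))) k (by simp) (by positivity) ?_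
    · refine h1.trans (le_of_eq (by ring))
    · intro i _
      have hu : 2 * δ ≤ |x j - h| := (hxh j).trans (le_abs_self _)
      have h2 := I3_err (u := x j - h) (w := (y j - r * C i) ^ 2 + (r * S i) ^ 2) hδ hu
        (by positivity)
      have h3 : (y j - r * C i) ^ 2 + (r * S i) ^ 2 ≤ β * (2 + 5 * r0 ^ 2) := by
        have h4 : r ^ 2 ≤ 9 / 4 * β * r0 ^ 2 := by
          have h5 : |r| ^ 2 ≤ (3 / 2 * β * r0) ^ 2 := by gcongr
          rw [sq_abs] at h5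
          have h6 : (3 / 2 * β * r0) ^ 2 = 9 / 4 * β ^ 2 * r0 ^ 2 := by ring
          rw [h6] at h5
          refine h5.trans ?_
          gcongr
        have h7 := hy2 j
        have h8 := hCS i
        have h9 : (y j - r * C i) ^ 2 ≤ 2 * y j ^ 2 + 2 * (r * C i) ^ 2 := by
          nlinarith [sq_nonneg (y j + r * C i)]
        have h10 : 2 * (r * C i) ^ 2 + (r * S i) ^ 2 ≤ 2 * r ^ 2 := by
          have : 2 * (r * C i) ^ 2 + 2 * (r * S i) ^ 2 = 2 * r ^ 2 * (C i ^ 2 + S i ^ 2) := by ring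
          rw [h8] at this
          nlinarith [sq_nonneg (r * S i)]
        nlinarith [mul_nonneg hβ.le (sq_nonneg r0)]
      have h11 : |2 / (x j - h) - 2 / x j| ≤ β * (η / (2 * δ ^ 2)) := by
        have hp1 : 0 < x j - h := by linarith [hxh j]
        have hp2 : 0 < x j := by linarith [hxpos j]
        have : 2 / (x j - h) - 2 / x j = 2 * h / ((x j - h) * x j) := by
          field_simp; ring
        rw [this, abs_div, abs_mul, abs_of_pos (by norm_num : (0 : ℝ) < 2),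
          abs_of_pos (mul_pos hp1 hp2)]
        have h12 : 4 * δ ^ 2 ≤ (x j - h) * x j := by
          have h13 := hxh j
          have h14 : 2 * δ ≤ x j := by linarith [hxpos j]
          nlinarith
        calc 2 * |h| / ((x j - h) * x j) ≤ 2 * (β * η) / (4 * δ ^ 2) := by gcongr
          _ = β * (η / (2 * δ ^ 2)) := by field_simp; ring
      have h15 : 2 * (x j - h) / ((x j - h) ^ 2 + (y j - r * C i) ^ 2 + (r * S i) ^ 2) - 2 / x j
          = (2 * (x j - h) / ((x j - h) ^ 2 + ((y j - r * C i) ^ 2 + (r * S i) ^ 2))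
            - 2 / (x j - h)) + (2 / (x j - h) - 2 / x j) := by
        rw [add_assoc]; ring
      rw [h15]
      refine (abs_add_le _ _).trans ?_
      have h16 : ((y j - r * C i) ^ 2 + (r * S i) ^ 2) / (4 * δ ^ 3) ≤
          β * (2 + 5 * r0 ^ 2) / (4 * δ ^ 3) := by gcongr
      have h17 : β * ((2 + 5 * r0 ^ 2) / (4 * δ ^ 3) + η / (2 * δ ^ 2))
          = β * (2 + 5 * r0 ^ 2) / (4 * δ ^ 3) + β * (η / (2 * δ ^ 2)) := by ring
      rw [h17]
      linarith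
  have hkey : (α * x j / (x j ^ 2 + y j ^ 2) + 1 - 2 * a * x j
        - (∑ i ∈ Finset.univ.erase j,
            2 * (x j - x i) / ((x j - x i) ^ 2 + (y j - y i) ^ 2))
        - ∑ i, 2 * (x j - h) / ((x j - h) ^ 2 + (y j - r * C i) ^ 2 + (r * S i) ^ 2))
      - (farM (2 * k - α) x j - 2 * a * x j)
      = (α * x j / (x j ^ 2 + y j ^ 2) - α / x j)
        - ((∑ i ∈ Finset.univ.erase j,
            2 * (x j - x i) / ((x j - x i) ^ 2 + (y j - y i) ^ 2))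
            - ∑ i ∈ Finset.univ.erase j, 2 / (x j - x i))
        - ((∑ i, 2 * (x j - h) / ((x j - h) ^ 2 + (y j - r * C i) ^ 2 + (r * S i) ^ 2))
            - 2 * k / x j) := by
    unfold farM
    ring
  rw [hkey]
  refine (abs_sub _ _).trans ?_
  have h18 := abs_sub (α * x j / (x j ^ 2 + y j ^ 2) - α / x j)
    ((∑ i ∈ Finset.univ.erase j,
            2 * (x j - x i) / ((x j - x i) ^ 2 + (y j - y i) ^ 2))
            - ∑ i ∈ Finset.univ.erase j, 2 / (x j - x i))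
  have h19 : β * (α / (8 * δ ^ 3) + N * (1 / δ ^ 3)
        + k * ((2 + 5 * r0 ^ 2) / (4 * δ ^ 3) + η / (2 * δ ^ 2)))
      = β * (α / (8 * δ ^ 3)) + β * (N * (1 / δ ^ 3))
        + β * (k * ((2 + 5 * r0 ^ 2) / (4 * δ ^ 3) + η / (2 * δ ^ 2))) := by ring
  rw [h19]
  linarith

/-- `F1` estimate -/
private lemma I3_F1 {α : ℝ} (hα : 0 < α) (k N : ℕ) (X : Fin N → ℝ) (δ η r0 β : ℝ)
    (hδ : 0 < δ) (hr0 : 0 < r0) (hβ : 0 < β) (hβ1 : β ≤ 1)
    (hX : ∀ j, 4 * δ ≤ X j) (hXX : ∀ i j, i < j → 4 * δ ≤ X j - X i)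
    (hβη : β * η ≤ δ) (x y sy : Fin N → ℝ) (hx : ∀ j, |x j - X j| ≤ δ)
    (hsy : ∀ j, |sy j| ≤ 1) (hy : ∀ j, y j = β ^ 2 * sy j) (h r : ℝ) (hh : |h| ≤ β * η)
    (hr : |r| ≤ 3 / 2 * β * r0)
    (C S : Fin k → ℝ) (hCS : ∀ i, C i ^ 2 + S i ^ 2 = 1) (j : Fin N) :
    |(α * y j / (x j ^ 2 + y j ^ 2) - 2 * (1 / β ^ 2) * y j
        - (∑ i ∈ Finset.univ.erase j,
            2 * (y j - y i) / ((x j - x i) ^ 2 + (y j - y i) ^ 2))
        - ∑ i, 2 * (y j - r * C i) / ((x j - h) ^ 2 + (y j - r * C i) ^ 2 + (r * S i) ^ 2))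
      + 2 * sy j| ≤
      β * (α / (4 * δ ^ 2) + N * (1 / δ ^ 2) + k * ((1 + 2 * r0) / (2 * δ ^ 2))) := by
  have hxpos : ∀ j, 3 * δ ≤ x j := fun j => by
    have := abs_le.mp (hx j); linarith [hX j]
  have hxx : ∀ i j, i ≠ j → 2 * δ ≤ |x j - x i| := by
    intro i j hij
    have h1 := abs_le.mp (hx i)
    have h2 := abs_le.mp (hx j)
    rcases lt_or_gt_of_ne hij with h3 | h3
    · have := hXX i j h3
      rw [le_abs]; left; linarith
    · have := hXX j i h3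
      rw [le_abs]; right; linarith
  have hhδ : |h| ≤ δ := hh.trans hβη
  have hxh : ∀ j, 2 * δ ≤ x j - h := fun j => by
    have := abs_le.mp hhδ; linarith [hxpos j]
  have hβ2 : β ^ 2 ≤ β := by nlinarith
  have hyb : ∀ j, |y j| ≤ β := fun j => by
    rw [hy j, abs_mul, abs_of_pos (by positivity)]
    have := hsy j
    have h0 : 0 ≤ |sy j| := abs_nonneg _
    nlinarith [sq_nonneg β]
  have e0 : 2 * (1 / β ^ 2) * y j = 2 * sy j := by
    rw [hy j]; field_simp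
  have e1 : |α * y j / (x j ^ 2 + y j ^ 2)| ≤ β * (α / (4 * δ ^ 2)) := by
    have h1 := I3_perp (u := x j) (v := y j) (w := y j ^ 2) hδ
      (by rw [abs_of_pos (by linarith [hxpos j])]; linarith [hxpos j]) (sq_nonneg _)
    have h2 : α * y j / (x j ^ 2 + y j ^ 2)
        = (α / 2) * (2 * y j / (x j ^ 2 + y j ^ 2)) := by ring
    rw [h2, abs_mul, abs_of_pos (by positivity)]
    calc α / 2 * |2 * y j / (x j ^ 2 + y j ^ 2)| ≤ α / 2 * (|y j| / (2 * δ ^ 2)) := by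
          gcongr
      _ ≤ α / 2 * (β / (2 * δ ^ 2)) := by
          have := hyb j
          gcongr
      _ = β * (α / (4 * δ ^ 2)) := by field_simp; ring
  have e2 : |∑ i ∈ Finset.univ.erase j,
      2 * (y j - y i) / ((x j - x i) ^ 2 + (y j - y i) ^ 2)| ≤ β * (N * (1 / δ ^ 2)) := by
    have h1 := I3_sum (Finset.univ.erase j) (fun i => 2 * (y j - y i) / ((x j - x i) ^ 2
      + (y j - y i) ^ 2)) (β * (1 / δ ^ 2)) N
      (by
        refine (Finset.card_le_card (Finset.erase_subset _ _)).trans ?_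
        simp) (by positivity) ?_
    · refine h1.trans (le_of_eq (by ring))
    · intro i hi
      have hij : i ≠ j := Finset.ne_of_mem_erase hi
      refine (I3_perp hδ (hxx i j hij) (sq_nonneg _)).trans ?_
      have h3 : |y j - y i| ≤ 2 * β := by
        refine (abs_sub _ _).trans ?_
        linarith [hyb i, hyb j]
      calc |y j - y i| / (2 * δ ^ 2) ≤ (2 * β) / (2 * δ ^ 2) := by gcongr
        _ = β * (1 / δ ^ 2) := by field_simp
  have e3 : |∑ i, 2 * (y j - r * C i) / ((x j - h) ^ 2 + (y j - r * C i) ^ 2 + (r * S i) ^ 2)|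
      ≤ β * (k * ((1 + 2 * r0) / (2 * δ ^ 2))) := by
    have h1 := I3_sum (Finset.univ : Finset (Fin k)) (fun i => 2 * (y j - r * C i) /
      ((x j - h) ^ 2 + (y j - r * C i) ^ 2 + (r * S i) ^ 2))
      (β * ((1 + 2 * r0) / (2 * δ ^ 2))) k (by simp) (by positivity) ?_
    · refine h1.trans (le_of_eq (by ring))
    · intro i _
      have hu : 2 * δ ≤ |x j - h| := (hxh j).trans (le_abs_self _)
      have h2 := I3_perp (u := x j - h) (v := y j - r * C i)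
        (w := (y j - r * C i) ^ 2 + (r * S i) ^ 2) hδ hu (by positivity)
      rw [← add_assoc] at h2
      refine h2.trans ?_
      have hC : |C i| ≤ 1 := by
        rw [abs_le_one_iff_mul_self_le_one]
        nlinarith [hCS i, sq_nonneg (S i)]
      have h3 : |y j - r * C i| ≤ β * (1 + 2 * r0) := by
        refine (abs_sub _ _).trans ?_
        rw [abs_mul]
        have h4 : |r| * |C i| ≤ |r| * 1 := by gcongr
        have h5 : 0 < β * r0 := by positivity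
        nlinarith [hyb j]
      calc |y j - r * C i| / (2 * δ ^ 2) ≤ β * (1 + 2 * r0) / (2 * δ ^ 2) := by gcongr
        _ = β * ((1 + 2 * r0) / (2 * δ ^ 2)) := by ring
  rw [e0]
  have hkey : (α * y j / (x j ^ 2 + y j ^ 2) - 2 * sy j
        - (∑ i ∈ Finset.univ.erase j,
            2 * (y j - y i) / ((x j - x i) ^ 2 + (y j - y i) ^ 2))
        - ∑ i, 2 * (y j - r * C i) / ((x j - h) ^ 2 + (y j - r * C i) ^ 2 + (r * S i) ^ 2))
      + 2 * sy j
      = α * y j / (x j ^ 2 + y j ^ 2)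
        - (∑ i ∈ Finset.univ.erase j,
            2 * (y j - y i) / ((x j - x i) ^ 2 + (y j - y i) ^ 2))
        - ∑ i, 2 * (y j - r * C i) / ((x j - h) ^ 2 + (y j - r * C i) ^ 2 + (r * S i) ^ 2) := by
    ring
  rw [hkey]
  refine (abs_sub _ _).trans ?_
  have h18 := abs_sub (α * y j / (x j ^ 2 + y j ^ 2))
    (∑ i ∈ Finset.univ.erase j,
            2 * (y j - y i) / ((x j - x i) ^ 2 + (y j - y i) ^ 2))
  have h19 : β * (α / (4 * δ ^ 2) + N * (1 / δ ^ 2) + k * ((1 + 2 * r0) / (2 * δ ^ 2)))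
      = β * (α / (4 * δ ^ 2)) + β * (N * (1 / δ ^ 2))
        + β * (k * ((1 + 2 * r0) / (2 * δ ^ 2))) := by ring
  rw [h19]
  linarith


/-- `N0` estimate -/
private lemma I3_N0 {α : ℝ} (hα : 0 < α) (N : ℕ) (δ η r0 a β : ℝ)
    (hδ : 0 < δ) (hη : 0 < η) (hr0 : 0 < r0) (ha : 0 < a) (hβ : 0 < β) (hβ1 : β ≤ 1)
    (x y : Fin N → ℝ) (h r sr : ℝ) (hxh : ∀ j, 2 * δ ≤ |h - x j|) (hsr : |sr| ≤ 1)
    (hr : r = β * r0 * (1 + sr / 2))
    (hkey : β * (2 + 2 * a * η + N / δ) ≤ α * η / (η ^ 2 + 9 / 4 * r0 ^ 2)) :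
    (h = β * η → 1 ≤ α * h / (h ^ 2 + r ^ 2) + 1 - 2 * a * h
        - ∑ j, 2 * (h - x j) / ((h - x j) ^ 2 + (r - y j) ^ 2)) ∧
    (h = -(β * η) → α * h / (h ^ 2 + r ^ 2) + 1 - 2 * a * h
        - ∑ j, 2 * (h - x j) / ((h - x j) ^ 2 + (r - y j) ^ 2) ≤ -1) := by
  obtain ⟨hs1, hs2⟩ := abs_le.mp hsr
  have hS : |∑ j, 2 * (h - x j) / ((h - x j) ^ 2 + (r - y j) ^ 2)| ≤ N * (1 / δ) :=
    I3_sum (Finset.univ : Finset (Fin N)) _ (1 / δ) N (by simp) (by positivity)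
      (fun j _ => I3_pair hδ (hxh j) (sq_nonneg _))
  obtain ⟨hS1, hS2⟩ := abs_le.mp hS
  have hS3 : (N : ℝ) * (1 / δ) = N / δ := by ring
  rw [hS3] at hS1 hS2
  have hr2 : (r0 * (1 + sr / 2)) ^ 2 ≤ 9 / 4 * r0 ^ 2 := by
    have h1 : r0 * (1 + sr / 2) ≤ 3 / 2 * r0 := by nlinarith
    have h2 : 0 ≤ r0 * (1 + sr / 2) := mul_nonneg hr0.le (by linarith)
    nlinarith
  have hA : 2 + 2 * a * η + N / δ ≤ α * (β * η) / ((β * η) ^ 2 + r ^ 2) := by
    have h1 : α * (β * η) / ((β * η) ^ 2 + r ^ 2)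
        = (1 / β) * (α * η / (η ^ 2 + (r0 * (1 + sr / 2)) ^ 2)) := by
      have : (0 : ℝ) < η ^ 2 + (r0 * (1 + sr / 2)) ^ 2 := by positivity
      rw [hr]
      have h2 : (β * η) ^ 2 + (β * r0 * (1 + sr / 2)) ^ 2
          = β * (β * (η ^ 2 + (r0 * (1 + sr / 2)) ^ 2)) := by ring
      rw [h2]
      field_simp
    rw [h1]
    have h2 : α * η / (η ^ 2 + 9 / 4 * r0 ^ 2) ≤ α * η / (η ^ 2 + (r0 * (1 + sr / 2)) ^ 2) := by
      gcongr
    have h3 : 2 + 2 * a * η + N / δ = (1 / β) * (β * (2 + 2 * a * η + N / δ)) := by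
      field_simp
    rw [h3]
    gcongr
    exact hkey.trans h2
  have haη : 2 * a * (β * η) ≤ 2 * a * η := by
    have : β * η ≤ 1 * η := by gcongr
    nlinarith
  constructor
  · intro hh
    have h1 : α * h / (h ^ 2 + r ^ 2) = α * (β * η) / ((β * η) ^ 2 + r ^ 2) := by rw [hh]
    have h2 : 2 * a * h = 2 * a * (β * η) := by rw [hh]
    rw [h1, h2]
    linarith
  · intro hh
    have h1 : α * h / (h ^ 2 + r ^ 2) = -(α * (β * η) / ((β * η) ^ 2 + r ^ 2)) := by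
      rw [hh]; ring
    have h2 : 2 * a * h = -(2 * a * (β * η)) := by rw [hh]; ring
    rw [h1, h2]
    linarith

/-- `N1` estimate -/
private lemma I3_N1 {α : ℝ} (hα : 0 < α) (k N : ℕ) (δ η r0 β : ℝ)
    (hδ : 0 < δ) (hη : 0 < η) (hη1 : η ≤ 1) (hr0 : 0 < r0) (hβ : 0 < β)
    (hr02 : 2 * r0 ^ 2 = α - k + 1) (hηr : 8 * α * η ≤ r0 ^ 4)
    (hβr : β * (2 * r0) ≤ δ) (hβδ : β ^ 2 ≤ δ) (hβN : β * (N / δ + 1) ≤ r0)
    (x y : Fin N → ℝ) (h r sh : ℝ) (hxh : ∀ j, 2 * δ ≤ |h - x j|) (hy : ∀ j, |y j| ≤ β ^ 2)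
    (hsh : |sh| ≤ 1) (hh : h = β * η * sh) :
    (r = β * r0 * (3 / 2) → α * r / (h ^ 2 + r ^ 2) - 2 * (1 / β ^ 2) * r - (k - 1) / r
        - ∑ j, 2 * (r - y j) / ((h - x j) ^ 2 + (r - y j) ^ 2) ≤ -1) ∧
    (r = β * r0 * (1 / 2) → 1 ≤ α * r / (h ^ 2 + r ^ 2) - 2 * (1 / β ^ 2) * r - (k - 1) / r
        - ∑ j, 2 * (r - y j) / ((h - x j) ^ 2 + (r - y j) ^ 2)) := by
  have hS : |r| ≤ δ → |∑ j, 2 * (r - y j) / ((h - x j) ^ 2 + (r - y j) ^ 2)| ≤ N * (1 / δ) := by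
    intro hr
    refine I3_sum (Finset.univ : Finset (Fin N)) _ (1 / δ) N (by simp) (by positivity)
      (fun j _ => ?_)
    refine (I3_perp hδ (hxh j) (sq_nonneg _)).trans ?_
    have h1 : |r - y j| ≤ 2 * δ := by
      refine (abs_sub _ _).trans ?_
      linarith [hy j]
    calc |r - y j| / (2 * δ ^ 2) ≤ (2 * δ) / (2 * δ ^ 2) := by gcongr
      _ = 1 / δ := by field_simp
  have hS3 : (N : ℝ) * (1 / δ) = N / δ := by ring
  rw [hS3] at hS
  have hβr0 : 0 < β * r0 := by positivity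
  have hsh2 : sh ^ 2 ≤ 1 := by
    rw [← sq_abs]
    nlinarith [abs_nonneg sh]
  have hNβ : β * (N / δ) + β ≤ r0 := by linarith [mul_add β (N / δ) 1]
  constructor
  · intro hr
    have hrpos : 0 < r := by rw [hr]; positivity
    have hrδ : |r| ≤ δ := by
      rw [abs_of_pos hrpos, hr]; nlinarith
    obtain ⟨hS1, hS2⟩ := abs_le.mp (hS hrδ)
    have h1 : α * r / (h ^ 2 + r ^ 2) ≤ α / r := by
      rw [div_le_div_iff₀ (by positivity) hrpos]
      nlinarith [mul_nonneg hα.le (sq_nonneg h)]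
    have h2 : α / r - 2 * (1 / β ^ 2) * r - (k - 1) / r = (1 / β) * (-(5 / 3) * r0) := by
      have h3 : α / r - 2 * (1 / β ^ 2) * r - (k - 1) / r
          = (α - k + 1) / r - 2 * (1 / β ^ 2) * r := by ring
      rw [h3, ← hr02, hr]
      field_simp
      ring
    have h4 : (1 / β) * (-(5 / 3) * r0) + N / δ ≤ -1 := by
      have h5 : (1 / β) * (-(5 / 3) * r0) + N / δ = (1 / β) * (-(5 / 3) * r0 + β * (N / δ)) := by
        field_simp
      have h6 : (-1 : ℝ) = (1 / β) * (-β) := by field_simp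
      rw [h5, h6]
      gcongr
      linarith
    linarith
  · intro hr
    have hrpos : 0 < r := by rw [hr]; positivity
    have hrδ : |r| ≤ δ := by
      rw [abs_of_pos hrpos, hr]; nlinarith
    obtain ⟨hS1, hS2⟩ := abs_le.mp (hS hrδ)
    have h0 : α * h ^ 2 / r ^ 3 ≤ r0 / β := by
      have hh2 : h ^ 2 ≤ β ^ 2 * η := by
        rw [hh]
        have : (β * η * sh) ^ 2 = β ^ 2 * (η * (η * sh ^ 2)) := by ring
        rw [this]
        have h7 : η * (η * sh ^ 2) ≤ η * 1 := by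
          gcongr
          nlinarith [sq_nonneg sh]
        nlinarith [sq_nonneg β, mul_le_mul_of_nonneg_left h7 (sq_nonneg β)]
      have hr3 : r ^ 3 = β ^ 3 * r0 ^ 3 / 8 := by rw [hr]; ring
      rw [hr3]
      rw [div_le_div_iff₀ (by positivity) hβ]
      calc α * h ^ 2 * β ≤ α * (β ^ 2 * η) * β := by gcongr
        _ = (8 * α * η) * (β ^ 3 / 8) := by ring
        _ ≤ r0 ^ 4 * (β ^ 3 / 8) := by gcongr
        _ = r0 * (β ^ 3 * r0 ^ 3 / 8) := by ring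
    have h1 : α / r - α * h ^ 2 / r ^ 3 ≤ α * r / (h ^ 2 + r ^ 2) := by
      have h2 : α / r - α * h ^ 2 / r ^ 3 = α * (r ^ 2 - h ^ 2) / r ^ 3 := by
        field_simp
      rw [h2, div_le_div_iff₀ (by positivity) (by positivity)]
      nlinarith [mul_nonneg hα.le (sq_nonneg (h ^ 2))]
    have h2 : α / r - 2 * (1 / β ^ 2) * r - (k - 1) / r = (1 / β) * (3 * r0) := by
      have h3 : α / r - 2 * (1 / β ^ 2) * r - (k - 1) / r
          = (α - k + 1) / r - 2 * (1 / β ^ 2) * r := by ring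
      rw [h3, ← hr02, hr]
      field_simp
      ring
    have h4 : 1 ≤ (1 / β) * (3 * r0) - r0 / β - N / δ := by
      have h5 : (1 / β) * (3 * r0) - r0 / β - N / δ = (1 / β) * (2 * r0 - β * (N / δ)) := by
        field_simp
        ring
      have h6 : (1 : ℝ) = (1 / β) * β := by field_simp
      rw [h5]
      nth_rewrite 1 [h6]
      gcongr
      linarith
    linarith

/-- Choice of a small parameter. -/
private lemma I3_small {ι : Type} (s : Finset ι) (f g : ι → ℝ) (hg : ∀ i ∈ s, 0 < g i) :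
    ∃ β : ℝ, 0 < β ∧ ∀ i ∈ s, β * f i ≤ g i := by
  have h1 : ∀ i ∈ s, ∀ᶠ β in 𝓝[>] (0 : ℝ), β * f i ≤ g i := by
    intro i hi
    have h2 : Tendsto (fun β : ℝ => β * f i) (𝓝[>] (0 : ℝ)) (𝓝 (0 * f i)) := by
      apply Tendsto.mul_const
      exact tendsto_nhdsWithin_of_tendsto_nhds tendsto_id
    rw [zero_mul] at h2
    exact (h2.eventually (gt_mem_nhds (hg i hi))).mono (fun _ h => le_of_lt h)
  have h3 : ∀ᶠ β in 𝓝[>] (0 : ℝ), ∀ i ∈ s, β * f i ≤ g i :=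
    (Filter.eventually_all_finset s).mpr h1
  obtain ⟨β, h4, h5⟩ := (h3.and (self_mem_nhdsWithin)).exists
  exact ⟨β, h5, h4⟩

/-- Near ring of `k` points at distance about `β r0` from the origin, far points near `X j` on the
first axis, `B = 1 / β²`. -/
theorem forces {α : ℝ} (hα : 0 < α) (k : ℕ) (hk1 : 1 ≤ k) (hk2 : α < 2 * k) (hk3 : (k : ℝ) < α + 1)
    (N : ℕ) : ∃ (X : Fin N → ℝ) (δ η r0 a β c : ℝ), 0 < δ ∧ 0 < η ∧ 0 < r0 ∧ 0 < a ∧
    0 < β ∧ 0 < c ∧ β ≤ 1 ∧ (∀ j, 4 * δ ≤ X j) ∧ (∀ i j, i < j → 4 * δ ≤ X j - X i) ∧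
    β * η ≤ δ ∧ β * (2 * r0) ≤ δ ∧ β ^ 2 ≤ δ ∧
    ∀ (C S : Fin k → ℝ), (∀ i, C i ^ 2 + S i ^ 2 = 1) →
    ∀ (sh sr : ℝ) (sx sy : Fin N → ℝ), |sh| ≤ 1 → |sr| ≤ 1 → (∀ j, |sx j| ≤ 1) →
      (∀ j, |sy j| ≤ 1) →
    ∀ (h r : ℝ) (x y : Fin N → ℝ), h = β * η * sh → r = β * r0 * (1 + sr / 2) →
      (∀ j, x j = X j + δ * sx j) → (∀ j, y j = β ^ 2 * sy j) →
    ∀ (N0 N1 : ℝ) (F0 F1 : Fin N → ℝ),
      N0 = α * h / (h ^ 2 + r ^ 2) + 1 - 2 * a * h
        - ∑ j, 2 * (h - x j) / ((h - x j) ^ 2 + (r - y j) ^ 2) →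
      N1 = α * r / (h ^ 2 + r ^ 2) - 2 * (1 / β ^ 2) * r - (k - 1) / r
        - ∑ j, 2 * (r - y j) / ((h - x j) ^ 2 + (r - y j) ^ 2) →
      (∀ j, F0 j = α * x j / (x j ^ 2 + y j ^ 2) + 1 - 2 * a * x j
        - (∑ i ∈ Finset.univ.erase j,
            2 * (x j - x i) / ((x j - x i) ^ 2 + (y j - y i) ^ 2))
        - ∑ i, 2 * (x j - h) / ((x j - h) ^ 2 + (y j - r * C i) ^ 2 + (r * S i) ^ 2)) →
      (∀ j, F1 j = α * y j / (x j ^ 2 + y j ^ 2) - 2 * (1 / β ^ 2) * y j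
        - (∑ i ∈ Finset.univ.erase j,
            2 * (y j - y i) / ((x j - x i) ^ 2 + (y j - y i) ^ 2))
        - ∑ i, 2 * (y j - r * C i) / ((x j - h) ^ 2 + (y j - r * C i) ^ 2 + (r * S i) ^ 2)) →
      (sh = 1 → c ≤ N0) ∧ (sh = -1 → N0 ≤ -c) ∧ (sr = 1 → N1 ≤ -c) ∧ (sr = -1 → c ≤ N1) ∧
      (∀ j, sx j = 1 → c ≤ F0 j) ∧ (∀ j, sx j = -1 → F0 j ≤ -c) ∧
      (∀ j, sy j = 1 → F1 j ≤ -c) ∧ (∀ j, sy j = -1 → c ≤ F1 j) := by
  have hQ : (0 : ℝ) < 2 * k - α := by linarith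
  obtain ⟨X, δ, c0, hδ, hc0, hX, hXX, hst⟩ := far_stable (2 * k - α) hQ N
  have hr0' : 0 < (α - k + 1) / 2 := by linarith
  set r0 : ℝ := Real.sqrt ((α - k + 1) / 2) with hr0d
  have hr0 : 0 < r0 := Real.sqrt_pos.mpr hr0'
  have hr02 : 2 * r0 ^ 2 = α - k + 1 := by
    rw [hr0d, Real.sq_sqrt hr0'.le]; ring
  set η : ℝ := min 1 (r0 ^ 4 / (8 * α)) with hηd
  have hη : 0 < η := lt_min one_pos (by positivity)
  have hη1 : η ≤ 1 := min_le_left _ _
  have hηr : 8 * α * η ≤ r0 ^ 4 := by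
    have h1 : η ≤ r0 ^ 4 / (8 * α) := min_le_right _ _
    rw [le_div_iff₀ (by positivity)] at h1
    linarith
  have hXpos : ∀ j, 0 < X j := fun j => by linarith [hX j]
  have hXs : 0 ≤ ∑ j, X j := Finset.sum_nonneg (fun j _ => (hXpos j).le)
  set a : ℝ := c0 / (8 * (∑ j, X j + δ + 1)) with had
  have ha : 0 < a := by positivity
  have haX : ∀ j, 2 * a * (X j + δ) ≤ c0 / 4 := by
    intro j
    have h1 : X j ≤ ∑ j, X j :=
      Finset.single_le_sum (fun i _ => (hXpos i).le) (Finset.mem_univ j)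
    have h2 : X j + δ ≤ ∑ j, X j + δ + 1 := by linarith
    have h3 : 2 * a * (∑ j, X j + δ + 1) = c0 / 4 := by
      rw [had]; field_simp; ring
    rw [← h3]
    gcongr
  -- the choice of `β`
  obtain ⟨β, hβ, hβs⟩ := I3_small (Finset.univ : Finset (Fin 8))
    ![1, 1, η, 2 * r0,
      α / (8 * δ ^ 3) + N * (1 / δ ^ 3) + k * ((2 + 5 * r0 ^ 2) / (4 * δ ^ 3) + η / (2 * δ ^ 2)),
      α / (4 * δ ^ 2) + N * (1 / δ ^ 2) + k * ((1 + 2 * r0) / (2 * δ ^ 2)),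
      2 + 2 * a * η + N / δ, N / δ + 1]
    ![1, δ, δ, δ, c0 / 4, 1, α * η / (η ^ 2 + 9 / 4 * r0 ^ 2), r0]
    (by
      intro i _
      fin_cases i <;> simp <;> positivity)
  have b0 : β * 1 ≤ 1 := hβs 0 (Finset.mem_univ _)
  have b1 : β * 1 ≤ δ := hβs 1 (Finset.mem_univ _)
  have b2 : β * η ≤ δ := hβs 2 (Finset.mem_univ _)
  have b3 : β * (2 * r0) ≤ δ := hβs 3 (Finset.mem_univ _)
  have b4 : β * (α / (8 * δ ^ 3) + N * (1 / δ ^ 3)
    + k * ((2 + 5 * r0 ^ 2) / (4 * δ ^ 3) + η / (2 * δ ^ 2))) ≤ c0 / 4 :=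
    hβs 4 (Finset.mem_univ _)
  have b5 : β * (α / (4 * δ ^ 2) + N * (1 / δ ^ 2) + k * ((1 + 2 * r0) / (2 * δ ^ 2))) ≤ 1 :=
    hβs 5 (Finset.mem_univ _)
  have b6 : β * (2 + 2 * a * η + N / δ) ≤ α * η / (η ^ 2 + 9 / 4 * r0 ^ 2) :=
    hβs 6 (Finset.mem_univ _)
  have b7 : β * (N / δ + 1) ≤ r0 := hβs 7 (Finset.mem_univ _)
  have hβ1 : β ≤ 1 := by linarith
  have hβδ : β ^ 2 ≤ δ := by
    have h1 : β ^ 2 ≤ β := by rw [sq]; exact mul_le_of_le_one_left hβ.le hβ1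
    linarith
  have hc : 0 < min (c0 / 2) 1 := lt_min (by linarith) one_pos
  have hcl : min (c0 / 2) 1 ≤ c0 / 2 := min_le_left _ _
  have hcr : min (c0 / 2) 1 ≤ 1 := min_le_right _ _
  refine ⟨X, δ, η, r0, a, β, min (c0 / 2) 1, hδ, hη, hr0, ha, hβ, hc, hβ1, hX, hXX, b2, b3, hβδ,
    ?_⟩
  intro C S hCS sh sr sx sy hsh hsr hsx hsy h r x y hh hr hx hy N0 N1 F0 F1 hN0 hN1 hF0 hF1
  obtain ⟨hs1, hs2⟩ := abs_le.mp hsr
  have hxX : ∀ j, |x j - X j| ≤ δ := by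
    intro j
    rw [hx j, add_sub_cancel_left, abs_mul, abs_of_pos hδ]
    exact mul_le_of_le_one_right hδ.le (hsx j)
  have hyb : ∀ j, |y j| ≤ β ^ 2 := by
    intro j
    rw [hy j, abs_mul, abs_of_pos (by positivity)]
    exact mul_le_of_le_one_right (sq_nonneg β) (hsy j)
  have hβη0 : 0 < β * η := by positivity
  have hβr0 : 0 < β * r0 := by positivity
  have hhb : |h| ≤ β * η := by
    rw [hh, abs_mul, abs_of_pos hβη0]
    exact mul_le_of_le_one_right hβη0.le hsh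
  have hrb : |r| ≤ 3 / 2 * β * r0 := by
    rw [hr, abs_mul, abs_of_pos hβr0, abs_of_nonneg (by linarith)]
    have h1 : β * r0 * (1 + sr / 2) ≤ β * r0 * (3 / 2) :=
      mul_le_mul_of_nonneg_left (by linarith) hβr0.le
    linarith
  have hxh : ∀ j, 2 * δ ≤ |h - x j| := by
    intro j
    have h1 := abs_le.mp (hhb.trans b2)
    have h2 := abs_le.mp (hxX j)
    rw [le_abs]
    right
    linarith [hX j]
  obtain ⟨n1, n2⟩ := I3_N0 hα N δ η r0 a β hδ hη hr0 ha hβ hβ1 x y h r sr hxh hsr hr b6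
  obtain ⟨n3, n4⟩ := I3_N1 hα k N δ η r0 β hδ hη hη1 hr0 hβ hr02 hηr b3 hβδ b7 x y h r sh
    hxh hyb hsh hh
  refine ⟨?_, ?_, ?_, ?_, ?_, ?_, ?_, ?_⟩
  · intro hs
    rw [hN0]
    exact hcr.trans (n1 (by rw [hh, hs, mul_one]))
  · intro hs
    rw [hN0]
    exact (n2 (by rw [hh, hs]; ring)).trans (by linarith)
  · intro hs
    rw [hN1]
    exact (n3 (by rw [hr, hs]; ring)).trans (by linarith)
  · intro hs
    rw [hN1]
    exact hcr.trans (n4 (by rw [hr, hs]; ring))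
  · intro j hs
    have h1 := I3_F0 hα k N X δ η r0 a β hδ hη hr0 hβ hβ1 hX hXX b2 x y hxX hyb h r hhb hrb C S
      hCS j
    rw [← hF0 j] at h1
    have h2 := (hst x hxX j).1 (by rw [hx j, hs, mul_one])
    have h3 := (abs_le.mp h1).1
    have h4 := haX j
    have h5 : x j = X j + δ := by rw [hx j, hs, mul_one]
    rw [← h5] at h4
    linarith
  · intro j hs
    have h1 := I3_F0 hα k N X δ η r0 a β hδ hη hr0 hβ hβ1 hX hXX b2 x y hxX hyb h r hhb hrb C S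
      hCS j
    rw [← hF0 j] at h1
    have h2 := (hst x hxX j).2 (by rw [hx j, hs]; ring)
    have h3 := (abs_le.mp h1).2
    have h5 : 0 ≤ 2 * a * x j := by
      have h6 := (abs_le.mp (hxX j)).1
      have h7 : 0 ≤ x j := by linarith [hX j]
      positivity
    linarith
  · intro j hs
    have h1 := I3_F1 hα k N X δ η r0 β hδ hr0 hβ hβ1 hX hXX b2 x y sy hxX hsy hy h r hhb hrb C S
      hCS j
    rw [← hF1 j, hs] at h1
    have h3 := (abs_le.mp h1).2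
    linarith
  · intro j hs
    have h1 := I3_F1 hα k N X δ η r0 β hδ hr0 hβ hβ1 hX hXX b2 x y sy hxX hsy hy h r hhb hrb C S
      hCS j
    rw [← hF1 j, hs] at h1
    have h3 := (abs_le.mp h1).1
    linarith

end Pool.Agent.QGlue
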