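import Pool.Agent.QGlue.I1
import Pool.Agent.QGlue.I2

/-! # I4: the stable configuration for `α < 0` -/

set_option autoImplicit false

namespace Pool.Agent.QGlue

open MeasureTheory Real Set Filter Topology

private theorem I4_cont_vec (n : ℕ) : Continuous fun t : ℝ => vec n t 0 0 0 := by
  unfold vec
  refine (PiLp.continuous_toLp 2 _).comp (continuous_pi fun i => ?_)
  by_cases h : i.val = 0
  · simp only [h, if_true]
    exact continuous_id
  · simp only [h, if_false]
    exact continuous_const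

private theorem I4_vec_zero (n : ℕ) : vec n 0 0 0 0 = 0 := by
  unfold vec
  ext i
  simp

private theorem I4_norm {n : ℕ} (hn : n = 3 ∨ n = 4) (t : ℝ) : ‖vec n t 0 0 0‖ = |t| := by
  have h := vec_norm_sq hn t 0 0
  have h1 : ‖vec n t 0 0 0‖ ^ 2 = |t| ^ 2 := by rw [h, sq_abs]; ring
  exact (pow_left_inj₀ (norm_nonneg _) (abs_nonneg _) two_ne_zero).1 h1

/-- The force along the first axis. -/
private theorem I4_force {n : ℕ} (hn : n = 3 ∨ n = 4) {α : ℝ} {N : ℕ} (a : ℝ) (ha : 0 < a)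
    (y : Fin N → ℝ) (hy : ∀ j, 0 < y j) (hne : ∀ i j, i ≠ j → y i ≠ y j) (j : Fin N) :
    inner ℝ (Dj α (polAB n a 1 ha one_pos) (fun i => vec n (y i) 0 0 0) j) (vec n 1 0 0 0)
      = farM (-α) y j - 2 * a * y j := by
  unfold Dj farM
  rw [inner_sub_left, inner_add_left, inner_smul_left, sum_inner, polAB_grad hn, vec_inner hn,
    vec_inner hn, I4_norm hn]
  have h1 : ∀ i ∈ Finset.univ.erase j,
      inner ℝ ((2 / ‖vec n (y j) 0 0 0 - vec n (y i) 0 0 0‖ ^ 2) •
        (vec n (y j) 0 0 0 - vec n (y i) 0 0 0)) (vec n 1 0 0 0) = 2 / (y j - y i) := by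
    intro i hi
    rw [vec_sub]
    simp only [sub_zero]
    rw [inner_smul_left, vec_inner hn, I4_norm hn, sq_abs]
    have h2 : y j - y i ≠ 0 := sub_ne_zero.2 (hne _ _ (Finset.ne_of_mem_erase hi).symm)
    simp only [conj_trivial]
    field_simp
    try ring
  rw [Finset.sum_congr rfl h1, sq_abs]
  have h3 : y j ≠ 0 := (hy j).ne'
  simp only [conj_trivial]
  field_simp
  try ring

theorem cfg_neg {n : ℕ} (hn : n = 3 ∨ n = 4) {α : ℝ} (hα : -1 < α) (hα0 : α < 0) (N : ℕ) :
    ∃ P : Pol n, Nonempty (Cfg n α P (Fin N) (Fin N) Unit) := by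
  obtain ⟨x, δ, c, hδ, hc, hx4, hx5, hst⟩ := far_stable (-α) (by linarith) N
  obtain ⟨g, hg1, hg2, hg3⟩ := exists_refl0 hn
  -- the upper bound of the positions
  set M : ℝ := ∑ i, |x i| + δ + 1 with hM
  have hS : 0 ≤ ∑ i, |x i| := Finset.sum_nonneg fun i _ => abs_nonneg _
  have hM1 : 1 ≤ M := by rw [hM]; linarith
  have hM0 : 0 < M := by linarith
  have hxM : ∀ i, x i + δ ≤ M := by
    intro i
    have h1 : |x i| ≤ ∑ i, |x i| :=
      Finset.single_le_sum (f := fun i => |x i|) (fun i _ => abs_nonneg _) (Finset.mem_univ i)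
    have h2 := le_abs_self (x i)
    rw [hM]; linarith
  set a : ℝ := c / (4 * M) with ha'
  have ha : 0 < a := by positivity
  have haM : 2 * a * M = c / 2 := by rw [ha']; field_simp; ring
  -- positions
  set Y : (Fin N → ℝ) → Fin N → ℝ := fun s j => x j + δ * s j with hY
  have hYs : ∀ s : Fin N → ℝ, (∀ k, |s k| ≤ 1) → ∀ j, |Y s j - x j| ≤ δ := by
    intro s hs j
    have : Y s j - x j = δ * s j := by simp [hY]
    rw [this, abs_mul, abs_of_pos hδ]
    nlinarith [hs j, abs_nonneg (s j)]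
  have hYlo : ∀ s : Fin N → ℝ, (∀ k, |s k| ≤ 1) → ∀ j, 3 * δ ≤ Y s j := by
    intro s hs j
    have h1 := (abs_le.1 (hYs s hs j)).1
    have h2 := hx4 j
    linarith
  have hYhi : ∀ s : Fin N → ℝ, (∀ k, |s k| ≤ 1) → ∀ j, Y s j ≤ M := by
    intro s hs j
    have h1 := (abs_le.1 (hYs s hs j)).2
    have h2 := hxM j
    linarith
  have hYsep' : ∀ s : Fin N → ℝ, (∀ k, |s k| ≤ 1) → ∀ i j, i < j → 2 * δ ≤ Y s j - Y s i := by
    intro s hs i j hij
    have h1 := (abs_le.1 (hYs s hs j)).1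
    have h2 := (abs_le.1 (hYs s hs i)).2
    have h3 := hx5 i j hij
    linarith
  have hYsep : ∀ s : Fin N → ℝ, (∀ k, |s k| ≤ 1) → ∀ i j, i ≠ j → 2 * δ ≤ |Y s i - Y s j| := by
    intro s hs i j hij
    rcases lt_or_gt_of_ne hij with h | h
    · have := hYsep' s hs i j h
      rw [abs_sub_comm]
      exact this.trans (le_abs_self _)
    · exact (hYsep' s hs j i h).trans (le_abs_self _)
  have hYne : ∀ s : Fin N → ℝ, (∀ k, |s k| ≤ 1) → ∀ i j, i ≠ j → Y s i ≠ Y s j := by
    intro s hs i j hij h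
    have := hYsep s hs i j hij
    rw [h, sub_self, abs_zero] at this
    linarith
  set d : ℝ := min δ (1 / M) with hd
  have hd0 : 0 < d := lt_min hδ (by positivity)
  have hdδ : d ≤ δ := min_le_left _ _
  have hdM : M ≤ 1 / d := by
    rw [le_div_iff₀ hd0]
    have : d ≤ 1 / M := min_le_right _ _
    calc M * d ≤ M * (1 / M) := by gcongr
      _ = 1 := by field_simp
  have hforce : ∀ s : Fin N → ℝ, (∀ k, |s k| ≤ 1) → ∀ j,
      inner ℝ (Dj α (polAB n a 1 ha one_pos) (fun i => vec n (Y s i) 0 0 0) j) (vec n 1 0 0 0)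
      = farM (-α) (Y s) j - 2 * a * Y s j := fun s hs j =>
    I4_force hn a ha (Y s) (fun j => by have := hYlo s hs j; linarith) (hYne s hs) j
  refine ⟨polAB n a 1 ha one_pos, ⟨{
    Xi := fun s j => vec n (Y s j) 0 0 0
    cont := ?_
    d := d
    hd := hd0
    sep := ?_
    iso := fun _ => g
    perm := fun _ => 1
    hP := fun _ v => hg3 a 1 ha one_pos v
    hXi := ?_
    rep := id
    hrep := fun j => ⟨(), rfl⟩
    rep_inv := fun _ _ => rfl
    idx := id
    dir := fun _ => vec n 1 0 0 0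
    dir_norm := ?_
    c1 := c / 2
    hc1 := by positivity
    hi := ?_
    lo := ?_
    closed := ?_ }⟩⟩
  · refine Continuous.continuousOn (continuous_pi fun j => (I4_cont_vec n).comp ?_)
    simp only [hY]
    fun_prop
  · intro s hs
    refine ⟨fun j => ?_, fun i j hij => ?_⟩
    · have h1 := hYlo s hs j
      have h2 := hYhi s hs j
      rw [I4_norm hn, abs_of_pos (by linarith)]
      exact ⟨by linarith, h2.trans hdM⟩
    · rw [vec_sub]
      simp only [sub_zero]
      rw [I4_norm hn]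
      have := hYsep s hs i j hij
      linarith
  · intro _ s _ j
    rw [hg1]
    simp
  · intro _
    rw [I4_norm hn]
    simp
  · intro s hs j hj
    show c / 2 ≤ inner ℝ (Dj α (polAB n a 1 ha one_pos) (fun i => vec n (Y s i) 0 0 0) j)
      (vec n 1 0 0 0)
    rw [hforce s hs j]
    have h1 := (hst (Y s) (hYs s hs) j).1 (by simp [hY, hj])
    have h2 : 2 * a * Y s j ≤ 2 * a * M := by
      have := hYhi s hs j
      gcongr
    linarith
  · intro s hs j hj
    show inner ℝ (Dj α (polAB n a 1 ha one_pos) (fun i => vec n (Y s i) 0 0 0) j)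
      (vec n 1 0 0 0) ≤ - (c / 2)
    rw [hforce s hs j]
    have h1 := (hst (Y s) (hYs s hs) j).2 (by simp [hY, hj]; ring)
    have h2 : 0 ≤ 2 * a * Y s j := by
      have := hYlo s hs j
      have h3 : 0 ≤ Y s j := by linarith
      positivity
    linarith
  · intro j _ v hv1 hv2
    obtain ⟨t, rfl⟩ := hg2 v (hv1 () rfl)
    have h1 := hv2 j rfl
    rw [vec_inner hn] at h1
    have h2 : t = 0 := by linarith
    rw [h2, I4_vec_zero]

end Pool.Agent.QGlue
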