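import Pool.Agent.QGlue.DefsK
import Pool.Agent.QGlue.I2
import Pool.Agent.QGlue.I3

/-! # Stable configurations for `0 < α ≤ 1` -/

set_option autoImplicit false

namespace Pool.Agent.QGlue

open MeasureTheory Real Set Filter Topology

/-- The inner product of the force with a vector of the plane. -/
private lemma inner_Dj {n : ℕ} (hn : n = 3 ∨ n = 4) {J : Type} [Fintype J] [DecidableEq J]
    (α a B : ℝ) (ha : 0 < a) (hB : 0 < B) (p q : J → ℝ) (j : J) (u v : ℝ) :
    inner ℝ (Dj α (polAB n a B ha hB) (fun j => vec n (p j) (q j) 0 0) j) (vec n u v 0 0)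
      = u * (α * p j / (p j ^ 2 + q j ^ 2) + 1 - 2 * a * p j
          - ∑ i ∈ Finset.univ.erase j,
              2 * (p j - p i) / ((p j - p i) ^ 2 + (q j - q i) ^ 2))
        + v * (α * q j / (p j ^ 2 + q j ^ 2) - 2 * B * q j
          - ∑ i ∈ Finset.univ.erase j,
              2 * (q j - q i) / ((p j - p i) ^ 2 + (q j - q i) ^ 2)) := by
  unfold Dj
  rw [inner_sub_left, inner_add_left, sum_inner, polAB_grad hn, vec_smul, vec_inner hn,
    vec_inner hn]
  have h1 : ∀ i ∈ Finset.univ.erase j,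
      inner ℝ ((2 / ‖vec n (p j) (q j) 0 0 - vec n (p i) (q i) 0 0‖ ^ 2) •
        (vec n (p j) (q j) 0 0 - vec n (p i) (q i) 0 0)) (vec n u v 0 0)
      = u * (2 * (p j - p i) / ((p j - p i) ^ 2 + (q j - q i) ^ 2))
        + v * (2 * (q j - q i) / ((p j - p i) ^ 2 + (q j - q i) ^ 2)) := by
    intro i _
    rw [vec_sub, sub_self, vec_norm_sq hn, vec_smul, vec_inner hn]
    ring
  rw [Finset.sum_congr rfl h1, Finset.sum_add_distrib, ← Finset.mul_sum, ← Finset.mul_sum,
    vec_norm_sq hn]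
  ring

private lemma sum_erase_inl {N : ℕ} (f : Unit ⊕ Fin N → ℝ) :
    ∑ i ∈ Finset.univ.erase (Sum.inl () : Unit ⊕ Fin N), f i = ∑ i, f (Sum.inr i) := by
  have h := Finset.add_sum_erase Finset.univ f (Finset.mem_univ (Sum.inl () : Unit ⊕ Fin N))
  rw [Fintype.sum_sum_type] at h
  simp only [Finset.univ_unique, PUnit.default_eq_unit, Finset.sum_singleton] at h
  linarith

private lemma sum_erase_inr {N : ℕ} (f : Unit ⊕ Fin N → ℝ) (j : Fin N) :
    ∑ i ∈ Finset.univ.erase (Sum.inr j : Unit ⊕ Fin N), f i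
      = f (Sum.inl ()) + ∑ i ∈ Finset.univ.erase j, f (Sum.inr i) := by
  have h := Finset.add_sum_erase Finset.univ f (Finset.mem_univ (Sum.inr j : Unit ⊕ Fin N))
  have h' := Finset.add_sum_erase Finset.univ (fun i : Fin N => f (Sum.inr i)) (Finset.mem_univ j)
  rw [Fintype.sum_sum_type] at h
  simp only [Finset.univ_unique, PUnit.default_eq_unit, Finset.sum_singleton] at h
  linarith

private lemma cont_vec {n : ℕ} {K : Type*} [TopologicalSpace K] {f g : K → ℝ}
    (hf : Continuous f) (hg : Continuous g) : Continuous fun s => vec n (f s) (g s) 0 0 := by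
  unfold vec
  refine (PiLp.continuous_toLp 2 _).comp (continuous_pi fun i => ?_)
  split_ifs
  · exact hf
  · exact hg
  · exact continuous_const
  · exact continuous_const

private lemma vec_zero {n : ℕ} : vec n 0 0 0 0 = 0 := by
  have h := vec_smul (n := n) 0 0 0 0 0
  simpa using h.symm

private lemma abs_le_norm_vec {n : ℕ} (hn : n = 3 ∨ n = 4) (x y : ℝ) :
    |x| ≤ ‖vec n x y 0 0‖ ∧ |y| ≤ ‖vec n x y 0 0‖ ∧ ‖vec n x y 0 0‖ ≤ |x| + |y| := by
  have h := vec_norm_sq hn x y 0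
  have h0 := norm_nonneg (vec n x y 0 0)
  refine ⟨abs_le_of_sq_le_sq (by nlinarith [sq_nonneg y]) h0,
    abs_le_of_sq_le_sq (by nlinarith [sq_nonneg x]) h0, ?_⟩
  have h1 : ‖vec n x y 0 0‖ ^ 2 ≤ (|x| + |y|) ^ 2 := by
    rw [h]
    nlinarith [abs_nonneg x, abs_nonneg y, sq_abs x, sq_abs y,
      mul_nonneg (abs_nonneg x) (abs_nonneg y)]
  exact (sq_le_sq₀ h0 (by positivity)).mp h1

/-- I5: stable configurations for `0 < α ≤ 1`. -/
theorem cfg_one {n : ℕ} (hn : n = 3 ∨ n = 4) {α : ℝ} (hα : 0 < α) (hα1 : α ≤ 1) (N : ℕ) :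
    ∃ P : Pol n, Nonempty (Cfg n α P (Unit ⊕ Fin N) (Fin 2 ⊕ (Fin N ⊕ Fin N)) Unit) := by
  obtain ⟨X, δ, η, r0, a, β, c, hδ, hη, hr0, ha, hβ, hc, hβ1, hX, hXX, hβη, hβr, hβ2, H⟩ :=
    forces hα 1 le_rfl (by push_cast; linarith) (by push_cast; linarith) N
  have hB : 0 < 1 / β ^ 2 := by positivity
  obtain ⟨g, hg1, hg2, hg3⟩ := exists_refl (n := n) hn
  set P : Pol n := polAB n a (1 / β ^ 2) ha hB with hPdef
  -- coordinates
  let K := Fin 2 ⊕ (Fin N ⊕ Fin N)
  let px : (K → ℝ) → Unit ⊕ Fin N → ℝ := fun s => Sum.elim (fun _ => β * η * s (Sum.inl 0))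
    (fun j => X j + δ * s (Sum.inr (Sum.inl j)))
  let py : (K → ℝ) → Unit ⊕ Fin N → ℝ := fun s =>
    Sum.elim (fun _ => β * r0 * (1 + s (Sum.inl 1) / 2))
    (fun j => β ^ 2 * s (Sum.inr (Sum.inr j)))
  let Xi : (K → ℝ) → Unit ⊕ Fin N → E n := fun s j => vec n (px s j) (py s j) 0 0
  -- the forces
  have key : ∀ s : K → ℝ, (∀ k, |s k| ≤ 1) → 
      (s (Sum.inl 0) = 1 → c ≤ inner ℝ (Dj α P (Xi s) (Sum.inl ())) (vec n 1 0 0 0)) ∧
      (s (Sum.inl 0) = -1 → inner ℝ (Dj α P (Xi s) (Sum.inl ())) (vec n 1 0 0 0) ≤ -c) ∧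
      (s (Sum.inl 1) = 1 → c ≤ inner ℝ (Dj α P (Xi s) (Sum.inl ())) (vec n 0 (-1) 0 0)) ∧
      (s (Sum.inl 1) = -1 → inner ℝ (Dj α P (Xi s) (Sum.inl ())) (vec n 0 (-1) 0 0) ≤ -c) ∧
      (∀ j, s (Sum.inr (Sum.inl j)) = 1 →
        c ≤ inner ℝ (Dj α P (Xi s) (Sum.inr j)) (vec n 1 0 0 0)) ∧
      (∀ j, s (Sum.inr (Sum.inl j)) = -1 →
        inner ℝ (Dj α P (Xi s) (Sum.inr j)) (vec n 1 0 0 0) ≤ -c) ∧
      (∀ j, s (Sum.inr (Sum.inr j)) = 1 →
        c ≤ inner ℝ (Dj α P (Xi s) (Sum.inr j)) (vec n 0 (-1) 0 0)) ∧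
      (∀ j, s (Sum.inr (Sum.inr j)) = -1 →
        inner ℝ (Dj α P (Xi s) (Sum.inr j)) (vec n 0 (-1) 0 0) ≤ -c) := by
    intro s hs
    obtain ⟨H1, H2, H3, H4, H5, H6, H7, H8⟩ := H (fun _ => 1) (fun _ => 0) (by simp)
      (s (Sum.inl 0)) (s (Sum.inl 1)) (fun j => s (Sum.inr (Sum.inl j)))
      (fun j => s (Sum.inr (Sum.inr j))) (hs _) (hs _) (fun _ => hs _) (fun _ => hs _)
      (px s (Sum.inl ())) (py s (Sum.inl ())) (fun j => px s (Sum.inr j))
      (fun j => py s (Sum.inr j)) rfl rfl (fun _ => rfl) (fun _ => rfl)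
      _ _ _ _ rfl rfl (fun _ => rfl) (fun _ => rfl)
    have e1 : inner ℝ (Dj α P (Xi s) (Sum.inl ())) (vec n 1 0 0 0) = _ :=
      inner_Dj hn α a (1 / β ^ 2) ha hB (px s) (py s) (Sum.inl ()) 1 0
    have e2 : inner ℝ (Dj α P (Xi s) (Sum.inl ())) (vec n 0 (-1) 0 0) = _ :=
      inner_Dj hn α a (1 / β ^ 2) ha hB (px s) (py s) (Sum.inl ()) 0 (-1)
    have e3 : ∀ j, inner ℝ (Dj α P (Xi s) (Sum.inr j)) (vec n 1 0 0 0) = _ := fun j =>
      inner_Dj hn α a (1 / β ^ 2) ha hB (px s) (py s) (Sum.inr j) 1 0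
    have e4 : ∀ j, inner ℝ (Dj α P (Xi s) (Sum.inr j)) (vec n 0 (-1) 0 0) = _ := fun j =>
      inner_Dj hn α a (1 / β ^ 2) ha hB (px s) (py s) (Sum.inr j) 0 (-1)
    simp only [sum_erase_inl, sum_erase_inr] at e1 e2 e3 e4
    rw [e1, e2]
    simp only [e3, e4]
    simp only [Nat.cast_one, sub_self, zero_div, sub_zero, Finset.univ_unique,
      Finset.sum_singleton, mul_one, mul_zero, ne_eq, OfNat.ofNat_ne_zero, not_false_eq_true,
      zero_pow, add_zero] at H1 H2 H3 H4 H5 H6 H7 H8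
    refine ⟨fun h => ?_, fun h => ?_, fun h => ?_, fun h => ?_, fun j h => ?_, fun j h => ?_,
      fun j h => ?_, fun j h => ?_⟩
    · have := H1 h; linarith
    · have := H2 h; linarith
    · have := H3 h; linarith
    · have := H4 h; linarith
    · have := H5 j h; linarith
    · have := H6 j h; linarith
    · have := H7 j h; linarith
    · have := H8 j h; linarith
  -- bounds on coordinates
  have hcoord : ∀ s : K → ℝ, (∀ k, |s k| ≤ 1) →
      (β * r0 / 2 ≤ |py s (Sum.inl ())|) ∧ (|px s (Sum.inl ())| ≤ δ) ∧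
      (|py s (Sum.inl ())| ≤ δ) ∧ (∀ j, 3 * δ ≤ px s (Sum.inr j)) ∧
      (∀ j, px s (Sum.inr j) ≤ X j + δ) ∧ (∀ j, |py s (Sum.inr j)| ≤ δ) ∧
      ∀ i j, i < j → 2 * δ ≤ px s (Sum.inr j) - px s (Sum.inr i) := by
    intro s hs
    have hs' : ∀ k, -1 ≤ s k ∧ s k ≤ 1 := fun k => abs_le.mp (hs k)
    have hβr0 : 0 < β * r0 := by positivity
    refine ⟨?_, ?_, ?_, fun j => ?_, fun j => ?_, fun j => ?_, fun i j hij => ?_⟩
    · simp only [py, Sum.elim_inl]
      obtain ⟨h1, h2⟩ := hs' (Sum.inl 1)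
      refine le_trans ?_ (le_abs_self _)
      nlinarith
    · simp only [px, Sum.elim_inl]
      rw [abs_mul, abs_of_pos (by positivity : 0 < β * η)]
      have := hs (Sum.inl 0)
      have h0 : 0 < β * η := by positivity
      nlinarith
    · simp only [py, Sum.elim_inl]
      obtain ⟨h1, h2⟩ := hs' (Sum.inl 1)
      rw [abs_of_pos (by nlinarith)]
      nlinarith
    · simp only [px, Sum.elim_inr]
      have := hX j
      obtain ⟨h1, h2⟩ := hs' (Sum.inr (Sum.inl j))
      nlinarith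
    · simp only [px, Sum.elim_inr]
      obtain ⟨h1, h2⟩ := hs' (Sum.inr (Sum.inl j))
      nlinarith
    · simp only [py, Sum.elim_inr]
      rw [abs_mul, abs_of_pos (by positivity : 0 < β ^ 2)]
      have := hs (Sum.inr (Sum.inr j))
      have h0 : 0 < β ^ 2 := by positivity
      nlinarith
    · simp only [px, Sum.elim_inr]
      have := hXX i j hij
      obtain ⟨h1, h2⟩ := hs' (Sum.inr (Sum.inl j))
      obtain ⟨h3, h4⟩ := hs' (Sum.inr (Sum.inl i))
      nlinarith
  -- the separation constant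
  set M : ℝ := ∑ j, |X j| + 2 * δ + 1 with hM
  have hXM : ∀ j, X j ≤ ∑ j, |X j| := fun j => (le_abs_self _).trans
    (Finset.single_le_sum (f := fun j => |X j|) (fun i _ => abs_nonneg _) (Finset.mem_univ j))
  have hMpos : 0 < M := by positivity
  have hS0 : 0 ≤ ∑ j, |X j| := Finset.sum_nonneg fun _ _ => abs_nonneg _
  set d : ℝ := min (min (β * r0 / 2) δ) (1 / M) with hd
  have hd0 : 0 < d := by positivity
  have hd1 : d ≤ β * r0 / 2 := (min_le_left _ _).trans (min_le_left _ _)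
  have hd2 : d ≤ δ := (min_le_left _ _).trans (min_le_right _ _)
  have hd3 : M ≤ 1 / d := by
    rw [le_div_iff₀ hd0]
    have : d ≤ 1 / M := min_le_right _ _
    rw [le_div_iff₀ hMpos] at this
    linarith
  have hsep : ∀ s : K → ℝ, (∀ k, |s k| ≤ 1) → (∀ j, d ≤ ‖Xi s j‖ ∧ ‖Xi s j‖ ≤ 1 / d) ∧
      ∀ i j, i ≠ j → d ≤ ‖Xi s i - Xi s j‖ := by
    intro s hs
    obtain ⟨b1, b2, b3, b4, b5, b6, b7⟩ := hcoord s hs
    have hdiff : ∀ i j, |px s i - px s j| ≤ ‖Xi s i - Xi s j‖ := by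
      intro i j
      simp only [Xi]
      rw [vec_sub, sub_self]
      exact (abs_le_norm_vec hn _ _).1
    refine ⟨?_, ?_⟩
    · rintro (⟨⟩ | j)
      · obtain ⟨h1, h2, h3⟩ := abs_le_norm_vec hn (px s (Sum.inl ())) (py s (Sum.inl ()))
        refine ⟨by linarith, ?_⟩
        refine h3.trans ?_
        linarith
      · obtain ⟨h1, h2, h3⟩ := abs_le_norm_vec hn (px s (Sum.inr j)) (py s (Sum.inr j))
        have h4 := b4 j
        have h5 := b5 j
        have h6 := b6 j
        rw [abs_of_pos (by linarith)] at h1 h3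
        refine ⟨by linarith, ?_⟩
        refine h3.trans ?_
        have := hXM j
        linarith
    · rintro (⟨⟩ | i) (⟨⟩ | j) hij
      · exact absurd rfl hij
      · refine le_trans ?_ (hdiff _ _)
        have h4 := b4 j
        have h2 := (abs_le.mp b2)
        rw [abs_sub_comm, abs_of_pos (by linarith)]
        linarith
      · refine le_trans ?_ (hdiff _ _)
        have h4 := b4 i
        have h2 := (abs_le.mp b2)
        rw [abs_of_pos (by linarith)]
        linarith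
      · refine le_trans ?_ (hdiff _ _)
        have hij' : i ≠ j := fun h => hij (by rw [h])
        rcases lt_or_gt_of_ne hij' with h | h
        · have h7 := b7 i j h
          rw [abs_sub_comm, abs_of_pos (by linarith)]
          linarith
        · have h7 := b7 j i h
          rw [abs_of_pos (by linarith)]
          linarith
  -- continuity
  have hcont : Continuous Xi := by
    refine continuous_pi fun j => ?_
    refine cont_vec ?_ ?_
    · rcases j with ⟨⟩ | j
      · simp only [px, Sum.elim_inl]; fun_prop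
      · simp only [px, Sum.elim_inr]; fun_prop
    · rcases j with ⟨⟩ | j
      · simp only [py, Sum.elim_inl]; fun_prop
      · simp only [py, Sum.elim_inr]; fun_prop
  let idx : K → Unit ⊕ Fin N := Sum.elim (fun _ => Sum.inl ())
    (Sum.elim (fun j => Sum.inr j) (fun j => Sum.inr j))
  let dir : K → E n := Sum.elim (fun i => if i = 0 then vec n 1 0 0 0 else vec n 0 (-1) 0 0)
    (Sum.elim (fun _ => vec n 1 0 0 0) (fun _ => vec n 0 (-1) 0 0))
  have hn1 : ‖vec n 1 0 0 0‖ ≤ 1 := by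
    have := (abs_le_norm_vec hn 1 0).2.2
    simpa using this
  have hn2 : ‖vec n 0 (-1) 0 0‖ ≤ 1 := by
    have := (abs_le_norm_vec hn 0 (-1)).2.2
    simpa using this
  refine ⟨P, ⟨{
    Xi := Xi, cont := hcont.continuousOn, d := d, hd := hd0, sep := hsep,
    iso := fun _ => g, perm := fun _ => 1, hP := fun _ v => hg3 _ _ _ _ v,
    hXi := ?_, rep := id, hrep := fun j => ⟨(), rfl⟩, rep_inv := fun _ _ => rfl,
    idx := idx, dir := dir, dir_norm := ?_, c1 := c, hc1 := hc, hi := ?_, lo := ?_,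
    closed := ?_ }⟩⟩
  · intro _ s _ j
    simp only [Xi, Equiv.Perm.coe_one, id]
    rw [hg1]
    simp
  · rintro (i | j | j)
    · simp only [dir, Sum.elim_inl]
      split_ifs
      · exact hn1
      · exact hn2
    · exact hn1
    · exact hn2
  · intro s hs k hk
    obtain ⟨k1, k2, k3, k4, k5, k6, k7, k8⟩ := key s hs
    rcases k with i | j | j
    · fin_cases i
      · exact k1 hk
      · exact k3 hk
    · exact k5 j hk
    · exact k7 j hk
  · intro s hs k hk
    obtain ⟨k1, k2, k3, k4, k5, k6, k7, k8⟩ := key s hs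
    rcases k with i | j | j
    · fin_cases i
      · exact k2 hk
      · exact k4 hk
    · exact k6 j hk
    · exact k8 j hk
  · intro j _ v hv hk
    obtain ⟨x, y, rfl⟩ := hg2 v (hv () rfl)
    have hx : x = 0 := by
      have : inner ℝ (vec n x y 0 0) (vec n 1 0 0 0) = 0 := by
        rcases j with ⟨⟩ | j
        · exact hk (Sum.inl 0) rfl
        · exact hk (Sum.inr (Sum.inl j)) rfl
      rw [vec_inner hn] at this
      linarith
    have hy : y = 0 := by
      have : inner ℝ (vec n x y 0 0) (vec n 0 (-1) 0 0) = 0 := by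
        rcases j with ⟨⟩ | j
        · exact hk (Sum.inl 1) rfl
        · exact hk (Sum.inr (Sum.inr j)) rfl
      rw [vec_inner hn] at this
      linarith
    rw [hx, hy]
    exact vec_zero

end Pool.Agent.QGlue
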