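import Pool.Agent.QGlue.I2
import Pool.Agent.QGlue.I3

set_option autoImplicit false

namespace Pool.Agent.QGlue

open MeasureTheory Real Set Filter Topology

/-! ### roots of unity -/

section roots

variable {k : ℕ} [NeZero k]

/-- cosine of the angle of a ring point -/
noncomputable def I6_C (i : ZMod k) : ℝ := (ZMod.stdAddChar i : ℂ).re

/-- sine of the angle of a ring point -/
noncomputable def I6_S (i : ZMod k) : ℝ := (ZMod.stdAddChar i : ℂ).im

private lemma I6_sq (i : ZMod k) : I6_C i ^ 2 + I6_S i ^ 2 = 1 := by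
  have h := AddChar.norm_apply (ZMod.stdAddChar (N := k)) i
  have h2 : Complex.normSq (ZMod.stdAddChar i : ℂ) = 1 := by
    rw [Complex.normSq_eq_norm_sq, h, one_pow]
  rw [Complex.normSq_apply] at h2
  unfold I6_C I6_S
  linarith [sq (ZMod.stdAddChar i : ℂ).re, sq (ZMod.stdAddChar i : ℂ).im]

private lemma I6_C_add (i m : ZMod k) : I6_C (i + m) = I6_C m * I6_C i - I6_S m * I6_S i := by
  unfold I6_C I6_S
  rw [AddChar.map_add_eq_mul, Complex.mul_re]
  ring

private lemma I6_S_add (i m : ZMod k) : I6_S (i + m) = I6_S m * I6_C i + I6_C m * I6_S i := by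
  unfold I6_C I6_S
  rw [AddChar.map_add_eq_mul, Complex.mul_im]
  ring

private lemma I6_C_neg (i : ZMod k) : I6_C (-i) = I6_C i := by
  unfold I6_C
  rw [AddChar.map_neg_eq_conj, Complex.conj_re]

private lemma I6_S_neg (i : ZMod k) : I6_S (-i) = - I6_S i := by
  unfold I6_S
  rw [AddChar.map_neg_eq_conj, Complex.conj_im]

private lemma I6_C_zero : I6_C (0 : ZMod k) = 1 := by
  unfold I6_C
  rw [AddChar.map_zero_eq_one, Complex.one_re]

private lemma I6_S_zero : I6_S (0 : ZMod k) = 0 := by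
  unfold I6_S
  rw [AddChar.map_zero_eq_one, Complex.one_im]

private lemma I6_C_lt (i : ZMod k) (hi : i ≠ 0) : I6_C i < 1 := by
  have h1 := I6_sq i
  have h2 : I6_C i ≤ 1 := by nlinarith [sq_nonneg (I6_S i), sq_nonneg (I6_C i - 1)]
  rcases lt_or_eq_of_le h2 with h | h
  · exact h
  · exfalso
    apply hi
    have h3 : I6_S i = 0 := by
      rw [h] at h1
      have : I6_S i ^ 2 = 0 := by linarith
      exact pow_eq_zero_iff (two_ne_zero) |>.1 this
    apply ZMod.injective_stdAddChar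
    rw [AddChar.map_zero_eq_one]
    apply Complex.ext
    · rw [Complex.one_re]; exact h
    · rw [Complex.one_im]; exact h3

end roots

private lemma I6_min {ι : Type} [Finite ι] (f : ι → ℝ) (hf : ∀ i, 0 < f i) :
    ∃ ρ : ℝ, 0 < ρ ∧ ∀ i, ρ ≤ f i := by
  rcases isEmpty_or_nonempty ι with h | h
  · exact ⟨1, one_pos, fun i => (h.false i).elim⟩
  · obtain ⟨i0, h0⟩ := Finite.exists_min f
    exact ⟨f i0, hf i0, h0⟩

/-- The ring configuration. -/
noncomputable def I6_Xi (n k N : ℕ) [NeZero k] (h r : ℝ) (x : Fin N → ℝ) : ZMod k ⊕ Fin N → E n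
  | Sum.inl i => vec n h (r * I6_C i) (r * I6_S i) 0
  | Sum.inr j => vec n (x j) 0 0 0

private lemma I6_inner_Dj {n : ℕ} {J : Type} [Fintype J] [DecidableEq J] (α : ℝ) (P : Pol n)
    (ξ : J → E n) (j : J) (e : E n) :
    inner ℝ (Dj α P ξ j) e = α / ‖ξ j‖ ^ 2 * inner ℝ (ξ j) e + inner ℝ (P.grad (ξ j)) e
      - ∑ i, 2 / ‖ξ j - ξ i‖ ^ 2 * inner ℝ (ξ j - ξ i) e := by
  unfold Dj
  rw [inner_sub_left, inner_add_left, inner_smul_left, sum_inner]
  simp only [inner_smul_left, conj_trivial]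
  rw [Finset.sum_erase]
  simp

private lemma I6_vec_inner1 {n : ℕ} (hn : n = 3 ∨ n = 4) (x y z w : ℝ) :
    inner ℝ (vec n x y z w) (vec n 1 0 0 0) = x := by
  rw [vec_inner hn]; ring

private lemma I6_vec_inner2 {n : ℕ} (hn : n = 3 ∨ n = 4) (x y z w : ℝ) :
    inner ℝ (vec n x y z w) (vec n 0 (-1) 0 0) = - y := by
  rw [vec_inner hn]; ring

section forces

variable {n : ℕ} (hn : n = 3 ∨ n = 4) {α : ℝ} (k N : ℕ) [NeZero k] (a B : ℝ) (ha : 0 < a)
  (hB : 0 < B) (h r : ℝ) (hr : 0 < r) (x : Fin N → ℝ)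
include hn

private lemma I6_near0 :
    inner ℝ (Dj α (polAB n a B ha hB) (I6_Xi n k N h r x) (Sum.inl 0)) (vec n 1 0 0 0) =
      α * h / (h ^ 2 + r ^ 2) + 1 - 2 * a * h
        - ∑ j, 2 * (h - x j) / ((h - x j) ^ 2 + (r - 0) ^ 2) := by
  rw [I6_inner_Dj, Fintype.sum_sum_type]
  simp only [I6_Xi, I6_C_zero, I6_S_zero, mul_one, mul_zero, vec_sub, sub_self, sub_zero,
    vec_norm_sq hn, polAB_grad hn, I6_vec_inner1 hn]
  have e1 : ∀ j, 2 / ((h - x j) ^ 2 + r ^ 2 + 0 ^ 2) * (h - x j) =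
      2 * (h - x j) / ((h - x j) ^ 2 + r ^ 2) := by
    intro j
    rw [show (h - x j) ^ 2 + r ^ 2 + 0 ^ 2 = (h - x j) ^ 2 + r ^ 2 by ring]
    ring
  simp only [e1, Finset.sum_const_zero, zero_add]
  rw [show h ^ 2 + r ^ 2 + 0 ^ 2 = h ^ 2 + r ^ 2 by ring]
  ring

include hr in
private lemma I6_near1 :
    inner ℝ (Dj α (polAB n a B ha hB) (I6_Xi n k N h r x) (Sum.inl 0)) (vec n 0 (-1) 0 0) =
      - (α * r / (h ^ 2 + r ^ 2) - 2 * B * r - (k - 1) / r
        - ∑ j, 2 * (r - 0) / ((h - x j) ^ 2 + (r - 0) ^ 2)) := by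
  rw [I6_inner_Dj, Fintype.sum_sum_type]
  simp only [I6_Xi, I6_C_zero, I6_S_zero, mul_one, mul_zero, vec_sub, sub_self, sub_zero,
    vec_norm_sq hn, polAB_grad hn, I6_vec_inner2 hn]
  have e1 : ∀ j, 2 / ((h - x j) ^ 2 + r ^ 2 + 0 ^ 2) * (-r) =
      - (2 * r / ((h - x j) ^ 2 + r ^ 2)) := by
    intro j
    rw [show (h - x j) ^ 2 + r ^ 2 + 0 ^ 2 = (h - x j) ^ 2 + r ^ 2 by ring]
    ring
  have e2 : ∑ i : ZMod k, 2 / (0 ^ 2 + (r - r * I6_C i) ^ 2 + (0 - r * I6_S i) ^ 2) *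
      (-(r - r * I6_C i)) = - ((k - 1) / r) := by
    have e3 : ∀ i : ZMod k, 2 / (0 ^ 2 + (r - r * I6_C i) ^ 2 + (0 - r * I6_S i) ^ 2) *
        (-(r - r * I6_C i)) = if i = 0 then 0 else - (1 / r) := by
      intro i
      by_cases hi : i = 0
      · rw [if_pos hi, hi, I6_C_zero]
        ring
      · rw [if_neg hi]
        have h1 := I6_C_lt i hi
        have h2 := I6_sq i
        have h3 : 0 ^ 2 + (r - r * I6_C i) ^ 2 + (0 - r * I6_S i) ^ 2
            = 2 * r ^ 2 * (1 - I6_C i) := by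
          have : I6_S i ^ 2 = 1 - I6_C i ^ 2 := by linarith
          calc 0 ^ 2 + (r - r * I6_C i) ^ 2 + (0 - r * I6_S i) ^ 2
              = r ^ 2 * ((1 - I6_C i) ^ 2 + I6_S i ^ 2) := by ring
            _ = 2 * r ^ 2 * (1 - I6_C i) := by rw [this]; ring
        rw [h3]
        have h4 : 1 - I6_C i ≠ 0 := by linarith
        field_simp
    simp only [e3]
    rw [Finset.sum_ite, Finset.sum_const_zero, zero_add, Finset.sum_const, nsmul_eq_mul]
    have h5 : (Finset.univ.filter (fun i : ZMod k => ¬ i = 0)).card = k - 1 := by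
      rw [Finset.filter_not, Finset.filter_eq' Finset.univ (0 : ZMod k)]
      simp only [Finset.mem_univ, if_true]
      rw [Finset.card_sdiff_of_subset (by simp), Finset.card_univ, ZMod.card]
      simp
    rw [h5]
    have h6 : 1 ≤ k := Nat.one_le_iff_ne_zero.2 (NeZero.ne k)
    push_cast [h6]
    ring
  simp only [e1]
  rw [e2]
  rw [show h ^ 2 + r ^ 2 + 0 ^ 2 = h ^ 2 + r ^ 2 by ring, Finset.sum_neg_distrib]
  ring

private lemma I6_far0 (j : Fin N) :
    inner ℝ (Dj α (polAB n a B ha hB) (I6_Xi n k N h r x) (Sum.inr j)) (vec n 1 0 0 0) =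
      α * x j / (x j ^ 2 + 0 ^ 2) + 1 - 2 * a * x j
        - (∑ i ∈ Finset.univ.erase j,
            2 * (x j - x i) / ((x j - x i) ^ 2 + (0 - 0) ^ 2))
        - ∑ i : ZMod k, 2 * (x j - h) /
          ((x j - h) ^ 2 + (0 - r * I6_C i) ^ 2 + (r * I6_S i) ^ 2) := by
  rw [I6_inner_Dj, Fintype.sum_sum_type]
  simp only [I6_Xi, vec_sub, sub_self,
    vec_norm_sq hn, polAB_grad hn, I6_vec_inner1 hn]
  rw [Finset.sum_erase _ (by simp)]
  have e1 : ∀ i, 2 / ((x j - x i) ^ 2 + 0 ^ 2 + 0 ^ 2) * (x j - x i) =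
      2 * (x j - x i) / ((x j - x i) ^ 2 + 0 ^ 2) := by
    intro i
    rw [show (x j - x i) ^ 2 + (0:ℝ) ^ 2 + 0 ^ 2 = (x j - x i) ^ 2 + 0 ^ 2 by ring]
    ring
  have e2 : ∀ i : ZMod k, 2 / ((x j - h) ^ 2 + (0 - r * I6_C i) ^ 2 + (0 - r * I6_S i) ^ 2) *
      (x j - h) = 2 * (x j - h) /
          ((x j - h) ^ 2 + (0 - r * I6_C i) ^ 2 + (r * I6_S i) ^ 2) := by
    intro i
    rw [show (0 - r * I6_S i) ^ 2 = (r * I6_S i) ^ 2 by ring]
    ring
  simp only [e1, e2]
  rw [show x j ^ 2 + (0:ℝ) ^ 2 + 0 ^ 2 = x j ^ 2 + 0 ^ 2 by ring]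
  ring

end forces

private lemma I6_vec_cont {X : Type*} [TopologicalSpace X] (n : ℕ) (f1 f2 f3 f4 : X → ℝ)
    (h1 : Continuous f1) (h2 : Continuous f2) (h3 : Continuous f3) (h4 : Continuous f4) :
    Continuous (fun t => vec n (f1 t) (f2 t) (f3 t) (f4 t)) := by
  unfold vec
  apply (PiLp.continuous_toLp 2 (fun _ : Fin n => ℝ)).comp
  apply continuous_pi
  intro i
  split_ifs
  · exact h1
  · exact h2
  · exact h3
  · exact h4

/-- I6 (file I6.lean; may assume I2, I3). -/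
theorem cfg_ring {n : ℕ} (hn : n = 3 ∨ n = 4) {α : ℝ} (hα : 1 < α) (k : ℕ) [NeZero k]
    (hk : 2 ≤ k) (hk2 : α < 2 * k) (hk3 : (k : ℝ) < α + 1) (N : ℕ) :
    ∃ P : Pol n, Nonempty (Cfg n α P (ZMod k ⊕ Fin N) (Fin 2 ⊕ Fin N) (ZMod k ⊕ Unit)) := by
  classical
  obtain ⟨X, δ, η, r0, a, β, c, hδ, hη, hr0, ha, hβ, hc, hβ1, hX, hXX, hβη, hβr, hββ, hF⟩ :=
    forces (by linarith : 0 < α) k (by omega) hk2 hk3 N
  have hB : (0 : ℝ) < 1 / β ^ 2 := by positivity
  refine ⟨polAB n a (1 / β ^ 2) ha hB, ?_⟩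
  -- parameters
  set hh : (Fin 2 ⊕ Fin N → ℝ) → ℝ := fun s => β * η * s (Sum.inl 0) with hhdef
  set rr : (Fin 2 ⊕ Fin N → ℝ) → ℝ := fun s => β * r0 * (1 + s (Sum.inl 1) / 2) with rrdef
  set xx : (Fin 2 ⊕ Fin N → ℝ) → Fin N → ℝ := fun s j => X j + δ * s (Sum.inr j) with xxdef
  have hrpos : ∀ s : Fin 2 ⊕ Fin N → ℝ, (∀ k, |s k| ≤ 1) → β * r0 / 2 ≤ rr s := by
    intro s hs
    have h1 := (abs_le.1 (hs (Sum.inl 1))).1
    have h2 : 0 < β * r0 := by positivity
    show β * r0 / 2 ≤ β * r0 * (1 + s (Sum.inl 1) / 2)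
    nlinarith
  have hrup : ∀ s : Fin 2 ⊕ Fin N → ℝ, (∀ k, |s k| ≤ 1) → rr s ≤ δ := by
    intro s hs
    have h1 := (abs_le.1 (hs (Sum.inl 1))).2
    have h2 : 0 < β * r0 := by positivity
    show β * r0 * (1 + s (Sum.inl 1) / 2) ≤ δ
    nlinarith
  have hhup : ∀ s : Fin 2 ⊕ Fin N → ℝ, (∀ k, |s k| ≤ 1) → |hh s| ≤ δ := by
    intro s hs
    show |β * η * s (Sum.inl 0)| ≤ δ
    rw [abs_mul, abs_of_pos (by positivity : 0 < β * η)]
    have h2 : 0 < β * η := by positivity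
    have h3 := hs (Sum.inl 0)
    nlinarith [abs_nonneg (s (Sum.inl 0))]
  have hxlo : ∀ s : Fin 2 ⊕ Fin N → ℝ, (∀ k, |s k| ≤ 1) → ∀ j, 3 * δ ≤ xx s j ∧
      xx s j ≤ X j + δ ∧ X j - δ ≤ xx s j := by
    intro s hs j
    have h1 := abs_le.1 (hs (Sum.inr j))
    have h2 := hX j
    show 3 * δ ≤ X j + δ * s (Sum.inr j) ∧ X j + δ * s (Sum.inr j) ≤ X j + δ ∧
      X j - δ ≤ X j + δ * s (Sum.inr j)
    refine ⟨?_, ?_, ?_⟩ <;> nlinarith [h1.1, h1.2]
  -- the ring gap
  obtain ⟨ρ, hρ, hρi⟩ := I6_min (fun i : {i : ZMod k // i ≠ 0} => 2 * (1 - I6_C i.1))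
    (fun i => by have := I6_C_lt i.1 i.2; linarith)
  -- upper bound
  set M : ℝ := 1 + 2 * δ + ∑ j, (X j + δ) with hM
  have hXnn : ∀ j, 0 ≤ X j + δ := fun j => by have := hX j; linarith
  have hMX : ∀ j, X j + δ ≤ M := by
    intro j
    have := Finset.single_le_sum (f := fun j => X j + δ) (fun j _ => hXnn j) (Finset.mem_univ j)
    rw [hM]
    linarith
  have hMs : 0 ≤ ∑ j, (X j + δ) := Finset.sum_nonneg (fun j _ => hXnn j)
  have hMpos : 0 < M := by rw [hM]; linarith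
  have hM2 : 2 * δ ≤ M := by rw [hM]; linarith
  set ρ' : ℝ := Real.sqrt ρ with hρ'
  have hρ'pos : 0 < ρ' := Real.sqrt_pos.2 hρ
  set d : ℝ := min (β * r0 / 2) (min δ (min (ρ' * (β * r0 / 2)) (1 / M))) with hd
  have hbr : 0 < β * r0 / 2 := by positivity
  have hdpos : 0 < d := by
    rw [hd]
    refine lt_min hbr (lt_min hδ (lt_min (by positivity) (by positivity)))
  have hd1 : d ≤ β * r0 / 2 := min_le_left _ _
  have hd2 : d ≤ δ := (min_le_right _ _).trans (min_le_left _ _)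
  have hd3 : d ≤ ρ' * (β * r0 / 2) :=
    (min_le_right _ _).trans ((min_le_right _ _).trans (min_le_left _ _))
  have hd4 : d ≤ 1 / M :=
    (min_le_right _ _).trans ((min_le_right _ _).trans (min_le_right _ _))
  have hd5 : M ≤ 1 / d := by
    rw [le_div_iff₀ hdpos]
    calc M * d ≤ M * (1 / M) := by gcongr
      _ = 1 := by field_simp
  -- isometries
  choose rot hrot1 hrot2 using fun m : ZMod k => exists_rot hn (I6_C m) (I6_S m) (I6_sq m)
  obtain ⟨refl, hrefl1, hrefl2, hrefl3⟩ := exists_refl hn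
  -- normal forms for the norm
  have nsq : ∀ (u : E n) (t : ℝ), 0 ≤ t → t ^ 2 ≤ ‖u‖ ^ 2 → t ≤ ‖u‖ := by
    intro u t ht h
    exact le_of_sq_le_sq h (norm_nonneg _)
  have nsq' : ∀ (u : E n) (t : ℝ), 0 ≤ t → ‖u‖ ^ 2 ≤ t ^ 2 → ‖u‖ ≤ t := by
    intro u t ht h
    exact le_of_sq_le_sq h ht
  -- forces
  have key : ∀ s : Fin 2 ⊕ Fin N → ℝ, (∀ k, |s k| ≤ 1) →
      (s (Sum.inl 0) = 1 → c ≤ inner ℝ (Dj α (polAB n a (1 / β ^ 2) ha hB)
        (I6_Xi n k N (hh s) (rr s) (xx s)) (Sum.inl 0)) (vec n 1 0 0 0)) ∧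
      (s (Sum.inl 0) = -1 → inner ℝ (Dj α (polAB n a (1 / β ^ 2) ha hB)
        (I6_Xi n k N (hh s) (rr s) (xx s)) (Sum.inl 0)) (vec n 1 0 0 0) ≤ -c) ∧
      (s (Sum.inl 1) = 1 → c ≤ inner ℝ (Dj α (polAB n a (1 / β ^ 2) ha hB)
        (I6_Xi n k N (hh s) (rr s) (xx s)) (Sum.inl 0)) (vec n 0 (-1) 0 0)) ∧
      (s (Sum.inl 1) = -1 → inner ℝ (Dj α (polAB n a (1 / β ^ 2) ha hB)
        (I6_Xi n k N (hh s) (rr s) (xx s)) (Sum.inl 0)) (vec n 0 (-1) 0 0) ≤ -c) ∧
      (∀ j, s (Sum.inr j) = 1 → c ≤ inner ℝ (Dj α (polAB n a (1 / β ^ 2) ha hB)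
        (I6_Xi n k N (hh s) (rr s) (xx s)) (Sum.inr j)) (vec n 1 0 0 0)) ∧
      (∀ j, s (Sum.inr j) = -1 → inner ℝ (Dj α (polAB n a (1 / β ^ 2) ha hB)
        (I6_Xi n k N (hh s) (rr s) (xx s)) (Sum.inr j)) (vec n 1 0 0 0) ≤ -c) := by
    intro s hs
    have hrp : 0 < rr s := lt_of_lt_of_le hbr (hrpos s hs)
    obtain ⟨e⟩ : Nonempty (Fin k ≃ ZMod k) := ⟨(ZMod.finEquiv k).toEquiv⟩
    obtain ⟨q1, q2, q3, q4, q5, q6, -, -⟩ := hF (fun i => I6_C (e i)) (fun i => I6_S (e i))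
      (fun i => I6_sq (e i)) (s (Sum.inl 0)) (s (Sum.inl 1)) (fun j => s (Sum.inr j))
      (fun _ => 0) (hs _) (hs _) (fun j => hs _) (fun _ => by simp)
      (hh s) (rr s) (xx s) (fun _ => 0) rfl rfl (fun _ => rfl) (fun _ => by simp)
      _ _ _ _ rfl rfl (fun _ => rfl) (fun _ => rfl)
    rw [I6_near0 hn, I6_near1 hn k N a (1 / β ^ 2) ha hB (hh s) (rr s) hrp (xx s)]
    refine ⟨q1, q2, ?_, ?_, ?_, ?_⟩
    · intro h; linarith [q3 h]
    · intro h; linarith [q4 h]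
    · intro j h
      rw [I6_far0 hn]
      have := q5 j h
      rwa [Equiv.sum_comp e (fun i : ZMod k => 2 * (xx s j - hh s) /
          ((xx s j - hh s) ^ 2 + (0 - rr s * I6_C i) ^ 2 + (rr s * I6_S i) ^ 2))] at this
    · intro j h
      rw [I6_far0 hn]
      have := q6 j h
      rwa [Equiv.sum_comp e (fun i : ZMod k => 2 * (xx s j - hh s) /
          ((xx s j - hh s) ^ 2 + (0 - rr s * I6_C i) ^ 2 + (rr s * I6_S i) ^ 2))] at this
  refine ⟨{
    Xi := fun s => I6_Xi n k N (hh s) (rr s) (xx s)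
    cont := ?_
    d := d
    hd := hdpos
    sep := ?_
    iso := fun g => Sum.elim rot (fun _ => refl) g
    perm := fun g => Sum.elim (fun m : ZMod k => Equiv.sumCongr (Equiv.addRight m)
        (Equiv.refl (Fin N)))
      (fun _ => Equiv.sumCongr (Equiv.neg (ZMod k)) (Equiv.refl (Fin N))) g
    hP := ?_
    hXi := ?_
    rep := fun j => Sum.elim (fun _ => Sum.inl 0) Sum.inr j
    hrep := ?_
    rep_inv := ?_
    idx := fun l => Sum.elim (fun _ => Sum.inl 0) Sum.inr l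
    dir := fun l => Sum.elim (fun i : Fin 2 => if i = 0 then vec n 1 0 0 0 else vec n 0 (-1) 0 0)
      (fun _ => vec n 1 0 0 0) l
    dir_norm := ?_
    c1 := c
    hc1 := hc
    hi := ?_
    lo := ?_
    closed := ?_ }⟩
  · -- continuity
    apply Continuous.continuousOn
    apply continuous_pi
    rintro (i | j)
    · apply I6_vec_cont
      · fun_prop
      · fun_prop
      · fun_prop
      · fun_prop
    · apply I6_vec_cont
      · fun_prop
      · fun_prop
      · fun_prop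
      · fun_prop
  · -- separation
    intro s hs
    have hr1 := hrpos s hs
    have hr2 := hrup s hs
    have hh1 := hhup s hs
    have hx := hxlo s hs
    have hrp : 0 < rr s := lt_of_lt_of_le hbr hr1
    have hh2 : hh s ^ 2 ≤ δ ^ 2 := by
      rw [← sq_abs]
      exact pow_le_pow_left₀ (abs_nonneg _) hh1 2
    constructor
    · rintro (i | j)
      · have hsq := I6_sq i
        have e1 : ‖I6_Xi n k N (hh s) (rr s) (xx s) (Sum.inl i)‖ ^ 2 = hh s ^ 2 + rr s ^ 2 := by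
          show ‖vec n (hh s) (rr s * I6_C i) (rr s * I6_S i) 0‖ ^ 2 = _
          rw [vec_norm_sq hn]
          calc hh s ^ 2 + (rr s * I6_C i) ^ 2 + (rr s * I6_S i) ^ 2
              = hh s ^ 2 + rr s ^ 2 * (I6_C i ^ 2 + I6_S i ^ 2) := by ring
            _ = _ := by rw [hsq, mul_one]
        constructor
        · apply nsq _ _ hdpos.le
          rw [e1]
          have : d ^ 2 ≤ rr s ^ 2 := pow_le_pow_left₀ hdpos.le (hd1.trans hr1) 2
          nlinarith [sq_nonneg (hh s)]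
        · refine le_trans ?_ hd5
          refine le_trans ?_ hM2
          apply nsq' _ _ (by positivity)
          rw [e1]
          nlinarith
      · have e1 : ‖I6_Xi n k N (hh s) (rr s) (xx s) (Sum.inr j)‖ ^ 2 = xx s j ^ 2 := by
          show ‖vec n (xx s j) 0 0 0‖ ^ 2 = _
          rw [vec_norm_sq hn]
          ring
        have h3 := hx j
        have e2 : ‖I6_Xi n k N (hh s) (rr s) (xx s) (Sum.inr j)‖ = xx s j := by
          have h4 : 0 ≤ xx s j := by linarith [h3.1]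
          exact (pow_left_inj₀ (norm_nonneg _) h4 two_ne_zero).1 e1
        rw [e2]
        constructor
        · linarith [h3.1]
        · exact (h3.2.1.trans (hMX j)).trans hd5
    · have nf : ∀ (i : ZMod k) (j : Fin N), d ≤ ‖I6_Xi n k N (hh s) (rr s) (xx s) (Sum.inl i)
          - I6_Xi n k N (hh s) (rr s) (xx s) (Sum.inr j)‖ := by
        intro i j
        apply nsq _ _ hdpos.le
        show d ^ 2 ≤ ‖vec n (hh s) (rr s * I6_C i) (rr s * I6_S i) 0 - vec n (xx s j) 0 0 0‖ ^ 2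
        rw [vec_sub, sub_self, vec_norm_sq hn]
        have h3 := hx j
        have h4 := abs_le.1 hh1
        have h5 : d ≤ xx s j - hh s := by linarith [h3.1, h4.2]
        have h6 : d ^ 2 ≤ (xx s j - hh s) ^ 2 := pow_le_pow_left₀ hdpos.le h5 2
        nlinarith [sq_nonneg (rr s * I6_C i - 0), sq_nonneg (rr s * I6_S i - 0)]
      have ff : ∀ (i j : Fin N), i < j → d ≤ ‖I6_Xi n k N (hh s) (rr s) (xx s) (Sum.inr j)
          - I6_Xi n k N (hh s) (rr s) (xx s) (Sum.inr i)‖ := by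
        intro i j hij
        apply nsq _ _ hdpos.le
        show d ^ 2 ≤ ‖vec n (xx s j) 0 0 0 - vec n (xx s i) 0 0 0‖ ^ 2
        rw [vec_sub, sub_self, vec_norm_sq hn]
        have h3 := hx j
        have h4 := hx i
        have h5 := hXX i j hij
        have h6 : d ≤ xx s j - xx s i := by linarith [h3.2.2, h4.2.1]
        have h7 : d ^ 2 ≤ (xx s j - xx s i) ^ 2 := pow_le_pow_left₀ hdpos.le h6 2
        nlinarith
      rintro (i | i) (j | j) hij
      · -- ring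
        apply nsq _ _ hdpos.le
        show d ^ 2 ≤ ‖vec n (hh s) (rr s * I6_C i) (rr s * I6_S i) 0 -
          vec n (hh s) (rr s * I6_C j) (rr s * I6_S j) 0‖ ^ 2
        rw [vec_sub, sub_self, sub_self, vec_norm_sq hn]
        have hne : i - j ≠ 0 := by
          intro h
          apply hij
          rw [sub_eq_zero.1 h]
        have h1 := hρi ⟨i - j, hne⟩
        simp only at h1
        have h2 : I6_C (i - j) = I6_C i * I6_C j + I6_S i * I6_S j := by
          rw [sub_eq_add_neg, I6_C_add, I6_C_neg, I6_S_neg]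
          ring
        have h3 := I6_sq i
        have h4 := I6_sq j
        have h5 : (0:ℝ) ^ 2 + (rr s * I6_C i - rr s * I6_C j) ^ 2 +
            (rr s * I6_S i - rr s * I6_S j) ^ 2 = rr s ^ 2 * (2 * (1 - I6_C (i - j))) := by
          rw [h2]
          calc (0:ℝ) ^ 2 + (rr s * I6_C i - rr s * I6_C j) ^ 2 +
            (rr s * I6_S i - rr s * I6_S j) ^ 2 = rr s ^ 2 * ((I6_C i ^ 2 + I6_S i ^ 2) +
              (I6_C j ^ 2 + I6_S j ^ 2) - 2 * (I6_C i * I6_C j + I6_S i * I6_S j)) := by ring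
            _ = _ := by rw [h3, h4]; ring
        rw [h5]
        have h6 : d ^ 2 ≤ (ρ' * (β * r0 / 2)) ^ 2 := pow_le_pow_left₀ hdpos.le hd3 2
        have h7 : (ρ' * (β * r0 / 2)) ^ 2 = ρ * (β * r0 / 2) ^ 2 := by
          rw [mul_pow, hρ', Real.sq_sqrt hρ.le]
        have h8 : (β * r0 / 2) ^ 2 ≤ rr s ^ 2 := pow_le_pow_left₀ hbr.le hr1 2
        calc d ^ 2 ≤ ρ * (β * r0 / 2) ^ 2 := by rw [← h7]; exact h6
          _ ≤ (2 * (1 - I6_C (i - j))) * rr s ^ 2 :=
              mul_le_mul h1 h8 (sq_nonneg _) (hρ.le.trans h1)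
          _ = _ := by ring
      · exact nf i j
      · rw [norm_sub_rev]; exact nf j i
      · rcases lt_trichotomy i j with h | h | h
        · rw [norm_sub_rev]; exact ff i j h
        · exact absurd (by rw [h]) hij
        · exact ff j i h
  · -- hP
    rintro (m | u) v
    · exact hrot2 m _ _ ha hB v
    · exact hrefl3 _ _ ha hB v
  · -- hXi
    rintro (m | u) s hs (i | j)
    · show vec n (hh s) (rr s * I6_C (i + m)) (rr s * I6_S (i + m)) 0 =
        rot m (vec n (hh s) (rr s * I6_C i) (rr s * I6_S i) 0)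
      rw [hrot1, I6_C_add, I6_S_add]
      congr 1 <;> ring
    · show vec n (xx s j) 0 0 0 = rot m (vec n (xx s j) 0 0 0)
      rw [hrot1]
      congr 1 <;> ring
    · show vec n (hh s) (rr s * I6_C (-i)) (rr s * I6_S (-i)) 0 =
        refl (vec n (hh s) (rr s * I6_C i) (rr s * I6_S i) 0)
      rw [hrefl1, I6_C_neg, I6_S_neg]
      congr 1 <;> ring
    · show vec n (xx s j) 0 0 0 = refl (vec n (xx s j) 0 0 0)
      rw [hrefl1]
      congr 1 <;> ring
  · -- hrep
    rintro (i | j)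
    · exact ⟨Sum.inl i, by simp⟩
    · exact ⟨Sum.inr (), by simp⟩
  · -- rep_inv
    rintro (m | u) (i | j) <;> rfl
  · -- dir_norm
    rintro (i | j)
    · show ‖(if i = 0 then vec n 1 0 0 0 else vec n 0 (-1) 0 0 : E n)‖ ≤ 1
      apply nsq' _ _ zero_le_one
      split_ifs
      · rw [vec_norm_sq hn]; norm_num
      · rw [vec_norm_sq hn]; norm_num
    · show ‖vec n 1 0 0 0‖ ≤ 1
      apply nsq' _ _ zero_le_one
      rw [vec_norm_sq hn]; norm_num
  · -- hi
    intro s hs l hl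
    obtain ⟨q1, q2, q3, q4, q5, q6⟩ := key s hs
    rcases l with i | j
    · fin_cases i
      · exact q1 hl
      · exact q3 hl
    · exact q5 j hl
  · -- lo
    intro s hs l hl
    obtain ⟨q1, q2, q3, q4, q5, q6⟩ := key s hs
    rcases l with i | j
    · fin_cases i
      · exact q2 hl
      · exact q4 hl
    · exact q6 j hl
  · -- closed
    rintro (i | j) hrepj v hv hd
    · have hi0 : (0 : ZMod k) = i := by
        have : (Sum.inl 0 : ZMod k ⊕ Fin N) = Sum.inl i := hrepj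
        exact Sum.inl_injective this
      subst hi0
      have h1 : refl v = v := hv (Sum.inr ()) (by simp)
      obtain ⟨x, y, rfl⟩ := hrefl2 v h1
      have h2 : inner ℝ (vec n x y 0 0) (vec n 1 0 0 0) = 0 := hd (Sum.inl 0) rfl
      have h3 : inner ℝ (vec n x y 0 0) (vec n 0 (-1) 0 0) = 0 := hd (Sum.inl 1) rfl
      rw [I6_vec_inner1 hn] at h2
      rw [I6_vec_inner2 hn] at h3
      have h4 : y = 0 := by linarith
      rw [h2, h4]
      have := vec_smul (n := n) 0 0 0 0 0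
      simpa using this.symm
    · have h1 : refl v = v := hv (Sum.inr ()) (by simp)
      obtain ⟨x, y, rfl⟩ := hrefl2 v h1
      have h2 : inner ℝ (vec n x y 0 0) (vec n 1 0 0 0) = 0 := hd (Sum.inr j) rfl
      rw [I6_vec_inner1 hn] at h2
      have h3 : rot 1 (vec n x y 0 0) = vec n x y 0 0 := hv (Sum.inl 1) (by simp)
      rw [hrot1] at h3
      have h4 := congrArg (fun v => inner ℝ v (vec n 0 (-1) 0 0)) h3
      simp only [I6_vec_inner2 hn] at h4
      have hne : (1 : ZMod k) ≠ 0 := by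
        have : Fact (1 < k) := ⟨by omega⟩
        exact one_ne_zero
      have h5 := I6_C_lt (1 : ZMod k) hne
      have h6 : y * (1 - I6_C (1 : ZMod k)) = 0 := by linarith
      have h7 : y = 0 := by
        rcases mul_eq_zero.1 h6 with h | h
        · exact h
        · linarith
      rw [h2, h7]
      have := vec_smul (n := n) 0 0 0 0 0
      simpa using this.symm

end Pool.Agent.QGlue
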