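import Pool.Agent.QGlue.DefsE
import Pool.Agent.QGlue.A1
import Pool.Agent.QGlue.A4
import Pool.Agent.QGlue.A5

/-!
# Equivariance (package QG-J)
-/

set_option autoImplicit false

namespace Pool.Agent.QGlue

open MeasureTheory Real Set Filter Topology

namespace JEq

section general

variable {n : ℕ}

/-- composition with an isometry -/
noncomputable def CC {μ : Measure (E n)} (g : E n ≃ₗᵢ[ℝ] E n) (h : MeasurePreserving g μ μ) :
    Lp ℝ 2 μ →ₗᵢ[ℝ] Lp ℝ 2 μ := Lp.compMeasurePreservingₗᵢ ℝ g h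

lemma CC_coe {μ : Measure (E n)} (g : E n ≃ₗᵢ[ℝ] E n) (h : MeasurePreserving g μ μ)
    (f : Lp ℝ 2 μ) : (CC g h f : E n → ℝ) =ᵐ[μ] fun y => f (g y) :=
  Lp.coeFn_compMeasurePreserving f h

lemma mp_symm {μ : Measure (E n)} (g : E n ≃ₗᵢ[ℝ] E n) (h : MeasurePreserving g μ μ) :
    MeasurePreserving g.symm μ μ := by
  have := MeasurePreserving.symm (g.toHomeomorph.toMeasurableEquiv) h
  exact this

lemma CC_CC_symm {μ : Measure (E n)} (g : E n ≃ₗᵢ[ℝ] E n) (h : MeasurePreserving g μ μ)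
    (h' : MeasurePreserving g.symm μ μ) (f : Lp ℝ 2 μ) : CC g.symm h' (CC g h f) = f := by
  apply Lp.ext
  have h1 := CC_coe g.symm h' (CC g h f)
  have h2 := h'.quasiMeasurePreserving.ae_eq_comp (CC_coe g h f)
  filter_upwards [h1, h2] with y a b
  rw [a]
  simp only [Function.comp_def] at b
  rw [b, g.apply_symm_apply]

lemma CC_toL {μ : Measure (E n)} (g : E n ≃ₗᵢ[ℝ] E n) (h : MeasurePreserving g μ μ)
    (f : E n → ℝ) : CC g h (toL μ f) = toL μ (fun y => f (g y)) := by
  unfold toL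
  by_cases hf : MemLp f 2 μ
  · have hf' : MemLp (fun y => f (g y)) 2 μ := hf.comp_measurePreserving h
    rw [dif_pos hf, dif_pos hf']
    exact Lp.toLp_compMeasurePreserving hf h
  · have hf' : ¬ MemLp (fun y => f (g y)) 2 μ := by
      intro hc
      apply hf
      have := hc.comp_measurePreserving (mp_symm g h)
      convert! this using 1
      funext y
      simp
    rw [dif_neg hf, dif_neg hf', map_zero]

lemma Zv_isom (g : E n ≃ₗᵢ[ℝ] E n) (y : E n) : Zv (g y) = g (Zv y) := by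
  unfold Zv
  rw [g.norm_map, map_smul]

lemma Z0_isom (g : E n ≃ₗᵢ[ℝ] E n) (y : E n) : Z0 (g y) = Z0 y := by
  unfold Z0
  rw [g.norm_map]

lemma Zv_memLp (hn : n = 3 ∨ n = 4) (i : Fin n) : MemLp (fun y : E n => Zv y i) 2 (piM n) := by
  have := piM_prob hn
  refine MemLp.of_bound ?_ 1 (ae_of_all _ fun y => ?_)
  · have : Continuous (fun y : E n => Zv y i) := by
      have h1 := continuous_Zv (n := n)
      exact (EuclideanSpace.proj (𝕜 := ℝ) i).continuous.comp h1
    exact this.aestronglyMeasurable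
  · have h1 : ‖Zv y i‖ ≤ ‖Zv y‖ := PiLp.norm_apply_le (Zv y) i
    have h2 := Z_norm y
    have h3 : ‖Zv y‖ ≤ 1 := by
      have h4 : ‖Zv y‖ ^ 2 ≤ 1 := by nlinarith [sq_nonneg (Z0 y)]
      nlinarith [norm_nonneg (Zv y)]
    exact h1.trans h3

lemma CC_KK (hn : n = 3 ∨ n = 4) (g : E n ≃ₗᵢ[ℝ] E n) (h : MeasurePreserving g (piM n) (piM n))
    (w : Lp ℝ 2 (piM n)) (hw : w ∈ KK n) : CC g h w ∈ KK n := by
  have hle : KK n ≤ (KK n).comap (CC g h).toLinearMap := by
    refine Submodule.span_le.mpr ?_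
    rintro _ ⟨i, rfl⟩
    simp only [Submodule.comap_coe, Set.mem_preimage, SetLike.mem_coe]
    change CC g h (kf n i) ∈ KK n
    match i with
    | none =>
      rw [show kf n none = toL (piM n) (fun _ => 1) from rfl, CC_toL]
      exact Submodule.subset_span ⟨none, rfl⟩
    | some none =>
      rw [show kf n (some none) = toL (piM n) Z0 from rfl, CC_toL]
      have : (fun y : E n => Z0 (g y)) = Z0 := funext fun y => Z0_isom g y
      rw [this]
      exact Submodule.subset_span ⟨some none, rfl⟩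
    | some (some i) =>
      rw [show kf n (some (some i)) = toL (piM n) (fun y => Zv y i) from rfl, CC_toL]
      have e1 : ∀ v : E n, (g v) i = ∑ j, (g (EuclideanSpace.single j (1 : ℝ))) i * v j := by
        intro v
        have hv : v = ∑ j, v j • EuclideanSpace.single j (1 : ℝ) := by
          ext k
          simp [Finset.sum_apply, Pi.single_apply]
        conv_lhs => rw [hv]
        rw [map_sum]
        simp only [map_smul]
        simp [mul_comm]
      have e2 : toL (piM n) (fun y : E n => Zv (g y) i) =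
          ∑ j, (g (EuclideanSpace.single j (1 : ℝ))) i • kf n (some (some j)) := by
        have hmem : MemLp (fun y : E n => Zv (g y) i) 2 (piM n) :=
          (Zv_memLp hn i).comp_measurePreserving h
        unfold toL
        rw [dif_pos hmem]
        apply Lp.ext
        refine hmem.coeFn_toLp.trans ?_
        have h3 : ∀ j : Fin n, ((kf n (some (some j)) : Lp ℝ 2 (piM n)) : E n → ℝ) =ᵐ[piM n]
            fun y => Zv y j := by
          intro j
          have : kf n (some (some j)) = (Zv_memLp hn j).toLp _ := by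
            change toL (piM n) (fun y => Zv y j) = _
            unfold toL
            rw [dif_pos (Zv_memLp hn j)]
          rw [this]
          exact (Zv_memLp hn j).coeFn_toLp
        have h4 := Lp.coeFn_finsetSum (μ := piM n) (p := 2) (Finset.univ : Finset (Fin n))
          (fun j => (g (EuclideanSpace.single j (1 : ℝ))) i • kf n (some (some j)))
        have h5 : ∀ᵐ y ∂(piM n), ∀ j : Fin n,
            (((g (EuclideanSpace.single j (1 : ℝ))) i • kf n (some (some j)) :
              Lp ℝ 2 (piM n)) : E n → ℝ) y = (g (EuclideanSpace.single j (1 : ℝ))) i * Zv y j := by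
          rw [ae_all_iff]
          intro j
          filter_upwards [Lp.coeFn_smul ((g (EuclideanSpace.single j (1 : ℝ))) i)
            (kf n (some (some j))), h3 j] with y a b
          rw [a, Pi.smul_apply, b, smul_eq_mul]
        filter_upwards [h4, h5] with y a b
        rw [a, Finset.sum_apply, Zv_isom, e1]
        exact (Finset.sum_congr rfl fun j _ => b j).symm
      rw [e2]
      refine Submodule.sum_mem _ fun j _ => Submodule.smul_mem _ _ ?_
      exact Submodule.subset_span ⟨some (some j), rfl⟩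
  exact hle hw

lemma PP_CC (hn : n = 3 ∨ n = 4) (g : E n ≃ₗᵢ[ℝ] E n) (h : MeasurePreserving g (piM n) (piM n))
    (f : Lp ℝ 2 (piM n)) : PP n (CC g h f) = CC g h (PP n f) := by
  unfold PP
  have h' := mp_symm g h
  have key : (KK n).starProjection (CC g h f) = CC g h ((KK n).starProjection f) := by
    apply Submodule.eq_starProjection_of_mem_of_inner_eq_zero
    · exact CC_KK hn g h _ (Submodule.starProjection_apply_mem _ _)
    · intro w hw
      have hw' : CC g.symm h' w ∈ KK n := CC_KK hn g.symm h' w hw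
      have e : w = CC g h (CC g.symm h' w) := by
        have := CC_CC_symm g.symm h' (by simpa using h) w
        exact this.symm
      rw [e, ← map_sub, LinearIsometry.inner_map_map]
      exact Submodule.starProjection_inner_eq_zero _ _ hw'
  rw [key, map_sub]

lemma mu0_isom (α : ℝ) (P : Pol n) (g : E n ≃ₗᵢ[ℝ] E n)
    (hP : ∀ x, P.eval (g x) = P.eval x) : MeasurePreserving g (mu0 n α P) (mu0 n α P) := by
  have hg : MeasurePreserving g (volume : Measure (E n)) volume := g.measurePreserving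
  refine ⟨hg.measurable, ?_⟩
  have hm : Measurable (fun x : E n => ENNReal.ofReal (‖x‖ ^ (n * α) * Real.exp (n * P.eval x))) := by
    have : Measurable (fun x : E n => P.eval x) := by
      unfold Pol.eval
      refine Continuous.measurable ?_
      fun_prop
    fun_prop
  ext s hs
  rw [Measure.map_apply hg.measurable hs]
  unfold mu0
  rw [withDensity_apply _ hs, withDensity_apply _ (hg.measurable hs),
    ← hg.setLIntegral_comp_preimage hs hm]
  refine lintegral_congr fun y => ?_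
  rw [g.norm_map, hP]

lemma Psi_isom (α : ℝ) (P : Pol n) (f : E n → ℝ) (g : E n ≃ₗᵢ[ℝ] E n)
    (hP : ∀ x, P.eval (g x) = P.eval x) (z : E n) :
    Psi n α P (fun w => f (g.symm w)) (g z) = Psi n α P f z := by
  unfold Psi
  congr 1
  have h := (mu0_isom α P g hP).integral_comp g.toHomeomorph.measurableEmbedding
    (fun w => Real.log ‖g z - w‖ * f (g.symm w))
  rw [← h]
  congr 1
  funext w
  rw [← map_sub, g.norm_map, g.symm_apply_apply]

lemma U_congr {f f' : E n → ℝ} (h : f =ᵐ[piM n] f') (y : E n) : U n f y = U n f' y := by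
  unfold U
  congr 1
  apply integral_congr_ae
  filter_upwards [h] with z hz
  rw [hz]

lemma Psi_congr (α : ℝ) (P : Pol n) {f f' : E n → ℝ} (h : f =ᵐ[mu0 n α P] f') (y : E n) :
    Psi n α P f y = Psi n α P f' y := by
  unfold Psi
  congr 1
  apply integral_congr_ae
  filter_upwards [h] with z hz
  rw [hz]

end general

section

variable {n : ℕ} {J : Type} [Fintype J] [DecidableEq J] {α : ℝ} (P : Pol n)

/-- reindexing of the punctured sums -/
lemma sum_erase (s : Equiv.Perm J) (j : J) (F : J → ℝ) :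
    ∑ i ∈ Finset.univ.erase (s j), F i = ∑ i ∈ Finset.univ.erase j, F (s i) := by
  symm
  refine Finset.sum_bij (fun i _ => s i) ?_ ?_ ?_ ?_
  · intro i hi
    simp only [Finset.mem_erase, Finset.mem_univ, and_true] at hi ⊢
    exact fun h => hi (s.injective h)
  · intro a _ b _ hab
    exact s.injective hab
  · intro b hb
    simp only [Finset.mem_erase, Finset.mem_univ, and_true] at hb
    refine ⟨s.symm b, ?_, by simp⟩
    simp only [Finset.mem_erase, Finset.mem_univ, and_true]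
    intro h
    apply hb
    rw [← h]; simp
  · intro i _; rfl

variable {P} {g : E n ≃ₗᵢ[ℝ] E n} {s : Equiv.Perm J} {q q' : Par n J}

lemma epj_eq (hP : ∀ x, P.eval (g x) = P.eval x)
    (hqq : ∀ j, q'.1 (s j) = g (q.1 j) ∧ q'.2.1 (s j) = q.2.1 j ∧ q'.2.2 (s j) = q.2.2 j)
    (ε : ℝ) (j : J) : Hj α P q'.1 (s j) = Hj α P q.1 j ∧ epj α P ε q' (s j) = epj α P ε q j := by
  have h1 : Hj α P q'.1 (s j) = Hj α P q.1 j := by
    unfold Hj
    rw [sum_erase s j (fun i => 2 * Real.log ‖q'.1 (s j) - q'.1 i‖)]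
    simp only [(hqq _).1, hP, g.norm_map, ← map_sub]
  refine ⟨h1, ?_⟩
  unfold epj
  rw [h1, (hqq j).2.1]

lemma phi_eq (hP : ∀ x, P.eval (g x) = P.eval x)
    (hqq : ∀ j, q'.1 (s j) = g (q.1 j) ∧ q'.2.1 (s j) = q.2.1 j ∧ q'.2.2 (s j) = q.2.2 j)
    (ε : ℝ) (x x' : XX n J α P)
    (h1 : ∀ j, (x'.1 (s j) : E n → ℝ) =ᵐ[piM n] fun y => x.1 j (g.symm y))
    (h2 : (x'.2 : E n → ℝ) =ᵐ[mu0 n α P] fun y => x.2 (g.symm y)) (z : E n) :
    phiX α P ε q' x' (g z) = phiX α P ε q x z := by
  unfold phiX phi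
  congr 1
  · rw [← Equiv.sum_comp s]
    refine Finset.sum_congr rfl fun j _ => ?_
    rw [(epj_eq (α := α) hP hqq ε j).2, (hqq j).1, ← map_sub, ← map_smul, U_congr (h1 j),
      U_isometry]
  · rw [Psi_congr α P h2, Psi_isom α P _ g hP]

lemma hj_eq (hP : ∀ x, P.eval (g x) = P.eval x)
    (hqq : ∀ j, q'.1 (s j) = g (q.1 j) ∧ q'.2.1 (s j) = q.2.1 j ∧ q'.2.2 (s j) = q.2.2 j)
    (ε : ℝ) (j : J) (z : E n) : hj α P ε q' (s j) (g z) = hj α P ε q j z := by
  unfold hj
  rw [sum_erase s j]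
  simp only [(epj_eq (α := α) hP hqq ε _).2, (epj_eq (α := α) hP hqq ε _).1, (hqq _).1,
    (hqq _).2.1, (hqq _).2.2, hP, g.norm_map, ← map_sub]

lemma Wf_eq (hP : ∀ x, P.eval (g x) = P.eval x)
    (hqq : ∀ j, q'.1 (s j) = g (q.1 j) ∧ q'.2.1 (s j) = q.2.1 j ∧ q'.2.2 (s j) = q.2.2 j)
    (ε : ℝ) (z : E n) : Wf α P ε q' (g z) = Wf α P ε q z := by
  unfold Wf
  rw [← Equiv.sum_comp s]
  simp only [(epj_eq (α := α) hP hqq ε _).2, (hqq _).1, (hqq _).2.2, g.norm_map, ← map_sub]

lemma FFX_eq (hP : ∀ x, P.eval (g x) = P.eval x)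
    (hqq : ∀ j, q'.1 (s j) = g (q.1 j) ∧ q'.2.1 (s j) = q.2.1 j ∧ q'.2.2 (s j) = q.2.2 j)
    (ε δ : ℝ) (x x' : XX n J α P)
    (h1 : ∀ j, (x'.1 (s j) : E n → ℝ) =ᵐ[piM n] fun y => x.1 j (g.symm y))
    (h2 : (x'.2 : E n → ℝ) =ᵐ[mu0 n α P] fun y => x.2 (g.symm y)) (j : J) (y : E n) :
    FFX α P ε δ q' x' (s j) (g y) = FFX α P ε δ q x j y := by
  have hp := fun z => phi_eq hP hqq ε x x' h1 h2 z
  unfold phiX at hp
  unfold FFX FF
  rw [(hqq j).2.2]
  congr 1
  have e1 : q'.1 (s j) + epj α P ε q' (s j) • g y = g (q.1 j + epj α P ε q j • y) := by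
    rw [(hqq j).1, (epj_eq (α := α) hP hqq ε j).2, map_add, map_smul]
  by_cases hy : ‖epj α P ε q j • y‖ < δ
  · have hy' : ‖epj α P ε q' (s j) • g y‖ < δ := by
      rw [(epj_eq (α := α) hP hqq ε j).2, ← map_smul, g.norm_map]; exact hy
    rw [Set.indicator_of_mem (show g y ∈ {y | ‖epj α P ε q' (s j) • y‖ < δ} from hy'),
      Set.indicator_of_mem (show y ∈ {y | ‖epj α P ε q j • y‖ < δ} from hy)]
    rw [e1, hp, hj_eq hP hqq]
  · have hy' : ¬ ‖epj α P ε q' (s j) • g y‖ < δ := by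
      rw [(epj_eq (α := α) hP hqq ε j).2, ← map_smul, g.norm_map]; exact hy
    rw [Set.indicator_of_notMem (show g y ∉ {y | ‖epj α P ε q' (s j) • y‖ < δ} from hy'),
      Set.indicator_of_notMem (show y ∉ {y | ‖epj α P ε q j • y‖ < δ} from hy)]

lemma GGX_eq (hP : ∀ x, P.eval (g x) = P.eval x)
    (hqq : ∀ j, q'.1 (s j) = g (q.1 j) ∧ q'.2.1 (s j) = q.2.1 j ∧ q'.2.2 (s j) = q.2.2 j)
    (ε δ : ℝ) (x x' : XX n J α P)
    (h1 : ∀ j, (x'.1 (s j) : E n → ℝ) =ᵐ[piM n] fun y => x.1 j (g.symm y))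
    (h2 : (x'.2 : E n → ℝ) =ᵐ[mu0 n α P] fun y => x.2 (g.symm y)) (y : E n) :
    GGX α P ε δ q' x' (g y) = GGX α P ε δ q x y := by
  have hp := fun z => phi_eq hP hqq ε x x' h1 h2 z
  unfold phiX at hp
  unfold GGX GG
  congr 1
  have hiff : g y ∈ outR δ q' ↔ y ∈ outR δ q := by
    unfold outR
    simp only [Set.mem_ofPred_eq]
    constructor
    · intro h j
      have := h (s j)
      rwa [(hqq j).1, ← map_sub, g.norm_map] at this
    · intro h j
      have := h (s.symm j)
      have h3 := (hqq (s.symm j)).1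
      rw [s.apply_symm_apply] at h3
      rw [h3, ← map_sub, g.norm_map]
      exact this
  by_cases hy : y ∈ outR δ q
  · rw [Set.indicator_of_mem (hiff.mpr hy), Set.indicator_of_mem hy, hp, Wf_eq hP hqq]
  · rw [Set.indicator_of_notMem (fun h => hy (hiff.mp h)), Set.indicator_of_notMem hy]

end

end JEq

open JEq in
theorem equivariant {n : ℕ} {J : Type} [Fintype J] [DecidableEq J] {α : ℝ} (P : Pol n)
    (hn : n = 3 ∨ n = 4) (hα : -1 < α) (d δ2 ε : ℝ) (hd : 0 < d) (hε : 0 < ε)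
    (hε1 : ε ≤ 1) (g : E n ≃ₗᵢ[ℝ] E n) (s : Equiv.Perm J) (hP : ∀ x, P.eval (g x) = P.eval x)
    (q q' : Par n J) (hq : q ∈ Qd d δ2 ε) (hq' : q' ∈ Qd d δ2 ε)
    (hqq : ∀ j, q'.1 (s j) = g (q.1 j) ∧ q'.2.1 (s j) = q.2.1 j ∧ q'.2.2 (s j) = q.2.2 j)
    (x : XX n J α P) (hT : TT α P ε (d / 8) q x = x) :
    ∃ x' : XX n J α P, ‖x'‖ = ‖x‖ ∧ TT α P ε (d / 8) q' x' = x' ∧ ∀ j,
      redA α P ε (d / 8) q' x' (s j) = redA α P ε (d / 8) q x j ∧
      redB α P ε (d / 8) q' x' (s j) = redB α P ε (d / 8) q x j ∧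
      redC α P ε (d / 8) q' x' (s j) = g (redC α P ε (d / 8) q x j) := by
  have hπ := mp_symm g (piM_isometry (n := n) g)
  have hμ := mp_symm g (mu0_isom α P g hP)
  let x' : XX n J α P := (fun i => CC g.symm hπ (x.1 (s.symm i)), CC g.symm hμ x.2)
  have hx1 : ∀ j, x'.1 (s j) = CC g.symm hπ (x.1 j) := by
    intro j
    change CC g.symm hπ (x.1 (s.symm (s j))) = _
    rw [s.symm_apply_apply]
  have h1 : ∀ j, (x'.1 (s j) : E n → ℝ) =ᵐ[piM n] fun y => x.1 j (g.symm y) := by
    intro j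
    rw [hx1]
    exact CC_coe g.symm hπ _
  have h2 : (x'.2 : E n → ℝ) =ᵐ[mu0 n α P] fun y => x.2 (g.symm y) := CC_coe g.symm hμ _
  have hF := fun j y => FFX_eq hP hqq ε (d / 8) x x' h1 h2 j y
  have hG := fun y => GGX_eq hP hqq ε (d / 8) x x' h1 h2 y
  have hF' : ∀ j, FFX α P ε (d / 8) q' x' (s j) = fun y => FFX α P ε (d / 8) q x j (g.symm y) := by
    intro j
    funext y
    rw [← hF j (g.symm y), g.apply_symm_apply]
  have hG' : GGX α P ε (d / 8) q' x' = fun y => GGX α P ε (d / 8) q x (g.symm y) := by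
    funext y
    rw [← hG (g.symm y), g.apply_symm_apply]
  have hint : ∀ F : E n → ℝ, ∫ y, F (g.symm y) ∂(piM n) = ∫ y, F y ∂(piM n) := fun F =>
    hπ.integral_comp g.symm.toHomeomorph.measurableEmbedding F
  have hintE : ∀ F : E n → E n, ∫ y, F (g.symm y) ∂(piM n) = ∫ y, F y ∂(piM n) := fun F =>
    hπ.integral_comp g.symm.toHomeomorph.measurableEmbedding F
  have hT1 : ∀ j, PP n (toL (piM n) (FFX α P ε (d / 8) q x j)) = x.1 j := fun j =>
    congrFun (congrArg Prod.fst hT) j
  have hT2 : toL (mu0 n α P) (GGX α P ε (d / 8) q x) = x.2 := congrArg Prod.snd hT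
  refine ⟨x', ?_, ?_, fun j => ⟨?_, ?_, ?_⟩⟩
  · rw [Prod.norm_def, Prod.norm_def]
    congr 1
    · apply le_antisymm
      · refine (pi_norm_le_iff_of_nonneg (norm_nonneg _)).mpr fun i => ?_
        rw [show x'.1 i = CC g.symm hπ (x.1 (s.symm i)) from rfl, LinearIsometry.norm_map]
        exact norm_le_pi_norm x.1 (s.symm i)
      · refine (pi_norm_le_iff_of_nonneg (norm_nonneg _)).mpr fun i => ?_
        have : ‖x.1 i‖ = ‖x'.1 (s i)‖ := by rw [hx1, LinearIsometry.norm_map]
        rw [this]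
        exact norm_le_pi_norm x'.1 (s i)
    · exact LinearIsometry.norm_map _ _
  · refine Prod.ext ?_ ?_
    · funext i
      obtain ⟨j, rfl⟩ := s.surjective i
      change PP n (toL (piM n) (FFX α P ε (d / 8) q' x' (s j))) = x'.1 (s j)
      rw [hF', ← CC_toL g.symm hπ, PP_CC hn, hT1, hx1]
    · change toL (mu0 n α P) (GGX α P ε (d / 8) q' x') = x'.2
      rw [hG', ← CC_toL g.symm hμ, hT2]
  · unfold redA
    rw [hF']
    exact hint _
  · unfold redB
    rw [hF']
    rw [← hint (fun y => FFX α P ε (d / 8) q x j y * Z0 y)]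
    congr 1
    funext y
    rw [Z0_isom]
  · unfold redC
    rw [hF']
    have := (g.toContinuousLinearEquiv).integral_comp_comm (μ := piM n)
      (fun y => FFX α P ε (d / 8) q x j y • Zv y)
    have e1 : g (∫ y, FFX α P ε (d / 8) q x j y • Zv y ∂(piM n)) =
        ∫ y, FFX α P ε (d / 8) q x j y • Zv (g y) ∂(piM n) := by
      refine (this.symm).trans ?_
      congr 1
      funext y
      change g (FFX α P ε (d / 8) q x j y • Zv y) = _
      rw [map_smul, Zv_isom]
    rw [e1, ← hintE (fun y => FFX α P ε (d / 8) q x j y • Zv (g y))]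
    congr 1
    funext y
    simp only [g.apply_symm_apply]

end Pool.Agent.QGlue
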