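import Mathlib
import Pool.Agent.GT63.Cubical

/-!
# K0: the Poincaré–Miranda theorem on boxes with an arbitrary finite index type
-/

set_option autoImplicit false

open Filter Topology Set

namespace Pool.Agent.QGlue

private theorem pm_cube_fin {n : ℕ} (r : Fin n → ℝ) (hr : ∀ i, 0 < r i)
    (F : (Fin n → ℝ) → Fin n → ℝ)
    (hF : ∀ i, ContinuousOn (fun x => F x i) {x | ∀ i, |x i| ≤ r i})
    (hneg : ∀ x, (∀ i, |x i| ≤ r i) → ∀ i, x i = - r i → F x i < 0)
    (hpos : ∀ x, (∀ i, |x i| ≤ r i) → ∀ i, x i = r i → 0 < F x i) :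
    ∃ x, (∀ i, |x i| ≤ r i) ∧ ∀ i, F x i = 0 := by
  classical
  set ψ : (Fin n → unitInterval) → (Fin n → ℝ) := fun t i => r i * (2 * (t i : ℝ) - 1) with hψ
  have hψi : ∀ t i, ψ t i = r i * (2 * (t i : ℝ) - 1) := fun t i => rfl
  have hψc : Continuous ψ := by
    refine continuous_pi fun i => ?_
    show Continuous fun t : Fin n → unitInterval => r i * (2 * (t i : ℝ) - 1)
    fun_prop
  have hψm : ∀ t, ∀ i, |ψ t i| ≤ r i := by
    intro t i
    rw [hψi]
    have h0 := (t i).2.1
    have h1 := (t i).2.2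
    have h2 := hr i
    rw [abs_le]
    constructor <;> nlinarith
  have hFi : ∀ i, Continuous (fun t => F (ψ t) i) := by
    intro i
    rw [← continuousOn_univ]
    exact (hF i).comp hψc.continuousOn (fun t _ => hψm t)
  obtain ⟨t, ht⟩ := GT63.Cubical.partitions_meet
    (fun i => {t : Fin n → unitInterval | F (ψ t) i < 0}) (fun i => {t | 0 < F (ψ t) i})
    (fun i => isOpen_lt (hFi i) continuous_const) (fun i => isOpen_lt continuous_const (hFi i))
    (fun i => by
      rw [Set.disjoint_left]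
      intro t h1 h2
      simp only [Set.mem_setOf_eq] at h1 h2
      linarith)
    (fun i t h => by
      apply hneg _ (hψm t)
      rw [hψi, h]
      simp)
    (fun i t h => by
      apply hpos _ (hψm t)
      rw [hψi, h]
      simp
      ring)
  refine ⟨ψ t, hψm t, fun i => ?_⟩
  have h1 := ht i
  simp only [Set.mem_setOf_eq, not_lt] at h1
  exact le_antisymm h1.2 h1.1

theorem pm_cube {ι : Type} [Fintype ι] (r : ι → ℝ) (hr : ∀ i, 0 < r i) (F : (ι → ℝ) → ι → ℝ)
    (hF : ∀ i, ContinuousOn (fun x => F x i) {x | ∀ i, |x i| ≤ r i})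
    (hneg : ∀ x, (∀ i, |x i| ≤ r i) → ∀ i, x i = - r i → F x i < 0)
    (hpos : ∀ x, (∀ i, |x i| ≤ r i) → ∀ i, x i = r i → 0 < F x i) :
    ∃ x, (∀ i, |x i| ≤ r i) ∧ ∀ i, F x i = 0 := by
  classical
  set e := Fintype.equivFin ι with he
  have hmem : ∀ x : Fin (Fintype.card ι) → ℝ, (∀ k, |x k| ≤ r (e.symm k)) →
      ∀ i, |(x ∘ e) i| ≤ r i := by
    intro x hx i
    have := hx (e i)
    simpa using this
  obtain ⟨x, hx, hx0⟩ := pm_cube_fin (fun k => r (e.symm k)) (fun k => hr _)
    (fun x k => F (x ∘ e) (e.symm k))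
    (by
      intro k
      refine (hF (e.symm k)).comp (f := fun x : Fin (Fintype.card ι) → ℝ => x ∘ e) ?_ ?_
      · exact Continuous.continuousOn (by
          refine continuous_pi fun i => ?_
          exact continuous_apply (e i))
      · intro x hx i
        exact hmem x hx i)
    (by
      intro x hx k hk
      refine hneg _ (hmem x hx) _ ?_
      simpa using hk)
    (by
      intro x hx k hk
      refine hpos _ (hmem x hx) _ ?_
      simpa using hk)
  refine ⟨x ∘ e, hmem x hx, fun i => ?_⟩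
  have := hx0 (e i)
  simpa using this

end Pool.Agent.QGlue
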