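import Pool.Agent.QGlue.DefsK
import Pool.Agent.QGlue.K0
import Pool.Agent.QGlue.D1
import Pool.Agent.QGlue.E7
import Pool.Agent.QGlue.F
import Pool.Agent.QGlue.G2
import Pool.Agent.QGlue.J

set_option autoImplicit false

namespace Pool.Agent.QGlue

open MeasureTheory Real Set Filter Topology

section

variable {n : ℕ} {α : ℝ} {P : Pol n} {J K G : Type} [Fintype J] [DecidableEq J]

/-- The parameters of the reduced problem. -/
private noncomputable def k1q (c : Cfg n α P J K G) (z : K ⊕ (J ⊕ J) → ℝ) : Par n J :=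
  (c.Xi (fun k => z (Sum.inl k)), fun j => z (Sum.inr (Sum.inl (c.rep j))),
    fun j => z (Sum.inr (Sum.inr (c.rep j))))

/-- The sizes of the cube. -/
private noncomputable def k1r (K J : Type) (δ2 ε : ℝ) : K ⊕ (J ⊕ J) → ℝ :=
  Sum.elim (fun _ => 1) (Sum.elim (fun _ => δ2) (fun _ => ε))

private theorem k1_mem (c : Cfg n α P J K G) (δ2 ε : ℝ) (z : K ⊕ (J ⊕ J) → ℝ)
    (hz : ∀ i, |z i| ≤ k1r K J δ2 ε i) : k1q c z ∈ Qd c.d δ2 ε := by
  have hs : ∀ k, |z (Sum.inl k)| ≤ 1 := fun k => hz (Sum.inl k)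
  obtain ⟨h1, h2⟩ := c.sep (fun k => z (Sum.inl k)) hs
  exact ⟨h1, h2, fun j => hz (Sum.inr (Sum.inl (c.rep j))),
    fun j => hz (Sum.inr (Sum.inr (c.rep j)))⟩

private theorem k1_cont (c : Cfg n α P J K G) (δ2 ε : ℝ) :
    ContinuousOn (k1q c) {z | ∀ i, |z i| ≤ k1r K J δ2 ε i} := by
  have h1 : ContinuousOn (fun z : K ⊕ (J ⊕ J) → ℝ => c.Xi (fun k => z (Sum.inl k)))
      {z | ∀ i, |z i| ≤ k1r K J δ2 ε i} := by
    refine c.cont.comp (t := {s | ∀ k, |s k| ≤ 1})
      (f := fun z : K ⊕ (J ⊕ J) → ℝ => fun k => z (Sum.inl k)) ?_ ?_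
    · exact (continuous_pi fun k => continuous_apply _).continuousOn
    · intro z hz k
      exact hz (Sum.inl k)
  refine h1.prodMk (ContinuousOn.prodMk ?_ ?_)
  · exact (continuous_pi fun j => continuous_apply _).continuousOn
  · exact (continuous_pi fun j => continuous_apply _).continuousOn

/-- The functions of the reduced problem. -/
private noncomputable def k1F (c : Cfg n α P J K G) (ε : ℝ) (S : Par n J → XX n J α P)
    (z : K ⊕ (J ⊕ J) → ℝ) : K ⊕ (J ⊕ J) → ℝ
  | Sum.inl k => inner ℝ (redC α P ε (c.d / 8) (k1q c z) (S (k1q c z)) (c.idx k)) (c.dir k)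
  | Sum.inr (Sum.inl j) => if c.rep j = j then
      redA α P ε (c.d / 8) (k1q c z) (S (k1q c z)) j else z (Sum.inr (Sum.inl j))
  | Sum.inr (Sum.inr j) => if c.rep j = j then
      redB α P ε (c.d / 8) (k1q c z) (S (k1q c z)) j else z (Sum.inr (Sum.inr j))

end

private theorem k1_sigma (A B D : ℝ) (hA : 0 < A) (hB : 0 < B) (hD : 0 < D) :
    ∃ σ : ℝ, 0 < σ ∧ σ < A ∧ σ < B ∧ σ < D := by
  have h : 0 < min A (min B D) := lt_min hA (lt_min hB hD)
  obtain ⟨σ, h0, h1⟩ := exists_between h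
  exact ⟨σ, h0, h1.trans_le (min_le_left _ _),
    h1.trans_le ((min_le_right _ _).trans (min_le_left _ _)),
    h1.trans_le ((min_le_right _ _).trans (min_le_right _ _))⟩

private theorem k1_exp_lower (n : ℝ) (hn : 0 < n) (δ2 t : ℝ) (ht : |t| ≤ δ2) :
    Real.exp (-(n * δ2)) ≤ Real.exp (n * t) := by
  rw [Real.exp_le_exp]
  have := (abs_le.mp ht).1
  nlinarith

/-- The sign of the force component. -/
private theorem k1_force {n : ℕ} (v D e : E n) (κ σ ε Cs E0 epsj T : ℝ) (he : ‖e‖ ≤ 1)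
    (hv : ‖v - (T * epsj) • D‖ ≤ σ * ε) (hε : 0 < ε) (hE0 : 0 < E0) (hT : E0 ≤ T) (hCs : 0 < Cs)
    (hκ : 0 < κ)
    (hep : ε / Cs ≤ epsj) (hσ : σ < E0 * (κ / Cs)) (hσ0 : 0 < σ) :
    (κ ≤ inner ℝ D e → 0 < inner ℝ v e) ∧ (inner ℝ D e ≤ - κ → inner ℝ v e < 0) := by
  have hsplit : inner ℝ v e = (T * epsj) * inner ℝ D e + inner ℝ (v - (T * epsj) • D) e := by
    rw [inner_sub_left, real_inner_smul_left]; ring
  have herr : |inner ℝ (v - (T * epsj) • D) e| ≤ σ * ε := by
    refine (abs_real_inner_le_norm _ _).trans ?_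
    calc ‖v - (T * epsj) • D‖ * ‖e‖ ≤ (σ * ε) * 1 :=
          mul_le_mul hv he (norm_nonneg _) (by positivity)
      _ = σ * ε := mul_one _
  have hTe : E0 * (ε / Cs) ≤ T * epsj :=
    mul_le_mul hT hep (by positivity) (hE0.le.trans hT)
  have hpos : 0 < E0 * (ε / Cs) := by positivity
  have hkey : σ * ε < (T * epsj) * κ := by
    calc σ * ε < (E0 * (κ / Cs)) * ε := mul_lt_mul_of_pos_right hσ hε
      _ = (E0 * (ε / Cs)) * κ := by ring
      _ ≤ (T * epsj) * κ := mul_le_mul_of_nonneg_right hTe hκ.le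
  have hTp : 0 < T * epsj := hpos.trans_le hTe
  obtain ⟨h1, h2⟩ := abs_le.mp herr
  constructor
  · intro h
    have := mul_le_mul_of_nonneg_left h hTp.le
    rw [hsplit]; linarith
  · intro h
    have := mul_le_mul_of_nonneg_left h hTp.le
    rw [hsplit]; linarith

theorem main_of_cfg {n : ℕ} (hn : n = 3 ∨ n = 4) {α : ℝ} (hα : -1 < α) (P : Pol n)
    (J K G : Type) [Fintype J] [DecidableEq J] [Fintype K] (c : Cfg n α P J K G) :
    ∃ u : E n → ℝ, IntSol n α u ∧
      gam n * Fintype.card J ≤ ∫ z, ‖z‖ ^ (n * α) * Real.exp (n * u z) := by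
  obtain ⟨δ2, r, hδ2, hδ21, hr, hr1, hfam0⟩ := fixed_family hn
  have hd := c.hd
  obtain ⟨ε0, C, hε0, hε01, hC, hfam⟩ := hfam0 J α P c.d hα hd
  obtain ⟨Cs, hCs, hscale⟩ := cfg_scale (J := J) α P c.d hd
  clear hfam0
  have hn0 : (0 : ℝ) < n := by
    rcases hn with h | h <;> subst h <;> norm_num
  have hexp1 : Real.exp (-(n * δ2)) < 1 := by
    rw [Real.exp_lt_one_iff]
    have := mul_pos hn0 hδ2
    linarith
  have hexp0 := Real.exp_pos (-(n * δ2))
  have hexp2 : 1 - Real.exp (-(n * δ2)) ≤ Real.exp (n * δ2) - 1 := by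
    have h1 := Real.add_one_le_exp (-(n * δ2))
    have h2 := Real.add_one_le_exp (n * δ2)
    linarith
  -- the choice of σ
  obtain ⟨σ, hσ, hσ1, hσ2, hσ3⟩ := k1_sigma (1 - Real.exp (-(n * δ2))) (Real.exp (-(n * δ2)))
    (Real.exp (-(n * δ2)) * (c.c1 / Cs)) (by linarith) hexp0
    (mul_pos hexp0 (div_pos c.hc1 hCs))
  obtain ⟨ε1, hε1, hred⟩ := reduced (J := J) P hn hα c.d C σ hd hC hσ
  -- the choice of ε
  obtain ⟨ε, hε, hεa, hεb, hεc⟩ := k1_sigma ε0 ε1 (1 / 2) hε0 hε1 (by norm_num)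
  obtain ⟨S, hS, hcA, hcB, hcC, hfix⟩ := hfam ε hε hεa
  have hrpos : ∀ i, 0 < k1r K J δ2 ε i := by
    rintro (k | j | j)
    · exact one_pos
    · exact hδ2
    · exact hε
  have hmem := k1_mem c δ2 ε
  have hcont := k1_cont c δ2 ε
  have hmaps : MapsTo (k1q c) {z | ∀ i, |z i| ≤ k1r K J δ2 ε i} (Qd c.d δ2 ε) :=
    fun z hz => hmem z hz
  -- estimates on the cube
  have hest : ∀ z, (∀ i, |z i| ≤ k1r K J δ2 ε i) → ∀ j,
      |redA α P ε (c.d / 8) (k1q c z) (S (k1q c z)) j
          - (Real.exp (n * (k1q c z).2.1 j) - 1)| ≤ σ ∧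
      |redB α P ε (c.d / 8) (k1q c z) (S (k1q c z)) j
          - Real.exp (n * (k1q c z).2.1 j) * (k1q c z).2.2 j| ≤ σ * ε ∧
      ‖redC α P ε (c.d / 8) (k1q c z) (S (k1q c z)) j
          - (Real.exp (n * (k1q c z).2.1 j) * epj α P ε (k1q c z) j) • Dj α P (k1q c z).1 j‖
          ≤ σ * ε := by
    intro z hz j
    exact hred ε hε hεb δ2 hδ21 _ (hmem z hz) _ (hfix _ (hmem z hz)).1 j
  obtain ⟨z, hz, hz0⟩ := pm_cube (k1r K J δ2 ε) hrpos (k1F c ε S) (by
      rintro (k | j | j)
      · have h1 : ContinuousOn (fun z => redC α P ε (c.d / 8) (k1q c z) (S (k1q c z)) (c.idx k))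
            {z | ∀ i, |z i| ≤ k1r K J δ2 ε i} := (hcC (c.idx k)).comp hcont hmaps
        exact ContinuousOn.inner (𝕜 := ℝ) h1 continuousOn_const
      · have h1 : ContinuousOn (fun z => redA α P ε (c.d / 8) (k1q c z) (S (k1q c z)) j)
            {z | ∀ i, |z i| ≤ k1r K J δ2 ε i} := (hcA j).comp hcont hmaps
        by_cases h : c.rep j = j
        · simp only [k1F, h, if_true]; exact h1
        · simp only [k1F, h, if_false]; exact (continuous_apply _).continuousOn
      · have h1 : ContinuousOn (fun z => redB α P ε (c.d / 8) (k1q c z) (S (k1q c z)) j)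
            {z | ∀ i, |z i| ≤ k1r K J δ2 ε i} := (hcB j).comp hcont hmaps
        by_cases h : c.rep j = j
        · simp only [k1F, h, if_true]; exact h1
        · simp only [k1F, h, if_false]; exact (continuous_apply _).continuousOn)
    (by
      rintro z hz (k | j | j) hi
      · have hlo := c.lo (fun k => z (Sum.inl k)) (fun k => hz (Sum.inl k)) k hi
        have ht : |(k1q c z).2.1 (c.idx k)| ≤ δ2 := hz (Sum.inr (Sum.inl (c.rep (c.idx k))))
        exact (k1_force _ _ _ c.c1 σ ε Cs _ _ _ (c.dir_norm k) (hest z hz (c.idx k)).2.2 hε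
          hexp0 (k1_exp_lower n hn0 δ2 _ ht) hCs c.hc1
          (hscale ε hε δ2 hδ21 _ (hmem z hz) (c.idx k)).1 hσ3 hσ).2 hlo
      · by_cases h : c.rep j = j
        · simp only [k1F, h, if_true]
          have h1 := (hest z hz j).1
          have h2 : (k1q c z).2.1 j = - δ2 := by
            change z (Sum.inr (Sum.inl (c.rep j))) = - δ2
            rw [h]; exact hi
          rw [h2] at h1
          have h3 := (abs_le.mp h1).2
          have h4 : (n : ℝ) * -δ2 = -(n * δ2) := by ring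
          rw [h4] at h3
          linarith
        · simp only [k1F, h, if_false]
          rw [hi]; exact neg_lt_zero.mpr hδ2
      · by_cases h : c.rep j = j
        · simp only [k1F, h, if_true]
          have h1 := (hest z hz j).2.1
          have h2 : (k1q c z).2.2 j = - ε := by
            change z (Sum.inr (Sum.inr (c.rep j))) = - ε
            rw [h]; exact hi
          have ht : |(k1q c z).2.1 j| ≤ δ2 := hz (Sum.inr (Sum.inl (c.rep j)))
          have h5 := k1_exp_lower n hn0 δ2 _ ht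
          rw [h2] at h1
          have h3 := (abs_le.mp h1).2
          nlinarith
        · simp only [k1F, h, if_false]
          rw [hi]; exact neg_lt_zero.mpr hε)
    (by
      rintro z hz (k | j | j) hi
      · have hhi := c.hi (fun k => z (Sum.inl k)) (fun k => hz (Sum.inl k)) k hi
        have ht : |(k1q c z).2.1 (c.idx k)| ≤ δ2 := hz (Sum.inr (Sum.inl (c.rep (c.idx k))))
        exact (k1_force _ _ _ c.c1 σ ε Cs _ _ _ (c.dir_norm k) (hest z hz (c.idx k)).2.2 hε
          hexp0 (k1_exp_lower n hn0 δ2 _ ht) hCs c.hc1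
          (hscale ε hε δ2 hδ21 _ (hmem z hz) (c.idx k)).1 hσ3 hσ).1 hhi
      · by_cases h : c.rep j = j
        · simp only [k1F, h, if_true]
          have h1 := (hest z hz j).1
          have h2 : (k1q c z).2.1 j = δ2 := by
            change z (Sum.inr (Sum.inl (c.rep j))) = δ2
            rw [h]; exact hi
          rw [h2] at h1
          have h3 := (abs_le.mp h1).1
          linarith
        · simp only [k1F, h, if_false]
          rw [hi]; exact hδ2
      · by_cases h : c.rep j = j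
        · simp only [k1F, h, if_true]
          have h1 := (hest z hz j).2.1
          have h2 : (k1q c z).2.2 j = ε := by
            change z (Sum.inr (Sum.inr (c.rep j))) = ε
            rw [h]; exact hi
          have ht : |(k1q c z).2.1 j| ≤ δ2 := hz (Sum.inr (Sum.inl (c.rep j)))
          have h5 := k1_exp_lower n hn0 δ2 _ ht
          rw [h2] at h1
          have h3 := (abs_le.mp h1).1
          nlinarith
        · simp only [k1F, h, if_false]
          rw [hi]; exact hε)
  -- the zero is a solution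
  have hq := hmem z hz
  obtain ⟨hx1, hx2, hx3, hx4⟩ := hfix _ hq
  have hsymm : ∀ g j,
      redA α P ε (c.d / 8) (k1q c z) (S (k1q c z)) (c.perm g j)
        = redA α P ε (c.d / 8) (k1q c z) (S (k1q c z)) j ∧
      redB α P ε (c.d / 8) (k1q c z) (S (k1q c z)) (c.perm g j)
        = redB α P ε (c.d / 8) (k1q c z) (S (k1q c z)) j ∧
      redC α P ε (c.d / 8) (k1q c z) (S (k1q c z)) (c.perm g j)
        = c.iso g (redC α P ε (c.d / 8) (k1q c z) (S (k1q c z)) j) := by
    intro g j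
    obtain ⟨x', hn', hT', hj'⟩ := equivariant P hn hα c.d δ2 ε hd hε (by linarith) (c.iso g)
      (c.perm g) (c.hP g) (k1q c z) (k1q c z) hq hq (by
        intro j
        refine ⟨c.hXi g _ (fun k => hz (Sum.inl k)) j, ?_, ?_⟩
        · change z (Sum.inr (Sum.inl (c.rep (c.perm g j)))) = z (Sum.inr (Sum.inl (c.rep j)))
          rw [c.rep_inv]
        · change z (Sum.inr (Sum.inr (c.rep (c.perm g j)))) = z (Sum.inr (Sum.inr (c.rep j)))
          rw [c.rep_inv]) (S (k1q c z)) hx3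
    have hx' : x' = S (k1q c z) := hx4 x' (by rw [hn']; exact hx2) hT'
    rw [hx'] at hj'
    exact hj' j
  have hrepj : ∀ j, c.rep j = j →
      redA α P ε (c.d / 8) (k1q c z) (S (k1q c z)) j = 0 ∧
      redB α P ε (c.d / 8) (k1q c z) (S (k1q c z)) j = 0 ∧
      redC α P ε (c.d / 8) (k1q c z) (S (k1q c z)) j = 0 := by
    intro j hj
    have hA := hz0 (Sum.inr (Sum.inl j))
    have hB := hz0 (Sum.inr (Sum.inr j))
    simp only [k1F, hj, if_true] at hA hB
    refine ⟨hA, hB, c.closed j hj _ ?_ ?_⟩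
    · intro g hg
      have h1 := (hsymm g j).2.2
      rw [hg] at h1
      exact h1.symm
    · intro k hk
      have h1 := hz0 (Sum.inl k)
      simp only [k1F, hk] at h1
      exact h1
  refine solve P hn hα c.d δ2 ε hd hε hεc.le (k1q c z) hq (S (k1q c z)) hx3 ?_
  intro j
  obtain ⟨g, hg⟩ := c.hrep j
  have hrr : c.rep (c.rep j) = c.rep j := by
    have h1 := c.rep_inv g (c.rep j)
    rw [hg] at h1
    exact h1.symm
  obtain ⟨h1, h2, h3⟩ := hsymm g (c.rep j)
  obtain ⟨h4, h5, h6⟩ := hrepj (c.rep j) hrr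
  rw [hg] at h1 h2 h3
  refine ⟨h1.trans h4, h2.trans h5, ?_⟩
  rw [h3, h6, map_zero]

end Pool.Agent.QGlue
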