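import Pool.Agent.QGlue.DefsH
import Pool.Agent.QGlue.DefsK
import Pool.Agent.QGlue.H3
import Pool.Agent.QGlue.H4
import Pool.Agent.QGlue.H5b
import Pool.Agent.QGlue.K1
import Pool.Agent.QGlue.I4
import Pool.Agent.QGlue.I5
import Pool.Agent.QGlue.I6

set_option autoImplicit false

namespace Pool.Agent.QGlue

open MeasureTheory Real Set Filter Topology
open scoped FourierTransform SchwartzMap ContDiff Laplacian

theorem gam_pos (n : ℕ) : 0 < gam n := by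
  unfold gam
  split_ifs <;> positivity

theorem final_int {n : ℕ} (hn : n = 3 ∨ n = 4) {α : ℝ} (hα : -1 < α) (hα0 : α ≠ 0) (M : ℝ) :
    ∃ u : E n → ℝ, IntSol n α u ∧ M < ∫ z, ‖z‖ ^ (n * α) * Real.exp (n * u z) := by
  have hg := gam_pos n
  obtain ⟨N, hN⟩ := exists_nat_gt (M / gam n)
  have hN' : M < gam n * N := by
    rw [div_lt_iff₀ hg] at hN
    linarith
  rcases lt_or_gt_of_ne hα0 with h | h
  · obtain ⟨P, ⟨c⟩⟩ := cfg_neg hn hα h N
    obtain ⟨u, hu, hm⟩ := main_of_cfg hn hα P _ _ _ c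
    refine ⟨u, hu, lt_of_lt_of_le hN' ?_⟩
    simpa using hm
  · rcases le_or_gt α 1 with h1 | h1
    · obtain ⟨P, ⟨c⟩⟩ := cfg_one hn h h1 N
      obtain ⟨u, hu, hm⟩ := main_of_cfg hn hα P _ _ _ c
      refine ⟨u, hu, lt_of_lt_of_le hN' (le_trans ?_ hm)⟩
      apply mul_le_mul_of_nonneg_left _ hg.le
      simp
    · have hk1 : (1 : ℝ) < ⌈α⌉₊ := lt_of_lt_of_le h1 (Nat.le_ceil α)
      have hk : 2 ≤ ⌈α⌉₊ := by
        have : 1 < ⌈α⌉₊ := by exact_mod_cast hk1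
        omega
      haveI : NeZero ⌈α⌉₊ := ⟨by omega⟩
      obtain ⟨P, ⟨c⟩⟩ := cfg_ring hn h1 ⌈α⌉₊ hk
        (by have := Nat.le_ceil α; linarith) (Nat.ceil_lt_add_one (by linarith)) N
      obtain ⟨u, hu, hm⟩ := main_of_cfg hn hα P _ _ _ c
      refine ⟨u, hu, lt_of_lt_of_le hN' (le_trans ?_ hm)⟩
      apply mul_le_mul_of_nonneg_left _ hg.le
      simp

theorem final3 {α : ℝ} (hα : -1 < α) (hα0 : α ≠ 0) (M : ℝ) :
    ∃ u : E 3 → ℝ, IsSol3 α u ∧ M < ∫ z, ‖z‖ ^ (3 * α) * Real.exp (3 * u z) := by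
  obtain ⟨u, hu, hM⟩ := final_int (n := 3) (Or.inl rfl) hα hα0 M
  have e : ∀ x : E 3, ‖x‖ ^ (((3 : ℕ) : ℝ) * α) * Real.exp (((3 : ℕ) : ℝ) * u x)
      = ‖x‖ ^ (3 * α) * Real.exp (3 * u x) := by
    intro x; norm_num
  refine ⟨u, ⟨IntSol.loc (Or.inl rfl) hα hu, IntSol.weight hα hu, ?_, ?_⟩, ?_⟩
  · have h1 := hu.2.1
    have hint : Integrable (fun x : E 3 => ‖x‖ ^ (((3 : ℕ) : ℝ) * α) * Real.exp (((3 : ℕ) : ℝ) * u x)) := by
      refine Integrable.mono' h1 ?_ ?_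
      · have := hu.1
        fun_prop
      · refine ae_of_all _ (fun x => ?_)
        have hp : 0 ≤ ‖x‖ ^ (((3 : ℕ) : ℝ) * α) * Real.exp (((3 : ℕ) : ℝ) * u x) := by positivity
        rw [Real.norm_of_nonneg hp]
        nlinarith [norm_nonneg x]
    simpa only [e] using hint
  · intro φ
    have h := IntSol.weak (n := 3) (Or.inl rfl) hα hu (testPair_three φ)
    simp only [e] at h
    exact h
  · simpa only [e] using hM

theorem final4 {α : ℝ} (hα : -1 < α) (hα0 : α ≠ 0) (M : ℝ) :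
    ∃ u : E 4 → ℝ, IsSol4 α u ∧ M < ∫ z, ‖z‖ ^ (4 * α) * Real.exp (4 * u z) := by
  obtain ⟨u, hu, hM⟩ := final_int (n := 4) (Or.inr rfl) hα hα0 M
  have e : ∀ x : E 4, ‖x‖ ^ (((4 : ℕ) : ℝ) * α) * Real.exp (((4 : ℕ) : ℝ) * u x)
      = ‖x‖ ^ (4 * α) * Real.exp (4 * u x) := by
    intro x; norm_num
  refine ⟨u, ⟨IntSol.loc (Or.inr rfl) hα hu, ?_, ?_⟩, ?_⟩
  · have h1 := hu.2.1
    have hint : Integrable (fun x : E 4 => ‖x‖ ^ (((4 : ℕ) : ℝ) * α) * Real.exp (((4 : ℕ) : ℝ) * u x)) := by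
      refine Integrable.mono' h1 ?_ ?_
      · have := hu.1
        fun_prop
      · refine ae_of_all _ (fun x => ?_)
        have hp : 0 ≤ ‖x‖ ^ (((4 : ℕ) : ℝ) * α) * Real.exp (((4 : ℕ) : ℝ) * u x) := by positivity
        rw [Real.norm_of_nonneg hp]
        nlinarith [norm_nonneg x]
    simpa only [e] using hint
  · intro φ h1 h2
    have h := (IntSol.weak (n := 4) (Or.inr rfl) hα hu (testPair_four φ h1 h2)).2
    simp only [e] at h
    have h' : (((∫ x, u x * (Δ (Δ φ)) x : ℝ)) : ℂ)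
        = ((∫ x, ‖x‖ ^ (4 * α) * Real.exp (4 * u x) * φ x : ℝ) : ℂ) := by
      rw [← integral_complex_ofReal, ← integral_complex_ofReal]
      simpa [Complex.ofReal_mul] using h
    exact_mod_cast h'
  · simpa only [e] using hM

end Pool.Agent.QGlue
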